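import Pool.Agent.DRB.Stmts

/-!
# Module AUT2 of squad DRB: a number with countable orbit under `GalA` is algebraic
-/

set_option autoImplicit false

open scoped BigOperators Cardinal
open Matrix

namespace Pool.Agent.DRB

noncomputable section

namespace AUT2

/-- Permutations of a transcendence basis extend to automorphisms. -/
theorem exists_aut {k : Type} [Field k] [Algebra k ℂ] {ι : Type} (v : ι → ℂ)
    (hv : IsTranscendenceBasis k v) (e : Equiv.Perm ι) :
    ∃ τ : ℂ ≃+* ℂ, (∀ a : k, τ (algebraMap k ℂ a) = algebraMap k ℂ a) ∧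
      ∀ i, τ (v i) = v (e i) := by
  have := IsAlgClosed.isAlgClosure_of_transcendence_basis v hv
  let r : MvPolynomial ι k ≃ₐ[k] MvPolynomial ι k := MvPolynomial.renameEquiv k e
  let E : Algebra.adjoin k (Set.range v) ≃ₐ[k] Algebra.adjoin k (Set.range v) :=
    (hv.1.aevalEquiv.symm.trans r).trans hv.1.aevalEquiv
  refine ⟨IsAlgClosure.equivOfEquiv ℂ ℂ E.toRingEquiv, ?_, ?_⟩
  · intro a
    have h1 : algebraMap k ℂ a = algebraMap (Algebra.adjoin k (Set.range v)) ℂ
        (algebraMap k (Algebra.adjoin k (Set.range v)) a) := rfl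
    rw [h1, IsAlgClosure.equivOfEquiv_algebraMap]
    congr 1
    exact E.commutes a
  · intro i
    have h2 : ∀ j, v j = algebraMap (Algebra.adjoin k (Set.range v)) ℂ
        (hv.1.aevalEquiv (MvPolynomial.X j)) := by
      intro j
      rw [AlgebraicIndependent.algebraMap_aevalEquiv, MvPolynomial.aeval_X]
    rw [h2 i, IsAlgClosure.equivOfEquiv_algebraMap, h2 (e i)]
    congr 1
    change hv.1.aevalEquiv (r (hv.1.aevalEquiv.symm (hv.1.aevalEquiv (MvPolynomial.X i)))) = _
    rw [AlgEquiv.symm_apply_apply]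
    congr 1
    simp [r]

/-- The field of algebraic numbers. -/
abbrev Qb : IntermediateField ℚ ℂ := algebraicClosure ℚ ℂ

instance : Algebra.IsAlgebraic ℚ Qb := algebraicClosure.isAlgebraic ℚ ℂ

theorem countable_Qb : #Qb ≤ ℵ₀ := by
  have h := Algebraic.countable ℚ ℂ
  have h2 : ((Qb : IntermediateField ℚ ℂ) : Set ℂ) = {x : ℂ | IsAlgebraic ℚ x} := by
    ext x
    exact mem_algebraicClosure_iff
  have h3 : Set.Countable ((Qb : IntermediateField ℚ ℂ) : Set ℂ) := by
    rw [h2]; exact h
  exact Cardinal.le_aleph0_iff_set_countable.2 h3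

end AUT2

open AUT2

theorem aut2_proof : Stmt_Aut2 := by
  intro z hz
  by_contra htr
  have htr' : Transcendental Qb z := by
    intro hal
    haveI : Algebra.IsAlgebraic ℚ (algebraicClosure ℚ ℂ) := algebraicClosure.isAlgebraic ℚ ℂ
    exact htr (IsAlgebraic.restrictScalars (R := ℚ) (S := algebraicClosure ℚ ℂ) hal)
  have hind : AlgebraicIndepOn Qb id ({z} : Set ℂ) := by
    exact algebraicIndependent_unique_type_iff.mpr htr'
  obtain ⟨t, hzt, ht⟩ := exists_isTranscendenceBasis_superset hind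
  have hz' : z ∈ t := hzt rfl
  -- the basis is uncountable
  have hunc : ¬ t.Countable := by
    intro hc
    have h1 := IsAlgClosed.cardinal_le_max_transcendence_basis' _ ht
    have h2 : #t ≤ ℵ₀ := Cardinal.le_aleph0_iff_set_countable.2 hc
    have h3 : #ℂ ≤ ℵ₀ := h1.trans (max_le (max_le countable_Qb h2) le_rfl)
    rw [Cardinal.mk_complex] at h3
    exact absurd Cardinal.aleph0_lt_continuum (not_lt.2 h3)
  apply hunc
  apply hz.mono
  intro b hb
  classical
  obtain ⟨τ, h1, h2⟩ := exists_aut _ ht (Equiv.swap ⟨z, hz'⟩ ⟨b, hb⟩)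
  refine ⟨AlgEquiv.ofRingEquiv (f := τ) (fun q => by simp), ?_, ?_⟩
  · intro w hw
    exact h1 ⟨w, mem_algebraicClosure_iff.2 hw⟩
  · have h3 := h2 ⟨z, hz'⟩
    rw [Equiv.swap_apply_left] at h3
    exact h3.symm

end

end Pool.Agent.DRB
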