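import Pool.Agent.DRB.Stmts

/-! Module AUT1. -/

set_option autoImplicit false

open scoped BigOperators Topology
open Matrix Asymptotics Filter

namespace Pool.Agent.DRB

namespace Aut1X

/-- Extension of automorphisms of the base field and of permutations of a transcendence basis. -/
theorem ext_aut {F K ι : Type} [Field F] [Field K] [Algebra F K] [IsAlgClosed K] (v : ι → K)
    (hv : IsTranscendenceBasis F v) (τ : F ≃+* F) (π : ι ≃ ι) :
    ∃ σ : K ≃+* K, (∀ a : F, σ (algebraMap F K a) = algebraMap F K (τ a)) ∧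
      ∀ i, σ (v i) = v (π i) := by
  let _ := IsAlgClosed.isAlgClosure_of_transcendence_basis v hv
  let R := Algebra.adjoin F (Set.range v)
  let a1 : MvPolynomial ι F ≃+* R := hv.1.aevalEquiv.toRingEquiv
  let a2 : MvPolynomial ι F ≃+* MvPolynomial ι F :=
    (MvPolynomial.mapEquiv ι τ).trans (MvPolynomial.renameEquiv F π).toRingEquiv
  let e : R ≃+* R := a1.symm.trans (a2.trans a1)
  let σ : K ≃+* K := IsAlgClosure.equivOfEquiv K K e
  have key : ∀ p : MvPolynomial ι F, σ (MvPolynomial.aeval v p) = MvPolynomial.aeval v (a2 p) := by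
    intro p
    have h1 : algebraMap R K (a1 p) = MvPolynomial.aeval v p := hv.1.algebraMap_aevalEquiv p
    have h2 : algebraMap R K (a1 (a2 p)) = MvPolynomial.aeval v (a2 p) :=
      hv.1.algebraMap_aevalEquiv (a2 p)
    have h3 : σ (algebraMap R K (a1 p)) = algebraMap R K (e (a1 p)) :=
      IsAlgClosure.equivOfEquiv_algebraMap K K e (a1 p)
    have h4 : e (a1 p) = a1 (a2 p) := by
      show a1 (a2 (a1.symm (a1 p))) = a1 (a2 p)
      rw [RingEquiv.symm_apply_apply]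
    rw [← h1, h3, h4, h2]
  refine ⟨σ, fun a => ?_, fun i => ?_⟩
  · have h := key (MvPolynomial.C a)
    have h5 : a2 (MvPolynomial.C a) = MvPolynomial.C (τ a) := by
      show (MvPolynomial.renameEquiv F π) ((MvPolynomial.mapEquiv ι τ) (MvPolynomial.C a)) = _
      simp
    rw [h5, MvPolynomial.aeval_C, MvPolynomial.aeval_C] at h
    exact h
  · have h := key (MvPolynomial.X i)
    have h5 : a2 (MvPolynomial.X i) = MvPolynomial.X (π i) := by
      show (MvPolynomial.renameEquiv F π) ((MvPolynomial.mapEquiv ι τ) (MvPolynomial.X i)) = _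
      simp
    rw [h5, MvPolynomial.aeval_X, MvPolynomial.aeval_X] at h
    exact h

/-- A ring automorphism of `ℂ` as an algebra automorphism. -/
theorem to_alg (σ : ℂ ≃+* ℂ) : ∃ σ' : ℂ ≃ₐ[ℚ] ℂ, ∀ z, σ' z = σ z :=
  ⟨AlgEquiv.ofRingEquiv (f := σ) (fun q => by simp), fun _ => rfl⟩

theorem transc (z : ℂ) (hz : Transcendental ℚ z) : ∃ σ : ℂ ≃ₐ[ℚ] ℂ, σ z ≠ z := by
  classical
  have h1 : AlgebraicIndependent ℚ ((↑) : ({z} : Set ℂ) → ℂ) := by
    have := (algebraicIndependent_singleton_iff (R := ℚ) (x := ((↑) : ({z} : Set ℂ) → ℂ))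
      ⟨z, rfl⟩).mpr hz
    exact this
  obtain ⟨B, hzB, hB⟩ := exists_isTranscendenceBasis_superset h1
  have hcard : Cardinal.mk ℂ = Cardinal.mk B := by
    have h := IsAlgClosed.cardinal_eq_cardinal_transcendence_basis_of_aleph0_lt
      ((↑) : B → ℂ) hB (by simp) (by
        rw [Cardinal.mk_complex]
        exact Cardinal.aleph0_lt_continuum)
    simpa using h
  have hzB' : z ∈ B := hzB rfl
  have hinf : Infinite B := by
    rw [Cardinal.infinite_iff, ← hcard, Cardinal.mk_complex]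
    exact Cardinal.aleph0_le_continuum
  obtain ⟨b, hb⟩ := exists_ne (⟨z, hzB'⟩ : B)
  obtain ⟨σ, -, hσ⟩ := ext_aut ((↑) : B → ℂ) hB (RingEquiv.refl ℚ) (Equiv.swap ⟨z, hzB'⟩ b)
  obtain ⟨σ', hσ'⟩ := to_alg σ
  refine ⟨σ', ?_⟩
  rw [hσ']
  have h2 := hσ ⟨z, hzB'⟩
  rw [Equiv.swap_apply_left] at h2
  rw [h2]
  intro h3
  exact hb (Subtype.ext h3)

theorem algebraic (z : ℂ) (hz : IsAlgebraic ℚ z) (hq : ∀ q : ℚ, z ≠ q) :
    ∃ σ : ℂ ≃ₐ[ℚ] ℂ, σ z ≠ z := by
  let F := algebraicClosure ℚ ℂ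
  have hzF : z ∈ F := mem_algebraicClosure_iff.2 hz
  have hcl : IsAlgClosure ℚ F := algebraicClosure.isAlgClosure ℚ ℂ
  have hG : IsGalois ℚ F := IsAlgClosure.isGalois ℚ F
  have h1 : (⟨z, hzF⟩ : F) ∉ Set.range (algebraMap ℚ F) := by
    rintro ⟨q, hq'⟩
    apply hq q
    have := congrArg Subtype.val hq'
    exact this.symm
  rw [InfiniteGalois.mem_range_algebraMap_iff_fixed] at h1
  push Not at h1
  obtain ⟨τ, hτ⟩ := h1
  obtain ⟨ι, v, hv⟩ := exists_isTranscendenceBasis' F ℂ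
  obtain ⟨σ, hσ, -⟩ := ext_aut v hv τ.toRingEquiv (Equiv.refl ι)
  obtain ⟨σ', hσ'⟩ := to_alg σ
  refine ⟨σ', ?_⟩
  rw [hσ']
  intro h2
  apply hτ
  apply Subtype.ext
  have h3 := hσ ⟨z, hzF⟩
  exact h3.symm.trans h2

end Aut1X

open Aut1X in
theorem aut1_proof : Stmt_Aut1 := by
  intro z h
  by_contra hcon
  push Not at hcon
  by_cases hz : IsAlgebraic ℚ z
  · obtain ⟨σ, hσ⟩ := algebraic z hz hcon
    exact hσ (h σ)
  · obtain ⟨σ, hσ⟩ := transc z hz
    exact hσ (h σ)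

end Pool.Agent.DRB
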