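import Pool.Agent.DRB.Stmts

/-!
# DRB, module DESCQ: Galois descent to `ℚ` (minimal support argument)
-/

open scoped BigOperators Topology

namespace Pool.Agent.DRB

noncomputable section

namespace DESCQX

/-- General descent: a subspace stable under a set of automorphisms whose common fixed elements are
good is spanned by its vectors with good coordinates. -/
theorem descent {κ : Type} [Fintype κ] (G : Set (ℂ ≃ₐ[ℚ] ℂ)) (Good : ℂ → Prop)
    (hfix : ∀ z, (∀ σ ∈ G, σ z = z) → Good z) (D : Submodule ℂ (κ → ℂ))
    (hD : ∀ σ ∈ G, ∀ v ∈ D, (fun k => σ (v k)) ∈ D) :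
    D ≤ Submodule.span ℂ {v | v ∈ D ∧ ∀ k, Good (v k)} := by
  classical
  set E := Submodule.span ℂ {v | v ∈ D ∧ ∀ k, Good (v k)} with hE
  have key : ∀ n : ℕ, ∀ v ∈ D, (Finset.univ.filter fun k => v k ≠ 0).card ≤ n → v ∈ E := by
    intro n
    induction n with
    | zero =>
      intro v _ hn
      have h1 : v = 0 := by
        funext k
        by_contra hk
        have : k ∈ Finset.univ.filter fun k => v k ≠ 0 := by simpa using hk
        rw [Nat.le_zero, Finset.card_eq_zero] at hn
        rw [hn] at this
        simp at this
      rw [h1]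
      exact E.zero_mem
    | succ n ih =>
      intro v hv hn
      by_cases hv0 : v = 0
      · rw [hv0]
        exact E.zero_mem
      -- nonzero vector of minimal support
      have hex : ∃ m, ∃ u ∈ D, u ≠ 0 ∧ (∀ k, v k = 0 → u k = 0) ∧
          (Finset.univ.filter fun k => u k ≠ 0).card = m := ⟨_, v, hv, hv0, fun _ h => h, rfl⟩
      obtain ⟨u, huD, hu0, huv, hum⟩ := Nat.find_spec hex
      have hmin : ∀ w ∈ D, (∀ k, v k = 0 → w k = 0) →
          (Finset.univ.filter fun k => w k ≠ 0).card < (Finset.univ.filter fun k => u k ≠ 0).card →
          w = 0 := by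
        intro w hw hwv hlt
        by_contra hw0
        rw [hum] at hlt
        exact Nat.find_min hex hlt ⟨w, hw, hw0, hwv, rfl⟩
      obtain ⟨k0, hk0⟩ : ∃ k, u k ≠ 0 := by
        by_contra hcon
        push Not at hcon
        exact hu0 (funext hcon)
      set u' : κ → ℂ := (u k0)⁻¹ • u with hu'
      have hu'D : u' ∈ D := D.smul_mem _ huD
      have hu'k : u' k0 = 1 := by simp [hu', hk0]
      have hu'z : ∀ k, u k = 0 → u' k = 0 := fun k hk => by simp [hu', hk]
      have hfixed : ∀ σ ∈ G, ∀ k, σ (u' k) = u' k := by
        intro σ hσ
        have h1 : (fun k => σ (u' k)) - u' = 0 := by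
          refine hmin _ (D.sub_mem (hD σ hσ u' hu'D) hu'D) ?_ ?_
          · intro k hk
            simp [hu'z k (huv k hk)]
          · apply Finset.card_lt_card
            rw [Finset.ssubset_iff_of_subset]
            · refine ⟨k0, by simpa using hk0, ?_⟩
              simp [hu'k]
            · intro k hk
              simp only [Finset.mem_filter, Finset.mem_univ, true_and] at hk ⊢
              intro h2
              apply hk
              simp [hu'z k h2]
        intro k
        have := congrFun h1 k
        simpa [sub_eq_zero] using this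
      have hu'E : u' ∈ E := by
        rw [hE]
        exact Submodule.subset_span ⟨hu'D, fun k => hfix _ fun σ hσ => hfixed σ hσ k⟩
      have h3 : v - v k0 • u' ∈ E := by
        refine ih _ (D.sub_mem hv (D.smul_mem _ hu'D)) ?_
        have hvk0 : v k0 ≠ 0 := fun h => hk0 (huv k0 h)
        have h4 : (Finset.univ.filter fun k => (v - v k0 • u') k ≠ 0).card <
            (Finset.univ.filter fun k => v k ≠ 0).card := by
          apply Finset.card_lt_card
          rw [Finset.ssubset_iff_of_subset]
          · refine ⟨k0, by simpa using hvk0, ?_⟩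
            simp [hu'k]
          · intro k hk
            simp only [Finset.mem_filter, Finset.mem_univ, true_and] at hk ⊢
            intro h5
            apply hk
            simp [h5, hu'z k (huv k h5)]
        omega
      have h6 : v = (v - v k0 • u') + v k0 • u' := by simp
      rw [h6]
      exact E.add_mem h3 (E.smul_mem _ hu'E)
  intro v hv
  exact key _ v hv le_rfl

end DESCQX

theorem descq_proof (h : Stmt_Aut1) : Stmt_DescQ := by
  intro κ _ D hD
  refine DESCQX.descent Set.univ (fun z => ∃ q : ℚ, z = q) ?_ D fun σ _ v hv => hD σ v hv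
  intro z hz
  exact h z fun σ => hz σ (Set.mem_univ σ)

end

end Pool.Agent.DRB
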