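import Pool.Agent.DRB.Defs4

/-!
# De Rham-Betti conjecture: Hodge substructures of tensor spaces
-/

open scoped BigOperators
open Matrix

namespace Pool.Agent.DRB

noncomputable section

/-- `x` is the action of `z` on the Hodge structure `H_1(A, ℂ) = H^{-1,0} ⊕ H^{0,-1}`, where
`H^{0,-1}` is the kernel of the map to `Lie A` and `H^{-1,0}` is its complex conjugate: `z` acts trivially
on `H^{0,-1}` and by multiplication by `z` on `H^{-1,0}`. -/
structure AbVar.IsMu {g : ℕ} (A : AbVar g) (z : ℂˣ) (x : GL (Idx g) ℂ) : Prop where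
  h0 : ∀ v : Idx g → ℂ, (∀ k : Fin g, (A.per *ᵥ v) (Sum.inl k) = 0) →
    (x : Matrix (Idx g) (Idx g) ℂ) *ᵥ v = v
  h1 : ∀ v : Idx g → ℂ, (∀ k : Fin g, (A.per *ᵥ fun i => (starRingEnd ℂ) (v i)) (Sum.inl k) = 0) →
    (x : Matrix (Idx g) (Idx g) ℂ) *ᵥ v = (z : ℂ) • v

/-- `D` is (the complexification of) a rational sub-Hodge structure of the tensor space
`⊕_r H_1(A)^{⊗ a r} (k r)`. -/
def IsHodge {g : ℕ} (A : AbVar g) (t : TData) (D : Submodule ℂ (TIdx t (Idx g) → ℂ)) : Prop :=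
  RatSpan D ∧ ∀ (z : ℂˣ) (x : GL (Idx g) ℂ), A.IsMu z x →
    D.map (TAct t (x : Matrix (Idx g) (Idx g) ℂ) (z : ℂ)) = D

/-- The de Rham-Betti conjecture for `A`. -/
def MainStatement5 : Prop :=
  ∀ (g : ℕ) (A : AbVar g), A.Rank2CM →
    (∀ (x : GL (Idx g) ℂ) (ν : ℂˣ), InGdRB A x ν ↔
      (A.Comm x.val ∧ x.valᵀ * A.riem * x.val = ν.val • A.riem ∧ A.HodgeRels x ν)) ∧
    ∀ (t : TData) (D : Submodule ℂ (TIdx t (Idx g) → ℂ)), IsDRB A t D → IsHodge A t D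

end

end Pool.Agent.DRB
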