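import Pool.Agent.DRB.Stmts

/-!
# DRB / POS: positivity of the Rosati involution
-/

open scoped BigOperators Topology
open Matrix Asymptotics Filter

namespace Pool.Agent.DRB

noncomputable section

namespace PosX

/-- The hermitian form of a matrix. -/
def Hf {g : ℕ} (h : Matrix (Fin g) (Fin g) ℂ) (z w : Fin g → ℂ) : ℂ :=
  ∑ k, ∑ l, z k * h k l * (starRingEnd ℂ) (w l)

theorem Hf_smul_left {g : ℕ} (h : Matrix (Fin g) (Fin g) ℂ) (c : ℂ) (z w : Fin g → ℂ) :
    Hf h (c • z) w = c * Hf h z w := by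
  unfold Hf
  rw [Finset.mul_sum]
  refine Finset.sum_congr rfl fun k _ => ?_
  rw [Finset.mul_sum]
  refine Finset.sum_congr rfl fun l _ => ?_
  simp only [Pi.smul_apply, smul_eq_mul]
  ring

theorem Hf_smul_right {g : ℕ} (h : Matrix (Fin g) (Fin g) ℂ) (c : ℂ) (z w : Fin g → ℂ) :
    Hf h z (c • w) = (starRingEnd ℂ) c * Hf h z w := by
  unfold Hf
  rw [Finset.mul_sum]
  refine Finset.sum_congr rfl fun k _ => ?_
  rw [Finset.mul_sum]
  refine Finset.sum_congr rfl fun l _ => ?_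
  simp only [Pi.smul_apply, smul_eq_mul, map_mul]
  ring

theorem Hf_sum_left {g : ℕ} (h : Matrix (Fin g) (Fin g) ℂ) {κ : Type} (s : Finset κ)
    (z : κ → Fin g → ℂ) (w : Fin g → ℂ) :
    Hf h (∑ i ∈ s, z i) w = ∑ i ∈ s, Hf h (z i) w := by
  unfold Hf
  rw [Finset.sum_comm (s := s)]
  refine Finset.sum_congr rfl fun k _ => ?_
  rw [Finset.sum_comm (s := s)]
  refine Finset.sum_congr rfl fun l _ => ?_
  rw [Finset.sum_apply, Finset.sum_mul, Finset.sum_mul]

theorem Hf_sum_right {g : ℕ} (h : Matrix (Fin g) (Fin g) ℂ) {κ : Type} (s : Finset κ)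
    (z : Fin g → ℂ) (w : κ → Fin g → ℂ) :
    Hf h z (∑ i ∈ s, w i) = ∑ i ∈ s, Hf h z (w i) := by
  unfold Hf
  rw [Finset.sum_comm (s := s)]
  refine Finset.sum_congr rfl fun k _ => ?_
  rw [Finset.sum_comm (s := s)]
  refine Finset.sum_congr rfl fun l _ => ?_
  rw [Finset.sum_apply, map_sum, Finset.mul_sum]

theorem Hf_conj {g : ℕ} {h : Matrix (Fin g) (Fin g) ℂ} (hh : h.IsHermitian) (z w : Fin g → ℂ) :
    (starRingEnd ℂ) (Hf h z w) = Hf h w z := by
  unfold Hf
  rw [map_sum]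
  simp only [map_sum, map_mul]
  rw [Finset.sum_comm]
  refine Finset.sum_congr rfl fun k _ => Finset.sum_congr rfl fun l _ => ?_
  have h1 : (starRingEnd ℂ) (h l k) = h k l := by
    have := congrFun (congrFun hh k) l
    rw [Matrix.conjTranspose_apply] at this
    exact this
  rw [h1, Complex.conj_conj]
  ring

theorem Hf_zero_right {g : ℕ} (h : Matrix (Fin g) (Fin g) ℂ) (z : Fin g → ℂ) :
    Hf h z 0 = 0 := by
  simp [Hf]

variable {g : ℕ} (A : AbVar g)

theorem pr_per (v : Idx g → ℂ) : pr (A.per *ᵥ v) = ∑ i, v i • A.lat i := by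
  funext k
  simp only [pr, AbVar.per, Matrix.mulVec, dotProduct, Matrix.of_apply, Sum.elim_inl,
    Finset.sum_apply, Pi.smul_apply, smul_eq_mul]
  exact Finset.sum_congr rfl fun i _ => mul_comm _ _

/-- Real vectors. -/
def cx (x : Idx g → ℝ) : Idx g → ℂ := fun i => (x i : ℂ)

theorem pr_per_real (x : Idx g → ℝ) : pr (A.per *ᵥ cx x) = ∑ i, x i • A.lat i := by
  rw [pr_per]
  refine Finset.sum_congr rfl fun i _ => ?_
  funext k
  simp [cx]

theorem inj (x : Idx g → ℝ) (h : pr (A.per *ᵥ cx x) = 0) : x = 0 := by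
  rw [pr_per_real] at h
  funext i
  exact Fintype.linearIndependent_iff.1 A.lat_indep x h i

theorem surj (z : Fin g → ℂ) : ∃ x : Idx g → ℝ, pr (A.per *ᵥ cx x) = z := by
  have h1 : Submodule.span ℝ (Set.range A.lat) = ⊤ := by
    apply A.lat_indep.span_eq_top_of_card_eq_finrank'
    rw [Module.finrank_pi_fintype]
    simp [Complex.finrank_real_complex, Fintype.card_sum, mul_two]
  have h2 : z ∈ Submodule.span ℝ (Set.range A.lat) := by
    rw [h1]
    trivial
  rw [Submodule.mem_span_range_iff_exists_fun] at h2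
  obtain ⟨c, hc⟩ := h2
  refine ⟨c, ?_⟩
  rw [pr_per_real]
  exact hc

/-- The upper left block. -/
def blk (ρ : Matrix (Idx g) (Idx g) ℂ) : Matrix (Fin g) (Fin g) ℂ :=
  Matrix.of fun i j => ρ (Sum.inl i) (Sum.inl j)

theorem pr_blk (ρ : Matrix (Idx g) (Idx g) ℂ) (hρ : ∀ i j, ρ (Sum.inl i) (Sum.inr j) = 0)
    (w : Idx g → ℂ) : pr (ρ *ᵥ w) = blk ρ *ᵥ pr w := by
  funext k
  simp only [pr, blk, Matrix.mulVec, dotProduct, Matrix.of_apply, Fintype.sum_sum_type, hρ,
    zero_mul, Finset.sum_const_zero, add_zero]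

theorem act {α : Matrix (Idx g) (Idx g) ℚ} {ρ : Matrix (Idx g) (Idx g) ℂ}
    (hρ : ∀ i j, ρ (Sum.inl i) (Sum.inr j) = 0) (h : A.per * AbVar.toC α = ρ * A.per)
    (v : Idx g → ℂ) : pr (A.per *ᵥ (AbVar.toC α *ᵥ v)) = blk ρ *ᵥ pr (A.per *ᵥ v) := by
  rw [Matrix.mulVec_mulVec, h, ← Matrix.mulVec_mulVec, pr_blk ρ hρ]

/-- A rational matrix as a real matrix acts on real vectors. -/
theorem toC_cx (α : Matrix (Idx g) (Idx g) ℚ) (x : Idx g → ℝ) :
    AbVar.toC α *ᵥ cx x = cx ((α.map (algebraMap ℚ ℝ)) *ᵥ x) := by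
  funext i
  simp only [AbVar.toC, cx, Matrix.mulVec, dotProduct, Matrix.map_apply, Complex.ofReal_sum,
    Complex.ofReal_mul]
  refine Finset.sum_congr rfl fun j _ => ?_
  simp

theorem E_eq {h : Matrix (Fin g) (Fin g) ℂ}
    (hE : ∀ i j, A.riem i j =
      ((∑ k, ∑ l, A.lat i k * h k l * (starRingEnd ℂ) (A.lat j l)).im : ℂ))
    (x y : Idx g → ℝ) :
    ((Hf h (pr (A.per *ᵥ cx x)) (pr (A.per *ᵥ cx y))).im : ℂ) =
      cx x ⬝ᵥ (A.riem *ᵥ cx y) := by
  have h1 : Hf h (pr (A.per *ᵥ cx x)) (pr (A.per *ᵥ cx y)) =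
      ∑ i, ∑ j, ((x i * y j : ℝ) : ℂ) * Hf h (A.lat i) (A.lat j) := by
    rw [pr_per, pr_per, Hf_sum_left]
    refine Finset.sum_congr rfl fun i _ => ?_
    rw [Hf_sum_right]
    refine Finset.sum_congr rfl fun j _ => ?_
    rw [Hf_smul_left, Hf_smul_right]
    simp only [cx, Complex.conj_ofReal, Complex.ofReal_mul]
    ring
  rw [h1, Complex.im_sum, Complex.ofReal_sum]
  simp only [dotProduct, Matrix.mulVec]
  refine Finset.sum_congr rfl fun i _ => ?_
  rw [Complex.im_sum, Complex.ofReal_sum, Finset.mul_sum]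
  refine Finset.sum_congr rfl fun j _ => ?_
  rw [hE i j, Complex.im_ofReal_mul, Complex.ofReal_mul, Complex.ofReal_mul]
  simp only [cx, Hf]
  ring

theorem adj {h : Matrix (Fin g) (Fin g) ℂ}
    (hE : ∀ i j, A.riem i j =
      ((∑ k, ∑ l, A.lat i k * h k l * (starRingEnd ℂ) (A.lat j l)).im : ℂ))
    {α β : Matrix (Idx g) (Idx g) ℚ} {ρ σ : Matrix (Idx g) (Idx g) ℂ}
    (hρ : ∀ i j, ρ (Sum.inl i) (Sum.inr j) = 0) (hα : A.per * AbVar.toC α = ρ * A.per)
    (hσ : ∀ i j, σ (Sum.inl i) (Sum.inr j) = 0) (hβ : A.per * AbVar.toC β = σ * A.per)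
    (hR : A.IsRosati α β) (z w : Fin g → ℂ) :
    Hf h (blk ρ *ᵥ z) w = Hf h z (blk σ *ᵥ w) := by
  have him : ∀ z w : Fin g → ℂ, (Hf h (blk ρ *ᵥ z) w).im = (Hf h z (blk σ *ᵥ w)).im := by
    intro z w
    obtain ⟨x, rfl⟩ := surj A z
    obtain ⟨y, rfl⟩ := surj A w
    have h1 := E_eq A hE ((α.map (algebraMap ℚ ℝ)) *ᵥ x) y
    have h2 := E_eq A hE x ((β.map (algebraMap ℚ ℝ)) *ᵥ y)
    rw [← toC_cx] at h1 h2
    rw [act A hρ hα] at h1
    rw [act A hσ hβ] at h2
    have h3 : (AbVar.toC α *ᵥ cx x) ⬝ᵥ (A.riem *ᵥ cx y) =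
        cx x ⬝ᵥ (A.riem *ᵥ (AbVar.toC β *ᵥ cx y)) := by
      have h4 : (AbVar.toC α *ᵥ cx x) = cx x ᵥ* (AbVar.toC α)ᵀ := by
        rw [Matrix.vecMul_transpose]
      rw [h4, ← Matrix.dotProduct_mulVec, Matrix.mulVec_mulVec, Matrix.mulVec_mulVec, hR]
    rw [h3, ← h2] at h1
    exact_mod_cast h1
  apply Complex.ext _ (him z w)
  have h1 := him (Complex.I • z) w
  rw [Matrix.mulVec_smul, Hf_smul_left, Hf_smul_left] at h1
  simpa using h1

theorem toC_transpose (α : Matrix (Idx g) (Idx g) ℚ) :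
    AbVar.toC αᵀ = (AbVar.toC α)ᵀ := by
  rfl

theorem toC_inj {α : Matrix (Idx g) (Idx g) ℚ} (h : AbVar.toC α = 0) : α = 0 := by
  ext i j
  have := congrFun (congrFun h i) j
  simpa [AbVar.toC] using this

theorem toC_one : AbVar.toC (1 : Matrix (Idx g) (Idx g) ℚ) = 1 := by
  ext i j
  by_cases h : i = j
  · subst h
    simp [AbVar.toC]
  · simp [AbVar.toC, h]

/-- An endomorphism which acts as zero on the tangent space is zero. -/
theorem eq_zero_of_blk {α : Matrix (Idx g) (Idx g) ℚ} {ρ : Matrix (Idx g) (Idx g) ℂ}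
    (hρ : ∀ i j, ρ (Sum.inl i) (Sum.inr j) = 0) (h : A.per * AbVar.toC α = ρ * A.per)
    (h0 : ∀ z, blk ρ *ᵥ z = 0) : α = 0 := by
  have h1 : ∀ x : Idx g → ℝ, (α.map (algebraMap ℚ ℝ)) *ᵥ x = 0 := by
    intro x
    apply inj A
    rw [← toC_cx, act A hρ h, h0]
  ext i j
  have h2 := congrFun (h1 (Pi.single j 1)) i
  rw [Matrix.mulVec_single_one] at h2
  simpa using h2

/-- Existence of adjoints. -/
theorem exists_rosati (hint : ∀ i j, ∃ n : ℤ, A.riem i j = n)
    (hleg : A.perᵀ * Jm g * A.per = tpi • A.riem) (hdet : IsUnit A.riem.det)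
    (α : Matrix (Idx g) (Idx g) ℚ) (hα : α ∈ A.EndQ) : ∃ β ∈ A.EndQ, A.IsRosati α β := by
  choose n hn using hint
  let Rq : Matrix (Idx g) (Idx g) ℚ := Matrix.of fun i j => (n i j : ℚ)
  have hRq : AbVar.toC Rq = A.riem := by
    ext i j
    rw [hn i j]
    simp [AbVar.toC, Rq]
  have hdq : IsUnit Rq.det := by
    rw [isUnit_iff_ne_zero]
    intro h0
    rw [isUnit_iff_ne_zero] at hdet
    apply hdet
    rw [← hRq]
    have : (AbVar.toC Rq).det = algebraMap ℚ ℂ Rq.det := by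
      unfold AbVar.toC
      rw [RingHom.map_det]
      rfl
    rw [this, h0, map_zero]
  obtain ⟨ρ, h1, h2, h3⟩ := hα
  have hros : A.IsRosati α (Rq⁻¹ * αᵀ * Rq) := by
    unfold AbVar.IsRosati
    rw [← hRq, ← toC_transpose, ← AbVar.toC_mul, ← AbVar.toC_mul]
    congr 1
    rw [Matrix.mul_assoc, ← Matrix.mul_assoc Rq, Matrix.mul_nonsing_inv _ hdq, Matrix.one_mul]
  refine ⟨Rq⁻¹ * αᵀ * Rq, ?_, hros⟩
  set β := Rq⁻¹ * αᵀ * Rq with hβ
  refine ⟨-(Jm g * ρᵀ * Jm g), ?_, ?_, ?_⟩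
  · have hJ : ∀ r s, IsAlgebraic ℚ (Jm g r s) := by
      intro r s
      rcases r with r | r <;> rcases s with s | s
      · simpa [Jm] using isAlgebraic_zero
      · simp only [Jm, Matrix.fromBlocks_apply₁₂, Matrix.one_apply]
        split_ifs
        · exact isAlgebraic_one
        · exact isAlgebraic_zero
      · simp only [Jm, Matrix.fromBlocks_apply₂₁, Matrix.neg_apply, Matrix.one_apply]
        split_ifs
        · exact isAlgebraic_one.neg
        · exact isAlgebraic_zero.neg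
      · simpa [Jm] using isAlgebraic_zero
    intro r s
    rw [Matrix.neg_apply, Matrix.mul_apply]
    apply IsAlgebraic.neg
    apply AbVar.isAlgebraic_sum
    intro k _
    apply IsAlgebraic.mul _ (hJ _ _)
    rw [Matrix.mul_apply]
    apply AbVar.isAlgebraic_sum
    intro l _
    exact (hJ _ _).mul (h1 _ _)
  · intro i j
    have hb : ρ = Matrix.fromBlocks ρ.toBlocks₁₁ 0 ρ.toBlocks₂₁ ρ.toBlocks₂₂ := by
      have : ρ.toBlocks₁₂ = 0 := by
        ext i j
        exact h2 i j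
      rw [← this, Matrix.fromBlocks_toBlocks]
    rw [hb]
    unfold Jm
    rw [Matrix.fromBlocks_transpose, Matrix.fromBlocks_multiply, Matrix.fromBlocks_multiply,
      Matrix.neg_apply, Matrix.fromBlocks_apply₁₂]
    simp
  · have hP : IsUnit A.per.det := A.nondeg
    have hPt : IsUnit A.perᵀ.det := by
      rw [Matrix.det_transpose]
      exact hP
    have hJJ : Jm g * Jm g = -1 := by
      unfold Jm
      rw [Matrix.fromBlocks_multiply]
      simp only [Matrix.mul_zero, Matrix.mul_one, zero_add,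
        add_zero, Matrix.mul_neg]
      rw [← Matrix.fromBlocks_one, Matrix.fromBlocks_neg]
      simp
    have e1 : A.perᵀ * (Jm g * A.per * AbVar.toC β) = A.perᵀ * (ρᵀ * Jm g * A.per) := by
      have e2 : A.perᵀ * (Jm g * A.per * AbVar.toC β) = tpi • (A.riem * AbVar.toC β) := by
        rw [← Matrix.smul_mul, ← hleg]
        simp only [Matrix.mul_assoc]
      have e3 : A.perᵀ * (ρᵀ * Jm g * A.per) = tpi • ((AbVar.toC α)ᵀ * A.riem) := by
        rw [← Matrix.mul_smul, ← hleg]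
        have : A.perᵀ * ρᵀ = (AbVar.toC α)ᵀ * A.perᵀ := by
          rw [← Matrix.transpose_mul, ← Matrix.transpose_mul, h3]
        calc A.perᵀ * (ρᵀ * Jm g * A.per) = (A.perᵀ * ρᵀ) * (Jm g * A.per) := by
              simp only [Matrix.mul_assoc]
          _ = ((AbVar.toC α)ᵀ * A.perᵀ) * (Jm g * A.per) := by rw [this]
          _ = _ := by simp only [Matrix.mul_assoc]
      rw [e2, e3, hros]
    have e4 : Jm g * A.per * AbVar.toC β = ρᵀ * Jm g * A.per := by
      have := congrArg (fun M => (A.perᵀ)⁻¹ * M) e1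
      simpa only [← Matrix.mul_assoc, Matrix.nonsing_inv_mul _ hPt, Matrix.one_mul] using this
    have e5 := congrArg (fun M => Jm g * M) e4
    simp only [← Matrix.mul_assoc, hJJ] at e5
    rw [Matrix.neg_mul, Matrix.one_mul, Matrix.neg_mul] at e5
    rw [Matrix.neg_mul, ← e5, neg_neg]

theorem isRosati_symm (hsk : A.riemᵀ = - A.riem) {α β : Matrix (Idx g) (Idx g) ℚ}
    (h : A.IsRosati α β) : A.IsRosati β α := by
  unfold AbVar.IsRosati at h ⊢
  have h1 := congrArg Matrix.transpose h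
  rw [Matrix.transpose_mul, Matrix.transpose_mul, Matrix.transpose_transpose, hsk,
    Matrix.neg_mul, Matrix.mul_neg, neg_inj] at h1
  exact h1.symm

theorem toC_conj (α : Matrix (Idx g) (Idx g) ℚ) (v : Idx g → ℂ) :
    AbVar.toC α *ᵥ (star v) = star (AbVar.toC α *ᵥ v) := by
  funext i
  simp only [Matrix.mulVec, dotProduct, Pi.star_apply, star_sum, star_mul']
  refine Finset.sum_congr rfl fun j _ => ?_
  congr 1
  simp [AbVar.toC]

/-- A nonzero vector or its conjugate has a nonzero image in the tangent space. -/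
theorem pr_ne_zero {v : Idx g → ℂ} (hv : v ≠ 0) :
    pr (A.per *ᵥ v) ≠ 0 ∨ pr (A.per *ᵥ (star v)) ≠ 0 := by
  by_contra hcon
  push Not at hcon
  obtain ⟨h1, h2⟩ := hcon
  rw [pr_per] at h1 h2
  have hre : (fun i => (v i).re) = (0 : Idx g → ℝ) := by
    apply inj A
    rw [pr_per]
    have : (∑ i, cx (fun i => (v i).re) i • A.lat i) =
        (1 / 2 : ℂ) • ((∑ i, v i • A.lat i) + ∑ i, (star v) i • A.lat i) := by
      rw [← Finset.sum_add_distrib, Finset.smul_sum]
      refine Finset.sum_congr rfl fun i _ => ?_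
      rw [← add_smul, smul_smul]
      congr 1
      simp only [cx, Pi.star_apply]
      have := Complex.add_conj (v i)
      rw [Complex.star_def, this]
      push_cast
      ring
    rw [this, h1, h2]
    simp
  have him : (fun i => (v i).im) = (0 : Idx g → ℝ) := by
    apply inj A
    rw [pr_per]
    have : (∑ i, cx (fun i => (v i).im) i • A.lat i) =
        (1 / (2 * Complex.I) : ℂ) • ((∑ i, v i • A.lat i) - ∑ i, (star v) i • A.lat i) := by
      rw [← Finset.sum_sub_distrib, Finset.smul_sum]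
      refine Finset.sum_congr rfl fun i _ => ?_
      rw [← sub_smul, smul_smul]
      congr 1
      simp only [cx, Pi.star_apply]
      have := Complex.sub_conj (v i)
      rw [Complex.star_def, this]
      push_cast
      have hI : Complex.I ≠ 0 := Complex.I_ne_zero
      field_simp
    rw [this, h1, h2]
    simp
  apply hv
  funext i
  apply Complex.ext
  · exact congrFun hre i
  · exact congrFun him i

/-- Eigenvalues of selfadjoint and antiselfadjoint endomorphisms. -/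
theorem eig_aux {h : Matrix (Fin g) (Fin g) ℂ}
    (hpos : ∀ z : Fin g → ℂ, z ≠ 0 →
      0 < (∑ k, ∑ l, z k * h k l * (starRingEnd ℂ) (z l)).re)
    (hE : ∀ i j, A.riem i j =
      ((∑ k, ∑ l, A.lat i k * h k l * (starRingEnd ℂ) (A.lat j l)).im : ℂ))
    {α β : Matrix (Idx g) (Idx g) ℚ} (hα : α ∈ A.EndQ) (hβ : β ∈ A.EndQ)
    (hR : A.IsRosati α β) {v : Idx g → ℂ} (hv : v ≠ 0) {a b : ℂ}
    (h1 : AbVar.toC α *ᵥ v = a • v) (h2 : AbVar.toC β *ᵥ v = b • v) :
    b = (starRingEnd ℂ) a := by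
  obtain ⟨ρ, -, hρ, hαρ⟩ := hα
  obtain ⟨σ, -, hσ, hβσ⟩ := hβ
  have key : ∀ (v : Idx g → ℂ) (a b : ℂ), AbVar.toC α *ᵥ v = a • v → AbVar.toC β *ᵥ v = b • v →
      pr (A.per *ᵥ v) ≠ 0 → a = (starRingEnd ℂ) b := by
    intro v a b h1 h2 hz
    have e1 := act A hρ hαρ v
    have e2 := act A hσ hβσ v
    have hsm : ∀ c : ℂ, pr (A.per *ᵥ (c • v)) = c • pr (A.per *ᵥ v) := by
      intro c
      rw [Matrix.mulVec_smul]
      rfl
    rw [h1, hsm] at e1
    rw [h2, hsm] at e2
    have e3 := adj A hE hρ hαρ hσ hβσ hR (pr (A.per *ᵥ v)) (pr (A.per *ᵥ v))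
    rw [← e1, ← e2, Hf_smul_left, Hf_smul_right] at e3
    have e4 : Hf h (pr (A.per *ᵥ v)) (pr (A.per *ᵥ v)) ≠ 0 := by
      intro h0
      have := hpos _ hz
      change 0 < (Hf h (pr (A.per *ᵥ v)) (pr (A.per *ᵥ v))).re at this
      rw [h0] at this
      simp at this
    exact mul_right_cancel₀ e4 e3
  rcases pr_ne_zero A hv with hz | hz
  · have := key v a b h1 h2 hz
    rw [this, Complex.conj_conj]
  · have h1' : AbVar.toC α *ᵥ (star v) = (starRingEnd ℂ) a • star v := by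
      rw [toC_conj, h1, star_smul]
      rfl
    have h2' : AbVar.toC β *ᵥ (star v) = (starRingEnd ℂ) b • star v := by
      rw [toC_conj, h2, star_smul]
      rfl
    have := key (star v) _ _ h1' h2' hz
    rw [Complex.conj_conj] at this
    exact this.symm

/-- Characters give eigenvalues. -/
theorem exists_eig (c : A.EndQ) (χ : A.Chr) :
    ∃ v : Idx g → ℂ, v ≠ 0 ∧ AbVar.toC (c : Matrix (Idx g) (Idx g) ℚ) *ᵥ v = χ c • v := by
  have h1 : Polynomial.aeval c (c : Matrix (Idx g) (Idx g) ℚ).charpoly = 0 := by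
    apply Subtype.ext
    rw [Polynomial.aeval_subalgebra_coe]
    exact Matrix.aeval_self_charpoly _
  have h2 : Polynomial.aeval (χ c) (c : Matrix (Idx g) (Idx g) ℚ).charpoly = 0 := by
    rw [Polynomial.aeval_algHom_apply, h1, map_zero]
  have h3 : (AbVar.toC (c : Matrix (Idx g) (Idx g) ℚ)).charpoly.eval (χ c) = 0 := by
    unfold AbVar.toC
    rw [Matrix.charpoly_map, Polynomial.eval_map_algebraMap]
    exact h2
  rw [Matrix.eval_charpoly] at h3
  obtain ⟨v, hv, h4⟩ := Matrix.exists_mulVec_eq_zero_iff.2 h3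
  refine ⟨v, hv, ?_⟩
  rw [Matrix.sub_mulVec, sub_eq_zero] at h4
  rw [← h4]
  funext i
  simp [Matrix.scalar_apply, Matrix.mulVec_diagonal]

end PosX

open PosX

theorem pos_proof (hHerm : Stmt_Herm) (hLeg : Stmt_Leg) : Stmt_Pos := by
  intro g A hcomm
  obtain ⟨h, hh, hpos, hE⟩ := hHerm g A
  obtain ⟨hint, hleg, hdet, hsk⟩ := hLeg g A
  have hex : ∀ α ∈ A.EndQ, ∃ β ∈ A.EndQ, A.IsRosati α β :=
    fun α hα => exists_rosati A hint hleg hdet α hα
  refine ⟨hex, ?_, ?_⟩
  · intro α hα hαα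
    obtain ⟨β, hβ, hR⟩ := hex α hα
    have hc := hcomm α hα β hβ
    obtain ⟨ρ, -, hρ, hαρ⟩ := hα
    obtain ⟨σ, -, hσ, hβσ⟩ := hβ
    have ha := adj A hE hρ hαρ hσ hβσ hR
    have hb := adj A hE hσ hβσ hρ hαρ (isRosati_symm A hsk hR)
    have hz0 : ∀ z, Hf h z z = 0 → z = 0 := by
      intro z hz
      by_contra hne
      have := hpos z hne
      change 0 < (Hf h z z).re at this
      rw [hz] at this
      simp at this
    -- relations between the blocks
    have hrel : ∀ z, blk σ *ᵥ (blk ρ *ᵥ (blk ρ *ᵥ z)) = 0 := by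
      intro z
      obtain ⟨x, rfl⟩ := surj A z
      rw [← act A hρ hαρ, ← act A hρ hαρ, Matrix.mulVec_mulVec (cx x), ← AbVar.toC_mul, hαα]
      have : AbVar.toC (0 : Matrix (Idx g) (Idx g) ℚ) = 0 := by
        ext i j
        simp [AbVar.toC]
      rw [this, Matrix.zero_mulVec, Matrix.mulVec_zero]
      have : pr (0 : Idx g → ℂ) = 0 := rfl
      rw [this, Matrix.mulVec_zero]
    have hcom : ∀ z, blk ρ *ᵥ (blk σ *ᵥ z) = blk σ *ᵥ (blk ρ *ᵥ z) := by
      intro z
      obtain ⟨x, rfl⟩ := surj A z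
      have e1 : AbVar.toC α *ᵥ (AbVar.toC β *ᵥ cx x) = AbVar.toC β *ᵥ (AbVar.toC α *ᵥ cx x) := by
        rw [Matrix.mulVec_mulVec, Matrix.mulVec_mulVec, ← AbVar.toC_mul, ← AbVar.toC_mul, hc]
      rw [← act A hσ hβσ, ← act A hρ hαρ, ← act A hρ hαρ, ← act A hσ hβσ, e1]
    apply eq_zero_of_blk A hρ hαρ
    intro z
    have e1 : blk σ *ᵥ (blk ρ *ᵥ z) = 0 := by
      apply hz0
      rw [hb, hcom, hrel, Hf_zero_right]
    apply hz0
    rw [ha, e1, Hf_zero_right]
  · intro α β χ hR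
    have hR' := isRosati_symm A hsk hR
    -- selfadjoint part
    have h1 : (starRingEnd ℂ) (χ (α + β)) = χ (α + β) := by
      obtain ⟨v, hv, h2⟩ := exists_eig A (α + β) χ
      have hRR : A.IsRosati ((α + β : A.EndQ) : Matrix (Idx g) (Idx g) ℚ)
          ((α + β : A.EndQ) : Matrix (Idx g) (Idx g) ℚ) := by
        unfold AbVar.IsRosati at hR hR' ⊢
        rw [Subalgebra.coe_add, AbVar.toC_add, Matrix.transpose_add, Matrix.add_mul,
          Matrix.mul_add, hR, hR', add_comm]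
      exact (eig_aux A hpos hE (α + β).2 (α + β).2 hRR hv h2 h2).symm
    have h2 : (starRingEnd ℂ) (χ (α - β)) = - χ (α - β) := by
      obtain ⟨v, hv, h2⟩ := exists_eig A (α - β) χ
      have hneg : ∀ γ : Matrix (Idx g) (Idx g) ℚ, AbVar.toC (-γ) = - AbVar.toC γ := by
        intro γ
        ext i j
        simp [AbVar.toC]
      have hRR : A.IsRosati ((α - β : A.EndQ) : Matrix (Idx g) (Idx g) ℚ)
          ((-(α - β) : A.EndQ) : Matrix (Idx g) (Idx g) ℚ) := by
        unfold AbVar.IsRosati at hR hR' ⊢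
        rw [Subalgebra.coe_neg, Subalgebra.coe_sub, sub_eq_add_neg, AbVar.toC_add, hneg, hneg,
          AbVar.toC_add, hneg, Matrix.transpose_add, Matrix.transpose_neg, Matrix.add_mul,
          Matrix.neg_mul, hR, hR', Matrix.mul_neg, Matrix.mul_add, Matrix.mul_neg]
        abel
      have h3 : AbVar.toC ((-(α - β) : A.EndQ) : Matrix (Idx g) (Idx g) ℚ) *ᵥ v =
          (- χ (α - β)) • v := by
        rw [Subalgebra.coe_neg, hneg, Matrix.neg_mulVec, h2, neg_smul]
      exact (eig_aux A hpos hE (α - β).2 (-(α - β)).2 hRR hv h2 h3).symm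
    rw [map_add, map_add] at h1
    rw [map_sub, map_sub] at h2
    have h3 : 2 * (starRingEnd ℂ) (χ α) = 2 * χ β := by
      linear_combination h1 + h2
    exact (mul_left_cancel₀ two_ne_zero h3).symm

end

end Pool.Agent.DRB
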