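import Pool.Agent.DRB.Stmts3
import Pool.Agent.DRB.Pos

/-!
# DRB / SIG: components of rank two which are isomorphic up to a character have the same Hodge type
-/

set_option autoImplicit false

open scoped BigOperators Topology
open Matrix

namespace Pool.Agent.DRB

noncomputable section

namespace SigX

open PosX

variable {g : ℕ} (A : AbVar g)

/-- The map to the Lie algebra. -/
def zL : (Idx g → ℂ) →ₗ[ℂ] (Fin g → ℂ) :=
  (LinearMap.funLeft ℂ ℂ (Sum.inl : Fin g → Idx g)).comp A.per.mulVecLin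

theorem zL_apply (v : Idx g → ℂ) : zL A v = pr (A.per *ᵥ v) := rfl

theorem cv_add {ι : Type} (v w : ι → ℂ) : cv (v + w) = cv v + cv w := by
  funext i
  simp [cv]

theorem cv_smul {ι : Type} (c : ℂ) (v : ι → ℂ) : cv (c • v) = (starRingEnd ℂ) c • cv v := by
  funext i
  simp [cv]

theorem cv_zero {ι : Type} : cv (0 : ι → ℂ) = 0 := by
  funext i
  simp [cv]

theorem cv_cv {ι : Type} (v : ι → ℂ) : cv (cv v) = v := by
  funext i
  simp [cv]

theorem cv_mulVec {ι κ : Type} [Fintype κ] (M : Matrix ι κ ℂ) (v : κ → ℂ) :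
    cv (M *ᵥ v) = cc M *ᵥ cv v := by
  funext i
  simp only [cv, cc, Matrix.mulVec, dotProduct, map_sum, map_mul, Matrix.map_apply]

theorem cc_toC (α : Matrix (Idx g) (Idx g) ℚ) : cc (AbVar.toC α) = AbVar.toC α := by
  ext i j
  simp only [cc, AbVar.toC, Matrix.map_apply]
  simp

theorem cc_mul {ι κ l : Type} [Fintype κ] (M : Matrix ι κ ℂ) (N : Matrix κ l ℂ) :
    cc (M * N) = cc M * cc N := by
  unfold cc
  exact Matrix.map_mul

theorem cc_smul {ι κ : Type} (c : ℂ) (M : Matrix ι κ ℂ) :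
    cc (c • M) = (starRingEnd ℂ) c • cc M := by
  ext i j
  simp [cc]

theorem cc_cc {ι κ : Type} (M : Matrix ι κ ℂ) : cc (cc M) = M := by
  ext i j
  simp [cc]

/-- `F^0`. -/
def kk : Submodule ℂ (Idx g → ℂ) := LinearMap.ker (zL A)

/-- The complex conjugate of `F^0`. -/
def kb : Submodule ℂ (Idx g → ℂ) where
  carrier := {v | zL A (cv v) = 0}
  add_mem' := by
    intro v w hv hw
    simp only [Set.mem_ofPred_eq] at hv hw ⊢
    rw [cv_add, map_add, hv, hw, add_zero]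
  zero_mem' := by
    simp only [Set.mem_ofPred_eq]
    rw [cv_zero, map_zero]
  smul_mem' := by
    intro c v hv
    simp only [Set.mem_ofPred_eq] at hv ⊢
    rw [cv_smul, map_smul, hv, smul_zero]

theorem mem_kk (v : Idx g → ℂ) : v ∈ kk A ↔ zL A v = 0 := Iff.rfl

theorem mem_kb (v : Idx g → ℂ) : v ∈ kb A ↔ zL A (cv v) = 0 := Iff.rfl

theorem cv_cx (x : Idx g → ℝ) : cv (cx x) = cx x := by
  funext i
  simp [cv, cx]

theorem split_real (x : Idx g → ℝ) : ∃ a ∈ kk A, ∃ b ∈ kb A, cx x = a + b := by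
  obtain ⟨y, hy⟩ := surj A (Complex.I • zL A (cx x))
  rw [← zL_apply] at hy
  have hI : Complex.I * Complex.I = -1 := Complex.I_mul_I
  refine ⟨(1 / 2 : ℂ) • (cx x + Complex.I • cx y), ?_, (1 / 2 : ℂ) • (cx x - Complex.I • cx y), ?_, ?_⟩
  · rw [mem_kk, map_smul, map_add, map_smul, hy, smul_smul, hI]
    simp
  · rw [mem_kb, cv_smul, sub_eq_add_neg, ← neg_smul, cv_add, cv_smul, cv_cx, cv_cx, map_smul, map_add,
      map_smul, hy, smul_smul]
    have : (starRingEnd ℂ) (-Complex.I) * Complex.I = -1 := by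
      rw [map_neg, Complex.conj_I, neg_neg, hI]
    rw [this]
    simp
  · module

theorem split (v : Idx g → ℂ) : ∃ a ∈ kk A, ∃ b ∈ kb A, v = a + b := by
  obtain ⟨a, ha, b, hb, hab⟩ := split_real A (fun i => (v i).re)
  obtain ⟨a', ha', b', hb', hab'⟩ := split_real A (fun i => (v i).im)
  refine ⟨a + Complex.I • a', (kk A).add_mem ha ((kk A).smul_mem _ ha'), b + Complex.I • b',
    (kb A).add_mem hb ((kb A).smul_mem _ hb'), ?_⟩
  have h1 : v = cx (fun i => (v i).re) + Complex.I • cx (fun i => (v i).im) := by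
    funext i
    simp only [cx, Pi.add_apply, Pi.smul_apply, smul_eq_mul]
    rw [mul_comm]
    exact (Complex.re_add_im (v i)).symm
  rw [h1, hab, hab', smul_add]
  abel

theorem toC_kk {α : Matrix (Idx g) (Idx g) ℚ} (hα : A.IsEnd α) {v : Idx g → ℂ} (hv : zL A v = 0) :
    zL A (AbVar.toC α *ᵥ v) = 0 := by
  obtain ⟨ρ, -, h2, h3⟩ := hα
  rw [zL_apply, act A h2 h3, ← zL_apply, hv, Matrix.mulVec_zero]

theorem end_kk {x : Matrix (Idx g) (Idx g) ℂ} (hx : x ∈ A.EndC) {v : Idx g → ℂ} (hv : v ∈ kk A) :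
    x *ᵥ v ∈ kk A := by
  unfold AbVar.EndC at hx
  induction hx using Submodule.span_induction with
  | mem y hy =>
    obtain ⟨α, hα, rfl⟩ := hy
    exact toC_kk A hα hv
  | zero =>
    rw [Matrix.zero_mulVec]
    exact (kk A).zero_mem
  | add y z _ _ hy hz =>
    rw [Matrix.add_mulVec]
    exact (kk A).add_mem hy hz
  | smul c y _ hy =>
    rw [Matrix.smul_mulVec]
    exact (kk A).smul_mem _ hy

theorem end_kb {x : Matrix (Idx g) (Idx g) ℂ} (hx : x ∈ A.EndC) {v : Idx g → ℂ} (hv : v ∈ kb A) :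
    x *ᵥ v ∈ kb A := by
  unfold AbVar.EndC at hx
  induction hx using Submodule.span_induction with
  | mem y hy =>
    obtain ⟨α, hα, rfl⟩ := hy
    rw [mem_kb, cv_mulVec, cc_toC]
    exact toC_kk A hα hv
  | zero =>
    rw [Matrix.zero_mulVec]
    exact (kb A).zero_mem
  | add y z _ _ hy hz =>
    rw [Matrix.add_mulVec]
    exact (kb A).add_mem hy hz
  | smul c y _ hy =>
    rw [Matrix.smul_mulVec]
    exact (kb A).smul_mem _ hy

/-- The hermitian form on `H_1(A, ℂ)`. -/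
def h0 (v w : Idx g → ℂ) : ℂ := 2 * Complex.I * (v ⬝ᵥ (A.riem *ᵥ cv w))

theorem h0_add_left (v v' w : Idx g → ℂ) : h0 A (v + v') w = h0 A v w + h0 A v' w := by
  unfold h0
  rw [add_dotProduct]
  ring

theorem h0_smul_left (c : ℂ) (v w : Idx g → ℂ) : h0 A (c • v) w = c * h0 A v w := by
  unfold h0
  rw [smul_dotProduct, smul_eq_mul]
  ring

theorem h0_add_right (v w w' : Idx g → ℂ) : h0 A v (w + w') = h0 A v w + h0 A v w' := by
  unfold h0
  rw [cv_add, Matrix.mulVec_add, dotProduct_add]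
  ring

theorem h0_smul_right (c : ℂ) (v w : Idx g → ℂ) :
    h0 A v (c • w) = (starRingEnd ℂ) c * h0 A v w := by
  unfold h0
  rw [cv_smul, Matrix.mulVec_smul, dotProduct_smul, smul_eq_mul]
  ring

theorem h0_sum_left {κ : Type} (s : Finset κ) (v : κ → Idx g → ℂ) (w : Idx g → ℂ) :
    h0 A (∑ i ∈ s, v i) w = ∑ i ∈ s, h0 A (v i) w := by
  unfold h0
  rw [sum_dotProduct, Finset.mul_sum]

theorem h0_sum_right {κ : Type} (s : Finset κ) (v : Idx g → ℂ) (w : κ → Idx g → ℂ) :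
    h0 A v (∑ i ∈ s, w i) = ∑ i ∈ s, h0 A v (w i) := by
  have h1 : cv (∑ i ∈ s, w i) = ∑ i ∈ s, cv (w i) := by
    funext k
    simp only [cv, Finset.sum_apply, map_sum]
  unfold h0
  rw [h1, Matrix.mulVec_sum, dotProduct_sum, Finset.mul_sum]

theorem h0_eq {h : Matrix (Fin g) (Fin g) ℂ} (hh : h.IsHermitian)
    (hE : ∀ i j, A.riem i j =
      ((∑ k, ∑ l, A.lat i k * h k l * (starRingEnd ℂ) (A.lat j l)).im : ℂ)) (v w : Idx g → ℂ) :
    h0 A v w = Hf h (zL A v) (zL A w) - Hf h (zL A (cv w)) (zL A (cv v)) := by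
  have h1 : ∀ v w : Idx g → ℂ, Hf h (zL A v) (zL A w) =
      ∑ i, ∑ j, v i * (starRingEnd ℂ) (w j) * Hf h (A.lat i) (A.lat j) := by
    intro v w
    rw [zL_apply, zL_apply, pr_per, pr_per, Hf_sum_left]
    refine Finset.sum_congr rfl fun i _ => ?_
    rw [Hf_sum_right]
    refine Finset.sum_congr rfl fun j _ => ?_
    rw [Hf_smul_left, Hf_smul_right]
    ring
  rw [h1, h1, Finset.sum_comm (γ := Idx g) (f := fun i j => cv w i * (starRingEnd ℂ) (cv v j) *
    Hf h (A.lat i) (A.lat j)), ← Finset.sum_sub_distrib]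
  unfold h0
  simp only [dotProduct, Matrix.mulVec, Finset.mul_sum]
  refine Finset.sum_congr rfl fun i _ => ?_
  rw [← Finset.sum_sub_distrib]
  refine Finset.sum_congr rfl fun j _ => ?_
  have h2 : Hf h (A.lat j) (A.lat i) = (starRingEnd ℂ) (Hf h (A.lat i) (A.lat j)) :=
    (Hf_conj hh _ _).symm
  have h3 : A.riem i j = ((Hf h (A.lat i) (A.lat j)).im : ℂ) := hE i j
  have h4 := Complex.sub_conj (Hf h (A.lat i) (A.lat j))
  rw [h2, h3]
  simp only [cv, Complex.conj_conj]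
  have h5 : v i * (starRingEnd ℂ) (w j) * Hf h (A.lat i) (A.lat j) -
      (starRingEnd ℂ) (w j) * v i * (starRingEnd ℂ) (Hf h (A.lat i) (A.lat j)) =
      v i * (starRingEnd ℂ) (w j) * (Hf h (A.lat i) (A.lat j) -
        (starRingEnd ℂ) (Hf h (A.lat i) (A.lat j))) := by ring
  rw [h5, h4]
  push_cast
  ring

theorem h0_conj {h : Matrix (Fin g) (Fin g) ℂ} (hh : h.IsHermitian)
    (hE : ∀ i j, A.riem i j =
      ((∑ k, ∑ l, A.lat i k * h k l * (starRingEnd ℂ) (A.lat j l)).im : ℂ)) (v w : Idx g → ℂ) :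
    (starRingEnd ℂ) (h0 A v w) = h0 A w v := by
  rw [h0_eq A hh hE, h0_eq A hh hE, map_sub, Hf_conj hh, Hf_conj hh]

/-- The properties of the hermitian form which we use. -/
structure HP : Prop where
  conj : ∀ v w, (starRingEnd ℂ) (h0 A v w) = h0 A w v
  neg : ∀ v ∈ kk A, v ≠ 0 → (h0 A v v).re < 0
  pos : ∀ v ∈ kb A, v ≠ 0 → 0 < (h0 A v v).re
  orth : ∀ v ∈ kk A, ∀ w ∈ kb A, h0 A v w = 0
  sim : ∀ (x : Matrix (Idx g) (Idx g) ℂ) (ν : ℂ), xᵀ * A.riem * x = ν • A.riem →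
    ∀ v w, h0 A (x *ᵥ v) (cc x *ᵥ w) = ν * h0 A v w

theorem hp (hHerm : Stmt_Herm) : HP A := by
  obtain ⟨h, hh, hpos, hE⟩ := hHerm g A
  have hz : ∀ v : Idx g → ℂ, v ≠ 0 → zL A v ≠ 0 ∨ zL A (cv v) ≠ 0 := by
    intro v hv
    exact pr_ne_zero A hv
  refine ⟨fun v w => h0_conj A hh hE v w, ?_, ?_, ?_, ?_⟩
  · intro v hv hv0
    rw [mem_kk] at hv
    rcases hz v hv0 with h1 | h1
    · exact absurd hv h1
    · rw [h0_eq A hh hE, hv, Hf_zero_right, zero_sub, Complex.neg_re, neg_lt_zero]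
      exact hpos _ h1
  · intro v hv hv0
    rw [mem_kb] at hv
    rcases hz v hv0 with h1 | h1
    · rw [h0_eq A hh hE, hv, Hf_zero_right, sub_zero]
      exact hpos _ h1
    · exact absurd hv h1
  · intro v hv w hw
    rw [mem_kk] at hv
    rw [mem_kb] at hw
    have h1 : ∀ z : Fin g → ℂ, Hf h 0 z = 0 := by
      intro z
      rw [← Hf_conj hh, Hf_zero_right, map_zero]
    rw [h0_eq A hh hE, hv, hw, h1, h1, sub_zero]
  · intro x ν hx v w
    unfold h0
    have h1 : (x *ᵥ v) ⬝ᵥ (A.riem *ᵥ cv (cc x *ᵥ w)) = ν * (v ⬝ᵥ (A.riem *ᵥ cv w)) := by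
      rw [cv_mulVec, cc_cc]
      have h4 : (x *ᵥ v) = v ᵥ* xᵀ := by
        rw [Matrix.vecMul_transpose]
      rw [h4, ← Matrix.dotProduct_mulVec, Matrix.mulVec_mulVec, Matrix.mulVec_mulVec,
        hx, Matrix.smul_mulVec, dotProduct_smul, smul_eq_mul]
    rw [h1]
    ring

section dec

variable {A}
variable (d : Dec A)

/-- The vectors `w ⊗ e_b`. -/
def emb (i : Fin d.k) (b : Fin (d.n i)) : (Fin (d.m i) → ℂ) →ₗ[ℂ] (Idx g → ℂ) :=
  Fintype.linearCombination ℂ (fun a => d.B ⟨i, (a, b)⟩)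

theorem emb_apply (i : Fin d.k) (b : Fin (d.n i)) (w : Fin (d.m i) → ℂ) :
    emb d i b w = ∑ a, w a • d.B ⟨i, (a, b)⟩ := by
  rw [emb, Fintype.linearCombination_apply]

theorem emb_inj (i : Fin d.k) (b : Fin (d.n i)) : Function.Injective (emb d i b) := by
  rw [← LinearMap.ker_eq_bot]
  have h1 : LinearIndependent ℂ (fun a => d.B ⟨i, (a, b)⟩) := by
    apply d.B.linearIndependent.comp (fun a : Fin (d.m i) => (⟨i, (a, b)⟩ :
      Σ i, Fin (d.m i) × Fin (d.n i)))
    intro a a' h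
    have := congrArg (fun e : (Σ i, Fin (d.m i) × Fin (d.n i)) => (e.2.1 : ℕ)) h
    exact Fin.ext this
  rw [LinearMap.ker_eq_bot']
  intro w hw
  rw [emb_apply] at hw
  funext a
  exact Fintype.linearIndependent_iff.1 h1 w hw a

theorem emb_ne {i : Fin d.k} (b : Fin (d.n i)) {w : Fin (d.m i) → ℂ} (hw : w ≠ 0) :
    emb d i b w ≠ 0 := by
  intro h
  apply hw
  apply emb_inj d i b
  rw [h, map_zero]

theorem emb_X {x : Matrix (Idx g) (Idx g) ℂ} (hx : A.Comm x) (i : Fin d.k) (b : Fin (d.n i))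
    (w : Fin (d.m i) → ℂ) : x *ᵥ emb d i b w = emb d i b (d.X x i *ᵥ w) := by
  rw [emb_apply, emb_apply, Matrix.mulVec_sum]
  simp only [Matrix.mulVec_smul, d.X_spec hx, Finset.smul_sum, Matrix.mulVec, dotProduct,
    Finset.sum_smul]
  rw [Finset.sum_comm]
  refine Finset.sum_congr rfl fun a _ => Finset.sum_congr rfl fun a' _ => ?_
  rw [smul_smul, mul_comm]

/-- The coordinates of the component `w ⊗ e_b`. -/
def co (i : Fin d.k) (b : Fin (d.n i)) : (Idx g → ℂ) →ₗ[ℂ] (Fin (d.m i) → ℂ) :=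
  (LinearMap.funLeft ℂ ℂ (fun a : Fin (d.m i) => (⟨i, (a, b)⟩ :
      Σ i, Fin (d.m i) × Fin (d.n i)))).comp d.B.equivFun.toLinearMap

theorem co_apply (i : Fin d.k) (b : Fin (d.n i)) (v : Idx g → ℂ) (a : Fin (d.m i)) :
    co d i b v a = d.B.repr v ⟨i, (a, b)⟩ := rfl

/-- The endomorphism `w ⊗ e_b ↦ w ⊗ e_0`. -/
theorem exists_F (i : Fin d.k) (b : Fin (d.n i)) : ∃ F ∈ A.EndC, ∀ v,
    F *ᵥ v = emb d i ⟨0, d.npos i⟩ (co d i b v) := by
  classical
  let F : Matrix (Idx g) (Idx g) ℂ :=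
    LinearMap.toMatrix' ((emb d i ⟨0, d.npos i⟩).comp (co d i b))
  have hF : ∀ v, F *ᵥ v = emb d i ⟨0, d.npos i⟩ (co d i b v) := by
    intro v
    rw [← Matrix.toLin'_apply, Matrix.toLin'_toMatrix']
    rfl
  refine ⟨F, ?_, hF⟩
  rw [d.hE]
  refine ⟨fun l => Matrix.of fun b' c => if h : l = i then
    (if Fin.cast (by rw [h]) b' = (⟨0, d.npos i⟩ : Fin (d.n i)) ∧ Fin.cast (by rw [h]) c = b
      then 1 else 0) else 0, ?_⟩
  intro l a c
  rw [hF, emb_apply]
  simp only [co_apply, Module.Basis.repr_self, Matrix.of_apply]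
  by_cases h : l = i
  · subst h
    by_cases hc : c = b
    · subst hc
      rw [Finset.sum_eq_single a, Finset.sum_eq_single (⟨0, d.npos l⟩ : Fin (d.n l))]
      · simp
      · intro b' _ hb'
        simp [hb']
      · intro h'
        exact absurd (Finset.mem_univ _) h'
      · intro a' _ ha'
        rw [Finsupp.single_apply, if_neg, zero_smul]
        intro h'
        have := congrArg (fun e : (Σ i, Fin (d.m i) × Fin (d.n i)) => (e.2.1 : ℕ)) h'
        exact ha' (Fin.ext this).symm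
      · intro h'
        exact absurd (Finset.mem_univ _) h'
    · rw [Finset.sum_eq_zero, Finset.sum_eq_zero]
      · intro b' _
        simp [hc]
      · intro a' _
        rw [Finsupp.single_apply, if_neg, zero_smul]
        intro h'
        have := congrArg (fun e : (Σ i, Fin (d.m i) × Fin (d.n i)) => (e.2.2 : ℕ)) h'
        exact hc (Fin.ext this)
  · rw [Finset.sum_eq_zero, Finset.sum_eq_zero]
    · intro b' _
      simp [h]
    · intro a' _
      rw [Finsupp.single_apply, if_neg, zero_smul]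
      intro h'
      exact h (congrArg Sigma.fst h')

theorem co_emb (i : Fin d.k) (b : Fin (d.n i)) (w : Fin (d.m i) → ℂ) :
    co d i b (emb d i b w) = w := by
  funext a
  rw [co_apply, emb_apply, map_sum, Finsupp.finsetSum_apply, Finset.sum_eq_single a]
  · rw [map_smul, Finsupp.smul_apply, Module.Basis.repr_self, Finsupp.single_eq_same, smul_eq_mul,
      mul_one]
  · intro c _ hc
    rw [map_smul, Finsupp.smul_apply, Module.Basis.repr_self, Finsupp.single_apply, if_neg, smul_zero]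
    intro h'
    apply hc
    have := congrArg (fun e : (Σ i, Fin (d.m i) × Fin (d.n i)) => (e.2.1 : ℕ)) h'
    exact Fin.ext this
  · intro h'
    exact absurd (Finset.mem_univ _) h'

/-- Elements of `End(A) ⊗ ℂ` commute with the commutant. -/
theorem comm_end {x F : Matrix (Idx g) (Idx g) ℂ} (hx : A.Comm x) (hF : F ∈ A.EndC) :
    x * F = F * x := by
  unfold AbVar.EndC at hF
  induction hF using Submodule.span_induction with
  | mem y hy =>
    obtain ⟨α, hα, rfl⟩ := hy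
    exact hx α hα
  | zero => rw [Matrix.mul_zero, Matrix.zero_mul]
  | add y z _ _ hy hz => rw [Matrix.mul_add, Matrix.add_mul, hy, hz]
  | smul c y _ hy => rw [Matrix.mul_smul, Matrix.smul_mul, hy]

theorem co_X {x : Matrix (Idx g) (Idx g) ℂ} (hx : A.Comm x) (i : Fin d.k) (b : Fin (d.n i))
    (v : Idx g → ℂ) : co d i b (x *ᵥ v) = d.X x i *ᵥ co d i b v := by
  obtain ⟨F, hF, hFv⟩ := exists_F d i b
  apply emb_inj d i ⟨0, d.npos i⟩
  rw [← emb_X d hx, ← hFv, ← hFv, Matrix.mulVec_mulVec, Matrix.mulVec_mulVec, comm_end hx hF]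

/-- Coordinates separate the vectors of the component. -/
theorem exists_co {i : Fin d.k} {v : Idx g → ℂ} (hv : v ≠ 0) (hp : d.p i *ᵥ v = v) :
    ∃ b, co d i b v ≠ 0 := by
  by_contra hcon
  push Not at hcon
  apply hv
  have h1 : ∀ e, d.B.repr v e = 0 := by
    intro e
    obtain ⟨l, a, b⟩ := e
    by_cases h : l = i
    · subst h
      exact congrFun (hcon b) a
    · have h2 : d.B.repr (d.p i *ᵥ v) ⟨l, (a, b)⟩ = 0 := by
        conv_lhs => rw [← d.B.sum_repr v]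
        rw [Matrix.mulVec_sum, map_sum, Finsupp.finsetSum_apply]
        refine Finset.sum_eq_zero fun e _ => ?_
        rw [Matrix.mulVec_smul, d.hp]
        split_ifs with h3
        · rw [map_smul, Finsupp.smul_apply, Module.Basis.repr_self, Finsupp.single_apply, if_neg,
            smul_zero]
          intro h'
          apply h
          rw [← h3, h']
        · simp
      rw [hp] at h2
      exact h2
  rw [← d.B.sum_repr v]
  exact Finset.sum_eq_zero fun e _ => by rw [h1 e, zero_smul]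

theorem p_emb (i : Fin d.k) (b : Fin (d.n i)) (w : Fin (d.m i) → ℂ) :
    d.p i *ᵥ emb d i b w = emb d i b w := by
  rw [emb_apply, Matrix.mulVec_sum]
  refine Finset.sum_congr rfl fun a _ => ?_
  rw [Matrix.mulVec_smul, d.hp, if_pos rfl]

/-- The real quadratic form on the multiplicity spaces. -/
def Q (i : Fin d.k) (w : Fin (d.m i) → ℂ) : ℝ :=
  (h0 A (emb d i ⟨0, d.npos i⟩ w) (emb d i ⟨0, d.npos i⟩ w)).re

theorem split_m (i : Fin d.k) (w : Fin (d.m i) → ℂ) : ∃ a b, emb d i ⟨0, d.npos i⟩ a ∈ kk A ∧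
    emb d i ⟨0, d.npos i⟩ b ∈ kb A ∧ w = a + b := by
  obtain ⟨u, hu, u', hu', h1⟩ := split A (emb d i ⟨0, d.npos i⟩ w)
  obtain ⟨F, hF, hFv⟩ := exists_F d i ⟨0, d.npos i⟩
  refine ⟨co d i ⟨0, d.npos i⟩ u, co d i ⟨0, d.npos i⟩ u', ?_, ?_, ?_⟩
  · rw [← hFv]
    exact end_kk A hF hu
  · rw [← hFv]
    exact end_kb A hF hu'
  · rw [← map_add, ← h1, co_emb]

theorem Q_zero (i : Fin d.k) : Q d i 0 = 0 := by
  unfold Q
  rw [map_zero]
  unfold h0
  rw [zero_dotProduct]
  simp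

theorem mixed_iff (H : HP A) (i : Fin d.k) :
    A.Mixed (d.p i) ↔ (∃ w, Q d i w < 0) ∧ ∃ w, 0 < Q d i w := by
  constructor
  · rintro ⟨⟨v, hv, hpv, h1⟩, ⟨w, hw, hpw, h2⟩⟩
    constructor
    · obtain ⟨b, hb⟩ := exists_co d hv hpv
      obtain ⟨F, hF, hFv⟩ := exists_F d i b
      refine ⟨co d i b v, ?_⟩
      apply H.neg
      · rw [← hFv]
        apply end_kk A hF
        rw [mem_kk]
        funext k
        exact h1 k
      · exact emb_ne d _ hb
    · obtain ⟨b, hb⟩ := exists_co d hw hpw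
      obtain ⟨F, hF, hFv⟩ := exists_F d i b
      refine ⟨co d i b w, ?_⟩
      apply H.pos
      · rw [← hFv]
        apply end_kb A hF
        rw [mem_kb]
        funext k
        exact h2 k
      · exact emb_ne d _ hb
  · rintro ⟨⟨w, hw⟩, ⟨w', hw'⟩⟩
    constructor
    · by_contra hcon
      push Not at hcon
      have h1 : ∀ a, emb d i ⟨0, d.npos i⟩ a ∈ kk A → a = 0 := by
        intro a ha
        by_contra ha0
        obtain ⟨k, hk⟩ := hcon _ (emb_ne d _ ha0) (p_emb d i _ a)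
        apply hk
        rw [mem_kk] at ha
        exact congrFun ha k
      obtain ⟨a, b, ha, hb, hab⟩ := split_m d i w
      rw [h1 a ha, zero_add] at hab
      subst hab
      by_cases h2 : w = 0
      · rw [h2, Q_zero] at hw
        exact lt_irrefl _ hw
      · have := H.pos _ hb (emb_ne d _ h2)
        unfold Q at hw
        linarith
    · by_contra hcon
      push Not at hcon
      have h1 : ∀ a, emb d i ⟨0, d.npos i⟩ a ∈ kb A → a = 0 := by
        intro a ha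
        by_contra ha0
        obtain ⟨k, hk⟩ := hcon _ (emb_ne d _ ha0) (p_emb d i _ a)
        apply hk
        rw [mem_kb] at ha
        exact congrFun ha k
      obtain ⟨a, b, ha, hb, hab⟩ := split_m d i w'
      rw [h1 b hb, add_zero] at hab
      subst hab
      by_cases h2 : w' = 0
      · rw [h2, Q_zero] at hw'
        exact lt_irrefl _ hw'
      · have := H.neg _ ha (emb_ne d _ h2)
        unfold Q at hw'
        linarith

/-- The matrix of the hermitian form on the multiplicity space. -/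
def M (i : Fin d.k) : Matrix (Fin (d.m i)) (Fin (d.m i)) ℂ :=
  Matrix.of fun a a' => h0 A (d.B ⟨i, (a, ⟨0, d.npos i⟩)⟩) (d.B ⟨i, (a', ⟨0, d.npos i⟩)⟩)

theorem M_spec (i : Fin d.k) (w w' : Fin (d.m i) → ℂ) :
    w ⬝ᵥ (M d i *ᵥ cv w') =
      h0 A (emb d i ⟨0, d.npos i⟩ w) (emb d i ⟨0, d.npos i⟩ w') := by
  rw [emb_apply, emb_apply, h0_sum_left]
  simp only [dotProduct, Matrix.mulVec, M, Matrix.of_apply]
  refine Finset.sum_congr rfl fun a _ => ?_
  rw [h0_smul_left, h0_sum_right]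
  congr 1
  refine Finset.sum_congr rfl fun a' _ => ?_
  rw [h0_smul_right, mul_comm]
  rfl

theorem M_inj (H : HP A) (i : Fin d.k) (u : Fin (d.m i) → ℂ) (hu : M d i *ᵥ u = 0) : u = 0 := by
  obtain ⟨a, b, ha, hb, hab⟩ := split_m d i (cv u)
  have h1 : h0 A (emb d i ⟨0, d.npos i⟩ (b - a)) (emb d i ⟨0, d.npos i⟩ (a + b)) = 0 := by
    rw [← M_spec, ← hab, cv_cv, hu, dotProduct_zero]
  have h2 : h0 A (emb d i ⟨0, d.npos i⟩ b) (emb d i ⟨0, d.npos i⟩ a) = 0 := by
    rw [← H.conj, H.orth _ ha _ hb, map_zero]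
  have h3 : h0 A (emb d i ⟨0, d.npos i⟩ a) (emb d i ⟨0, d.npos i⟩ b) = 0 := H.orth _ ha _ hb
  rw [sub_eq_add_neg, ← neg_one_smul ℂ a, map_add, map_add, map_smul, h0_add_left, h0_add_right,
    h0_smul_left, h0_add_right, h2, h3] at h1
  have h4 := congrArg Complex.re h1
  simp only [zero_add, add_zero, Complex.add_re, neg_mul, one_mul, Complex.neg_re,
    Complex.zero_re] at h4
  have ha0 : a = 0 := by
    by_contra h
    have e1 := H.neg _ ha (emb_ne d _ h)
    by_cases hb0 : b = 0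
    · rw [hb0, map_zero] at h4
      have : h0 A 0 0 = 0 := by
        unfold h0
        rw [zero_dotProduct, mul_zero]
      rw [this, Complex.zero_re] at h4
      linarith
    · have e2 := H.pos _ hb (emb_ne d _ hb0)
      linarith
  have hb0 : b = 0 := by
    by_contra h
    have e2 := H.pos _ hb (emb_ne d _ h)
    rw [ha0, map_zero] at h4
    have : h0 A 0 0 = 0 := by
      unfold h0
      rw [zero_dotProduct, mul_zero]
    rw [this, Complex.zero_re] at h4
    linarith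
  rw [ha0, hb0, add_zero] at hab
  rw [← cv_cv u, hab, cv_zero]

theorem M_sim (H : HP A) (i : Fin d.k) (x : Matrix (Idx g) (Idx g) ℂ) (ν : ℂ)
    (hx : A.Comm x) (hx' : A.Comm (cc x)) (hν : xᵀ * A.riem * x = ν • A.riem) :
    (d.X x i)ᵀ * M d i * cc (d.X (cc x) i) = ν • M d i := by
  have h1 : ∀ w w' : Fin (d.m i) → ℂ,
      w ⬝ᵥ (((d.X x i)ᵀ * M d i * cc (d.X (cc x) i)) *ᵥ cv w') = w ⬝ᵥ ((ν • M d i) *ᵥ cv w') := by
    intro w w'
    rw [← Matrix.mulVec_mulVec, ← cv_mulVec, ← Matrix.mulVec_mulVec, Matrix.dotProduct_mulVec,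
      Matrix.vecMul_transpose, M_spec, ← emb_X d hx, ← emb_X d hx', H.sim x ν hν, Matrix.smul_mulVec,
      dotProduct_smul, M_spec, smul_eq_mul]
  ext a a'
  have h2 := h1 (Pi.single a 1) (Pi.single a' 1)
  have h3 : cv (Pi.single a' 1 : Fin (d.m i) → ℂ) = Pi.single a' 1 := by
    funext c
    by_cases h : c = a'
    · subst h
      simp [cv]
    · simp [cv, h]
  rw [h3, single_one_dotProduct, single_one_dotProduct, Matrix.mulVec_single_one,
    Matrix.mulVec_single_one] at h2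
  exact h2

theorem one_mul_inv {i j : Fin d.k} (P : Matrix (Fin (d.m i)) (Fin (d.m j)) ℂ)
    (hsurj : ∀ w, ∃ v, P *ᵥ v = w) :
    ∃ R : Matrix (Fin (d.m j)) (Fin (d.m i)) ℂ, P * R = 1 := by
  choose f hf using hsurj
  refine ⟨Matrix.of fun a b => f (Pi.single b 1) a, ?_⟩
  ext a b
  have h1 := congrFun (hf (Pi.single b 1)) a
  rw [Matrix.mul_apply]
  have h2 : (P *ᵥ f (Pi.single b 1)) a = ∑ c, P a c * f (Pi.single b 1) c := rfl
  rw [h2] at h1
  simp only [Matrix.of_apply]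
  rw [h1, Matrix.one_apply, Pi.single_apply]

/-- Complex conjugates of elements of `Γ`. -/
theorem cc_mem (hGb4 : Stmt_Gb4) {γ : GL (Idx g) ℂ × ℂˣ} (hγ : γ ∈ Gam A) :
    ∃ q ∈ Gam A, q.1.val = cc γ.1.val := by
  let σ : ℂ ≃ₐ[ℚ] ℂ := Complex.conjAe.restrictScalars ℚ
  let q : GL (Idx g) ℂ × ℂˣ :=
    (Matrix.GeneralLinearGroup.map (σ : ℂ →+* ℂ) γ.1, Units.map (σ : ℂ →* ℂ) γ.2)
  have hq : q ∈ Gam A := hGb4 g A σ γ hγ q (by ext i j; rfl) rfl
  exact ⟨q, hq, by ext i j; rfl⟩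

theorem core (H : HP A) (hGb1 : Stmt_Gb1) (hGb4 : Stmt_Gb4) (hIrr : Stmt_IrrX) (hFin : Stmt_FinX)
    (i j : Fin d.k) (hj : d.m j = 2)
    (X : Matrix (Idx g) (Idx g) ℂ) (hX : X ≠ 0) (hpX : d.p i * X = X) (hXq : X * d.p j = X)
    (hs : ∀ γ ∈ Gam A, ∃ a : ℂ, γ.1.val * X = a • (X * γ.1.val)) :
    ∃ (P : Matrix (Fin (d.m i)) (Fin (d.m j)) ℂ) (c : ℝ), c ≠ 0 ∧ (∀ w, ∃ v, P *ᵥ v = w) ∧
      ∀ v, Q d i (P *ᵥ v) = c * Q d j v := by
  classical
  -- the matrix `P`
  have hex : ∃ (b : Fin (d.n j)) (w : Fin (d.m j) → ℂ), X *ᵥ emb d j b w ≠ 0 := by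
    by_contra hcon
    push Not at hcon
    apply hX
    apply d.ext_B
    intro l a b
    rw [Matrix.zero_mulVec, ← hXq, ← Matrix.mulVec_mulVec, d.hp]
    by_cases h : l = j
    · subst h
      rw [if_pos rfl]
      have := hcon b (Pi.single a 1)
      rw [emb_apply, Finset.sum_eq_single a] at this
      · simpa using this
      · intro c _ hc
        rw [Pi.single_eq_of_ne hc, zero_smul]
      · intro h'
        exact absurd (Finset.mem_univ _) h'
    · rw [if_neg (by exact h), Matrix.mulVec_zero]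
  obtain ⟨b, w₀, hw₀⟩ := hex
  obtain ⟨b', hb'⟩ := exists_co (i := i) d hw₀ (by rw [Matrix.mulVec_mulVec, hpX])
  let PL : (Fin (d.m j) → ℂ) →ₗ[ℂ] (Fin (d.m i) → ℂ) :=
    (co d i b').comp (X.mulVecLin.comp (emb d j b))
  let P : Matrix (Fin (d.m i)) (Fin (d.m j)) ℂ := LinearMap.toMatrix' PL
  have hP : ∀ v, P *ᵥ v = co d i b' (X *ᵥ emb d j b v) := by
    intro v
    rw [← Matrix.toLin'_apply, Matrix.toLin'_toMatrix']
    rfl
  have hP0 : P *ᵥ w₀ ≠ 0 := by
    rw [hP]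
    exact hb'
  have hcomm : ∀ γ ∈ Gam A, A.Comm γ.1.val := fun γ hγ α hα => (hGb1 g A γ hγ).1 α hα
  have hss : ∀ γ ∈ Gam A, ∃ a : ℂ, a ≠ 0 ∧ ∀ v, d.X γ.1.val i *ᵥ (P *ᵥ v) =
      a • (P *ᵥ (d.X γ.1.val j *ᵥ v)) := by
    intro γ hγ
    obtain ⟨a, ha⟩ := hs γ hγ
    refine ⟨a, ?_, ?_⟩
    · intro h0
      rw [h0, zero_smul] at ha
      apply hX
      have h1 : (γ.1⁻¹).val * (γ.1.val * X) = X := by
        rw [← Matrix.mul_assoc]
        have : (γ.1⁻¹).val * γ.1.val = 1 := by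
          rw [← Units.val_mul, inv_mul_cancel]; rfl
        rw [this, Matrix.one_mul]
      rw [← h1, ha, Matrix.mul_zero]
    · intro v
      rw [hP, hP, ← co_X d (hcomm γ hγ), ← emb_X d (hcomm γ hγ), Matrix.mulVec_mulVec,
        Matrix.mulVec_mulVec, ha, Matrix.smul_mulVec, map_smul]
  -- bijectivity
  have hinj : ∀ v, P *ᵥ v = 0 → v = 0 := by
    have hker := hIrr g A d j (LinearMap.ker P.mulVecLin) (by
      intro γ hγ v hv
      rw [LinearMap.mem_ker, Matrix.mulVecLin_apply] at hv ⊢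
      obtain ⟨a, ha, h1⟩ := hss γ hγ
      have h2 := h1 v
      rw [hv, Matrix.mulVec_zero] at h2
      exact (smul_eq_zero.1 h2.symm).resolve_left ha)
    rcases hker with h | h
    · intro v hv
      have : v ∈ LinearMap.ker P.mulVecLin := hv
      rw [h] at this
      exact this
    · exfalso
      apply hP0
      have : w₀ ∈ LinearMap.ker P.mulVecLin := by
        rw [h]
        trivial
      exact this
  have hsurj : ∀ w, ∃ v, P *ᵥ v = w := by
    have hran := hIrr g A d i (LinearMap.range P.mulVecLin) (by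
      rintro γ hγ _ ⟨v, rfl⟩
      obtain ⟨a, ha, h1⟩ := hss γ hγ
      rw [Matrix.mulVecLin_apply, h1 v, ← Matrix.mulVec_smul]
      exact ⟨_, rfl⟩)
    rcases hran with h | h
    · exfalso
      apply hP0
      have : P *ᵥ w₀ ∈ LinearMap.range P.mulVecLin := ⟨w₀, rfl⟩
      rw [h] at this
      exact this
    · intro w
      have : w ∈ LinearMap.range P.mulVecLin := by
        rw [h]
        trivial
      exact this
  obtain ⟨R, hR⟩ := one_mul_inv d P hsurj
  -- determinants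
  have hMi : (M d i).det ≠ 0 := by
    intro h
    obtain ⟨u, hu, hu'⟩ := Matrix.exists_mulVec_eq_zero_iff.2 h
    exact hu (M_inj d H i u hu')
  have hMj : (M d j).det ≠ 0 := by
    intro h
    obtain ⟨u, hu, hu'⟩ := Matrix.exists_mulVec_eq_zero_iff.2 h
    exact hu (M_inj d H j u hu')
  obtain ⟨M', hM'⟩ : ∃ M' : Matrix (Fin (d.m j)) (Fin (d.m j)) ℂ, M' = Pᵀ * M d i * cc P := ⟨_, rfl⟩
  have hM'inj : ∀ u, M' *ᵥ u = 0 → u = 0 := by
    intro u hu
    rw [hM', ← Matrix.mulVec_mulVec, ← Matrix.mulVec_mulVec] at hu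
    have h1 : Rᵀ * Pᵀ = 1 := by
      rw [← Matrix.transpose_mul, hR, Matrix.transpose_one]
    have h2 : Rᵀ *ᵥ (Pᵀ *ᵥ (M d i *ᵥ (cc P *ᵥ u))) = Rᵀ *ᵥ 0 := by rw [hu]
    rw [Matrix.mulVec_mulVec, h1, Matrix.one_mulVec, Matrix.mulVec_zero] at h2
    have h3 := M_inj d H i _ h2
    have h4 : cv (P *ᵥ cv u) = 0 := by
      rw [cv_mulVec, cv_cv]
      exact h3
    have h5 : P *ᵥ cv u = 0 := by
      rw [← cv_cv (P *ᵥ cv u), h4, cv_zero]
    rw [← cv_cv u, hinj _ h5, cv_zero]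
  have hM'det : M'.det ≠ 0 := by
    intro h
    obtain ⟨u, hu, hu'⟩ := Matrix.exists_mulVec_eq_zero_iff.2 h
    exact hu (hM'inj u hu')
  have hMju : IsUnit (M d j).det := isUnit_iff_ne_zero.2 hMj
  obtain ⟨T, hT⟩ : ∃ T : Matrix (Fin (d.m j)) (Fin (d.m j)) ℂ, T = M' * (M d j)⁻¹ := ⟨_, rfl⟩
  have hTM : T * M d j = M' := by
    rw [hT, Matrix.mul_assoc, Matrix.nonsing_inv_mul _ hMju, Matrix.mul_one]
  have hTdet : T.det ≠ 0 := by
    intro h
    apply hM'det
    rw [← hTM, Matrix.det_mul, h, zero_mul]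
  -- semi-invariance
  have hsemi : ∀ γ ∈ Gam A, ∃ θ : ℂ, (θ = 1 ∨ θ = -1) ∧
      Tᵀ * d.X γ.1.val j = θ • (d.X γ.1.val j * Tᵀ) := by
    intro γ hγ
    obtain ⟨q, hq, hqγ⟩ := cc_mem (A := A) hGb4 hγ
    obtain ⟨a, ha, h1⟩ := hss γ hγ
    obtain ⟨a', ha', h1'⟩ := hss q hq
    rw [hqγ] at h1'
    have hc := hcomm γ hγ
    have hc' := hcomm q hq
    rw [hqγ] at hc'
    have e1 : d.X γ.1.val i * P = a • (P * d.X γ.1.val j) := by
      apply Matrix.toLin'.injective
      apply LinearMap.ext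
      intro v
      rw [Matrix.toLin'_apply, Matrix.toLin'_apply, ← Matrix.mulVec_mulVec, h1, Matrix.smul_mulVec,
        ← Matrix.mulVec_mulVec]
    have e1' : d.X (cc γ.1.val) i * P = a' • (P * d.X (cc γ.1.val) j) := by
      apply Matrix.toLin'.injective
      apply LinearMap.ext
      intro v
      rw [Matrix.toLin'_apply, Matrix.toLin'_apply, ← Matrix.mulVec_mulVec, h1', Matrix.smul_mulVec,
        ← Matrix.mulVec_mulVec]
    set X₁ := d.X γ.1.val i with hX₁
    set X₂ := d.X γ.1.val j with hX₂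
    set Y₁ := d.X (cc γ.1.val) i with hY₁
    set Y₂ := d.X (cc γ.1.val) j with hY₂
    set ν : ℂ := γ.2.val with hν
    have hν0 : ν ≠ 0 := γ.2.ne_zero
    have s1 : X₁ᵀ * M d i * cc Y₁ = ν • M d i := M_sim d H i γ.1.val ν hc hc' (hGb1 g A γ hγ).2
    have s2 : X₂ᵀ * M d j * cc Y₂ = ν • M d j := M_sim d H j γ.1.val ν hc hc' (hGb1 g A γ hγ).2
    have e2 : Pᵀ * X₁ᵀ = a • (X₂ᵀ * Pᵀ) := by
      rw [← Matrix.transpose_mul, e1, Matrix.transpose_smul, Matrix.transpose_mul]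
    have e3 : cc Y₁ * cc P = (starRingEnd ℂ) a' • (cc P * cc Y₂) := by
      rw [← cc_mul, e1', ← cc_mul, cc_smul]
    have e4 : (a * (starRingEnd ℂ) a') • (X₂ᵀ * M' * cc Y₂) = ν • M' := by
      have f1 : (Pᵀ * X₁ᵀ) * M d i * (cc Y₁ * cc P) = ν • M' := by
        have : (Pᵀ * X₁ᵀ) * M d i * (cc Y₁ * cc P) = Pᵀ * (X₁ᵀ * M d i * cc Y₁) * cc P := by
          simp only [Matrix.mul_assoc]
        rw [this, s1, Matrix.mul_smul, Matrix.smul_mul, hM']
      rw [e2, e3] at f1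
      rw [← f1, hM']
      simp only [Matrix.smul_mul, Matrix.mul_smul, smul_smul, Matrix.mul_assoc]
      rw [mul_comm]
    have hX₂u : IsUnit X₂.det := isUnit_iff_ne_zero.2 (d.X_det_ne hc j)
    have haa : a * (starRingEnd ℂ) a' ≠ 0 := mul_ne_zero ha (by simpa using ha')
    -- cancel
    have e5 : (a * (starRingEnd ℂ) a') • (X₂ᵀ * T) = T * X₂ᵀ := by
      have hY : M d j * cc Y₂ = ν • ((X₂ᵀ)⁻¹ * M d j) := by
        have hu : IsUnit X₂ᵀ.det := by
          rw [Matrix.det_transpose]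
          exact hX₂u
        have : (X₂ᵀ)⁻¹ * (X₂ᵀ * M d j * cc Y₂) = (X₂ᵀ)⁻¹ * (ν • M d j) := by rw [s2]
        rw [Matrix.mul_assoc, ← Matrix.mul_assoc (X₂ᵀ)⁻¹, Matrix.nonsing_inv_mul _ hu, Matrix.one_mul,
          Matrix.mul_smul] at this
        exact this
      have hu : IsUnit X₂ᵀ.det := by
        rw [Matrix.det_transpose]
        exact hX₂u
      have f2 : (a * (starRingEnd ℂ) a') • (X₂ᵀ * T * (X₂ᵀ)⁻¹ * M d j) = T * M d j := by
        have f3 : X₂ᵀ * M' * cc Y₂ = ν • (X₂ᵀ * T * (X₂ᵀ)⁻¹ * M d j) := by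
          rw [← hTM]
          have : X₂ᵀ * (T * M d j) * cc Y₂ = X₂ᵀ * T * (M d j * cc Y₂) := by
            simp only [Matrix.mul_assoc]
          rw [this, hY, Matrix.mul_smul]
          simp only [Matrix.mul_assoc]
        rw [f3, smul_comm] at e4
        rw [hTM]
        exact smul_right_injective _ hν0 e4
      have f4 := congrArg (fun z => z * (M d j)⁻¹ * X₂ᵀ) f2
      simp only [Matrix.smul_mul] at f4
      have f5 : ∀ Z : Matrix (Fin (d.m j)) (Fin (d.m j)) ℂ, Z * M d j * (M d j)⁻¹ = Z := by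
        intro Z
        rw [Matrix.mul_assoc, Matrix.mul_nonsing_inv _ hMju, Matrix.mul_one]
      rw [f5, f5, Matrix.mul_assoc, Matrix.nonsing_inv_mul _ hu, Matrix.mul_one] at f4
      exact f4
    have e6 : (a * (starRingEnd ℂ) a') • (Tᵀ * X₂) = X₂ * Tᵀ := by
      have := congrArg Matrix.transpose e5
      rw [Matrix.transpose_smul, Matrix.transpose_mul, Matrix.transpose_mul,
        Matrix.transpose_transpose] at this
      exact this
    have e7 : (a * (starRingEnd ℂ) a') ^ 2 = 1 := by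
      have h2 := congrArg Matrix.det e6
      rw [Matrix.det_smul, Matrix.det_mul, Matrix.det_mul, Matrix.det_transpose,
        Fintype.card_fin] at h2
      have h3 : T.det * X₂.det ≠ 0 := mul_ne_zero hTdet hX₂u.ne_zero
      have h4 : (a * (starRingEnd ℂ) a') ^ 2 * (T.det * X₂.det) = 1 * (T.det * X₂.det) := by
        rw [← hj, h2]
        ring
      exact mul_right_cancel₀ h3 h4
    refine ⟨a * (starRingEnd ℂ) a', ?_, ?_⟩
    · have h8 : (a * (starRingEnd ℂ) a' - 1) * (a * (starRingEnd ℂ) a' + 1) = 0 := by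
        linear_combination e7
      rcases mul_eq_zero.1 h8 with h9 | h9
      · left
        linear_combination h9
      · right
        linear_combination h9
    · rw [← e6, smul_smul, ← sq, e7, one_smul]
  -- the orbit is finite
  have horb : {Y | ∃ q ∈ Gam A, Y = d.X q.1.val j * Tᵀ * d.X (q.1⁻¹).val j}.Finite := by
    apply Set.Finite.subset (Set.toFinite {Tᵀ, -Tᵀ})
    rintro _ ⟨q, hq, rfl⟩
    obtain ⟨θ, hθ, h1⟩ := hsemi q hq
    have hc := hcomm q hq
    have h2 : θ • (d.X q.1.val j * Tᵀ * d.X (q.1⁻¹).val j) = Tᵀ := by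
      rw [← Matrix.smul_mul, ← h1, Matrix.mul_assoc, (d.X_inv hc j).1, Matrix.mul_one]
    rcases hθ with rfl | rfl
    · left
      rw [one_smul] at h2
      exact h2
    · right
      rw [neg_smul, one_smul] at h2
      rw [Set.mem_singleton_iff]
      rw [← neg_eq_iff_eq_neg]
      exact h2
  obtain ⟨c, hc⟩ := (hFin g A d).2 j Tᵀ horb
  have hM'c : M' = c • M d j := by
    have h1 : T = c • 1 := by
      rw [← Matrix.transpose_transpose T, hc, Matrix.transpose_smul, Matrix.transpose_one]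
    rw [← hTM, h1, Matrix.smul_mul, Matrix.one_mul]
  have hval : ∀ v, h0 A (emb d i ⟨0, d.npos i⟩ (P *ᵥ v)) (emb d i ⟨0, d.npos i⟩ (P *ᵥ v)) =
      c * h0 A (emb d j ⟨0, d.npos j⟩ v) (emb d j ⟨0, d.npos j⟩ v) := by
    intro v
    rw [← M_spec, ← M_spec, cv_mulVec]
    have h4 : (P *ᵥ v) = v ᵥ* Pᵀ := by
      rw [Matrix.vecMul_transpose]
    rw [h4, ← Matrix.dotProduct_mulVec, Matrix.mulVec_mulVec, Matrix.mulVec_mulVec,
      ← hM', hM'c, Matrix.smul_mulVec, dotProduct_smul, smul_eq_mul]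
  have hreal : ∀ v : Idx g → ℂ, ((h0 A v v).re : ℂ) = h0 A v v := by
    intro v
    exact Complex.conj_eq_iff_re.1 (H.conj v v)
  -- a vector with nonzero value
  have hne : ∃ v, h0 A (emb d j ⟨0, d.npos j⟩ v) (emb d j ⟨0, d.npos j⟩ v) ≠ 0 := by
    have hw1 : w₀ ≠ 0 := by
      intro h
      apply hP0
      rw [h, Matrix.mulVec_zero]
    obtain ⟨a, b, ha, hb, hab⟩ := split_m d j w₀
    by_cases ha0 : a = 0
    · have hb0 : b ≠ 0 := by
        intro h
        apply hw1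
        rw [hab, ha0, h, add_zero]
      refine ⟨b, fun h => ?_⟩
      have := H.pos _ hb (emb_ne d _ hb0)
      rw [h, Complex.zero_re] at this
      exact lt_irrefl _ this
    · refine ⟨a, fun h => ?_⟩
      have := H.neg _ ha (emb_ne d _ ha0)
      rw [h, Complex.zero_re] at this
      exact lt_irrefl _ this
  obtain ⟨v₁, hv₁⟩ := hne
  have hcre : (c.re : ℂ) = c := by
    have h1 := hval v₁
    rw [← hreal (emb d i ⟨0, d.npos i⟩ (P *ᵥ v₁)), ← hreal (emb d j ⟨0, d.npos j⟩ v₁)] at h1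
    rw [← hreal (emb d j ⟨0, d.npos j⟩ v₁)] at hv₁
    apply Complex.conj_eq_iff_re.1
    have h2 := congrArg (starRingEnd ℂ) h1
    rw [map_mul, Complex.conj_ofReal, Complex.conj_ofReal, h1] at h2
    exact (mul_right_cancel₀ hv₁ h2).symm
  refine ⟨P, c.re, ?_, hsurj, ?_⟩
  · intro h
    apply hM'det
    have : Nonempty (Fin (d.m j)) := ⟨⟨0, d.mpos j⟩⟩
    rw [hM'c, ← hcre, h, Complex.ofReal_zero, zero_smul, Matrix.det_zero]
  · intro v
    unfold Q
    rw [hval v, ← hcre, Complex.re_ofReal_mul, Complex.ofReal_re]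

theorem iff_aux (H : HP A) (hGb1 : Stmt_Gb1) (hGb4 : Stmt_Gb4) (hIrr : Stmt_IrrX) (hFin : Stmt_FinX)
    (i j : Fin d.k) (hj : d.m j = 2)
    (X : Matrix (Idx g) (Idx g) ℂ) (hX : X ≠ 0) (hpX : d.p i * X = X) (hXq : X * d.p j = X)
    (hs : ∀ γ ∈ Gam A, ∃ a : ℂ, γ.1.val * X = a • (X * γ.1.val)) :
    A.Mixed (d.p i) ↔ A.Mixed (d.p j) := by
  obtain ⟨P, c, hc, hsurj, hPQ⟩ := core d H hGb1 hGb4 hIrr hFin i j hj X hX hpX hXq hs
  rw [mixed_iff d H, mixed_iff d H]
  rcases lt_or_gt_of_ne hc with hneg | hpos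
  · constructor
    · rintro ⟨⟨w, hw⟩, ⟨w', hw'⟩⟩
      obtain ⟨v, rfl⟩ := hsurj w
      obtain ⟨v', rfl⟩ := hsurj w'
      rw [hPQ] at hw hw'
      refine ⟨⟨v', ?_⟩, ⟨v, ?_⟩⟩
      · by_contra h
        push Not at h
        have := mul_nonpos_of_nonpos_of_nonneg hneg.le h
        linarith
      · by_contra h
        push Not at h
        have := mul_nonneg_of_nonpos_of_nonpos hneg.le h
        linarith
    · rintro ⟨⟨w, hw⟩, ⟨w', hw'⟩⟩
      refine ⟨⟨P *ᵥ w', ?_⟩, ⟨P *ᵥ w, ?_⟩⟩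
      · rw [hPQ]
        exact mul_neg_of_neg_of_pos hneg hw'
      · rw [hPQ]
        exact mul_pos_of_neg_of_neg hneg hw
  · constructor
    · rintro ⟨⟨w, hw⟩, ⟨w', hw'⟩⟩
      obtain ⟨v, rfl⟩ := hsurj w
      obtain ⟨v', rfl⟩ := hsurj w'
      rw [hPQ] at hw hw'
      refine ⟨⟨v, ?_⟩, ⟨v', ?_⟩⟩
      · by_contra h
        push Not at h
        have := mul_nonneg hpos.le h
        linarith
      · by_contra h
        push Not at h
        have := mul_nonpos_of_nonneg_of_nonpos hpos.le h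
        linarith
    · rintro ⟨⟨w, hw⟩, ⟨w', hw'⟩⟩
      refine ⟨⟨P *ᵥ w, ?_⟩, ⟨P *ᵥ w', ?_⟩⟩
      · rw [hPQ]
        exact mul_neg_of_pos_of_neg hpos hw
      · rw [hPQ]
        exact mul_pos hpos hw'

end dec

end SigX

open SigX

theorem sig_proof (hHerm : Stmt_Herm) (hDec : Stmt_Dec) (hIrr : Stmt_IrrX) (hFin : Stmt_FinX)
    (hGb1 : Stmt_Gb1) (hGb4 : Stmt_Gb4) : Stmt_Sig := by
  intro g A p q hp hq _ hq4 X hX hpX hXq hs
  obtain ⟨d⟩ := hDec g A
  obtain ⟨i, rfl⟩ := (d.comp p).1 hp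
  obtain ⟨j, rfl⟩ := (d.comp q).1 hq
  have hj : d.m j = 2 := by
    have h1 := d.dim j
    rw [hq4] at h1
    nlinarith [h1, d.mpos j]
  exact iff_aux d (SigX.hp A hHerm) hGb1 hGb4 hIrr hFin i j hj X hX hpX hXq hs

end

end Pool.Agent.DRB
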