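import Pool.Agent.DRB.Basic

/-!
# De Rham-Betti conjecture: exact statements of the modules (squad DRB)
Recipes: /team-store/MP_470b79_PROOF.md
-/

open scoped BigOperators Topology
open Matrix Asymptotics Filter

namespace Pool.Agent.DRB

noncomputable section

/-! ## Part T: the Schneider-Lang theorem for periodic systems in several variables -/

/-- Meromorphic functions `a k / b` on `ℂ^d` of order two, periodic for a lattice containing a basis of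
`ℂ^d`, generating a ring with algebraic coefficients stable under derivation, with algebraic values at
the origin. -/
structure SLData (d N : ℕ) where
  a : Fin N → (Fin d → ℂ) → ℂ
  b : (Fin d → ℂ) → ℂ
  a_entire : ∀ k, Differentiable ℂ (a k)
  b_entire : Differentiable ℂ b
  b_zero : b 0 ≠ 0
  growth : ∃ C : ℝ, (∀ k z, ‖a k z‖ ≤ Real.exp (C * (1 + ‖z‖) ^ 2)) ∧
    ∀ z, ‖b z‖ ≤ Real.exp (C * (1 + ‖z‖) ^ 2)
  u : Fin d → (Fin d → ℂ)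
  u_indep : LinearIndependent ℂ u
  per : ∀ j k z, a k (z + u j) * b z = a k z * b (z + u j)
  der : ∀ l k, ∃ P : MvPolynomial (Fin N) ℂ, AlgPoly P ∧ ∀ z, b z ≠ 0 →
    pd l (fun w => a k w / b w) z = MvPolynomial.eval (fun i => a i z / b z) P
  alg0 : ∀ k, IsAlgebraic ℚ (a k 0 / b 0)

/-- Any `d + 1` of the functions are algebraically dependent. -/
def Stmt_Td : Prop :=
  ∀ (d N : ℕ) (S : SLData d N) (s : Fin (d + 1) → Fin N), 1 ≤ d →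
    ∃ R : MvPolynomial (Fin (d + 1)) ℂ, R ≠ 0 ∧
      ∀ z, S.b z ≠ 0 → MvPolynomial.eval (fun j => S.a (s j) z / S.b z) R = 0

/-- Schwarz lemma for entire functions on `ℂ^d` with zeros of high order at the integral points. -/
def Stmt_Schw : Prop :=
  ∀ (d : ℕ) (F : (Fin d → ℂ) → ℂ), 1 ≤ d → Differentiable ℂ F → ∀ (T S : ℕ) (B : ℝ), 1 ≤ S →
    (∀ m : Fin d → ℤ, (∀ j, |m j| ≤ (S : ℤ)) →
      F =O[𝓝 (fun j => (m j : ℂ))] (fun z => ‖z - fun j => (m j : ℂ)‖ ^ (d * T))) →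
    (∀ z, (∀ j, ‖z j‖ ≤ 5 * S) → ‖F z‖ ≤ B) →
    ∀ z, (∀ j, ‖z j‖ ≤ 1) → ‖F z‖ ≤ 4 ^ d * (1 / 2) ^ ((2 * S + 1) * T) * B

/-- Arithmetic size of iterated derivatives of monomials. -/
def Stmt_Der : Prop :=
  ∀ (L : Type) [Field L] [NumberField L] (d N : ℕ) (P : Fin d → Fin N → MvPolynomial (Fin N) L)
    (x : Fin N → L), ∃ (q : ℕ) (C : ℝ), 1 ≤ q ∧ 1 ≤ C ∧ ∀ (e : Fin N →₀ ℕ) (ls : List (Fin d)),
      IsIntegral ℤ ((q : L) ^ (e.degree + ls.length) * MvPolynomial.eval x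
        (ls.foldr (fun l Q => MvPolynomial.mkDerivation L (P l) Q) (MvPolynomial.monomial e 1))) ∧
      NumberField.house (MvPolynomial.eval x
        (ls.foldr (fun l Q => MvPolynomial.mkDerivation L (P l) Q) (MvPolynomial.monomial e 1))) ≤
        C ^ (e.degree + ls.length) * ((e.degree + ls.length : ℕ) : ℝ) ^ ls.length

/-- Iterated partial derivatives of polynomials in the functions. -/
def Stmt_Link : Prop :=
  ∀ (d N : ℕ) (S : SLData d N) (P : Fin d → Fin N → MvPolynomial (Fin N) ℂ),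
    (∀ l k z, S.b z ≠ 0 →
      pd l (fun w => S.a k w / S.b w) z = MvPolynomial.eval (fun i => S.a i z / S.b z) (P l k)) →
    ∀ (R : MvPolynomial (Fin N) ℂ) (ls : List (Fin d)) (z : Fin d → ℂ), S.b z ≠ 0 →
      pdl ls (fun w => MvPolynomial.eval (fun i => S.a i w / S.b w) R) z =
        MvPolynomial.eval (fun i => S.a i z / S.b z)
          (ls.foldr (fun l Q => MvPolynomial.mkDerivation ℂ (P l) Q) R)

/-- Order of vanishing and partial derivatives. -/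
def Stmt_Ord : Prop :=
  ∀ (d : ℕ) (F : (Fin d → ℂ) → ℂ) (T : ℕ), AnalyticAt ℂ F 0 →
    ((∀ κ : Fin d → ℕ, ∑ j, κ j < T → pdl (cl κ) F 0 = 0) →
      F =O[𝓝 0] (fun z => ‖z‖ ^ T)) ∧
    ((∀ κ : Fin d → ℕ, pdl (cl κ) F 0 = 0) → F =ᶠ[𝓝 0] 0)

/-- Cauchy estimates. -/
def Stmt_Cau : Prop :=
  ∀ (d : ℕ) (F : (Fin d → ℂ) → ℂ), Differentiable ℂ F → ∀ (r B : ℝ), 0 < r →
    (∀ z, ‖z‖ ≤ r → ‖F z‖ ≤ B) →
    ∀ κ : Fin d → ℕ, ‖pdl (cl κ) F 0‖ ≤ (Nat.factorial (∑ j, κ j) : ℝ) * B / r ^ (∑ j, κ j)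

/-- Leading terms of products. -/
def Stmt_Leib : Prop :=
  ∀ (d : ℕ) (F G : (Fin d → ℂ) → ℂ) (T : ℕ), AnalyticAt ℂ F 0 → AnalyticAt ℂ G 0 →
    (∀ κ : Fin d → ℕ, ∑ j, κ j < T → pdl (cl κ) F 0 = 0) →
    ∀ κ : Fin d → ℕ, ∑ j, κ j = T → pdl (cl κ) (fun z => G z * F z) 0 = G 0 * pdl (cl κ) F 0

/-- Algebraic data come from a number field. -/
def Stmt_Numf : Prop :=
  ∀ (d N : ℕ) (P : Fin d → Fin N → MvPolynomial (Fin N) ℂ) (x : Fin N → ℂ),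
    (∀ l k, AlgPoly (P l k)) → (∀ k, IsAlgebraic ℚ (x k)) →
    ∃ (L : Type) (_ : Field L) (_ : NumberField L) (φ : L →+* ℂ)
      (P' : Fin d → Fin N → MvPolynomial (Fin N) L) (x' : Fin N → L),
      (∀ l k, P l k = MvPolynomial.map φ (P' l k)) ∧ ∀ k, x k = φ (x' k)

/-- The auxiliary polynomial (Siegel's lemma). -/
def Stmt_Aux : Prop :=
  ∀ (L : Type) [Field L] [NumberField L] (d N : ℕ) (P : Fin d → Fin N → MvPolynomial (Fin N) L)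
    (x : Fin N → L) (s : Fin (d + 1) → Fin N), ∃ C : ℝ, 1 ≤ C ∧ ∀ D T : ℕ, 1 ≤ D → 1 ≤ T →
      2 * T ^ d ≤ D ^ (d + 1) →
      ∃ p : (Fin (d + 1) → Fin D) → NumberField.RingOfIntegers L, p ≠ 0 ∧
        (∀ κ : Fin d → ℕ, ∑ j, κ j < T →
          ∑ e, (p e : L) * MvPolynomial.eval x
            ((cl κ).foldr (fun l Q => MvPolynomial.mkDerivation L (P l) Q)
              (∏ j, MvPolynomial.X (s j) ^ (e j : ℕ))) = 0) ∧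
        ∀ e, NumberField.house (p e : L) ≤ C ^ (D + T) * ((D + T : ℕ) : ℝ) ^ T

/-- Liouville's inequality. -/
def Stmt_Low : Prop :=
  ∀ (L : Type) [Field L] [NumberField L] (φ : L →+* ℂ) (ξ : L) (n : ℕ) (H : ℝ), ξ ≠ 0 → 1 ≤ n →
    1 ≤ H → IsIntegral ℤ ((n : L) * ξ) → NumberField.house ξ ≤ H →
    1 ≤ ‖φ ξ‖ * ((n : ℝ) * H) ^ (Module.finrank ℚ L)

/-- Upper bound for the first nonzero derivative of an auxiliary function. -/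
def Stmt_Up : Prop :=
  ∀ (d N : ℕ) (S : SLData d N) (s : Fin (d + 1) → Fin N), 1 ≤ d →
    ∃ (c C : ℝ), 0 < c ∧ 1 ≤ C ∧ ∀ (D T : ℕ) (p : (Fin (d + 1) → Fin D) → ℂ) (H : ℝ),
      1 ≤ D → D ≤ T → (∀ e, ‖p e‖ ≤ H) →
      (∀ κ : Fin d → ℕ, ∑ j, κ j < T →
        pdl (cl κ) (fun w => ∑ e, p e * ∏ j, (S.a (s j) w / S.b w) ^ (e j : ℕ)) 0 = 0) →
      ∀ κ : Fin d → ℕ, ∑ j, κ j = T →
        ‖pdl (cl κ) (fun w => ∑ e, p e * ∏ j, (S.a (s j) w / S.b w) ^ (e j : ℕ)) 0‖ ≤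
          H * C ^ T * (T : ℝ) ^ T * Real.exp (-(c * (T : ℝ) ^ 2 / D))

/-! ## Part A: abelian varieties -/

/-- Growth of theta functions. -/
def Stmt_Grow : Prop :=
  ∀ (g : ℕ) (lat : Idx g → (Fin g → ℂ)), LinearIndependent ℝ lat →
    ∀ (F : (Fin g → ℂ) → ℂ) (a : Idx g → (Fin g → ℂ)) (c : Idx g → ℂ), Differentiable ℂ F →
      (∀ i z, F (z + lat i) = Complex.exp ((∑ k, a i k * z k) + c i) * F z) →
      ∃ C : ℝ, ∀ z, ‖F z‖ ≤ Real.exp (C * (1 + ‖z‖) ^ 2)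

/-- Growth of partial derivatives. -/
def Stmt_GrowD : Prop :=
  ∀ (g : ℕ) (F : (Fin g → ℂ) → ℂ) (j : Fin g), Differentiable ℂ F →
    (∃ C : ℝ, ∀ z, ‖F z‖ ≤ Real.exp (C * (1 + ‖z‖) ^ 2)) →
    Differentiable ℂ (pd j F) ∧ ∃ C : ℝ, ∀ z, ‖pd j F z‖ ≤ Real.exp (C * (1 + ‖z‖) ^ 2)

/-- Periodicity. -/
def Stmt_Qp : Prop :=
  ∀ (g : ℕ) (A : AbVar g) (i : Idx g) (z : Fin g → ℂ), A.θ z ≠ 0 →
    A.θ (z + A.lat i) ≠ 0 ∧ (∀ k, A.f k (z + A.lat i) = A.f k z) ∧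
    ∀ j, A.Z j (z + A.lat i) = A.Z j z + A.lin i j

/-- Legendre relation. -/
def Stmt_Leg : Prop :=
  ∀ (g : ℕ) (A : AbVar g),
    (∀ i j, ∃ n : ℤ, A.riem i j = n) ∧ A.perᵀ * Jm g * A.per = tpi • A.riem ∧
    IsUnit A.riem.det ∧ A.riemᵀ = - A.riem

/-- Application of the Schneider-Lang theorem: `M s` are linear maps from `ℂ^d` to
`ℂ^g × ℂ^g` (with algebraic coefficients), mapping a basis `u` of `ℂ^d` to periods. -/
def Stmt_Slav : Prop :=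
  ∀ (g : ℕ) (A : AbVar g) (d S : ℕ) (M : Fin S → Matrix (Idx g) (Fin d) ℂ) (u : Fin d → (Fin d → ℂ)),
    1 ≤ d → (∀ s i j, IsAlgebraic ℚ (M s i j)) → LinearIndependent ℂ u →
    (∀ s j, ∃ n : Idx g → ℤ, M s *ᵥ u j = A.per *ᵥ (fun i => (n i : ℂ))) →
    ∀ F : Fin (d + 1) → Fin S × (Fin A.nfun ⊕ Fin g),
      ∃ R : MvPolynomial (Fin (d + 1)) ℂ, R ≠ 0 ∧ ∀ w : Fin d → ℂ,
        (∀ s, A.θ (pr (M s *ᵥ w)) ≠ 0) →
        MvPolynomial.eval (fun i => A.fH (F i).2 (M (F i).1 *ᵥ w)) R = 0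

/-- Algebraic independence of `g` of the functions `f_k` and of all `H_j` on `ℂ^d`. -/
def Stmt_Indep : Prop :=
  ∀ (g : ℕ) (A : AbVar g) (d : ℕ) (M : Matrix (Idx g) (Fin d) ℂ),
    (∀ z : Fin g → ℂ, ∃ w : Fin d → ℂ, pr (M *ᵥ w) = z) →
    ∃ ks : Fin g → Fin A.nfun, ∀ R : MvPolynomial (Fin g ⊕ Fin g) ℂ,
      (∀ w : Fin d → ℂ, A.θ (pr (M *ᵥ w)) ≠ 0 →
        MvPolynomial.eval (fun e => A.fH (Sum.map ks id e) (M *ᵥ w)) R = 0) → R = 0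

/-- There is no proper de Rham-Betti subobject of `H_1(A)` which maps onto `Lie A`. -/
def Stmt_T1 : Prop :=
  ∀ (g : ℕ) (A : AbVar g) (D : Submodule ℂ (Idx g → ℂ)), RatSpan D →
    AlgSpan (D.map A.per.mulVecLin) →
    (∀ z : Fin g → ℂ, ∃ v ∈ D, pr (A.per *ᵥ v) = z) → D = ⊤

/-- De Rham-Betti endomorphisms of `H_1(A)` are endomorphisms of `A`. -/
def Stmt_T2 : Prop :=
  ∀ (g : ℕ) (A : AbVar g) (α : Matrix (Idx g) (Idx g) ℚ) (ρ : Matrix (Idx g) (Idx g) ℂ),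
    (∀ r s, IsAlgebraic ℚ (ρ r s)) → A.per * AbVar.toC α = ρ * A.per →
    ∀ i j, ρ (Sum.inl i) (Sum.inr j) = 0

/-- The algebraic relation behind `Stmt_T2`. -/
def Stmt_T2r : Prop :=
  ∀ (g : ℕ) (A : AbVar g) (α : Matrix (Idx g) (Idx g) ℤ) (ρ : Matrix (Idx g) (Idx g) ℂ), 1 ≤ g →
    (∀ r s, IsAlgebraic ℚ (ρ r s)) → A.per * α.map (Int.cast : ℤ → ℂ) = ρ * A.per →
    ∀ (ks : Fin g → Fin A.nfun) (k : Fin A.nfun),
      ∃ R : MvPolynomial (Option (Fin g ⊕ Fin g)) ℂ, R ≠ 0 ∧ ∀ x : Idx g → ℂ,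
        A.θ (pr x) ≠ 0 → A.θ (pr (ρ *ᵥ x)) ≠ 0 →
        MvPolynomial.eval (fun o => Option.elim o (A.f k (pr (ρ *ᵥ x)))
          (fun e => A.fH (Sum.map ks id e) x)) R = 0

/-- Recurrence modulo a lattice. -/
def Stmt_Recur : Prop :=
  ∀ (g : ℕ) (lat : Idx g → (Fin g → ℂ)), LinearIndependent ℝ lat → ∀ v : Fin g → ℂ,
    ∃ (n : ℕ → ℕ) (l : ℕ → Idx g → ℤ), StrictMono n ∧
      Tendsto (fun j => (n j : ℂ) • v - ∑ i, (l j i : ℂ) • lat i) atTop (𝓝 0)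

/-- The Riemann form is the imaginary part of a positive definite hermitian form. -/
def Stmt_Herm : Prop :=
  ∀ (g : ℕ) (A : AbVar g), ∃ h : Matrix (Fin g) (Fin g) ℂ, h.IsHermitian ∧
    (∀ z : Fin g → ℂ, z ≠ 0 → 0 < (∑ k, ∑ l, z k * h k l * (starRingEnd ℂ) (z l)).re) ∧
    ∀ i j, A.riem i j = ((∑ k, ∑ l, A.lat i k * h k l * (starRingEnd ℂ) (A.lat j l)).im : ℂ)

/-- Positivity: Rosati adjoints exist, `End(A) ⊗ ℚ` is reduced when commutative, and the Rosati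
involution is complex conjugation on characters. -/
def Stmt_Pos : Prop :=
  ∀ (g : ℕ) (A : AbVar g), (∀ α ∈ A.EndQ, ∀ β ∈ A.EndQ, α * β = β * α) →
    (∀ α ∈ A.EndQ, ∃ β ∈ A.EndQ, A.IsRosati α β) ∧
    (∀ α ∈ A.EndQ, α * α = 0 → α = 0) ∧
    (∀ (α β : A.EndQ) (χ : A.Chr), A.IsRosati α β → χ β = (starRingEnd ℂ) (χ α))

/-! ## Part F: field automorphisms of the complex numbers -/

/-- The fixed field of all automorphisms is `ℚ`. -/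
def Stmt_Aut1 : Prop := ∀ z : ℂ, (∀ σ : ℂ ≃ₐ[ℚ] ℂ, σ z = z) → ∃ q : ℚ, z = q

/-- A number with countable orbit is algebraic. -/
def Stmt_Aut2 : Prop :=
  ∀ z : ℂ, {w : ℂ | ∃ τ ∈ GalA, w = τ z}.Countable → IsAlgebraic ℚ z

/-- Galois descent to `ℚ`. -/
def Stmt_DescQ : Prop :=
  ∀ (κ : Type) [Fintype κ] (D : Submodule ℂ (κ → ℂ)),
    (∀ (σ : ℂ ≃ₐ[ℚ] ℂ), ∀ v ∈ D, (fun k => σ (v k)) ∈ D) → RatSpan D

/-- Galois descent to the algebraic numbers. -/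
def Stmt_DescA : Prop :=
  ∀ (κ : Type) [Fintype κ] (D : Submodule ℂ (κ → ℂ)),
    (∀ τ ∈ GalA, ∀ v ∈ D, (fun k => τ (v k)) ∈ D) → AlgSpan D

/-- Bilinear expressions with algebraic values are constant. -/
def Stmt_Ldp : Prop :=
  ∀ (n : ℕ) (x y : Fin n → ℂ), (∀ τ ∈ GalA, IsAlgebraic ℚ (∑ m, x m * τ (y m))) →
    ∀ τ ∈ GalA, ∑ m, x m * τ (y m) = ∑ m, x m * y m

/-- Additive functions on the multiplicative group detect all relations. -/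
def Stmt_Homx : Prop :=
  ∀ (J : ℕ) (z : Fin J → ℂˣ) (c : Fin J → ℂ),
    (∀ L : Additive ℂˣ →+ ℂ, ∑ j, c j * L (Additive.ofMul (z j)) = 0) →
    c ∈ Submodule.span ℂ {v : Fin J → ℂ | ∃ n : Fin J → ℤ, (∀ j, v j = n j) ∧
      ∃ N : ℕ, 1 ≤ N ∧ (∏ j, z j ^ n j) ^ N = 1}

/-- Transcendence of `π`. -/
def Stmt_Lind : Prop := ¬ IsAlgebraic ℚ (Real.pi : ℂ)

/-! ## Part G: the group `Γ` -/

def Stmt_Gb1 : Prop :=
  ∀ (g : ℕ) (A : AbVar g), ∀ p ∈ Gam A,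
    (∀ α ∈ A.EndQ, p.1.val * AbVar.toC α = AbVar.toC α * p.1.val) ∧
    p.1.valᵀ * A.riem * p.1.val = p.2.val • A.riem

def Stmt_Gb2 : Prop :=
  ∀ (g : ℕ) (A : AbVar g) (t : TData) (D : Submodule ℂ (TIdx t (Idx g) → ℂ)), IsDRB A t D →
    ∀ p ∈ Gam A, D.map (TAct t p.1.val p.2.val) ≤ D

def Stmt_Gb3 : Prop :=
  ∀ (g : ℕ) (A : AbVar g) (D : Submodule ℂ (Idx g → ℂ)), RatSpan D →
    (∀ p ∈ Gam A, D.map p.1.val.mulVecLin ≤ D) →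
    AlgSpan (D.map A.per.mulVecLin)

def Stmt_Gb4 : Prop :=
  ∀ (g : ℕ) (A : AbVar g) (σ : ℂ ≃ₐ[ℚ] ℂ), ∀ p ∈ Gam A, ∀ q : GL (Idx g) ℂ × ℂˣ,
    q.1.val = p.1.val.map σ →
    q.2.val = σ p.2.val → q ∈ Gam A

/-- Elements with a finite orbit are combinations of endomorphisms. -/
def Stmt_Fin : Prop :=
  ∀ (g : ℕ) (A : AbVar g) (X : Matrix (Idx g) (Idx g) ℂ),
    {Y | ∃ p ∈ Gam A, Y = p.1.val * X * (p.1⁻¹).val}.Finite →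
    X ∈ Submodule.span ℂ {Y | ∃ α ∈ A.EndQ, Y = AbVar.toC α}

/-- Decomposition into eigenspaces. -/
def Stmt_Eig : Prop :=
  ∀ (g : ℕ) (A : AbVar g), A.Hyp → iSupIndep A.eig ∧ (⨆ χ, A.eig χ) = ⊤

/-- Irreducibility of the two dimensional eigenspaces. -/
def Stmt_Irr : Prop :=
  ∀ (g : ℕ) (A : AbVar g), A.Hyp → ∀ χ : A.Chr, A.IsRealChr χ → ∀ v ∈ A.eig χ, v ≠ 0 →
    ∃ p ∈ Gam A, ∀ c : ℂ, p.1.val *ᵥ v ≠ c • v

/-- Some element is not torsion modulo scalars. -/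
def Stmt_Tors : Prop :=
  ∀ (g : ℕ) (A : AbVar g), A.Hyp → ∀ χ : A.Chr, A.IsRealChr χ →
    ∃ p ∈ Gam A, ∀ n : ℕ, 1 ≤ n →
      ¬ ∃ c : ℂ, ∀ v ∈ A.eig χ, p.1.val ^ n *ᵥ v = c • v

/-- The characters of `Γ` on the one dimensional eigenspaces. -/
def Stmt_H5 : Prop :=
  ∀ (g : ℕ) (A : AbVar g), A.Hyp → ∀ Y : GL (Idx g) ℂ × ℂˣ → A.Chr → ℂˣ,
    (∀ p ∈ Gam A, ∀ χ : A.Chr, ¬ A.IsRealChr χ → ∀ v ∈ A.eig χ,
      p.1.val *ᵥ v = (Y p χ).val • v) →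
    ∀ (n : A.Chr → ℤ) (m : ℤ), (∀ χ, A.IsRealChr χ → n χ = 0) →
      (∀ p ∈ Gam A, ∃ N : ℕ, 1 ≤ N ∧ ((∏ᶠ χ, Y p χ ^ n χ) * p.2 ^ m) ^ N = 1) →
      (∀ χ, n (A.conjChr χ) = n χ) ∧ 2 * m + ∑ᶠ χ, n χ = 0

/-- The easy inclusion. -/
def Stmt_Rev : Prop :=
  ∀ (g : ℕ) (A : AbVar g) (x : GL (Idx g) ℂ) (ν : ℂˣ), InGdRB A x ν →
    ((∀ α ∈ A.EndQ, x.val * AbVar.toC α = AbVar.toC α * x.val) ∧
      x.valᵀ * A.riem * x.val = ν.val • A.riem)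

/-! ## Part B: block groups -/

/-- Jordan decomposition and stable subspaces of tensor spaces. -/
def Stmt_Jd : Prop :=
  ∀ (ι : Type) [Fintype ι] [DecidableEq ι] (t : TData) (S : GL ι ℂ) (α : ι → ℂˣ) (N : Matrix ι ι ℂ)
    (ν : ℂˣ) (D : Submodule ℂ (TIdx t ι → ℂ)),
    N * N = 0 →
    Matrix.diagonal (fun i => (α i).val) * N = N * Matrix.diagonal (fun i => (α i).val) →
    D.map (TAct t (S.val * Matrix.diagonal (fun i => (α i).val) * (1 + N) *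
      (S⁻¹).val) ν.val) ≤ D →
    (∀ L : Additive ℂˣ →+ ℂ, D.map (DAct t (S.val *
      Matrix.diagonal (fun i => L (Additive.ofMul (α i))) * (S⁻¹).val)
        (L (Additive.ofMul ν))) ≤ D) ∧
    D.map (DAct t (S.val * N * (S⁻¹).val) 0) ≤ D

/-- The Lie algebra action: conjugation and brackets. -/
def Stmt_Adj : Prop :=
  ∀ (ι : Type) [Fintype ι] [DecidableEq ι] (t : TData),
    (∀ (x : GL ι ℂ) (X : Matrix ι ι ℂ) (ν μ : ℂ),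
      (TAct t x.val ν).comp (DAct t X μ) = (DAct t (x.val * X * (x⁻¹).val) μ).comp (TAct t x.val ν)) ∧
    (∀ (X Y : Matrix ι ι ℂ) (μ μ' : ℂ),
      (DAct t X μ).comp (DAct t Y μ') - (DAct t Y μ').comp (DAct t X μ) = DAct t (X * Y - Y * X) 0) ∧
    (∀ (X Y : Matrix ι ι ℂ) (μ μ' a : ℂ), DAct t (X + a • Y) (μ + a * μ') = DAct t X μ + a • DAct t Y μ')

/-- Exponentials of nilpotent and of diagonal matrices. -/
def Stmt_Exp : Prop :=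
  ∀ (ι : Type) [Fintype ι] [DecidableEq ι] (t : TData) (D : Submodule ℂ (TIdx t ι → ℂ)),
    (∀ X : Matrix ι ι ℂ, X * X = 0 → D.map (DAct t X 0) ≤ D → D.map (TAct t (1 + X) 1) ≤ D) ∧
    (∀ (a : ι → ℂ) (μ : ℂ), D.map (DAct t (Matrix.diagonal a) μ) ≤ D →
      D.map (TAct t (Matrix.diagonal fun i => Complex.exp (a i)) (Complex.exp μ)) ≤ D)

/-- Jordan form of invertible two by two matrices. -/
def Stmt_Jnf : Prop :=
  ∀ x : GL (Fin 2) ℂ, ∃ (S : GL (Fin 2) ℂ) (α : Fin 2 → ℂˣ) (N : Matrix (Fin 2) (Fin 2) ℂ),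
    N * N = 0 ∧
    Matrix.diagonal (fun i => (α i).val) * N = N * Matrix.diagonal (fun i => (α i).val) ∧
    x.val = S.val * Matrix.diagonal (fun i => (α i).val) * (1 + N) *
      (S⁻¹).val

/-- `ρ` is irreducible and no nonzero traceless matrix has a finite orbit. -/
def Big {G : Type} [Group G] (ρ : G →* GL (Fin 2) ℂ) : Prop :=
  (∀ v : Fin 2 → ℂ, v ≠ 0 → ∃ γ, ∀ c : ℂ, (ρ γ).val *ᵥ v ≠ c • v) ∧
  (∀ X : Matrix (Fin 2) (Fin 2) ℂ, X.trace = 0 → X ≠ 0 →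
    ¬ (Set.range fun γ => (ρ γ).val * X * ((ρ γ)⁻¹).val).Finite)

/-- The adjoint representation is irreducible. -/
def Stmt_Ad2 : Prop :=
  ∀ (G : Type) [Group G] (ρ : G →* GL (Fin 2) ℂ), Big ρ →
    ∀ N : Submodule ℂ (Matrix (Fin 2) (Fin 2) ℂ), (∀ X ∈ N, X.trace = 0) →
      (∀ γ, ∀ X ∈ N, (ρ γ).val * X * ((ρ γ)⁻¹).val ∈ N) →
      N ≠ ⊥ → ∀ X : Matrix (Fin 2) (Fin 2) ℂ, X.trace = 0 → X ∈ N

/-- Linear maps of traceless matrices compatible with brackets up to a factor are conjugations. -/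
def Stmt_Pgl : Prop :=
  ∀ (φ : Matrix (Fin 2) (Fin 2) ℂ →ₗ[ℂ] Matrix (Fin 2) (Fin 2) ℂ) (k : ℂ), k ≠ 0 →
    (∀ X, X.trace = 0 → (φ X).trace = 0) → (∀ X, X.trace = 0 → φ X = 0 → X = 0) →
    (∀ X Y, X.trace = 0 → Y.trace = 0 → φ X * φ Y - φ Y * φ X = k • φ (X * Y - Y * X)) →
    ∃ (P : GL (Fin 2) ℂ) (c : ℂ), c ≠ 0 ∧ ∀ X, X.trace = 0 →
      φ X = c • (P.val * X * (P⁻¹).val)

/-- The adjoint representations of different blocks are disjoint. -/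
def Stmt_Ad3 : Prop :=
  ∀ (G : Type) [Group G] (ρ₁ ρ₂ : G →* GL (Fin 2) ℂ), Big ρ₁ → Big ρ₂ →
    (∀ γ, (ρ₁ γ).val.det = (ρ₂ γ).val.det) →
    (∀ P : Matrix (Fin 2) (Fin 2) ℂ, P ≠ 0 →
      ¬ (Set.range fun γ => (ρ₂ γ).val * P * ((ρ₁ γ)⁻¹).val).Finite) →
    ∀ φ : Matrix (Fin 2) (Fin 2) ℂ →ₗ[ℂ] Matrix (Fin 2) (Fin 2) ℂ,
      (∀ X, X.trace = 0 → (φ X).trace = 0) →
      (∀ γ X, X.trace = 0 →
        φ ((ρ₁ γ).val * X * ((ρ₁ γ)⁻¹).val) =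
          (ρ₂ γ).val * φ X * ((ρ₂ γ)⁻¹).val) →
      ∀ X, X.trace = 0 → φ X = 0

/-- The hypotheses on a block group. -/
structure BHyp {R C : Type} [Fintype R] [Fintype C] (c : C → C)
    (Γ : Subgroup (BGrp R C)) : Prop where
  inv : ∀ i, c (c i) = i
  free : ∀ i, c i ≠ i
  sim : ∀ γ ∈ Γ, BSim c γ
  h1 : ∀ r, ∀ v : Fin 2 → ℂ, v ≠ 0 → ∃ γ ∈ Γ, ∀ a : ℂ,
    (γ.1 r).val *ᵥ v ≠ a • v
  h2 : ∀ r, ∀ X : Matrix (Fin 2) (Fin 2) ℂ, X.trace = 0 → X ≠ 0 →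
    ¬ {Y | ∃ γ ∈ Γ, Y = (γ.1 r).val * X *
      ((γ.1 r)⁻¹).val}.Finite
  h3 : ∀ r r', r ≠ r' → ∀ P : Matrix (Fin 2) (Fin 2) ℂ, P ≠ 0 →
    ¬ {Y | ∃ γ ∈ Γ, Y = (γ.1 r').val * P *
      ((γ.1 r)⁻¹).val}.Finite
  h4 : ∀ r, ∃ γ ∈ Γ, ∀ n : ℕ, 1 ≤ n →
    ¬ ∃ a : ℂ, (γ.1 r).val ^ n = a • (1 : Matrix _ _ ℂ)
  h5 : ∀ (n : C → ℤ) (m : ℤ),
    (∀ γ ∈ Γ, ∃ N : ℕ, 1 ≤ N ∧ ((∏ i, γ.2.1 i ^ n i) * γ.2.2 ^ m) ^ N = 1) →
    (∀ i, n (c i) = n i) ∧ 2 * m + ∑ i, n i = 0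

/-- Stable Lie subalgebras contain the full block. -/
def Stmt_Ad1 : Prop :=
  ∀ (R C : Type) [Fintype R] [DecidableEq R] [Fintype C] [DecidableEq C] (c : C → C)
    (Γ : Subgroup (BGrp R C)), BHyp c Γ → ∀ h : Submodule ℂ (BLie R C),
    (∀ X ∈ h, ∀ Y ∈ h, ((fun r => X.1 r * Y.1 r - Y.1 r * X.1 r, 0, 0) : BLie R C) ∈ h) →
    (∀ γ ∈ Γ, ∀ X ∈ h, ((fun r => (γ.1 r).val * X.1 r *
      ((γ.1 r)⁻¹).val, X.2) : BLie R C) ∈ h) →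
    ∀ r, (∃ X ∈ h, ∀ a : ℂ, X.1 r ≠ a • (1 : Matrix (Fin 2) (Fin 2) ℂ)) →
      ∀ Y : Matrix (Fin 2) (Fin 2) ℂ, Y.trace = 0 → ((Pi.single r Y, 0, 0) : BLie R C) ∈ h

/-- The central part. -/
def Stmt_Cen : Prop :=
  ∀ (R C : Type) [Fintype R] [DecidableEq R] [Fintype C] [DecidableEq C] (c : C → C)
    (Γ : Subgroup (BGrp R C)), BHyp c Γ → ∀ Z : Submodule ℂ ((C → ℂ) × ℂ),
    (∀ γ ∈ Γ, ∀ L : Additive ℂˣ →+ ℂ,
      ((fun i => L (Additive.ofMul (γ.2.1 i)), L (Additive.ofMul γ.2.2)) : (C → ℂ) × ℂ) ∈ Z) →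
    ∀ (y : C → ℂ) (μ : ℂ), (∀ i, y i + y (c i) = μ) → (y, μ) ∈ Z

/-- The block theorem: every subspace of a tensor space which is stable under `Γ` is stable under the
group of all similitudes. -/
def Stmt_Gt : Prop :=
  ∀ (R C : Type) [Fintype R] [DecidableEq R] [Fintype C] [DecidableEq C] (c : C → C)
    (Γ : Subgroup (BGrp R C)), BHyp c Γ →
    ∀ (t : TData) (D : Submodule ℂ (TIdx t (BIdx R C) → ℂ)),
      (∀ γ ∈ Γ, D.map (TAct t (bm γ) γ.2.2.val) ≤ D) →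
      ∀ γ : BGrp R C, BSim c γ → D.map (TAct t (bm γ) γ.2.2.val) ≤ D

end

end Pool.Agent.DRB
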