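import Pool.Agent.DRB.Basic3
import Pool.Agent.DRB.Stmts

/-!
# De Rham-Betti conjecture, second theorem: exact statements of the modules
Recipes: /team-store/MP_470b79_PROOF3.md
-/

open scoped BigOperators Topology
open Matrix

namespace Pool.Agent.DRB

noncomputable section

/-! ## Part P: polarisation, semisimplicity -/

/-- Positive definite hermitian matrices. -/
def PD {ι : Type} [Fintype ι] (h : Matrix ι ι ℂ) : Prop :=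
  h.IsHermitian ∧ ∀ v : ι → ℂ, v ≠ 0 → 0 < (star v ⬝ᵥ (h *ᵥ v)).re

/-- POS2. A positive definite hermitian form on `H_1(A, ℂ)` with respect to which the adjoint of an
endomorphism is its Rosati adjoint. -/
def Stmt_Pos2 : Prop :=
  ∀ (g : ℕ) (A : AbVar g), ∃ h : Matrix (Idx g) (Idx g) ℂ, PD h ∧
    ∀ α, A.IsEnd α → ∃ β, A.IsEnd β ∧ A.IsRosati α β ∧
      (AbVar.toC α)ᴴ * h = h * AbVar.toC β

/-- WED. Matrix algebras stable under adjoints (Wedderburn). -/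
def Stmt_Wed : Prop :=
  ∀ (ι : Type) [Fintype ι] [DecidableEq ι] (E : Submodule ℂ (Matrix ι ι ℂ)) (h : Matrix ι ι ℂ),
    PD h → (1 : Matrix ι ι ℂ) ∈ E → (∀ x ∈ E, ∀ y ∈ E, x * y ∈ E) →
    (∀ x ∈ E, ∃ y ∈ E, xᴴ * h = h * y) →
    ∃ (k : ℕ) (m n : Fin k → ℕ) (B : Module.Basis (Σ i, Fin (m i) × Fin (n i)) ℂ (ι → ℂ)),
      (∀ i, 0 < m i ∧ 0 < n i) ∧
      ∀ x, x ∈ E ↔ ∃ Y : ∀ i, Matrix (Fin (n i)) (Fin (n i)) ℂ, ∀ i a b,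
        x *ᵥ B ⟨i, (a, b)⟩ = ∑ b', Y i b' b • B ⟨i, (a, b')⟩

/-- DEC. -/
def Stmt_Dec : Prop := ∀ (g : ℕ) (A : AbVar g), Nonempty (Dec A)

/-- GAL3. Automorphisms of `ℂ` and complex conjugation permute the components; the components have
algebraic entries. -/
def Stmt_Gal3 : Prop :=
  ∀ (g : ℕ) (A : AbVar g) (p : Matrix (Idx g) (Idx g) ℂ), A.IsComp p →
    (∀ σ : ℂ ≃ₐ[ℚ] ℂ, A.IsComp (p.map σ) ∧ A.comDim (p.map σ) = A.comDim p) ∧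
    A.IsComp (cc p) ∧ A.comDim (cc p) = A.comDim p ∧ ∀ i j, IsAlgebraic ℚ (p i j)

/-- ROS. The Rosati adjoint of a component is its complex conjugate; complex conjugation commutes with the
automorphisms of `ℂ` on the components. -/
def Stmt_Ros : Prop :=
  ∀ (g : ℕ) (A : AbVar g) (p : Matrix (Idx g) (Idx g) ℂ), A.IsComp p →
    pᵀ * A.riem = A.riem * cc p ∧ ∀ σ : ℂ ≃ₐ[ℚ] ℂ, (cc p).map σ = cc (p.map σ)

/-- MIX. Real components are mixed, and do not have multiplicity one. -/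
def Stmt_Mix : Prop :=
  ∀ (g : ℕ) (A : AbVar g) (p : Matrix (Idx g) (Idx g) ℂ), A.IsComp p → cc p = p →
    A.Mixed p ∧ A.comDim p ≠ 1

/-! ## Part T: de Rham-Betti subobjects of `H_1(A)` -/

/-- The image of a subspace in `Lie A`. -/
def lieIm {g : ℕ} (A : AbVar g) (D : Submodule ℂ (Idx g → ℂ)) : Submodule ℂ (Fin g → ℂ) :=
  D.map ((LinearMap.funLeft ℂ ℂ (Sum.inl : Fin g → Idx g)).comp A.per.mulVecLin)

/-- T1A. Any `w + 1` of the functions `f_k` are algebraically dependent on the image `W` of `D` in `Lie A`,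
`w = dim W`. -/
def Stmt_T1a : Prop :=
  ∀ (g : ℕ) (A : AbVar g) (D : Submodule ℂ (Idx g → ℂ)), RatSpan D →
    AlgSpan (D.map A.per.mulVecLin) →
    ∀ F : Fin (Module.finrank ℂ (lieIm A D) + 1) → Fin A.nfun,
      ∃ R : MvPolynomial (Fin (Module.finrank ℂ (lieIm A D) + 1)) ℂ, R ≠ 0 ∧
        ∀ z ∈ lieIm A D, A.θ z ≠ 0 → MvPolynomial.eval (fun i => A.f (F i) z) R = 0

/-- T1B. Periods over lattice points in the image of `D` belong to `D`. -/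
def Stmt_T1b : Prop :=
  ∀ (g : ℕ) (A : AbVar g) (D : Submodule ℂ (Idx g → ℂ)), RatSpan D →
    AlgSpan (D.map A.per.mulVecLin) →
    ∀ n : Idx g → ℤ, pr (A.per *ᵥ (fun i => (n i : ℂ))) ∈ lieIm A D → (fun i => (n i : ℂ)) ∈ D

/-- T1C. The lattice points in the image of `D` span it over `ℝ`. -/
def Stmt_T1c : Prop :=
  ∀ (g : ℕ) (A : AbVar g) (D : Submodule ℂ (Idx g → ℂ)), RatSpan D →
    AlgSpan (D.map A.per.mulVecLin) →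
    ∀ z ∈ lieIm A D, z ∈ Submodule.span ℝ
      {z : Fin g → ℂ | z ∈ lieIm A D ∧ ∃ n : Idx g → ℤ, z = pr (A.per *ᵥ (fun i => (n i : ℂ)))}

/-- T1P. A de Rham-Betti subobject of `H_1(A)` is a sub-Hodge structure. -/
def Stmt_T1p : Prop :=
  ∀ (g : ℕ) (A : AbVar g) (D : Submodule ℂ (Idx g → ℂ)), RatSpan D →
    AlgSpan (D.map A.per.mulVecLin) →
    ∀ v ∈ D, ∃ a ∈ D, ∃ b ∈ D, v = a + b ∧ pr (A.per *ᵥ a) = 0 ∧ pr (A.per *ᵥ (cv b)) = 0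

/-- T1E. A de Rham-Betti subobject of `H_1(A)` is the image of a symmetric idempotent endomorphism. -/
def Stmt_T1e : Prop :=
  ∀ (g : ℕ) (A : AbVar g) (D : Submodule ℂ (Idx g → ℂ)), RatSpan D →
    AlgSpan (D.map A.per.mulVecLin) →
    ∃ α, A.IsEnd α ∧ α * α = α ∧ A.IsRosati α α ∧ ∀ v, v ∈ D ↔ AbVar.toC α *ᵥ v = v

/-! ## Part G: the group `Γ` -/

/-- FINX. Finite orbits in the spaces of homomorphisms between the multiplicity spaces. -/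
def Stmt_FinX : Prop :=
  ∀ (g : ℕ) (A : AbVar g) (d : Dec A),
    (∀ i j, i ≠ j → ∀ P : Matrix (Fin (d.m i)) (Fin (d.m j)) ℂ,
      {Y | ∃ q ∈ Gam A, Y = d.X q.1.val i * P * d.X (q.1⁻¹).val j}.Finite → P = 0) ∧
    ∀ i, ∀ P : Matrix (Fin (d.m i)) (Fin (d.m i)) ℂ,
      {Y | ∃ q ∈ Gam A, Y = d.X q.1.val i * P * d.X (q.1⁻¹).val i}.Finite → ∃ c : ℂ, P = c • 1

/-- IRR3. The components are irreducible under `Γ` and the endomorphisms. -/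
def Stmt_Irr3 : Prop :=
  ∀ (g : ℕ) (A : AbVar g) (p : Matrix (Idx g) (Idx g) ℂ), A.IsComp p →
    ∀ U : Submodule ℂ (Idx g → ℂ), (∀ v ∈ U, p *ᵥ v = v) →
      (∀ α, A.IsEnd α → ∀ v ∈ U, AbVar.toC α *ᵥ v ∈ U) →
      (∀ q ∈ Gam A, ∀ v ∈ U, q.1.val *ᵥ v ∈ U) →
      U = ⊥ ∨ ∀ v, p *ᵥ v = v → v ∈ U

/-- IRRX. The multiplicity spaces are irreducible under `Γ`. -/
def Stmt_IrrX : Prop :=
  ∀ (g : ℕ) (A : AbVar g) (d : Dec A) (i : Fin d.k) (L : Submodule ℂ (Fin (d.m i) → ℂ)),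
    (∀ q ∈ Gam A, ∀ v ∈ L, d.X q.1.val i *ᵥ v ∈ L) → L = ⊥ ∨ L = ⊤

/-- TORS3. -/
def Stmt_Tors3 : Prop :=
  ∀ (g : ℕ) (A : AbVar g) (d : Dec A) (i : Fin d.k), d.m i = 2 →
    ∃ q ∈ Gam A, ∀ n : ℕ, 1 ≤ n → ¬ ∃ c : ℂ, d.X q.1.val i ^ n = c • 1

/-- FORM. The Riemann form on the multiplicity spaces. -/
def Stmt_Form : Prop :=
  ∀ (g : ℕ) (A : AbVar g) (d : Dec A),
    (∀ i, d.m i = 2 → cc (d.p i) = d.p i → ∀ (x : Matrix (Idx g) (Idx g) ℂ) (ν : ℂ), A.Comm x →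
      xᵀ * A.riem * x = ν • A.riem → (d.X x i).det = ν) ∧
    ∀ i j, d.p j = cc (d.p i) →
      ∃ (Ω : Matrix (Fin (d.m i)) (Fin (d.m j)) ℂ) (Ω' : Matrix (Fin (d.m j)) (Fin (d.m i)) ℂ),
        Ω * Ω' = 1 ∧ Ω' * Ω = 1 ∧
        ∀ (x : Matrix (Idx g) (Idx g) ℂ) (ν : ℂ), A.Comm x → xᵀ * A.riem * x = ν • A.riem →
          (d.X x i)ᵀ * Ω * d.X x j = ν • Ω

/-- SIG. Components of rank two which are isomorphic up to a character have the same Hodge type. -/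
def Stmt_Sig : Prop :=
  ∀ (g : ℕ) (A : AbVar g) (p q : Matrix (Idx g) (Idx g) ℂ), A.IsComp p → A.IsComp q →
    A.comDim p = 4 → A.comDim q = 4 →
    ∀ X : Matrix (Idx g) (Idx g) ℂ, X ≠ 0 → p * X = X → X * q = X →
      (∀ γ ∈ Gam A, ∃ a : ℂ, γ.1.val * X = a • (X * γ.1.val)) →
      (A.Mixed p ↔ A.Mixed q)

/-- LNK. Different components of rank two are not isomorphic up to a character. -/
def Stmt_Lnk : Prop :=
  ∀ (g : ℕ) (A : AbVar g), A.Rank2 → ∀ (d : Dec A) (i j : Fin d.k), d.m i = 2 → d.m j = 2 → i ≠ j →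
    d.p j ≠ cc (d.p i) →
    ∀ P : Matrix (Fin (d.m i)) (Fin (d.m j)) ℂ, P ≠ 0 →
      ∃ q ∈ Gam A, ∀ a : ℂ, d.X q.1.val i * P * d.X (q.1⁻¹).val j ≠ a • P

/-- H53. The relations between the determinants on the multiplicity spaces of the nonreal components. -/
def Stmt_H53 : Prop :=
  ∀ (g : ℕ) (A : AbVar g), A.Rank2 → ∀ (d : Dec A) (n : Fin d.k → ℤ) (M : ℤ),
    (∀ i, cc (d.p i) = d.p i → n i = 0) →
    (∀ q ∈ Gam A, ∃ N : ℕ, 1 ≤ N ∧ ((∏ i, (d.X q.1.val i).det ^ n i) * q.2.val ^ M) ^ N = 1) →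
    (∀ i j, d.p j = cc (d.p i) → n j = n i) ∧ 2 * M + ∑ i, (d.m i : ℤ) * n i = 0

/-! ## Part B: block groups -/

/-- TRANS. Tensor spaces of subspaces of tensor spaces. -/
def Stmt_Trans : Prop :=
  ∀ (ι₀ ι : Type) [Fintype ι₀] [DecidableEq ι₀] [Fintype ι] [DecidableEq ι] (s t : TData)
    (J : (ι → ℂ) →ₗ[ℂ] (TIdx s ι₀ → ℂ)), Function.Injective J →
    ∀ D : Submodule ℂ (TIdx t ι → ℂ), ∃ (t' : TData) (D' : Submodule ℂ (TIdx t' ι₀ → ℂ)),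
      ∀ (x₀ : Matrix ι₀ ι₀ ℂ) (x : Matrix ι ι ℂ) (ν : ℂ), ν ≠ 0 →
        (∀ v, TAct s x₀ ν (J v) = J (x *ᵥ v)) →
        (D'.map (TAct t' x₀ ν) ≤ D' ↔ D.map (TAct t x ν) ≤ D)

/-- DIAG. Diagonal Lie algebras and diagonal groups. -/
def Stmt_Diag : Prop :=
  ∀ (ι : Type) [Fintype ι] [DecidableEq ι] (t : TData) (D : Submodule ℂ (TIdx t ι → ℂ))
    (Z : Set ((ι → ℂ) × ℂ)), (∀ z ∈ Z, D.map (DAct t (Matrix.diagonal z.1) z.2) ≤ D) →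
    ∀ (ζ : ι → ℂˣ) (ν : ℂˣ),
      (∀ (w : ι → ℤ) (m : ℤ), (∀ z ∈ Z, ∑ i, (w i : ℂ) * z.1 i + m * z.2 = 0) →
        (∏ i, ζ i ^ w i) * ν ^ m = 1) →
      D.map (TAct t (Matrix.diagonal fun i => (ζ i).val) ν.val) ≤ D

/-- AD33. -/
def Stmt_Ad33 : Prop :=
  ∀ (G : Type) [Group G] (ρ₁ ρ₂ : G →* GL (Fin 2) ℂ), Big ρ₁ → Big ρ₂ →
    (∀ P : Matrix (Fin 2) (Fin 2) ℂ, P ≠ 0 →
      ∃ γ, ∀ a : ℂ, (ρ₂ γ).val * P * ((ρ₁ γ)⁻¹).val ≠ a • P) →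
    ∀ φ : Matrix (Fin 2) (Fin 2) ℂ →ₗ[ℂ] Matrix (Fin 2) (Fin 2) ℂ,
      (∀ X, X.trace = 0 → (φ X).trace = 0) →
      (∀ γ X, X.trace = 0 →
        φ ((ρ₁ γ).val * X * ((ρ₁ γ)⁻¹).val) =
          (ρ₂ γ).val * φ X * ((ρ₂ γ)⁻¹).val) →
      ∀ X, X.trace = 0 → φ X = 0

/-- The hypotheses on a block group. -/
structure BHyp3 {R C : Type} (Γ : Subgroup (BGrp R C)) : Prop where
  h1 : ∀ r, ∀ v : Fin 2 → ℂ, v ≠ 0 → ∃ γ ∈ Γ, ∀ a : ℂ,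
    (γ.1 r).val *ᵥ v ≠ a • v
  h2 : ∀ r, ∀ X : Matrix (Fin 2) (Fin 2) ℂ, X.trace = 0 → X ≠ 0 →
    ¬ {Y | ∃ γ ∈ Γ, Y = (γ.1 r).val * X *
      ((γ.1 r)⁻¹).val}.Finite
  h3 : ∀ r r', r ≠ r' → ∀ P : Matrix (Fin 2) (Fin 2) ℂ, P ≠ 0 →
    ∃ γ ∈ Γ, ∀ a : ℂ, (γ.1 r').val * P * ((γ.1 r)⁻¹).val ≠ a • P
  h4 : ∀ r, ∃ γ ∈ Γ, ∀ n : ℕ, 1 ≤ n →
    ¬ ∃ a : ℂ, (γ.1 r).val ^ n = a • (1 : Matrix _ _ ℂ)

/-- AD13. Stable Lie subalgebras contain the full block. -/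
def Stmt_Ad13 : Prop :=
  ∀ (R C : Type) [Fintype R] [DecidableEq R] [Fintype C] [DecidableEq C]
    (Γ : Subgroup (BGrp R C)), BHyp3 Γ → ∀ h : Submodule ℂ (BLie R C),
    (∀ X ∈ h, ∀ Y ∈ h, ((fun r => X.1 r * Y.1 r - Y.1 r * X.1 r, 0, 0) : BLie R C) ∈ h) →
    (∀ γ ∈ Γ, ∀ X ∈ h, ((fun r => (γ.1 r).val * X.1 r *
      ((γ.1 r)⁻¹).val, X.2) : BLie R C) ∈ h) →
    ∀ r, (∃ X ∈ h, ∀ a : ℂ, X.1 r ≠ a • (1 : Matrix (Fin 2) (Fin 2) ℂ)) →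
      ∀ Y : Matrix (Fin 2) (Fin 2) ℂ, Y.trace = 0 → ((Pi.single r Y, 0, 0) : BLie R C) ∈ h

/-- GT3. The block theorem. -/
def Stmt_Gt3 : Prop :=
  ∀ (R C : Type) [Fintype R] [DecidableEq R] [Fintype C] [DecidableEq C]
    (Γ : Subgroup (BGrp R C)), BHyp3 Γ →
    ∀ (t : TData) (D : Submodule ℂ (TIdx t (BIdx R C) → ℂ)),
      (∀ γ ∈ Γ, D.map (TAct t (bm γ) γ.2.2.val) ≤ D) →
      ∀ γ : BGrp R C,
        (∀ (a : R → ℤ) (n : C → ℤ) (m : ℤ),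
          (∀ δ ∈ Γ, ∃ N : ℕ, 1 ≤ N ∧
            ((∏ r, (δ.1 r).val.det ^ a r) * (∏ i, (δ.2.1 i).val ^ n i) * δ.2.2.val ^ m) ^ N = 1) →
          (∏ r, (γ.1 r).val.det ^ a r) * (∏ i, (γ.2.1 i).val ^ n i) * γ.2.2.val ^ m = 1) →
        D.map (TAct t (bm γ) γ.2.2.val) ≤ D

end

end Pool.Agent.DRB
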