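import Pool.Agent.DRB.Defs

/-!
# De Rham-Betti conjecture: common tools (functoriality of the tensor spaces, the Lie algebra action,
the group `Γ`)
-/

open scoped BigOperators
open Matrix

namespace Pool.Agent.DRB

noncomputable section

theorem TAct_apply (t : TData) {ι ι' : Type} [Fintype ι] (x : Matrix ι' ι ℂ) (ν : ℂ)
    (u : TIdx t ι → ℂ) (p : TIdx t ι') :
    TAct t x ν u p = ν ^ (t.k p.1) * ∑ J : Fin (t.a p.1) → ι, (∏ s, x (p.2 s) (J s)) * u ⟨p.1, J⟩ := rfl

/-- Functoriality. -/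
theorem TAct_comp (t : TData) {ι ι' ι'' : Type} [Fintype ι] [Fintype ι']
    (x : Matrix ι'' ι' ℂ) (y : Matrix ι' ι ℂ) (ν μ : ℂ) :
    TAct t (x * y) (ν * μ) = (TAct t x ν).comp (TAct t y μ) := by
  classical
  refine LinearMap.ext fun u => ?_
  funext p
  simp only [LinearMap.comp_apply, TAct_apply, mul_zpow]
  rw [mul_assoc]
  congr 1
  rw [Finset.mul_sum]
  have h1 : ∀ J : Fin (t.a p.1) → ι, (∏ s, (x * y) (p.2 s) (J s)) =
      ∑ K : Fin (t.a p.1) → ι', ∏ s, x (p.2 s) (K s) * y (K s) (J s) := by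
    intro J
    simp only [Matrix.mul_apply]
    rw [Finset.prod_univ_sum, Fintype.piFinset_univ]
  simp only [h1, Finset.sum_mul, Finset.mul_sum]
  rw [Finset.sum_comm]
  refine Finset.sum_congr rfl fun K _ => Finset.sum_congr rfl fun J _ => ?_
  rw [Finset.prod_mul_distrib]
  ring

theorem TAct_one (t : TData) {ι : Type} [Fintype ι] [DecidableEq ι] :
    TAct t (1 : Matrix ι ι ℂ) 1 = LinearMap.id := by
  classical
  refine LinearMap.ext fun u => ?_
  funext p
  rw [TAct_apply, _root_.one_zpow, one_mul, Finset.sum_eq_single p.2]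
  · simp
  · intro J _ hJ
    have : ∃ s, p.2 s ≠ J s := by
      by_contra hcon
      push Not at hcon
      exact hJ (funext fun s => (hcon s).symm)
    obtain ⟨s, hs⟩ := this
    rw [Finset.prod_eq_zero (Finset.mem_univ s) (by simp [hs]), zero_mul]
  · simp

/-- The action of the Lie algebra: `X` acts on `V` and `μ` on the Tate object. -/
def DAct (t : TData) {ι : Type} [Fintype ι] [DecidableEq ι] (X : Matrix ι ι ℂ) (μ : ℂ) :
    (TIdx t ι → ℂ) →ₗ[ℂ] (TIdx t ι → ℂ) where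
  toFun u p := (t.k p.1 : ℂ) * μ * u p +
    ∑ s : Fin (t.a p.1), ∑ j : ι, X (p.2 s) j * u ⟨p.1, Function.update p.2 s j⟩
  map_add' u v := by
    funext p
    simp only [Pi.add_apply, mul_add, Finset.sum_add_distrib]
    ring
  map_smul' c u := by
    funext p
    simp only [Pi.smul_apply, smul_eq_mul, RingHom.id_apply, mul_add, Finset.mul_sum]
    congr 1
    · ring
    · refine Finset.sum_congr rfl fun s _ => Finset.sum_congr rfl fun j _ => ?_
      ring

/-- The automorphisms of `ℂ` which fix all algebraic numbers. -/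
def GalA : Set (ℂ ≃ₐ[ℚ] ℂ) := {τ | ∀ z : ℂ, IsAlgebraic ℚ z → τ z = z}

/-- The period `2 π i` of the Tate object. -/
def tpi : ℂ := 2 * Real.pi * Complex.I

theorem tpi_ne_zero : tpi ≠ 0 := by
  unfold tpi
  simp [Real.pi_ne_zero]

/-- The group generated by all conjugates of the cocycle `τ ↦ per⁻¹ τ(per)`, together with its character on
the Tate object. -/
def Gam {g : ℕ} (A : AbVar g) : Subgroup (GL (Idx g) ℂ × ℂˣ) :=
  Subgroup.closure {p | ∃ σ : ℂ ≃ₐ[ℚ] ℂ, ∃ τ ∈ GalA,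
    (p.1 : Matrix (Idx g) (Idx g) ℂ) = (A.per⁻¹ * A.per.map τ).map σ ∧
    (p.2 : ℂ) = σ (τ tpi / tpi)}

/-- The standard symplectic matrix. -/
def Jm (g : ℕ) : Matrix (Idx g) (Idx g) ℂ := Matrix.fromBlocks 0 1 (-1) 0

/-- Iterated partial derivatives. -/
def pdl {d : ℕ} (ls : List (Fin d)) (F : (Fin d → ℂ) → ℂ) : (Fin d → ℂ) → ℂ :=
  ls.foldr (fun l G => pd l G) F

/-- The standard list of indices of a multi-index. -/
def cl {d : ℕ} (κ : Fin d → ℕ) : List (Fin d) :=
  (List.finRange d).flatMap fun j => List.replicate (κ j) j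

/-- The `ℂ^g` part of a vector of `ℂ^g × ℂ^g`. -/
def pr {g : ℕ} (x : Idx g → ℂ) : Fin g → ℂ := fun k => x (Sum.inl k)

/-- The additive coordinate functions of the universal vector extension. -/
def AbVar.H {g : ℕ} (A : AbVar g) (j : Fin g) (x : Idx g → ℂ) : ℂ :=
  A.Z j (pr x) - A.Z j 0 - x (Sum.inr j)

/-- The functions of the universal vector extension: `f_k`, `H_j`. -/
def AbVar.fH {g : ℕ} (A : AbVar g) (e : Fin A.nfun ⊕ Fin g) (x : Idx g → ℂ) : ℂ :=
  Sum.elim (fun k => A.f k (pr x)) (fun j => A.H j x) e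

instance AbVar.finite_chr {g : ℕ} (A : AbVar g) : Finite A.Chr := by
  have h := linearIndependent_toLinearMap ℚ A.EndQ ℂ
  exact h.finite

/-! ### Block groups -/

/-- Index set of `⊕_{r ∈ R} ℂ^2 ⊕ ⊕_{i ∈ C} ℂ`. -/
abbrev BIdx (R C : Type) := (Fin 2 × R) ⊕ C

/-- Block diagonal matrices. -/
def Bmat {R C : Type} [DecidableEq R] [DecidableEq C] (x : R → Matrix (Fin 2) (Fin 2) ℂ) (y : C → ℂ) :
    Matrix (BIdx R C) (BIdx R C) ℂ :=
  Matrix.fromBlocks (Matrix.blockDiagonal x) 0 0 (Matrix.diagonal y)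

/-- The ambient group of the block situation. -/
abbrev BGrp (R C : Type) := (R → GL (Fin 2) ℂ) × (C → ℂˣ) × ℂˣ

/-- The matrix of an element of the ambient group. -/
def bm {R C : Type} [DecidableEq R] [DecidableEq C] (γ : BGrp R C) : Matrix (BIdx R C) (BIdx R C) ℂ :=
  Bmat (fun r => ((γ.1 r : GL (Fin 2) ℂ) : Matrix (Fin 2) (Fin 2) ℂ)) (fun i => ((γ.2.1 i : ℂˣ) : ℂ))

/-- The similitude conditions. -/
def BSim {R C : Type} (c : C → C) (γ : BGrp R C) : Prop :=
  (∀ r, ((γ.1 r : GL (Fin 2) ℂ) : Matrix (Fin 2) (Fin 2) ℂ).det = γ.2.2) ∧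
  (∀ i, γ.2.1 i * γ.2.1 (c i) = γ.2.2)

/-- The Lie algebra elements of the block situation. -/
abbrev BLie (R C : Type) := (R → Matrix (Fin 2) (Fin 2) ℂ) × (C → ℂ) × ℂ

end

end Pool.Agent.DRB
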