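import Pool.Agent.DRB.Stmts

/-!
# LEG: the Legendre relation
-/

open scoped BigOperators
open Matrix

namespace Pool.Agent.DRB

namespace LegX

variable {g : ℕ}

theorem riem_int (A : AbVar g) (i j : Idx g) : ∃ n : ℤ, A.riem i j = n := by
  have h1 := A.θ_aut j (A.lat i)
  have h2 := A.θ_aut i (A.lat j)
  have h3 := A.θ_aut i 0
  have h4 := A.θ_aut j 0
  rw [zero_add] at h3 h4
  rw [h3] at h1
  rw [h4, add_comm] at h2
  rw [h1] at h2
  have h0 : (∑ k, A.lin i k * (0 : Fin g → ℂ) k) = 0 :=
    Finset.sum_eq_zero fun k _ => by simp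
  have h0' : (∑ k, A.lin j k * (0 : Fin g → ℂ) k) = 0 :=
    Finset.sum_eq_zero fun k _ => by simp
  rw [h0, h0', zero_add, zero_add, ← mul_assoc, ← mul_assoc, ← Complex.exp_add,
    ← Complex.exp_add] at h2
  have h5 := mul_right_cancel₀ A.θ_zero h2
  rw [Complex.exp_eq_exp_iff_exists_int] at h5
  obtain ⟨n, hn⟩ := h5
  refine ⟨n, ?_⟩
  have h6 : (∑ k, (A.lat i k * A.lin j k - A.lat j k * A.lin i k)) =
      n * (2 * Real.pi * Complex.I) := by
    have e1 : (∑ k, (A.lat i k * A.lin j k - A.lat j k * A.lin i k)) =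
        (∑ k, A.lin j k * A.lat i k) - ∑ k, A.lin i k * A.lat j k := by
      rw [← Finset.sum_sub_distrib]
      refine Finset.sum_congr rfl fun k _ => ?_
      ring
    rw [e1]
    linear_combination hn
  have h7 : A.riem i j = (∑ k, (A.lat i k * A.lin j k - A.lat j k * A.lin i k)) /
      (2 * Real.pi * Complex.I) := rfl
  rw [h7, h6]
  have h8 : (2 * Real.pi * Complex.I : ℂ) ≠ 0 := tpi_ne_zero
  exact mul_div_cancel_right₀ _ h8

theorem rel (A : AbVar g) : A.perᵀ * Jm g * A.per = tpi • A.riem := by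
  ext i j
  rw [Matrix.smul_apply, smul_eq_mul]
  have h7 : A.riem i j = (∑ k, (A.lat i k * A.lin j k - A.lat j k * A.lin i k)) / tpi := rfl
  rw [h7, mul_div_cancel₀ _ tpi_ne_zero]
  rw [Matrix.mul_apply, Fintype.sum_sum_type]
  have h1 : ∀ k, (A.perᵀ * Jm g) i (Sum.inl k) = - A.lin i k := by
    intro k
    rw [Matrix.mul_apply, Fintype.sum_sum_type]
    simp only [Jm, Matrix.fromBlocks_apply₁₁, Matrix.fromBlocks_apply₂₁, Matrix.zero_apply,
      mul_zero, Finset.sum_const_zero, zero_add, Matrix.neg_apply, Matrix.transpose_apply]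
    rw [Finset.sum_eq_single k]
    · rw [Matrix.one_apply_eq]
      simp [AbVar.per]
    · intro m _ hm
      rw [Matrix.one_apply_ne hm]; simp
    · intro h; exact absurd (Finset.mem_univ _) h
  have h2 : ∀ k, (A.perᵀ * Jm g) i (Sum.inr k) = A.lat i k := by
    intro k
    rw [Matrix.mul_apply, Fintype.sum_sum_type]
    simp only [Jm, Matrix.fromBlocks_apply₁₂, Matrix.fromBlocks_apply₂₂, Matrix.zero_apply,
      mul_zero, Finset.sum_const_zero, add_zero, Matrix.transpose_apply]
    rw [Finset.sum_eq_single k]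
    · rw [Matrix.one_apply_eq]
      simp [AbVar.per]
    · intro m _ hm
      rw [Matrix.one_apply_ne hm]; simp
    · intro h; exact absurd (Finset.mem_univ _) h
  simp only [h1, h2]
  rw [← Finset.sum_add_distrib]
  refine Finset.sum_congr rfl fun k _ => ?_
  simp [AbVar.per]
  ring

theorem jm_unit : IsUnit (Jm g).det := by
  have h : Jm g * (-Jm g) = 1 := by
    unfold Jm
    rw [mul_neg, Matrix.fromBlocks_multiply]
    ext i j
    rcases i with i | i <;> rcases j with j | j <;> simp [Matrix.one_apply]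
  have h2 := congrArg Matrix.det h
  rw [Matrix.det_mul, Matrix.det_one] at h2
  exact IsUnit.of_mul_eq_one _ h2

end LegX

open LegX in
theorem leg_proof : Stmt_Leg := by
  intro g A
  refine ⟨riem_int A, rel A, ?_, ?_⟩
  · have h1 := congrArg Matrix.det (rel A)
    rw [Matrix.det_mul, Matrix.det_mul, Matrix.det_transpose, Matrix.det_smul] at h1
    have h2 : IsUnit A.per.det := A.nondeg
    have h3 : IsUnit (tpi ^ Fintype.card (Idx g) * A.riem.det) := by
      rw [← h1]
      exact (h2.mul jm_unit).mul h2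
    exact isUnit_of_mul_isUnit_right h3
  · ext i j
    rw [Matrix.transpose_apply, Matrix.neg_apply]
    have h7 : ∀ i j, A.riem i j = (∑ k, (A.lat i k * A.lin j k - A.lat j k * A.lin i k)) / tpi :=
      fun _ _ => rfl
    rw [h7, h7, ← neg_div, ← Finset.sum_neg_distrib]
    congr 1
    refine Finset.sum_congr rfl fun k _ => ?_
    ring

end Pool.Agent.DRB
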