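import Pool.Agent.DRB.Descq

/-!
# DRB, module DESCA: Galois descent to the algebraic numbers
-/

open scoped BigOperators Topology

namespace Pool.Agent.DRB

noncomputable section

theorem desca_proof (h : Stmt_Aut2) : Stmt_DescA := by
  intro κ _ D hD
  refine DESCQX.descent GalA (fun z => IsAlgebraic ℚ z) ?_ D hD
  intro z hz
  refine h z ?_
  refine (Set.countable_singleton z).mono ?_
  rintro w ⟨τ, hτ, rfl⟩
  exact hz τ hτ

end

end Pool.Agent.DRB
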