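import Pool.Agent.DRB.Gb3

/-!
# DRB, module GB2: de Rham-Betti subobjects of the tensor spaces are stable under `Γ`
-/

open scoped BigOperators Topology
open Matrix

namespace Pool.Agent.DRB

noncomputable section

namespace GB2X

variable {g : ℕ}

/-- A subspace spanned by algebraic vectors is stable under the automorphisms which fix all algebraic
numbers. -/
theorem algSpan_stable {κ : Type} (D : Submodule ℂ (κ → ℂ)) (hD : AlgSpan D) {τ : ℂ ≃ₐ[ℚ] ℂ}
    (hτ : τ ∈ GalA) (v : κ → ℂ) (hv : v ∈ D) : (fun k => τ (v k)) ∈ D := by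
  have h1 := hD hv
  refine Submodule.span_induction (p := fun v _ => (fun k => τ (v k)) ∈ D) ?_ ?_ ?_ ?_ h1
  · rintro w ⟨hw, hq⟩
    have : (fun k => τ (w k)) = w := by
      funext k
      exact hτ _ (hq k)
    rw [this]
    exact hw
  · simp only [Pi.zero_apply, map_zero]
    exact D.zero_mem
  · intro x y _ _ hx hy
    simp only [Pi.add_apply, map_add]
    exact D.add_mem hx hy
  · intro a x _ hx
    simp only [Pi.smul_apply, smul_eq_mul, map_mul]
    exact D.smul_mem (τ a) hx

/-- Semilinearity of the tensor action. -/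
theorem map_TAct (t : TData) (σ : ℂ ≃ₐ[ℚ] ℂ) (x : Matrix (Idx g) (Idx g) ℂ) (ν : ℂ)
    (u : TIdx t (Idx g) → ℂ) :
    (fun k => σ (TAct t x ν u k)) = TAct t (x.map σ) (σ ν) (fun k => σ (u k)) := by
  funext p
  simp only [TAct_apply, map_mul, map_zpow₀, map_sum, map_prod, Matrix.map_apply]

theorem symm_mem {τ : ℂ ≃ₐ[ℚ] ℂ} (hτ : τ ∈ GalA) : τ.symm ∈ GalA := by
  intro z hz
  rw [AlgEquiv.symm_apply_eq]
  exact (hτ z hz).symm

/-- Stability under the cocycle. -/
theorem coc_stable (A : AbVar g) (t : TData) (D : Submodule ℂ (TIdx t (Idx g) → ℂ))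
    (hD : IsDRB A t D) {τ : ℂ ≃ₐ[ℚ] ℂ} (hτ : τ ∈ GalA) (w : TIdx t (Idx g) → ℂ) (hw : w ∈ D) :
    TAct t (A.per⁻¹ * A.per.map τ) (τ tpi / tpi) w ∈ D := by
  have h1 : (fun k => τ.symm (w k)) ∈ D := GB3X.ratSpan_stable D hD.1 τ.symm w hw
  have h2 : TAct t A.per tpi (fun k => τ.symm (w k)) ∈ D.map (TAct t A.per tpi) := ⟨_, h1, rfl⟩
  have h3 : AlgSpan (D.map (TAct t A.per tpi)) := hD.2
  have h4 := algSpan_stable _ h3 hτ _ h2
  rw [map_TAct] at h4
  have h5 : (fun k => τ ((fun k => τ.symm (w k)) k)) = w := by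
    funext k
    simp
  rw [h5] at h4
  obtain ⟨u, hu, hu2⟩ := h4
  have h6 : τ tpi / tpi = tpi⁻¹ * τ tpi := by rw [div_eq_mul_inv, mul_comm]
  rw [h6, TAct_comp, LinearMap.comp_apply, ← hu2, ← LinearMap.comp_apply, ← TAct_comp,
    GB3X.per_inv_mul, inv_mul_cancel₀ tpi_ne_zero, TAct_one, LinearMap.id_apply]
  exact hu

end GB2X

open GB2X in
theorem gb2_proof : Stmt_Gb2 := by
  intro g A t D hD p hp
  have key : D.map (TAct t p.1.val p.2.val) = D := by
    unfold Gam at hp
    refine Subgroup.closure_induction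
      (p := fun p _ => D.map (TAct t p.1.val p.2.val) = D) ?_ ?_ ?_ ?_ hp
    · rintro x ⟨σ, τ, hτ, h1, h2⟩
      have hle : D.map (TAct t x.1.val x.2.val) ≤ D := by
        rintro _ ⟨v, hv, rfl⟩
        rw [h1, h2]
        have h3 : (fun k => σ.symm (v k)) ∈ D := GB3X.ratSpan_stable D hD.1 σ.symm v hv
        have h4 := coc_stable A t D hD hτ _ h3
        have h5 := GB3X.ratSpan_stable D hD.1 σ _ h4
        rw [map_TAct] at h5
        have h6 : (fun k => σ ((fun k => σ.symm (v k)) k)) = v := by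
          funext k
          simp
        rw [h6] at h5
        exact h5
      have hinj : Function.Injective (TAct t x.1.val x.2.val) := by
        intro v w hvw
        have h3 : TAct t (x.1⁻¹).val (x.2⁻¹ : ℂˣ).val (TAct t x.1.val x.2.val v) =
            TAct t (x.1⁻¹).val (x.2⁻¹ : ℂˣ).val (TAct t x.1.val x.2.val w) := by rw [hvw]
        rw [← LinearMap.comp_apply, ← LinearMap.comp_apply, ← TAct_comp, ← Units.val_mul,
          ← Units.val_mul, inv_mul_cancel, inv_mul_cancel, Units.val_one, Units.val_one,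
          TAct_one] at h3
        exact h3
      refine Submodule.eq_of_le_of_finrank_eq hle ?_
      exact (LinearEquiv.finrank_eq (Submodule.equivMapOfInjective _ hinj D)).symm
    · simp only [Prod.fst_one, Prod.snd_one, Units.val_one]
      rw [TAct_one, Submodule.map_id]
    · intro x y _ _ hx hy
      simp only [Prod.fst_mul, Prod.snd_mul, Units.val_mul]
      rw [TAct_comp, Submodule.map_comp, hy, hx]
    · intro x _ hx
      simp only [Prod.fst_inv, Prod.snd_inv]
      conv_lhs => rw [← hx]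
      rw [← Submodule.map_comp, ← TAct_comp, ← Units.val_mul,
          ← Units.val_mul, inv_mul_cancel, inv_mul_cancel, Units.val_one, Units.val_one,
          TAct_one, Submodule.map_id]
  exact key.le

end

end Pool.Agent.DRB
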