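import Pool.Agent.DRB.Stmts

/-!
# De Rham-Betti conjecture, module AD1: stable Lie subalgebras contain full blocks
-/

open scoped BigOperators Topology
open Matrix

namespace Pool.Agent.DRB

noncomputable section

namespace AD1X

abbrev M2 := Matrix (Fin 2) (Fin 2) ℂ

/-- the `r`-th representation -/
def rho {R C : Type} (Γ : Subgroup (BGrp R C)) (r : R) : Γ →* GL (Fin 2) ℂ where
  toFun γ := (γ : BGrp R C).1 r
  map_one' := rfl
  map_mul' _ _ := rfl

theorem rho_apply {R C : Type} (Γ : Subgroup (BGrp R C)) (r : R) (γ : Γ) :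
    rho Γ r γ = (γ : BGrp R C).1 r := rfl

theorem big {R C : Type} [Fintype R] [Fintype C] {c : C → C} {Γ : Subgroup (BGrp R C)}
    (H : BHyp c Γ) (r : R) : Big (rho Γ r) := by
  refine ⟨fun v hv => ?_, fun X hX hX0 => ?_⟩
  · obtain ⟨γ, hγ, h⟩ := H.h1 r v hv
    exact ⟨⟨γ, hγ⟩, h⟩
  · have h := H.h2 r X hX hX0
    intro hfin
    refine h (hfin.subset ?_)
    rintro Y ⟨γ, hγ, rfl⟩
    exact ⟨⟨γ, hγ⟩, rfl⟩

theorem conj_trace (g : GL (Fin 2) ℂ) (X : M2) : (g.val * X * (g⁻¹).val).trace = X.trace :=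
  Matrix.trace_units_conj g X

theorem factor {V W U : Type*} [AddCommGroup V] [Module ℂ V] [AddCommGroup W] [Module ℂ W]
    [AddCommGroup U] [Module ℂ U] (f : W →ₗ[ℂ] V) (g : W →ₗ[ℂ] U)
    (h : ∀ w, f w = 0 → g w = 0) : ∃ φ : V →ₗ[ℂ] U, ∀ w, φ (f w) = g w := by
  obtain ⟨s, hs⟩ := f.rangeRestrict.exists_rightInverse_of_surjective (LinearMap.range_rangeRestrict f)
  obtain ⟨φ, hφ⟩ := (g.comp s).exists_extend
  refine ⟨φ, fun w => ?_⟩
  have h1 : φ (f w) = g (s (f.rangeRestrict w)) := by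
    have := congrArg (fun L => L (f.rangeRestrict w)) hφ
    simpa using this
  rw [h1]
  have h2 : f (s (f.rangeRestrict w) - w) = 0 := by
    have := congrArg (fun L => ((L (f.rangeRestrict w) : LinearMap.range f) : V)) hs
    simp only [LinearMap.comp_apply, LinearMap.id_apply] at this
    rw [map_sub, sub_eq_zero]
    exact this
  have h3 := h _ h2
  rw [map_sub, sub_eq_zero] at h3
  exact h3

section

variable {R C : Type}
  {Γ : Subgroup (BGrp R C)} (h : Submodule ℂ (BLie R C))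

/-- traceless part of `h` -/
def jj : Submodule ℂ (BLie R C) where
  carrier := {Z | Z ∈ h ∧ Z.2 = 0 ∧ ∀ s, (Z.1 s).trace = 0}
  add_mem' := by
    rintro a b ⟨h1, h2, h3⟩ ⟨h1', h2', h3'⟩
    refine ⟨h.add_mem h1 h1', ?_, fun s => ?_⟩
    · rw [Prod.snd_add, h2, h2', add_zero]
    · rw [Prod.fst_add, Pi.add_apply, Matrix.trace_add, h3, h3', add_zero]
  zero_mem' := ⟨h.zero_mem, rfl, fun s => by simp⟩
  smul_mem' := by
    rintro a b ⟨h1, h2, h3⟩
    refine ⟨h.smul_mem a h1, ?_, fun s => ?_⟩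
    · rw [Prod.smul_snd, h2, smul_zero]
    · rw [Prod.smul_fst, Pi.smul_apply, Matrix.trace_smul, h3, smul_zero]

theorem mem_jj {Z : BLie R C} : Z ∈ jj h ↔ Z ∈ h ∧ Z.2 = 0 ∧ ∀ s, (Z.1 s).trace = 0 := Iff.rfl

/-- elements of `jj` supported on `S` -/
def jS (S : Finset R) : Submodule ℂ (BLie R C) where
  carrier := {Z | Z ∈ jj h ∧ ∀ s, s ∉ S → Z.1 s = 0}
  add_mem' := by
    rintro a b ⟨h1, h2⟩ ⟨h1', h2'⟩
    refine ⟨(jj h).add_mem h1 h1', fun s hs => ?_⟩
    rw [Prod.fst_add, Pi.add_apply, h2 s hs, h2' s hs, add_zero]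
  zero_mem' := ⟨(jj h).zero_mem, fun s _ => rfl⟩
  smul_mem' := by
    rintro a b ⟨h1, h2⟩
    refine ⟨(jj h).smul_mem a h1, fun s hs => ?_⟩
    rw [Prod.smul_fst, Pi.smul_apply, h2 s hs, smul_zero]

theorem mem_jS {S : Finset R} {Z : BLie R C} :
    Z ∈ jS h S ↔ Z ∈ jj h ∧ ∀ s, s ∉ S → Z.1 s = 0 := Iff.rfl

/-- conjugation -/
def cj (γ : BGrp R C) (X : BLie R C) : BLie R C :=
  (fun r => (γ.1 r).val * X.1 r * ((γ.1 r)⁻¹).val, X.2)

theorem cj_fst (γ : BGrp R C) (X : BLie R C) (r : R) :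
    (cj γ X).1 r = (γ.1 r).val * X.1 r * ((γ.1 r)⁻¹).val := rfl

theorem cj_mem_jj (hst : ∀ γ ∈ Γ, ∀ X ∈ h, cj γ X ∈ h) (γ : BGrp R C) (hγ : γ ∈ Γ)
    {X : BLie R C} (hX : X ∈ jj h) : cj γ X ∈ jj h := by
  refine ⟨hst γ hγ X hX.1, hX.2.1, fun s => ?_⟩
  rw [cj_fst, conj_trace]
  exact hX.2.2 s

theorem cj_mem_jS (hst : ∀ γ ∈ Γ, ∀ X ∈ h, cj γ X ∈ h) {S : Finset R} (γ : BGrp R C) (hγ : γ ∈ Γ)
    {X : BLie R C} (hX : X ∈ jS h S) : cj γ X ∈ jS h S := by
  refine ⟨cj_mem_jj h hst γ hγ hX.1, fun s hs => ?_⟩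
  rw [cj_fst, hX.2 s hs, Matrix.mul_zero, Matrix.zero_mul]

end

end AD1X

open AD1X in
theorem ad1_proof (h2 : Stmt_Ad2) (h3 : Stmt_Ad3) : Stmt_Ad1 := by
  intro R C _ _ _ _ c Γ H h hbr hst r ⟨X0, hX0, hX0r⟩
  classical
  have hst' : ∀ γ ∈ Γ, ∀ X ∈ h, cj γ X ∈ h := hst
  -- step 1 : all traceless matrices occur in the `r`-projection, up to scalars
  have step1 : ∀ Y : M2, Y.trace = 0 → ∃ X ∈ h, ∃ a : ℂ, X.1 r = Y + a • (1 : M2) := by
    let N : Submodule ℂ M2 :=
      { carrier := {Y | Y.trace = 0 ∧ ∃ X ∈ h, ∃ a : ℂ, X.1 r = Y + a • (1 : M2)}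
        add_mem' := by
          rintro Y Y' ⟨hY, X, hX, a, e⟩ ⟨hY', X', hX', a', e'⟩
          refine ⟨by rw [Matrix.trace_add, hY, hY', add_zero], X + X', h.add_mem hX hX', a + a', ?_⟩
          rw [Prod.fst_add, Pi.add_apply, e, e', add_smul]
          abel
        zero_mem' := ⟨by simp, 0, h.zero_mem, 0, by simp⟩
        smul_mem' := by
          rintro b Y ⟨hY, X, hX, a, e⟩
          refine ⟨by rw [Matrix.trace_smul, hY, smul_zero], b • X, h.smul_mem b hX, b * a, ?_⟩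
          rw [Prod.smul_fst, Pi.smul_apply, e, smul_add, mul_smul] }
    have key := h2 Γ (rho Γ r) (big H r) N (fun X hX => hX.1) ?_ ?_
    · intro Y hY
      exact (key Y hY).2
    · rintro γ Y ⟨hY, X, hX, a, e⟩
      refine ⟨by rw [conj_trace, hY], cj γ X, hst' γ γ.2 X hX, a, ?_⟩
      rw [cj_fst, e, rho_apply, Matrix.mul_add, Matrix.add_mul, Matrix.mul_smul, Matrix.smul_mul,
        Matrix.mul_one]
      congr 2
      exact congrArg Units.val (mul_inv_cancel ((γ : BGrp R C).1 r))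
    · intro hN
      have hmem : X0.1 r - ((X0.1 r).trace / 2) • (1 : M2) ∈ N := by
        refine ⟨?_, X0, hX0, (X0.1 r).trace / 2, by abel⟩
        rw [Matrix.trace_sub, Matrix.trace_smul, Matrix.trace_one, Fintype.card_fin]
        simp
      rw [hN, Submodule.mem_bot, sub_eq_zero] at hmem
      exact hX0r _ hmem
  -- step 2 : an element of `jj h` with nonzero `r`-component
  have step2 : ∃ Z ∈ jj h, Z.1 r ≠ 0 := by
    obtain ⟨X1, hX1, a, e1⟩ := step1 !![0, 1; 0, 0] (by simp [Matrix.trace_fin_two])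
    obtain ⟨X2, hX2, b, e2⟩ := step1 !![0, 0; 1, 0] (by simp [Matrix.trace_fin_two])
    refine ⟨_, ⟨hbr X1 hX1 X2 hX2, rfl, fun s => ?_⟩, ?_⟩
    · show (X1.1 s * X2.1 s - X2.1 s * X1.1 s).trace = 0
      rw [Matrix.trace_sub, Matrix.trace_mul_comm, sub_self]
    · show X1.1 r * X2.1 r - X2.1 r * X1.1 r ≠ 0
      rw [e1, e2]
      intro hcon
      have := congrFun (congrFun hcon 0) 0
      simp [Matrix.mul_apply, Fin.sum_univ_two] at this
      rw [mul_comm b a] at this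
      exact one_ne_zero (by linear_combination this : (1 : ℂ) = 0)
  -- step 3 : minimal support
  let P : ℕ → Prop := fun n => ∃ Z ∈ jj h, Z.1 r ≠ 0 ∧ (Finset.univ.filter fun s => Z.1 s ≠ 0).card = n
  have hP : ∃ n, P n := by
    obtain ⟨Z, hZ, hZr⟩ := step2
    exact ⟨_, Z, hZ, hZr, rfl⟩
  obtain ⟨Z, hZ, hZr, hcard⟩ := Nat.find_spec hP
  have hmin : ∀ Z' ∈ jj h, Z'.1 r ≠ 0 →
      (Finset.univ.filter fun s => Z.1 s ≠ 0).card ≤ (Finset.univ.filter fun s => Z'.1 s ≠ 0).card := by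
    intro Z' hZ' hZr'
    rw [hcard]
    exact Nat.find_min' hP ⟨Z', hZ', hZr', rfl⟩
  set S : Finset R := Finset.univ.filter fun s => Z.1 s ≠ 0 with hS
  have hZS : Z ∈ jS h S := by
    refine ⟨hZ, fun s hs => ?_⟩
    by_contra hne
    exact hs (by rw [hS]; simp [hne])
  have step3 : ∀ s, s ≠ r → Z.1 s = 0 := by
    intro r' hr'
    by_contra hne
    have hr'S : r' ∈ S := by rw [hS]; simp [hne]
    -- projection to r'
    let prj : R → jS h S →ₗ[ℂ] M2 := fun s =>
      { toFun := fun w => (w : BLie R C).1 s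
        map_add' := fun _ _ => rfl
        map_smul' := fun _ _ => rfl }
    have hprj : ∀ s (w : jS h S), prj s w = (w : BLie R C).1 s := fun _ _ => rfl
    obtain ⟨φ, hφ⟩ := factor (prj r') (prj r) (by
      intro w hw
      by_contra hwr
      have hle := hmin w w.2.1 hwr
      have hsub : (Finset.univ.filter fun s => (w : BLie R C).1 s ≠ 0) ⊆ S.erase r' := by
        intro s hs
        rw [Finset.mem_filter] at hs
        rw [Finset.mem_erase]
        refine ⟨fun e => hs.2 (e ▸ hw), ?_⟩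
        by_contra hns
        exact hs.2 (w.2.2 s hns)
      have := Finset.card_le_card hsub
      rw [Finset.card_erase_of_mem hr'S] at this
      have hpos : 0 < S.card := Finset.card_pos.2 ⟨r', hr'S⟩
      omega)
    have hsurj : ∀ Y : M2, Y.trace = 0 → ∃ w : jS h S, prj r' w = Y := by
      let N : Submodule ℂ M2 := LinearMap.range (prj r')
      have key := h2 Γ (rho Γ r') (big H r') N ?_ ?_ ?_
      · intro Y hY
        exact key Y hY
      · rintro X ⟨w, rfl⟩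
        exact w.2.1.2.2 r'
      · rintro γ X ⟨w, rfl⟩
        exact ⟨⟨cj γ w, cj_mem_jS h hst' γ γ.2 w.2⟩, rfl⟩
      · intro hN
        have : prj r' ⟨Z, hZS⟩ ∈ N := ⟨_, rfl⟩
        rw [hN, Submodule.mem_bot] at this
        exact hne this
    have hzero := h3 Γ (rho Γ r') (rho Γ r) (big H r') (big H r) ?_ ?_ φ ?_ ?_
    · have hz : prj r ⟨Z, hZS⟩ = 0 := by
        rw [← hφ]
        exact hzero _ (hZS.1.2.2 r')
      exact hZr hz
    · intro γ
      have := (H.sim γ γ.2).1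
      rw [rho_apply, rho_apply, this, this]
    · intro Q hQ
      have := H.h3 r' r hr' Q hQ
      intro hfin
      refine this (hfin.subset ?_)
      rintro Y ⟨γ, hγ, rfl⟩
      exact ⟨⟨γ, hγ⟩, rfl⟩
    · intro X hX
      obtain ⟨w, rfl⟩ := hsurj X hX
      rw [hφ]
      exact w.2.1.2.2 r
    · intro γ X hX
      obtain ⟨w, rfl⟩ := hsurj X hX
      have e1 : (rho Γ r' γ).val * prj r' w * ((rho Γ r' γ)⁻¹).val =
          prj r' ⟨cj γ w, cj_mem_jS h hst' γ γ.2 w.2⟩ := rfl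
      rw [e1, hφ, hφ]
      rfl
  -- step 4
  have hZe : Z = (Pi.single r (Z.1 r), 0, 0) := by
    refine Prod.ext ?_ ?_
    · funext s
      by_cases hs : s = r
      · subst hs; simp
      · show Z.1 s = (Pi.single r (Z.1 r) : R → M2) s
        rw [Pi.single_eq_of_ne hs]; exact step3 s hs
    · exact hZ.2.1
  let N : Submodule ℂ M2 :=
    { carrier := {Y | Y.trace = 0 ∧ ((Pi.single r Y, 0, 0) : BLie R C) ∈ h}
      add_mem' := by
        rintro Y Y' ⟨hY, hX⟩ ⟨hY', hX'⟩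
        refine ⟨by rw [Matrix.trace_add, hY, hY', add_zero], ?_⟩
        have := h.add_mem hX hX'
        convert this using 1
        refine Prod.ext ?_ ?_
        · exact Pi.single_add _ _ _
        · exact (add_zero _).symm
      zero_mem' := ⟨by simp, by rw [Pi.single_zero]; exact h.zero_mem⟩
      smul_mem' := by
        rintro b Y ⟨hY, hX⟩
        refine ⟨by rw [Matrix.trace_smul, hY, smul_zero], ?_⟩
        have := h.smul_mem b hX
        convert this using 1
        refine Prod.ext ?_ ?_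
        · exact Pi.single_smul _ _ _
        · exact (smul_zero _).symm }
  have key := h2 Γ (rho Γ r) (big H r) N (fun X hX => hX.1) ?_ ?_
  · intro Y hY
    exact (key Y hY).2
  · rintro γ Y ⟨hY, hX⟩
    refine ⟨by rw [conj_trace, hY], ?_⟩
    have := hst' γ γ.2 _ hX
    convert this using 1
    refine Prod.ext ?_ rfl
    funext s
    rw [cj_fst]
    by_cases hs : s = r
    · subst hs
      simp [rho_apply]
    · simp [Pi.single_eq_of_ne hs]
  · intro hN
    have hmem : Z.1 r ∈ N := ⟨hZ.2.2 r, by rw [← hZe]; exact hZ.1⟩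
    rw [hN, Submodule.mem_bot] at hmem
    exact hZr hmem

end

end Pool.Agent.DRB
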