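import Pool.Agent.DRB.Stmts

/-! Module AD2. -/

set_option autoImplicit false

open scoped BigOperators Topology
open Matrix Asymptotics Filter

namespace Pool.Agent.DRB

namespace Ad2X

theorem inv_mul_val (g : GL (Fin 2) ℂ) : (g⁻¹).val * g.val = 1 := by
  rw [← Units.val_mul, inv_mul_cancel, Units.val_one]

theorem mul_inv_val (g : GL (Fin 2) ℂ) : g.val * (g⁻¹).val = 1 := by
  rw [← Units.val_mul, mul_inv_cancel, Units.val_one]

/-- The kernel of a nonzero two by two matrix is at most one dimensional. -/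
theorem ker_one (X : Matrix (Fin 2) (Fin 2) ℂ) (hX : X ≠ 0) (v w : Fin 2 → ℂ) (hv : v ≠ 0)
    (h1 : X *ᵥ v = 0) (h2 : X *ᵥ w = 0) : ∃ c : ℂ, w = c • v := by
  have e1 := congrFun h1 0
  have e2 := congrFun h1 1
  have e3 := congrFun h2 0
  have e4 := congrFun h2 1
  simp only [Matrix.mulVec, dotProduct, Fin.sum_univ_two, Pi.zero_apply] at e1 e2 e3 e4
  have hD : v 0 * w 1 - v 1 * w 0 = 0 := by
    by_contra hD
    apply hX
    have f1 : X 0 0 * (v 0 * w 1 - v 1 * w 0) = 0 := by linear_combination w 1 * e1 - v 1 * e3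
    have f2 : X 0 1 * (v 0 * w 1 - v 1 * w 0) = 0 := by linear_combination v 0 * e3 - w 0 * e1
    have f3 : X 1 0 * (v 0 * w 1 - v 1 * w 0) = 0 := by linear_combination w 1 * e2 - v 1 * e4
    have f4 : X 1 1 * (v 0 * w 1 - v 1 * w 0) = 0 := by linear_combination v 0 * e4 - w 0 * e2
    ext i j
    fin_cases i <;> fin_cases j
    · exact (mul_eq_zero.mp f1).resolve_right hD
    · exact (mul_eq_zero.mp f2).resolve_right hD
    · exact (mul_eq_zero.mp f3).resolve_right hD
    · exact (mul_eq_zero.mp f4).resolve_right hD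
  by_cases h0 : v 0 = 0
  · have h1' : v 1 ≠ 0 := by
      intro h1'
      apply hv
      ext i
      fin_cases i
      · exact h0
      · exact h1'
    refine ⟨w 1 / v 1, ?_⟩
    ext i
    fin_cases i
    · simp only [Fin.zero_eta, Pi.smul_apply, smul_eq_mul]
      rw [h0] at hD ⊢
      have : v 1 * w 0 = 0 := by linear_combination -hD
      rw [(mul_eq_zero.mp this).resolve_left h1', mul_zero]
    · simp only [Fin.mk_one, Pi.smul_apply, smul_eq_mul]
      field_simp
  · refine ⟨w 0 / v 0, ?_⟩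
    ext i
    fin_cases i
    · simp only [Fin.zero_eta, Pi.smul_apply, smul_eq_mul]
      field_simp
    · simp only [Fin.mk_one, Pi.smul_apply, smul_eq_mul]
      field_simp
      linear_combination hD

/-- No line of traceless matrices is stable. -/
theorem no_line {G : Type} [Group G] (ρ : G →* GL (Fin 2) ℂ) (hb : Big ρ)
    (X : Matrix (Fin 2) (Fin 2) ℂ) (htr : X.trace = 0) (hX : X ≠ 0)
    (h : ∀ γ, ∃ c : ℂ, (ρ γ).val * X * ((ρ γ)⁻¹).val = c • X) : False := by
  by_cases hdet : X.det = 0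
  · obtain ⟨v, hv, hXv⟩ := Matrix.exists_mulVec_eq_zero_iff.mpr hdet
    obtain ⟨γ, hγ⟩ := hb.1 v hv
    obtain ⟨c, hc⟩ := h γ⁻¹
    have h1 : X * (ρ γ).val = c • ((ρ γ).val * X) := by
      have h2 : (ρ γ).val * ((ρ γ⁻¹).val * X * ((ρ γ⁻¹)⁻¹).val) = (ρ γ).val * (c • X) := by
        rw [hc]
      rw [map_inv, inv_inv, ← Matrix.mul_assoc, ← Matrix.mul_assoc, mul_inv_val,
        Matrix.one_mul] at h2
      rw [h2, Matrix.mul_smul]
    have h3 : X *ᵥ ((ρ γ).val *ᵥ v) = 0 := by
      rw [Matrix.mulVec_mulVec, h1, Matrix.smul_mulVec, ← Matrix.mulVec_mulVec, hXv,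
        Matrix.mulVec_zero, smul_zero]
    obtain ⟨a, ha⟩ := ker_one X hX v _ hv hXv h3
    exact hγ a ha
  · apply hb.2 X htr hX
    refine Set.Finite.subset (Set.toFinite {X, -X}) ?_
    rintro Y ⟨γ, rfl⟩
    obtain ⟨c, hc⟩ := h γ
    have h1 : ((ρ γ).val * X * ((ρ γ)⁻¹).val).det = X.det := by
      rw [Matrix.det_mul, Matrix.det_mul, mul_comm, ← mul_assoc, ← Matrix.det_mul, inv_mul_val,
        Matrix.det_one, one_mul]
    rw [hc, Matrix.det_smul, Fintype.card_fin] at h1
    have h2 : (c - 1) * (c + 1) = 0 := by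
      have : (c ^ 2 - 1) * X.det = 0 := by linear_combination h1
      have := (mul_eq_zero.mp this).resolve_right hdet
      linear_combination this
    show (ρ γ).val * X * ((ρ γ)⁻¹).val ∈ ({X, -X} : Set _)
    rw [hc]
    rcases mul_eq_zero.mp h2 with h3 | h3
    · left
      rw [sub_eq_zero.mp h3, one_smul]
    · right
      rw [eq_neg_of_add_eq_zero_left h3, neg_smul, one_smul]
      rfl

/-- Coordinates of traceless matrices. -/
def T : (Fin 3 → ℂ) →ₗ[ℂ] Matrix (Fin 2) (Fin 2) ℂ where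
  toFun a := !![a 0, a 1; a 2, - a 0]
  map_add' a b := by
    ext i j
    fin_cases i <;> fin_cases j <;> simp
    ring
  map_smul' c a := by
    ext i j
    fin_cases i <;> fin_cases j <;> simp

theorem T_apply (a : Fin 3 → ℂ) : T a = !![a 0, a 1; a 2, - a 0] := rfl

theorem T_surj (X : Matrix (Fin 2) (Fin 2) ℂ) (h : X.trace = 0) :
    X = T ![X 0 0, X 0 1, X 1 0] := by
  rw [Matrix.trace_fin_two] at h
  rw [T_apply]
  ext i j
  fin_cases i <;> fin_cases j
  · simp
  · simp
  · simp
  · simp only [Fin.mk_one, Matrix.of_apply, Matrix.cons_val_one, Matrix.cons_val_zero,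
      Matrix.cons_val', Matrix.cons_val_fin_one]
    linear_combination h

theorem T_inj (a : Fin 3 → ℂ) (h : T a = 0) : a = 0 := by
  rw [T_apply] at h
  have h0 := congrFun (congrFun h 0) 0
  have h1 := congrFun (congrFun h 0) 1
  have h2 := congrFun (congrFun h 1) 0
  simp at h0 h1 h2
  ext i
  fin_cases i
  · exact h0
  · exact h1
  · exact h2

theorem bracket_ne (a b : Fin 3 → ℂ) (h : T a * T b - T b * T a = 0) (ha : a ≠ 0) :
    ∃ c : ℂ, b = c • a := by
  have h0 := congrFun (congrFun h 0) 0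
  have h1 := congrFun (congrFun h 0) 1
  have h2 := congrFun (congrFun h 1) 0
  simp [T_apply] at h0 h1 h2
  have e1 : a 1 * b 2 - b 1 * a 2 = 0 := by linear_combination h0
  have e2 : a 0 * b 1 - b 0 * a 1 = 0 := by linear_combination h1 / 2
  have e3 : a 0 * b 2 - b 0 * a 2 = 0 := by linear_combination -h2 / 2
  by_cases c0 : a 0 = 0
  · by_cases c1 : a 1 = 0
    · have c2 : a 2 ≠ 0 := by
        intro c2
        apply ha
        ext i
        fin_cases i
        · exact c0
        · exact c1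
        · exact c2
      refine ⟨b 2 / a 2, ?_⟩
      ext i
      fin_cases i
      · simp only [Fin.zero_eta, Pi.smul_apply, smul_eq_mul]
        field_simp
        linear_combination -e3
      · simp only [Fin.mk_one, Pi.smul_apply, smul_eq_mul]
        field_simp
        linear_combination -e1
      · simp only [Fin.reduceFinMk, Pi.smul_apply, smul_eq_mul]
        field_simp
    · refine ⟨b 1 / a 1, ?_⟩
      ext i
      fin_cases i
      · simp only [Fin.zero_eta, Pi.smul_apply, smul_eq_mul]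
        field_simp
        linear_combination -e2
      · simp only [Fin.mk_one, Pi.smul_apply, smul_eq_mul]
        field_simp
      · simp only [Fin.reduceFinMk, Pi.smul_apply, smul_eq_mul]
        field_simp
        linear_combination e1
  · refine ⟨b 0 / a 0, ?_⟩
    ext i
    fin_cases i
    · simp only [Fin.zero_eta, Pi.smul_apply, smul_eq_mul]
      field_simp
    · simp only [Fin.mk_one, Pi.smul_apply, smul_eq_mul]
      field_simp
      linear_combination e2
    · simp only [Fin.reduceFinMk, Pi.smul_apply, smul_eq_mul]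
      field_simp
      linear_combination e3

theorem trace_conj (g : GL (Fin 2) ℂ) (X : Matrix (Fin 2) (Fin 2) ℂ) :
    (g.val * X * (g⁻¹).val).trace = X.trace := by
  rw [Matrix.trace_mul_comm, ← Matrix.mul_assoc, inv_mul_val, Matrix.one_mul]

theorem conj_mul (g : GL (Fin 2) ℂ) (X Y : Matrix (Fin 2) (Fin 2) ℂ) :
    (g.val * X * (g⁻¹).val) * (g.val * Y * (g⁻¹).val) = g.val * (X * Y) * (g⁻¹).val := by
  have h := inv_mul_val g
  calc (g.val * X * (g⁻¹).val) * (g.val * Y * (g⁻¹).val)
      = g.val * X * ((g⁻¹).val * g.val) * Y * (g⁻¹).val := by simp only [Matrix.mul_assoc]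
    _ = g.val * (X * Y) * (g⁻¹).val := by rw [h]; simp only [Matrix.mul_assoc, Matrix.mul_one]

end Ad2X

open Ad2X in
theorem ad2_proof : Stmt_Ad2 := by
  intro G _ ρ hb N htr hst hne X hX
  have hle : Module.finrank ℂ (N.comap T) ≤ 3 := by
    have h := Submodule.finrank_le (N.comap T)
    simpa using h
  have h4 : Module.finrank ℂ (N.comap T) = 0 ∨ Module.finrank ℂ (N.comap T) = 1 ∨
      Module.finrank ℂ (N.comap T) = 2 ∨ Module.finrank ℂ (N.comap T) = 3 := by omega
  rcases h4 with h4 | h4 | h4 | h4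
  · exfalso
    apply hne
    rw [Submodule.finrank_eq_zero] at h4
    rw [Submodule.eq_bot_iff]
    intro Y hY
    have h5 := T_surj Y (htr Y hY)
    have h6 : (![Y 0 0, Y 0 1, Y 1 0] : Fin 3 → ℂ) ∈ N.comap T := by
      rw [Submodule.mem_comap, ← h5]
      exact hY
    rw [h4, Submodule.mem_bot] at h6
    rw [h5, h6, map_zero]
  · exfalso
    obtain ⟨⟨a, haN⟩, ha0, ha⟩ := finrank_eq_one_iff'.mp h4
    have ha0' : a ≠ 0 := fun h => ha0 (Subtype.ext h)
    have hTa : T a ∈ N := haN
    refine no_line ρ hb (T a) (htr _ hTa) (fun h => ha0' (T_inj a h)) fun γ => ?_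
    have h7 := hst γ _ hTa
    have h8 := T_surj _ (htr _ h7)
    rw [h8] at h7 ⊢
    obtain ⟨c, hc⟩ := ha ⟨_, h7⟩
    refine ⟨c, ?_⟩
    have h9 := congrArg (fun w : N.comap T => T (w : Fin 3 → ℂ)) hc
    exact h9.symm.trans (map_smul T c a)
  · exfalso
    let B := Module.finBasisOfFinrankEq ℂ (N.comap T) h4
    have hex : ∀ w ∈ N.comap T, ∃ c0 c1 : ℂ, w = c0 • (B 0 : Fin 3 → ℂ) + c1 • (B 1 : Fin 3 → ℂ) := by
      intro w hw
      have h5 := B.sum_repr ⟨w, hw⟩
      rw [Fin.sum_univ_two] at h5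
      have h6 := congrArg Subtype.val h5
      exact ⟨_, _, h6.symm⟩
    set a : Fin 3 → ℂ := (B 0 : Fin 3 → ℂ) with ha
    set b : Fin 3 → ℂ := (B 1 : Fin 3 → ℂ) with hb'
    have hB0 : B 0 ≠ 0 := B.ne_zero 0
    have ha0 : a ≠ 0 := fun h => hB0 (Subtype.ext h)
    have hTa : T a ∈ N := (B 0).2
    have hTb : T b ∈ N := (B 1).2
    have hbr : T a * T b - T b * T a ≠ 0 := by
      intro h
      obtain ⟨c, hc⟩ := bracket_ne a b h ha0
      have h5 : B 1 = c • B 0 := Subtype.ext hc
      have h6 := B.linearIndependent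
      have h7 := (LinearIndependent.pair_iff.mp
        (show LinearIndependent ℂ ![B 0, B 1] from by
          have : (![B 0, B 1] : Fin 2 → _) = ⇑B := by
            ext i
            fin_cases i <;> rfl
          rw [this]
          exact h6)) c (-1) (by rw [h5]; simp)
      simp at h7
    have htr' : (T a * T b - T b * T a).trace = 0 := by
      rw [Matrix.trace_sub, Matrix.trace_mul_comm, sub_self]
    refine no_line ρ hb _ htr' hbr fun γ => ?_
    have key : ∀ w, T w ∈ N → ∃ c0 c1 : ℂ,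
        (ρ γ).val * T w * ((ρ γ)⁻¹).val = c0 • T a + c1 • T b := by
      intro w hw
      have h7 := hst γ _ hw
      have h8 := T_surj _ (htr _ h7)
      rw [h8] at h7 ⊢
      obtain ⟨c0, c1, hc⟩ := hex _ h7
      refine ⟨c0, c1, ?_⟩
      rw [hc, map_add, map_smul, map_smul]
    obtain ⟨p, q, h1⟩ := key a hTa
    obtain ⟨r, s, h2⟩ := key b hTb
    refine ⟨p * s - q * r, ?_⟩
    rw [Matrix.mul_sub, Matrix.sub_mul, ← Ad2X.conj_mul, ← Ad2X.conj_mul, h1, h2]
    simp only [Matrix.add_mul, Matrix.mul_add, Matrix.smul_mul, Matrix.mul_smul, smul_add,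
      smul_smul, smul_sub]
    module
  · have h5 : N.comap T = ⊤ := by
      apply Submodule.eq_top_of_finrank_eq
      rw [h4]
      simp
    have h6 : (![X 0 0, X 0 1, X 1 0] : Fin 3 → ℂ) ∈ N.comap T := by
      rw [h5]
      exact Submodule.mem_top
    rw [T_surj X hX]
    exact h6

end Pool.Agent.DRB
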