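import Pool.Agent.DRB.Stmts

/-!
# The adjoint representations of different blocks are disjoint (module AD3)
-/

open scoped BigOperators
open Matrix

namespace Pool.Agent.DRB

namespace Ad3X

noncomputable section

abbrev M2 := Matrix (Fin 2) (Fin 2) ℂ

/-- bracket -/
def br (X Y : M2) : M2 := X * Y - Y * X

theorem br_trace (X Y : M2) : (br X Y).trace = 0 := by
  unfold br
  rw [Matrix.trace_sub, Matrix.trace_mul_comm, sub_self]

def E : M2 := !![0, 1; 0, 0]
def F : M2 := !![0, 0; 1, 0]
def H : M2 := !![1, 0; 0, -1]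

theorem decomp (X : M2) (hX : X.trace = 0) : X = X 0 0 • H + X 0 1 • E + X 1 0 • F := by
  have h : X 1 1 = - X 0 0 := by
    rw [Matrix.trace_fin_two] at hX
    linear_combination hX
  ext i j
  fin_cases i <;> fin_cases j <;> simp [H, E, F, h]

/-- the map induced on brackets -/
def psi (φ : M2 →ₗ[ℂ] M2) : M2 →ₗ[ℂ] M2 where
  toFun Z := Z 0 0 • br (φ E) (φ F) + Z 0 1 • ((1 / 2 : ℂ) • br (φ H) (φ E)) -
    Z 1 0 • ((1 / 2 : ℂ) • br (φ H) (φ F))
  map_add' Z Z' := by
    simp only [Matrix.add_apply]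
    module
  map_smul' c Z := by
    simp only [Matrix.smul_apply, smul_eq_mul, RingHom.id_apply]
    module

theorem psi_apply (φ : M2 →ₗ[ℂ] M2) (Z : M2) : psi φ Z = Z 0 0 • br (φ E) (φ F) +
    Z 0 1 • ((1 / 2 : ℂ) • br (φ H) (φ E)) - Z 1 0 • ((1 / 2 : ℂ) • br (φ H) (φ F)) := rfl

theorem br_expand (a b c a' b' c' : ℂ) (U V W : M2) :
    br (a • U + b • V + c • W) (a' • U + b' • V + c' • W) =
      (a * b' - a' * b) • br U V + (a * c' - a' * c) • br U W + (b * c' - b' * c) • br V W := by
  unfold br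
  simp only [mul_add, add_mul, smul_mul_assoc, mul_smul_comm, smul_smul, smul_sub, sub_smul]
  module

theorem psi_br (φ : M2 →ₗ[ℂ] M2) (X Y : M2) (hX : X.trace = 0) (hY : Y.trace = 0) :
    psi φ (br X Y) = br (φ X) (φ Y) := by
  have hx : φ X = X 0 0 • φ H + X 0 1 • φ E + X 1 0 • φ F := by
    conv_lhs => rw [decomp X hX]
    simp only [map_add, map_smul]
  have hy : φ Y = Y 0 0 • φ H + Y 0 1 • φ E + Y 1 0 • φ F := by
    conv_lhs => rw [decomp Y hY]
    simp only [map_add, map_smul]
  rw [hx, hy, br_expand, psi_apply]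
  have h11 : X 1 1 = - X 0 0 := by
    rw [Matrix.trace_fin_two] at hX
    linear_combination hX
  have h11' : Y 1 1 = - Y 0 0 := by
    rw [Matrix.trace_fin_two] at hY
    linear_combination hY
  have e00 : br X Y 0 0 = X 0 1 * Y 1 0 - Y 0 1 * X 1 0 := by
    unfold br
    simp only [Matrix.sub_apply, Matrix.mul_apply, Fin.sum_univ_two]
    ring
  have e01 : br X Y 0 1 = 2 * (X 0 0 * Y 0 1 - Y 0 0 * X 0 1) := by
    unfold br
    simp only [Matrix.sub_apply, Matrix.mul_apply, Fin.sum_univ_two, h11, h11']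
    ring
  have e10 : br X Y 1 0 = - (2 * (X 0 0 * Y 1 0 - Y 0 0 * X 1 0)) := by
    unfold br
    simp only [Matrix.sub_apply, Matrix.mul_apply, Fin.sum_univ_two, h11, h11']
    ring
  rw [e00, e01, e10]
  module

/-- every traceless matrix is a combination of three brackets -/
theorem br_gen (Z : M2) (hZ : Z.trace = 0) :
    Z = Z 0 0 • br E F + Z 0 1 • ((1 / 2 : ℂ) • br H E) - Z 1 0 • ((1 / 2 : ℂ) • br H F) := by
  have h : Z 1 1 = - Z 0 0 := by
    rw [Matrix.trace_fin_two] at hZ
    linear_combination hZ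
  ext i j
  fin_cases i <;> fin_cases j <;>
    simp [H, E, F, h, br, Matrix.mul_apply, Fin.sum_univ_two] <;> ring

theorem trE : E.trace = 0 := by simp [E, Matrix.trace_fin_two]
theorem trF : F.trace = 0 := by simp [F, Matrix.trace_fin_two]
theorem trH : H.trace = 0 := by simp [H, Matrix.trace_fin_two]

theorem conj_trace (g : GL (Fin 2) ℂ) (X : M2) : (g.val * X * (g⁻¹).val).trace = X.trace := by
  rw [Matrix.trace_mul_comm, ← Matrix.mul_assoc]
  have : (g⁻¹).val * g.val = 1 := by
    rw [← Units.val_mul]; simp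
  rw [this, Matrix.one_mul]

theorem conj_br (g : GL (Fin 2) ℂ) (X Y : M2) :
    g.val * br X Y * (g⁻¹).val = br (g.val * X * (g⁻¹).val) (g.val * Y * (g⁻¹).val) := by
  have h : (g⁻¹).val * g.val = 1 := by
    rw [← Units.val_mul]; simp
  unfold br
  have e : ∀ A B : M2, g.val * A * (g⁻¹).val * (g.val * B * (g⁻¹).val) =
      g.val * (A * B) * (g⁻¹).val := by
    intro A B
    calc g.val * A * (g⁻¹).val * (g.val * B * (g⁻¹).val)
        = g.val * A * ((g⁻¹).val * g.val) * B * (g⁻¹).val := by
          simp only [Matrix.mul_assoc]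
      _ = _ := by rw [h]; simp only [Matrix.mul_assoc, Matrix.one_mul]
  rw [e, e, Matrix.mul_sub, Matrix.sub_mul]

/-- a matrix commuting with E and F is scalar -/
theorem scalar_of_comm (S : M2) (hE : S * E = E * S) (hF : S * F = F * S) :
    S = S 0 0 • (1 : M2) := by
  have a1 := congrFun (congrFun hE 0) 1
  have a2 := congrFun (congrFun hE 0) 0
  have a3 := congrFun (congrFun hF 0) 0
  simp only [Matrix.mul_apply, Fin.sum_univ_two, E, F] at a1 a2 a3
  simp at a1 a2 a3
  ext i j
  fin_cases i <;> fin_cases j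
  · simp
  · simp [a3]
  · simp [← a2]
  · simp [a1]

end

end Ad3X

open Ad3X in
theorem ad3_proof (hA : Stmt_Ad2) (hP : Stmt_Pgl) : Stmt_Ad3 := by
  intro G _ ρ₁ ρ₂ hB₁ hB₂ hdet hdis φ htr heq
  by_contra hcon
  push Not at hcon
  obtain ⟨X₀, hX₀, hφX₀⟩ := hcon
  have htr' : ∀ X : M2, X.trace = 0 → (φ X).trace = 0 := htr
  -- φ is injective on traceless matrices
  have hinj : ∀ X : M2, X.trace = 0 → φ X = 0 → X = 0 := by
    by_contra hc
    push Not at hc
    obtain ⟨Y, hY, hφY, hY0⟩ := hc
    let N : Submodule ℂ M2 :=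
      LinearMap.ker (Matrix.traceLinearMap (Fin 2) ℂ ℂ) ⊓ LinearMap.ker φ
    have hN : ∀ X, X ∈ N ↔ X.trace = 0 ∧ φ X = 0 := by
      intro X
      simp [N, Submodule.mem_inf]
    have h1 := hA G ρ₁ hB₁ N (fun X hX => ((hN X).1 hX).1) (fun γ X hX => by
      rw [hN] at hX ⊢
      refine ⟨by rw [conj_trace]; exact hX.1, ?_⟩
      rw [heq γ X hX.1, hX.2, Matrix.mul_zero, Matrix.zero_mul]) (by
      intro hbot
      have : Y ∈ N := (hN Y).2 ⟨hY, hφY⟩
      rw [hbot, Submodule.mem_bot] at this
      exact hY0 this) X₀ hX₀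
    exact hφX₀ ((hN X₀).1 h1).2
  -- the restriction to traceless matrices
  let sl : Submodule ℂ M2 := LinearMap.ker (Matrix.traceLinearMap (Fin 2) ℂ ℂ)
  have hsl : ∀ X, X ∈ sl ↔ X.trace = 0 := by
    intro X; simp [sl]
  let φs : sl →ₗ[ℂ] sl := φ.restrict (p := sl) (q := sl) (fun X hX => by
    rw [hsl] at hX ⊢; exact htr' X hX)
  have hφs_inj : Function.Injective φs := by
    rw [injective_iff_map_eq_zero]
    intro X hX
    have : φ X.1 = 0 := by
      have := congrArg Subtype.val hX
      simpa [φs, LinearMap.restrict_apply] using this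
    exact Subtype.ext (hinj X.1 ((hsl _).1 X.2) this)
  have hφs_surj : Function.Surjective φs := LinearMap.injective_iff_surjective.1 hφs_inj
  have hψtr : ∀ Z : M2, (psi φ Z).trace = 0 := by
    intro Z
    rw [psi_apply]
    simp only [Matrix.trace_sub, Matrix.trace_add, Matrix.trace_smul, br_trace, smul_zero,
      add_zero, sub_zero]
  let ψs : sl →ₗ[ℂ] sl := (psi φ).restrict (p := sl) (q := sl) (fun X hX => by
    rw [hsl]; exact hψtr X)
  let e : sl ≃ₗ[ℂ] sl := LinearEquiv.ofBijective φs ⟨hφs_inj, hφs_surj⟩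
  haveI : Nontrivial sl := by
    refine ⟨⟨⟨E, (hsl _).2 trE⟩, 0, ?_⟩⟩
    intro h
    have := congrArg (fun X : sl => X.1 0 1) h
    simp [E] at this
  obtain ⟨k, hk⟩ := Module.End.exists_eigenvalue ((e.symm : sl →ₗ[ℂ] sl) ∘ₗ ψs)
  obtain ⟨Z₀, hZ₀⟩ := hk.exists_hasEigenvector
  have hZ₀' : psi φ Z₀.1 = k • φ Z₀.1 := by
    have h1 := hZ₀.apply_eq_smul
    simp only [LinearMap.comp_apply, LinearEquiv.coe_coe] at h1
    rw [LinearEquiv.symm_apply_eq] at h1
    have h2 := congrArg Subtype.val h1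
    simpa [ψs, e, φs, LinearMap.restrict_apply] using h2
  -- equivariance of ψ
  have hψeq : ∀ (γ : G) (X : M2), X.trace = 0 →
      psi φ ((ρ₁ γ).val * X * ((ρ₁ γ)⁻¹).val) = (ρ₂ γ).val * psi φ X * ((ρ₂ γ)⁻¹).val := by
    intro γ X hX
    have hb : ∀ A B : M2, A.trace = 0 → B.trace = 0 →
        psi φ ((ρ₁ γ).val * br A B * ((ρ₁ γ)⁻¹).val) =
          (ρ₂ γ).val * psi φ (br A B) * ((ρ₂ γ)⁻¹).val := by
      intro A B hA hB
      rw [conj_br, psi_br φ _ _ (by rw [conj_trace]; exact hA) (by rw [conj_trace]; exact hB),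
        psi_br φ _ _ hA hB, conj_br, heq γ A hA, heq γ B hB]
    have hd := br_gen X hX
    rw [hd]
    simp only [Matrix.mul_add, Matrix.mul_sub, Matrix.add_mul, Matrix.sub_mul, Matrix.mul_smul,
      Matrix.smul_mul, map_add, map_sub, map_smul]
    rw [hb E F trE trF, hb H E trH trE, hb H F trH trF]
  -- ψ = k φ
  have hψk : ∀ X : M2, X.trace = 0 → psi φ X = k • φ X := by
    let N : Submodule ℂ M2 := sl ⊓ LinearMap.ker (psi φ - k • φ)
    have hN : ∀ X, X ∈ N ↔ X.trace = 0 ∧ psi φ X = k • φ X := by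
      intro X
      simp only [N, Submodule.mem_inf, hsl, LinearMap.mem_ker, LinearMap.sub_apply,
        LinearMap.smul_apply, sub_eq_zero]
    intro X hX
    have h1 := hA G ρ₁ hB₁ N (fun X hX => ((hN X).1 hX).1) (fun γ X hX => by
      rw [hN] at hX ⊢
      refine ⟨by rw [conj_trace]; exact hX.1, ?_⟩
      rw [hψeq γ X hX.1, heq γ X hX.1, hX.2]
      simp only [Matrix.mul_smul, Matrix.smul_mul]) (by
      intro hbot
      have : Z₀.1 ∈ N := (hN _).2 ⟨(hsl _).1 Z₀.2, hZ₀'⟩
      rw [hbot, Submodule.mem_bot] at this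
      exact hZ₀.2 (Subtype.ext this)) X hX
    exact ((hN X).1 h1).2
  have hbrk : ∀ X Y : M2, X.trace = 0 → Y.trace = 0 →
      φ X * φ Y - φ Y * φ X = k • φ (X * Y - Y * X) := by
    intro X Y hX hY
    have h1 := psi_br φ X Y hX hY
    rw [hψk _ (br_trace X Y)] at h1
    exact h1.symm
  have hk0 : k ≠ 0 := by
    rintro rfl
    obtain ⟨x, hx⟩ := hφs_surj ⟨E, (hsl _).2 trE⟩
    obtain ⟨y, hy⟩ := hφs_surj ⟨F, (hsl _).2 trF⟩
    have hx' : φ x.1 = E := by
      have := congrArg Subtype.val hx
      simpa [φs, LinearMap.restrict_apply] using this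
    have hy' : φ y.1 = F := by
      have := congrArg Subtype.val hy
      simpa [φs, LinearMap.restrict_apply] using this
    have h1 := hbrk x.1 y.1 ((hsl _).1 x.2) ((hsl _).1 y.2)
    rw [hx', hy', zero_smul] at h1
    have h2 := congrFun (congrFun h1 0) 0
    simp [E, F, Matrix.mul_apply, Fin.sum_univ_two] at h2
  obtain ⟨P, c, hc, hPc⟩ := hP φ k hk0 htr' hinj hbrk
  -- P intertwines up to sign
  have hPP : (P⁻¹).val * P.val = 1 := by rw [← Units.val_mul]; simp
  have hPP' : P.val * (P⁻¹).val = 1 := by rw [← Units.val_mul]; simp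
  have hfin : ∀ γ : G, (ρ₂ γ).val * P.val * ((ρ₁ γ)⁻¹).val = P.val ∨
      (ρ₂ γ).val * P.val * ((ρ₁ γ)⁻¹).val = - P.val := by
    intro γ
    set a : M2 := (ρ₁ γ).val with ha
    set a' : M2 := ((ρ₁ γ)⁻¹).val with ha'
    set b : M2 := (ρ₂ γ).val with hb
    set b' : M2 := ((ρ₂ γ)⁻¹).val with hb'
    have haa : a * a' = 1 := by rw [ha, ha', ← Units.val_mul]; simp
    have haa2 : a' * a = 1 := by rw [ha, ha', ← Units.val_mul]; simp
    have hbb : b' * b = 1 := by rw [hb, hb', ← Units.val_mul]; simp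
    have hbb2 : b * b' = 1 := by rw [hb, hb', ← Units.val_mul]; simp
    have h1 : ∀ X : M2, X.trace = 0 → P.val * (a * X * a') * (P⁻¹).val =
        b * (P.val * X * (P⁻¹).val) * b' := by
      intro X hX
      have h2 := heq γ X hX
      rw [hPc X hX, hPc _ (by rw [conj_trace]; exact hX)] at h2
      simp only [Matrix.mul_smul, Matrix.smul_mul] at h2
      exact smul_right_injective _ hc h2
    -- S = P⁻¹ b' P a commutes with X
    have h3 : ∀ X : M2, X.trace = 0 → ((P⁻¹).val * b' * P.val * a) * X =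
        X * ((P⁻¹).val * b' * P.val * a) := by
      intro X hX
      have h4 := h1 X hX
      calc ((P⁻¹).val * b' * P.val * a) * X
          = (P⁻¹).val * b' * (P.val * (a * X * a') * (P⁻¹).val) * P.val * a := by
            have : (P⁻¹).val * b' * (P.val * (a * X * a') * (P⁻¹).val) * P.val * a =
              (P⁻¹).val * b' * P.val * a * X * (a' * (((P⁻¹).val * P.val) * a)) := by
              simp only [Matrix.mul_assoc]
            rw [this, hPP, Matrix.one_mul, haa2, Matrix.mul_one]
        _ = (P⁻¹).val * b' * (b * (P.val * X * (P⁻¹).val) * b') * P.val * a := by rw [h4]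
        _ = X * ((P⁻¹).val * b' * P.val * a) := by
            have : (P⁻¹).val * b' * (b * (P.val * X * (P⁻¹).val) * b') * P.val * a =
              (P⁻¹).val * ((b' * b) * (P.val * (X * ((P⁻¹).val * b' * P.val * a)))) := by
              simp only [Matrix.mul_assoc]
            rw [this, hbb, Matrix.one_mul, ← Matrix.mul_assoc, hPP, Matrix.one_mul]
    have h5 := scalar_of_comm _ (h3 E trE) (h3 F trF)
    set s := ((P⁻¹).val * b' * P.val * a) 0 0 with hs
    -- b * P * a' = s⁻¹ P ; i.e. P = s (b P a')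
    have h6 : P.val = s • (b * P.val * a') := by
      calc P.val = b * P.val * ((P⁻¹).val * b' * P.val * a) * a' := by
            have : b * P.val * ((P⁻¹).val * b' * P.val * a) * a' =
              b * ((P.val * (P⁻¹).val) * (b' * (P.val * (a * a')))) := by
              simp only [Matrix.mul_assoc]
            rw [this, hPP', haa, Matrix.one_mul, Matrix.mul_one, ← Matrix.mul_assoc, hbb2,
              Matrix.one_mul]
        _ = s • (b * P.val * a') := by
            rw [h5]
            simp only [Matrix.mul_smul, Matrix.smul_mul, Matrix.mul_one]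
    have hd1 : a.det * a'.det = 1 := by rw [← Matrix.det_mul, haa, Matrix.det_one]
    have hd : b.det * a'.det = 1 := by
      have : b.det = a.det := (hdet γ).symm
      rw [this, hd1]
    have hPdet : P.val.det ≠ 0 := by
      have : P.val.det * (P⁻¹).val.det = 1 := by rw [← Matrix.det_mul, hPP', Matrix.det_one]
      intro h0
      rw [h0, zero_mul] at this
      exact zero_ne_one this
    have h7 : s ^ 2 = 1 := by
      have h8 := congrArg Matrix.det h6
      rw [Matrix.det_smul, Matrix.det_mul, Matrix.det_mul, Fintype.card_fin] at h8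
      have h9 : (s ^ 2 - 1) * P.val.det = 0 := by
        linear_combination -h8 - s ^ 2 * P.val.det * (hd - 1) + 0
      rcases mul_eq_zero.1 h9 with h | h
      · linear_combination h
      · exact absurd h hPdet
    have h10 : s = 1 ∨ s = -1 := by
      have : (s - 1) * (s + 1) = 0 := by linear_combination h7
      rcases mul_eq_zero.1 this with h | h
      · left; linear_combination h
      · right; linear_combination h
    rcases h10 with h | h
    · left
      rw [h, one_smul] at h6
      exact h6.symm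
    · right
      rw [h, neg_smul, one_smul] at h6
      exact (neg_eq_iff_eq_neg.2 h6).symm ▸ rfl
  apply hdis P.val
  · intro h0
    rw [h0, Matrix.mul_zero] at hPP
    exact zero_ne_one hPP
  · refine Set.Finite.subset (Set.toFinite {P.val, -P.val}) ?_
    rintro _ ⟨γ, rfl⟩
    rcases hfin γ with h | h
    · left; exact h
    · right; exact h

end Pool.Agent.DRB
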