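import Pool.Agent.DRB.Stmts3
import Pool.Agent.DRB.Ad3

/-!
# The adjoint representations of blocks which are not isomorphic up to a character are disjoint (module AD33)
-/

open scoped BigOperators
open Matrix

namespace Pool.Agent.DRB

open Ad3X in
theorem ad33_proof (hA : Stmt_Ad2) (hP : Stmt_Pgl) : Stmt_Ad33 := by
  intro G _ ρ₁ ρ₂ hB₁ hB₂ hdis φ htr heq
  by_contra hcon
  push Not at hcon
  obtain ⟨X₀, hX₀, hφX₀⟩ := hcon
  have htr' : ∀ X : M2, X.trace = 0 → (φ X).trace = 0 := htr
  -- φ is injective on traceless matrices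
  have hinj : ∀ X : M2, X.trace = 0 → φ X = 0 → X = 0 := by
    by_contra hc
    push Not at hc
    obtain ⟨Y, hY, hφY, hY0⟩ := hc
    let N : Submodule ℂ M2 :=
      LinearMap.ker (Matrix.traceLinearMap (Fin 2) ℂ ℂ) ⊓ LinearMap.ker φ
    have hN : ∀ X, X ∈ N ↔ X.trace = 0 ∧ φ X = 0 := by
      intro X
      simp [N, Submodule.mem_inf]
    have h1 := hA G ρ₁ hB₁ N (fun X hX => ((hN X).1 hX).1) (fun γ X hX => by
      rw [hN] at hX ⊢
      refine ⟨by rw [conj_trace]; exact hX.1, ?_⟩
      rw [heq γ X hX.1, hX.2, Matrix.mul_zero, Matrix.zero_mul]) (by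
      intro hbot
      have : Y ∈ N := (hN Y).2 ⟨hY, hφY⟩
      rw [hbot, Submodule.mem_bot] at this
      exact hY0 this) X₀ hX₀
    exact hφX₀ ((hN X₀).1 h1).2
  -- the restriction to traceless matrices
  let sl : Submodule ℂ M2 := LinearMap.ker (Matrix.traceLinearMap (Fin 2) ℂ ℂ)
  have hsl : ∀ X, X ∈ sl ↔ X.trace = 0 := by
    intro X; simp [sl]
  let φs : sl →ₗ[ℂ] sl := φ.restrict (p := sl) (q := sl) (fun X hX => by
    rw [hsl] at hX ⊢; exact htr' X hX)
  have hφs_inj : Function.Injective φs := by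
    rw [injective_iff_map_eq_zero]
    intro X hX
    have : φ X.1 = 0 := by
      have := congrArg Subtype.val hX
      simpa [φs, LinearMap.restrict_apply] using this
    exact Subtype.ext (hinj X.1 ((hsl _).1 X.2) this)
  have hφs_surj : Function.Surjective φs := LinearMap.injective_iff_surjective.1 hφs_inj
  have hψtr : ∀ Z : M2, (psi φ Z).trace = 0 := by
    intro Z
    rw [psi_apply]
    simp only [Matrix.trace_sub, Matrix.trace_add, Matrix.trace_smul, br_trace, smul_zero,
      add_zero, sub_zero]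
  let ψs : sl →ₗ[ℂ] sl := (psi φ).restrict (p := sl) (q := sl) (fun X hX => by
    rw [hsl]; exact hψtr X)
  let e : sl ≃ₗ[ℂ] sl := LinearEquiv.ofBijective φs ⟨hφs_inj, hφs_surj⟩
  haveI : Nontrivial sl := by
    refine ⟨⟨⟨E, (hsl _).2 trE⟩, 0, ?_⟩⟩
    intro h
    have := congrArg (fun X : sl => X.1 0 1) h
    simp [E] at this
  obtain ⟨k, hk⟩ := Module.End.exists_eigenvalue ((e.symm : sl →ₗ[ℂ] sl) ∘ₗ ψs)
  obtain ⟨Z₀, hZ₀⟩ := hk.exists_hasEigenvector
  have hZ₀' : psi φ Z₀.1 = k • φ Z₀.1 := by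
    have h1 := hZ₀.apply_eq_smul
    simp only [LinearMap.comp_apply, LinearEquiv.coe_coe] at h1
    rw [LinearEquiv.symm_apply_eq] at h1
    have h2 := congrArg Subtype.val h1
    simpa [ψs, e, φs, LinearMap.restrict_apply] using h2
  -- equivariance of ψ
  have hψeq : ∀ (γ : G) (X : M2), X.trace = 0 →
      psi φ ((ρ₁ γ).val * X * ((ρ₁ γ)⁻¹).val) = (ρ₂ γ).val * psi φ X * ((ρ₂ γ)⁻¹).val := by
    intro γ X hX
    have hb : ∀ A B : M2, A.trace = 0 → B.trace = 0 →
        psi φ ((ρ₁ γ).val * br A B * ((ρ₁ γ)⁻¹).val) =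
          (ρ₂ γ).val * psi φ (br A B) * ((ρ₂ γ)⁻¹).val := by
      intro A B hA hB
      rw [conj_br, psi_br φ _ _ (by rw [conj_trace]; exact hA) (by rw [conj_trace]; exact hB),
        psi_br φ _ _ hA hB, conj_br, heq γ A hA, heq γ B hB]
    have hd := br_gen X hX
    rw [hd]
    simp only [Matrix.mul_add, Matrix.mul_sub, Matrix.add_mul, Matrix.sub_mul, Matrix.mul_smul,
      Matrix.smul_mul, map_add, map_sub, map_smul]
    rw [hb E F trE trF, hb H E trH trE, hb H F trH trF]
  -- ψ = k φ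
  have hψk : ∀ X : M2, X.trace = 0 → psi φ X = k • φ X := by
    let N : Submodule ℂ M2 := sl ⊓ LinearMap.ker (psi φ - k • φ)
    have hN : ∀ X, X ∈ N ↔ X.trace = 0 ∧ psi φ X = k • φ X := by
      intro X
      simp only [N, Submodule.mem_inf, hsl, LinearMap.mem_ker, LinearMap.sub_apply,
        LinearMap.smul_apply, sub_eq_zero]
    intro X hX
    have h1 := hA G ρ₁ hB₁ N (fun X hX => ((hN X).1 hX).1) (fun γ X hX => by
      rw [hN] at hX ⊢
      refine ⟨by rw [conj_trace]; exact hX.1, ?_⟩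
      rw [hψeq γ X hX.1, heq γ X hX.1, hX.2]
      simp only [Matrix.mul_smul, Matrix.smul_mul]) (by
      intro hbot
      have : Z₀.1 ∈ N := (hN _).2 ⟨(hsl _).1 Z₀.2, hZ₀'⟩
      rw [hbot, Submodule.mem_bot] at this
      exact hZ₀.2 (Subtype.ext this)) X hX
    exact ((hN X).1 h1).2
  have hbrk : ∀ X Y : M2, X.trace = 0 → Y.trace = 0 →
      φ X * φ Y - φ Y * φ X = k • φ (X * Y - Y * X) := by
    intro X Y hX hY
    have h1 := psi_br φ X Y hX hY
    rw [hψk _ (br_trace X Y)] at h1
    exact h1.symm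
  have hk0 : k ≠ 0 := by
    rintro rfl
    obtain ⟨x, hx⟩ := hφs_surj ⟨E, (hsl _).2 trE⟩
    obtain ⟨y, hy⟩ := hφs_surj ⟨F, (hsl _).2 trF⟩
    have hx' : φ x.1 = E := by
      have := congrArg Subtype.val hx
      simpa [φs, LinearMap.restrict_apply] using this
    have hy' : φ y.1 = F := by
      have := congrArg Subtype.val hy
      simpa [φs, LinearMap.restrict_apply] using this
    have h1 := hbrk x.1 y.1 ((hsl _).1 x.2) ((hsl _).1 y.2)
    rw [hx', hy', zero_smul] at h1
    have h2 := congrFun (congrFun h1 0) 0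
    simp [E, F, Matrix.mul_apply, Fin.sum_univ_two] at h2
  obtain ⟨P, c, hc, hPc⟩ := hP φ k hk0 htr' hinj hbrk
  -- P intertwines up to sign
  have hPP : (P⁻¹).val * P.val = 1 := by rw [← Units.val_mul]; simp
  have hPP' : P.val * (P⁻¹).val = 1 := by rw [← Units.val_mul]; simp
  have hfin : ∀ γ : G, ∃ t : ℂ, (ρ₂ γ).val * P.val * ((ρ₁ γ)⁻¹).val = t • P.val := by
    intro γ
    set a : M2 := (ρ₁ γ).val with ha
    set a' : M2 := ((ρ₁ γ)⁻¹).val with ha'
    set b : M2 := (ρ₂ γ).val with hb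
    set b' : M2 := ((ρ₂ γ)⁻¹).val with hb'
    have haa : a * a' = 1 := by rw [ha, ha', ← Units.val_mul]; simp
    have haa2 : a' * a = 1 := by rw [ha, ha', ← Units.val_mul]; simp
    have hbb : b' * b = 1 := by rw [hb, hb', ← Units.val_mul]; simp
    have hbb2 : b * b' = 1 := by rw [hb, hb', ← Units.val_mul]; simp
    have h1 : ∀ X : M2, X.trace = 0 → P.val * (a * X * a') * (P⁻¹).val =
        b * (P.val * X * (P⁻¹).val) * b' := by
      intro X hX
      have h2 := heq γ X hX
      rw [hPc X hX, hPc _ (by rw [conj_trace]; exact hX)] at h2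
      simp only [Matrix.mul_smul, Matrix.smul_mul] at h2
      exact smul_right_injective _ hc h2
    -- S = P⁻¹ b' P a commutes with X
    have h3 : ∀ X : M2, X.trace = 0 → ((P⁻¹).val * b' * P.val * a) * X =
        X * ((P⁻¹).val * b' * P.val * a) := by
      intro X hX
      have h4 := h1 X hX
      calc ((P⁻¹).val * b' * P.val * a) * X
          = (P⁻¹).val * b' * (P.val * (a * X * a') * (P⁻¹).val) * P.val * a := by
            have : (P⁻¹).val * b' * (P.val * (a * X * a') * (P⁻¹).val) * P.val * a =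
              (P⁻¹).val * b' * P.val * a * X * (a' * (((P⁻¹).val * P.val) * a)) := by
              simp only [Matrix.mul_assoc]
            rw [this, hPP, Matrix.one_mul, haa2, Matrix.mul_one]
        _ = (P⁻¹).val * b' * (b * (P.val * X * (P⁻¹).val) * b') * P.val * a := by rw [h4]
        _ = X * ((P⁻¹).val * b' * P.val * a) := by
            have : (P⁻¹).val * b' * (b * (P.val * X * (P⁻¹).val) * b') * P.val * a =
              (P⁻¹).val * ((b' * b) * (P.val * (X * ((P⁻¹).val * b' * P.val * a)))) := by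
              simp only [Matrix.mul_assoc]
            rw [this, hbb, Matrix.one_mul, ← Matrix.mul_assoc, hPP, Matrix.one_mul]
    have h5 := scalar_of_comm _ (h3 E trE) (h3 F trF)
    set s := ((P⁻¹).val * b' * P.val * a) 0 0 with hs
    -- b * P * a' = s⁻¹ P ; i.e. P = s (b P a')
    have h6 : P.val = s • (b * P.val * a') := by
      calc P.val = b * P.val * ((P⁻¹).val * b' * P.val * a) * a' := by
            have : b * P.val * ((P⁻¹).val * b' * P.val * a) * a' =
              b * ((P.val * (P⁻¹).val) * (b' * (P.val * (a * a')))) := by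
              simp only [Matrix.mul_assoc]
            rw [this, hPP', haa, Matrix.one_mul, Matrix.mul_one, ← Matrix.mul_assoc, hbb2,
              Matrix.one_mul]
        _ = s • (b * P.val * a') := by
            rw [h5]
            simp only [Matrix.mul_smul, Matrix.smul_mul, Matrix.mul_one]
    have hP0 : P.val ≠ 0 := by
      intro h0
      rw [h0, Matrix.mul_zero] at hPP
      exact zero_ne_one hPP
    have hs0 : s ≠ 0 := by
      intro h0
      rw [h0, zero_smul] at h6
      exact hP0 h6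
    refine ⟨s⁻¹, ?_⟩
    calc b * P.val * a' = s⁻¹ • (s • (b * P.val * a')) := by
          rw [smul_smul, inv_mul_cancel₀ hs0, one_smul]
      _ = s⁻¹ • P.val := by rw [← h6]
  have hP0 : P.val ≠ 0 := by
    intro h0
    rw [h0, Matrix.mul_zero] at hPP
    exact zero_ne_one hPP
  obtain ⟨γ, hγ⟩ := hdis P.val hP0
  obtain ⟨t, ht⟩ := hfin γ
  exact hγ t ht

end Pool.Agent.DRB
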