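import Pool.Agent.DRB.Stmts

/-!
# DRB, module ADJ: conjugation, brackets and linearity of the Lie algebra action
-/

set_option autoImplicit false

open Matrix
open scoped BigOperators

namespace Pool.Agent.DRB

namespace ADJX

variable {ι : Type} [Fintype ι] [DecidableEq ι] {n : ℕ}

/-- the action on one slot -/
def Sl (s : Fin n) (X : Matrix ι ι ℂ) (u : (Fin n → ι) → ℂ) (J : Fin n → ι) : ℂ :=
  ∑ j, X (J s) j * u (Function.update J s j)

theorem Sl_add (s : Fin n) (X : Matrix ι ι ℂ) (u v : (Fin n → ι) → ℂ) (J : Fin n → ι) :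
    Sl s X (fun K => u K + v K) J = Sl s X u J + Sl s X v J := by
  simp only [Sl, mul_add, Finset.sum_add_distrib]

theorem Sl_smul (s : Fin n) (X : Matrix ι ι ℂ) (c : ℂ) (u : (Fin n → ι) → ℂ)
    (J : Fin n → ι) : Sl s X (fun K => c * u K) J = c * Sl s X u J := by
  simp only [Sl, Finset.mul_sum]
  exact Finset.sum_congr rfl fun j _ => by ring

theorem Sl_sum {κ : Type} (T : Finset κ) (s : Fin n) (X : Matrix ι ι ℂ)
    (u : κ → (Fin n → ι) → ℂ) (J : Fin n → ι) :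
    Sl s X (fun K => ∑ c ∈ T, u c K) J = ∑ c ∈ T, Sl s X (u c) J := by
  simp only [Sl, Finset.mul_sum]
  rw [Finset.sum_comm]

theorem Sl_same (s : Fin n) (X Y : Matrix ι ι ℂ) (u : (Fin n → ι) → ℂ) (J : Fin n → ι) :
    Sl s X (Sl s Y u) J = Sl s (X * Y) u J := by
  simp only [Sl, Matrix.mul_apply, Function.update_self, Function.update_idem, Finset.mul_sum,
    Finset.sum_mul]
  rw [Finset.sum_comm]
  exact Finset.sum_congr rfl fun i _ => Finset.sum_congr rfl fun j _ => by ring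

theorem Sl_comm {s s' : Fin n} (h : s ≠ s') (X Y : Matrix ι ι ℂ) (u : (Fin n → ι) → ℂ)
    (J : Fin n → ι) : Sl s X (Sl s' Y u) J = Sl s' Y (Sl s X u) J := by
  simp only [Sl, Finset.mul_sum, Function.update_of_ne h.symm, Function.update_of_ne h]
  rw [Finset.sum_comm]
  refine Finset.sum_congr rfl fun i _ => Finset.sum_congr rfl fun j _ => ?_
  rw [Function.update_comm h]
  ring

theorem Sl_sub_mat (s : Fin n) (X Y : Matrix ι ι ℂ) (u : (Fin n → ι) → ℂ) (J : Fin n → ι) :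
    Sl s (X - Y) u J = Sl s X u J - Sl s Y u J := by
  simp only [Sl, Matrix.sub_apply, sub_mul, Finset.sum_sub_distrib]

theorem DAct_eq (t : TData) (X : Matrix ι ι ℂ) (μ : ℂ) (u : TIdx t ι → ℂ) (r : Fin t.n)
    (J : Fin (t.a r) → ι) : DAct t X μ u ⟨r, J⟩ = (t.k r : ℂ) * μ * u ⟨r, J⟩ +
      ∑ s, Sl s X (fun K => u ⟨r, K⟩) J := rfl

theorem comp_eq (t : TData) (X Y : Matrix ι ι ℂ) (μ μ' : ℂ) (u : TIdx t ι → ℂ) (r : Fin t.n)
    (J : Fin (t.a r) → ι) : DAct t X μ (DAct t Y μ' u) ⟨r, J⟩ =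
      (t.k r : ℂ) * μ * ((t.k r : ℂ) * μ' * u ⟨r, J⟩ + ∑ s, Sl s Y (fun K => u ⟨r, K⟩) J) +
      (t.k r : ℂ) * μ' * (∑ s, Sl s X (fun K => u ⟨r, K⟩) J) +
      ∑ s, ∑ s', Sl s X (Sl s' Y (fun K => u ⟨r, K⟩)) J := by
  rw [DAct_eq, DAct_eq]
  have h : ∀ s, Sl s X (fun K => DAct t Y μ' u ⟨r, K⟩) J =
      (t.k r : ℂ) * μ' * Sl s X (fun K => u ⟨r, K⟩) J +
      ∑ s', Sl s X (Sl s' Y (fun K => u ⟨r, K⟩)) J := by
    intro s
    simp only [DAct_eq]
    rw [Sl_add, Sl_smul, Sl_sum]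
  rw [Finset.sum_congr rfl fun s _ => h s, Finset.sum_add_distrib, Finset.mul_sum]
  ring

theorem bracket (t : TData) (X Y : Matrix ι ι ℂ) (μ μ' : ℂ) (u : TIdx t ι → ℂ) (r : Fin t.n)
    (J : Fin (t.a r) → ι) : DAct t X μ (DAct t Y μ' u) ⟨r, J⟩ -
      DAct t Y μ' (DAct t X μ u) ⟨r, J⟩ = DAct t (X * Y - Y * X) 0 u ⟨r, J⟩ := by
  rw [comp_eq, comp_eq, DAct_eq]
  have h : ∑ s, ∑ s', Sl s X (Sl s' Y (fun K => u ⟨r, K⟩)) J -
      ∑ s, ∑ s', Sl s Y (Sl s' X (fun K => u ⟨r, K⟩)) J =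
      ∑ s, Sl s (X * Y - Y * X) (fun K => u ⟨r, K⟩) J := by
    have h1 : ∑ s, ∑ s', Sl s Y (Sl s' X (fun K => u ⟨r, K⟩)) J =
        ∑ s, ∑ s', Sl s' Y (Sl s X (fun K => u ⟨r, K⟩)) J := Finset.sum_comm
    rw [h1, ← Finset.sum_sub_distrib]
    refine Finset.sum_congr rfl fun s _ => ?_
    rw [← Finset.sum_sub_distrib, Finset.sum_eq_single s]
    · rw [Sl_same, Sl_same, Sl_sub_mat]
    · intro s' _ hs'
      rw [Sl_comm (Ne.symm hs'), sub_self]
    · intro hs
      exact absurd (Finset.mem_univ s) hs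
  rw [← h]
  ring

/-- change of variables in one slot -/
theorem slot_sum (s : Fin n) (F : (Fin n → ι) → ι → ℂ) :
    ∑ J, ∑ j, F J j = ∑ K, ∑ i, F (Function.update K s i) (K s) := by
  have hinv : Function.Involutive (fun p : (Fin n → ι) × ι =>
      ((Function.update p.1 s p.2, p.1 s) : (Fin n → ι) × ι)) := by
    rintro ⟨J, j⟩
    simp
  have h := Equiv.sum_comp (hinv.toPerm) (fun p : (Fin n → ι) × ι => F p.1 p.2)
  rw [Fintype.sum_prod_type, Fintype.sum_prod_type] at h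
  exact h.symm

/-- the product over the slots -/
theorem prod_update (s : Fin n) (x : Matrix ι ι ℂ) (J K : Fin n → ι) (i : ι) :
    (∏ s', x (J s') (Function.update K s i s')) =
      (∏ s' ∈ Finset.univ.erase s, x (J s') (K s')) * x (J s) i := by
  rw [← Finset.mul_prod_erase Finset.univ _ (Finset.mem_univ s), Function.update_self, mul_comm]
  congr 1
  refine Finset.prod_congr rfl fun s' hs' => ?_
  rw [Function.update_of_ne (Finset.ne_of_mem_erase hs')]

theorem prod_update' (s : Fin n) (x : Matrix ι ι ℂ) (J K : Fin n → ι) (i : ι) :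
    (∏ s', x (Function.update J s i s') (K s')) =
      (∏ s' ∈ Finset.univ.erase s, x (J s') (K s')) * x i (K s) := by
  rw [← Finset.mul_prod_erase Finset.univ _ (Finset.mem_univ s), Function.update_self, mul_comm]
  congr 1
  refine Finset.prod_congr rfl fun s' hs' => ?_
  rw [Function.update_of_ne (Finset.ne_of_mem_erase hs')]

/-- intertwining in one slot -/
theorem slot_conj (s : Fin n) (x X Y : Matrix ι ι ℂ) (h : Y * x = x * X)
    (u : (Fin n → ι) → ℂ) (J : Fin n → ι) :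
    ∑ K, (∏ s', x (J s') (K s')) * Sl s X u K =
      Sl s Y (fun L => ∑ K, (∏ s', x (L s') (K s')) * u K) J := by
  have h1 : ∑ K, (∏ s', x (J s') (K s')) * Sl s X u K =
      ∑ K, ∑ i, (∏ s' ∈ Finset.univ.erase s, x (J s') (K s')) * x (J s) i * X i (K s) * u K := by
    simp only [Sl, Finset.mul_sum]
    rw [slot_sum s]
    refine Finset.sum_congr rfl fun K _ => Finset.sum_congr rfl fun i _ => ?_
    rw [prod_update, Function.update_self, Function.update_idem, Function.update_eq_self]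
    ring
  have h2 : Sl s Y (fun L => ∑ K, (∏ s', x (L s') (K s')) * u K) J =
      ∑ K, ∑ j, (∏ s' ∈ Finset.univ.erase s, x (J s') (K s')) * Y (J s) j * x j (K s) * u K := by
    simp only [Sl, Finset.mul_sum]
    rw [Finset.sum_comm]
    refine Finset.sum_congr rfl fun K _ => Finset.sum_congr rfl fun j _ => ?_
    rw [prod_update']
    ring
  rw [h1, h2]
  refine Finset.sum_congr rfl fun K _ => ?_
  have h3 : ∑ i, x (J s) i * X i (K s) = ∑ j, Y (J s) j * x j (K s) := by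
    have := congrFun (congrFun h (J s)) (K s)
    rw [Matrix.mul_apply, Matrix.mul_apply] at this
    exact this.symm
  have h4 : ∑ i, (∏ s' ∈ Finset.univ.erase s, x (J s') (K s')) * x (J s) i * X i (K s) * u K =
      (∏ s' ∈ Finset.univ.erase s, x (J s') (K s')) * (∑ i, x (J s) i * X i (K s)) * u K := by
    rw [Finset.mul_sum, Finset.sum_mul]
    exact Finset.sum_congr rfl fun i _ => by ring
  have h5 : ∑ i, (∏ s' ∈ Finset.univ.erase s, x (J s') (K s')) * Y (J s) i * x i (K s) * u K =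
      (∏ s' ∈ Finset.univ.erase s, x (J s') (K s')) * (∑ i, Y (J s) i * x i (K s)) * u K := by
    rw [Finset.mul_sum, Finset.sum_mul]
    exact Finset.sum_congr rfl fun i _ => by ring
  rw [h4, h5, h3]

theorem conj (t : TData) (x X Y : Matrix ι ι ℂ) (h : Y * x = x * X) (ν μ : ℂ)
    (u : TIdx t ι → ℂ) (r : Fin t.n) (J : Fin (t.a r) → ι) :
    TAct t x ν (DAct t X μ u) ⟨r, J⟩ = DAct t Y μ (TAct t x ν u) ⟨r, J⟩ := by
  rw [TAct_apply, DAct_eq]
  simp only [TAct_apply, DAct_eq]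
  have h1 : ∑ K : Fin (t.a r) → ι, (∏ s, x (J s) (K s)) *
      ((t.k r : ℂ) * μ * u ⟨r, K⟩ + ∑ s, Sl s X (fun K => u ⟨r, K⟩) K) =
      (t.k r : ℂ) * μ * ∑ K : Fin (t.a r) → ι, (∏ s, x (J s) (K s)) * u ⟨r, K⟩ +
      ∑ s, ∑ K : Fin (t.a r) → ι, (∏ s, x (J s) (K s)) * Sl s X (fun K => u ⟨r, K⟩) K := by
    rw [Finset.sum_comm, Finset.mul_sum, ← Finset.sum_add_distrib]
    refine Finset.sum_congr rfl fun K _ => ?_
    rw [mul_add, Finset.mul_sum]
    ring
  rw [h1, mul_add]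
  have h2 : ∀ s : Fin (t.a r), ∑ K : Fin (t.a r) → ι,
      (∏ s, x (J s) (K s)) * Sl s X (fun K => u ⟨r, K⟩) K =
      Sl s Y (fun L => ∑ K : Fin (t.a r) → ι, (∏ s', x (L s') (K s')) * u ⟨r, K⟩) J :=
    fun s => slot_conj s x X Y h (fun K => u ⟨r, K⟩) J
  rw [Finset.sum_congr rfl fun s _ => h2 s]
  have h3 : ∀ s : Fin (t.a r), Sl s Y (fun K => ν ^ t.k r * ∑ J : Fin (t.a r) → ι,
      (∏ s, x (K s) (J s)) * u ⟨r, J⟩) J = ν ^ t.k r *
      Sl s Y (fun K => ∑ J : Fin (t.a r) → ι, (∏ s, x (K s) (J s)) * u ⟨r, J⟩) J :=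
    fun s => Sl_smul s Y _ _ J
  rw [Finset.sum_congr rfl fun s _ => h3 s, ← Finset.mul_sum]
  ring

end ADJX

open ADJX in
theorem adj_proof : Stmt_Adj := by
  intro ι _ _ t
  refine ⟨?_, ?_, ?_⟩
  · intro x X ν μ
    refine LinearMap.ext fun u => ?_
    funext p
    obtain ⟨r, J⟩ := p
    apply conj
    have h : (x⁻¹).val * x.val = 1 := x.inv_mul
    rw [Matrix.mul_assoc, h, Matrix.mul_one]
  · intro X Y μ μ'
    refine LinearMap.ext fun u => ?_
    funext p
    obtain ⟨r, J⟩ := p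
    exact bracket t X Y μ μ' u r J
  · intro X Y μ μ' a
    refine LinearMap.ext fun u => ?_
    funext p
    obtain ⟨r, J⟩ := p
    change DAct t (X + a • Y) (μ + a * μ') u ⟨r, J⟩ = DAct t X μ u ⟨r, J⟩ +
      a * DAct t Y μ' u ⟨r, J⟩
    rw [DAct_eq, DAct_eq, DAct_eq]
    have h : ∀ s : Fin (t.a r), Sl s (X + a • Y) (fun K => u ⟨r, K⟩) J =
        Sl s X (fun K => u ⟨r, K⟩) J + a * Sl s Y (fun K => u ⟨r, K⟩) J := by
      intro s
      simp only [Sl, Matrix.add_apply, Matrix.smul_apply, smul_eq_mul, Finset.mul_sum]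
      rw [← Finset.sum_add_distrib]
      exact Finset.sum_congr rfl fun j _ => by ring
    rw [Finset.sum_congr rfl fun s _ => h s, Finset.sum_add_distrib, ← Finset.mul_sum]
    ring

end Pool.Agent.DRB
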