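import Pool.Agent.DRB.Stmts

/-!
# De Rham-Betti squad, module CEN: the central part
-/

open scoped BigOperators
open Matrix

namespace Pool.Agent.DRB

noncomputable section

namespace CenX

/-- The rational multiplicative relations (up to torsion) between the `z k`. -/
def W {κ : Type} [Fintype κ] (z : κ → ℂˣ) : Submodule ℚ (κ → ℚ) where
  carrier := {x | ∃ (D : ℕ) (n : κ → ℤ), 1 ≤ D ∧ (∀ k, (D : ℚ) * x k = n k) ∧
    ∃ N : ℕ, 1 ≤ N ∧ (∏ k, z k ^ n k) ^ N = 1}
  add_mem' := by
    rintro x x' ⟨D, n, hD, hx, N, hN, hz⟩ ⟨D', n', hD', hx', N', hN', hz'⟩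
    refine ⟨D * D', fun k => D' * n k + D * n' k, Nat.mul_pos hD hD', fun k => ?_, N * N',
      Nat.mul_pos hN hN', ?_⟩
    · push_cast
      rw [Pi.add_apply]
      linear_combination (D' : ℚ) * hx k + (D : ℚ) * hx' k
    · have h1 : (∏ k, z k ^ ((D' : ℤ) * n k + D * n' k)) =
          (∏ k, z k ^ n k) ^ D' * (∏ k, z k ^ n' k) ^ D := by
        rw [← Finset.prod_pow, ← Finset.prod_pow, ← Finset.prod_mul_distrib]
        refine Finset.prod_congr rfl fun k _ => ?_
        rw [_root_.zpow_add, mul_comm (D' : ℤ), mul_comm (D : ℤ), _root_.zpow_mul, _root_.zpow_mul, _root_.zpow_natCast,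
          _root_.zpow_natCast]
      rw [h1, mul_pow, ← pow_mul, ← pow_mul, show D' * (N * N') = N * (D' * N') by ring, pow_mul, hz,
        one_pow, show D * (N * N') = N' * (D * N) by ring, pow_mul, hz', one_pow, one_mul]
  zero_mem' := ⟨1, 0, le_rfl, by simp, 1, le_rfl, by simp⟩
  smul_mem' := by
    rintro q x ⟨D, n, hD, hx, N, hN, hz⟩
    refine ⟨q.den * D, fun k => q.num * n k, Nat.mul_pos q.den_pos hD, fun k => ?_, N, hN, ?_⟩
    · rw [Pi.smul_apply, smul_eq_mul]
      push_cast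
      have h2 := Rat.den_mul_eq_num q
      linear_combination ((D : ℚ) * x k) * h2 + (q.num : ℚ) * hx k
    · have h1 : ∏ k, z k ^ (q.num * n k) = (∏ k, z k ^ n k) ^ q.num := by
        rw [← Finset.prod_zpow]
        refine Finset.prod_congr rfl fun k _ => ?_
        rw [mul_comm, _root_.zpow_mul]
      rw [h1, ← _root_.zpow_natCast, ← _root_.zpow_mul, mul_comm, _root_.zpow_mul, _root_.zpow_natCast, hz, _root_.one_zpow]

/-- Consequence of `Stmt_Homx`, for arbitrary finite index sets. -/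
theorem homx_W (hH : Stmt_Homx) {κ : Type} [Fintype κ] (z : κ → ℂˣ) (c : κ → ℂ)
    (hL : ∀ L : Additive ℂˣ →+ ℂ, ∑ k, c k * L (Additive.ofMul (z k)) = 0)
    (φ : ℂ →ₗ[ℚ] ℚ) : (fun k => φ (c k)) ∈ W z := by
  classical
  let e : Fin (Fintype.card κ) ≃ κ := (Fintype.equivFin κ).symm
  have h1 := hH (Fintype.card κ) (fun j => z (e j)) (fun j => c (e j)) (by
    intro L
    rw [← hL L]
    exact Equiv.sum_comp e (fun k => c k * L (Additive.ofMul (z k))))
  have h2 : ∀ v : Fin (Fintype.card κ) → ℂ,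
      v ∈ Submodule.span ℂ {v : Fin (Fintype.card κ) → ℂ | ∃ n : Fin (Fintype.card κ) → ℤ,
        (∀ j, v j = n j) ∧ ∃ N : ℕ, 1 ≤ N ∧ (∏ j, z (e j) ^ n j) ^ N = 1} →
      ∀ φ : ℂ →ₗ[ℚ] ℚ, (fun k => φ (v (e.symm k))) ∈ W z := by
    intro v hv
    induction hv using Submodule.span_induction with
    | mem v hv =>
      obtain ⟨n, hn, N, hN, hz⟩ := hv
      intro φ
      have h3 : (fun k => φ (v (e.symm k))) = (φ 1) • (fun k => ((n (e.symm k) : ℤ) : ℚ)) := by
        funext k
        rw [Pi.smul_apply, hn, smul_eq_mul]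
        have h4 : ((n (e.symm k) : ℤ) : ℂ) = ((n (e.symm k) : ℤ) : ℚ) • (1 : ℂ) := by
          rw [Rat.smul_def, mul_one]
          push_cast
          rfl
        rw [h4, map_smul, smul_eq_mul, mul_comm]
      rw [h3]
      refine (W z).smul_mem _ ⟨1, fun k => n (e.symm k), le_rfl, fun k => by simp, N, hN, ?_⟩
      rw [← hz]
      congr 1
      rw [← Equiv.prod_comp e]
      simp
    | zero =>
      intro φ
      simp only [Pi.zero_apply, map_zero]
      exact (W z).zero_mem
    | add v w _ _ hv hw =>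
      intro φ
      have h3 : (fun k => φ ((v + w) (e.symm k))) =
          (fun k => φ (v (e.symm k))) + (fun k => φ (w (e.symm k))) := by
        funext k
        simp
      rw [h3]
      exact (W z).add_mem (hv φ) (hw φ)
    | smul a v _ hv =>
      intro φ
      exact hv (φ.comp (LinearMap.mulLeft ℚ a))
  have h5 := h2 _ h1 φ
  simpa using h5

theorem func_apply {C : Type} [Fintype C] [DecidableEq C] (f : ((C → ℂ) × ℂ) →ₗ[ℂ] ℂ)
    (y : C → ℂ) (μ : ℂ) :
    f (y, μ) = ∑ i, f (Pi.single i 1, 0) * y i + f (0, 1) * μ := by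
  have h : ((y, μ) : (C → ℂ) × ℂ) =
      ∑ i, y i • ((Pi.single i 1, 0) : (C → ℂ) × ℂ) + μ • ((0, 1) : (C → ℂ) × ℂ) := by
    refine Prod.ext ?_ ?_
    · funext i
      simp [Prod.fst_sum, Finset.sum_apply, Pi.single_apply]
    · simp [Prod.snd_sum]
  rw [h, map_add, map_sum]
  simp only [map_smul, smul_eq_mul, mul_comm]

/-- Common denominators. -/
theorem common_den {κ : Type} [Fintype κ] (x : κ → ℚ) :
    ∃ (D : ℕ) (n : κ → ℤ), 1 ≤ D ∧ ∀ k, (D : ℚ) * x k = n k := by
  classical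
  have h1 : ∀ k, ∃ c : ℕ, (∏ k, (x k).den) = (x k).den * c := fun k =>
    Finset.dvd_prod_of_mem (fun k => (x k).den) (Finset.mem_univ k)
  choose c hc using h1
  refine ⟨∏ k, (x k).den, fun k => (x k).num * c k,
    Nat.pos_of_ne_zero (Finset.prod_ne_zero_iff.mpr fun k _ => (x k).den_nz), fun k => ?_⟩
  have h3 := Rat.den_mul_eq_num (x k)
  rw [hc k]
  push_cast
  linear_combination (c k : ℚ) * h3

/-- The relation for integral vectors. -/
theorem rel_of_mem {κ : Type} [Fintype κ] (z : κ → ℂˣ) (x : κ → ℚ) (hx : x ∈ W z) (D : ℕ)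
    (n : κ → ℤ) (hD : 1 ≤ D) (hn : ∀ k, (D : ℚ) * x k = n k) :
    ∃ N : ℕ, 1 ≤ N ∧ (∏ k, z k ^ n k) ^ N = 1 := by
  obtain ⟨D', n', hD', hn', N, hN, hz⟩ := hx
  refine ⟨D' * N, Nat.mul_pos hD' hN, ?_⟩
  have h1 : (∏ k, z k ^ n k) ^ D' = (∏ k, z k ^ n' k) ^ D := by
    rw [← Finset.prod_pow, ← Finset.prod_pow]
    refine Finset.prod_congr rfl fun k _ => ?_
    rw [← _root_.zpow_natCast, ← _root_.zpow_mul, ← _root_.zpow_natCast, ← _root_.zpow_mul]
    congr 1
    have h2 : ((n k * D' : ℤ) : ℚ) = ((n' k * D : ℤ) : ℚ) := by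
      push_cast
      rw [← hn k, ← hn' k]
      ring
    exact_mod_cast h2
  rw [pow_mul, h1, ← pow_mul, mul_comm, pow_mul, hz, one_pow]

end CenX

open CenX in
theorem cen_proof (hHomx : Stmt_Homx) : Stmt_Cen := by
  intro R C _ _ _ _ c Γ hB Z hZ y μ hy
  by_contra hmem
  obtain ⟨f, hf, hfZ⟩ := Submodule.exists_le_ker_of_notMem hmem
  set a : C → ℂ := fun i => f (Pi.single i 1, 0) with ha
  set a0 : ℂ := f (0, 1) with ha0
  have key : ∀ φ : ℂ →ₗ[ℚ] ℚ, (∀ i, φ (a (c i)) = φ (a i)) ∧ 2 * φ a0 + ∑ i, φ (a i) = 0 := by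
    intro φ
    set x : Option C → ℚ := fun o => φ (Option.elim o a0 a) with hx
    obtain ⟨D, n, hD, hn⟩ := common_den x
    have hrel : ∀ γ ∈ Γ, ∃ N : ℕ, 1 ≤ N ∧
        ((∏ i, γ.2.1 i ^ n (some i)) * γ.2.2 ^ n none) ^ N = 1 := by
      intro γ hγ
      have h1 : x ∈ W (fun o : Option C => Option.elim o γ.2.2 γ.2.1) := by
        refine homx_W hHomx _ (fun o => Option.elim o a0 a) (fun L => ?_) φ
        rw [Fintype.sum_option]
        have h2 := hfZ (hZ γ hγ L)
        rw [LinearMap.mem_ker, func_apply] at h2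
        simp only [Option.elim_none, Option.elim_some]
        rw [add_comm]
        exact h2
      obtain ⟨N, hN, h3⟩ := rel_of_mem _ x h1 D n hD hn
      refine ⟨N, hN, ?_⟩
      rw [Fintype.prod_option] at h3
      simp only [Option.elim_none, Option.elim_some] at h3
      rw [mul_comm]
      exact h3
    obtain ⟨h4, h5⟩ := hB.h5 (fun i => n (some i)) (n none) hrel
    have hD0 : (D : ℚ) ≠ 0 := by
      have : D ≠ 0 := by omega
      exact_mod_cast this
    refine ⟨fun i => ?_, ?_⟩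
    · have h6 := hn (some (c i))
      have h7 := hn (some i)
      rw [h4 i, ← h7] at h6
      exact mul_left_cancel₀ hD0 h6
    · have h8 : (D : ℚ) * (2 * φ a0 + ∑ i, φ (a i)) = ((2 * n none + ∑ i, n (some i) : ℤ) : ℚ) := by
        push_cast
        rw [← hn none, mul_add, Finset.mul_sum]
        have h9 : ∀ i, (D : ℚ) * φ (a i) = n (some i) := fun i => hn (some i)
        simp only [h9]
        rw [hx]
        simp only [Option.elim_none]
        ring
      rw [h5, Int.cast_zero] at h8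
      exact (mul_eq_zero.mp h8).resolve_left hD0
  have ha1 : ∀ i, a (c i) = a i := by
    intro i
    rw [← sub_eq_zero, ← Module.forall_dual_apply_eq_zero_iff ℚ]
    intro φ
    rw [map_sub, (key φ).1 i, sub_self]
  have ha2 : 2 * a0 + ∑ i, a i = 0 := by
    rw [← Module.forall_dual_apply_eq_zero_iff ℚ]
    intro φ
    rw [two_mul, map_add, map_add, map_sum, ← two_mul]
    exact (key φ).2
  apply hf
  rw [func_apply]
  have h10 : ∑ i, a i * y i = ∑ i, a i * y (c i) := by
    rw [← Equiv.sum_comp (Equiv.mk c c hB.inv hB.inv)]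
    refine Finset.sum_congr rfl fun i _ => ?_
    show a (c i) * y (c i) = a i * y (c i)
    rw [ha1]
  have h11 : ∑ i, a i * y i + ∑ i, a i * y (c i) = (∑ i, a i) * μ := by
    rw [← Finset.sum_add_distrib, Finset.sum_mul]
    refine Finset.sum_congr rfl fun i _ => ?_
    rw [← mul_add, hy i]
  have h12 : (2 : ℂ) * (∑ i, a i * y i + a0 * μ) = 0 := by
    rw [← h10] at h11
    linear_combination h11 + μ * ha2
  exact (mul_eq_zero.mp h12).resolve_left two_ne_zero

end

end Pool.Agent.DRB
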