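import Pool.Agent.DRB.Stmts

/-!
# Module EXP of squad DRB: exponentials in tensor spaces
-/

set_option autoImplicit false

open scoped BigOperators
open Matrix

namespace Pool.Agent.DRB

noncomputable section

namespace EXP

variable {ι : Type} [Fintype ι] [DecidableEq ι]

theorem hasDerivAt_prod (n : ℕ) (x : ℝ → Matrix ι ι ℂ) (X : Matrix ι ι ℂ) (s : ℝ)
    (hx : ∀ i j, HasDerivAt (fun r => x r i j) ((X * x s) i j) s) (P J : Fin n → ι) :
    HasDerivAt (fun r => ∏ i, x r (P i) (J i))
      (∑ i, ∑ j, X (P i) j * ∏ i', x s (Function.update P i j i') (J i')) s := by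
  have h := HasDerivAt.fun_finsetProd (u := (Finset.univ : Finset (Fin n)))
    (f := fun i r => x r (P i) (J i)) (f' := fun i => (X * x s) (P i) (J i))
    (x := s) (fun i _ => hx (P i) (J i))
  refine h.congr_deriv ?_
  refine Finset.sum_congr rfl fun i _ => ?_
  rw [smul_eq_mul, Matrix.mul_apply, Finset.mul_sum]
  refine Finset.sum_congr rfl fun j _ => ?_
  have h1 : ∏ i', x s (Function.update P i j i') (J i') =
      x s j (J i) * ∏ i' ∈ Finset.univ.erase i, x s (P i') (J i') := by
    rw [← Finset.mul_prod_erase Finset.univ _ (Finset.mem_univ i), Function.update_self]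
    congr 1
    refine Finset.prod_congr rfl fun i' hi' => ?_
    rw [Function.update_of_ne (Finset.ne_of_mem_erase hi')]
  rw [h1]
  ring

theorem hasDerivAt_TAct (t : TData) (x : ℝ → Matrix ι ι ℂ) (ν : ℝ → ℂ) (X : Matrix ι ι ℂ)
    (μ : ℂ) (s : ℝ) (hx : ∀ i j, HasDerivAt (fun r => x r i j) ((X * x s) i j) s)
    (hν : HasDerivAt ν (μ * ν s) s) (hν0 : ν s ≠ 0) (u : TIdx t ι → ℂ) :
    HasDerivAt (fun r => TAct t (x r) (ν r) u) (DAct t X μ (TAct t (x s) (ν s) u)) s := by
  rw [hasDerivAt_pi]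
  intro p
  have h1 : HasDerivAt (fun r => ν r ^ (t.k p.1)) ((t.k p.1 : ℂ) * μ * ν s ^ (t.k p.1)) s := by
    have h := (hasDerivAt_zpow (t.k p.1) (ν s) (Or.inl hν0)).scomp s hν
    refine h.congr_deriv ?_
    rw [smul_eq_mul, zpow_sub_one₀ hν0]
    field_simp
  have h2 : HasDerivAt (fun r => ∑ J : Fin (t.a p.1) → ι,
      (∏ i, x r (p.2 i) (J i)) * u ⟨p.1, J⟩)
      (∑ J : Fin (t.a p.1) → ι,
      (∑ i, ∑ j, X (p.2 i) j * ∏ i', x s (Function.update p.2 i j i') (J i')) * u ⟨p.1, J⟩) s := by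
    apply HasDerivAt.fun_sum
    intro J _
    exact (hasDerivAt_prod _ x X s hx p.2 J).mul_const _
  have h3 := h1.mul h2
  refine h3.congr_deriv ?_
  change _ = (t.k p.1 : ℂ) * μ * TAct t (x s) (ν s) u p +
    ∑ i : Fin (t.a p.1), ∑ j : ι, X (p.2 i) j *
      TAct t (x s) (ν s) u ⟨p.1, Function.update p.2 i j⟩
  simp only [TAct_apply]
  congr 1
  · ring
  · simp only [Finset.sum_mul, Finset.mul_sum]
    rw [Finset.sum_comm]
    refine Finset.sum_congr rfl fun i _ => ?_
    rw [Finset.sum_comm]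
    refine Finset.sum_congr rfl fun j _ => Finset.sum_congr rfl fun J _ => ?_
    ring

/-- Curves `T` with `T' = δ T` starting in a `δ`-stable subspace stay there. -/
theorem stay {κ : Type} [Fintype κ] (D : Submodule ℂ (κ → ℂ)) (δ : (κ → ℂ) →ₗ[ℂ] (κ → ℂ))
    (hδ : D.map δ ≤ D) (y : ℝ → (κ → ℂ)) (hy : ∀ s, HasDerivAt y (δ (y s)) s) (h0 : y 0 ∈ D)
    (s : ℝ) : y s ∈ D := by
  classical
  -- coordinates on the quotient
  let b := Module.finBasis ℂ ((κ → ℂ) ⧸ D)
  let π : (κ → ℂ) →ₗ[ℂ] (Fin (Module.finrank ℂ ((κ → ℂ) ⧸ D)) → ℂ) :=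
    b.equivFun.toLinearMap.comp D.mkQ
  have hker : ∀ v, π v = 0 ↔ v ∈ D := by
    intro v
    change b.equivFun (D.mkQ v) = 0 ↔ _
    rw [LinearEquiv.map_eq_zero_iff, Submodule.mkQ_apply, Submodule.Quotient.mk_eq_zero]
  have hle : D ≤ D.comap δ := fun v hv => hδ (Submodule.mem_map_of_mem hv)
  let δ' : (Fin (Module.finrank ℂ ((κ → ℂ) ⧸ D)) → ℂ) →ₗ[ℂ]
      (Fin (Module.finrank ℂ ((κ → ℂ) ⧸ D)) → ℂ) :=
    b.equivFun.toLinearMap.comp ((D.mapQ D δ hle).comp b.equivFun.symm.toLinearMap)
  have hcomm : ∀ v, π (δ v) = δ' (π v) := by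
    intro v
    change b.equivFun (D.mkQ (δ v)) =
      b.equivFun ((D.mapQ D δ hle) (b.equivFun.symm (b.equivFun (D.mkQ v))))
    rw [LinearEquiv.symm_apply_apply, Submodule.mkQ_apply, Submodule.mkQ_apply,
      Submodule.mapQ_apply]
  let πc : (κ → ℂ) →L[ℝ] (Fin (Module.finrank ℂ ((κ → ℂ) ⧸ D)) → ℂ) :=
    (LinearMap.toContinuousLinearMap π).restrictScalars ℝ
  let δc := LinearMap.toContinuousLinearMap δ'
  have hf : ∀ s, HasDerivAt (fun r => π (y r)) (δ' (π (y s))) s := by
    intro s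
    have h := πc.hasFDerivAt.comp_hasDerivAt s (hy s)
    refine h.congr_deriv ?_
    exact hcomm _
  have hg : ∀ s : ℝ, HasDerivAt (fun _ : ℝ => (0 : Fin (Module.finrank ℂ ((κ → ℂ) ⧸ D)) → ℂ))
      (δ' 0) s := by
    intro s
    rw [map_zero]
    exact hasDerivAt_const _ _
  have hu := ODE_solution_unique_univ (v := fun _ z => δ' z) (s := fun _ => Set.univ)
    (K := ‖δc‖₊) (f := fun r => π (y r)) (g := fun _ => 0) (t₀ := 0)
    (fun r => (δc.lipschitz).lipschitzOnWith) (fun r => ⟨hf r, Set.mem_univ _⟩)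
    (fun r => ⟨hg r, Set.mem_univ _⟩) ((hker _).2 h0)
  exact (hker _).1 (congrFun hu s)

end EXP

open EXP

theorem exp_proof : Stmt_Exp := by
  intro ι _ _ t D
  constructor
  · intro X hX hD w hw
    obtain ⟨v, hv, rfl⟩ := hw
    have h := stay D (DAct t X 0) hD (fun s => TAct t (1 + (s : ℂ) • X) 1 v) ?_ ?_ 1
    · simpa using h
    · intro s
      refine hasDerivAt_TAct t (fun s => 1 + (s : ℂ) • X) (fun _ => 1) X 0 s ?_ ?_ one_ne_zero v
      · intro i j
        have h1 : (X * (1 + (s : ℂ) • X)) i j = X i j := by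
          rw [Matrix.mul_add, Matrix.mul_smul, hX, Matrix.mul_one, smul_zero, add_zero]
        rw [h1]
        simp only [Matrix.add_apply, Matrix.smul_apply, smul_eq_mul]
        have h2 : HasDerivAt (fun r : ℝ => (r : ℂ) * X i j) (1 * X i j) s :=
          (Complex.ofRealCLM.hasDerivAt).mul_const _
        rw [one_mul] at h2
        exact h2.const_add _
      · rw [zero_mul]
        exact hasDerivAt_const _ _
    · have : TAct t (1 + ((0 : ℝ) : ℂ) • X) 1 v = v := by
        rw [Complex.ofReal_zero, zero_smul, add_zero, TAct_one]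
        rfl
      rw [this]
      exact hv
  · intro a μ hD w hw
    obtain ⟨v, hv, rfl⟩ := hw
    have h := stay D (DAct t (Matrix.diagonal a) μ) hD
      (fun s => TAct t (Matrix.diagonal fun i => Complex.exp ((s : ℂ) * a i))
        (Complex.exp ((s : ℂ) * μ)) v) ?_ ?_ 1
    · simpa using h
    · intro s
      refine hasDerivAt_TAct t (fun s => Matrix.diagonal fun i => Complex.exp ((s : ℂ) * a i))
        (fun s => Complex.exp ((s : ℂ) * μ)) (Matrix.diagonal a) μ s ?_ ?_
        (Complex.exp_ne_zero _) v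
      · intro i j
        have h1 : (Matrix.diagonal a * Matrix.diagonal fun i => Complex.exp ((s : ℂ) * a i)) i j
          = Matrix.diagonal (fun i => a i * Complex.exp ((s : ℂ) * a i)) i j := by
          rw [Matrix.diagonal_mul_diagonal]
        rw [h1]
        by_cases hij : i = j
        · subst hij
          simp only [Matrix.diagonal_apply_eq]
          have h2 : HasDerivAt (fun r : ℝ => (r : ℂ) * a i) (1 * a i) s :=
            (Complex.ofRealCLM.hasDerivAt).mul_const _
          have h3 := h2.cexp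
          refine h3.congr_deriv ?_
          ring
        · simp only [Matrix.diagonal_apply_ne _ hij]
          exact hasDerivAt_const _ _
      · have h2 : HasDerivAt (fun r : ℝ => (r : ℂ) * μ) (1 * μ) s :=
          (Complex.ofRealCLM.hasDerivAt).mul_const _
        have h3 := h2.cexp
        refine h3.congr_deriv ?_
        ring
    · have : TAct t (Matrix.diagonal fun i => Complex.exp (((0 : ℝ) : ℂ) * a i))
        (Complex.exp (((0 : ℝ) : ℂ) * μ)) v = v := by
        simp only [Complex.ofReal_zero, zero_mul, Complex.exp_zero, Matrix.diagonal_one]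
        rw [TAct_one]
        rfl
      rw [this]
      exact hv

end

end Pool.Agent.DRB
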