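import Pool.Agent.DRB.Stmts

/-!
# DRB, module EIG: decomposition of `H_1(A)` into eigenspaces of the endomorphism algebra
-/

open scoped BigOperators Topology
open Matrix

namespace Pool.Agent.DRB

noncomputable section

namespace EIGX

variable {g : ℕ}

/-- The action of an endomorphism on `H_1(A) ⊗ ℂ`, as an algebra homomorphism. -/
def act (A : AbVar g) : A.EndQ →ₐ[ℚ] Module.End ℂ (Idx g → ℂ) where
  toFun α := (AbVar.toC (α : Matrix (Idx g) (Idx g) ℚ)).mulVecLin
  map_one' := by
    refine LinearMap.ext fun v => ?_
    have h : AbVar.toC ((1 : A.EndQ) : Matrix (Idx g) (Idx g) ℚ) = 1 := by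
      ext i j
      simp only [AbVar.toC, OneMemClass.coe_one, Matrix.map_apply, Matrix.one_apply]
      split_ifs <;> simp
    rw [h]
    simp
  map_mul' α β := by
    refine LinearMap.ext fun v => ?_
    rw [MulMemClass.coe_mul, AbVar.toC_mul]
    simp [Module.End.mul_apply, Matrix.mulVec_mulVec]
  map_zero' := by
    refine LinearMap.ext fun v => ?_
    have h : AbVar.toC ((0 : A.EndQ) : Matrix (Idx g) (Idx g) ℚ) = 0 := by
      ext i j
      simp [AbVar.toC]
    rw [h]
    simp
  map_add' α β := by
    refine LinearMap.ext fun v => ?_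
    rw [AddMemClass.coe_add, AbVar.toC_add]
    simp [Matrix.add_mulVec]
  commutes' q := by
    refine LinearMap.ext fun v => ?_
    have h : AbVar.toC ((algebraMap ℚ A.EndQ q : A.EndQ) : Matrix (Idx g) (Idx g) ℚ) =
        (algebraMap ℚ ℂ q) • (1 : Matrix (Idx g) (Idx g) ℂ) := by
      ext i j
      have h1 : ((algebraMap ℚ A.EndQ q : A.EndQ) : Matrix (Idx g) (Idx g) ℚ) =
        algebraMap ℚ (Matrix (Idx g) (Idx g) ℚ) q := rfl
      rw [h1, AbVar.toC, Matrix.map_apply, Matrix.algebraMap_matrix_apply, Matrix.smul_apply,
        Matrix.one_apply]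
      split_ifs <;> simp
    rw [h]
    simp only [Matrix.mulVecLin_apply, Matrix.smul_mulVec, Matrix.one_mulVec]
    rw [Module.algebraMap_end_apply]
    funext k
    simp [Algebra.smul_def]

theorem act_apply (A : AbVar g) (α : A.EndQ) (v : Idx g → ℂ) :
    act A α v = (AbVar.toC (α : Matrix (Idx g) (Idx g) ℚ)) *ᵥ v := rfl

theorem semisimple (A : AbVar g) (hred : ∀ α ∈ A.EndQ, α * α = 0 → α = 0) (α : A.EndQ) :
    (act A α).IsSemisimple := by
  have hR : IsReduced A.EndQ := by
    rw [isReduced_iff_pow_one_lt 2 (by norm_num)]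
    intro x hx
    have h1 := hred x x.2 (by
      have := congrArg (fun y : A.EndQ => (y : Matrix (Idx g) (Idx g) ℚ)) hx
      simpa [pow_two] using this)
    exact Subtype.ext h1
  have hint : IsIntegral ℚ α := Algebra.IsIntegral.isIntegral α
  have hsq : Squarefree (minpoly ℚ α) :=
    (minpoly.isRadical ℚ α).squarefree (minpoly.ne_zero hint)
  have hsep : (minpoly ℚ α).Separable := PerfectField.separable_iff_squarefree.2 hsq
  refine Module.End.isSemisimple_of_squarefree_aeval_eq_zero
    (p := (minpoly ℚ α).map (algebraMap ℚ ℂ)) (hsep.map.squarefree) ?_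
  rw [Polynomial.aeval_map_algebraMap, Polynomial.aeval_algHom_apply, minpoly.aeval, map_zero]

end EIGX

open EIGX in
theorem eig_proof (hP : Stmt_Pos) : Stmt_Eig := by
  intro g A hA
  obtain ⟨_, hred, _⟩ := hP g A hA.comm
  have hcomm : ∀ α β : A.EndQ, Commute (act A α) (act A β) := by
    intro α β
    have : α * β = β * α := Subtype.ext (hA.comm α α.2 β β.2)
    unfold Commute SemiconjBy
    rw [← map_mul, this, map_mul]
  have hss := semisimple A hred
  have hmax : ∀ (α : A.EndQ) (μ : ℂ),
      (act A α).maxGenEigenspace μ = (act A α).eigenspace μ := fun α μ =>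
    (hss α).isFinitelySemisimple.maxGenEigenspace_eq_eigenspace μ
  have heig : ∀ χ : A.Chr, A.eig χ = ⨅ α, (act A α).maxGenEigenspace (χ α) := by
    intro χ
    ext v
    rw [Submodule.mem_iInf]
    constructor
    · intro hv α
      rw [hmax, Module.End.mem_eigenspace_iff]
      exact hv α
    · intro hv α
      have := hv α
      rw [hmax, Module.End.mem_eigenspace_iff] at this
      exact this
  constructor
  · have h1 := Module.End.independent_iInf_maxGenEigenspace_of_forall_mapsTo (act A)
      (fun i j φ => Module.End.mapsTo_maxGenEigenspace_of_comm (hcomm j i) φ)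
    have hinj : Function.Injective (fun (χ : A.Chr) (α : A.EndQ) => χ α) := by
      intro χ χ' h
      exact AlgHom.ext fun α => congrFun h α
    have h2 := h1.comp hinj
    have h3 : A.eig = (fun χ : A.EndQ → ℂ => ⨅ i, (act A i).maxGenEigenspace (χ i)) ∘
        (fun (χ : A.Chr) (α : A.EndQ) => χ α) := by
      funext χ
      exact heig χ
    rw [h3]
    exact h2
  · have h1 := Module.End.iSup_iInf_maxGenEigenspace_eq_top_of_iSup_maxGenEigenspace_eq_top_of_commute
      (act A) (fun i j _ => hcomm i j) (fun i => by
        exact Module.End.iSup_maxGenEigenspace_eq_top (act A i))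
    rw [eq_top_iff, ← h1]
    refine iSup_le fun χ' => ?_
    by_cases hbot : (⨅ i, (act A i).maxGenEigenspace (χ' i)) = ⊥
    · rw [hbot]
      exact bot_le
    obtain ⟨v, hv, hv0⟩ := Submodule.exists_mem_ne_zero_of_ne_bot hbot
    have hve : ∀ α, act A α v = χ' α • v := by
      intro α
      have := (Submodule.mem_iInf _).1 hv α
      rw [hmax, Module.End.mem_eigenspace_iff] at this
      exact this
    have hsc : ∀ a b : ℂ, a • v = b • v → a = b := fun a b h => smul_left_injective ℂ hv0 h
    let χ : A.Chr :=
      { toFun := χ'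
        map_one' := hsc _ _ (by rw [← hve, map_one, Module.End.one_apply, one_smul])
        map_mul' := fun α β => hsc _ _ (by
          rw [← hve, map_mul, Module.End.mul_apply, hve β, map_smul, hve α, smul_smul, mul_comm])
        map_zero' := hsc _ _ (by rw [← hve, map_zero, LinearMap.zero_apply, zero_smul])
        map_add' := fun α β => hsc _ _ (by
          rw [← hve, map_add, LinearMap.add_apply, hve, hve, add_smul])
        commutes' := fun q => hsc _ _ (by
          rw [← hve, AlgHom.commutes, Module.algebraMap_end_apply, algebraMap_smul]) }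
    have h2 : (⨅ i, (act A i).maxGenEigenspace (χ' i)) = A.eig χ := by
      rw [heig]
      rfl
    rw [h2]
    exact le_iSup A.eig χ

end

end Pool.Agent.DRB
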