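import Pool.Agent.DRB.Stmts

/-!
# Elements with a finite orbit are combinations of endomorphisms (module FIN)
-/

open scoped BigOperators
open Matrix

namespace Pool.Agent.DRB

namespace FinX

noncomputable section

variable {g : ℕ} (A : AbVar g)

/-- the orbit -/
def orb (X : Matrix (Idx g) (Idx g) ℂ) : Set (Matrix (Idx g) (Idx g) ℂ) :=
  {Y | ∃ p ∈ Gam A, Y = p.1.val * X * (p.1⁻¹).val}

theorem per_det : IsUnit A.per.det := A.nondeg

theorem exists_elt (τ : ℂ ≃ₐ[ℚ] ℂ) (hτ : τ ∈ GalA) :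
    ∃ p ∈ Gam A, p.1.val = A.per⁻¹ * A.per.map τ := by
  have h1 : IsUnit (A.per⁻¹ * A.per.map τ).det := by
    rw [Matrix.det_mul]
    refine IsUnit.mul ?_ ?_
    · exact (Matrix.isUnit_nonsing_inv_det_iff).2 (per_det A)
    · have : (A.per.map τ).det = τ A.per.det := by
        have := (RingHom.map_det (τ : ℂ →+* ℂ) A.per).symm
        simpa [RingHom.mapMatrix_apply] using this
      rw [this]
      exact (per_det A).map τ
  have h2 : τ tpi / tpi ≠ 0 := by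
    refine div_ne_zero ?_ tpi_ne_zero
    intro h
    exact tpi_ne_zero ((map_eq_zero τ).1 h)
  refine ⟨⟨Matrix.GeneralLinearGroup.mk'' _ h1, Units.mk0 _ h2⟩, ?_, rfl⟩
  refine Subgroup.subset_closure ⟨AlgEquiv.refl, τ, hτ, ?_, rfl⟩
  ext i j
  rfl

/-- the linear map from functions on pairs to matrices -/
def L : (Idx g × Idx g → ℂ) →ₗ[ℂ] Matrix (Idx g) (Idx g) ℂ where
  toFun v := Matrix.of fun i j => v (i, j)
  map_add' v w := by ext i j; rfl
  map_smul' c v := by ext i j; rfl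

/-- the space of elements with finite orbit -/
def Ys : Submodule ℂ (Idx g × Idx g → ℂ) where
  carrier := {v | (orb A (L v)).Finite}
  add_mem' := by
    intro v w hv hw
    refine Set.Finite.subset (Set.Finite.image2 (fun a b => a + b) hv hw) ?_
    rintro Y ⟨p, hp, rfl⟩
    refine ⟨_, ⟨p, hp, rfl⟩, _, ⟨p, hp, rfl⟩, ?_⟩
    rw [map_add, Matrix.mul_add, Matrix.add_mul]
  zero_mem' := by
    refine Set.Finite.subset (Set.finite_singleton 0) ?_
    rintro Y ⟨p, hp, rfl⟩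
    simp
  smul_mem' := by
    intro c v hv
    refine Set.Finite.subset (Set.Finite.image (fun a => c • a) hv) ?_
    rintro Y ⟨p, hp, rfl⟩
    refine ⟨_, ⟨p, hp, rfl⟩, ?_⟩
    simp only [map_smul, Matrix.mul_smul, Matrix.smul_mul]

theorem mem_Ys (v : Idx g × Idx g → ℂ) : v ∈ Ys A ↔ (orb A (L v)).Finite := Iff.rfl

theorem map_map_symm (σ : ℂ ≃ₐ[ℚ] ℂ) (X : Matrix (Idx g) (Idx g) ℂ) :
    (X.map σ.symm).map σ = X := by
  ext i j
  simp

theorem map_mul' (σ : ℂ ≃ₐ[ℚ] ℂ) (X Y : Matrix (Idx g) (Idx g) ℂ) :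
    (X * Y).map σ = X.map σ * Y.map σ := by
  ext i j
  simp [Matrix.mul_apply, map_sum]

theorem stable (hG4 : Stmt_Gb4) (σ : ℂ ≃ₐ[ℚ] ℂ) (v : Idx g × Idx g → ℂ) (hv : v ∈ Ys A) :
    (fun k => σ (v k)) ∈ Ys A := by
  rw [mem_Ys] at hv ⊢
  refine Set.Finite.subset (Set.Finite.image (fun Y => Y.map σ) hv) ?_
  rintro Y ⟨p, hp, rfl⟩
  let q1 : GL (Idx g) ℂ := Matrix.GeneralLinearGroup.map (σ.symm : ℂ →+* ℂ) p.1
  let q2 : ℂˣ := Units.map ((σ.symm : ℂ →+* ℂ) : ℂ →* ℂ) p.2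
  have hq : ((q1, q2) : GL (Idx g) ℂ × ℂˣ) ∈ Gam A := hG4 g A σ.symm p hp (q1, q2) rfl rfl
  refine ⟨_, ⟨(q1, q2), hq, rfl⟩, ?_⟩
  have h1 : q1.val.map σ = p.1.val := map_map_symm σ p.1.val
  have h2 : (q1⁻¹).val.map σ = (p.1⁻¹).val := by
    have : q1⁻¹ = Matrix.GeneralLinearGroup.map (σ.symm : ℂ →+* ℂ) (p.1⁻¹) := by
      simp [q1]
    rw [this]
    exact map_map_symm σ _
  have h3 : (L v).map σ = L (fun k => σ (v k)) := by
    ext i j; rfl
  show (q1.val * L v * (q1⁻¹).val).map σ = _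
  rw [map_mul', map_mul', h1, h2, h3]

theorem key (hT2 : Stmt_T2) (hA2 : Stmt_Aut2) (v : Idx g × Idx g → ℂ) (hv : v ∈ Ys A)
    (hq : ∀ k, ∃ q : ℚ, v k = q) : ∃ α ∈ A.EndQ, L v = AbVar.toC α := by
  choose q hq using hq
  let α : Matrix (Idx g) (Idx g) ℚ := Matrix.of fun i j => q (i, j)
  have hα : L v = AbVar.toC α := by
    ext i j
    show v (i, j) = _
    rw [hq]
    rfl
  refine ⟨α, ?_, hα⟩
  have hPP : A.per⁻¹ * A.per = 1 := Matrix.nonsing_inv_mul _ (per_det A)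
  have hPP' : A.per * A.per⁻¹ = 1 := Matrix.mul_nonsing_inv _ (per_det A)
  set ρ : Matrix (Idx g) (Idx g) ℂ := A.per * AbVar.toC α * A.per⁻¹ with hρ
  have h1 : A.per * AbVar.toC α = ρ * A.per := by
    rw [hρ, Matrix.mul_assoc, hPP, Matrix.mul_one]
  have halg : ∀ r s, IsAlgebraic ℚ (ρ r s) := by
    intro r s
    apply hA2
    refine Set.Finite.countable ?_
    refine Set.Finite.subset (Set.Finite.image
      (fun Y : Matrix (Idx g) (Idx g) ℂ => (A.per * Y * A.per⁻¹) r s) hv) ?_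
    rintro w ⟨τ, hτ, rfl⟩
    obtain ⟨p, hp, hpe⟩ := exists_elt A τ hτ
    refine ⟨_, ⟨p, hp, rfl⟩, ?_⟩
    have e1 : A.per.map τ = A.per * p.1.val := by
      rw [hpe, ← Matrix.mul_assoc, hPP', Matrix.one_mul]
    have e2 : (AbVar.toC α).map τ = AbVar.toC α := by
      ext i j
      simp [AbVar.toC]
    have e3 : (A.per⁻¹).map τ = (p.1⁻¹).val * A.per⁻¹ := by
      have e4 : (A.per⁻¹).map τ * (A.per * p.1.val) = 1 := by
        rw [← e1, ← map_mul', hPP]
        ext i j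
        by_cases hij : i = j
        · subst hij; simp
        · simp [Matrix.one_apply_ne hij]
      have e5 : p.1.val * (p.1⁻¹).val = 1 := by
        rw [← Units.val_mul]; simp
      calc (A.per⁻¹).map τ
          = ((A.per⁻¹).map τ * (A.per * p.1.val)) * ((p.1⁻¹).val * A.per⁻¹) := by
            have : ((A.per⁻¹).map τ * (A.per * p.1.val)) * ((p.1⁻¹).val * A.per⁻¹) =
              (A.per⁻¹).map τ * (A.per * ((p.1.val * (p.1⁻¹).val) * A.per⁻¹)) := by
              simp only [Matrix.mul_assoc]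
            rw [this, e5, Matrix.one_mul, hPP', Matrix.mul_one]
        _ = _ := by rw [e4, Matrix.one_mul]
    have e6 : ρ.map τ = A.per * (p.1.val * AbVar.toC α * (p.1⁻¹).val) * A.per⁻¹ := by
      rw [hρ, map_mul', map_mul', e1, e2, e3]
      simp only [Matrix.mul_assoc]
    have e7 := congrFun (congrFun e6 r) s
    rw [Matrix.map_apply] at e7
    rw [e7, hα]
  exact ⟨ρ, halg, hT2 g A α ρ halg h1, h1⟩

end

end FinX

open FinX in
theorem fin_proof (hT2 : Stmt_T2) (hA2 : Stmt_Aut2) (hD : Stmt_DescQ) (hG4 : Stmt_Gb4) :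
    Stmt_Fin := by
  intro g A X hX
  have hrat : RatSpan (Ys A) := hD (Idx g × Idx g) (Ys A) (fun σ v hv => stable A hG4 σ v hv)
  have hLX : L (fun k => X k.1 k.2) = X := by
    ext i j; rfl
  have hXY : (fun k : Idx g × Idx g => X k.1 k.2) ∈ Ys A := by
    rw [mem_Ys, hLX]
    exact hX
  have h1 := hrat hXY
  have h2 : X ∈ Submodule.map L (Submodule.span ℂ
      {v | v ∈ Ys A ∧ ∀ k, ∃ q : ℚ, v k = q}) := ⟨_, h1, hLX⟩
  rw [Submodule.map_span] at h2
  refine Submodule.span_mono ?_ h2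
  rintro _ ⟨v, ⟨hv, hq⟩, rfl⟩
  obtain ⟨α, hα, he⟩ := key A hT2 hA2 v hv hq
  exact ⟨α, hα, he⟩

end Pool.Agent.DRB
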