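import Pool.Agent.DRB.Stmts

/-!
# DRB, module GB1: the group `Γ` commutes with endomorphisms and consists of similitudes
-/

open scoped BigOperators Topology
open Matrix

namespace Pool.Agent.DRB

noncomputable section

namespace GB1X

variable {g : ℕ}

theorem map_mul' (σ : ℂ ≃ₐ[ℚ] ℂ) (x y : Matrix (Idx g) (Idx g) ℂ) :
    (x * y).map σ = x.map σ * y.map σ := by
  have := Matrix.map_mul (L := x) (M := y) (f := (σ : ℂ →+* ℂ))
  exact this

theorem map_smul' (σ : ℂ ≃ₐ[ℚ] ℂ) (c : ℂ) (x : Matrix (Idx g) (Idx g) ℂ) :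
    (c • x).map σ = σ c • x.map σ := by
  ext i j
  simp

theorem map_transpose' (σ : ℂ ≃ₐ[ℚ] ℂ) (x : Matrix (Idx g) (Idx g) ℂ) :
    xᵀ.map σ = (x.map σ)ᵀ := rfl

theorem toC_map (σ : ℂ ≃ₐ[ℚ] ℂ) (α : Matrix (Idx g) (Idx g) ℚ) :
    (AbVar.toC α).map σ = AbVar.toC α := by
  ext i j
  simp only [AbVar.toC, Matrix.map_apply]
  exact σ.commutes _

theorem alg_map {τ : ℂ ≃ₐ[ℚ] ℂ} (hτ : τ ∈ GalA) (ρ : Matrix (Idx g) (Idx g) ℂ)
    (h : ∀ r s, IsAlgebraic ℚ (ρ r s)) : ρ.map τ = ρ := by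
  ext i j
  exact hτ _ (h i j)

theorem int_map (σ : ℂ ≃ₐ[ℚ] ℂ) (ρ : Matrix (Idx g) (Idx g) ℂ)
    (h : ∀ r s, ∃ n : ℤ, ρ r s = n) : ρ.map σ = ρ := by
  ext i j
  obtain ⟨n, hn⟩ := h i j
  simp [hn]

theorem Jm_map (σ : ℂ ≃ₐ[ℚ] ℂ) : (Jm g).map σ = Jm g := by
  apply int_map
  intro i j
  unfold Jm
  rcases i with i | i <;> rcases j with j | j
  · exact ⟨0, by simp⟩
  · refine ⟨(1 : Matrix (Fin g) (Fin g) ℤ) i j, ?_⟩
    simp only [Matrix.fromBlocks_apply₁₂, Matrix.one_apply]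
    split_ifs <;> simp
  · refine ⟨(-1 : Matrix (Fin g) (Fin g) ℤ) i j, ?_⟩
    simp only [Matrix.fromBlocks_apply₂₁, Matrix.neg_apply, Matrix.one_apply]
    split_ifs <;> simp
  · exact ⟨0, by simp⟩

theorem per_isUnit (A : AbVar g) : IsUnit A.per.det := A.nondeg

theorem per_inv_mul (A : AbVar g) : A.per⁻¹ * A.per = 1 := Matrix.nonsing_inv_mul _ (per_isUnit A)

theorem per_mul_inv (A : AbVar g) : A.per * A.per⁻¹ = 1 := Matrix.mul_nonsing_inv _ (per_isUnit A)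

/-- The cocycle commutes with endomorphisms. -/
theorem coc_comm (A : AbVar g) {τ : ℂ ≃ₐ[ℚ] ℂ} (hτ : τ ∈ GalA) (α : Matrix (Idx g) (Idx g) ℚ)
    (hα : α ∈ A.EndQ) :
    (A.per⁻¹ * A.per.map τ) * AbVar.toC α = AbVar.toC α * (A.per⁻¹ * A.per.map τ) := by
  obtain ⟨ρ, h1, _, h3⟩ := hα
  have h4 : A.per.map τ * AbVar.toC α = ρ * A.per.map τ := by
    have := congrArg (fun M : Matrix (Idx g) (Idx g) ℂ => M.map τ) h3
    simp only [map_mul', toC_map, alg_map hτ ρ h1] at this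
    exact this
  have h5 : A.per⁻¹ * ρ = AbVar.toC α * A.per⁻¹ := by
    have h6 : A.per⁻¹ * (A.per * AbVar.toC α) * A.per⁻¹ = A.per⁻¹ * (ρ * A.per) * A.per⁻¹ := by
      rw [h3]
    rw [← Matrix.mul_assoc, per_inv_mul, Matrix.one_mul, Matrix.mul_assoc, Matrix.mul_assoc,
      per_mul_inv, Matrix.mul_one] at h6
    exact h6.symm
  rw [Matrix.mul_assoc, h4, ← Matrix.mul_assoc, h5, Matrix.mul_assoc]

/-- The cocycle consists of similitudes. -/
theorem coc_sim (hL : Stmt_Leg) (A : AbVar g) (τ : ℂ ≃ₐ[ℚ] ℂ) :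
    (A.per⁻¹ * A.per.map τ)ᵀ * A.riem * (A.per⁻¹ * A.per.map τ) = (τ tpi / tpi) • A.riem := by
  obtain ⟨hint, hleg, _, _⟩ := hL g A
  have h1 : A.riem = tpi⁻¹ • (A.perᵀ * Jm g * A.per) := by
    rw [hleg, smul_smul, inv_mul_cancel₀ tpi_ne_zero, one_smul]
  have h2 : (A.per.map τ)ᵀ * Jm g * A.per.map τ = τ tpi • A.riem := by
    have := congrArg (fun M : Matrix (Idx g) (Idx g) ℂ => M.map τ) hleg
    simp only [map_mul', map_transpose', Jm_map, map_smul', int_map τ A.riem hint] at this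
    exact this
  have h3 : (A.per⁻¹ * A.per.map τ)ᵀ * A.riem * (A.per⁻¹ * A.per.map τ) =
      tpi⁻¹ • ((A.per.map τ)ᵀ * Jm g * A.per.map τ) := by
    rw [h1, Matrix.mul_smul, Matrix.smul_mul]
    congr 1
    have h4 : A.per * (A.per⁻¹ * A.per.map τ) = A.per.map τ := by
      rw [← Matrix.mul_assoc, per_mul_inv, Matrix.one_mul]
    have h5 : (A.per⁻¹ * A.per.map τ)ᵀ * A.perᵀ = (A.per.map τ)ᵀ := by
      rw [← Matrix.transpose_mul, h4]
    calc (A.per⁻¹ * A.per.map τ)ᵀ * (A.perᵀ * Jm g * A.per) * (A.per⁻¹ * A.per.map τ)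
        = ((A.per⁻¹ * A.per.map τ)ᵀ * A.perᵀ) * Jm g * (A.per * (A.per⁻¹ * A.per.map τ)) := by
          simp only [Matrix.mul_assoc]
      _ = _ := by rw [h4, h5]
  rw [h3, h2, smul_smul]
  congr 1
  rw [div_eq_mul_inv, mul_comm]

end GB1X

open GB1X in
theorem gb1_proof (hL : Stmt_Leg) : Stmt_Gb1 := by
  intro g A p hp
  unfold Gam at hp
  refine Subgroup.closure_induction (p := fun p _ =>
    (∀ α ∈ A.EndQ, p.1.val * AbVar.toC α = AbVar.toC α * p.1.val) ∧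
    p.1.valᵀ * A.riem * p.1.val = p.2.val • A.riem) ?_ ?_ ?_ ?_ hp
  · rintro x ⟨σ, τ, hτ, h1, h2⟩
    obtain ⟨hint, _, _, _⟩ := hL g A
    constructor
    · intro α hα
      rw [h1]
      have h3 := congrArg (fun M : Matrix (Idx g) (Idx g) ℂ => M.map σ) (coc_comm A hτ α hα)
      simp only [map_mul', toC_map] at h3
      rw [map_mul']
      exact h3
    · rw [h1, h2]
      have h3 := congrArg (fun M : Matrix (Idx g) (Idx g) ℂ => M.map σ) (coc_sim hL A τ)
      simp only [map_mul', map_transpose', map_smul', int_map σ A.riem hint] at h3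
      rw [map_mul']
      exact h3
  · constructor
    · intro α _
      simp
    · simp
  · rintro x y _ _ ⟨hx1, hx2⟩ ⟨hy1, hy2⟩
    constructor
    · intro α hα
      simp only [Prod.fst_mul, Units.val_mul]
      rw [Matrix.mul_assoc, hy1 α hα, ← Matrix.mul_assoc, hx1 α hα, Matrix.mul_assoc]
    · simp only [Prod.fst_mul, Units.val_mul, Prod.snd_mul, Matrix.transpose_mul]
      calc y.1.valᵀ * x.1.valᵀ * A.riem * (x.1.val * y.1.val)
          = y.1.valᵀ * (x.1.valᵀ * A.riem * x.1.val) * y.1.val := by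
            simp only [Matrix.mul_assoc]
        _ = _ := by
            rw [hx2, Matrix.mul_smul, Matrix.smul_mul, hy2, smul_smul]
  · rintro x _ ⟨hx1, hx2⟩
    have e1 : (x.1⁻¹).val * x.1.val = 1 := by
      rw [← Units.val_mul, inv_mul_cancel, Units.val_one]
    have e2 : x.1.val * (x.1⁻¹).val = 1 := by
      rw [← Units.val_mul, mul_inv_cancel, Units.val_one]
    constructor
    · intro α hα
      simp only [Prod.fst_inv]
      calc (x.1⁻¹).val * AbVar.toC α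
          = (x.1⁻¹).val * (AbVar.toC α * x.1.val) * (x.1⁻¹).val := by
            rw [Matrix.mul_assoc, Matrix.mul_assoc, e2, Matrix.mul_one]
        _ = (x.1⁻¹).val * (x.1.val * AbVar.toC α) * (x.1⁻¹).val := by rw [hx1 α hα]
        _ = AbVar.toC α * (x.1⁻¹).val := by
            rw [← Matrix.mul_assoc, e1, Matrix.one_mul]
    · simp only [Prod.fst_inv, Prod.snd_inv]
      have e3 : ((x.1⁻¹).val)ᵀ * x.1.valᵀ = 1 := by
        rw [← Matrix.transpose_mul, e2, Matrix.transpose_one]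
      have h4 : A.riem = x.2.val • (((x.1⁻¹).val)ᵀ * A.riem * (x.1⁻¹).val) := by
        calc A.riem = (((x.1⁻¹).val)ᵀ * x.1.valᵀ) * A.riem * (x.1.val * (x.1⁻¹).val) := by
              rw [e3, e2, Matrix.one_mul, Matrix.mul_one]
          _ = ((x.1⁻¹).val)ᵀ * (x.1.valᵀ * A.riem * x.1.val) * (x.1⁻¹).val := by
              simp only [Matrix.mul_assoc]
          _ = _ := by rw [hx2, Matrix.mul_smul, Matrix.smul_mul]
      have h5 : (x.2⁻¹ : ℂˣ).val • A.riem = ((x.1⁻¹).val)ᵀ * A.riem * (x.1⁻¹).val := by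
        conv_lhs => rw [h4]
        rw [smul_smul, ← Units.val_mul, inv_mul_cancel, Units.val_one, one_smul]
      exact h5.symm

end

end Pool.Agent.DRB
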