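import Pool.Agent.DRB.Stmts

/-!
# DRB, module GB3: rational subspaces of `H_1(A)` stable under `Γ` are de Rham-Betti
-/

open scoped BigOperators Topology
open Matrix

namespace Pool.Agent.DRB

noncomputable section

namespace GB3X

variable {g : ℕ}

/-- A subspace spanned by rational vectors is stable under all automorphisms. -/
theorem ratSpan_stable {κ : Type} (D : Submodule ℂ (κ → ℂ)) (hD : RatSpan D) (σ : ℂ ≃ₐ[ℚ] ℂ)
    (v : κ → ℂ) (hv : v ∈ D) : (fun k => σ (v k)) ∈ D := by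
  have h1 := hD hv
  refine Submodule.span_induction (p := fun v _ => (fun k => σ (v k)) ∈ D) ?_ ?_ ?_ ?_ h1
  · rintro w ⟨hw, hq⟩
    have : (fun k => σ (w k)) = w := by
      funext k
      obtain ⟨q, hq⟩ := hq k
      rw [hq]
      exact σ.commutes q
    rw [this]
    exact hw
  · simp only [Pi.zero_apply, map_zero]
    exact D.zero_mem
  · intro x y _ _ hx hy
    simp only [Pi.add_apply, map_add]
    exact D.add_mem hx hy
  · intro a x _ hx
    simp only [Pi.smul_apply, smul_eq_mul, map_mul]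
    exact D.smul_mem (σ a) hx

theorem per_inv_mul (A : AbVar g) : A.per⁻¹ * A.per = 1 := Matrix.nonsing_inv_mul _ A.nondeg

theorem per_mul_inv (A : AbVar g) : A.per * A.per⁻¹ = 1 := Matrix.mul_nonsing_inv _ A.nondeg

theorem map_mul' (σ : ℂ ≃ₐ[ℚ] ℂ) (x y : Matrix (Idx g) (Idx g) ℂ) :
    (x * y).map σ = x.map σ * y.map σ := by
  have := Matrix.map_mul (L := x) (M := y) (f := (σ : ℂ →+* ℂ))
  exact this

/-- The cocycle as an element of the group `Γ`. -/
theorem exists_coc (A : AbVar g) {τ : ℂ ≃ₐ[ℚ] ℂ} (hτ : τ ∈ GalA) :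
    ∃ p ∈ Gam A, (p.1 : Matrix (Idx g) (Idx g) ℂ) = A.per⁻¹ * A.per.map τ ∧
      (p.2 : ℂ) = τ tpi / tpi := by
  have h1 : A.per.map τ * A.per⁻¹.map τ = 1 := by
    rw [← map_mul', per_mul_inv]
    ext i j
    simp only [Matrix.map_apply, Matrix.one_apply]
    split_ifs <;> simp
  have h2 : A.per⁻¹.map τ * A.per.map τ = 1 := by
    rw [← map_mul', per_inv_mul]
    ext i j
    simp only [Matrix.map_apply, Matrix.one_apply]
    split_ifs <;> simp
  have ht : τ tpi / tpi ≠ 0 := div_ne_zero (fun h => tpi_ne_zero (by simpa using h)) tpi_ne_zero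
  refine ⟨(⟨A.per⁻¹ * A.per.map τ, A.per⁻¹.map τ * A.per, ?_, ?_⟩, Units.mk0 _ ht),
    Subgroup.subset_closure ⟨1, τ, hτ, ?_, ?_⟩, rfl, rfl⟩
  · calc A.per⁻¹ * A.per.map τ * (A.per⁻¹.map τ * A.per)
        = A.per⁻¹ * (A.per.map τ * A.per⁻¹.map τ) * A.per := by simp only [Matrix.mul_assoc]
      _ = 1 := by rw [h1, Matrix.mul_one, per_inv_mul]
  · calc A.per⁻¹.map τ * A.per * (A.per⁻¹ * A.per.map τ)
        = A.per⁻¹.map τ * (A.per * A.per⁻¹) * A.per.map τ := by simp only [Matrix.mul_assoc]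
      _ = 1 := by rw [per_mul_inv, Matrix.mul_one, h2]
  · ext i j
    rfl
  · rfl

end GB3X

open GB3X in
theorem gb3_proof (hDA : Stmt_DescA) : Stmt_Gb3 := by
  intro g A D hD hG
  apply hDA
  rintro τ hτ v ⟨w, hw, rfl⟩
  obtain ⟨p, hp, hp1, _⟩ := exists_coc A hτ
  have h1 : (fun k => τ (w k)) ∈ D := ratSpan_stable D hD τ w hw
  have h2 : p.1.val *ᵥ (fun k => τ (w k)) ∈ D := hG p hp ⟨_, h1, rfl⟩
  refine ⟨_, h2, ?_⟩
  rw [Matrix.mulVecLin_apply, hp1, Matrix.mulVec_mulVec, ← Matrix.mul_assoc, per_mul_inv,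
    Matrix.one_mul]
  funext k
  simp only [Matrix.mulVecLin_apply, Matrix.mulVec, dotProduct, map_sum, map_mul,
    Matrix.map_apply]

end

end Pool.Agent.DRB
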