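import Pool.Agent.DRB.Stmts

/-!
# DRB, module GB4: the group `Γ` is stable under all automorphisms
-/

open scoped BigOperators Topology
open Matrix

namespace Pool.Agent.DRB

noncomputable section

namespace GB4X

/-- Entrywise action of an automorphism on the ambient group. -/
def mapHom {g : ℕ} (σ : ℂ ≃ₐ[ℚ] ℂ) : GL (Idx g) ℂ × ℂˣ →* GL (Idx g) ℂ × ℂˣ :=
  MonoidHom.prodMap (Matrix.GeneralLinearGroup.map (σ : ℂ →+* ℂ))
    (Units.map ((σ : ℂ →+* ℂ) : ℂ →* ℂ))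

theorem mapHom_fst {g : ℕ} (σ : ℂ ≃ₐ[ℚ] ℂ) (p : GL (Idx g) ℂ × ℂˣ) :
    ((mapHom σ p).1 : Matrix (Idx g) (Idx g) ℂ) = (p.1 : Matrix (Idx g) (Idx g) ℂ).map σ := rfl

theorem mapHom_snd {g : ℕ} (σ : ℂ ≃ₐ[ℚ] ℂ) (p : GL (Idx g) ℂ × ℂˣ) :
    ((mapHom σ p).2 : ℂ) = σ p.2 := rfl

theorem mapHom_mem {g : ℕ} (A : AbVar g) (σ : ℂ ≃ₐ[ℚ] ℂ) (p : GL (Idx g) ℂ × ℂˣ)
    (hp : p ∈ Gam A) : mapHom σ p ∈ Gam A := by
  unfold Gam at hp
  refine Subgroup.closure_induction (p := fun x _ => mapHom σ x ∈ Gam A) ?_ ?_ ?_ ?_ hp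
  · rintro x ⟨σ', τ, hτ, h1, h2⟩
    refine Subgroup.subset_closure ⟨σ * σ', τ, hτ, ?_, ?_⟩
    · rw [mapHom_fst, h1]
      ext i j
      rw [Matrix.map_apply, Matrix.map_apply, Matrix.map_apply, AlgEquiv.mul_apply]
    · rw [mapHom_snd, h2]
      rfl
  · rw [map_one]
    exact Subgroup.one_mem _
  · intro x y _ _ hx hy
    rw [map_mul]
    exact Subgroup.mul_mem _ hx hy
  · intro x _ hx
    rw [map_inv]
    exact Subgroup.inv_mem _ hx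

end GB4X

theorem gb4_proof : Stmt_Gb4 := by
  intro g A σ p hp q h1 h2
  have h3 : q = GB4X.mapHom σ p := by
    refine Prod.ext (Units.ext ?_) (Units.ext ?_)
    · rw [h1, GB4X.mapHom_fst]
    · rw [h2, GB4X.mapHom_snd]
  rw [h3]
  exact GB4X.mapHom_mem A σ p hp

end

end Pool.Agent.DRB
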