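import Pool.Agent.DRB.Stmts

/-!
# Growth of theta functions (module GROW)
-/

open scoped BigOperators
open Matrix

namespace Pool.Agent.DRB

namespace GrowX

noncomputable section

theorem lin_bound {g : ℕ} (a : Idx g → (Fin g → ℂ)) (c : Idx g → ℂ) :
    ∃ A : ℝ, 0 ≤ A ∧ ∀ (i : Idx g) (z : Fin g → ℂ), |((∑ k, a i k * z k) + c i).re| ≤ A * (1 + ‖z‖) := by
  refine ⟨∑ i, ((∑ k, ‖a i k‖) + ‖c i‖), ?_, ?_⟩
  · positivity
  · intro (i : Idx g) (z : Fin g → ℂ)
    have h1 : |((∑ k, a i k * z k) + c i).re| ≤ ‖(∑ k, a i k * z k) + c i‖ :=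
      Complex.abs_re_le_norm _
    have h2 : ‖(∑ k, a i k * z k) + c i‖ ≤ (∑ k, ‖a i k‖) * ‖z‖ + ‖c i‖ := by
      refine (norm_add_le _ _).trans (add_le_add ((norm_sum_le _ _).trans ?_) le_rfl)
      rw [Finset.sum_mul]
      refine Finset.sum_le_sum fun k _ => ?_
      rw [norm_mul]
      exact mul_le_mul_of_nonneg_left (norm_le_pi_norm z k) (norm_nonneg _)
    have h3 : ((∑ k, ‖a i k‖) + ‖c i‖) ≤ ∑ i, ((∑ k, ‖a i k‖) + ‖c i‖) :=
      Finset.single_le_sum (f := fun i => (∑ k, ‖a i k‖) + ‖c i‖)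
        (fun j _ => by positivity) (Finset.mem_univ i)
    have h4 : (∑ k, ‖a i k‖) * ‖z‖ + ‖c i‖ ≤ ((∑ k, ‖a i k‖) + ‖c i‖) * (1 + ‖z‖) := by
      have p1 : 0 ≤ ∑ k, ‖a i k‖ := by positivity
      have p2 : 0 ≤ ‖c i‖ := norm_nonneg _
      have p3 : 0 ≤ ‖z‖ := norm_nonneg _
      nlinarith [mul_nonneg p2 p3]
    have h5 : ((∑ k, ‖a i k‖) + ‖c i‖) * (1 + ‖z‖) ≤
        (∑ i, ((∑ k, ‖a i k‖) + ‖c i‖)) * (1 + ‖z‖) :=
      mul_le_mul_of_nonneg_right h3 (by positivity)
    linarith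

/-- one step -/
theorem step {g : ℕ} (lat : Idx g → (Fin g → ℂ)) (F : (Fin g → ℂ) → ℂ)
    (a : Idx g → (Fin g → ℂ)) (c : Idx g → ℂ)
    (hF : ∀ i z, F (z + lat i) = Complex.exp ((∑ k, a i k * z k) + c i) * F z)
    (A : ℝ) (hA0 : 0 ≤ A) (hA : ∀ (i : Idx g) (z : Fin g → ℂ), |((∑ k, a i k * z k) + c i).re| ≤ A * (1 + ‖z‖))
    (M : ℝ) (hM : ∀ i, ‖lat i‖ ≤ M) (i : Idx g) (ε : ℤ) (hε : ε = 1 ∨ ε = -1) (w : Fin g → ℂ) :
    ‖F (w + ε • lat i)‖ ≤ Real.exp (A * (1 + ‖w‖ + M)) * ‖F w‖ := by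
  have hM0 : 0 ≤ M := (norm_nonneg _).trans (hM i)
  rcases hε with rfl | rfl
  · rw [one_smul, hF, norm_mul, Complex.norm_exp]
    refine mul_le_mul_of_nonneg_right (Real.exp_le_exp.2 ?_) (norm_nonneg _)
    have := (le_abs_self _).trans (hA i w)
    nlinarith [mul_nonneg hA0 hM0]
  · have h1 := hF i (w + (-1 : ℤ) • lat i)
    have h2 : w + (-1 : ℤ) • lat i + lat i = w := by
      rw [neg_smul, one_smul]; abel
    rw [h2] at h1
    have h3 : F (w + (-1 : ℤ) • lat i) = Complex.exp (-((∑ k, a i k * (w + (-1 : ℤ) • lat i) k) +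
        c i)) * F w := by
      rw [h1, ← mul_assoc, ← Complex.exp_add]
      simp
    rw [h3, norm_mul, Complex.norm_exp]
    refine mul_le_mul_of_nonneg_right (Real.exp_le_exp.2 ?_) (norm_nonneg _)
    rw [Complex.neg_re]
    have h4 := (neg_le_abs _).trans (hA i (w + (-1 : ℤ) • lat i))
    have h5 : ‖w + (-1 : ℤ) • lat i‖ ≤ ‖w‖ + M := by
      refine (norm_add_le _ _).trans (add_le_add le_rfl ?_)
      rw [neg_smul, one_smul, norm_neg]
      exact hM i
    have h6 : A * (1 + ‖w + (-1 : ℤ) • lat i‖) ≤ A * (1 + (‖w‖ + M)) :=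
      mul_le_mul_of_nonneg_left (by linarith) hA0
    linarith

theorem iter {g : ℕ} (lat : Idx g → (Fin g → ℂ)) (F : (Fin g → ℂ) → ℂ)
    (A : ℝ) (hA0 : 0 ≤ A) (M : ℝ) (hM : ∀ i, ‖lat i‖ ≤ M) (hM0 : 0 ≤ M)
    (hst : ∀ (i : Idx g) (ε : ℤ), ε = 1 ∨ ε = -1 → ∀ w : Fin g → ℂ,
      ‖F (w + ε • lat i)‖ ≤ Real.exp (A * (1 + ‖w‖ + M)) * ‖F w‖) :
    ∀ (m : ℕ) (n : Idx g → ℤ), ∑ i, (n i).natAbs = m → ∀ y : Fin g → ℂ,
      ‖F (y + ∑ i, n i • lat i)‖ ≤ Real.exp (A * m * (1 + ‖y‖ + M * m)) * ‖F y‖ := by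
  classical
  intro m
  induction m with
  | zero =>
    intro n hn y
    have h0 : ∀ i, n i = 0 := by
      intro i
      have := (Finset.sum_eq_zero_iff.1 hn) i (Finset.mem_univ i)
      exact Int.natAbs_eq_zero.1 this
    have : ∑ i, n i • lat i = 0 := Finset.sum_eq_zero fun i _ => by rw [h0 i, zero_smul]
    rw [this, add_zero]
    simp
  | succ m ih =>
    intro n hn y
    have hex : ∃ i, n i ≠ 0 := by
      by_contra hcon
      push Not at hcon
      rw [Finset.sum_eq_zero (fun i _ => by rw [hcon i]; rfl)] at hn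
      exact absurd hn (Nat.succ_ne_zero m).symm
    obtain ⟨i, hi⟩ := hex
    obtain ⟨ε, hε, habs⟩ : ∃ ε : ℤ, (ε = 1 ∨ ε = -1) ∧ (n i - ε).natAbs + 1 = (n i).natAbs := by
      rcases lt_or_gt_of_ne hi with h | h
      · exact ⟨-1, Or.inr rfl, by omega⟩
      · exact ⟨1, Or.inl rfl, by omega⟩
    let n' : Idx g → ℤ := Function.update n i (n i - ε)
    have hn' : ∑ j, (n' j).natAbs = m := by
      have e1 : ∑ j, (n j).natAbs = (n i).natAbs + ∑ j ∈ Finset.univ.erase i, (n j).natAbs :=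
        (Finset.add_sum_erase _ _ (Finset.mem_univ i)).symm
      have e2 : ∑ j, (n' j).natAbs = (n' i).natAbs + ∑ j ∈ Finset.univ.erase i, (n' j).natAbs :=
        (Finset.add_sum_erase _ _ (Finset.mem_univ i)).symm
      have e3 : ∑ j ∈ Finset.univ.erase i, (n' j).natAbs =
          ∑ j ∈ Finset.univ.erase i, (n j).natAbs := by
        refine Finset.sum_congr rfl fun j hj => ?_
        rw [show n' j = n j from Function.update_of_ne (Finset.ne_of_mem_erase hj) _ _]
      have e4 : n' i = n i - ε := Function.update_self _ _ _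
      rw [e4, e3] at e2
      omega
    have hsum : ∑ j, n j • lat j = (∑ j, n' j • lat j) + ε • lat i := by
      have e1 : ∑ j, n j • lat j = n i • lat i + ∑ j ∈ Finset.univ.erase i, n j • lat j :=
        (Finset.add_sum_erase _ _ (Finset.mem_univ i)).symm
      have e2 : ∑ j, n' j • lat j = n' i • lat i + ∑ j ∈ Finset.univ.erase i, n' j • lat j :=
        (Finset.add_sum_erase _ _ (Finset.mem_univ i)).symm
      have e3 : ∑ j ∈ Finset.univ.erase i, n' j • lat j =
          ∑ j ∈ Finset.univ.erase i, n j • lat j := by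
        refine Finset.sum_congr rfl fun j hj => ?_
        rw [show n' j = n j from Function.update_of_ne (Finset.ne_of_mem_erase hj) _ _]
      have e4 : n' i = n i - ε := Function.update_self _ _ _
      rw [e1, e2, e3, e4, sub_smul]
      abel
    rw [hsum, ← add_assoc]
    set w := y + ∑ j, n' j • lat j with hw
    have hw1 := ih n' hn' y
    rw [← hw] at hw1
    have hw2 : ‖w‖ ≤ ‖y‖ + M * m := by
      rw [hw]
      refine (norm_add_le _ _).trans (add_le_add le_rfl ?_)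
      refine (norm_sum_le _ _).trans ?_
      have : ∀ j ∈ Finset.univ, ‖n' j • lat j‖ ≤ M * ((n' j).natAbs : ℝ) := by
        intro j _
        rw [← Int.cast_smul_eq_zsmul ℝ, norm_smul, mul_comm]
        have e : ‖((n' j : ℤ) : ℝ)‖ = ((n' j).natAbs : ℝ) := by
          rw [Real.norm_eq_abs, Nat.cast_natAbs, Int.cast_abs]
        rw [e]
        exact mul_le_mul_of_nonneg_right (hM j) (Nat.cast_nonneg _)
      refine (Finset.sum_le_sum this).trans ?_
      rw [← Finset.mul_sum, ← Nat.cast_sum, hn']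
    have h1 := hst i ε hε w
    refine h1.trans ?_
    refine (mul_le_mul_of_nonneg_left hw1 (Real.exp_pos _).le).trans ?_
    rw [← mul_assoc, ← Real.exp_add]
    refine mul_le_mul_of_nonneg_right (Real.exp_le_exp.2 ?_) (norm_nonneg _)
    push_cast
    have hm : (0 : ℝ) ≤ m := Nat.cast_nonneg m
    have hy : 0 ≤ ‖y‖ := norm_nonneg y
    have h2 : A * (1 + ‖w‖ + M) ≤ A * (1 + (‖y‖ + M * m) + M) :=
      mul_le_mul_of_nonneg_left (by linarith) hA0
    have h3 : 0 ≤ A * (m * M) := by positivity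
    nlinarith

end

end GrowX

open GrowX in
theorem grow_proof : Stmt_Grow := by
  classical
  intro g lat hlat F a c hF haut
  obtain ⟨A, hA0, hA⟩ := lin_bound a c
  set M : ℝ := ∑ i, ‖lat i‖ with hMdef
  have hM0 : 0 ≤ M := by positivity
  have hM : ∀ i, ‖lat i‖ ≤ M := fun i =>
    Finset.single_le_sum (f := fun i => ‖lat i‖) (fun j _ => norm_nonneg _) (Finset.mem_univ i)
  have hit := iter lat F A hA0 M hM hM0 (fun i ε hε w =>
    step lat F a c haut A hA0 hA M hM i ε hε w)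
  have hcard : Fintype.card (Idx g) = Module.finrank ℝ (Fin g → ℂ) := by
    rw [Module.finrank_pi_fintype ℝ]
    simp [Complex.finrank_real_complex]
    ring
  let b : Module.Basis (Idx g) ℝ (Fin g → ℂ) := by
    exact basisOfLinearIndependentOfCardEqFinrank' lat hlat hcard
  have hb : ∀ i, b i = lat i := by
    intro i
    simp [b]
  let e : (Fin g → ℂ) ≃L[ℝ] (Idx g → ℝ) := b.equivFunL
  set K : ℝ := ‖(e : (Fin g → ℂ) →L[ℝ] (Idx g → ℝ))‖ with hK
  have hK0 : 0 ≤ K := norm_nonneg _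
  have hco : ∀ z i, |b.repr z i| ≤ K * ‖z‖ := by
    intro z i
    have h1 := (e : (Fin g → ℂ) →L[ℝ] (Idx g → ℝ)).le_opNorm z
    have h2 := norm_le_pi_norm ((e : (Fin g → ℂ) →L[ℝ] (Idx g → ℝ)) z) i
    exact h2.trans h1
  obtain ⟨B, hB⟩ := (isCompact_closedBall (0 : Fin g → ℂ) M).exists_bound_of_continuousOn
    hF.continuous.continuousOn
  have hB0 : 0 ≤ B := (norm_nonneg _).trans (hB 0 (by simp [hM0]))
  set D : ℝ := (Fintype.card (Idx g) : ℝ) * (K + 1) with hD
  have hD0 : 0 ≤ D := by positivity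
  refine ⟨A * D * (1 + M + M * D) + B, fun z => ?_⟩
  let n : Idx g → ℤ := fun i => ⌊b.repr z i⌋
  set m : ℕ := ∑ i, (n i).natAbs with hm
  set y : Fin g → ℂ := z - ∑ i, n i • lat i with hy
  have hz : z = y + ∑ i, n i • lat i := by rw [hy]; abel
  have hyn : ‖y‖ ≤ M := by
    have h1 : y = ∑ i, (Int.fract (b.repr z i)) • lat i := by
      rw [hy]
      conv_lhs => rw [← b.sum_repr z]
      rw [← Finset.sum_sub_distrib]
      refine Finset.sum_congr rfl fun i _ => ?_
      rw [hb i, ← Int.cast_smul_eq_zsmul ℝ, ← sub_smul]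
      rfl
    rw [h1]
    refine (norm_sum_le _ _).trans (Finset.sum_le_sum fun i _ => ?_)
    rw [norm_smul, Real.norm_eq_abs, abs_of_nonneg (Int.fract_nonneg _)]
    exact mul_le_of_le_one_left (norm_nonneg _) (Int.fract_lt_one _).le
  have hmle : (m : ℝ) ≤ D * (1 + ‖z‖) := by
    rw [hm, Nat.cast_sum]
    have h1 : ∀ i ∈ Finset.univ, (((n i).natAbs : ℕ) : ℝ) ≤ (K + 1) * (1 + ‖z‖) := by
      intro i _
      have e1 : (((n i).natAbs : ℕ) : ℝ) = |((n i : ℤ) : ℝ)| := by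
        rw [Nat.cast_natAbs, Int.cast_abs]
      have e2 : |((n i : ℤ) : ℝ)| ≤ |b.repr z i| + 1 := by
        have e3 : ((n i : ℤ) : ℝ) = b.repr z i - Int.fract (b.repr z i) := by
          have := Int.floor_add_fract (b.repr z i)
          have h : (n i : ℤ) = ⌊b.repr z i⌋ := rfl
          rw [h]
          linarith
        rw [e3]
        refine (abs_sub _ _).trans ?_
        rw [abs_of_nonneg (Int.fract_nonneg (b.repr z i))]
        linarith [(Int.fract_lt_one (b.repr z i)).le]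
      rw [e1]
      have e4 := hco z i
      have e5 : 0 ≤ ‖z‖ := norm_nonneg z
      nlinarith
    refine (Finset.sum_le_sum h1).trans ?_
    rw [Finset.sum_const, Finset.card_univ, nsmul_eq_mul, hD]
    linarith
  have h1 := hit m n rfl y
  rw [← hz] at h1
  have h2 : ‖F y‖ ≤ B := hB y (by simpa using hyn)
  have h3 : B ≤ Real.exp B := by
    have := Real.add_one_le_exp B
    linarith
  have hy0 : 0 ≤ ‖y‖ := norm_nonneg y
  have hz0 : 0 ≤ ‖z‖ := norm_nonneg z
  have hm0 : (0 : ℝ) ≤ m := Nat.cast_nonneg m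
  calc ‖F z‖ ≤ Real.exp (A * m * (1 + ‖y‖ + M * m)) * ‖F y‖ := h1
    _ ≤ Real.exp (A * m * (1 + ‖y‖ + M * m)) * Real.exp B :=
        mul_le_mul_of_nonneg_left (h2.trans h3) (Real.exp_pos _).le
    _ = Real.exp (A * m * (1 + ‖y‖ + M * m) + B) := by rw [Real.exp_add]
    _ ≤ _ := by
        refine Real.exp_le_exp.2 ?_
        have t : 1 ≤ 1 + ‖z‖ := by linarith
        have h4 : A * m * (1 + ‖y‖ + M * m) ≤
            A * (D * (1 + ‖z‖)) * ((1 + M + M * D) * (1 + ‖z‖)) := by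
          refine mul_le_mul (mul_le_mul_of_nonneg_left hmle hA0) ?_ (by positivity) (by positivity)
          have h5 : M * m ≤ M * (D * (1 + ‖z‖)) := mul_le_mul_of_nonneg_left hmle hM0
          have h6 : (1 + M) * 1 ≤ (1 + M) * (1 + ‖z‖) :=
            mul_le_mul_of_nonneg_left t (by positivity)
          nlinarith
        have h7 : B ≤ B * (1 + ‖z‖) ^ 2 := by
          have : 1 ≤ (1 + ‖z‖) ^ 2 := by nlinarith
          exact le_mul_of_one_le_right hB0 this
        nlinarith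

end Pool.Agent.DRB
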