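import Mathlib

/-!
# Osgood's lemma: entire functions of several complex variables are analytic
-/

set_option autoImplicit false

open scoped Topology
open Metric Filter MeasureTheory

namespace Pool.Agent.DRB.Osgood

section

variable {E F : Type*} [NormedAddCommGroup E] [NormedSpace ℂ E]
  [NormedAddCommGroup F] [NormedSpace ℂ F]

/-- Derivatives along a line. -/
theorem hasDerivAt_line {f : E → F} (hf : Differentiable ℂ f) (x y : E) (t : ℂ) :
    HasDerivAt (fun t : ℂ => f (x + t • y)) (fderiv ℂ f (x + t • y) y) t := by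
  have h1 : HasDerivAt (fun t : ℂ => x + t • y) y t := by
    have := ((hasDerivAt_id t).smul_const y).const_add x
    simpa using this
  exact (hf (x + t • y)).hasFDerivAt.comp_hasDerivAt t h1

theorem differentiable_line {f : E → F} (hf : Differentiable ℂ f) (x y : E) :
    Differentiable ℂ (fun t : ℂ => f (x + t • y)) :=
  fun t => (hasDerivAt_line hf x y t).differentiableAt

/-- Cauchy's estimate for the Fréchet derivative. -/
theorem norm_fderiv_le {f : E → F} (hf : Differentiable ℂ f) {x : E} {r M : ℝ} (hr : 0 < r)
    (hM : ∀ y ∈ closedBall x r, ‖f y‖ ≤ M) : ‖fderiv ℂ f x‖ ≤ M / r := by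
  have hM0 : 0 ≤ M := (norm_nonneg _).trans (hM x (mem_closedBall_self hr.le))
  apply ContinuousLinearMap.opNorm_le_bound _ (div_nonneg hM0 hr.le)
  intro v
  rcases eq_or_ne v 0 with rfl | hv
  · simp
  have hv0 : 0 < ‖v‖ := norm_pos_iff.mpr hv
  have h1 := hasDerivAt_line hf x v 0
  rw [zero_smul, add_zero] at h1
  rw [← h1.deriv]
  have h2 : ‖deriv (fun t : ℂ => f (x + t • v)) 0‖ ≤ M / (r / ‖v‖) := by
    apply Complex.norm_deriv_le_of_forall_mem_sphere_norm_le (div_pos hr hv0)
    · exact (differentiable_line hf x v).diffContOnCl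
    · intro t ht
      apply hM
      rw [mem_closedBall, dist_eq_norm, add_sub_cancel_left, norm_smul]
      rw [mem_sphere_zero_iff_norm] at ht
      rw [ht, div_mul_cancel₀ _ hv0.ne']
  calc _ ≤ _ := h2
    _ = M / r * ‖v‖ := by
      field_simp

end

section param

variable {E : Type*} [NormedAddCommGroup E] [NormedSpace ℂ E] [FiniteDimensional ℂ E]

/-- Circle integrals depending on parameters. -/
theorem differentiable_circleIntegral {H : E → ℂ → ℂ} (hc : Continuous (Function.uncurry H))
    (hd : ∀ t, Differentiable ℂ (fun x => H x t)) {ψ : ℂ → ℂ} {c : ℂ} {R : ℝ} (hR : 0 ≤ R)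
    (hψ : ContinuousOn ψ (sphere c R)) :
    Differentiable ℂ (fun x => ∮ t in C(c, R), ψ t * H x t) := by
  have : ProperSpace E := FiniteDimensional.proper ℂ E
  borelize E
  intro x₀
  have hγ : Continuous (circleMap c R) := continuous_circleMap c R
  have hγs : ∀ θ, circleMap c R θ ∈ sphere c R := circleMap_mem_sphere c hR
  set w : ℝ → ℂ := fun θ => deriv (circleMap c R) θ * ψ (circleMap c R θ) with hw
  have hwc : Continuous w := by
    apply Continuous.mul
    · have h1 : deriv (circleMap c R) = fun θ => circleMap 0 R θ * Complex.I := by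
        funext θ
        exact deriv_circleMap c R θ
      rw [h1]
      fun_prop
    · exact hψ.comp_continuous hγ hγs
  obtain ⟨W, hW⟩ := (isCompact_Icc (a := (0 : ℝ)) (b := 2 * Real.pi)).exists_bound_of_continuousOn
    hwc.continuousOn
  obtain ⟨M, hM⟩ := ((isCompact_closedBall x₀ 2).prod
    (isCompact_sphere c R)).exists_bound_of_continuousOn hc.continuousOn
  have hmeas : Measurable (fun p : ℂ × E => fderiv ℂ (fun x => H x p.1) p.2) := by
    apply measurable_fderiv_with_param ℂ (f := fun (t : ℂ) (x : E) => H x t)
    exact hc.comp continuous_swap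
  have hC : ∀ x θ, HasFDerivAt (fun x => w θ * H x (circleMap c R θ))
      (w θ • fderiv ℂ (fun x => H x (circleMap c R θ)) x) x := by
    intro x θ
    exact ((hd _ x).hasFDerivAt).const_mul (w θ)
  have key : HasFDerivAt (fun x => ∫ θ in (0 : ℝ)..(2 * Real.pi), w θ * H x (circleMap c R θ))
      (∫ θ in (0 : ℝ)..(2 * Real.pi), w θ • fderiv ℂ (fun x => H x (circleMap c R θ)) x₀) x₀ := by
    apply intervalIntegral.hasFDerivAt_integral_of_dominated_of_fderiv_le
      (s := ball x₀ 1) (bound := fun _ => |W| * |M|)
      (F' := fun x θ => w θ • fderiv ℂ (fun x => H x (circleMap c R θ)) x)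
      (ball_mem_nhds x₀ one_pos)
    · refine Eventually.of_forall fun x => Continuous.aestronglyMeasurable ?_
      exact hwc.mul (hc.comp (continuous_const.prodMk hγ))
    · apply Continuous.intervalIntegrable
      exact hwc.mul (hc.comp (continuous_const.prodMk hγ))
    · apply AEStronglyMeasurable.smul hwc.aestronglyMeasurable
      apply Measurable.aestronglyMeasurable
      exact hmeas.comp (hγ.measurable.prodMk measurable_const)
    · refine Eventually.of_forall fun θ hθ x hx => ?_
      rw [norm_smul]
      have hθ' : θ ∈ Set.Icc (0 : ℝ) (2 * Real.pi) := by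
        rw [Set.uIoc_of_le (by positivity)] at hθ
        exact Set.Ioc_subset_Icc_self hθ
      apply mul_le_mul ((hW θ hθ').trans (le_abs_self W)) _ (norm_nonneg _) (abs_nonneg W)
      have h1 : ‖fderiv ℂ (fun x => H x (circleMap c R θ)) x‖ ≤ |M| / 1 := by
        apply norm_fderiv_le (hd _) one_pos
        intro y hy
        refine (hM (y, circleMap c R θ) ⟨?_, hγs θ⟩).trans (le_abs_self M)
        rw [mem_closedBall] at hy ⊢
        rw [mem_ball] at hx
        have := dist_triangle y x x₀
        linarith
      simpa using h1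
    · exact continuous_const.intervalIntegrable _ _
    · exact Eventually.of_forall fun θ _ x _ => hC x θ
  have h2 : (fun x => ∮ t in C(c, R), ψ t * H x t) =
      fun x => ∫ θ in (0 : ℝ)..(2 * Real.pi), w θ * H x (circleMap c R θ) := by
    funext x
    rw [circleIntegral]
    apply intervalIntegral.integral_congr
    intro θ _
    simp only [hw, smul_eq_mul]
    ring
  rw [h2]
  exact key.differentiableAt

/-- Directional derivatives of entire functions are entire. -/
theorem differentiable_fderiv_apply {f : E → ℂ} (hf : Differentiable ℂ f) (y : E) :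
    Differentiable ℂ (fun x => fderiv ℂ f x y) := by
  have h1 : (fun x => fderiv ℂ f x y) = fun x =>
      (2 * Real.pi * Complex.I : ℂ)⁻¹ *
        ∮ t in C((0 : ℂ), 1), (t ^ 2)⁻¹ * f (x + t • y) := by
    funext x
    have h2 := hasDerivAt_line hf x y 0
    rw [zero_smul, add_zero] at h2
    rw [← h2.deriv]
    have h3 := Complex.two_pi_I_inv_smul_circleIntegral_sub_sq_inv_smul_of_differentiable
      isOpen_univ (c := 0) (w₀ := 0) (R := 1) (f := fun t : ℂ => f (x + t • y))
      (Set.subset_univ _) (differentiable_line hf x y).differentiableOn (mem_ball_self one_pos)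
    rw [← h3]
    simp
  rw [h1]
  apply Differentiable.const_mul
  apply differentiable_circleIntegral (H := fun x t => f (x + t • y))
  · have : Continuous f := hf.continuous
    exact this.comp (by fun_prop)
  · intro t
    exact hf.comp (differentiable_id.add_const (t • y))
  · exact zero_le_one
  · apply ContinuousOn.inv₀ (by fun_prop)
    intro t ht h0
    rw [mem_sphere_zero_iff_norm] at ht
    have : t = 0 := by simpa using h0
    rw [this] at ht
    simp at ht

theorem contDiff_nat (n : ℕ) : ∀ {f : E → ℂ}, Differentiable ℂ f → ContDiff ℂ n f := by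
  induction n with
  | zero =>
    intro f hf
    simpa using hf.continuous
  | succ n ih =>
    intro f hf
    push_cast
    rw [contDiff_succ_iff_fderiv_apply]
    refine ⟨hf, ?_, fun y => ih (differentiable_fderiv_apply hf y)⟩
    intro h
    exact absurd h (by simp)

theorem contDiff_infty {f : E → ℂ} (hf : Differentiable ℂ f) : ContDiff ℂ (⊤ : ℕ∞) f :=
  _root_.contDiff_infty.mpr fun n => contDiff_nat n hf

end param

section analytic

variable {E : Type*} [NormedAddCommGroup E] [NormedSpace ℂ E] [FiniteDimensional ℂ E]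

theorem norm_iteratedFDeriv_le {f : E → ℂ} (hf : Differentiable ℂ f) {x : E} {r M δ : ℝ}
    (hδ : 0 < δ) (hM : ∀ y ∈ closedBall x r, ‖f y‖ ≤ M) (k : ℕ) :
    ∀ y ∈ closedBall x (r - k * δ), ‖iteratedFDeriv ℂ k f y‖ ≤ M / δ ^ k := by
  induction k with
  | zero =>
    intro y hy
    simp only [Nat.cast_zero, zero_mul, sub_zero] at hy
    rw [norm_iteratedFDeriv_zero, pow_zero, div_one]
    exact hM y hy
  | succ k ih =>
    intro y hy
    rw [← norm_fderiv_iteratedFDeriv, pow_succ, ← div_div]
    apply norm_fderiv_le _ hδ
    · intro z hz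
      apply ih
      rw [mem_closedBall] at hy hz ⊢
      have h1 := dist_triangle z y x
      push_cast at hy
      linarith
    · exact (contDiff_infty hf).differentiable_iteratedFDeriv (by exact_mod_cast WithTop.coe_lt_top _)

theorem iteratedFDeriv_line {f : E → ℂ} (hf : Differentiable ℂ f) (x y : E) (n : ℕ) :
    iteratedDeriv n (fun t : ℂ => f (x + t • y)) 0 = iteratedFDeriv ℂ n f x (fun _ => y) := by
  have h1 : (fun t : ℂ => f (x + t • y)) =
      (fun z => f (x + z)) ∘ (ContinuousLinearMap.toSpanSingleton ℂ y) := by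
    funext t
    simp [ContinuousLinearMap.toSpanSingleton_apply]
  have h2 : ContDiff ℂ n (fun z => f (x + z)) := by
    have := contDiff_nat n hf
    exact this.comp (contDiff_const.add contDiff_id)
  rw [iteratedDeriv_eq_iteratedFDeriv, h1,
    ContinuousLinearMap.iteratedFDeriv_comp_right _ h2 _ le_rfl,
    ContinuousMultilinearMap.compContinuousLinearMap_apply, iteratedFDeriv_comp_add_left]
  simp [ContinuousLinearMap.toSpanSingleton_apply]

/-- **Osgood's lemma** for entire functions. -/
theorem analyticAt {f : E → ℂ} (hf : Differentiable ℂ f) (x : E) : AnalyticAt ℂ f x := by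
  have : ProperSpace E := FiniteDimensional.proper ℂ E
  obtain ⟨M, hM⟩ := (isCompact_closedBall x (1 : ℝ)).exists_bound_of_continuousOn
    hf.continuous.continuousOn
  have hM0 : 0 ≤ M := (norm_nonneg _).trans (hM x (mem_closedBall_self zero_le_one))
  set p : FormalMultilinearSeries ℂ E ℂ := fun n =>
    ((n.factorial : ℂ)⁻¹) • iteratedFDeriv ℂ n f x with hp
  have hbound : ∀ n, ‖p n‖ ≤ M * Real.exp 1 ^ n := by
    intro n
    rw [hp]
    simp only
    rw [norm_smul, norm_inv, Complex.norm_natCast]
    rcases Nat.eq_zero_or_pos n with rfl | hn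
    · simp only [Nat.factorial_zero, Nat.cast_one, inv_one, one_mul, pow_zero, mul_one,
        norm_iteratedFDeriv_zero]
      exact hM x (mem_closedBall_self zero_le_one)
    have hn' : (0 : ℝ) < n := Nat.cast_pos.mpr hn
    have h1 := norm_iteratedFDeriv_le hf (δ := 1 / n) (by positivity) hM n x (by
      rw [mul_one_div_cancel hn'.ne', sub_self]
      exact mem_closedBall_self le_rfl)
    have h2 : (n : ℝ) ^ n / n.factorial ≤ Real.exp n := Real.pow_div_factorial_le_exp _ hn'.le n
    have h3 : (n.factorial : ℝ)⁻¹ * ‖iteratedFDeriv ℂ n f x‖ ≤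
        (n.factorial : ℝ)⁻¹ * (M / (1 / n : ℝ) ^ n) :=
      mul_le_mul_of_nonneg_left h1 (by positivity)
    calc _ ≤ _ := h3
      _ = M * ((n : ℝ) ^ n / n.factorial) := by
        rw [one_div, inv_pow, div_inv_eq_mul]
        ring
      _ ≤ M * Real.exp n := mul_le_mul_of_nonneg_left h2 hM0
      _ = M * Real.exp 1 ^ n := by
        rw [← Real.exp_nat_mul, mul_one]
  have h3pos : (0 : ENNReal) < ((1 / 3 : NNReal) : ENNReal) := by
    rw [ENNReal.coe_pos]
    positivity
  have hser : HasFPowerSeriesOnBall f p x ((1 / 3 : NNReal) : ENNReal) := by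
    refine ⟨?_, h3pos, ?_⟩
    · apply FormalMultilinearSeries.le_radius_of_bound p M
      intro n
      have h1 : Real.exp 1 * (1 / 3) ≤ 1 := by
        have := Real.exp_one_lt_d9
        linarith
      calc ‖p n‖ * ((1 / 3 : NNReal) : ℝ) ^ n ≤ (M * Real.exp 1 ^ n) * (1 / 3 : ℝ) ^ n := by
            have : ((1 / 3 : NNReal) : ℝ) = 1 / 3 := by simp
            rw [this]
            exact mul_le_mul_of_nonneg_right (hbound n) (by positivity)
        _ = M * (Real.exp 1 * (1 / 3)) ^ n := by rw [mul_pow, mul_assoc]
        _ ≤ M * 1 := by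
            apply mul_le_mul_of_nonneg_left _ hM0
            exact pow_le_one₀ (by positivity) h1
        _ = M := mul_one M
    · intro y _
      have h1 := Complex.hasSum_taylorSeries_of_entire (differentiable_line hf x y) 0 1
      simp only [sub_zero, one_pow, one_smul] at h1
      have h2 : ∀ n, p n (fun _ => y) =
          ((n.factorial : ℂ)⁻¹) • iteratedDeriv n (fun t : ℂ => f (x + t • y)) 0 := by
        intro n
        rw [iteratedFDeriv_line hf]
        rfl
      simp only [h2]
      exact h1
  exact ⟨p, _, hser⟩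

/-- Entire functions are analytic. -/
theorem analyticOnNhd {f : E → ℂ} (hf : Differentiable ℂ f) (s : Set E) :
    AnalyticOnNhd ℂ f s := fun x _ => analyticAt hf x

end analytic

end Pool.Agent.DRB.Osgood

namespace Pool.Agent.DRB

/-- **Osgood's lemma** for entire functions of `d` variables. -/
theorem osgood {d : ℕ} {F : (Fin d → ℂ) → ℂ} (hF : Differentiable ℂ F) (z : Fin d → ℂ) :
    AnalyticAt ℂ F z := Osgood.analyticAt hF z

/-- The same statement under the name of the first version of this file (helper27). -/
theorem differentiable_analyticAt {d : ℕ} {F : (Fin d → ℂ) → ℂ} (hF : Differentiable ℂ F)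
    (z : Fin d → ℂ) : AnalyticAt ℂ F z := Osgood.analyticAt hF z

end Pool.Agent.DRB
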