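import Pool.Agent.DRB.Stmts
import Pool.Agent.DRB.Osgood

/-!
# GROWD: growth of partial derivatives
-/

open scoped BigOperators Topology
open Matrix Metric

namespace Pool.Agent.DRB

theorem growD_proof : Stmt_GrowD := by
  intro g F j hF hC
  obtain ⟨C, hC⟩ := hC
  refine ⟨?_, 4 * |C|, fun z => ?_⟩
  · intro z
    have h1 : AnalyticAt ℂ F z := differentiable_analyticAt hF z
    have h2 : AnalyticAt ℂ (fderiv ℂ F) z := h1.fderiv
    have h3 := (ContinuousLinearMap.apply ℂ ℂ (Pi.single j (1 : ℂ) : Fin g → ℂ)).analyticAt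
      (fderiv ℂ F z)
    exact (h3.comp h2).differentiableAt
  · have h1 : HasDerivAt (fun t : ℂ => F (z + t • (Pi.single j (1 : ℂ) : Fin g → ℂ)))
        (pd j F z) 0 := by
      have e1 : HasDerivAt (fun t : ℂ => z + t • (Pi.single j (1 : ℂ) : Fin g → ℂ))
          (Pi.single j (1 : ℂ) : Fin g → ℂ) 0 := by
        have := ((hasDerivAt_id (0 : ℂ)).smul_const (Pi.single j (1 : ℂ) : Fin g → ℂ)).const_add z
        simpa using this
      have e2 : HasFDerivAt F (fderiv ℂ F z) (z + (0 : ℂ) • (Pi.single j (1 : ℂ) : Fin g → ℂ)) := by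
        rw [zero_smul, add_zero]
        exact (hF z).hasFDerivAt
      exact e2.comp_hasDerivAt (0 : ℂ) e1
    have h2 : Differentiable ℂ
        (fun t : ℂ => F (z + t • (Pi.single j (1 : ℂ) : Fin g → ℂ))) := by
      refine hF.comp ?_
      fun_prop
    have h3 : ‖deriv (fun t : ℂ => F (z + t • (Pi.single j (1 : ℂ) : Fin g → ℂ))) 0‖ ≤
        Real.exp (4 * |C| * (1 + ‖z‖) ^ 2) / 1 := by
      refine Complex.norm_deriv_le_of_forall_mem_sphere_norm_le one_pos h2.diffContOnCl ?_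
      intro t ht
      rw [mem_sphere_zero_iff_norm] at ht
      refine (hC _).trans (Real.exp_le_exp.2 ?_)
      have h4 : ‖z + t • (Pi.single j (1 : ℂ) : Fin g → ℂ)‖ ≤ ‖z‖ + 1 := by
        refine (norm_add_le _ _).trans ?_
        rw [norm_smul, ht, one_mul, Pi.norm_single, norm_one]
      have h5 : (1 + ‖z + t • (Pi.single j (1 : ℂ) : Fin g → ℂ)‖) ^ 2 ≤ 4 * (1 + ‖z‖) ^ 2 := by
        have h6 : 0 ≤ ‖z‖ := norm_nonneg z
        have h7 : 0 ≤ ‖z + t • (Pi.single j (1 : ℂ) : Fin g → ℂ)‖ := norm_nonneg _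
        nlinarith
      calc C * (1 + ‖z + t • (Pi.single j (1 : ℂ) : Fin g → ℂ)‖) ^ 2
          ≤ |C| * (1 + ‖z + t • (Pi.single j (1 : ℂ) : Fin g → ℂ)‖) ^ 2 :=
            mul_le_mul_of_nonneg_right (le_abs_self C) (by positivity)
        _ ≤ |C| * (4 * (1 + ‖z‖) ^ 2) := mul_le_mul_of_nonneg_left h5 (abs_nonneg C)
        _ = 4 * |C| * (1 + ‖z‖) ^ 2 := by ring
    rw [h1.deriv, div_one] at h3
    exact h3

end Pool.Agent.DRB
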