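import Pool.Agent.DRB.Stmts

/-!
# GT: the block theorem
-/

set_option autoImplicit false

open scoped BigOperators
open Matrix

namespace Pool.Agent.DRB

noncomputable section

namespace GtX

variable {R C : Type} [Fintype R] [DecidableEq R] [Fintype C] [DecidableEq C]

/-! ### block matrices -/

omit [Fintype R] [Fintype C] in
theorem Bmat_add_smul (x x' : R → Matrix (Fin 2) (Fin 2) ℂ) (y y' : C → ℂ) (a : ℂ) :
    Bmat (x + a • x') (y + a • y') = Bmat x y + a • Bmat x' y' := by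
  unfold Bmat
  rw [Matrix.blockDiagonal_add, Matrix.blockDiagonal_smul, Matrix.fromBlocks_smul,
    Matrix.fromBlocks_add, ← Matrix.diagonal_smul, Matrix.diagonal_add]
  simp

theorem Bmat_mul (x x' : R → Matrix (Fin 2) (Fin 2) ℂ) (y y' : C → ℂ) :
    Bmat x y * Bmat x' y' = Bmat (fun r => x r * x' r) (fun i => y i * y' i) := by
  unfold Bmat
  rw [Matrix.fromBlocks_multiply, Matrix.blockDiagonal_mul, Matrix.diagonal_mul_diagonal]
  simp

omit [Fintype R] [Fintype C] in
theorem Bmat_one : Bmat (1 : R → Matrix (Fin 2) (Fin 2) ℂ) (1 : C → ℂ) = 1 := by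
  unfold Bmat
  have h : Matrix.diagonal (1 : C → ℂ) = 1 := Matrix.diagonal_one
  rw [Matrix.blockDiagonal_one, h, Matrix.fromBlocks_one]

omit [Fintype R] [Fintype C] in
theorem Bmat_zero : Bmat (0 : R → Matrix (Fin 2) (Fin 2) ℂ) (0 : C → ℂ) = 0 := by
  unfold Bmat
  have h : Matrix.diagonal (0 : C → ℂ) = 0 := Matrix.diagonal_zero
  rw [Matrix.blockDiagonal_zero, h, Matrix.fromBlocks_zero]

omit [Fintype R] [Fintype C] in
theorem Bmat_diag (a : R → Fin 2 → ℂ) (y : C → ℂ) :
    Matrix.diagonal (Sum.elim (fun p : Fin 2 × R => a p.2 p.1) y) =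
      Bmat (fun r => Matrix.diagonal (a r)) y := by
  unfold Bmat
  rw [Matrix.blockDiagonal_diagonal, Matrix.fromBlocks_diagonal]

theorem bm_mul (γ γ' : BGrp R C) : bm (γ * γ') = bm γ * bm γ' := by
  unfold bm
  rw [Bmat_mul]
  rfl

omit [Fintype R] [Fintype C] in
theorem bm_one : bm (1 : BGrp R C) = 1 := by
  unfold bm
  exact Bmat_one

def bmGL (γ : BGrp R C) : GL (BIdx R C) ℂ where
  val := bm γ
  inv := bm γ⁻¹
  val_inv := by rw [← bm_mul, mul_inv_cancel, bm_one]
  inv_val := by rw [← bm_mul, inv_mul_cancel, bm_one]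

theorem bmGL_val (γ : BGrp R C) : (bmGL γ).val = bm γ := rfl

theorem bmGL_inv (γ : BGrp R C) : ((bmGL γ)⁻¹).val = bm γ⁻¹ := rfl

/-! ### the Lie algebra -/

theorem DAct_zero (t : TData) {ι : Type} [Fintype ι] [DecidableEq ι] :
    DAct t (0 : Matrix ι ι ℂ) 0 = 0 := by
  apply LinearMap.ext
  intro u
  funext p
  simp [DAct]

/-- the Lie algebra of the stabilizer -/
def hh (hAdj : Stmt_Adj) (t : TData) (D : Submodule ℂ (TIdx t (BIdx R C) → ℂ)) :
    Submodule ℂ (BLie R C) where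
  carrier := {X | D.map (DAct t (Bmat X.1 X.2.1) X.2.2) ≤ D}
  add_mem' := by
    intro X Y hX hY
    have h := (hAdj (BIdx R C) t).2.2 (Bmat X.1 X.2.1) (Bmat Y.1 Y.2.1) X.2.2 Y.2.2 1
    have h2 := Bmat_add_smul X.1 Y.1 X.2.1 Y.2.1 (1 : ℂ)
    rw [one_smul, one_smul] at h2
    rw [← h2, one_mul, one_smul] at h
    rw [Set.mem_ofPred_eq, Submodule.map_le_iff_le_comap] at hX hY ⊢
    intro u hu
    have h3 : DAct t (Bmat (X + Y).1 (X + Y).2.1) (X + Y).2.2 u =
      DAct t (Bmat X.1 X.2.1) X.2.2 u + DAct t (Bmat Y.1 Y.2.1) Y.2.2 u := by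
      rw [← LinearMap.add_apply, ← h]
      rfl
    rw [Submodule.mem_comap, h3]
    exact D.add_mem (hX hu) (hY hu)
  zero_mem' := by
    rw [Set.mem_ofPred_eq, Submodule.map_le_iff_le_comap]
    intro u _
    have h3 : DAct t (Bmat (0 : BLie R C).1 (0 : BLie R C).2.1) (0 : BLie R C).2.2 = 0 := by
      rw [← DAct_zero (ι := BIdx R C) t, ← Bmat_zero]
      rfl
    rw [Submodule.mem_comap, h3]
    exact D.zero_mem
  smul_mem' := by
    intro a X hX
    have h := (hAdj (BIdx R C) t).2.2 0 (Bmat X.1 X.2.1) 0 X.2.2 a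
    have h2 := Bmat_add_smul 0 X.1 0 X.2.1 (a : ℂ)
    rw [zero_add, zero_add, Bmat_zero, zero_add] at h2
    rw [zero_add, zero_add, DAct_zero, zero_add, ← h2] at h
    rw [Set.mem_ofPred_eq, Submodule.map_le_iff_le_comap] at hX ⊢
    intro u hu
    have h3 : DAct t (Bmat (a • X).1 (a • X).2.1) (a • X).2.2 u =
      a • DAct t (Bmat X.1 X.2.1) X.2.2 u := by
      rw [← LinearMap.smul_apply, ← h]
      rfl
    rw [Submodule.mem_comap, h3]
    exact D.smul_mem a (hX hu)

theorem mem_hh (hAdj : Stmt_Adj) (t : TData) (D : Submodule ℂ (TIdx t (BIdx R C) → ℂ))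
    (X : BLie R C) : X ∈ hh hAdj t D ↔ ∀ u ∈ D, DAct t (Bmat X.1 X.2.1) X.2.2 u ∈ D := by
  show D.map (DAct t (Bmat X.1 X.2.1) X.2.2) ≤ D ↔ _
  rw [Submodule.map_le_iff_le_comap]
  rfl

theorem hh_bracket (hAdj : Stmt_Adj) (t : TData) (D : Submodule ℂ (TIdx t (BIdx R C) → ℂ))
    (X Y : BLie R C) (hX : X ∈ hh hAdj t D) (hY : Y ∈ hh hAdj t D) :
    ((fun r => X.1 r * Y.1 r - Y.1 r * X.1 r, 0, 0) : BLie R C) ∈ hh hAdj t D := by
  rw [mem_hh] at hX hY ⊢
  intro u hu
  have h := (hAdj (BIdx R C) t).2.1 (Bmat X.1 X.2.1) (Bmat Y.1 Y.2.1) X.2.2 Y.2.2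
  have h2 : Bmat X.1 X.2.1 * Bmat Y.1 Y.2.1 - Bmat Y.1 Y.2.1 * Bmat X.1 X.2.1 =
      Bmat (fun r => X.1 r * Y.1 r - Y.1 r * X.1 r) (0 : C → ℂ) := by
    rw [Bmat_mul, Bmat_mul]
    have h3 := Bmat_add_smul (fun r => X.1 r * Y.1 r) (fun r => Y.1 r * X.1 r)
      (fun i => X.2.1 i * Y.2.1 i) (fun i => Y.2.1 i * X.2.1 i) (-1 : ℂ)
    rw [neg_one_smul, neg_one_smul, neg_one_smul, ← sub_eq_add_neg, ← sub_eq_add_neg,
      ← sub_eq_add_neg] at h3
    rw [← h3]
    congr 1
    funext i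
    simp [mul_comm]
  rw [h2] at h
  show DAct t (Bmat (fun r => X.1 r * Y.1 r - Y.1 r * X.1 r) (0 : C → ℂ)) 0 u ∈ D
  rw [← h]
  exact D.sub_mem (hX _ (hY _ hu)) (hY _ (hX _ hu))

theorem hh_conj (hAdj : Stmt_Adj) (t : TData) (D : Submodule ℂ (TIdx t (BIdx R C) → ℂ))
    (γ : BGrp R C) (h1 : ∀ u ∈ D, TAct t (bm γ) γ.2.2.val u ∈ D)
    (h2 : ∀ u ∈ D, TAct t (bm γ⁻¹) (γ⁻¹).2.2.val u ∈ D)
    (X : BLie R C) (hX : X ∈ hh hAdj t D) :
    ((fun r => (γ.1 r).val * X.1 r * ((γ.1 r)⁻¹).val, X.2) : BLie R C) ∈ hh hAdj t D := by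
  rw [mem_hh] at hX ⊢
  intro u hu
  have h := (hAdj (BIdx R C) t).1 (bmGL γ) (Bmat X.1 X.2.1) γ.2.2.val X.2.2
  have h3 : (bmGL γ).val * Bmat X.1 X.2.1 * ((bmGL γ)⁻¹).val =
      Bmat (fun r => (γ.1 r).val * X.1 r * ((γ.1 r)⁻¹).val) X.2.1 := by
    rw [bmGL_val, bmGL_inv]
    unfold bm
    rw [Bmat_mul, Bmat_mul]
    congr 1
    funext i
    show (γ.2.1 i).val * X.2.1 i * ((γ.2.1 i)⁻¹).val = X.2.1 i
    rw [mul_comm (γ.2.1 i).val, mul_assoc, Units.mul_inv, mul_one]
  rw [h3] at h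
  -- write `u` as the image of an element of `D`
  have h4 : TAct t (bm γ) γ.2.2.val (TAct t (bm γ⁻¹) (γ⁻¹).2.2.val u) = u := by
    rw [← LinearMap.comp_apply, ← TAct_comp, ← bm_mul, mul_inv_cancel, bm_one]
    have : γ.2.2.val * (γ⁻¹).2.2.val = 1 := Units.mul_inv γ.2.2
    rw [this, TAct_one]
    rfl
  have h5 := h2 u hu
  rw [← h4]
  have h6 := congrArg (fun f => f (TAct t (bm γ⁻¹) (γ⁻¹).2.2.val u)) h
  simp only [LinearMap.comp_apply] at h6
  rw [bmGL_val] at h6
  show DAct t (Bmat (fun r => (γ.1 r).val * X.1 r * ((γ.1 r)⁻¹).val) X.2.1) X.2.2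
    (TAct t (bm γ) γ.2.2.val (TAct t (bm γ⁻¹) (γ⁻¹).2.2.val u)) ∈ D
  rw [← h6]
  exact h1 _ (hX _ h5)

/-! ### the Jordan decomposition of an element of the group -/

/-- block version of the Jordan decomposition -/
theorem jordan_mem (hAdj : Stmt_Adj) (hJd : Stmt_Jd) (t : TData)
    (D : Submodule ℂ (TIdx t (BIdx R C) → ℂ)) (γ : BGrp R C)
    (hγ : D.map (TAct t (bm γ) γ.2.2.val) ≤ D)
    (S : R → GL (Fin 2) ℂ) (α : R → Fin 2 → ℂˣ) (N : R → Matrix (Fin 2) (Fin 2) ℂ)
    (hN : ∀ r, N r * N r = 0)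
    (hc : ∀ r, Matrix.diagonal (fun i => (α r i).val) * N r =
      N r * Matrix.diagonal (fun i => (α r i).val))
    (he : ∀ r, (γ.1 r).val = (S r).val * Matrix.diagonal (fun i => (α r i).val) * (1 + N r) *
      ((S r)⁻¹).val) :
    (∀ L : Additive ℂˣ →+ ℂ,
      ((fun r => (S r).val * Matrix.diagonal (fun i => L (Additive.ofMul (α r i))) *
        ((S r)⁻¹).val, fun i => L (Additive.ofMul (γ.2.1 i)), L (Additive.ofMul γ.2.2)) :
        BLie R C) ∈ hh hAdj t D) ∧
    ((fun r => (S r).val * N r * ((S r)⁻¹).val, 0, 0) : BLie R C) ∈ hh hAdj t D := by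
  let Sg : BGrp R C := (S, 1, 1)
  let a : BIdx R C → ℂˣ := Sum.elim (fun p : Fin 2 × R => α p.2 p.1) γ.2.1
  have hSg : (bmGL Sg).val = Bmat (fun r => (S r).val) 1 := by
    rw [bmGL_val]
    rfl
  have hSi : ((bmGL Sg)⁻¹).val = Bmat (fun r => ((S r)⁻¹).val) 1 := by
    rw [bmGL_inv]
    unfold bm
    congr 1
  have hdiag : ∀ (f : ℂˣ → ℂ), Matrix.diagonal (fun i => f (a i)) =
      Bmat (fun r => Matrix.diagonal (fun i => f (α r i))) (fun i => f (γ.2.1 i)) := by
    intro f
    rw [← Bmat_diag (fun r i => f (α r i)) (fun i => f (γ.2.1 i))]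
    congr 1
    funext x
    rcases x with x | x <;> rfl
  have hNg : Bmat N (0 : C → ℂ) * Bmat N 0 = 0 := by
    rw [Bmat_mul, ← Bmat_zero (R := R) (C := C)]
    congr 1
    · funext r
      exact hN r
    · funext i
      simp
  have hcg : Matrix.diagonal (fun i => (a i).val) * Bmat N (0 : C → ℂ) =
      Bmat N 0 * Matrix.diagonal (fun i => (a i).val) := by
    rw [hdiag (fun z => z.val), Bmat_mul, Bmat_mul]
    congr 1
    · funext r
      exact hc r
    · funext i
      simp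
  have h1N : (1 : Matrix (BIdx R C) (BIdx R C) ℂ) + Bmat N 0 = Bmat (fun r => 1 + N r) 1 := by
    rw [← Bmat_one (R := R) (C := C)]
    have h := Bmat_add_smul (1 : R → Matrix (Fin 2) (Fin 2) ℂ) N (1 : C → ℂ) 0 1
    rw [one_smul, one_smul, one_smul, add_zero] at h
    exact h.symm
  have hbm : bm γ = (bmGL Sg).val * Matrix.diagonal (fun i => (a i).val) * (1 + Bmat N 0) *
      ((bmGL Sg)⁻¹).val := by
    rw [hSg, hSi, hdiag (fun z => z.val), h1N, Bmat_mul, Bmat_mul, Bmat_mul]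
    unfold bm
    congr 1
    · funext r
      exact he r
    · funext i
      simp
  have hJ := hJd (BIdx R C) t (bmGL Sg) a (Bmat N 0) γ.2.2 D hNg hcg (by rw [← hbm]; exact hγ)
  refine ⟨?_, ?_⟩
  · intro L
    have h := hJ.1 L
    rw [hSg, hSi, hdiag (fun z => L (Additive.ofMul z)), Bmat_mul, Bmat_mul,
      Submodule.map_le_iff_le_comap] at h
    rw [mem_hh]
    intro u hu
    have h2 := h hu
    rw [Submodule.mem_comap] at h2
    simpa using h2
  · have h := hJ.2
    rw [hSg, hSi, Bmat_mul, Bmat_mul, Submodule.map_le_iff_le_comap] at h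
    rw [mem_hh]
    intro u hu
    have h2 := h hu
    rw [Submodule.mem_comap] at h2
    have e : (fun i => (1 : C → ℂ) i * (0 : C → ℂ) i * (1 : C → ℂ) i) = (0 : C → ℂ) := by
      funext i
      simp
    rw [e] at h2
    exact h2

/-- square zero two by two matrices: trace and determinant of `1 + N` -/
theorem sq_zero (N : Matrix (Fin 2) (Fin 2) ℂ) (h : N * N = 0) : N.trace = 0 ∧ (1 + N).det = 1 := by
  have e00 := congrFun (congrFun h 0) 0
  have e01 := congrFun (congrFun h 0) 1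
  have e10 := congrFun (congrFun h 1) 0
  have e11 := congrFun (congrFun h 1) 1
  simp only [Matrix.mul_apply, Fin.sum_univ_two, Matrix.zero_apply] at e00 e01 e10 e11
  have ht : N 0 0 + N 1 1 = 0 := by
    by_contra hne
    have h1 : N 0 1 = 0 := by
      have : (N 0 0 + N 1 1) * N 0 1 = 0 := by linear_combination e01
      exact (mul_eq_zero.mp this).resolve_left hne
    have h2 : N 0 0 = 0 := by
      have : N 0 0 * N 0 0 = 0 := by
        rw [h1] at e00
        linear_combination e00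
      exact mul_self_eq_zero.mp this
    have h3 : N 1 1 = 0 := by
      have : N 1 1 * N 1 1 = 0 := by
        rw [h1] at e11
        linear_combination e11
      exact mul_self_eq_zero.mp this
    exact hne (by rw [h2, h3, add_zero])
  refine ⟨?_, ?_⟩
  · rw [Matrix.trace_fin_two]
    exact ht
  · rw [Matrix.det_fin_two]
    simp only [Matrix.add_apply, Matrix.one_apply_eq]
    have a1 : (1 : Matrix (Fin 2) (Fin 2) ℂ) 0 1 = 0 := by simp
    have a2 : (1 : Matrix (Fin 2) (Fin 2) ℂ) 1 0 = 0 := by simp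
    rw [a1, a2]
    linear_combination (1 + N 0 0) * ht - e00

theorem conj_scalar (S : GL (Fin 2) ℂ) (M : Matrix (Fin 2) (Fin 2) ℂ) (a : ℂ)
    (h : S.val * M * (S⁻¹).val = a • 1) : M = a • 1 := by
  have h1 : (S⁻¹).val * (S.val * M * (S⁻¹).val) * S.val = M := by
    calc (S⁻¹).val * (S.val * M * (S⁻¹).val) * S.val
        = ((S⁻¹).val * S.val) * M * ((S⁻¹).val * S.val) := by
          simp only [Matrix.mul_assoc]
      _ = M := by rw [Units.inv_mul, Matrix.one_mul, Matrix.mul_one]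
  rw [← h1, h, Matrix.mul_smul, Matrix.mul_one, Matrix.smul_mul, Units.inv_mul]

theorem trace_conj (S : GL (Fin 2) ℂ) (M : Matrix (Fin 2) (Fin 2) ℂ) :
    (S.val * M * (S⁻¹).val).trace = M.trace := by
  rw [Matrix.mul_assoc, Matrix.trace_mul_comm, Matrix.mul_assoc, Units.inv_mul, Matrix.mul_one]

theorem exists_hom (hHomx : Stmt_Homx) (z : ℂˣ) (hz : ∀ N : ℕ, 1 ≤ N → z ^ N ≠ 1) :
    ∃ L : Additive ℂˣ →+ ℂ, L (Additive.ofMul z) ≠ 0 := by
  by_contra hcon
  push Not at hcon
  have h := hHomx 1 (fun _ => z) (fun _ => 1) (by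
    intro L
    simp [hcon L])
  have h0 : {v : Fin 1 → ℂ | ∃ n : Fin 1 → ℤ, (∀ j, v j = n j) ∧
      ∃ N : ℕ, 1 ≤ N ∧ (∏ j, (fun _ : Fin 1 => z) j ^ n j) ^ N = 1} ⊆ {0} := by
    rintro v ⟨n, hn, N, hN, h1⟩
    have h2 : n 0 = 0 := by
      by_contra hne
      simp only [Finset.univ_unique, Fin.default_eq_zero, Fin.isValue,
        Finset.prod_singleton] at h1
      rw [← zpow_natCast, ← _root_.zpow_mul] at h1
      have h3 : z ^ (n 0 * (N : ℤ)).natAbs = 1 := by
        rcases Int.natAbs_eq (n 0 * (N : ℤ)) with h4 | h4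
        · rw [← zpow_natCast, ← h4]
          exact h1
        · rw [← zpow_natCast]
          have h5 : ((n 0 * (N : ℤ)).natAbs : ℤ) = -(n 0 * (N : ℤ)) := by omega
          rw [h5, _root_.zpow_neg, h1, inv_one]
      refine hz _ ?_ h3
      rw [Nat.one_le_iff_ne_zero, Int.natAbs_ne_zero]
      exact mul_ne_zero hne (by positivity)
    rw [Set.mem_singleton_iff]
    funext j
    rw [hn j, Subsingleton.elim j 0, h2]
    simp
  have h1 : (fun _ : Fin 1 => (1 : ℂ)) ∈ Submodule.span ℂ ({0} : Set (Fin 1 → ℂ)) :=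
    Submodule.span_mono h0 h
  rw [Submodule.span_zero_singleton, Submodule.mem_bot] at h1
  exact one_ne_zero (congrFun h1 0)

/-- every block has a non scalar element -/
theorem exists_nonscalar (hAdj : Stmt_Adj) (hJd : Stmt_Jd) (hJnf : Stmt_Jnf)
    (hHomx : Stmt_Homx) (c : C → C) (Γ : Subgroup (BGrp R C)) (hΓ : BHyp c Γ) (t : TData)
    (D : Submodule ℂ (TIdx t (BIdx R C) → ℂ))
    (hD : ∀ γ ∈ Γ, D.map (TAct t (bm γ) γ.2.2.val) ≤ D) (r : R) :
    ∃ X ∈ hh hAdj t D, ∀ a : ℂ, X.1 r ≠ a • (1 : Matrix (Fin 2) (Fin 2) ℂ) := by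
  obtain ⟨γ, hγ, hn⟩ := hΓ.h4 r
  choose S α N hN hc he using fun r' => hJnf (γ.1 r')
  obtain ⟨h1, h2⟩ := jordan_mem hAdj hJd t D γ (hD γ hγ) S α N hN hc he
  by_cases hNr : N r = 0
  · have hz : ∀ k : ℕ, 1 ≤ k → (α r 0 / α r 1) ^ k ≠ 1 := by
      intro k hk h3
      apply hn k hk
      have h4 : (α r 0) ^ k = (α r 1) ^ k := by
        rw [div_pow, div_eq_one] at h3
        exact h3
      refine ⟨((α r 1) ^ k : ℂˣ).val, ?_⟩
      have h5 : (γ.1 r).val ^ k = (S r).val * Matrix.diagonal (fun i => ((α r i) ^ k : ℂˣ).val) *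
          ((S r)⁻¹).val := by
        have h6 : (γ.1 r).val = (S r).val * Matrix.diagonal (fun i => (α r i).val) *
            ((S r)⁻¹).val := by
          rw [he r, hNr, add_zero, Matrix.mul_one]
        have h7 : ∀ j : ℕ, (γ.1 r).val ^ j = (S r).val *
            Matrix.diagonal (fun i => ((α r i) ^ j : ℂˣ).val) * ((S r)⁻¹).val := by
          intro j
          induction j with
          | zero =>
            simp only [pow_zero, Units.val_one]
            rw [Matrix.diagonal_one, Matrix.mul_one, Units.mul_inv]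
          | succ j ih =>
            rw [pow_succ, ih, h6]
            calc (S r).val * Matrix.diagonal (fun i => ((α r i) ^ j : ℂˣ).val) * ((S r)⁻¹).val *
                  ((S r).val * Matrix.diagonal (fun i => (α r i).val) * ((S r)⁻¹).val)
                = (S r).val * (Matrix.diagonal (fun i => ((α r i) ^ j : ℂˣ).val) *
                  (((S r)⁻¹).val * (S r).val) * Matrix.diagonal (fun i => (α r i).val)) *
                    ((S r)⁻¹).val := by simp only [Matrix.mul_assoc]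
              _ = _ := by
                rw [Units.inv_mul, Matrix.mul_one, Matrix.diagonal_mul_diagonal]
                congr 3
        exact h7 k
      rw [h5]
      have h8 : (fun i : Fin 2 => ((α r i) ^ k : ℂˣ).val) = fun _ => ((α r 1) ^ k : ℂˣ).val := by
        funext i
        fin_cases i
        · show ((α r 0) ^ k : ℂˣ).val = _
          rw [h4]
        · rfl
      rw [h8]
      have h9 : Matrix.diagonal (fun _ : Fin 2 => ((α r 1) ^ k : ℂˣ).val) =
          ((α r 1) ^ k : ℂˣ).val • (1 : Matrix (Fin 2) (Fin 2) ℂ) := by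
        rw [Matrix.smul_one_eq_diagonal]
      rw [h9, Matrix.mul_smul, Matrix.mul_one, Matrix.smul_mul, Units.mul_inv]
    obtain ⟨L, hL⟩ := exists_hom hHomx (α r 0 / α r 1) hz
    refine ⟨_, h1 L, ?_⟩
    intro a ha
    have h3 := conj_scalar (S r) _ a ha
    have h4 := congrFun (congrFun h3 0) 0
    have h5 := congrFun (congrFun h3 1) 1
    simp only [Matrix.diagonal_apply_eq, Matrix.smul_apply, Matrix.one_apply_eq] at h4 h5
    apply hL
    rw [ofMul_div, map_sub, h4, h5, sub_self]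
  · refine ⟨_, h2, ?_⟩
    intro a ha
    have h3 := conj_scalar (S r) _ a ha
    have h4 := hN r
    rw [h3] at h4
    have h5 := congrFun (congrFun h4 0) 0
    have h6 : a * a = 0 := by simpa using h5
    have h7 : a = 0 := mul_self_eq_zero.mp h6
    apply hNr
    rw [h3, h7, zero_smul]

/-- the central elements belong to the Lie algebra -/
theorem central_mem (hAdj : Stmt_Adj) (hJd : Stmt_Jd) (hJnf : Stmt_Jnf) (hCen : Stmt_Cen)
    (c : C → C) (Γ : Subgroup (BGrp R C)) (hΓ : BHyp c Γ) (t : TData)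
    (D : Submodule ℂ (TIdx t (BIdx R C) → ℂ))
    (hD : ∀ γ ∈ Γ, D.map (TAct t (bm γ) γ.2.2.val) ≤ D)
    (hs : ∀ r, ∀ Y : Matrix (Fin 2) (Fin 2) ℂ, Y.trace = 0 →
      ((Pi.single r Y, 0, 0) : BLie R C) ∈ hh hAdj t D)
    (y : C → ℂ) (μ : ℂ) (hy : ∀ i, y i + y (c i) = μ) :
    ((fun _ => (μ / 2) • 1, y, μ) : BLie R C) ∈ hh hAdj t D := by
  -- all traceless block elements
  have hs2 : ∀ X : R → Matrix (Fin 2) (Fin 2) ℂ, (∀ r, (X r).trace = 0) →
      ((X, 0, 0) : BLie R C) ∈ hh hAdj t D := by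
    intro X hX
    have h1 : ((X, 0, 0) : BLie R C) = ∑ r, ((Pi.single r (X r), 0, 0) : BLie R C) := by
      refine Prod.ext ?_ (Prod.ext ?_ ?_)
      · rw [Prod.fst_sum]
        exact (Finset.univ_sum_single X).symm
      · rw [Prod.snd_sum, Prod.fst_sum]
        simp
      · rw [Prod.snd_sum, Prod.snd_sum]
        simp
    rw [h1]
    exact Submodule.sum_mem _ fun r _ => hs r (X r) (hX r)
  let φ : ((C → ℂ) × ℂ) →ₗ[ℂ] BLie R C :=
    { toFun := fun p => (fun _ => (p.2 / 2) • 1, p.1, p.2)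
      map_add' := by
        intro p q
        refine Prod.ext ?_ rfl
        funext r
        show ((p.2 + q.2) / 2) • (1 : Matrix (Fin 2) (Fin 2) ℂ) =
          (p.2 / 2) • (1 : Matrix (Fin 2) (Fin 2) ℂ) + (q.2 / 2) • 1
        rw [← add_smul, add_div]
      map_smul' := by
        intro a p
        refine Prod.ext ?_ rfl
        funext r
        show ((a * p.2) / 2) • (1 : Matrix (Fin 2) (Fin 2) ℂ) =
          a • ((p.2 / 2) • (1 : Matrix (Fin 2) (Fin 2) ℂ))
        rw [smul_smul, mul_div_assoc] }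
  have hZ := hCen R C c Γ hΓ ((hh hAdj t D).comap φ) (by
    intro γ hγ L
    rw [Submodule.mem_comap]
    choose S α N hN hc he using fun r' => hJnf (γ.1 r')
    obtain ⟨h1, -⟩ := jordan_mem hAdj hJd t D γ (hD γ hγ) S α N hN hc he
    have h2 := h1 L
    have h3 : (((fun r => (L (Additive.ofMul γ.2.2) / 2) • (1 : Matrix (Fin 2) (Fin 2) ℂ) -
        (S r).val * Matrix.diagonal (fun i => L (Additive.ofMul (α r i))) * ((S r)⁻¹).val),
        0, 0) : BLie R C) ∈ hh hAdj t D := by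
      apply hs2
      intro r
      rw [Matrix.trace_sub, Matrix.trace_smul, trace_conj, Matrix.trace_diagonal,
        Fin.sum_univ_two, Matrix.trace_one, Fintype.card_fin]
      have hdet : α r 0 * α r 1 = γ.2.2 := by
        have h4 := (hΓ.sim γ hγ).1 r
        rw [he r, Matrix.det_mul, Matrix.det_mul, Matrix.det_mul, (sq_zero (N r) (hN r)).2,
          Matrix.det_diagonal, Fin.prod_univ_two, mul_one] at h4
        have h5 : (S r).val.det * ((S r)⁻¹).val.det = 1 := by
          rw [← Matrix.det_mul, Units.mul_inv, Matrix.det_one]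
        apply Units.ext
        rw [Units.val_mul, ← h4]
        linear_combination (-((α r 0).val * (α r 1).val)) * h5
      have h6 : L (Additive.ofMul (α r 0)) + L (Additive.ofMul (α r 1)) =
          L (Additive.ofMul γ.2.2) := by
        rw [← map_add, ← ofMul_mul, hdet]
      rw [h6]
      simp
    have h4 := (hh hAdj t D).add_mem h2 h3
    convert h4 using 1
    refine Prod.ext ?_ (Prod.ext ?_ ?_)
    · funext r
      show (L (Additive.ofMul γ.2.2) / 2) • (1 : Matrix (Fin 2) (Fin 2) ℂ) =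
        (S r).val * Matrix.diagonal (fun i => L (Additive.ofMul (α r i))) * ((S r)⁻¹).val +
        ((L (Additive.ofMul γ.2.2) / 2) • (1 : Matrix (Fin 2) (Fin 2) ℂ) -
        (S r).val * Matrix.diagonal (fun i => L (Additive.ofMul (α r i))) * ((S r)⁻¹).val)
      rw [add_sub_cancel]
    · show (fun i => L (Additive.ofMul (γ.2.1 i))) = (fun i => L (Additive.ofMul (γ.2.1 i))) + 0
      rw [add_zero]
    · show L (Additive.ofMul γ.2.2) = L (Additive.ofMul γ.2.2) + 0
      rw [add_zero]) y μ hy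
  exact hZ

/-! ### determinant one -/

def Ut (x : ℂ) : Matrix (Fin 2) (Fin 2) ℂ := 1 + !![0, x; 0, 0]

def Lt (x : ℂ) : Matrix (Fin 2) (Fin 2) ℂ := 1 + !![0, 0; x, 0]

/-- determinant one matrices are products of transvections -/
theorem sl2_gen (M : Submonoid (Matrix (Fin 2) (Fin 2) ℂ)) (hU : ∀ x, Ut x ∈ M)
    (hL : ∀ x, Lt x ∈ M) (m : Matrix (Fin 2) (Fin 2) ℂ) (hm : m.det = 1) : m ∈ M := by
  have key : ∀ m : Matrix (Fin 2) (Fin 2) ℂ, m.det = 1 → m 1 0 ≠ 0 → m ∈ M := by
    intro m hm hc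
    have h1 : m = Ut ((m 0 0 - 1) / m 1 0) * Lt (m 1 0) * Ut ((m 1 1 - 1) / m 1 0) := by
      rw [Matrix.det_fin_two] at hm
      unfold Ut Lt
      ext i j
      fin_cases i <;> fin_cases j
      · simp [Matrix.mul_apply, Fin.sum_univ_two]
        field_simp
        ring
      · simp [Matrix.mul_apply, Fin.sum_univ_two]
        field_simp
        linear_combination -hm
      · simp [Matrix.mul_apply, Fin.sum_univ_two]
      · simp [Matrix.mul_apply, Fin.sum_univ_two]
        field_simp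
        ring
    rw [h1]
    exact M.mul_mem (M.mul_mem (hU _) (hL _)) (hU _)
  by_cases hc : m 1 0 = 0
  · have h0 : m 0 0 ≠ 0 := by
      intro h
      rw [Matrix.det_fin_two, h, hc] at hm
      simp at hm
    have h1 : Lt 1 * m ∈ M := by
      apply key
      · rw [Matrix.det_mul, hm, mul_one]
        unfold Lt
        rw [Matrix.det_fin_two]
        simp
      · unfold Lt
        simp [Matrix.mul_apply, Fin.sum_univ_two, hc, h0]
    have h2 : m = Lt (-1) * (Lt 1 * m) := by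
      rw [← Matrix.mul_assoc]
      have : Lt (-1) * Lt 1 = 1 := by
        unfold Lt
        ext i j
        fin_cases i <;> fin_cases j <;> simp [Matrix.mul_apply, Fin.sum_univ_two]
      rw [this, Matrix.one_mul]
    rw [h2]
    exact M.mul_mem (hL _) h1
  · exact key m hm hc

/-- the stabilizer of `D` among the block matrices `(x, 1)` -/
def stb (t : TData) (D : Submodule ℂ (TIdx t (BIdx R C) → ℂ)) :
    Submonoid (R → Matrix (Fin 2) (Fin 2) ℂ) where
  carrier := {x | ∀ u ∈ D, TAct t (Bmat x (1 : C → ℂ)) 1 u ∈ D}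
  mul_mem' := by
    intro x x' hx hx' u hu
    have h1 : Bmat (x * x') (1 : C → ℂ) = Bmat x 1 * Bmat x' 1 := by
      rw [Bmat_mul]
      congr 1
      funext i
      simp
    have h2 : TAct t (Bmat (x * x') (1 : C → ℂ)) 1 =
        (TAct t (Bmat x (1 : C → ℂ)) 1).comp (TAct t (Bmat x' (1 : C → ℂ)) 1) := by
      rw [← TAct_comp, h1, mul_one]
    rw [h2]
    exact hx _ (hx' u hu)
  one_mem' := by
    intro u hu
    rw [Bmat_one, TAct_one]
    exact hu

omit [Fintype R] [Fintype C] in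
theorem one_add_single (r : R) (Y : Matrix (Fin 2) (Fin 2) ℂ) :
    (1 : Matrix (BIdx R C) (BIdx R C) ℂ) + Bmat (Pi.single r Y) 0 =
      Bmat (Pi.mulSingle r (1 + Y)) 1 := by
  rw [← Bmat_one (R := R) (C := C)]
  have h := Bmat_add_smul (1 : R → Matrix (Fin 2) (Fin 2) ℂ) (Pi.single r Y) (1 : C → ℂ) 0 1
  rw [one_smul, one_smul, one_smul, add_zero] at h
  rw [← h]
  congr 1
  funext r'
  by_cases hr : r' = r
  · subst hr
    simp
  · simp [Pi.single_eq_of_ne hr, Pi.mulSingle_eq_of_ne hr]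

/-- all determinant one blocks preserve `D` -/
theorem sl_mem (hExp : Stmt_Exp) (hAdj : Stmt_Adj) (t : TData)
    (D : Submodule ℂ (TIdx t (BIdx R C) → ℂ))
    (hs : ∀ r, ∀ Y : Matrix (Fin 2) (Fin 2) ℂ, Y.trace = 0 →
      ((Pi.single r Y, 0, 0) : BLie R C) ∈ hh hAdj t D)
    (x : R → Matrix (Fin 2) (Fin 2) ℂ) (hx : ∀ r, (x r).det = 1) : x ∈ stb t D := by
  have h1 : ∀ r, ∀ Y : Matrix (Fin 2) (Fin 2) ℂ, Y.trace = 0 → Y * Y = 0 →
      Pi.mulSingle r (1 + Y) ∈ stb (C := C) t D := by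
    intro r Y hY hY2
    have h2 := hs r Y hY
    have h3 : Bmat (Pi.single r Y) (0 : C → ℂ) * Bmat (Pi.single r Y) 0 = 0 := by
      rw [Bmat_mul, ← Bmat_zero (R := R) (C := C)]
      congr 1
      · funext r'
        by_cases hr : r' = r
        · subst hr
          simpa using hY2
        · simp [Pi.single_eq_of_ne hr]
      · funext i
        simp
    have h4 := (hExp (BIdx R C) t D).1 _ h3 h2
    rw [one_add_single, Submodule.map_le_iff_le_comap] at h4
    intro u hu
    exact h4 hu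
  have h2 : ∀ r, ∀ m : Matrix (Fin 2) (Fin 2) ℂ, m.det = 1 →
      Pi.mulSingle r m ∈ stb (C := C) t D := by
    intro r m hm
    have h3 := sl2_gen ((stb (C := C) t D).comap
      (MonoidHom.mulSingle (fun _ : R => Matrix (Fin 2) (Fin 2) ℂ) r)) (by
        intro y
        apply h1
        · simp [Matrix.trace_fin_two]
        · ext i j
          fin_cases i <;> fin_cases j <;> simp [Matrix.mul_apply, Fin.sum_univ_two]) (by
        intro y
        apply h1
        · simp [Matrix.trace_fin_two]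
        · ext i j
          fin_cases i <;> fin_cases j <;> simp [Matrix.mul_apply, Fin.sum_univ_two]) m hm
    exact h3
  rw [← Finset.noncommProd_mulSingle x]
  exact Submonoid.noncommProd_mem _ _ _ _ fun r _ => h2 r _ (hx r)

end GtX

open GtX in
theorem gt_proof (hJd : Stmt_Jd) (hExp : Stmt_Exp) (hJnf : Stmt_Jnf) (hAd1 : Stmt_Ad1)
    (hCen : Stmt_Cen) (hAdj : Stmt_Adj) (hHomx : Stmt_Homx) : Stmt_Gt := by
  intro R C _ _ _ _ c Γ hΓ t D hD γ hγ
  classical
  -- the traceless blocks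
  have hs : ∀ r, ∀ Y : Matrix (Fin 2) (Fin 2) ℂ, Y.trace = 0 →
      ((Pi.single r Y, 0, 0) : BLie R C) ∈ hh hAdj t D := by
    intro r
    refine hAd1 R C c Γ hΓ (hh hAdj t D) ?_ ?_ r ?_
    · intro X hX Y hY
      exact hh_bracket hAdj t D X Y hX hY
    · intro γ' hγ' X hX
      refine hh_conj hAdj t D γ' ?_ ?_ X hX
      · exact fun u hu => (Submodule.map_le_iff_le_comap.mp (hD γ' hγ')) hu
      · exact fun u hu =>
          (Submodule.map_le_iff_le_comap.mp (hD γ'⁻¹ (Γ.inv_mem hγ'))) hu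
    · exact exists_nonscalar hAdj hJd hJnf hHomx c Γ hΓ t D hD r
  -- logarithms
  let μ : ℂ := Complex.log γ.2.2.val
  have hμ : Complex.exp μ = γ.2.2.val := Complex.exp_log γ.2.2.ne_zero
  obtain ⟨e⟩ : Nonempty (C ≃ Fin (Fintype.card C)) := ⟨Fintype.equivFin C⟩
  let y : C → ℂ := fun i => if e i < e (c i) then Complex.log (γ.2.1 i).val
    else μ - Complex.log (γ.2.1 (c i)).val
  have hy : ∀ i, y i + y (c i) = μ := by
    intro i
    have hne : e (c i) ≠ e i := fun h => hΓ.free i (e.injective h)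
    show (if e i < e (c i) then Complex.log (γ.2.1 i).val
      else μ - Complex.log (γ.2.1 (c i)).val) + (if e (c i) < e (c (c i)) then
        Complex.log (γ.2.1 (c i)).val else μ - Complex.log (γ.2.1 (c (c i))).val) = μ
    rw [hΓ.inv i]
    rcases lt_or_gt_of_ne hne with h | h
    · rw [if_neg h.not_gt, if_pos h]
      ring
    · rw [if_pos h, if_neg h.not_gt]
      ring
  have hey : ∀ i, Complex.exp (y i) = (γ.2.1 i).val := by
    intro i
    show Complex.exp (if e i < e (c i) then Complex.log (γ.2.1 i).val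
      else μ - Complex.log (γ.2.1 (c i)).val) = _
    split_ifs with h
    · exact Complex.exp_log (γ.2.1 i).ne_zero
    · rw [Complex.exp_sub, hμ, Complex.exp_log (γ.2.1 (c i)).ne_zero, ← hγ.2 i, Units.val_mul,
        mul_div_assoc, div_self (γ.2.1 (c i)).ne_zero, mul_one]
  have hcen := central_mem hAdj hJd hJnf hCen c Γ hΓ t D hD hs y μ hy
  -- the central element of the group
  have hc1 : ∀ u ∈ D, TAct t (Bmat (fun _ : R => (Complex.exp (μ / 2)) •
      (1 : Matrix (Fin 2) (Fin 2) ℂ)) (fun i => (γ.2.1 i).val)) γ.2.2.val u ∈ D := by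
    have h1 : Bmat (fun _ : R => (μ / 2) • (1 : Matrix (Fin 2) (Fin 2) ℂ)) y =
        Matrix.diagonal (Sum.elim (fun _ : Fin 2 × R => μ / 2) y) := by
      have := Bmat_diag (fun (_ : R) (_ : Fin 2) => μ / 2) y
      rw [this]
      congr 1
      funext r
      rw [Matrix.smul_one_eq_diagonal]
    have h2 : D.map (DAct t (Matrix.diagonal (Sum.elim (fun _ : Fin 2 × R => μ / 2) y)) μ) ≤ D := by
      rw [← h1]
      exact hcen
    have h3 := (hExp (BIdx R C) t D).2 _ _ h2
    have h4 : Matrix.diagonal (fun i => Complex.exp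
        (Sum.elim (fun _ : Fin 2 × R => μ / 2) y i)) =
        Bmat (fun _ : R => (Complex.exp (μ / 2)) • (1 : Matrix (Fin 2) (Fin 2) ℂ))
          (fun i => (γ.2.1 i).val) := by
      have h5 := Bmat_diag (fun (_ : R) (_ : Fin 2) => Complex.exp (μ / 2))
        (fun i => (γ.2.1 i).val)
      have h6 : (fun i => Complex.exp (Sum.elim (fun _ : Fin 2 × R => μ / 2) y i)) =
          Sum.elim (fun p : Fin 2 × R => (fun (_ : R) (_ : Fin 2) => Complex.exp (μ / 2))
            p.2 p.1) (fun i => (γ.2.1 i).val) := by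
        funext i
        rcases i with i | i
        · rfl
        · exact hey i
      rw [h6, h5]
      congr 1
      funext r
      rw [Matrix.smul_one_eq_diagonal]
    rw [h4, hμ, Submodule.map_le_iff_le_comap] at h3
    exact fun u hu => h3 hu
  -- the determinant one part
  let x : R → Matrix (Fin 2) (Fin 2) ℂ := fun r => Complex.exp (-(μ / 2)) • (γ.1 r).val
  have hx : ∀ r, (x r).det = 1 := by
    intro r
    show (Complex.exp (-(μ / 2)) • (γ.1 r).val).det = 1
    rw [Matrix.det_smul, Fintype.card_fin, hγ.1 r, ← hμ, ← Complex.exp_nat_mul,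
      ← Complex.exp_add]
    have : ((2 : ℕ) : ℂ) * -(μ / 2) + μ = 0 := by
      push_cast
      ring
    rw [this, Complex.exp_zero]
  have hx2 := sl_mem hExp hAdj t D hs x hx
  rw [Submodule.map_le_iff_le_comap]
  intro u hu
  have h5 : TAct t (bm γ) γ.2.2.val = (TAct t (Bmat (fun _ : R => (Complex.exp (μ / 2)) •
      (1 : Matrix (Fin 2) (Fin 2) ℂ)) (fun i => (γ.2.1 i).val)) γ.2.2.val).comp
      (TAct t (Bmat x (1 : C → ℂ)) 1) := by
    rw [← TAct_comp, Bmat_mul, mul_one]
    congr 1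
    unfold bm
    congr 1
    · funext r
      show (γ.1 r).val = (Complex.exp (μ / 2) • (1 : Matrix (Fin 2) (Fin 2) ℂ)) *
        (Complex.exp (-(μ / 2)) • (γ.1 r).val)
      rw [Matrix.smul_mul, Matrix.one_mul, smul_smul, ← Complex.exp_add]
      simp
    · funext i
      simp
  rw [Submodule.mem_comap, h5]
  exact hc1 _ (hx2 u hu)

end

end Pool.Agent.DRB
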