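import Pool.Agent.DRB.Stmts

open scoped BigOperators
open Matrix

namespace Pool.Agent.DRB

noncomputable section

namespace H5X

/-- Apply a field automorphism to all coordinates. -/
def vm {ι : Type} (σ : ℂ ≃ₐ[ℚ] ℂ) (v : ι → ℂ) : ι → ℂ := fun i => σ (v i)

theorem vm_mulVec {ι κ : Type} [Fintype κ] (σ : ℂ ≃ₐ[ℚ] ℂ) (M : Matrix ι κ ℂ) (v : κ → ℂ) :
    vm σ (M *ᵥ v) = (M.map σ) *ᵥ (vm σ v) := by
  funext i
  simp [vm, Matrix.mulVec, dotProduct]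

theorem vm_smul {ι : Type} (σ : ℂ ≃ₐ[ℚ] ℂ) (c : ℂ) (v : ι → ℂ) :
    vm σ (c • v) = σ c • vm σ v := by
  funext i
  simp [vm]

theorem vm_add {ι : Type} (σ : ℂ ≃ₐ[ℚ] ℂ) (v w : ι → ℂ) :
    vm σ (v + w) = vm σ v + vm σ w := by
  funext i
  simp [vm]

theorem vm_ne_zero {ι : Type} (σ : ℂ ≃ₐ[ℚ] ℂ) {v : ι → ℂ} (hv : v ≠ 0) : vm σ v ≠ 0 := by
  intro h
  apply hv
  funext i
  have := congrFun h i
  simpa [vm] using this

theorem vm_symm {ι : Type} (σ : ℂ ≃ₐ[ℚ] ℂ) (v : ι → ℂ) : vm σ (vm σ.symm v) = v := by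
  funext i
  simp [vm]

theorem toC_map {ι : Type} (σ : ℂ ≃ₐ[ℚ] ℂ) (α : Matrix ι ι ℚ) :
    (AbVar.toC α).map σ = AbVar.toC α := by
  ext i j
  simp [AbVar.toC]

variable {g : ℕ} (A : AbVar g)

theorem vm_eig (σ : ℂ ≃ₐ[ℚ] ℂ) {χ : A.Chr} {v : Idx g → ℂ} (hv : v ∈ A.eig χ) :
    vm σ v ∈ A.eig (A.galChr σ χ) := by
  intro α
  have h := hv α
  have h2 := vm_mulVec σ (AbVar.toC (α : Matrix (Idx g) (Idx g) ℚ)) v
  rw [toC_map, h, vm_smul] at h2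
  exact h2.symm

theorem gal_symm (σ : ℂ ≃ₐ[ℚ] ℂ) (χ : A.Chr) : A.galChr σ.symm (A.galChr σ χ) = χ := by
  ext α
  simp [AbVar.galChr]

theorem gal_symm' (σ : ℂ ≃ₐ[ℚ] ℂ) (χ : A.Chr) : A.galChr σ (A.galChr σ.symm χ) = χ := by
  ext α
  simp [AbVar.galChr]

/-- The permutation of the characters. -/
def galE (σ : ℂ ≃ₐ[ℚ] ℂ) : A.Chr ≃ A.Chr where
  toFun := A.galChr σ
  invFun := A.galChr σ.symm
  left_inv := gal_symm A σ
  right_inv := gal_symm' A σ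

/-- complex conjugation -/
def cj : ℂ ≃ₐ[ℚ] ℂ := Complex.conjAe.restrictScalars ℚ

theorem conjChr_eq (χ : A.Chr) : A.conjChr χ = A.galChr cj χ := by
  ext α
  simp [AbVar.galChr, AbVar.conjChr, cj]

theorem conj_conj (χ : A.Chr) : A.conjChr (A.conjChr χ) = χ := by
  ext α
  simp [AbVar.conjChr]

theorem rank_gal (σ : ℂ ≃ₐ[ℚ] ℂ) (χ : A.Chr) :
    Module.finrank ℂ (A.eig (A.galChr σ χ)) = Module.finrank ℂ (A.eig χ) := by
  let j : A.eig χ ≃+ A.eig (A.galChr σ χ) :=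
    { toFun := fun v => ⟨vm σ v.1, vm_eig A σ v.2⟩
      invFun := fun w => ⟨vm σ.symm w.1, by
        have := vm_eig A σ.symm w.2
        rwa [gal_symm] at this⟩
      left_inv := fun v => by
        apply Subtype.ext
        exact vm_symm σ.symm v.1
      right_inv := fun w => by
        apply Subtype.ext
        exact vm_symm σ w.1
      map_add' := fun v w => by
        apply Subtype.ext
        exact vm_add σ v.1 w.1 }
  have h := rank_eq_of_equiv_equiv (R := ℂ) (R' := ℂ) (M := A.eig χ)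
    (M₁ := A.eig (A.galChr σ χ)) σ j σ.bijective (fun r m => by
      apply Subtype.ext
      exact vm_smul σ r m.1)
  unfold Module.finrank
  rw [h]

theorem real_gal (hA : A.Hyp) (σ : ℂ ≃ₐ[ℚ] ℂ) {χ : A.Chr} (h : A.IsRealChr χ) :
    A.IsRealChr (A.galChr σ χ) := by
  by_contra hcon
  have h1 := hA.nonreal_dim _ hcon
  have h2 := hA.real_dim _ h
  rw [rank_gal, h2] at h1
  norm_num at h1

theorem nonreal_gal (hA : A.Hyp) (σ : ℂ ≃ₐ[ℚ] ℂ) {χ : A.Chr} (h : ¬ A.IsRealChr χ) :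
    ¬ A.IsRealChr (A.galChr σ χ) := by
  intro h1
  have h2 := real_gal A hA σ.symm h1
  rw [gal_symm] at h2
  exact h h2

theorem chr_algebraic (χ : A.Chr) (α : A.EndQ) : IsAlgebraic ℚ (χ α) := by
  have h1 : IsIntegral ℚ α := Algebra.IsIntegral.isIntegral α
  exact (h1.map χ).isAlgebraic

theorem gal_fix {τ : ℂ ≃ₐ[ℚ] ℂ} (hτ : τ ∈ GalA) (χ : A.Chr) : A.galChr τ χ = χ := by
  ext α
  exact hτ _ (chr_algebraic A χ α)

theorem exists_vec (hA : A.Hyp) {χ : A.Chr} (h : ¬ A.IsRealChr χ) :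
    ∃ v ∈ A.eig χ, v ≠ 0 ∧ (∀ τ ∈ GalA, vm τ v = v) ∧ ∀ w ∈ A.eig χ, ∃ c : ℂ, w = c • v := by
  have h1 := hA.nonreal_dim _ h
  have h2 : ∃ v : A.eig χ, v ≠ 0 := by
    by_contra hcon
    push Not at hcon
    have : Subsingleton (A.eig χ) := ⟨fun a b => by rw [hcon a, hcon b]⟩
    rw [Module.finrank_zero_of_subsingleton] at h1
    norm_num at h1
  obtain ⟨⟨v, hv⟩, hv0⟩ := h2
  have hv1 : v ≠ 0 := fun h => hv0 (Subtype.ext h)
  have h3 := (finrank_eq_one_iff_of_nonzero' (⟨v, hv⟩ : A.eig χ) hv0).1 h1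
  have h4 : ∀ w ∈ A.eig χ, ∃ c : ℂ, w = c • v := by
    intro w hw
    obtain ⟨c, hc⟩ := h3 ⟨w, hw⟩
    exact ⟨c, (congrArg Subtype.val hc).symm⟩
  obtain ⟨k, hk⟩ : ∃ k, v k ≠ 0 := by
    by_contra hcon
    push Not at hcon
    exact hv1 (funext hcon)
  have hin : (v k)⁻¹ • v ∈ A.eig χ := (A.eig χ).smul_mem _ hv
  have hk1 : ((v k)⁻¹ • v) k = 1 := by
    simp [hk]
  refine ⟨(v k)⁻¹ • v, hin, smul_ne_zero (inv_ne_zero hk) hv1, ?_, ?_⟩
  · intro τ hτ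
    have h5 := vm_eig A τ hin
    rw [gal_fix A hτ] at h5
    obtain ⟨c, hc⟩ := h4 _ h5
    have h6 := congrFun hc k
    have h7 : vm τ ((v k)⁻¹ • v) k = 1 := by
      unfold vm
      rw [hk1, map_one]
    rw [h7] at h6
    have h8 : c = (v k)⁻¹ := by
      rw [Pi.smul_apply, smul_eq_mul] at h6
      field_simp
      exact h6.symm
    rw [hc, h8]
  · intro w hw
    obtain ⟨c, hc⟩ := h4 w hw
    refine ⟨c * v k, ?_⟩
    rw [hc, smul_smul]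
    congr 1
    field_simp

/-- the element of `Gam` attached to `τ` -/
theorem per_isUnit : IsUnit A.per := by
  rw [Matrix.isUnit_iff_isUnit_det]
  exact A.nondeg

def perGL : GL (Idx g) ℂ := (per_isUnit A).unit

theorem perGL_val : (perGL A).val = A.per := rfl

def mapGL (σ : ℂ ≃ₐ[ℚ] ℂ) (x : GL (Idx g) ℂ) : GL (Idx g) ℂ :=
  Matrix.GeneralLinearGroup.map (σ : ℂ →+* ℂ) x

theorem mapGL_val (σ : ℂ ≃ₐ[ℚ] ℂ) (x : GL (Idx g) ℂ) : (mapGL σ x).val = x.val.map σ := rfl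

def pt (τ : ℂ ≃ₐ[ℚ] ℂ) : GL (Idx g) ℂ × ℂˣ :=
  ((perGL A)⁻¹ * mapGL τ (perGL A), Units.mk0 (τ tpi / tpi)
    (div_ne_zero (by simpa using tpi_ne_zero) tpi_ne_zero))

theorem perGL_inv : ((perGL A)⁻¹).val = A.per⁻¹ := by
  rw [Matrix.coe_units_inv, perGL_val]

theorem pt_val (τ : ℂ ≃ₐ[ℚ] ℂ) : (pt A τ).1.val = A.per⁻¹ * A.per.map τ := by
  unfold pt
  rw [Units.val_mul, perGL_inv, mapGL_val, perGL_val]

theorem pt_mem {τ : ℂ ≃ₐ[ℚ] ℂ} (hτ : τ ∈ GalA) : pt A τ ∈ Gam A := by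
  apply Subgroup.subset_closure
  refine ⟨AlgEquiv.refl, τ, hτ, ?_, ?_⟩
  · rw [pt_val]
    ext i j
    simp
  · rfl

def mapP (σ : ℂ ≃ₐ[ℚ] ℂ) (p : GL (Idx g) ℂ × ℂˣ) : GL (Idx g) ℂ × ℂˣ :=
  (mapGL σ p.1, Units.map (σ : ℂ →* ℂ) p.2)

theorem mapP_mem (hGb4 : Stmt_Gb4) (σ : ℂ ≃ₐ[ℚ] ℂ) {p : GL (Idx g) ℂ × ℂˣ} (hp : p ∈ Gam A) :
    mapP σ p ∈ Gam A := hGb4 g A σ p hp _ rfl rfl

/-- a generator is the conjugate of some `pt` -/
theorem gen_eq {p : GL (Idx g) ℂ × ℂˣ} {σ τ : ℂ ≃ₐ[ℚ] ℂ}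
    (h1 : (p.1 : Matrix (Idx g) (Idx g) ℂ) = (A.per⁻¹ * A.per.map τ).map σ)
    (h2 : (p.2 : ℂ) = σ (τ tpi / tpi)) : p = mapP σ (pt A τ) := by
  apply Prod.ext
  · apply Units.ext
    rw [h1, ← pt_val]
    rfl
  · apply Units.ext
    rw [h2]
    rfl

/-- `Y` describes the action of `Gam` on the one dimensional eigenspaces. -/
def IsY (Y : GL (Idx g) ℂ × ℂˣ → A.Chr → ℂˣ) : Prop :=
  ∀ p ∈ Gam A, ∀ χ : A.Chr, ¬ A.IsRealChr χ → ∀ v ∈ A.eig χ, p.1.val *ᵥ v = (Y p χ).val • v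

/-- the character of `Gam` attached to `n, m` -/
def ch (Y : GL (Idx g) ℂ × ℂˣ → A.Chr → ℂˣ) (n : A.Chr → ℤ) (m : ℤ)
    (p : GL (Idx g) ℂ × ℂˣ) : ℂˣ := (∏ᶠ χ, Y p χ ^ n χ) * p.2 ^ m

variable {A}

theorem smul_inj {v : Idx g → ℂ} (hv : v ≠ 0) {a b : ℂ} (h : a • v = b • v) : a = b := by
  by_contra hcon
  apply hv
  have : (a - b) • v = 0 := by rw [sub_smul, h, sub_self]
  exact (smul_eq_zero.1 this).resolve_left (sub_ne_zero.2 hcon)

theorem Y_mul (hA : A.Hyp) {Y : GL (Idx g) ℂ × ℂˣ → A.Chr → ℂˣ} (hY : IsY A Y)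
    {p q : GL (Idx g) ℂ × ℂˣ} (hp : p ∈ Gam A) (hq : q ∈ Gam A) {χ : A.Chr}
    (h : ¬ A.IsRealChr χ) : Y (p * q) χ = Y p χ * Y q χ := by
  obtain ⟨v, hv, hv0, -, -⟩ := exists_vec A hA h
  have h1 := hY (p * q) (mul_mem hp hq) χ h v hv
  have h2 : (p * q).1.val *ᵥ v = p.1.val *ᵥ (q.1.val *ᵥ v) := by
    rw [Matrix.mulVec_mulVec]
    rfl
  rw [h2, hY q hq χ h v hv, Matrix.mulVec_smul, hY p hp χ h v hv, smul_smul] at h1
  apply Units.ext
  rw [Units.val_mul, mul_comm]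
  exact (smul_inj hv0 h1).symm

theorem Y_one (hA : A.Hyp) {Y : GL (Idx g) ℂ × ℂˣ → A.Chr → ℂˣ} (hY : IsY A Y)
    {χ : A.Chr} (h : ¬ A.IsRealChr χ) : Y 1 χ = 1 := by
  have h1 := Y_mul hA hY (one_mem (Gam A)) (one_mem (Gam A)) h
  rw [mul_one] at h1
  exact (mul_eq_left.1 h1.symm)

theorem Y_inv (hA : A.Hyp) {Y : GL (Idx g) ℂ × ℂˣ → A.Chr → ℂˣ} (hY : IsY A Y)
    {p : GL (Idx g) ℂ × ℂˣ} (hp : p ∈ Gam A) {χ : A.Chr}
    (h : ¬ A.IsRealChr χ) : Y p⁻¹ χ = (Y p χ)⁻¹ := by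
  have h1 := Y_mul hA hY (inv_mem hp) hp h
  rw [inv_mul_cancel, Y_one hA hY h] at h1
  exact eq_inv_of_mul_eq_one_left h1.symm

theorem Y_map (hGb4 : Stmt_Gb4) (hA : A.Hyp) {Y : GL (Idx g) ℂ × ℂˣ → A.Chr → ℂˣ}
    (hY : IsY A Y) (σ : ℂ ≃ₐ[ℚ] ℂ)
    {p : GL (Idx g) ℂ × ℂˣ} (hp : p ∈ Gam A) {χ : A.Chr}
    (h : ¬ A.IsRealChr χ) : Y (mapP σ p) (A.galChr σ χ) = Units.map (σ : ℂ →* ℂ) (Y p χ) := by
  obtain ⟨v, hv, hv0, -, -⟩ := exists_vec A hA h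
  have h1 := hY (mapP σ p) (mapP_mem A hGb4 σ hp) (A.galChr σ χ) (nonreal_gal A hA σ h) _
    (vm_eig A σ hv)
  have h2 : (mapP σ p).1.val *ᵥ (vm σ v) = σ (Y p χ).val • vm σ v := by
    have h3 := vm_mulVec σ p.1.val v
    rw [hY p hp χ h v hv, vm_smul] at h3
    exact h3.symm
  rw [h2] at h1
  apply Units.ext
  exact (smul_inj (vm_ne_zero σ hv0) h1).symm

theorem Y_pt (hA : A.Hyp) {Y : GL (Idx g) ℂ × ℂˣ → A.Chr → ℂˣ} (hY : IsY A Y)
    {χ : A.Chr} (h : ¬ A.IsRealChr χ) :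
    ∃ ω : ℂˣ, ∀ τ ∈ GalA, Units.map (τ : ℂ →* ℂ) ω = Y (pt A τ) χ * ω := by
  obtain ⟨v, hv, hv0, hfix, -⟩ := exists_vec A hA h
  have hu0 : A.per *ᵥ v ≠ 0 := by
    intro h0
    apply hv0
    have h1 : (perGL A)⁻¹.val *ᵥ (A.per *ᵥ v) = v := by
      rw [Matrix.mulVec_mulVec, ← perGL_val A, ← Units.val_mul, inv_mul_cancel]
      simp
    rw [← h1, h0, Matrix.mulVec_zero]
  obtain ⟨k, hk⟩ : ∃ k, (A.per *ᵥ v) k ≠ 0 := by
    by_contra hcon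
    push Not at hcon
    exact hu0 (funext hcon)
  refine ⟨Units.mk0 _ hk, fun τ hτ => ?_⟩
  have h1 := hY (pt A τ) (pt_mem A hτ) χ h v hv
  rw [pt_val, ← Matrix.mulVec_mulVec] at h1
  have h2 : A.per.map τ *ᵥ v = (Y (pt A τ) χ).val • (A.per *ᵥ v) := by
    rw [← Matrix.mulVec_smul, ← h1, Matrix.mulVec_mulVec, ← perGL_inv, ← perGL_val A,
      ← Units.val_mul, mul_inv_cancel]
    simp
  have h3 := vm_mulVec τ A.per v
  rw [hfix τ hτ, h2] at h3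
  have h4 := congrFun h3 k
  apply Units.ext
  exact h4

theorem ch_mul (hA : A.Hyp) {Y : GL (Idx g) ℂ × ℂˣ → A.Chr → ℂˣ} (hY : IsY A Y)
    {n : A.Chr → ℤ} (hn : ∀ χ, A.IsRealChr χ → n χ = 0) (m : ℤ)
    {p q : GL (Idx g) ℂ × ℂˣ} (hp : p ∈ Gam A) (hq : q ∈ Gam A) :
    ch A Y n m (p * q) = ch A Y n m p * ch A Y n m q := by
  have := Fintype.ofFinite A.Chr
  unfold ch
  simp only [finprod_eq_prod_of_fintype]
  have h1 : ∀ χ, Y (p * q) χ ^ n χ = Y p χ ^ n χ * Y q χ ^ n χ := by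
    intro χ
    by_cases h : A.IsRealChr χ
    · rw [hn χ h]
      simp
    · rw [Y_mul hA hY hp hq h, mul_zpow]
  simp only [h1, Finset.prod_mul_distrib, Prod.snd_mul, mul_zpow]
  rw [mul_mul_mul_comm]

theorem ch_map (hGb4 : Stmt_Gb4) (hA : A.Hyp) {Y : GL (Idx g) ℂ × ℂˣ → A.Chr → ℂˣ}
    (hY : IsY A Y) {n : A.Chr → ℤ} (hn : ∀ χ, A.IsRealChr χ → n χ = 0) (m : ℤ)
    (σ : ℂ ≃ₐ[ℚ] ℂ) {p : GL (Idx g) ℂ × ℂˣ} (hp : p ∈ Gam A) :
    ch A Y n m (mapP σ p) =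
      Units.map (σ : ℂ →* ℂ) (ch A Y (fun χ => n (A.galChr σ χ)) m p) := by
  have := Fintype.ofFinite A.Chr
  unfold ch
  simp only [finprod_eq_prod_of_fintype]
  rw [map_mul, map_prod, map_zpow]
  congr 1
  rw [← (galE A σ).prod_comp]
  refine Finset.prod_congr rfl fun χ _ => ?_
  change Y (mapP σ p) (A.galChr σ χ) ^ n (A.galChr σ χ) = _
  by_cases h : A.IsRealChr χ
  · rw [hn _ (real_gal A hA σ h)]
    simp
  · rw [Y_map hGb4 hA hY σ hp h, map_zpow]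

/-- torsion on `pt` implies trivial -/
theorem ch_pt (hAut2 : Stmt_Aut2) (hA : A.Hyp) {Y : GL (Idx g) ℂ × ℂˣ → A.Chr → ℂˣ}
    (hY : IsY A Y) {n : A.Chr → ℤ} (hn : ∀ χ, A.IsRealChr χ → n χ = 0) (m : ℤ)
    (hT : ∀ p ∈ Gam A, ∃ N : ℕ, 1 ≤ N ∧ (ch A Y n m p) ^ N = 1) :
    ∀ τ ∈ GalA, ch A Y n m (pt A τ) = 1 := by
  have := Fintype.ofFinite A.Chr
  have hω : ∀ χ : A.Chr, ∃ ω : ℂˣ, ¬ A.IsRealChr χ →
      ∀ τ ∈ GalA, Units.map (τ : ℂ →* ℂ) ω = Y (pt A τ) χ * ω := by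
    intro χ
    by_cases h : A.IsRealChr χ
    · exact ⟨1, fun h' => absurd h h'⟩
    · obtain ⟨ω, hω⟩ := Y_pt hA hY h
      exact ⟨ω, fun _ => hω⟩
  choose ω hω using hω
  set z : ℂˣ := (∏ χ, ω χ ^ n χ) * (Units.mk0 tpi tpi_ne_zero) ^ m with hz
  have key : ∀ τ ∈ GalA, Units.map (τ : ℂ →* ℂ) z = ch A Y n m (pt A τ) * z := by
    intro τ hτ
    rw [hz, map_mul, map_prod, map_zpow]
    unfold ch
    rw [finprod_eq_prod_of_fintype, mul_mul_mul_comm, ← Finset.prod_mul_distrib]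
    congr 1
    · refine Finset.prod_congr rfl fun χ _ => ?_
      by_cases h : A.IsRealChr χ
      · rw [hn χ h]
        simp
      · rw [map_zpow, hω χ h τ hτ, mul_zpow]
    · rw [← mul_zpow]
      congr 1
      apply Units.ext
      change τ tpi = τ tpi / tpi * tpi
      rw [div_mul_cancel₀ _ tpi_ne_zero]
  have hcount : {w : ℂ | ∃ τ ∈ GalA, w = τ z.val}.Countable := by
    have h1 : {x : ℂ | IsAlgebraic ℚ x}.Countable := Algebraic.countable ℚ ℂ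
    refine (h1.image (fun x => x * z.val)).mono ?_
    rintro w ⟨τ, hτ, rfl⟩
    refine ⟨(ch A Y n m (pt A τ)).val, ?_, ?_⟩
    · obtain ⟨N, hN, hN1⟩ := hT _ (pt_mem A hτ)
      have h2 : (ch A Y n m (pt A τ)).val ^ N = 1 := by
        rw [← Units.val_pow_eq_pow_val, hN1, Units.val_one]
      have h3 : IsAlgebraic ℚ ((ch A Y n m (pt A τ)).val ^ N) := by
        rw [h2]
        exact isAlgebraic_one
      exact h3.of_pow (by omega)
    · have := congrArg Units.val (key τ hτ)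
      exact this.symm
  have halg := hAut2 _ hcount
  intro τ hτ
  have h1 := key τ hτ
  have h2 : Units.map (τ : ℂ →* ℂ) z = z := by
    apply Units.ext
    exact hτ _ halg
  rw [h2] at h1
  exact mul_eq_right.1 h1.symm

/-- torsion implies trivial -/
theorem ch_triv (hAut2 : Stmt_Aut2) (hGb4 : Stmt_Gb4) (hA : A.Hyp)
    {Y : GL (Idx g) ℂ × ℂˣ → A.Chr → ℂˣ}
    (hY : IsY A Y) {n : A.Chr → ℤ} (hn : ∀ χ, A.IsRealChr χ → n χ = 0) (m : ℤ)
    (hT : ∀ p ∈ Gam A, ∃ N : ℕ, 1 ≤ N ∧ (ch A Y n m p) ^ N = 1) :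
    (∀ p ∈ Gam A, ch A Y n m p = 1) ∧ ∀ σ : ℂ ≃ₐ[ℚ] ℂ, ∀ p ∈ Gam A,
      ch A Y (fun χ => n (A.galChr σ χ)) m p = 1 := by
  have hE : ∀ p ∈ Gam A, ch A Y n m p = 1 := by
    intro p hp
    unfold Gam at hp
    induction hp using Subgroup.closure_induction with
    | mem x hx =>
      obtain ⟨σ, τ, hτ, h1, h2⟩ := hx
      rw [gen_eq A h1 h2, ch_map hGb4 hA hY hn m σ (pt_mem A hτ)]
      have hn' : ∀ χ, A.IsRealChr χ → n (A.galChr σ χ) = 0 := fun χ h => hn _ (real_gal A hA σ h)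
      rw [ch_pt hAut2 hA hY hn' m ?_ τ hτ, map_one]
      intro p hp
      obtain ⟨N, hN, hN1⟩ := hT _ (mapP_mem A hGb4 σ hp)
      refine ⟨N, hN, ?_⟩
      rw [ch_map hGb4 hA hY hn m σ hp, ← map_pow] at hN1
      apply Units.ext
      have h3 := congrArg Units.val hN1
      change σ _ = 1 at h3
      exact (map_eq_one_iff σ σ.injective).1 h3
    | one =>
      have := ch_mul hA hY hn m (one_mem (Gam A)) (one_mem (Gam A))
      rw [mul_one] at this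
      exact mul_eq_left.1 this.symm
    | mul x y hx hy h1 h2 =>
      rw [ch_mul hA hY hn m hx hy, h1, h2, mul_one]
    | inv x hx h1 =>
      have hx' : x ∈ Gam A := hx
      have h2 := ch_mul hA hY hn m ((Gam A).inv_mem hx') hx'
      rw [inv_mul_cancel, h1, mul_one] at h2
      have h3 := ch_mul hA hY hn m (one_mem (Gam A)) (one_mem (Gam A))
      rw [mul_one] at h3
      rw [← h2]
      exact mul_eq_left.1 h3.symm
  refine ⟨hE, ?_⟩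
  intro σ p hp
  have h1 := hE _ (mapP_mem A hGb4 σ hp)
  rw [ch_map hGb4 hA hY hn m σ hp] at h1
  apply Units.ext
  have h3 := congrArg Units.val h1
  change σ _ = 1 at h3
  simpa using h3

theorem mem_span_of_iSup {p : (Idx g → ℂ) → Prop} (hEig : (⨆ χ, A.eig χ) = ⊤)
    (h0 : p 0) (hadd : ∀ v w, p v → p w → p (v + w))
    (hmem : ∀ χ : A.Chr, ∀ v ∈ A.eig χ, p v) (v : Idx g → ℂ) : p v := by
  have hv : v ∈ ⨆ χ, A.eig χ := by
    rw [hEig]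
    exact Submodule.mem_top
  exact Submodule.iSup_induction A.eig (motive := p) hv hmem h0 hadd

theorem form_eig (hPos : Stmt_Pos) (hA : A.Hyp) {χ ψ : A.Chr} {v w : Idx g → ℂ}
    (hv : v ∈ A.eig χ) (hw : w ∈ A.eig ψ) (hne : v ⬝ᵥ (A.riem *ᵥ w) ≠ 0) :
    ψ = A.conjChr χ := by
  obtain ⟨h1, -, h3⟩ := hPos g A hA.comm
  have key : ∀ α : A.EndQ, χ α = (starRingEnd ℂ) (ψ α) := by
    intro α
    obtain ⟨β, hβ, hr⟩ := h1 α.1 α.2
    have h4 := h3 α ⟨β, hβ⟩ ψ hr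
    have h5 : (AbVar.toC (α : Matrix (Idx g) (Idx g) ℚ) *ᵥ v) ⬝ᵥ (A.riem *ᵥ w) =
        v ⬝ᵥ (A.riem *ᵥ (AbVar.toC β *ᵥ w)) := by
      rw [Matrix.mulVec_mulVec, ← hr, ← Matrix.mulVec_mulVec,
        Matrix.dotProduct_mulVec v, Matrix.vecMul_transpose]
    have hw' := hw ⟨β, hβ⟩
    simp only at hw'
    rw [hv α, hw', h4, Matrix.mulVec_smul, smul_dotProduct, dotProduct_smul, smul_eq_mul,
      smul_eq_mul] at h5
    exact mul_right_cancel₀ hne h5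
  ext α
  rw [AbVar.conjChr]
  simp [key α]

theorem exists_form_ne (hLeg : Stmt_Leg) (hPos : Stmt_Pos) (hEig : Stmt_Eig) (hA : A.Hyp)
    {χ : A.Chr} {v : Idx g → ℂ} (hv : v ∈ A.eig χ) (hv0 : v ≠ 0) :
    ∃ w ∈ A.eig (A.conjChr χ), v ⬝ᵥ (A.riem *ᵥ w) ≠ 0 := by
  by_contra hcon
  push Not at hcon
  have h1 : ∀ w : Idx g → ℂ, v ⬝ᵥ (A.riem *ᵥ w) = 0 := by
    intro w
    refine mem_span_of_iSup (p := fun w => v ⬝ᵥ (A.riem *ᵥ w) = 0) (hEig g A hA).2 ?_ ?_ ?_ w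
    · simp
    · intro a b ha hb
      rw [Matrix.mulVec_add, dotProduct_add, ha, hb, add_zero]
    · intro ψ w hw
      by_contra hne
      have h2 := form_eig hPos hA hv hw hne
      subst h2
      exact hne (hcon w hw)
  have h2 : v ᵥ* A.riem = 0 := by
    apply dotProduct_eq_zero
    intro w
    rw [← Matrix.dotProduct_mulVec]
    exact h1 w
  exact hv0 (Matrix.eq_zero_of_vecMul_eq_zero (hLeg g A).2.2.1.ne_zero h2)

theorem vecMul_riem (hGb1 : Stmt_Gb1) {p : GL (Idx g) ℂ × ℂˣ} (hp : p ∈ Gam A) {u : Idx g → ℂ}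
    {c : ℂ} (hu : p.1.val *ᵥ u = c • u) :
    (u ᵥ* A.riem) ᵥ* (p.1⁻¹).val = (c * (p.2⁻¹).val) • (u ᵥ* A.riem) := by
  have h1 := (hGb1 g A p hp).2
  have h2 : A.riem * (p.1⁻¹).val = (p.2⁻¹).val • (p.1.valᵀ * A.riem) := by
    have h3 : (p.1.valᵀ * A.riem * p.1.val) * (p.1⁻¹).val = (p.2.val • A.riem) * (p.1⁻¹).val := by
      rw [h1]
    rw [Matrix.mul_assoc, ← Units.val_mul, mul_inv_cancel, Units.val_one, Matrix.mul_one,
      Matrix.smul_mul] at h3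
    rw [h3, smul_smul, ← Units.val_mul, inv_mul_cancel, Units.val_one, one_smul]
  rw [Matrix.vecMul_vecMul, h2, Matrix.vecMul_smul, ← Matrix.vecMul_vecMul,
    Matrix.vecMul_transpose, hu, Matrix.smul_vecMul, smul_smul, mul_comm]

theorem Y_conj (hLeg : Stmt_Leg) (hPos : Stmt_Pos) (hEig : Stmt_Eig) (hGb1 : Stmt_Gb1)
    (hA : A.Hyp) {Y : GL (Idx g) ℂ × ℂˣ → A.Chr → ℂˣ} (hY : IsY A Y)
    {p : GL (Idx g) ℂ × ℂˣ} (hp : p ∈ Gam A) {χ : A.Chr} (h : ¬ A.IsRealChr χ) :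
    Y p χ * Y p (A.conjChr χ) = p.2 := by
  obtain ⟨v, hv, hv0, -, -⟩ := exists_vec A hA h
  obtain ⟨w, hw, hne⟩ := exists_form_ne hLeg hPos hEig hA hv hv0
  have h' : ¬ A.IsRealChr (A.conjChr χ) := by
    rw [conjChr_eq]
    exact nonreal_gal A hA cj h
  have h1 := vecMul_riem hGb1 hp (hY p hp χ h v hv)
  have h2 : (v ᵥ* A.riem) = ((Y p χ).val * (p.2⁻¹).val) • ((v ᵥ* A.riem) ᵥ* p.1.val) := by
    rw [← Matrix.smul_vecMul, ← h1, Matrix.vecMul_vecMul, ← Units.val_mul, inv_mul_cancel,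
      Units.val_one, Matrix.vecMul_one]
  have h3 : v ⬝ᵥ (A.riem *ᵥ w) = ((Y p χ).val * (p.2⁻¹).val) *
      ((Y p (A.conjChr χ)).val * (v ⬝ᵥ (A.riem *ᵥ w))) := by
    rw [Matrix.dotProduct_mulVec]
    nth_rewrite 1 [h2]
    rw [smul_dotProduct, ← Matrix.dotProduct_mulVec _ p.1.val, hY p hp _ h' w hw,
      dotProduct_smul, smul_eq_mul, smul_eq_mul]
  have h4 : (Y p χ).val * (p.2⁻¹).val * (Y p (A.conjChr χ)).val = 1 := by
    have h5 : ((Y p χ).val * (p.2⁻¹).val * (Y p (A.conjChr χ)).val) * (v ⬝ᵥ (A.riem *ᵥ w)) =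
        1 * (v ⬝ᵥ (A.riem *ᵥ w)) := by
      rw [one_mul]
      nth_rewrite 2 [h3]
      ring
    exact mul_right_cancel₀ hne h5
  have h6 : Y p χ * p.2⁻¹ * Y p (A.conjChr χ) = 1 := by
    apply Units.ext
    exact h4
  calc Y p χ * Y p (A.conjChr χ) = (Y p χ * p.2⁻¹ * Y p (A.conjChr χ)) * p.2 := by
        rw [mul_right_comm (Y p χ), inv_mul_cancel_right]
    _ = p.2 := by rw [h6, one_mul]

theorem ch_add (Y : GL (Idx g) ℂ × ℂˣ → A.Chr → ℂˣ) (n n' : A.Chr → ℤ) (m m' : ℤ)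
    (p : GL (Idx g) ℂ × ℂˣ) :
    ch A Y (n + n') (m + m') p = ch A Y n m p * ch A Y n' m' p := by
  have := Fintype.ofFinite A.Chr
  unfold ch
  simp only [finprod_eq_prod_of_fintype, Pi.add_apply, _root_.zpow_add, Finset.prod_mul_distrib]
  rw [mul_mul_mul_comm]

theorem ch_zero (Y : GL (Idx g) ℂ × ℂˣ → A.Chr → ℂˣ) (p : GL (Idx g) ℂ × ℂˣ) :
    ch A Y 0 0 p = 1 := by
  have := Fintype.ofFinite A.Chr
  unfold ch
  simp [finprod_eq_prod_of_fintype]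

theorem ch_neg (Y : GL (Idx g) ℂ × ℂˣ → A.Chr → ℂˣ) (n : A.Chr → ℤ) (m : ℤ)
    (p : GL (Idx g) ℂ × ℂˣ) : ch A Y (-n) (-m) p = (ch A Y n m p)⁻¹ := by
  apply eq_inv_of_mul_eq_one_left
  rw [← ch_add, neg_add_cancel, neg_add_cancel, ch_zero]

/-- the group of odd functions whose character is trivial -/
def Rodd (Y : GL (Idx g) ℂ × ℂˣ → A.Chr → ℂˣ) : AddSubgroup (A.Chr → ℤ) where
  carrier := {n | (∀ χ, n (A.conjChr χ) = - n χ) ∧ ∀ p ∈ Gam A, ch A Y n 0 p = 1}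
  zero_mem' := ⟨fun χ => by simp, fun p _ => ch_zero Y p⟩
  add_mem' := by
    rintro n n' ⟨h1, h2⟩ ⟨h1', h2'⟩
    refine ⟨fun χ => ?_, fun p hp => ?_⟩
    · simp only [Pi.add_apply]
      rw [h1, h1']
      ring
    · have := ch_add Y n n' 0 0 p
      rw [add_zero] at this
      rw [this, h2 p hp, h2' p hp, mul_one]
  neg_mem' := by
    rintro n ⟨h1, h2⟩
    refine ⟨fun χ => ?_, fun p hp => ?_⟩
    · simp only [Pi.neg_apply]
      rw [h1]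
    · have := ch_neg Y n 0 p
      rw [neg_zero] at this
      rw [this, h2 p hp, inv_one]

theorem prod_ite_zpow (f : A.Chr → ℂˣ) (χ : A.Chr) [Fintype A.Chr] [DecidableEq A.Chr] :
    ∏ ψ, f ψ ^ (if ψ = χ then (1 : ℤ) else 0) = f χ := by
  rw [Finset.prod_eq_single χ]
  · simp
  · intro ψ _ h
    simp [h]
  · intro h
    exact absurd (Finset.mem_univ χ) h

theorem gal_conj (hPos : Stmt_Pos) (hA : A.Hyp) (σ : ℂ ≃ₐ[ℚ] ℂ) (χ : A.Chr) :
    A.galChr σ (A.conjChr χ) = A.conjChr (A.galChr σ χ) := by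
  obtain ⟨h1, -, h3⟩ := hPos g A hA.comm
  have key : ∀ (ψ : A.Chr) (α : A.EndQ) (β : Matrix (Idx g) (Idx g) ℚ) (hβ : β ∈ A.EndQ),
      A.IsRosati α β → A.conjChr ψ α = ψ ⟨β, hβ⟩ := by
    intro ψ α β hβ hr
    rw [h3 α ⟨β, hβ⟩ ψ hr]
    rfl
  ext α
  obtain ⟨β, hβ, hr⟩ := h1 α.1 α.2
  rw [key (A.galChr σ χ) α β hβ hr]
  change σ (A.conjChr χ α) = σ (χ ⟨β, hβ⟩)
  rw [key χ α β hβ hr]

theorem fin_pow {c : ℤ} (hc : c ≠ 0) : {r : ℂˣ | r ^ c = 1}.Finite := by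
  have hN : c.natAbs ≠ 0 := Int.natAbs_ne_zero.2 hc
  have : NeZero c.natAbs := ⟨hN⟩
  have h0 : Finite (rootsOfUnity c.natAbs ℂ) := inferInstance
  have h1 : ((rootsOfUnity c.natAbs ℂ : Subgroup ℂˣ) : Set ℂˣ).Finite := Set.toFinite _
  refine h1.subset ?_
  intro r hr
  rw [SetLike.mem_coe, mem_rootsOfUnity]
  rcases Int.natAbs_eq c with h | h
  · have hr' : r ^ c = 1 := hr
    rw [h, zpow_natCast] at hr'
    exact hr'
  · have hr' : r ^ c = 1 := hr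
    rw [h, _root_.zpow_neg, zpow_natCast, inv_eq_one] at hr'
    exact hr'

theorem prod_zpow_sum {κ : Type*} (s : Finset κ) (n : κ → ℤ) (a : ℂˣ) :
    ∏ i ∈ s, a ^ n i = a ^ (∑ i ∈ s, n i) := by
  classical
  induction s using Finset.induction_on with
  | empty => simp
  | insert i s hi ih => rw [Finset.prod_insert hi, Finset.sum_insert hi, ih, _root_.zpow_add]

theorem rodd_bot (hFin : Stmt_Fin) (hAut2 : Stmt_Aut2) (hGb4 : Stmt_Gb4) (hLeg : Stmt_Leg)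
    (hPos : Stmt_Pos) (hEig : Stmt_Eig)
    (hGb1 : Stmt_Gb1) (hA : A.Hyp) {Y : GL (Idx g) ℂ × ℂˣ → A.Chr → ℂˣ} (hY : IsY A Y) :
    Rodd Y = ⊥ := by
  classical
  have := Fintype.ofFinite A.Chr
  by_contra hne
  have hodd : ∀ n ∈ Rodd Y, ∀ χ, A.IsRealChr χ → n χ = 0 := by
    intro n hn χ hχ
    have h1 := hn.1 χ
    have h2 : A.conjChr χ = χ := by
      ext α
      rw [AbVar.conjChr]
      simp only [AlgHom.comp_apply]
      exact Complex.conj_eq_iff_im.2 (hχ α)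
    rw [h2] at h1
    omega
  obtain ⟨χ, χ', hχχ, hr, hr', n, hn, c, hc, hψ⟩ := hA.cm (Rodd Y) (fun n hn => hn.1) (by
    intro σ n hn
    refine ⟨fun χ => ?_, fun p hp => ?_⟩
    · change n (A.galChr σ (A.conjChr χ)) = - n (A.galChr σ χ)
      rw [gal_conj hPos hA]
      exact hn.1 _
    · exact (ch_triv hAut2 hGb4 hA hY (hodd n hn) 0
        (fun p hp => ⟨1, le_refl 1, by rw [hn.2 p hp, one_pow]⟩)).2 σ p hp) hne
  have hrc : ∀ {ψ : A.Chr}, ¬ A.IsRealChr ψ → ¬ A.IsRealChr (A.conjChr ψ) := by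
    intro ψ h
    rw [conjChr_eq]
    exact nonreal_gal A hA cj h
  -- the relation
  have hrel : ∀ p ∈ Gam A, (Y p χ * (Y p χ')⁻¹) ^ (2 * c) = 1 := by
    intro p hp
    have h1 := hn.2 p hp
    unfold ch at h1
    rw [finprod_eq_prod_of_fintype, zpow_zero, mul_one] at h1
    have h2 : ∀ ψ, Y p ψ ^ n ψ = ((Y p ψ ^ (if ψ = χ then (1 : ℤ) else 0)) *
        (Y p ψ ^ (if ψ = A.conjChr χ then (1 : ℤ) else 0))⁻¹ *
        (Y p ψ ^ (if ψ = χ' then (1 : ℤ) else 0))⁻¹ *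
        (Y p ψ ^ (if ψ = A.conjChr χ' then (1 : ℤ) else 0))) ^ c := by
      intro ψ
      rw [← _root_.zpow_neg, ← _root_.zpow_neg, ← _root_.zpow_add, ← _root_.zpow_add,
        ← _root_.zpow_add, ← _root_.zpow_mul, hψ ψ, mul_comm c]
      congr 2
    simp only [h2] at h1
    rw [Finset.prod_zpow, Finset.prod_mul_distrib, Finset.prod_mul_distrib,
      Finset.prod_mul_distrib, Finset.prod_inv_distrib, Finset.prod_inv_distrib,
      prod_ite_zpow, prod_ite_zpow, prod_ite_zpow, prod_ite_zpow] at h1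
    have h3 := Y_conj hLeg hPos hEig hGb1 hA hY hp hr
    have h4 := Y_conj hLeg hPos hEig hGb1 hA hY hp hr'
    have h5 : (Y p χ * (Y p χ')⁻¹) ^ (2 : ℤ) = Y p χ * (Y p (A.conjChr χ))⁻¹ * (Y p χ')⁻¹ *
        Y p (A.conjChr χ') := by
      have h6 : (Y p (A.conjChr χ))⁻¹ = Y p χ * p.2⁻¹ := by
        rw [← h3, mul_inv, mul_inv_cancel_left]
      have h7 : Y p (A.conjChr χ') = (Y p χ')⁻¹ * p.2 := by
        rw [← h4, inv_mul_cancel_left]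
      rw [h6, h7]
      rw [show (2 : ℤ) = ((2 : ℕ) : ℤ) by norm_num, zpow_natCast, pow_two]
      have : p.2⁻¹ * p.2 = 1 := inv_mul_cancel _
      calc Y p χ * (Y p χ')⁻¹ * (Y p χ * (Y p χ')⁻¹) =
          Y p χ * Y p χ * (Y p χ')⁻¹ * (Y p χ')⁻¹ * (p.2⁻¹ * p.2) := by
            rw [this, mul_one]
            ac_rfl
        _ = _ := by ac_rfl
    rw [_root_.zpow_mul, h5]
    exact h1
  -- the map with a finite orbit
  obtain ⟨v, hv, hv0, -, -⟩ := exists_vec A hA hr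
  obtain ⟨u, hu, hu0, -, -⟩ := exists_vec A hA (hrc hr')
  obtain ⟨w, hw, hB⟩ := exists_form_ne hLeg hPos hEig hA hu hu0
  rw [conj_conj] at hw
  have hX := hFin g A (Matrix.vecMulVec v (u ᵥ* A.riem)) (by
    have hfin : ((fun r : ℂˣ => r.val • Matrix.vecMulVec v (u ᵥ* A.riem)) ''
        {r : ℂˣ | r ^ (2 * c) = 1}).Finite := (fin_pow (mul_ne_zero two_ne_zero hc)).image _
    refine hfin.subset ?_
    rintro Z ⟨p, hp, rfl⟩
    refine ⟨Y p χ * (Y p χ')⁻¹, hrel p hp, ?_⟩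
    have h1 := vecMul_riem hGb1 hp (hY p hp _ (hrc hr') u hu)
    have h2 := Y_conj hLeg hPos hEig hGb1 hA hY hp hr'
    have h3 : Y p (A.conjChr χ') * p.2⁻¹ = (Y p χ')⁻¹ := by
      rw [← h2, mul_inv, mul_comm (Y p χ')⁻¹, mul_inv_cancel_left]
    rw [Matrix.mul_vecMulVec, Matrix.vecMulVec_mul, hY p hp χ hr v hv, h1,
      ← Units.val_mul, h3, Matrix.smul_vecMulVec, Matrix.vecMulVec_smul, smul_smul,
      ← Units.val_mul])
  have hstab : ∀ M ∈ Submodule.span ℂ {Y | ∃ α ∈ A.EndQ, Y = AbVar.toC α}, M *ᵥ w ∈ A.eig χ' := by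
    intro M hM
    induction hM using Submodule.span_induction with
    | mem x hx =>
      obtain ⟨α, hα, rfl⟩ := hx
      have := hw ⟨α, hα⟩
      simp only at this
      rw [this]
      exact (A.eig χ').smul_mem _ hw
    | zero => rw [Matrix.zero_mulVec]; exact (A.eig χ').zero_mem
    | add x y _ _ hx hy => rw [Matrix.add_mulVec]; exact (A.eig χ').add_mem hx hy
    | smul a x _ hx => rw [Matrix.smul_mulVec]; exact (A.eig χ').smul_mem _ hx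
  have h1 := hstab _ hX
  rw [Matrix.vecMulVec_mulVec] at h1
  have h2 : v ∈ A.eig χ' := by
    have h3 : (u ᵥ* A.riem) ⬝ᵥ w ≠ 0 := by
      rw [← Matrix.dotProduct_mulVec]
      exact hB
    have h4 := (A.eig χ').smul_mem ((u ᵥ* A.riem) ⬝ᵥ w)⁻¹ h1
    simp only [op_smul_eq_smul] at h4
    rwa [smul_smul, inv_mul_cancel₀ h3, one_smul] at h4
  apply hχχ
  ext α
  have h5 := hv α
  rw [h2 α] at h5
  exact (smul_inj hv0 h5).symm

end H5X

open H5X in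
theorem h5_proof (hFin : Stmt_Fin) (hLind : Stmt_Lind) (hAut2 : Stmt_Aut2) (hEig : Stmt_Eig)
    (hPos : Stmt_Pos) (hGb1 : Stmt_Gb1) (hGb4 : Stmt_Gb4) (hLeg : Stmt_Leg) : Stmt_H5 := by
  intro g A hA Y hY n m hn hT
  have := Fintype.ofFinite A.Chr
  obtain ⟨hE, hEσ⟩ := ch_triv hAut2 hGb4 hA hY hn m hT
  have hconj : ∀ p ∈ Gam A, ch A Y (fun χ => n (A.conjChr χ)) m p = 1 := by
    intro p hp
    have := hEσ cj p hp
    simpa only [conjChr_eq] using this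
  have hbot := rodd_bot hFin hAut2 hGb4 hLeg hPos hEig hGb1 hA hY
  have hmem : (n + -(fun χ => n (A.conjChr χ))) ∈ Rodd Y := by
    refine ⟨fun χ => ?_, fun p hp => ?_⟩
    · simp only [Pi.add_apply, Pi.neg_apply]
      rw [conj_conj]
      ring
    · have h1 := ch_add Y n (-(fun χ => n (A.conjChr χ))) m (-m) p
      rw [add_neg_cancel] at h1
      rw [h1, ch_neg, hE p hp, hconj p hp, inv_one, mul_one]
  rw [hbot, AddSubgroup.mem_bot] at hmem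
  have hsym : ∀ χ, n (A.conjChr χ) = n χ := by
    intro χ
    have := congrFun hmem χ
    simp only [Pi.add_apply, Pi.neg_apply, Pi.zero_apply] at this
    omega
  refine ⟨hsym, ?_⟩
  by_contra hk
  set k : ℤ := 2 * m + ∑ᶠ χ, n χ with hkdef
  have hpow : ∀ p ∈ Gam A, p.2 ^ k = 1 := by
    intro p hp
    have h1 : ch A Y n m p * ch A Y (fun χ => n (A.conjChr χ)) m p = 1 := by
      rw [hE p hp, hconj p hp, mul_one]
    have h2 : ch A Y (fun χ => n (A.conjChr χ)) m p =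
        (∏ χ, Y p (A.conjChr χ) ^ n χ) * p.2 ^ m := by
      unfold ch
      rw [finprod_eq_prod_of_fintype]
      congr 1
      rw [← (galE A cj).prod_comp]
      refine Finset.prod_congr rfl fun χ _ => ?_
      change Y p (A.galChr cj χ) ^ n (A.conjChr (A.galChr cj χ)) = _
      rw [← conjChr_eq, conj_conj]
    rw [h2] at h1
    unfold ch at h1
    rw [finprod_eq_prod_of_fintype, mul_mul_mul_comm, ← Finset.prod_mul_distrib] at h1
    have h3 : ∀ χ, Y p χ ^ n χ * Y p (A.conjChr χ) ^ n χ = p.2 ^ n χ := by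
      intro χ
      by_cases h : A.IsRealChr χ
      · rw [hn χ h]
        simp
      · rw [← mul_zpow, Y_conj hLeg hPos hEig hGb1 hA hY hp h]
    simp only [h3] at h1
    rw [prod_zpow_sum, ← _root_.zpow_add, ← _root_.zpow_add] at h1
    rw [hkdef, finsum_eq_sum_of_fintype, ← h1]
    congr 1
    ring
  have hcount : {w : ℂ | ∃ τ ∈ GalA, w = τ tpi}.Countable := by
    have hfin : ((fun r : ℂˣ => r.val * tpi) '' {r : ℂˣ | r ^ k = 1}).Finite :=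
      (fin_pow hk).image _
    refine (hfin.subset ?_).countable
    rintro w ⟨τ, hτ, rfl⟩
    refine ⟨(pt A τ).2, hpow _ (pt_mem A hτ), ?_⟩
    change τ tpi / tpi * tpi = τ tpi
    rw [div_mul_cancel₀ _ tpi_ne_zero]
  have halg := hAut2 _ hcount
  apply hLind
  have h1 : (Real.pi : ℂ) = tpi * (2 * Complex.I)⁻¹ := by
    unfold tpi
    field_simp
  rw [h1]
  have hI : IsAlgebraic ℚ Complex.I := by
    refine ⟨Polynomial.X ^ 2 + 1, ?_, ?_⟩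
    · exact (Polynomial.monic_X_pow_add_C (1 : ℚ) two_ne_zero).ne_zero
    · simp
  have h2 : IsAlgebraic ℚ (2 : ℂ) := by
    simpa using isAlgebraic_algebraMap (R := ℚ) (A := ℂ) (2 : ℚ)
  exact halg.mul (h2.mul hI).inv

end

end Pool.Agent.DRB
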