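import Pool.Agent.DRB.Stmts

/-!
# HERM: positivity of the Riemann form
-/

open scoped BigOperators Topology
open Matrix Filter

namespace Pool.Agent.DRB

namespace HermX

noncomputable section

variable {g : ℕ}

/-- the basis of periods -/
def bas (A : AbVar g) : Module.Basis (Idx g) ℝ (Fin g → ℂ) :=
  Module.Basis.mk A.lat_indep (by
    refine (LinearIndependent.span_eq_top_of_card_eq_finrank' A.lat_indep ?_).ge
    rw [finrank_real_of_complex, Module.finrank_fin_fun, Fintype.card_sum, Fintype.card_fin]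
    ring)

theorem bas_apply (A : AbVar g) (i : Idx g) : bas A i = A.lat i := by
  unfold bas
  rw [Module.Basis.mk_apply]

/-- decomposition of a real linear function -/
theorem split (T : (Fin g → ℂ) →ₗ[ℝ] ℂ) (w : Fin g → ℂ) :
    T w = ∑ l, ((T (Pi.single l 1) - Complex.I * T (Pi.single l Complex.I)) / 2 * w l +
      (T (Pi.single l 1) + Complex.I * T (Pi.single l Complex.I)) / 2 *
        (starRingEnd ℂ) (w l)) := by
  have h1 : w = ∑ l, ((w l).re • (Pi.single l (1 : ℂ) : Fin g → ℂ) +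
      (w l).im • (Pi.single l Complex.I : Fin g → ℂ)) := by
    funext k
    rw [Finset.sum_apply, Finset.sum_eq_single k]
    · simp [Complex.re_add_im]
    · intro l _ hl
      simp [hl.symm]
    · intro h; exact absurd (Finset.mem_univ _) h
  conv_lhs => rw [h1]
  rw [map_sum]
  refine Finset.sum_congr rfl fun l _ => ?_
  rw [map_add, map_smul, map_smul, Complex.real_smul, Complex.real_smul]
  obtain ⟨x, hx⟩ : ∃ x : ℝ, x = (w l).re := ⟨_, rfl⟩
  obtain ⟨y, hy⟩ : ∃ y : ℝ, y = (w l).im := ⟨_, rfl⟩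
  have h2 : w l = x + y * Complex.I := by rw [hx, hy]; exact (Complex.re_add_im _).symm
  have h3 : (starRingEnd ℂ) (w l) = x - y * Complex.I := by
    rw [h2, map_add, map_mul, Complex.conj_ofReal, Complex.conj_ofReal, Complex.conj_I]
    ring
  rw [h3, ← hx, ← hy, h2]
  have hI : Complex.I * Complex.I = -1 := Complex.I_mul_I
  linear_combination (T (Pi.single l Complex.I) * y) * hI

/-- the form that is bilinear over `ℂ` -/
def B1 (P : Matrix (Fin g) (Fin g) ℂ) (z w : Fin g → ℂ) : ℂ := ∑ k, ∑ l, z k * P k l * w l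

/-- the sesquilinear form -/
def B2 (Q : Matrix (Fin g) (Fin g) ℂ) (z w : Fin g → ℂ) : ℂ :=
  ∑ k, ∑ l, z k * Q k l * (starRingEnd ℂ) (w l)

theorem B1_add_left (P : Matrix (Fin g) (Fin g) ℂ) (z z' w : Fin g → ℂ) :
    B1 P (z + z') w = B1 P z w + B1 P z' w := by
  unfold B1
  rw [← Finset.sum_add_distrib]
  refine Finset.sum_congr rfl fun k _ => ?_
  rw [← Finset.sum_add_distrib]
  refine Finset.sum_congr rfl fun l _ => ?_
  rw [Pi.add_apply]; ring

theorem B1_symm {P : Matrix (Fin g) (Fin g) ℂ} (hP : ∀ k l, P k l = P l k) (z w : Fin g → ℂ) :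
    B1 P z w = B1 P w z := by
  unfold B1
  rw [Finset.sum_comm]
  refine Finset.sum_congr rfl fun k _ => Finset.sum_congr rfl fun l _ => ?_
  rw [hP l k]; ring

theorem B2_add_left (Q : Matrix (Fin g) (Fin g) ℂ) (z z' w : Fin g → ℂ) :
    B2 Q (z + z') w = B2 Q z w + B2 Q z' w := by
  unfold B2
  rw [← Finset.sum_add_distrib]
  refine Finset.sum_congr rfl fun k _ => ?_
  rw [← Finset.sum_add_distrib]
  refine Finset.sum_congr rfl fun l _ => ?_
  rw [Pi.add_apply]; ring

theorem B2_smul_left (Q : Matrix (Fin g) (Fin g) ℂ) (c : ℂ) (z w : Fin g → ℂ) :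
    B2 Q (c • z) w = c * B2 Q z w := by
  unfold B2
  rw [Finset.mul_sum]
  refine Finset.sum_congr rfl fun k _ => ?_
  rw [Finset.mul_sum]
  refine Finset.sum_congr rfl fun l _ => ?_
  rw [Pi.smul_apply, smul_eq_mul]; ring

theorem B2_conj {Q : Matrix (Fin g) (Fin g) ℂ} (hQ : ∀ k l, Q l k = (starRingEnd ℂ) (Q k l))
    (z w : Fin g → ℂ) : B2 Q w z = (starRingEnd ℂ) (B2 Q z w) := by
  unfold B2
  rw [map_sum, Finset.sum_comm]
  refine Finset.sum_congr rfl fun k _ => ?_
  rw [map_sum]
  refine Finset.sum_congr rfl fun l _ => ?_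
  rw [map_mul, map_mul, Complex.conj_conj, hQ k l]
  ring

theorem B2_add_right {Q : Matrix (Fin g) (Fin g) ℂ}
    (hQ : ∀ k l, Q l k = (starRingEnd ℂ) (Q k l)) (z w w' : Fin g → ℂ) :
    B2 Q z (w + w') = B2 Q z w + B2 Q z w' := by
  rw [B2_conj hQ (w + w') z, B2_add_left, map_add, ← B2_conj hQ, ← B2_conj hQ]

theorem B2_smul_right {Q : Matrix (Fin g) (Fin g) ℂ}
    (hQ : ∀ k l, Q l k = (starRingEnd ℂ) (Q k l)) (c : ℂ) (z w : Fin g → ℂ) :
    B2 Q z (c • w) = (starRingEnd ℂ) c * B2 Q z w := by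
  rw [B2_conj hQ (c • w) z, B2_smul_left, map_mul, ← B2_conj hQ]

theorem B2_self {Q : Matrix (Fin g) (Fin g) ℂ}
    (hQ : ∀ k l, Q l k = (starRingEnd ℂ) (Q k l)) (z : Fin g → ℂ) : (B2 Q z z).im = 0 :=
  Complex.conj_eq_iff_im.1 (B2_conj hQ z z).symm

/-- The real linear map sending `lat i` to `lin i`. -/
def Lm (A : AbVar g) : (Fin g → ℂ) →ₗ[ℝ] (Fin g → ℂ) := (bas A).constr ℝ A.lin

theorem Lm_lat (A : AbVar g) (i : Idx g) : Lm A (A.lat i) = A.lin i := by
  unfold Lm
  rw [← bas_apply, Module.Basis.constr_basis]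

/-- `∑ z_k L(w)_k` -/
def Lf (A : AbVar g) (z w : Fin g → ℂ) : ℂ := ∑ k, z k * Lm A w k

theorem Lf_add_left (A : AbVar g) (z z' w : Fin g → ℂ) :
    Lf A (z + z') w = Lf A z w + Lf A z' w := by
  unfold Lf
  rw [← Finset.sum_add_distrib]
  refine Finset.sum_congr rfl fun k _ => ?_
  rw [Pi.add_apply]; ring

theorem Lf_add_right (A : AbVar g) (z w w' : Fin g → ℂ) :
    Lf A z (w + w') = Lf A z w + Lf A z w' := by
  unfold Lf
  rw [← Finset.sum_add_distrib]
  refine Finset.sum_congr rfl fun k _ => ?_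
  rw [map_add, Pi.add_apply]; ring

theorem Lf_smul_left (A : AbVar g) (c : ℝ) (z w : Fin g → ℂ) :
    Lf A (c • z) w = c * Lf A z w := by
  unfold Lf
  rw [Finset.mul_sum]
  refine Finset.sum_congr rfl fun k _ => ?_
  rw [Pi.smul_apply, Complex.real_smul]; ring

theorem Lf_smul_right (A : AbVar g) (c : ℝ) (z w : Fin g → ℂ) :
    Lf A z (c • w) = c * Lf A z w := by
  unfold Lf
  rw [Finset.mul_sum]
  refine Finset.sum_congr rfl fun k _ => ?_
  rw [map_smul, Pi.smul_apply, Complex.real_smul]; ring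

theorem Lf_lat (A : AbVar g) (i j : Idx g) :
    Lf A (A.lat i) (A.lat j) - Lf A (A.lat j) (A.lat i) = tpi * A.riem i j := by
  unfold Lf
  rw [Lm_lat, Lm_lat, ← Finset.sum_sub_distrib]
  have h : A.riem i j = (∑ k, (A.lat i k * A.lin j k - A.lat j k * A.lin i k)) / tpi := rfl
  rw [h, mul_div_cancel₀ _ tpi_ne_zero]

/-- the real part of `L(z,w) - L(w,z)` vanishes -/
theorem re_zero (hL : Stmt_Leg) (A : AbVar g) (z w : Fin g → ℂ) :
    (Lf A z w - Lf A w z).re = 0 := by
  let G : (Fin g → ℂ) →ₗ[ℝ] (Fin g → ℂ) →ₗ[ℝ] ℝ :=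
    LinearMap.mk₂ ℝ (fun z w => (Lf A z w - Lf A w z).re)
      (fun z z' w => by
        show (Lf A (z + z') w - Lf A w (z + z')).re = _
        rw [Lf_add_left, Lf_add_right, ← Complex.add_re]
        congr 1; ring)
      (fun c z w => by
        show (Lf A (c • z) w - Lf A w (c • z)).re = _
        rw [Lf_smul_left, Lf_smul_right, ← mul_sub, Complex.re_ofReal_mul]
        rfl)
      (fun z w w' => by
        show (Lf A z (w + w') - Lf A (w + w') z).re = _
        rw [Lf_add_left, Lf_add_right, ← Complex.add_re]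
        congr 1; ring)
      (fun c z w => by
        show (Lf A z (c • w) - Lf A (c • w) z).re = _
        rw [Lf_smul_left, Lf_smul_right, ← mul_sub, Complex.re_ofReal_mul]
        rfl)
  have hG : G = 0 := by
    refine (bas A).ext fun i => (bas A).ext fun j => ?_
    show (Lf A (bas A i) (bas A j) - Lf A (bas A j) (bas A i)).re = 0
    rw [bas_apply, bas_apply, Lf_lat]
    obtain ⟨n, hn⟩ := (hL g A).1 i j
    rw [hn]
    unfold tpi
    simp
  have := congrArg (fun T => T z w) hG
  exact this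

/-- the matrices of the two parts -/
def PM (A : AbVar g) : Matrix (Fin g) (Fin g) ℂ := Matrix.of fun k l =>
  (Lm A (Pi.single l 1) k - Complex.I * Lm A (Pi.single l Complex.I) k) / 2

def QM (A : AbVar g) : Matrix (Fin g) (Fin g) ℂ := Matrix.of fun k l =>
  (Lm A (Pi.single l 1) k + Complex.I * Lm A (Pi.single l Complex.I) k) / 2

theorem Lm_eq (A : AbVar g) (w : Fin g → ℂ) (k : Fin g) :
    Lm A w k = ∑ l, (PM A k l * w l + QM A k l * (starRingEnd ℂ) (w l)) :=
  split ((LinearMap.proj k : (Fin g → ℂ) →ₗ[ℝ] ℂ).comp (Lm A)) w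

theorem Lf_eq (A : AbVar g) (z w : Fin g → ℂ) :
    Lf A z w = B1 (PM A) z w + B2 (QM A) z w := by
  unfold Lf B1 B2
  rw [← Finset.sum_add_distrib]
  refine Finset.sum_congr rfl fun k _ => ?_
  rw [Lm_eq, Finset.mul_sum, ← Finset.sum_add_distrib]
  refine Finset.sum_congr rfl fun l _ => ?_
  ring

theorem Lf_single (A : AbVar g) (k l : Fin g) (a b : ℂ) :
    Lf A (Pi.single k a) (Pi.single l b) =
      a * (PM A k l * b + QM A k l * (starRingEnd ℂ) b) := by
  unfold Lf
  rw [Finset.sum_eq_single k]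
  · rw [Pi.single_eq_same, Lm_eq, Finset.sum_eq_single l]
    · rw [Pi.single_eq_same]
    · intro m _ hm
      rw [Pi.single_eq_of_ne hm, map_zero, mul_zero, mul_zero, add_zero]
    · intro h; exact absurd (Finset.mem_univ _) h
  · intro m _ hm
    rw [Pi.single_eq_of_ne hm, zero_mul]
  · intro h; exact absurd (Finset.mem_univ _) h

theorem types (hL : Stmt_Leg) (A : AbVar g) (k l : Fin g) :
    PM A k l = PM A l k ∧ QM A l k = (starRingEnd ℂ) (QM A k l) := by
  have h := fun a b : ℂ => re_zero hL A (Pi.single k a) (Pi.single l b)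
  simp only [Lf_single] at h
  have h1 := h 1 1
  have h2 := h Complex.I Complex.I
  have h3 := h Complex.I 1
  have h4 := h 1 Complex.I
  simp only [map_one, Complex.conj_I, Complex.sub_re, Complex.mul_re, Complex.add_re,
    Complex.add_im, Complex.mul_im, Complex.one_re, Complex.one_im, Complex.I_re, Complex.I_im,
    Complex.neg_re, Complex.neg_im] at h1 h2 h3 h4
  constructor
  · apply Complex.ext <;> linarith
  · apply Complex.ext
    · rw [Complex.conj_re]; linarith
    · rw [Complex.conj_im]; linarith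

/-- `riem` in terms of the sesquilinear form -/
theorem riem_eq (hL : Stmt_Leg) (A : AbVar g) (i j : Idx g) :
    A.riem i j = (((B2 (QM A) (A.lat i) (A.lat j)).im / Real.pi : ℝ) : ℂ) := by
  have h1 := Lf_lat A i j
  rw [Lf_eq, Lf_eq, B1_symm (fun k l => (types hL A k l).1) (A.lat i) (A.lat j),
    B2_conj (fun k l => (types hL A k l).2) (A.lat i) (A.lat j)] at h1
  have h2 : B2 (QM A) (A.lat i) (A.lat j) -
      (starRingEnd ℂ) (B2 (QM A) (A.lat i) (A.lat j)) =
      2 * (B2 (QM A) (A.lat i) (A.lat j)).im * Complex.I := by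
    rw [Complex.sub_conj]
    push_cast
    ring
  have h3 : tpi * A.riem i j = 2 * (B2 (QM A) (A.lat i) (A.lat j)).im * Complex.I := by
    rw [← h1, ← h2]; ring
  have hpi : (Real.pi : ℂ) ≠ 0 := by exact_mod_cast Real.pi_ne_zero
  have h4 : tpi * A.riem i j = tpi * ((((B2 (QM A) (A.lat i) (A.lat j)).im / Real.pi : ℝ) : ℂ)) := by
    rw [h3]
    unfold tpi
    push_cast
    field_simp
  exact mul_left_cancel₀ tpi_ne_zero h4

/-! ### The normalised theta function -/

/-- the constant in the automorphy of the norm -/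
def KK (A : AbVar g) (i : Idx g) : ℝ :=
  (A.cst i - B1 (PM A) (A.lat i) (A.lat i) / 2).re - (B2 (QM A) (A.lat i) (A.lat i)).re / 2

/-- the linear correction -/
def cc (A : AbVar g) (k : Fin g) : ℂ :=
  (((bas A).constr ℝ (KK A)) (Pi.single k 1) : ℝ) -
    Complex.I * (((bas A).constr ℝ (KK A)) (Pi.single k Complex.I) : ℝ)

theorem cc_re (A : AbVar g) (z : Fin g → ℂ) :
    (∑ k, cc A k * z k).re = ((bas A).constr ℝ (KK A)) z := by
  have h1 := split (Complex.ofRealCLM.toLinearMap.comp ((bas A).constr ℝ (KK A))) z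
  have h2 := congrArg Complex.re h1
  have h3 : ((Complex.ofRealCLM.toLinearMap.comp ((bas A).constr ℝ (KK A))) z).re =
      ((bas A).constr ℝ (KK A)) z := rfl
  rw [h3] at h2
  rw [h2, Complex.re_sum, Complex.re_sum]
  refine Finset.sum_congr rfl fun k _ => ?_
  have e1 : (Complex.ofRealCLM.toLinearMap.comp ((bas A).constr ℝ (KK A))) (Pi.single k 1) =
      ((((bas A).constr ℝ (KK A)) (Pi.single k 1) : ℝ) : ℂ) := rfl
  have e2 : (Complex.ofRealCLM.toLinearMap.comp ((bas A).constr ℝ (KK A)))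
      (Pi.single k Complex.I) =
      ((((bas A).constr ℝ (KK A)) (Pi.single k Complex.I) : ℝ) : ℂ) := rfl
  rw [e1, e2]
  unfold cc
  generalize ((bas A).constr ℝ (KK A)) (Pi.single k 1) = a
  generalize ((bas A).constr ℝ (KK A)) (Pi.single k Complex.I) = b
  simp [Complex.add_re, Complex.mul_re]
  ring

/-- the exponent -/
def qq (A : AbVar g) (z : Fin g → ℂ) : ℂ := B1 (PM A) z z / 2 + ∑ k, cc A k * z k

/-- the normalised theta function -/
def ph (A : AbVar g) (z : Fin g → ℂ) : ℂ := A.θ z * Complex.exp (-qq A z)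

/-- its invariant norm -/
def ps (A : AbVar g) (z : Fin g → ℂ) : ℝ := ‖ph A z‖ * Real.exp (-((B2 (QM A) z z).re / 2))

theorem ps_per (hL : Stmt_Leg) (A : AbVar g) (i : Idx g) (z : Fin g → ℂ) :
    ps A (z + A.lat i) = ps A z := by
  have hP := fun k l => (types hL A k l).1
  have hQ := fun k l => (types hL A k l).2
  set w := A.lat i with hw
  have h1 : (∑ k, A.lin i k * z k) = B1 (PM A) z w + B2 (QM A) z w := by
    rw [← Lf_eq]
    unfold Lf
    refine Finset.sum_congr rfl fun k _ => ?_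
    rw [hw, Lm_lat, mul_comm]
  have h2 : qq A (z + w) = qq A z + qq A w + B1 (PM A) z w := by
    unfold qq
    have e1 : B1 (PM A) (z + w) (z + w) =
        B1 (PM A) z z + B1 (PM A) w w + 2 * B1 (PM A) z w := by
      rw [B1_add_left, B1_symm hP z (z + w), B1_symm hP w (z + w), B1_add_left, B1_add_left,
        B1_symm hP w z]
      ring
    have e2 : ∑ k, cc A k * (z + w) k = ∑ k, cc A k * z k + ∑ k, cc A k * w k := by
      rw [← Finset.sum_add_distrib]
      refine Finset.sum_congr rfl fun k _ => ?_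
      rw [Pi.add_apply]; ring
    rw [e1, e2]; ring
  have h3 : (B2 (QM A) (z + w) (z + w)).re =
      (B2 (QM A) z z).re + (B2 (QM A) w w).re + 2 * (B2 (QM A) z w).re := by
    rw [B2_add_left, B2_add_right hQ, B2_add_right hQ, B2_conj hQ z w]
    simp only [Complex.add_re, Complex.conj_re]
    ring
  have h4 : ph A (z + w) = ph A z * Complex.exp (B2 (QM A) z w + A.cst i - qq A w) := by
    unfold ph
    rw [hw, A.θ_aut i z, ← hw, h1, h2]
    rw [mul_comm (Complex.exp (B1 (PM A) z w + B2 (QM A) z w + A.cst i)) (A.θ z), mul_assoc,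
      mul_assoc, ← Complex.exp_add, ← Complex.exp_add]
    congr 2
    ring
  have h5 : (A.cst i - qq A w).re = (B2 (QM A) w w).re / 2 := by
    unfold qq
    have h6 := cc_re A w
    have h7 : ((bas A).constr ℝ (KK A)) w = KK A i := by
      rw [hw, ← bas_apply, Module.Basis.constr_basis]
    rw [h7] at h6
    unfold KK at h6
    rw [← hw] at h6
    rw [← sub_sub, Complex.sub_re, h6]
    ring
  unfold ps
  rw [h4, norm_mul, Complex.norm_exp, h3, mul_assoc, ← Real.exp_add]
  congr 2
  have h8 : (B2 (QM A) z w + A.cst i - qq A w).re = (B2 (QM A) z w).re + (A.cst i - qq A w).re := by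
    rw [add_sub_assoc, Complex.add_re]
  rw [h8, h5]
  ring

theorem ps_cont (A : AbVar g) : Continuous (ps A) := by
  have hθ : Continuous A.θ := A.θ_entire.continuous
  unfold ps ph qq B1 B2
  fun_prop

theorem ps_bdd (hL : Stmt_Leg) (A : AbVar g) : ∃ B, ∀ z, ps A z ≤ B := by
  have hK : IsCompact ((fun t : Idx g → ℝ => ∑ i, t i • A.lat i) ''
      (Set.Icc (0 : Idx g → ℝ) 1)) := by
    refine (isCompact_Icc).image ?_
    fun_prop
  obtain ⟨B, hB⟩ := hK.exists_bound_of_continuousOn (ps_cont A).continuousOn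
  refine ⟨B, fun z => ?_⟩
  let H : AddSubgroup (Fin g → ℂ) :=
    { carrier := {v | ∀ z, ps A (z + v) = ps A z}
      add_mem' := by
        intro v w hv hw z
        rw [← add_assoc, hw, hv]
      zero_mem' := by intro z; rw [add_zero]
      neg_mem' := by
        intro v hv z
        have := hv (z + -v)
        rw [neg_add_cancel_right] at this
        exact this.symm }
  have hlat : ∀ i, A.lat i ∈ H := fun i z => ps_per hL A i z
  set x := (bas A).repr z with hx
  have hz : z = ∑ i, Int.fract (x i) • A.lat i + ∑ i, (⌊x i⌋ : ℤ) • A.lat i := by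
    rw [← Finset.sum_add_distrib]
    conv_lhs => rw [← (bas A).sum_repr z]
    refine Finset.sum_congr rfl fun i _ => ?_
    rw [bas_apply, ← hx, ← Int.cast_smul_eq_zsmul ℝ, ← add_smul, Int.fract_add_floor]
  have hm : ∑ i, (⌊x i⌋ : ℤ) • A.lat i ∈ H :=
    sum_mem fun i _ => AddSubgroup.zsmul_mem _ (hlat i) _
  have h1 : ps A z = ps A (∑ i, Int.fract (x i) • A.lat i) := by
    conv_lhs => rw [hz]
    exact hm _
  rw [h1]
  refine (le_abs_self _).trans (hB _ ⟨fun i => Int.fract (x i), ⟨fun i => Int.fract_nonneg _,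
    fun i => (Int.fract_lt_one _).le⟩, rfl⟩)

theorem ph_diff (A : AbVar g) : Differentiable ℂ (ph A) := by
  have hθ := A.θ_entire
  unfold ph qq B1
  fun_prop

/-- nonnegativity -/
theorem nonneg (hL : Stmt_Leg) (A : AbVar g) (z : Fin g → ℂ) : 0 ≤ (B2 (QM A) z z).re := by
  by_contra hneg
  push Not at hneg
  have hQ := fun k l => (types hL A k l).2
  obtain ⟨B, hB⟩ := ps_bdd hL A
  set N := (B2 (QM A) z z).re with hN
  set f : ℂ → ℂ := fun t => ph A (t • z) with hf
  have hfd : Differentiable ℂ f := by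
    have h1 : Differentiable ℂ fun t : ℂ => t • z := by fun_prop
    exact (ph_diff A).comp h1
  have hval : ∀ t : ℂ, ‖f t‖ ≤ B * Real.exp (‖t‖ ^ 2 * (N / 2)) := by
    intro t
    have h2 : (B2 (QM A) (t • z) (t • z)).re = ‖t‖ ^ 2 * N := by
      rw [B2_smul_left, B2_smul_right hQ, ← mul_assoc, Complex.mul_conj, Complex.re_ofReal_mul,
        Complex.normSq_eq_norm_sq]
    have h3 := hB (t • z)
    unfold ps at h3
    rw [h2] at h3
    have h4 : ‖f t‖ = ‖ph A (t • z)‖ * Real.exp (-(‖t‖ ^ 2 * N / 2)) *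
        Real.exp (‖t‖ ^ 2 * (N / 2)) := by
      rw [mul_assoc, ← Real.exp_add]
      have : -(‖t‖ ^ 2 * N / 2) + ‖t‖ ^ 2 * (N / 2) = 0 := by ring
      rw [this, Real.exp_zero, mul_one]
    rw [h4]
    exact mul_le_mul_of_nonneg_right h3 (Real.exp_pos _).le
  have hlim : Tendsto f (cocompact ℂ) (𝓝 0) := by
    rw [tendsto_zero_iff_norm_tendsto_zero]
    have h5 : Tendsto (fun t : ℂ => B * Real.exp (‖t‖ ^ 2 * (N / 2))) (cocompact ℂ) (𝓝 (B * 0)) := by
      refine Tendsto.const_mul _ ?_
      refine Real.tendsto_exp_atBot.comp ?_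
      refine Tendsto.atTop_mul_const_of_neg (by linarith) ?_
      exact (tendsto_pow_atTop (by norm_num)).comp (tendsto_norm_cocompact_atTop)
    rw [mul_zero] at h5
    exact squeeze_zero (fun _ => norm_nonneg _) hval h5
  have h0 := hfd.apply_eq_of_tendsto_cocompact 0 hlim
  have h6 : f 0 = A.θ 0 * Complex.exp (-qq A 0) := by
    rw [hf]; simp only [zero_smul]; rfl
  rw [h6] at h0
  rcases mul_eq_zero.1 h0 with h7 | h7
  · exact A.θ_zero h7
  · exact Complex.exp_ne_zero _ h7

/-- positivity -/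
theorem positive (hL : Stmt_Leg) (A : AbVar g) (z : Fin g → ℂ) (hz : z ≠ 0) :
    0 < (B2 (QM A) z z).re := by
  have hQ := fun k l => (types hL A k l).2
  refine lt_of_le_of_ne (nonneg hL A z) fun h0 => hz ?_
  have h1 : ∀ w, B2 (QM A) z w = 0 := by
    intro w
    by_contra hne
    set b := B2 (QM A) z w with hb
    have hb0 : 0 < ‖b‖ ^ 2 := by positivity
    set s : ℝ := ((B2 (QM A) w w).re + 1) / (2 * ‖b‖ ^ 2) with hs
    have h2 := nonneg hL A (w + (-(s * (starRingEnd ℂ) b) : ℂ) • z)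
    have h3 : (B2 (QM A) (w + (-(s * (starRingEnd ℂ) b) : ℂ) • z)
        (w + (-(s * (starRingEnd ℂ) b) : ℂ) • z)).re = (B2 (QM A) w w).re - 2 * s * ‖b‖ ^ 2 := by
      rw [B2_add_left, B2_add_right hQ, B2_add_right hQ, B2_smul_left, B2_smul_left,
        B2_smul_right hQ, B2_smul_right hQ, B2_conj hQ z w, ← hb]
      have e1 : (B2 (QM A) z z) = 0 := by
        apply Complex.ext
        · rw [Complex.zero_re]; exact h0.symm
        · exact B2_self hQ z
      rw [e1]
      have e2 : (starRingEnd ℂ) (-(s * (starRingEnd ℂ) b) : ℂ) = -(s * b) := by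
        rw [map_neg, map_mul, Complex.conj_ofReal, Complex.conj_conj]
      rw [e2, mul_zero, mul_zero, add_zero]
      have e3 : (-(s * b) * (starRingEnd ℂ) b : ℂ) = ((-(s * ‖b‖ ^ 2) : ℝ) : ℂ) := by
        rw [neg_mul, mul_assoc, Complex.mul_conj, Complex.normSq_eq_norm_sq]
        push_cast
        ring
      have e4 : (-(s * (starRingEnd ℂ) b) * b : ℂ) = ((-(s * ‖b‖ ^ 2) : ℝ) : ℂ) := by
        rw [← e3]; ring
      rw [e3, e4]
      simp only [Complex.add_re, Complex.ofReal_re]
      ring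
    rw [h3, hs] at h2
    have h4 : 2 * (((B2 (QM A) w w).re + 1) / (2 * ‖b‖ ^ 2)) * ‖b‖ ^ 2 =
        (B2 (QM A) w w).re + 1 := by
      field_simp
    rw [h4] at h2
    linarith
  -- nondegeneracy
  set x : Idx g → ℝ := fun i => (bas A).repr z i with hx
  have hz' : z = ∑ i, x i • A.lat i := by
    conv_lhs => rw [← (bas A).sum_repr z]
    refine Finset.sum_congr rfl fun i _ => ?_
    rw [bas_apply]
  have h5 : (fun i => (x i : ℂ)) ᵥ* A.riem = 0 := by
    funext j
    rw [Matrix.vecMul, dotProduct, Pi.zero_apply]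
    have h6 : ∀ i, (x i : ℂ) * A.riem i j =
        (((B2 (QM A) (x i • A.lat i) (A.lat j)).im / Real.pi : ℝ) : ℂ) := by
      intro i
      rw [riem_eq hL]
      have e : (x i • A.lat i : Fin g → ℂ) = ((x i : ℝ) : ℂ) • A.lat i := by
        funext k
        rw [Pi.smul_apply, Pi.smul_apply, Complex.real_smul, smul_eq_mul]
      rw [e, B2_smul_left, Complex.im_ofReal_mul, ← Complex.ofReal_mul]
      congr 1
      ring
    rw [Finset.sum_congr rfl fun i _ => h6 i, ← Complex.ofReal_sum, ← Finset.sum_div,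
      ← Complex.im_sum]
    have h7 : ∑ i, B2 (QM A) (x i • A.lat i) (A.lat j) = B2 (QM A) z (A.lat j) := by
      rw [hz']
      have : ∀ s : Finset (Idx g), ∑ i ∈ s, B2 (QM A) (x i • A.lat i) (A.lat j) =
          B2 (QM A) (∑ i ∈ s, x i • A.lat i) (A.lat j) := by
        classical
        intro s
        induction s using Finset.induction_on with
        | empty => simp [B2]
        | insert a s ha ih =>
          rw [Finset.sum_insert ha, Finset.sum_insert ha, B2_add_left, ih]
      exact this _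
    rw [h7, h1]
    simp
  have h8 := Matrix.eq_zero_of_vecMul_eq_zero ((hL g A).2.2.1.ne_zero) h5
  rw [hz']
  refine Finset.sum_eq_zero fun i _ => ?_
  have h9 := congrFun h8 i
  have h10 : x i = 0 := by simpa using h9
  rw [h10, zero_smul]

end

end HermX

open HermX in
theorem herm_proof (hL : Stmt_Leg) : Stmt_Herm := by
  intro g A
  refine ⟨Matrix.of fun k l => QM A k l / Real.pi, ?_, ?_, ?_⟩
  · ext k l
    rw [Matrix.conjTranspose_apply, Matrix.of_apply, Matrix.of_apply, star_div₀]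
    rw [show star (QM A l k) = QM A k l from (types hL A l k).2.symm,
      show star (Real.pi : ℂ) = Real.pi from Complex.conj_ofReal _]
  · intro z hz
    have h1 : (∑ k, ∑ l, z k * (Matrix.of fun k l => QM A k l / (Real.pi : ℂ)) k l *
        (starRingEnd ℂ) (z l)) = B2 (QM A) z z * ((1 / Real.pi : ℝ) : ℂ) := by
      unfold B2
      rw [Finset.sum_mul]
      refine Finset.sum_congr rfl fun k _ => ?_
      rw [Finset.sum_mul]
      refine Finset.sum_congr rfl fun l _ => ?_
      rw [Matrix.of_apply]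
      push_cast
      ring
    rw [h1, Complex.re_mul_ofReal]
    have := Real.pi_pos
    have := positive hL A z hz
    positivity
  · intro i j
    rw [riem_eq hL A i j]
    have h1 : (∑ k, ∑ l, A.lat i k * (Matrix.of fun k l => QM A k l / (Real.pi : ℂ)) k l *
        (starRingEnd ℂ) (A.lat j l)) =
        B2 (QM A) (A.lat i) (A.lat j) * ((1 / Real.pi : ℝ) : ℂ) := by
      unfold B2
      rw [Finset.sum_mul]
      refine Finset.sum_congr rfl fun k _ => ?_
      rw [Finset.sum_mul]
      refine Finset.sum_congr rfl fun l _ => ?_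
      rw [Matrix.of_apply]
      push_cast
      ring
    rw [h1, Complex.im_mul_ofReal]
    congr 1
    ring

end Pool.Agent.DRB
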