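import Pool.Agent.DRB.Stmts

/-! # Module HOMX: additive functions on the multiplicative group detect all relations -/

open scoped BigOperators TensorProduct

namespace Pool.Agent.DRB.HOMX

/-- Rational relations are detected. -/
theorem rat_rel {J : ℕ} (z : Fin J → ℂˣ) (c : Fin J → ℂ)
    (h : ∀ L : Additive ℂˣ →+ ℂ, ∑ j, c j * L (Additive.ofMul (z j)) = 0)
    (B : Module.Basis (Module.Basis.ofVectorSpaceIndex ℚ ℂ) ℚ ℂ) (l : _) :
    ∑ j, B.repr (c j) l • (TensorProduct.mk ℤ ℚ (Additive ℂˣ) 1 (Additive.ofMul (z j))) = 0 := by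
  rw [← Module.forall_dual_apply_eq_zero_iff ℚ]
  intro ℓ
  have h1 := h ((((Algebra.ofId ℚ ℂ).toLinearMap.restrictScalars ℤ).comp
    ((ℓ.restrictScalars ℤ).comp (TensorProduct.mk ℤ ℚ (Additive ℂˣ) 1))).toAddMonoidHom)
  have h2 : ∑ j, (ℓ (TensorProduct.mk ℤ ℚ (Additive ℂˣ) 1 (Additive.ofMul (z j)))) • c j = 0 := by
    rw [← h1]
    refine Finset.sum_congr rfl fun j _ => ?_
    rw [mul_comm, Algebra.smul_def]
    rfl
  have h3 := congrArg (fun t => B.repr t l) h2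
  simp only [map_sum, map_smul, map_zero, Finsupp.coe_finsetSum, Finset.sum_apply,
    Finsupp.coe_smul, Pi.smul_apply, Finsupp.coe_zero, Pi.zero_apply] at h3
  rw [map_sum, ← h3]
  refine Finset.sum_congr rfl fun j _ => ?_
  rw [map_smul, smul_eq_mul, smul_eq_mul, mul_comm]

/-- Clearing denominators. -/
theorem clear {J : ℕ} (q : Fin J → ℚ) : ∃ (N : ℕ) (n : Fin J → ℤ), 1 ≤ N ∧
    ∀ j, (N : ℚ) * q j = n j := by
  refine ⟨∏ j, (q j).den, fun j => (∏ i ∈ Finset.univ.erase j, ((q i).den : ℤ)) * (q j).num, ?_, ?_⟩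
  · exact Nat.one_le_iff_ne_zero.mpr (Finset.prod_ne_zero_iff.mpr fun j _ => (q j).den_nz)
  · intro j
    rw [← Finset.mul_prod_erase Finset.univ _ (Finset.mem_univ j)]
    push_cast
    have : ((q j).den : ℚ) * q j = (q j).num := by
      rw [mul_comm]; exact Rat.mul_den_eq_num (q j)
    rw [← this]; ring

theorem int_rel {J : ℕ} (z : Fin J → ℂˣ) (q : Fin J → ℚ)
    (h : ∑ j, q j • (TensorProduct.mk ℤ ℚ (Additive ℂˣ) 1 (Additive.ofMul (z j))) = 0) :
    (fun j => ((q j : ℚ) : ℂ)) ∈ Submodule.span ℂ {v : Fin J → ℂ | ∃ n : Fin J → ℤ,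
      (∀ j, v j = n j) ∧ ∃ N : ℕ, 1 ≤ N ∧ (∏ j, z j ^ n j) ^ N = 1} := by
  obtain ⟨N, n, hN, hn⟩ := clear q
  have hloc : IsLocalizedModule (nonZeroDivisors ℤ)
      (TensorProduct.mk ℤ ℚ (Additive ℂˣ) 1) := by
    rw [isLocalizedModule_iff_isBaseChange (nonZeroDivisors ℤ) ℚ]
    exact TensorProduct.isBaseChange ℤ (Additive ℂˣ) ℚ
  have h1 : TensorProduct.mk ℤ ℚ (Additive ℂˣ) 1 (∑ j, n j • Additive.ofMul (z j)) = 0 := by
    rw [map_sum]
    have h2 := congrArg (fun t => (N : ℚ) • t) h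
    simp only [Finset.smul_sum, smul_zero, smul_smul] at h2
    rw [← h2]
    refine Finset.sum_congr rfl fun j _ => ?_
    rw [hn j, map_smul, Int.cast_smul_eq_zsmul]
  obtain ⟨k, hk⟩ := (IsLocalizedModule.eq_zero_iff (nonZeroDivisors ℤ)
    (TensorProduct.mk ℤ ℚ (Additive ℂˣ) 1)).mp h1
  have hk0 : (k : ℤ) ≠ 0 := nonZeroDivisors.ne_zero k.2
  have h3 : (∏ j, z j ^ n j) ^ (k : ℤ) = 1 := by
    have h4 := congrArg Additive.toMul hk
    rw [toMul_zero] at h4
    rw [← h4]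
    have : (k • ∑ j, n j • Additive.ofMul (z j) : Additive ℂˣ) =
      (k : ℤ) • ∑ j, n j • Additive.ofMul (z j) := rfl
    rw [this, toMul_zsmul, toMul_sum]
    rfl
  have h5 : (∏ j, z j ^ n j) ^ (k : ℤ).natAbs = 1 := by
    rcases Int.natAbs_eq (k : ℤ) with h6 | h6
    · rw [h6, zpow_natCast] at h3; exact h3
    · rw [h6, zpow_neg, zpow_natCast, inv_eq_one] at h3; exact h3
  have h6 : (fun j => ((q j : ℚ) : ℂ)) = ((N : ℂ)⁻¹) • (fun j => ((n j : ℤ) : ℂ)) := by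
    funext j
    have h7 : ((N : ℚ) : ℂ) * ((q j : ℚ) : ℂ) = ((n j : ℚ) : ℂ) := by
      rw [← Rat.cast_mul, hn j]
    have hN0 : (N : ℂ) ≠ 0 := by
      exact_mod_cast (by omega : N ≠ 0)
    rw [Pi.smul_apply, smul_eq_mul, eq_inv_mul_iff_mul_eq₀ hN0]
    simpa using h7
  rw [h6]
  refine Submodule.smul_mem _ _ (Submodule.subset_span ⟨n, fun j => rfl, (k : ℤ).natAbs, ?_, h5⟩)
  exact Nat.one_le_iff_ne_zero.mpr (Int.natAbs_ne_zero.mpr hk0)

end Pool.Agent.DRB.HOMX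

namespace Pool.Agent.DRB

theorem homx_proof : Stmt_Homx := by
  intro J z c h
  let B := Module.Basis.ofVectorSpace ℚ ℂ
  classical
  let S : Finset (Module.Basis.ofVectorSpaceIndex ℚ ℂ) :=
    Finset.univ.biUnion fun j => (B.repr (c j)).support
  have hc : c = ∑ l ∈ S, B l • (fun j => ((B.repr (c j) l : ℚ) : ℂ)) := by
    funext j
    rw [Finset.sum_apply]
    conv_lhs => rw [← B.linearCombination_repr (c j)]
    rw [Finsupp.linearCombination_apply, Finsupp.sum_of_support_subset (s := S)]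
    · refine Finset.sum_congr rfl fun l _ => ?_
      rw [Pi.smul_apply, smul_eq_mul, Algebra.smul_def, mul_comm]
      rfl
    · exact Finset.subset_biUnion_of_mem (fun j => (B.repr (c j)).support) (Finset.mem_univ j)
    · intro i _; rw [zero_smul]
  rw [hc]
  refine Submodule.sum_mem _ fun l _ => Submodule.smul_mem _ _ ?_
  exact HOMX.int_rel z _ (HOMX.rat_rel z c h B l)

end Pool.Agent.DRB
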