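import Pool.Agent.DRB.Stmts

/-!
# INDEP: algebraic independence of `g` of the functions `f_k` and of all `H_j`
-/

set_option autoImplicit false

open scoped BigOperators Topology
open Matrix Filter

namespace Pool.Agent.DRB

noncomputable section

namespace IndepX

/-- The derivative of a complex differentiable function (of several variables) is continuous. -/
theorem continuousAt_fderiv {E : Type} [NormedAddCommGroup E] [NormedSpace ℂ E] {f : E → ℂ} {x : E}
    (h : ∀ᶠ y in 𝓝 x, DifferentiableAt ℂ f y) : ContinuousAt (fderiv ℂ f) x := by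
  rw [Metric.continuousAt_iff]
  intro ε hε
  set L := fderiv ℂ f x with hL
  have hfd : HasFDerivAt f L x := (h.self_of_nhds).hasFDerivAt
  have h1 : ∀ᶠ y in 𝓝 x, ‖f y - f x - L (y - x)‖ ≤ (ε / 4) * ‖y - x‖ := by
    have := hfd.isLittleO
    exact this.def (by positivity)
  obtain ⟨δ, hδ, hδ'⟩ := Metric.eventually_nhds_iff_ball.1 (h.and h1)
  refine ⟨δ / 2, by positivity, fun {y} hy => ?_⟩
  rw [dist_eq_norm] at hy ⊢
  have hbound : ‖fderiv ℂ f y - L‖ ≤ 3 * (ε / 4) := by
    refine ContinuousLinearMap.opNorm_le_bound _ (by positivity) fun v => ?_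
    by_cases hv : v = 0
    · simp [hv]
    have hv' : 0 < ‖v‖ := norm_pos_iff.2 hv
    have hR : 0 < δ / (4 * ‖v‖) := by positivity
    have hmem : ∀ ζ : ℂ, ‖ζ‖ ≤ δ / (4 * ‖v‖) → ‖y + ζ • v - x‖ < 3 * δ / 4 := by
      intro ζ hζ
      calc ‖y + ζ • v - x‖ = ‖(y - x) + ζ • v‖ := by congr 1; abel
        _ ≤ ‖y - x‖ + ‖ζ • v‖ := norm_add_le _ _
        _ < δ / 2 + δ / 4 := by
            refine add_lt_add_of_lt_of_le hy ?_
            rw [norm_smul]
            calc ‖ζ‖ * ‖v‖ ≤ δ / (4 * ‖v‖) * ‖v‖ := by gcongr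
              _ = δ / 4 := by field_simp
        _ = 3 * δ / 4 := by ring
    have hball : ∀ ζ : ℂ, ‖ζ‖ ≤ δ / (4 * ‖v‖) → y + ζ • v ∈ Metric.ball x δ := by
      intro ζ hζ
      rw [Metric.mem_ball, dist_eq_norm]
      have := hmem ζ hζ
      linarith
    set G : ℂ → ℂ := fun ζ => f (y + ζ • v) - f x - L (y + ζ • v - x) with hG
    have hGd : ∀ ζ : ℂ, ‖ζ‖ ≤ δ / (4 * ‖v‖) → DifferentiableAt ℂ G ζ := by
      intro ζ hζ
      have hd := (hδ' _ (hball ζ hζ)).1
      have hlin : DifferentiableAt ℂ (fun ζ : ℂ => y + ζ • v) ζ := by fun_prop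
      have h2 : DifferentiableAt ℂ (fun ζ : ℂ => f (y + ζ • v)) ζ :=
        DifferentiableAt.comp ζ (f := fun ζ : ℂ => y + ζ • v) (g := f) hd hlin
      have h3 : DifferentiableAt ℂ (fun ζ : ℂ => L (y + ζ • v - x)) ζ :=
        L.differentiableAt.comp ζ (hlin.sub_const x)
      exact (h2.sub_const _).sub h3
    have hderiv : deriv G 0 = (fderiv ℂ f y - L) v := by
      have h0 : HasDerivAt (fun ζ : ℂ => y + ζ • v) v 0 := by
        have := ((hasDerivAt_id (0 : ℂ)).smul_const v).const_add y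
        simpa using this
      have hyd : HasFDerivAt f (fderiv ℂ f y) (y + (0 : ℂ) • v) := by
        rw [zero_smul, add_zero]
        have := (hδ' _ (hball 0 (by simpa using hR.le))).1
        rw [zero_smul, add_zero] at this
        exact this.hasFDerivAt
      have h2 : HasDerivAt (fun ζ : ℂ => f (y + ζ • v)) (fderiv ℂ f y v) 0 :=
        hyd.comp_hasDerivAt (0 : ℂ) h0
      have h3 : HasDerivAt (fun ζ : ℂ => L (y + ζ • v - x)) (L v) 0 :=
        L.hasFDerivAt.comp_hasDerivAt (0 : ℂ) (h0.sub_const x)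
      have h4 := (h2.sub_const (f x)).sub h3
      rw [hG]
      exact h4.deriv
    rw [← hderiv]
    refine (Complex.norm_deriv_le_of_forall_mem_sphere_norm_le (C := (ε / 4) * (3 * δ / 4)) hR
      ?_ ?_).trans_eq ?_
    · refine DifferentiableOn.diffContOnCl ?_
      rw [closure_ball _ hR.ne']
      intro ζ hζ
      exact (hGd ζ (by simpa using hζ)).differentiableWithinAt
    · intro ζ hζ
      have hζ' : ‖ζ‖ ≤ δ / (4 * ‖v‖) := le_of_eq (by simpa using hζ)
      refine ((hδ' _ (hball ζ hζ')).2).trans ?_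
      exact mul_le_mul_of_nonneg_left (hmem ζ hζ').le (by positivity)
    · field_simp
  calc ‖fderiv ℂ f y - L‖ ≤ 3 * (ε / 4) := hbound
    _ < ε := by linarith

theorem strict {E : Type} [NormedAddCommGroup E] [NormedSpace ℂ E] {f : E → ℂ} {x : E}
    (h : ∀ᶠ y in 𝓝 x, DifferentiableAt ℂ f y) : HasStrictFDerivAt f (fderiv ℂ f x) x :=
  hasStrictFDerivAt_of_hasFDerivAt_of_continuousAt (h.mono fun _ hy => hy.hasFDerivAt)
    (continuousAt_fderiv h)

/-- A finite family of functionals without common zero contains a basis. -/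
theorem exists_ks {g N : ℕ} (φ : Fin N → Module.Dual ℂ (Fin g → ℂ))
    (h : ∀ v, (∀ k, φ k v = 0) → v = 0) :
    ∃ ks : Fin g → Fin N, ∀ v, (∀ j, φ (ks j) v = 0) → v = 0 := by
  have htop : Submodule.span ℂ (Set.range φ) = ⊤ := by
    by_contra hne
    obtain ⟨F, hF0, hF⟩ := Submodule.exists_le_ker_of_lt_top _ (lt_top_iff_ne_top.2 hne)
    obtain ⟨v, rfl⟩ := (Module.evalEquiv ℂ (Fin g → ℂ)).surjective F
    apply hF0
    have : v = 0 := h v (fun k => by
      have := hF (Submodule.subset_span ⟨k, rfl⟩)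
      simpa using this)
    rw [this, map_zero]
  obtain ⟨f, hf, hspan, -⟩ := Submodule.exists_fun_fin_finrank_span_eq ℂ (Set.range φ)
  have hfin : Module.finrank ℂ (Submodule.span ℂ (Set.range φ)) = g := by
    rw [htop, finrank_top, Subspace.dual_finrank_eq, Module.finrank_fin_fun]
  choose ks hks using hf
  refine ⟨fun j => ks (Fin.cast hfin.symm j), fun v hv => ?_⟩
  have hle : Submodule.span ℂ (Set.range f) ≤ LinearMap.ker (Module.Dual.eval ℂ (Fin g → ℂ) v) := by
    rw [Submodule.span_le]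
    rintro _ ⟨i, rfl⟩
    have := hv (Fin.cast hfin i)
    simp only [Fin.cast_cast, Fin.cast_eq_self] at this
    rw [hks] at this
    simpa using this
  rw [hspan, htop, top_le_iff] at hle
  refine h v fun k => ?_
  have : φ k ∈ LinearMap.ker (Module.Dual.eval ℂ (Fin g → ℂ) v) := by rw [hle]; trivial
  simpa using this

/-- A polynomial vanishing on an open set is zero. -/
theorem eq_zero_of_nhds {g : ℕ} (P : MvPolynomial (Fin g) ℂ) (x0 : Fin g → ℂ)
    (h : ∀ᶠ x in 𝓝 x0, MvPolynomial.eval x P = 0) : P = 0 := by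
  obtain ⟨δ, hδ, hδ'⟩ := Metric.eventually_nhds_iff_ball.1 h
  refine MvPolynomial.funext_set (fun i => Metric.ball (x0 i) δ) (fun i => ?_) fun x hx => ?_
  · exact (infinite_of_mem_nhds (x0 i) (Metric.ball_mem_nhds _ hδ))
  · rw [map_zero]
    apply hδ'
    rw [Metric.mem_ball, dist_pi_lt_iff hδ]
    intro i
    exact hx i (Set.mem_univ _)

theorem eval_aeval {g n : ℕ} (P : MvPolynomial (Fin g) ℂ) (t : Fin n → ℂ)
    (G : Fin g → MvPolynomial (Fin n) ℂ) :
    MvPolynomial.eval t (MvPolynomial.aeval G P) =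
      MvPolynomial.eval (fun j => MvPolynomial.eval t (G j)) P := by
  have key : (MvPolynomial.eval t).comp
      (MvPolynomial.aeval G : MvPolynomial (Fin g) ℂ →ₐ[ℂ] MvPolynomial (Fin n) ℂ).toRingHom =
      MvPolynomial.eval (fun j => MvPolynomial.eval t (G j)) := by
    apply MvPolynomial.ringHom_ext <;> intro i <;> simp
  exact DFunLike.congr_fun key P

/-- A polynomial vanishing on a translate of a subgroup spanning the whole space is zero. -/
theorem eval_eq_zero_of_group {g : ℕ} (P : MvPolynomial (Fin g) ℂ) (y0 : Fin g → ℂ)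
    (X : AddSubmonoid (Fin g → ℂ)) (hX : Submodule.span ℂ (X : Set (Fin g → ℂ)) = ⊤)
    (h : ∀ x ∈ X, MvPolynomial.eval (y0 + x) P = 0) (y : Fin g → ℂ) :
    MvPolynomial.eval y P = 0 := by
  obtain ⟨f, hf, hspan, hli⟩ :=
    Submodule.exists_fun_fin_finrank_span_eq ℂ (X : Set (Fin g → ℂ))
  have hspan' := hspan.trans hX
  generalize Module.finrank ℂ (Submodule.span ℂ (X : Set (Fin g → ℂ))) = n at f hf hspan hli hspan'
  set Q : MvPolynomial (Fin n) ℂ := MvPolynomial.aeval
    (fun j => MvPolynomial.C (y0 j) + ∑ i, MvPolynomial.C (f i j) * MvPolynomial.X i) P with hQ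
  have hQe : ∀ t : Fin n → ℂ, MvPolynomial.eval t Q =
      MvPolynomial.eval (y0 + ∑ i, t i • f i) P := by
    intro t
    have key := eval_aeval P t
      (fun j => MvPolynomial.C (y0 j) + ∑ i, MvPolynomial.C (f i j) * MvPolynomial.X i)
    rw [hQ, key]
    congr 1
    congr 1
    funext j
    simp [Finset.sum_apply, mul_comm]
  have hQ0 : Q = 0 := by
    refine MvPolynomial.funext_set (fun _ => Set.range (Nat.cast : ℕ → ℂ)) (fun i => ?_)
      fun t ht => ?_
    · exact Set.infinite_range_of_injective Nat.cast_injective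
    · rw [map_zero, hQe]
      apply h
      refine sum_mem fun i _ => ?_
      obtain ⟨m, hm⟩ := ht i (Set.mem_univ _)
      rw [← hm]
      have : ((m : ℕ) : ℂ) • f i = m • f i := by
        rw [Nat.cast_smul_eq_nsmul]
      rw [this]
      exact X.nsmul_mem (hf i) m
  have hmem : y - y0 ∈ Submodule.span ℂ (Set.range f) := by rw [hspan']; trivial
  obtain ⟨t, ht⟩ := (Submodule.mem_span_range_iff_exists_fun ℂ).1 hmem
  have := hQe t
  rw [hQ0, map_zero, ht] at this
  rw [this]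
  congr 1
  congr 1
  abel

theorem f_diffAt {g : ℕ} (A : AbVar g) (k : Fin A.nfun) :
    ∀ᶠ z in 𝓝 (0 : Fin g → ℂ), DifferentiableAt ℂ (A.f k) z := by
  have h1 : ∀ᶠ z in 𝓝 (0 : Fin g → ℂ), A.θ z ≠ 0 :=
    A.θ_entire.continuous.continuousAt.eventually_ne A.θ_zero
  refine h1.mono fun z hz => ?_
  have h2 : DifferentiableAt ℂ (fun w => A.θ w ^ A.wt) z := (A.θ_entire z).fun_pow A.wt
  change DifferentiableAt ℂ (fun w => A.num k w / A.θ w ^ A.wt) z
  have h3 : DifferentiableAt ℂ (fun w => (A.θ w ^ A.wt)⁻¹) z := h2.fun_inv (pow_ne_zero _ hz)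
  simp only [div_eq_mul_inv]
  exact (A.num_entire k z).fun_mul h3

theorem map_nhds {g : ℕ} (A : AbVar g) (ks : Fin g → Fin A.nfun)
    (hks : ∀ v, (∀ j, fderiv ℂ (A.f (ks j)) 0 v = 0) → v = 0) :
    Filter.map (fun (z : Fin g → ℂ) (j : Fin g) => A.f (ks j) z) (𝓝 0) =
      𝓝 (fun j => A.f (ks j) 0) := by
  set Φ' : (Fin g → ℂ) →L[ℂ] (Fin g → ℂ) :=
    ContinuousLinearMap.pi fun j => fderiv ℂ (A.f (ks j)) 0 with hΦ'
  have h1 : HasStrictFDerivAt (fun (z : Fin g → ℂ) (j : Fin g) => A.f (ks j) z) Φ' 0 := by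
    rw [hasStrictFDerivAt_pi]
    intro j
    exact strict (f_diffAt A (ks j))
  refine h1.map_nhds_eq_of_surj ?_
  have hinj : Function.Injective (Φ' : (Fin g → ℂ) →ₗ[ℂ] (Fin g → ℂ)) := by
    rw [← LinearMap.ker_eq_bot, LinearMap.ker_eq_bot']
    intro v hv
    refine hks v fun j => ?_
    have := congrFun hv j
    simpa [hΦ'] using this
  exact LinearMap.range_eq_top.2 ((LinearMap.injective_iff_surjective).1 hinj)

theorem vecMul_per {g : ℕ} (A : AbVar g) (a b : Fin g → ℂ) (i : Idx g) :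
    (Sum.elim b a ᵥ* A.per) i = (∑ k, b k * A.lat i k) + ∑ k, a k * A.lin i k := by
  simp [Matrix.vecMul, dotProduct, AbVar.per, Fintype.sum_sum_type]

/-- The periods together with the quasi-periods. -/
def G {g : ℕ} (A : AbVar g) : AddSubmonoid ((Fin g → ℂ) × (Fin g → ℂ)) where
  carrier := {p | ∀ z, A.θ z ≠ 0 → A.θ (z + p.1) ≠ 0 ∧ (∀ k, A.f k (z + p.1) = A.f k z) ∧
    ∀ j, A.Z j (z + p.1) = A.Z j z + p.2 j}
  zero_mem' := by
    intro z hz
    simp [hz]
  add_mem' := by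
    rintro p q hp hq z hz
    obtain ⟨h1, h2, h3⟩ := hp z hz
    obtain ⟨h1', h2', h3'⟩ := hq (z + p.1) h1
    refine ⟨?_, fun k => ?_, fun j => ?_⟩
    · rw [Prod.fst_add, ← add_assoc]; exact h1'
    · rw [Prod.fst_add, ← add_assoc, h2', h2]
    · rw [Prod.fst_add, ← add_assoc, h3', h3, Prod.snd_add, Pi.add_apply, add_assoc]

theorem mem_G {g : ℕ} (A : AbVar g) (p : (Fin g → ℂ) × (Fin g → ℂ)) : p ∈ G A ↔
    ∀ z, A.θ z ≠ 0 → A.θ (z + p.1) ≠ 0 ∧ (∀ k, A.f k (z + p.1) = A.f k z) ∧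
    ∀ j, A.Z j (z + p.1) = A.Z j z + p.2 j := Iff.rfl

theorem pr_add {g : ℕ} (x y : Idx g → ℂ) : pr (x + y) = pr x + pr y := rfl

/-- The translations of the additive coordinates. -/
def Xm {g d : ℕ} (A : AbVar g) (M : Matrix (Idx g) (Fin d) ℂ) : AddSubmonoid (Fin g → ℂ) where
  carrier := {x | ∃ u : Fin d → ℂ, (pr (M *ᵥ u), fun j => x j + (M *ᵥ u) (Sum.inr j)) ∈ G A}
  zero_mem' := by
    refine ⟨0, ?_⟩
    have : ((pr (M *ᵥ (0 : Fin d → ℂ)), fun j => (0 : Fin g → ℂ) j +
        (M *ᵥ (0 : Fin d → ℂ)) (Sum.inr j)) : (Fin g → ℂ) × (Fin g → ℂ)) = 0 := by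
      rw [Matrix.mulVec_zero]
      ext <;> simp [pr]
    rw [this]
    exact (G A).zero_mem
  add_mem' := by
    rintro x y ⟨u, hu⟩ ⟨v, hv⟩
    refine ⟨u + v, ?_⟩
    have : ((pr (M *ᵥ (u + v)), fun j => (x + y) j +
        (M *ᵥ (u + v)) (Sum.inr j)) : (Fin g → ℂ) × (Fin g → ℂ)) =
        (pr (M *ᵥ u), fun j => x j + (M *ᵥ u) (Sum.inr j)) +
        (pr (M *ᵥ v), fun j => y j + (M *ᵥ v) (Sum.inr j)) := by
      rw [Matrix.mulVec_add]
      ext j
      · simp [pr]
      · simp only [Prod.snd_add, Pi.add_apply]; ring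
    rw [this]
    exact (G A).add_mem hu hv

theorem mem_Xm {g d : ℕ} (A : AbVar g) (M : Matrix (Idx g) (Fin d) ℂ) (x : Fin g → ℂ) :
    x ∈ Xm A M ↔ ∃ u : Fin d → ℂ,
      (pr (M *ᵥ u), fun j => x j + (M *ᵥ u) (Sum.inr j)) ∈ G A := Iff.rfl

/-- The translations of the additive coordinates span the whole space. -/
theorem span_Xm {g d : ℕ} (hQ : Stmt_Qp) (A : AbVar g) (M : Matrix (Idx g) (Fin d) ℂ)
    (hM : ∀ z : Fin g → ℂ, ∃ w : Fin d → ℂ, pr (M *ᵥ w) = z) :
    Submodule.span ℂ (Xm A M : Set (Fin g → ℂ)) = ⊤ := by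
  classical
  by_contra hne
  obtain ⟨F, hF0, hF⟩ := Submodule.exists_le_ker_of_lt_top _ (lt_top_iff_ne_top.2 hne)
  apply hF0
  -- the functional in coordinates
  set a : Fin g → ℂ := fun j => F (Pi.single j 1) with ha
  have hFa : ∀ x, F x = ∑ j, a j * x j := by
    intro x
    conv_lhs => rw [← Finset.univ_sum_single x]
    rw [map_sum]
    refine Finset.sum_congr rfl fun j _ => ?_
    have : Pi.single j (x j) = x j • (Pi.single j (1 : ℂ) : Fin g → ℂ) := by
      rw [← Pi.single_smul, smul_eq_mul, mul_one]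
    rw [this, map_smul, smul_eq_mul, mul_comm]
  have hFX : ∀ x ∈ Xm A M, F x = 0 := fun x hx => hF (Submodule.subset_span hx)
  -- the linear maps
  let pL : (Fin d → ℂ) →ₗ[ℂ] (Fin g → ℂ) :=
    (LinearMap.funLeft ℂ ℂ (Sum.inl : Fin g → Idx g)).comp M.mulVecLin
  let qL : (Fin d → ℂ) →ₗ[ℂ] ℂ :=
    F.comp ((LinearMap.funLeft ℂ ℂ (Sum.inr : Fin g → Idx g)).comp M.mulVecLin)
  have hpL : ∀ u, pL u = pr (M *ᵥ u) := fun u => rfl
  have hqL : ∀ u, qL u = F (fun j => (M *ᵥ u) (Sum.inr j)) := fun u => rfl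
  have hker : LinearMap.ker pL ≤ LinearMap.ker qL := by
    intro u hu
    rw [LinearMap.mem_ker, hpL] at hu
    rw [LinearMap.mem_ker, hqL]
    have h1 : (-(fun j => (M *ᵥ u) (Sum.inr j)) : Fin g → ℂ) ∈ Xm A M := by
      refine (mem_Xm A M _).2 ⟨u, ?_⟩
      have : ((pr (M *ᵥ u), fun j => (-(fun j => (M *ᵥ u) (Sum.inr j)) : Fin g → ℂ) j +
          (M *ᵥ u) (Sum.inr j)) : (Fin g → ℂ) × (Fin g → ℂ)) = 0 := by
        rw [hu]
        ext <;> simp
      rw [this]
      exact (G A).zero_mem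
    have h2 := hFX _ h1
    rw [map_neg, neg_eq_zero] at h2
    exact h2
  have hpsurj : Function.Surjective pL := fun z => hM z
  obtain ⟨β, hβ⟩ : ∃ β : (Fin g → ℂ) →ₗ[ℂ] ℂ, β.comp pL = qL := by
    obtain ⟨s, hs⟩ := pL.exists_rightInverse_of_surjective (LinearMap.range_eq_top.2 hpsurj)
    refine ⟨qL.comp s, LinearMap.ext fun u => ?_⟩
    have h1 : s (pL u) - u ∈ LinearMap.ker pL := by
      rw [LinearMap.mem_ker, map_sub, sub_eq_zero]
      exact LinearMap.congr_fun hs (pL u)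
    have h2 := hker h1
    rw [LinearMap.mem_ker, map_sub, sub_eq_zero] at h2
    exact h2
  set b : Fin g → ℂ := fun j => β (Pi.single j 1) with hb
  have hβb : ∀ x, β x = ∑ j, b j * x j := by
    intro x
    conv_lhs => rw [← Finset.univ_sum_single x]
    rw [map_sum]
    refine Finset.sum_congr rfl fun j _ => ?_
    have : Pi.single j (x j) = x j • (Pi.single j (1 : ℂ) : Fin g → ℂ) := by
      rw [← Pi.single_smul, smul_eq_mul, mul_one]
    rw [this, map_smul, smul_eq_mul, mul_comm]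
  have hrel : (Sum.elim (-b) a ᵥ* A.per) = 0 := by
    funext i
    rw [vecMul_per, Pi.zero_apply]
    obtain ⟨u, hu⟩ := hM (A.lat i)
    have h1 : (A.lin i - fun j => (M *ᵥ u) (Sum.inr j)) ∈ Xm A M := by
      refine (mem_Xm A M _).2 ⟨u, ?_⟩
      have : ((pr (M *ᵥ u), fun j => (A.lin i - fun j => (M *ᵥ u) (Sum.inr j)) j +
          (M *ᵥ u) (Sum.inr j)) : (Fin g → ℂ) × (Fin g → ℂ)) = (A.lat i, A.lin i) := by
        rw [hu]
        ext <;> simp
      rw [this]
      refine (mem_G A _).2 fun z hz => ?_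
      exact hQ g A i z hz
    have h2 := hFX _ h1
    rw [map_sub, sub_eq_zero, ← hqL, ← hβ, LinearMap.comp_apply, hpL, hu, hFa, hβb] at h2
    rw [h2]
    simp
  have hdet : A.per.det ≠ 0 := A.nondeg.ne_zero
  have hz := Matrix.eq_zero_of_vecMul_eq_zero hdet hrel
  refine LinearMap.ext fun x => ?_
  rw [hFa, LinearMap.zero_apply]
  refine Finset.sum_eq_zero fun j _ => ?_
  have := congrFun hz (Sum.inr j)
  simp only [Sum.elim_inr, Pi.zero_apply] at this
  rw [this, zero_mul]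

end IndepX

open IndepX in
theorem indep_proof (hQ : Stmt_Qp) : Stmt_Indep := by
  classical
  intro g A d M hM
  obtain ⟨ks, hks⟩ := exists_ks (fun k => ((fderiv ℂ (A.f k) 0 : (Fin g → ℂ) →L[ℂ] ℂ) :
    (Fin g → ℂ) →ₗ[ℂ] ℂ)) (fun v hv => A.imm v hv)
  refine ⟨ks, fun R hR => ?_⟩
  -- the relation holds for all values of the additive coordinates
  have h1 : ∀ z : Fin g → ℂ, A.θ z ≠ 0 → ∀ y : Fin g → ℂ,
      MvPolynomial.eval (Sum.elim (fun j => A.f (ks j) z) y) R = 0 := by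
    intro z hz y
    obtain ⟨w, hw⟩ := hM z
    set x0 : Fin g → ℂ := fun j => A.f (ks j) z
    set y0 : Fin g → ℂ := fun j => A.H j (M *ᵥ w)
    set P : MvPolynomial (Fin g) ℂ := MvPolynomial.aeval
      (Sum.elim (fun j => MvPolynomial.C (x0 j)) (fun j => MvPolynomial.X j)) R with hP
    have hPe : ∀ y : Fin g → ℂ, MvPolynomial.eval y P = MvPolynomial.eval (Sum.elim x0 y) R := by
      intro y
      have key : (MvPolynomial.eval y).comp
          (MvPolynomial.aeval (Sum.elim (fun j => MvPolynomial.C (x0 j))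
            (fun j => MvPolynomial.X j)) :
            MvPolynomial (Fin g ⊕ Fin g) ℂ →ₐ[ℂ] MvPolynomial (Fin g) ℂ).toRingHom =
          MvPolynomial.eval (Sum.elim x0 y) := by
        apply MvPolynomial.ringHom_ext
        · intro i; simp
        · rintro (i | i) <;> simp
      exact DFunLike.congr_fun key R
    rw [← hPe]
    refine eval_eq_zero_of_group P y0 (Xm A M) (span_Xm hQ A M hM) (fun x hx => ?_) y
    obtain ⟨u, hu⟩ := (mem_Xm A M x).1 hx
    obtain ⟨g1, g2, g3⟩ := (mem_G A _).1 hu z hz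
    simp only at g1 g2 g3
    have hpr : pr (M *ᵥ (w + u)) = z + pr (M *ᵥ u) := by
      rw [Matrix.mulVec_add, pr_add, hw]
    have h2 := hR (w + u) (by rw [hpr]; exact g1)
    rw [hPe, ← h2]
    congr 1
    congr 1
    funext e
    rcases e with j | j
    · simp only [AbVar.fH, Sum.map_inl, Sum.elim_inl]
      rw [hpr, g2]
    · simp only [AbVar.fH, Sum.map_inr, Sum.elim_inr, id, Pi.add_apply, AbVar.H, y0]
      rw [hpr, g3, Matrix.mulVec_add, Pi.add_apply, hw]
      ring
  -- the multiplicative coordinates cover an open set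
  have h2 : ∀ᶠ x in 𝓝 (fun j => A.f (ks j) 0), ∀ y : Fin g → ℂ,
      MvPolynomial.eval (Sum.elim x y) R = 0 := by
    rw [← map_nhds A ks hks, Filter.eventually_map]
    have h3 : ∀ᶠ z in 𝓝 (0 : Fin g → ℂ), A.θ z ≠ 0 :=
      A.θ_entire.continuous.continuousAt.eventually_ne A.θ_zero
    exact h3.mono fun z hz => h1 z hz
  refine MvPolynomial.funext fun v => ?_
  rw [map_zero]
  set x : Fin g → ℂ := fun j => v (Sum.inl j)
  set y : Fin g → ℂ := fun j => v (Sum.inr j)
  set P : MvPolynomial (Fin g) ℂ := MvPolynomial.aeval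
      (Sum.elim (fun j => MvPolynomial.X j) (fun j => MvPolynomial.C (y j))) R with hP
  have hPe : ∀ x : Fin g → ℂ, MvPolynomial.eval x P = MvPolynomial.eval (Sum.elim x y) R := by
    intro x
    have key : (MvPolynomial.eval x).comp
        (MvPolynomial.aeval (Sum.elim (fun j => MvPolynomial.X j)
          (fun j => MvPolynomial.C (y j))) :
          MvPolynomial (Fin g ⊕ Fin g) ℂ →ₐ[ℂ] MvPolynomial (Fin g) ℂ).toRingHom =
        MvPolynomial.eval (Sum.elim x y) := by
      apply MvPolynomial.ringHom_ext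
      · intro i; simp
      · rintro (i | i) <;> simp
    exact DFunLike.congr_fun key R
  have hP0 : P = 0 := eq_zero_of_nhds P _ (h2.mono fun x hx => by rw [hPe]; exact hx y)
  have h4 := hPe x
  rw [hP0, map_zero] at h4
  have hv : v = Sum.elim x y := by
    funext e
    rcases e with j | j <;> rfl
  rw [hv]
  exact h4.symm

end

end Pool.Agent.DRB
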