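import Pool.Agent.DRB.Stmts

/-!
# De Rham-Betti conjecture: irreducibility of the two dimensional eigenspaces (module IRR)
-/

set_option autoImplicit false

open scoped BigOperators Topology
open Matrix

namespace Pool.Agent.DRB

namespace IrrX

variable {g : ℕ}

/-- the action of an automorphism of `ℂ` on vectors -/
noncomputable def sv (σ : ℂ ≃ₐ[ℚ] ℂ) (v : Idx g → ℂ) : Idx g → ℂ := fun k => σ (v k)

lemma sv_mulVec (σ : ℂ ≃ₐ[ℚ] ℂ) (M : Matrix (Idx g) (Idx g) ℂ) (v : Idx g → ℂ) :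
    sv σ (M *ᵥ v) = (M.map σ) *ᵥ (sv σ v) := by
  funext k
  simp only [sv, Matrix.mulVec, dotProduct, map_sum, map_mul, Matrix.map_apply]

lemma toC_map (σ : ℂ ≃ₐ[ℚ] ℂ) (α : Matrix (Idx g) (Idx g) ℚ) :
    (AbVar.toC α).map σ = AbVar.toC α := by
  ext i j
  simp only [AbVar.toC, Matrix.map_apply]
  exact σ.commutes _

lemma sv_add (σ : ℂ ≃ₐ[ℚ] ℂ) (v w : Idx g → ℂ) : sv σ (v + w) = sv σ v + sv σ w := by
  funext k; simp [sv]

lemma sv_smul (σ : ℂ ≃ₐ[ℚ] ℂ) (c : ℂ) (v : Idx g → ℂ) : sv σ (c • v) = σ c • sv σ v := by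
  funext k; simp [sv]

lemma sv_zero (σ : ℂ ≃ₐ[ℚ] ℂ) : sv σ (0 : Idx g → ℂ) = 0 := by
  funext k; simp [sv]

lemma sv_ne (σ : ℂ ≃ₐ[ℚ] ℂ) {v : Idx g → ℂ} (hv : v ≠ 0) : sv σ v ≠ 0 := by
  intro h
  apply hv
  funext k
  have h1 : σ (v k) = 0 := congrFun h k
  simpa using h1

lemma gal_apply (A : AbVar g) (σ : ℂ ≃ₐ[ℚ] ℂ) (χ : A.Chr) (α : A.EndQ) :
    A.galChr σ χ α = σ (χ α) := rfl

lemma sv_eig (A : AbVar g) (σ : ℂ ≃ₐ[ℚ] ℂ) (χ : A.Chr) {v : Idx g → ℂ} (hv : v ∈ A.eig χ) :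
    sv σ v ∈ A.eig (A.galChr σ χ) := by
  intro α
  have h1 := hv α
  have h2 := congrArg (sv σ) h1
  rw [sv_mulVec, toC_map, sv_smul] at h2
  exact h2

lemma gal_gal (A : AbVar g) (σ τ : ℂ ≃ₐ[ℚ] ℂ) (χ : A.Chr) :
    A.galChr σ (A.galChr τ χ) = A.galChr (τ.trans σ) χ := by
  ext α
  rfl

lemma gal_symm (A : AbVar g) (σ : ℂ ≃ₐ[ℚ] ℂ) (χ : A.Chr) :
    A.galChr σ.symm (A.galChr σ χ) = χ := by
  apply AlgHom.ext
  intro α
  rw [gal_apply, gal_apply]
  exact σ.symm_apply_apply _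

/-- complex conjugation -/
noncomputable def cj : ℂ ≃ₐ[ℚ] ℂ := Complex.conjAe.restrictScalars ℚ

lemma cj_apply (z : ℂ) : cj z = (starRingEnd ℂ) z := rfl

lemma gal_cj (A : AbVar g) (χ : A.Chr) (hχ : A.IsRealChr χ) : A.galChr cj χ = χ := by
  apply AlgHom.ext
  intro α
  rw [gal_apply, cj_apply]
  exact Complex.conj_eq_iff_im.mpr (hχ α)

/-- vectors spanning stable lines -/
def Sst (A : AbVar g) (χ : A.Chr) : Set (Idx g → ℂ) :=
  {v | v ∈ A.eig χ ∧ ∀ p ∈ Gam A, ∃ c : ℂ, p.1.val *ᵥ v = c • v}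

lemma map_map_symm (σ : ℂ ≃ₐ[ℚ] ℂ) (M : Matrix (Idx g) (Idx g) ℂ) :
    (M.map σ.symm).map σ = M := by
  ext i j
  simp

lemma sst_sv (A : AbVar g) (h4 : Stmt_Gb4) (σ : ℂ ≃ₐ[ℚ] ℂ) (χ : A.Chr) {v : Idx g → ℂ}
    (hv : v ∈ Sst A χ) : sv σ v ∈ Sst A (A.galChr σ χ) := by
  refine ⟨sv_eig A σ χ hv.1, ?_⟩
  intro p hp
  let q : GL (Idx g) ℂ × ℂˣ :=
    (Matrix.GeneralLinearGroup.map (σ.symm : ℂ →+* ℂ) p.1, Units.map (σ.symm : ℂ →* ℂ) p.2)
  have hq : q ∈ Gam A := h4 g A σ.symm p hp q (by ext i j; rfl) rfl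
  obtain ⟨c, hc⟩ := hv.2 q hq
  refine ⟨σ c, ?_⟩
  have h1 := congrArg (sv σ) hc
  rw [sv_mulVec, sv_smul] at h1
  have h2 : q.1.val.map σ = p.1.val := map_map_symm σ p.1.val
  rw [h2] at h1
  exact h1

lemma gam_eig (A : AbVar g) (h1 : Stmt_Gb1) (χ : A.Chr) {p : GL (Idx g) ℂ × ℂˣ} (hp : p ∈ Gam A)
    {v : Idx g → ℂ} (hv : v ∈ A.eig χ) : p.1.val *ᵥ v ∈ A.eig χ := by
  intro α
  have h2 := (h1 g A p hp).1 α.1 α.2
  have h3 := hv α
  rw [Matrix.mulVec_mulVec, ← h2, ← Matrix.mulVec_mulVec, h3, Matrix.mulVec_smul]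

/-- elements of the span of `End(A)` act by scalars on eigenspaces -/
lemma span_scalar (A : AbVar g) (χ : A.Chr) (X : Matrix (Idx g) (Idx g) ℂ)
    (hX : X ∈ Submodule.span ℂ {Y | ∃ α ∈ A.EndQ, Y = AbVar.toC α}) :
    ∃ a : ℂ, ∀ u ∈ A.eig χ, X *ᵥ u = a • u := by
  induction hX using Submodule.span_induction with
  | mem Y hY =>
    obtain ⟨α, hα, rfl⟩ := hY
    exact ⟨χ ⟨α, hα⟩, fun u hu => hu ⟨α, hα⟩⟩
  | zero => exact ⟨0, fun u _ => by simp⟩
  | add Y Z _ _ hY hZ =>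
    obtain ⟨a, ha⟩ := hY
    obtain ⟨b, hb⟩ := hZ
    refine ⟨a + b, fun u hu => ?_⟩
    rw [Matrix.add_mulVec, ha u hu, hb u hu, add_smul]
  | smul c Y _ hY =>
    obtain ⟨a, ha⟩ := hY
    refine ⟨c * a, fun u hu => ?_⟩
    rw [Matrix.smul_mulVec, ha u hu, smul_smul]

/-- the stable line is unique -/
lemma uniq (A : AbVar g) (hF : Stmt_Fin) (hE : Stmt_Eig) (h1 : Stmt_Gb1) (hy : A.Hyp)
    (χ : A.Chr) (hχ : A.IsRealChr χ) {v w : Idx g → ℂ} (hv : v ∈ Sst A χ) (hw : w ∈ Sst A χ)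
    (hv0 : v ≠ 0) : ∃ c : ℂ, w = c • v := by
  by_contra hcon
  push Not at hcon
  obtain ⟨hind, htop⟩ := hE g A hy
  have hw0 : w ≠ 0 := by
    intro h
    exact hcon 0 (by rw [h, zero_smul])
  have hli : LinearIndependent ℂ ![v, w] := by
    rw [LinearIndependent.pair_iff' hv0]
    intro a ha
    exact hcon a ha.symm
  have hspan : A.eig χ ≤ Submodule.span ℂ {v} ⊔ Submodule.span ℂ {w} := by
    have hle : Submodule.span ℂ (Set.range ![v, w]) ≤ A.eig χ := by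
      rw [Submodule.span_le]
      rintro _ ⟨i, rfl⟩
      fin_cases i
      · exact hv.1
      · exact hw.1
    have hfr : Module.finrank ℂ (Submodule.span ℂ (Set.range ![v, w])) = 2 := by
      rw [finrank_span_eq_card hli]
      simp
    have heq : Submodule.span ℂ (Set.range ![v, w]) = A.eig χ :=
      Submodule.eq_of_le_of_finrank_eq hle (by rw [hfr, hy.real_dim χ hχ])
    rw [← heq, ← Submodule.span_union]
    apply Submodule.span_mono
    rintro _ ⟨i, rfl⟩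
    fin_cases i
    · left; rfl
    · right; rfl
  set U : Submodule ℂ (Idx g → ℂ) := ⨆ ψ, ⨆ (_ : ψ ≠ χ), A.eig ψ with hU
  have hdisj : Disjoint (A.eig χ) U := hind χ
  have htop' : A.eig χ ⊔ U = ⊤ := by
    rw [eq_top_iff, ← htop]
    refine iSup_le fun ψ => ?_
    by_cases hψ : ψ = χ
    · subst hψ; exact le_sup_left
    · exact (le_iSup₂_of_le (f := fun ψ (_ : ψ ≠ χ) => A.eig ψ) ψ hψ le_rfl).trans le_sup_right
  have hcompl : IsCompl (Submodule.span ℂ {v}) (Submodule.span ℂ {w} ⊔ U) := by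
    constructor
    · rw [Submodule.disjoint_def]
      intro x hx1 hx2
      obtain ⟨a, rfl⟩ := Submodule.mem_span_singleton.mp hx1
      obtain ⟨y, hy1, z, hz, hyz⟩ := Submodule.mem_sup.mp hx2
      obtain ⟨b, rfl⟩ := Submodule.mem_span_singleton.mp hy1
      have hz1 : z ∈ A.eig χ := by
        have : z = a • v - b • w := by rw [← hyz]; abel
        rw [this]
        exact (A.eig χ).sub_mem ((A.eig χ).smul_mem a hv.1) ((A.eig χ).smul_mem b hw.1)
      have hz0 : z = 0 := by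
        rw [Submodule.disjoint_def] at hdisj
        exact hdisj z hz1 hz
      rw [hz0, add_zero] at hyz
      have h5 : a • v + (-b) • w = 0 := by rw [← hyz]; simp
      have h6 := LinearIndependent.pair_iff.mp hli a (-b) h5
      rw [h6.1, zero_smul]
    · rw [codisjoint_iff, ← sup_assoc, eq_top_iff, ← htop']
      exact sup_le_sup_right hspan U
  set pj := (Submodule.span ℂ {v}).projection (Submodule.span ℂ {w} ⊔ U) hcompl with hpj
  have hstab1 : ∀ p ∈ Gam A, ∀ x ∈ Submodule.span ℂ {v},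
      p.1.val *ᵥ x ∈ Submodule.span ℂ {v} := by
    intro p hp x hx
    obtain ⟨a, rfl⟩ := Submodule.mem_span_singleton.mp hx
    obtain ⟨c, hc⟩ := hv.2 p hp
    rw [Matrix.mulVec_smul, hc]
    exact Submodule.smul_mem _ _ (Submodule.smul_mem _ _ (Submodule.mem_span_singleton_self v))
  have hstab2 : ∀ p ∈ Gam A, ∀ x ∈ Submodule.span ℂ {w} ⊔ U,
      p.1.val *ᵥ x ∈ Submodule.span ℂ {w} ⊔ U := by
    intro p hp x hx
    obtain ⟨y, hy1, z, hz, rfl⟩ := Submodule.mem_sup.mp hx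
    obtain ⟨b, rfl⟩ := Submodule.mem_span_singleton.mp hy1
    rw [Matrix.mulVec_add]
    refine Submodule.add_mem _ ?_ ?_
    · obtain ⟨c, hc⟩ := hw.2 p hp
      rw [Matrix.mulVec_smul, hc]
      exact Submodule.mem_sup_left (Submodule.smul_mem _ _ (Submodule.smul_mem _ _
        (Submodule.mem_span_singleton_self w)))
    · refine Submodule.mem_sup_right ?_
      have hmap : U ≤ U.comap p.1.val.mulVecLin := by
        rw [hU]
        refine iSup₂_le fun ψ hψ => ?_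
        intro u hu
        rw [Submodule.mem_comap, Matrix.mulVecLin_apply]
        exact (le_iSup₂_of_le (f := fun ψ (_ : ψ ≠ χ) => A.eig ψ) ψ hψ le_rfl)
          (gam_eig A h1 ψ hp hu)
      exact hmap hz
  have hcomm : ∀ p ∈ Gam A, ∀ x, pj (p.1.val *ᵥ x) = p.1.val *ᵥ (pj x) := by
    intro p hp x
    obtain ⟨y, hy1, z, hz, rfl⟩ := Submodule.mem_sup.mp
      (show x ∈ Submodule.span ℂ {v} ⊔ (Submodule.span ℂ {w} ⊔ U) by
        rw [hcompl.sup_eq_top]; trivial)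
    rw [Matrix.mulVec_add, map_add, map_add, hpj,
      Submodule.projection_apply_of_mem_left hcompl hy1,
      Submodule.projection_apply_of_mem_right hcompl hz,
      Submodule.projection_apply_of_mem_left hcompl (hstab1 p hp y hy1),
      Submodule.projection_apply_of_mem_right hcompl (hstab2 p hp z hz), add_zero, add_zero]
  set X : Matrix (Idx g) (Idx g) ℂ := LinearMap.toMatrix' pj with hX
  have hXa : ∀ x, X *ᵥ x = pj x := by
    intro x
    rw [hX, ← Matrix.toLin'_apply, Matrix.toLin'_toMatrix']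
  have hXc : ∀ p ∈ Gam A, p.1.val * X * (p.1⁻¹).val = X := by
    intro p hp
    have h2 : p.1.val * X = X * p.1.val := by
      apply Matrix.toLin'.injective
      apply LinearMap.ext
      intro x
      rw [Matrix.toLin'_apply, Matrix.toLin'_apply, ← Matrix.mulVec_mulVec,
        ← Matrix.mulVec_mulVec, hXa, hXa, hcomm p hp]
    rw [h2, Matrix.mul_assoc]
    have h3 : p.1.val * (p.1⁻¹).val = 1 := by
      rw [← Units.val_mul, mul_inv_cancel, Units.val_one]
    rw [h3, Matrix.mul_one]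
  have hfin : {Y | ∃ p ∈ Gam A, Y = p.1.val * X * (p.1⁻¹).val}.Finite := by
    refine (Set.finite_singleton X).subset ?_
    rintro Y ⟨p, hp, rfl⟩
    rw [hXc p hp]
    exact Set.mem_singleton X
  obtain ⟨a, ha⟩ := span_scalar A χ X (hF g A X hfin)
  have h7 : v = a • v := by
    rw [← ha v hv.1, hXa, hpj,
      Submodule.projection_apply_of_mem_left hcompl (Submodule.mem_span_singleton_self v)]
  have h8 : (0 : Idx g → ℂ) = a • w := by
    rw [← ha w hw.1, hXa, hpj, Submodule.projection_apply_of_mem_right hcompl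
      (Submodule.mem_sup_left (Submodule.mem_span_singleton_self w))]
  rcases smul_eq_zero.mp h8.symm with h9 | h9
  · rw [h9, zero_smul] at h7
    exact hv0 h7
  · exact hw0 h9

/-! ### the kernel of the projection to the tangent space -/

/-- the kernel of `ℂ^{2g} → Lie A` -/
noncomputable def kk (A : AbVar g) : Submodule ℂ (Idx g → ℂ) where
  carrier := {x | pr (A.per *ᵥ x) = 0}
  add_mem' := by
    intro x y hx hy
    have hx' : pr (A.per *ᵥ x) = 0 := hx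
    have hy' : pr (A.per *ᵥ y) = 0 := hy
    show pr (A.per *ᵥ (x + y)) = 0
    rw [Matrix.mulVec_add]
    funext k
    have h1 := congrFun hx' k
    have h2 := congrFun hy' k
    simp only [pr, Pi.add_apply, Pi.zero_apply] at *
    rw [h1, h2, add_zero]
  zero_mem' := by
    show pr (A.per *ᵥ 0) = 0
    rw [Matrix.mulVec_zero]
    rfl
  smul_mem' := by
    intro c x hx
    have hx' : pr (A.per *ᵥ x) = 0 := hx
    show pr (A.per *ᵥ (c • x)) = 0
    rw [Matrix.mulVec_smul]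
    funext k
    have h1 := congrFun hx' k
    simp only [pr, Pi.smul_apply, Pi.zero_apply, smul_eq_mul] at *
    rw [h1, mul_zero]

lemma mem_kk (A : AbVar g) (x : Idx g → ℂ) : x ∈ kk A ↔ pr (A.per *ᵥ x) = 0 := Iff.rfl

lemma pr_real (A : AbVar g) (r : Idx g → ℝ) :
    pr (A.per *ᵥ (fun i => (r i : ℂ))) = ∑ i, r i • A.lat i := by
  funext k
  simp only [pr, Matrix.mulVec, dotProduct, AbVar.per, Matrix.of_apply, Sum.elim_inl,
    Finset.sum_apply, Pi.smul_apply, Complex.real_smul]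
  exact Finset.sum_congr rfl fun i _ => mul_comm _ _

lemma real_of_cj {x : Idx g → ℂ} (hx : sv cj x = x) : x = fun i => (((x i).re : ℝ) : ℂ) := by
  funext i
  have h1 : (starRingEnd ℂ) (x i) = x i := congrFun hx i
  exact (Complex.conj_eq_iff_re.mp h1).symm

/-- a real vector in the kernel is zero -/
lemma kk_real (A : AbVar g) {x : Idx g → ℂ} (hx : sv cj x = x) (hk : x ∈ kk A) : x = 0 := by
  have h1 := real_of_cj hx
  rw [mem_kk, h1, pr_real] at hk
  have h2 := Fintype.linearIndependent_iff.mp A.lat_indep (fun i => (x i).re) hk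
  rw [h1]
  funext i
  rw [h2 i]
  simp

lemma cj_cj (x : Idx g → ℂ) : sv cj (sv cj x) = x := by
  funext i
  show (starRingEnd ℂ) ((starRingEnd ℂ) (x i)) = x i
  exact Complex.conj_conj _

lemma cj_I : cj Complex.I = -Complex.I := Complex.conj_I

lemma kk_disj (A : AbVar g) {x : Idx g → ℂ} (hk : x ∈ kk A) (hk' : sv cj x ∈ kk A) : x = 0 := by
  have h1 : x + sv cj x = 0 := by
    apply kk_real A _ ((kk A).add_mem hk hk')
    rw [sv_add, cj_cj, add_comm]
  have h2 : Complex.I • (x - sv cj x) = 0 := by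
    apply kk_real A _ ((kk A).smul_mem _ ((kk A).sub_mem hk hk'))
    rw [sv_smul, cj_I, sub_eq_add_neg, sv_add]
    have h3 : sv cj (-sv cj x) = -x := by
      have := sv_smul (g := g) cj (-1) (sv cj x)
      rw [cj_cj] at this
      rw [show -sv cj x = (-1 : ℂ) • sv cj x by simp, this]
      simp
    rw [h3, neg_smul, ← smul_neg]
    congr 1
    abel
  have h4 : x - sv cj x = 0 := by
    rcases smul_eq_zero.mp h2 with h | h
    · exact absurd h Complex.I_ne_zero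
    · exact h
  have h5 : (2 : ℂ) • x = 0 := by
    have : (2 : ℂ) • x = (x + sv cj x) + (x - sv cj x) := by
      rw [two_smul]; abel
    rw [this, h1, h4, add_zero]
  rcases smul_eq_zero.mp h5 with h | h
  · exact absurd h two_ne_zero
  · exact h

lemma lat_span (A : AbVar g) (z : Fin g → ℂ) : ∃ r : Idx g → ℝ, ∑ i, r i • A.lat i = z := by
  have hcard : Fintype.card (Idx g) = Module.finrank ℝ (Fin g → ℂ) := by
    rw [Module.finrank_pi_fintype]
    simp [Complex.finrank_real_complex, Fintype.card_sum]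
    ring
  have h1 := A.lat_indep.span_eq_top_of_card_eq_finrank' hcard
  have h2 : z ∈ Submodule.span ℝ (Set.range A.lat) := by rw [h1]; trivial
  obtain ⟨c, hc⟩ := (Submodule.mem_span_range_iff_exists_fun ℝ).mp h2
  exact ⟨c, hc⟩

lemma kk_codisj (A : AbVar g) (x : Idx g → ℂ) :
    ∃ y z : Idx g → ℂ, x = y + z ∧ y ∈ kk A ∧ sv cj z ∈ kk A := by
  set s : Fin g → ℂ := pr (A.per *ᵥ sv cj x) with hs
  obtain ⟨a, ha⟩ := lat_span A ((1 / 2 : ℂ) • s)
  obtain ⟨b, hb⟩ := lat_span A ((Complex.I / 2 : ℂ) • s)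
  set y : Idx g → ℂ := (fun i => (a i : ℂ)) + Complex.I • (fun i => (b i : ℂ)) with hy
  have hlin : ∀ c : ℂ, pr (A.per *ᵥ ((fun i => (a i : ℂ)) + c • (fun i => (b i : ℂ))))
      = (1 / 2 : ℂ) • s + c • ((Complex.I / 2 : ℂ) • s) := by
    intro c
    rw [← ha, ← hb, ← pr_real, ← pr_real, Matrix.mulVec_add, Matrix.mulVec_smul]
    funext k
    simp [pr]
  have hcr : ∀ r : Idx g → ℝ, sv cj (fun i => (r i : ℂ)) = fun i => (r i : ℂ) := by
    intro r
    funext i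
    exact Complex.conj_ofReal _
  have hcy : sv cj y = (fun i => (a i : ℂ)) + (-Complex.I) • (fun i => (b i : ℂ)) := by
    rw [hy, sv_add, sv_smul, cj_I, hcr, hcr]
  refine ⟨y, x - y, by abel, ?_, ?_⟩
  · rw [mem_kk, hy, hlin]
    funext k
    simp only [Pi.add_apply, Pi.smul_apply, smul_eq_mul, Pi.zero_apply]
    linear_combination (s k / 2) * Complex.I_mul_I
  · rw [mem_kk]
    have h1 : sv cj (x - y) = sv cj x - sv cj y := by
      funext i
      simp [sv]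
    have h2 : pr (A.per *ᵥ (sv cj x - sv cj y)) =
        pr (A.per *ᵥ sv cj x) - pr (A.per *ᵥ sv cj y) := by
      rw [Matrix.mulVec_sub]
      rfl
    rw [h1, h2, hcy, hlin, ← hs]
    funext k
    simp only [Pi.sub_apply, Pi.add_apply, Pi.smul_apply, smul_eq_mul, Pi.zero_apply]
    linear_combination (s k / 2) * Complex.I_mul_I

lemma kk_stable (A : AbVar g) (α : A.EndQ) {x : Idx g → ℂ} (hx : x ∈ kk A) :
    AbVar.toC (α : Matrix (Idx g) (Idx g) ℚ) *ᵥ x ∈ kk A := by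
  obtain ⟨ρ, _, h2, h3⟩ := α.2
  rw [mem_kk] at hx ⊢
  rw [Matrix.mulVec_mulVec, h3, ← Matrix.mulVec_mulVec]
  funext k
  have h4 : ∀ j, (A.per *ᵥ x) (Sum.inl j) = 0 := fun j => congrFun hx j
  simp only [pr, Pi.zero_apply]
  rw [Matrix.mulVec, dotProduct, Fintype.sum_sum_type]
  simp [h2, h4]

/-- the eigenspace of a real character splits -/
lemma split (A : AbVar g) (ψ : A.Chr) (hψ : A.IsRealChr ψ) {w : Idx g → ℂ}
    (hw : w ∈ A.eig ψ) (hw0 : w ≠ 0) : ∃ u ∈ A.eig ψ, u ≠ 0 ∧ u ∈ kk A := by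
  by_contra hcon
  push Not at hcon
  obtain ⟨y, z, hyz, hy, hz⟩ := kk_codisj A w
  have hye : y ∈ A.eig ψ := by
    intro α
    have h1 := hw α
    set T := AbVar.toC (α : Matrix (Idx g) (Idx g) ℚ) with hT
    have h2 : T *ᵥ y - ψ α • y = -(T *ᵥ z - ψ α • z) := by
      rw [hyz, Matrix.mulVec_add, smul_add] at h1
      have h3 : T *ᵥ y - ψ α • y + (T *ᵥ z - ψ α • z) = 0 := by
        rw [show T *ᵥ y - ψ α • y + (T *ᵥ z - ψ α • z) =
          (T *ᵥ y + T *ᵥ z) - (ψ α • y + ψ α • z) by abel, h1, sub_self]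
      exact eq_neg_of_add_eq_zero_left h3
    have h3 : T *ᵥ y - ψ α • y = 0 := by
      apply kk_disj A
      · exact (kk A).sub_mem (kk_stable A α hy) ((kk A).smul_mem _ hy)
      · rw [h2]
        have h4 : sv cj (-(T *ᵥ z - ψ α • z)) = -(T *ᵥ sv cj z - cj (ψ α) • sv cj z) := by
          have h5 : sv cj (T *ᵥ z) = T *ᵥ sv cj z := by
            rw [sv_mulVec, hT, toC_map]
          have h6 := sv_smul cj (ψ α) z
          funext i
          have h5' := congrFun h5 i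
          have h6' := congrFun h6 i
          simp only [sv, Pi.neg_apply, Pi.sub_apply, map_neg, map_sub] at *
          rw [h5', h6']
        rw [h4]
        exact (kk A).neg_mem ((kk A).sub_mem (kk_stable A α hz) ((kk A).smul_mem _ hz))
    exact sub_eq_zero.mp h3
  have hy0 : y = 0 := by
    by_contra hne
    exact hcon y hye hne hy
  rw [hy0, zero_add] at hyz
  have h5 : sv cj w ∈ A.eig ψ := by
    have := sv_eig A cj ψ hw
    rwa [gal_cj A ψ hψ] at this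
  have h6 : sv cj w ≠ 0 := sv_ne cj hw0
  exact hcon _ h5 h6 (by rw [hyz]; exact hz)

/-- a stable vector is not in the kernel -/
lemma sst_kk (A : AbVar g) (hF : Stmt_Fin) (hE : Stmt_Eig) (h1 : Stmt_Gb1) (h4 : Stmt_Gb4)
    (hy : A.Hyp) (ψ : A.Chr) (hψ : A.IsRealChr ψ) {v : Idx g → ℂ} (hv : v ∈ Sst A ψ)
    (hv0 : v ≠ 0) : v ∉ kk A := by
  intro hk
  have h2 : sv cj v ∈ Sst A ψ := by
    have := sst_sv A h4 cj ψ hv
    rwa [gal_cj A ψ hψ] at this
  obtain ⟨c, hc⟩ := uniq A hF hE h1 hy ψ hψ hv h2 hv0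
  exact hv0 (kk_disj A hk (by rw [hc]; exact (kk A).smul_mem c hk))

lemma eig_le (A : AbVar g) (hF : Stmt_Fin) (hE : Stmt_Eig) (h1 : Stmt_Gb1) (h4 : Stmt_Gb4)
    (hy : A.Hyp) (ψ : A.Chr) (hψ : A.IsRealChr ψ) {v : Idx g → ℂ} (hv : v ∈ Sst A ψ)
    (hv0 : v ≠ 0) : A.eig ψ ≤ Submodule.span ℂ {v} ⊔ kk A := by
  obtain ⟨u, hu, hu0, huk⟩ := split A ψ hψ hv.1 hv0
  have hvk := sst_kk A hF hE h1 h4 hy ψ hψ hv hv0
  have hli : LinearIndependent ℂ ![u, v] := by
    rw [LinearIndependent.pair_iff' hu0]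
    intro a ha
    exact hvk (by rw [← ha]; exact (kk A).smul_mem a huk)
  have hle : Submodule.span ℂ (Set.range ![u, v]) ≤ A.eig ψ := by
    rw [Submodule.span_le]
    rintro _ ⟨i, rfl⟩
    fin_cases i
    · exact hu
    · exact hv.1
  have hfr : Module.finrank ℂ (Submodule.span ℂ (Set.range ![u, v])) = 2 := by
    rw [finrank_span_eq_card hli]
    simp
  have heq : Submodule.span ℂ (Set.range ![u, v]) = A.eig ψ :=
    Submodule.eq_of_le_of_finrank_eq hle (by rw [hfr, hy.real_dim ψ hψ])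
  rw [← heq, Submodule.span_le]
  rintro _ ⟨i, rfl⟩
  fin_cases i
  · exact Submodule.mem_sup_right huk
  · exact Submodule.mem_sup_left (Submodule.mem_span_singleton_self v)

/-- the orbit of a character -/
def orb (A : AbVar g) (χ : A.Chr) : Set A.Chr := {ψ | ∃ σ : ℂ ≃ₐ[ℚ] ℂ, ψ = A.galChr σ χ}

lemma orb_self (A : AbVar g) (χ : A.Chr) : χ ∈ orb A χ := ⟨AlgEquiv.refl, by
  apply AlgHom.ext; intro α; rfl⟩

lemma orb_gal (A : AbVar g) (χ ψ : A.Chr) (σ : ℂ ≃ₐ[ℚ] ℂ) (h : ψ ∈ orb A χ) :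
    A.galChr σ ψ ∈ orb A χ := by
  obtain ⟨τ, rfl⟩ := h
  exact ⟨τ.trans σ, gal_gal A σ τ χ⟩

lemma orb_gal' (A : AbVar g) (χ ψ : A.Chr) (σ : ℂ ≃ₐ[ℚ] ℂ) (h : A.galChr σ ψ ∈ orb A χ) :
    ψ ∈ orb A χ := by
  have := orb_gal A χ _ σ.symm h
  rwa [gal_symm] at this

end IrrX

open IrrX in
theorem irr_proof (hT : Stmt_T1) (hF : Stmt_Fin) (h1 : Stmt_Gb1) (h3 : Stmt_Gb3)
    (h4 : Stmt_Gb4) (hE : Stmt_Eig) (hQ : Stmt_DescQ) : Stmt_Irr := by
  intro g A hy χ hχ v0 hv0e hv00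
  by_contra hcon
  push Not at hcon
  have hv0 : v0 ∈ Sst A χ := ⟨hv0e, hcon⟩
  obtain ⟨hind, htop⟩ := hE g A hy
  -- a second vector
  obtain ⟨w0, hw0e, hw0⟩ : ∃ w0 ∈ A.eig χ, ∀ a : ℂ, a • v0 ≠ w0 := by
    by_contra hc
    push Not at hc
    have hle : A.eig χ ≤ Submodule.span ℂ {v0} := by
      intro w hw
      obtain ⟨a, ha⟩ := hc w hw
      exact Submodule.mem_span_singleton.mpr ⟨a, ha⟩
    have h5 := Submodule.finrank_mono hle
    rw [finrank_span_singleton hv00, hy.real_dim χ hχ] at h5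
    omega
  -- all characters of the orbit are real
  have hreal : ∀ ψ ∈ orb A χ, A.IsRealChr ψ := by
    rintro ψ ⟨σ, rfl⟩
    by_contra hn
    have hli : LinearIndependent ℂ ![sv σ v0, sv σ w0] := by
      rw [LinearIndependent.pair_iff' (sv_ne σ hv00)]
      intro a ha
      apply hw0 (σ.symm a)
      have h5 : sv σ (σ.symm a • v0) = sv σ w0 := by
        rw [sv_smul, σ.apply_symm_apply, ha]
      funext i
      exact σ.injective (congrFun h5 i)
    have hle : Submodule.span ℂ (Set.range ![sv σ v0, sv σ w0]) ≤ A.eig (A.galChr σ χ) := by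
      rw [Submodule.span_le]
      rintro _ ⟨i, rfl⟩
      fin_cases i
      · exact sv_eig A σ χ hv0e
      · exact sv_eig A σ χ hw0e
    have h5 := Submodule.finrank_mono hle
    rw [finrank_span_eq_card hli, hy.nonreal_dim _ hn] at h5
    simp at h5
  set G : Set (Idx g → ℂ) := {x | (∃ ψ ∈ orb A χ, x ∈ Sst A ψ) ∨ (∃ ψ, ψ ∉ orb A χ ∧ x ∈ A.eig ψ)}
    with hG
  set D : Submodule ℂ (Idx g → ℂ) := Submodule.span ℂ G with hD
  have hDsig : ∀ (σ : ℂ ≃ₐ[ℚ] ℂ), ∀ v ∈ D, sv σ v ∈ D := by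
    intro σ v hv
    rw [hD] at hv
    induction hv using Submodule.span_induction with
    | mem x hx =>
      apply Submodule.subset_span
      rcases hx with ⟨ψ, hψ, hx⟩ | ⟨ψ, hψ, hx⟩
      · exact Or.inl ⟨A.galChr σ ψ, orb_gal A χ ψ σ hψ, sst_sv A h4 σ ψ hx⟩
      · exact Or.inr ⟨A.galChr σ ψ, fun h => hψ (orb_gal' A χ ψ σ h), sv_eig A σ ψ hx⟩
    | zero => rw [sv_zero]; exact D.zero_mem
    | add x y _ _ hx hy => rw [sv_add]; exact D.add_mem hx hy
    | smul c x _ hx => rw [sv_smul]; exact D.smul_mem _ hx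
  have hDgam : ∀ p ∈ Gam A, D.map p.1.val.mulVecLin ≤ D := by
    intro p hp
    rw [Submodule.map_le_iff_le_comap]
    refine (Submodule.span_le (p := D.comap p.1.val.mulVecLin)).mpr ?_
    intro x hx
    rw [SetLike.mem_coe, Submodule.mem_comap, Matrix.mulVecLin_apply]
    rcases hx with ⟨ψ, hψ, hx⟩ | ⟨ψ, hψ, hx⟩
    · obtain ⟨c, hc⟩ := hx.2 p hp
      rw [hc]
      exact D.smul_mem c (Submodule.subset_span (Or.inl ⟨ψ, hψ, hx⟩))
    · exact Submodule.subset_span (Or.inr ⟨ψ, hψ, gam_eig A h1 ψ hp hx⟩)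
  have hrat : RatSpan D := hQ (Idx g) D hDsig
  have halg : AlgSpan (D.map A.per.mulVecLin) := h3 g A D hrat hDgam
  have hsup : D ⊔ kk A = ⊤ := by
    rw [eq_top_iff, ← htop]
    refine iSup_le fun ψ => ?_
    by_cases hψ : ψ ∈ orb A χ
    · obtain ⟨σ, rfl⟩ := id hψ
      refine (eig_le A hF hE h1 h4 hy _ (hreal _ hψ) (sst_sv A h4 σ χ hv0)
        (sv_ne σ hv00)).trans (sup_le_sup_right ?_ _)
      rw [Submodule.span_singleton_le_iff_mem]
      exact Submodule.subset_span (Or.inl ⟨_, hψ, sst_sv A h4 σ χ hv0⟩)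
    · refine le_trans ?_ le_sup_left
      intro x hx
      exact Submodule.subset_span (Or.inr ⟨ψ, hψ, hx⟩)
  have hsurj : ∀ z : Fin g → ℂ, ∃ v ∈ D, pr (A.per *ᵥ v) = z := by
    intro z
    have hx : ∃ x : Idx g → ℂ, pr (A.per *ᵥ x) = z := by
      obtain ⟨r, hr⟩ := lat_span A z
      exact ⟨fun i => (r i : ℂ), by rw [pr_real, hr]⟩
    obtain ⟨x, hx⟩ := hx
    obtain ⟨d, hd, k, hk, hdk⟩ := Submodule.mem_sup.mp
      (show x ∈ D ⊔ kk A by rw [hsup]; trivial)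
    refine ⟨d, hd, ?_⟩
    rw [← hx, ← hdk, Matrix.mulVec_add]
    funext j
    have := congrFun ((mem_kk A k).mp hk) j
    simp only [pr, Pi.add_apply, Pi.zero_apply] at *
    rw [this, add_zero]
  have hDtop := hT g A D hrat halg hsurj
  set U : Submodule ℂ (Idx g → ℂ) := ⨆ ψ, ⨆ (_ : ψ ≠ χ), A.eig ψ with hU
  have hdisj : Disjoint (A.eig χ) U := hind χ
  have hDle : D ≤ Submodule.span ℂ {v0} ⊔ U := by
    rw [hD, Submodule.span_le]
    intro x hx
    have hin : ∀ ψ, ψ ≠ χ → x ∈ A.eig ψ → x ∈ Submodule.span ℂ {v0} ⊔ U := fun ψ hne hxe =>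
      Submodule.mem_sup_right
        ((le_iSup₂_of_le (f := fun ψ (_ : ψ ≠ χ) => A.eig ψ) ψ hne le_rfl) hxe)
    rcases hx with ⟨ψ, hψ, hx⟩ | ⟨ψ, hψ, hx⟩
    · by_cases hne : ψ = χ
      · subst hne
        obtain ⟨c, hc⟩ := uniq A hF hE h1 hy ψ hχ hv0 hx hv00
        rw [hc]
        exact Submodule.mem_sup_left (Submodule.smul_mem _ _
          (Submodule.mem_span_singleton_self v0))
      · exact hin ψ hne hx.1
    · exact hin ψ (fun h => hψ (h ▸ orb_self A χ)) hx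
  have hw0D : w0 ∈ Submodule.span ℂ {v0} ⊔ U := hDle (by rw [hDtop]; trivial)
  obtain ⟨y, hy1, z, hz, hyz⟩ := Submodule.mem_sup.mp hw0D
  obtain ⟨a, rfl⟩ := Submodule.mem_span_singleton.mp hy1
  have hz1 : z ∈ A.eig χ := by
    have : z = w0 - a • v0 := by rw [← hyz]; abel
    rw [this]
    exact (A.eig χ).sub_mem hw0e ((A.eig χ).smul_mem a hv0e)
  have hz0 : z = 0 := by
    rw [Submodule.disjoint_def] at hdisj
    exact hdisj z hz1 hz
  rw [hz0, add_zero] at hyz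
  exact hw0 a hyz

end Pool.Agent.DRB
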