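import Pool.Agent.DRB.Stmts

/-!
JD: Jordan decomposition in tensor spaces.
-/

set_option autoImplicit false

open scoped BigOperators Topology
open Matrix

namespace Pool.Agent.DRB

namespace JDX

open Polynomial

/-! ### independence of the functions `k ↦ ρ ^ k * Q k` -/

theorem indep (R : Finset ℂ) : ∀ (Q : ℂ → ℂ[X]), (∀ ρ ∈ R, ρ ≠ 0) →
    (∀ k : ℕ, ∑ ρ ∈ R, ρ ^ k * (Q ρ).eval (k : ℂ) = 0) → ∀ ρ ∈ R, Q ρ = 0 := by
  classical
  induction R using Finset.induction_on with
  | empty => intro Q _ _ ρ hρ; simp at hρ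
  | insert ρ0 R hn ih =>
    intro Q h0 h
    have key : ∀ (d : ℕ) (Q : ℂ → ℂ[X]), (Q ρ0).degree < d →
        (∀ k : ℕ, ∑ ρ ∈ insert ρ0 R, ρ ^ k * (Q ρ).eval (k : ℂ) = 0) →
        ∀ ρ ∈ insert ρ0 R, Q ρ = 0 := by
      intro d
      induction d with
      | zero =>
        intro Q hd h ρ hρ
        have hQ0 : Q ρ0 = 0 := by
          rw [← Polynomial.degree_eq_bot]
          exact Nat.WithBot.lt_zero_iff.mp hd
        rcases Finset.mem_insert.mp hρ with rfl | hρ
        · exact hQ0
        · refine ih Q (fun ρ hρ => h0 ρ (Finset.mem_insert_of_mem hρ)) (fun k => ?_) ρ hρ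
          have h1 := h k
          rw [Finset.sum_insert hn, hQ0, Polynomial.eval_zero, mul_zero, zero_add] at h1
          exact h1
      | succ d ihd =>
        intro Q hd h
        set T : ℂ → ℂ[X] := fun ρ => C ρ * taylor 1 (Q ρ) - C ρ0 * Q ρ with hT
        have hTd : (T ρ0).degree < d := by
          by_cases hQ : Q ρ0 = 0
          · rw [hT]
            simp only [hQ, map_zero, mul_zero, sub_zero, Polynomial.degree_zero]
            exact WithBot.bot_lt_coe d
          · have h1 : (taylor 1 (Q ρ0) - Q ρ0).degree < (Q ρ0).degree := by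
              have := Polynomial.degree_sub_lt_left (Polynomial.degree_taylor (Q ρ0) 1)
                ((Polynomial.taylor_eq_zero 1 (Q ρ0)).not.mpr hQ)
                (Polynomial.leadingCoeff_taylor 1 (Q ρ0))
              rwa [Polynomial.degree_taylor] at this
            have h2 : T ρ0 = C ρ0 * (taylor 1 (Q ρ0) - Q ρ0) := by
              rw [hT]; ring
            rw [h2]
            have h3 : (C ρ0 * (taylor 1 (Q ρ0) - Q ρ0)).degree
                ≤ (taylor 1 (Q ρ0) - Q ρ0).degree := by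
              refine (Polynomial.degree_mul_le _ _).trans ?_
              have := Polynomial.degree_C_le (a := ρ0)
              calc (C ρ0).degree + (taylor 1 (Q ρ0) - Q ρ0).degree
                  ≤ 0 + (taylor 1 (Q ρ0) - Q ρ0).degree := by gcongr
                _ = _ := zero_add _
            refine lt_of_le_of_lt h3 (lt_of_lt_of_le h1 ?_)
            have h4 : (Q ρ0).degree < ((d + 1 : ℕ) : WithBot ℕ) := hd
            rw [Polynomial.degree_eq_natDegree hQ] at h4 ⊢
            have h5 : (Q ρ0).natDegree < d + 1 := by exact_mod_cast h4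
            exact_mod_cast Nat.lt_succ_iff.mp h5
        have hTs : ∀ k : ℕ, ∑ ρ ∈ insert ρ0 R, ρ ^ k * (T ρ).eval (k : ℂ) = 0 := by
          intro k
          have e1 : ∑ ρ ∈ insert ρ0 R, ρ ^ k * (T ρ).eval (k : ℂ)
              = (∑ ρ ∈ insert ρ0 R, ρ ^ (k + 1) * (Q ρ).eval ((k + 1 : ℕ) : ℂ))
                - ρ0 * ∑ ρ ∈ insert ρ0 R, ρ ^ k * (Q ρ).eval (k : ℂ) := by
            rw [Finset.mul_sum, ← Finset.sum_sub_distrib]
            refine Finset.sum_congr rfl (fun ρ _ => ?_)
            rw [hT]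
            simp only [Polynomial.eval_sub, Polynomial.eval_mul, Polynomial.eval_C,
              Polynomial.taylor_eval]
            push_cast
            ring
          rw [e1, h (k + 1), h k]
          ring
        have hT0 := ihd T hTd hTs
        have hR : ∀ ρ ∈ R, Q ρ = 0 := by
          intro ρ hρ
          have hne : ρ ≠ ρ0 := fun e => hn (e ▸ hρ)
          have h1 := hT0 ρ (Finset.mem_insert_of_mem hρ)
          by_contra hQ
          have h2 : C ρ * taylor 1 (Q ρ) = C ρ0 * Q ρ := sub_eq_zero.mp h1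
          have h3 := congrArg Polynomial.leadingCoeff h2
          rw [Polynomial.leadingCoeff_mul, Polynomial.leadingCoeff_mul, Polynomial.leadingCoeff_C,
            Polynomial.leadingCoeff_C, Polynomial.leadingCoeff_taylor] at h3
          exact hne (mul_right_cancel₀ (Polynomial.leadingCoeff_ne_zero.mpr hQ) h3)
        intro ρ hρ
        rcases Finset.mem_insert.mp hρ with rfl | hρ
        · apply Polynomial.eq_zero_of_infinite_isRoot
          refine Set.Infinite.mono ?_ (Set.infinite_range_of_injective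
            (Nat.cast_injective (R := ℂ)))
          rintro _ ⟨k, rfl⟩
          have h1 := h k
          rw [Finset.sum_insert hn, Finset.sum_eq_zero (s := R), add_zero] at h1
          · exact (mul_eq_zero.mp h1).resolve_left
              (pow_ne_zero _ (h0 ρ (Finset.mem_insert_self _ _)))
          · intro σ hσ
            rw [hR σ hσ, Polynomial.eval_zero, mul_zero]
        · exact hR ρ hρ
    intro ρ hρ
    refine key ((Q ρ0).natDegree + 1) Q ?_ h ρ hρ
    exact lt_of_le_of_lt Polynomial.degree_le_natDegree (by exact_mod_cast Nat.lt_succ_self _)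

section

variable {ι : Type} [Fintype ι] [DecidableEq ι] (t : TData)

/-- The components of `TAct t (1 + z N) 1 u` as polynomials in `z`. -/
noncomputable def PP (N : Matrix ι ι ℂ) (u : TIdx t ι → ℂ) (p : TIdx t ι) : ℂ[X] :=
  ∑ J : Fin (t.a p.1) → ι, (∏ s, (C (if p.2 s = J s then (1 : ℂ) else 0) +
    C (N (p.2 s) (J s)) * X)) * C (u ⟨p.1, J⟩)

theorem PP_eval (N : Matrix ι ι ℂ) (u : TIdx t ι → ℂ) (p : TIdx t ι) (z : ℂ) :
    (PP t N u p).eval z = TAct t (1 + z • N) 1 u p := by
  rw [TAct_apply, _root_.one_zpow, one_mul]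
  unfold PP
  rw [Polynomial.eval_finsetSum]
  refine Finset.sum_congr rfl fun J _ => ?_
  rw [Polynomial.eval_mul, Polynomial.eval_C, Polynomial.eval_prod]
  congr 1
  refine Finset.prod_congr rfl fun s _ => ?_
  rw [Polynomial.eval_add, Polynomial.eval_mul, Polynomial.eval_C, Polynomial.eval_C,
    Polynomial.eval_X, Matrix.add_apply, Matrix.smul_apply, Matrix.one_apply, smul_eq_mul,
    mul_comm]

omit [Fintype ι] [DecidableEq ι] in
theorem ev_aux (c n : ℂ) : (C c + C n * X : ℂ[X]).eval 0 = c := by simp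

omit [Fintype ι] [DecidableEq ι] in
theorem der_aux (c n : ℂ) : derivative (C c + C n * X : ℂ[X]) = C n := by simp

theorem PP_deriv (N : Matrix ι ι ℂ) (u : TIdx t ι → ℂ) (p : TIdx t ι) :
    (derivative (PP t N u p)).eval 0 = DAct t N 0 u p := by
  have hD : DAct t N 0 u p = (t.k p.1 : ℂ) * 0 * u p +
    ∑ s : Fin (t.a p.1), ∑ j : ι, N (p.2 s) j * u ⟨p.1, Function.update p.2 s j⟩ := rfl
  rw [hD, mul_zero, zero_mul, zero_add]
  unfold PP
  rw [Polynomial.derivative_sum, Polynomial.eval_finsetSum]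
  have h1 : ∀ J : Fin (t.a p.1) → ι,
      (derivative ((∏ s, (C (if p.2 s = J s then (1 : ℂ) else 0) +
        C (N (p.2 s) (J s)) * X)) * C (u ⟨p.1, J⟩))).eval 0
      = ∑ s, (∏ s' ∈ Finset.univ.erase s, (if p.2 s' = J s' then (1 : ℂ) else 0)) *
          (N (p.2 s) (J s) * u ⟨p.1, J⟩) := by
    intro J
    rw [Polynomial.derivative_mul, Polynomial.derivative_C, mul_zero, add_zero,
      Polynomial.derivative_prod_finset, Polynomial.eval_mul, Polynomial.eval_finsetSum,
      Polynomial.eval_C, Finset.sum_mul]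
    refine Finset.sum_congr rfl fun s _ => ?_
    rw [Polynomial.eval_mul, Polynomial.eval_prod, der_aux, Polynomial.eval_C, mul_assoc]
    congr 1
    exact Finset.prod_congr rfl fun s' _ => ev_aux _ _
  simp only [h1]
  rw [Finset.sum_comm]
  refine Finset.sum_congr rfl fun s _ => ?_
  symm
  refine Fintype.sum_of_injective (fun j => Function.update p.2 s j)
    (Function.update_injective p.2 s) _ _ ?_ ?_
  · intro J hJ
    have hs : ∃ s', s' ≠ s ∧ p.2 s' ≠ J s' := by
      by_contra hcon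
      push Not at hcon
      apply hJ
      refine ⟨J s, funext fun s' => ?_⟩
      by_cases h : s' = s
      · subst h
        simp
      · simp only [Function.update_of_ne h]
        exact hcon s' h
    obtain ⟨s', hs', hne⟩ := hs
    rw [Finset.prod_eq_zero (i := s') (by simp [hs']) (if_neg hne), zero_mul]
  · intro j
    rw [Finset.prod_eq_one, one_mul]
    · simp
    · intro s' hs'
      have : s' ≠ s := (Finset.mem_erase.mp hs').1
      rw [Function.update_of_ne this, if_pos rfl]

theorem PP_zero (N : Matrix ι ι ℂ) (u : TIdx t ι → ℂ) (p : TIdx t ι) :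
    (PP t N u p).eval 0 = u p := by
  rw [PP_eval, zero_smul, add_zero, TAct_one]
  rfl

/-- The eigenvalue of the diagonal operator. -/
def bv (α : ι → ℂˣ) (ν : ℂˣ) (p : TIdx t ι) : ℂˣ := ν ^ (t.k p.1) * ∏ s, α (p.2 s)

theorem TAct_diag (a : ι → ℂ) (ν : ℂ) (u : TIdx t ι → ℂ) (p : TIdx t ι) :
    TAct t (Matrix.diagonal a) ν u p = ν ^ (t.k p.1) * (∏ s, a (p.2 s)) * u p := by
  rw [TAct_apply, mul_assoc]
  congr 1
  rw [Finset.sum_eq_single p.2]
  · simp
  · intro J _ hJ
    have : ∃ s, p.2 s ≠ J s := by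
      by_contra hcon
      push Not at hcon
      exact hJ (funext fun s => (hcon s).symm)
    obtain ⟨s, hs⟩ := this
    rw [Finset.prod_eq_zero (Finset.mem_univ s) (by simp [hs]), zero_mul]
  · simp

theorem DAct_diag (a : ι → ℂ) (μ : ℂ) (u : TIdx t ι → ℂ) (p : TIdx t ι) :
    DAct t (Matrix.diagonal a) μ u p = ((t.k p.1 : ℂ) * μ + ∑ s, a (p.2 s)) * u p := by
  have hD : DAct t (Matrix.diagonal a) μ u p = (t.k p.1 : ℂ) * μ * u p +
    ∑ s : Fin (t.a p.1), ∑ j : ι, (Matrix.diagonal a) (p.2 s) j *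
      u ⟨p.1, Function.update p.2 s j⟩ := rfl
  rw [hD, add_mul, Finset.sum_mul]
  congr 1
  refine Finset.sum_congr rfl fun s _ => ?_
  rw [Finset.sum_eq_single (p.2 s)]
  · simp
  · intro j _ hj
    simp [Matrix.diagonal_apply_ne _ (Ne.symm hj)]
  · simp

theorem one_add_pow (N : Matrix ι ι ℂ) (hN : N * N = 0) (k : ℕ) :
    (1 + N) ^ k = 1 + (k : ℂ) • N := by
  induction k with
  | zero => simp
  | succ k ih =>
    rw [pow_succ, ih, add_mul, one_mul, mul_add, mul_one, Matrix.smul_mul, hN, smul_zero,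
      add_zero]
    push_cast
    rw [add_smul, one_smul]
    abel

theorem TAct_pow (x : Matrix ι ι ℂ) (ν : ℂ) (k : ℕ) (u : TIdx t ι → ℂ) :
    ((TAct t x ν) ^ k) u = TAct t (x ^ k) (ν ^ k) u := by
  induction k generalizing u with
  | zero => rw [pow_zero, pow_zero, pow_zero, TAct_one]; rfl
  | succ k ih =>
    rw [pow_succ, pow_succ, pow_succ, TAct_comp]
    show ((TAct t x ν) ^ k) (TAct t x ν u) = _
    rw [ih]
    rfl

omit [Fintype ι] [DecidableEq ι] in
theorem zpow_comm_aux (a : ℂ) (k : ℕ) (m : ℤ) : (a ^ k) ^ m = (a ^ m) ^ k := by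
  rw [← _root_.zpow_natCast, ← _root_.zpow_mul, ← _root_.zpow_natCast, ← _root_.zpow_mul, mul_comm]

theorem pow_apply (α : ι → ℂˣ) (N : Matrix ι ι ℂ) (ν : ℂˣ) (hN : N * N = 0)
    (hc : Matrix.diagonal (fun i => (α i).val) * N = N * Matrix.diagonal (fun i => (α i).val))
    (k : ℕ) (u : TIdx t ι → ℂ) (p : TIdx t ι) :
    ((TAct t (Matrix.diagonal (fun i => (α i).val) * (1 + N)) ν.val) ^ k) u p
      = ((bv t α ν p).val) ^ k * (PP t N u p).eval (k : ℂ) := by
  have hcomm : Commute (Matrix.diagonal (fun i => (α i).val)) (1 + N) :=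
    (Commute.one_right _).add_right hc
  rw [TAct_pow, hcomm.mul_pow, one_add_pow N hN, Matrix.diagonal_pow]
  have h1 : ν.val ^ k = ν.val ^ k * 1 := (mul_one _).symm
  rw [h1, TAct_comp]
  show TAct t (Matrix.diagonal ((fun i => (α i).val) ^ k)) (ν.val ^ k)
    (TAct t (1 + (k : ℂ) • N) 1 u) p = _
  rw [TAct_diag, PP_eval]
  congr 1
  unfold bv
  rw [Units.val_mul, mul_pow, Units.val_zpow_eq_zpow_val, Units.coe_prod, ← Finset.prod_pow]
  congr 1
  exact zpow_comm_aux ν.val k (t.k p.1)

end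

/-! ### grouping by eigenvalues -/

theorem group {κ : Type} [Fintype κ] (b : κ → ℂˣ) (Q : κ → ℂ[X])
    (h : ∀ k : ℕ, ∑ p, (b p).val ^ k * (Q p).eval (k : ℂ) = 0) (φ : ℂ → ℂ) (F : ℂ[X] →ₗ[ℂ] ℂ) :
    ∑ p, φ (b p).val * F (Q p) = 0 := by
  classical
  set R : Finset ℂ := Finset.univ.image (fun p => (b p).val) with hR
  have hmap : ∀ p ∈ (Finset.univ : Finset κ), (b p).val ∈ R := fun p hp =>
    Finset.mem_image_of_mem _ hp
  set Q' : ℂ → ℂ[X] := fun ρ => ∑ p ∈ Finset.univ.filter (fun p => (b p).val = ρ), Q p with hQ'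
  have h0 : ∀ ρ ∈ R, ρ ≠ 0 := by
    intro ρ hρ
    obtain ⟨p, _, rfl⟩ := Finset.mem_image.mp hρ
    exact (b p).ne_zero
  have h1 : ∀ k : ℕ, ∑ ρ ∈ R, ρ ^ k * (Q' ρ).eval (k : ℂ) = 0 := by
    intro k
    rw [← h k, ← Finset.sum_fiberwise_of_maps_to hmap]
    refine Finset.sum_congr rfl fun ρ _ => ?_
    rw [hQ', Polynomial.eval_finsetSum, Finset.mul_sum]
    refine Finset.sum_congr rfl fun p hp => ?_
    rw [(Finset.mem_filter.mp hp).2]
  have h2 := indep R Q' h0 h1
  rw [← Finset.sum_fiberwise_of_maps_to hmap]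
  refine Finset.sum_eq_zero fun ρ hρ => ?_
  have h3 : ∑ p ∈ Finset.univ.filter (fun p => (b p).val = ρ), φ (b p).val * F (Q p)
      = φ ρ * F (Q' ρ) := by
    rw [hQ', map_sum, Finset.mul_sum]
    refine Finset.sum_congr rfl fun p hp => ?_
    rw [(Finset.mem_filter.mp hp).2]
  rw [h3, h2 ρ hρ, map_zero, mul_zero]

theorem mem_of_dual {κ : Type} [Fintype κ] [DecidableEq κ] (D : Submodule ℂ (κ → ℂ)) (v : κ → ℂ)
    (h : ∀ l : κ → ℂ, (∀ u ∈ D, ∑ p, l p * u p = 0) → ∑ p, l p * v p = 0) : v ∈ D := by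
  by_contra hv
  obtain ⟨f, hf1, hf2⟩ := Submodule.exists_dual_map_eq_bot_of_notMem hv inferInstance
  apply hf1
  have hf : ∀ u : κ → ℂ, f u = ∑ p, f (Pi.single p 1) * u p := by
    intro u
    rw [LinearMap.pi_apply_eq_sum_univ f u]
    refine Finset.sum_congr rfl fun p _ => ?_
    rw [smul_eq_mul, mul_comm]
    congr 2
    funext q
    simp [Pi.single_apply, eq_comm]
  rw [hf v]
  refine h (fun p => f (Pi.single p 1)) (fun u hu => ?_)
  rw [← hf u]
  have : f u ∈ D.map f := Submodule.mem_map_of_mem hu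
  rw [hf2] at this
  exact (Submodule.mem_bot ℂ).mp this

section

variable {ι : Type} [Fintype ι] [DecidableEq ι] (t : TData)

theorem main (α : ι → ℂˣ) (N : Matrix ι ι ℂ) (ν : ℂˣ) (D : Submodule ℂ (TIdx t ι → ℂ))
    (hN : N * N = 0)
    (hc : Matrix.diagonal (fun i => (α i).val) * N = N * Matrix.diagonal (fun i => (α i).val))
    (hD : ∀ u ∈ D, TAct t (Matrix.diagonal (fun i => (α i).val) * (1 + N)) ν.val u ∈ D) :
    (∀ (φ : ℂ → ℂ), ∀ u ∈ D, (fun p => φ (bv t α ν p).val * u p) ∈ D) ∧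
    (∀ u ∈ D, DAct t N 0 u ∈ D) := by
  have hpow : ∀ (k : ℕ), ∀ u ∈ D,
      ((TAct t (Matrix.diagonal (fun i => (α i).val) * (1 + N)) ν.val) ^ k) u ∈ D := by
    intro k
    induction k with
    | zero => intro u hu; exact hu
    | succ k ih =>
      intro u hu
      rw [pow_succ]
      exact ih _ (hD u hu)
  have key : ∀ (φ : ℂ → ℂ) (F : ℂ[X] →ₗ[ℂ] ℂ), ∀ u ∈ D,
      (fun p => φ (bv t α ν p).val * F (PP t N u p)) ∈ D := by
    intro φ F u hu
    refine mem_of_dual D _ fun l hl => ?_
    have h1 := group (bv t α ν) (fun p => C (l p) * PP t N u p) (fun k => by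
      have h2 := hl _ (hpow k u hu)
      rw [← h2]
      refine Finset.sum_congr rfl fun p _ => ?_
      rw [pow_apply t α N ν hN hc k u p, Polynomial.eval_mul, Polynomial.eval_C]
      ring) φ F
    rw [← h1]
    refine Finset.sum_congr rfl fun p _ => ?_
    rw [← Polynomial.smul_eq_C_mul, map_smul, smul_eq_mul]
    ring
  constructor
  · intro φ u hu
    have h1 := key φ (Polynomial.leval 0) u hu
    simp only [Polynomial.leval_apply, PP_zero] at h1
    exact h1
  · intro u hu
    have h1 := key (fun _ => 1) ((Polynomial.leval 0).comp Polynomial.derivative) u hu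
    simp only [LinearMap.comp_apply, Polynomial.leval_apply, PP_deriv, one_mul] at h1
    exact h1

end

end JDX

theorem jd_proof (hADJ : Stmt_Adj) : Stmt_Jd := by
  intro ι _ _ t S α N ν D hN hc hD
  have hSS : S.val * (S⁻¹).val = 1 := by
    rw [← Units.val_mul, mul_inv_cancel, Units.val_one]
  have hSS' : (S⁻¹).val * S.val = 1 := by
    rw [← Units.val_mul, inv_mul_cancel, Units.val_one]
  set D' : Submodule ℂ (TIdx t ι → ℂ) := D.comap (TAct t S.val 1) with hD'
  have h1 : ∀ u, TAct t S.val 1 (TAct t (S⁻¹).val 1 u) = u := by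
    intro u
    have := TAct_comp t S.val (S⁻¹).val 1 1
    rw [hSS, mul_one, TAct_one] at this
    exact (LinearMap.congr_fun this u).symm
  have hstab : ∀ u ∈ D', TAct t (Matrix.diagonal (fun i => (α i).val) * (1 + N)) ν.val u ∈ D' := by
    intro u hu
    have h2 : TAct t S.val 1 (TAct t (Matrix.diagonal (fun i => (α i).val) * (1 + N)) ν.val u)
        = TAct t (S.val * Matrix.diagonal (fun i => (α i).val) * (1 + N) * (S⁻¹).val) ν.val
          (TAct t S.val 1 u) := by
      have e1 := TAct_comp t S.val (Matrix.diagonal (fun i => (α i).val) * (1 + N)) 1 ν.val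
      have e2 := TAct_comp t (S.val * Matrix.diagonal (fun i => (α i).val) * (1 + N) *
        (S⁻¹).val) S.val ν.val 1
      rw [mul_assoc _ (S⁻¹).val S.val, hSS', mul_one, mul_one] at e2
      rw [one_mul, ← mul_assoc] at e1
      rw [e1] at e2
      exact LinearMap.congr_fun e2 u
    show TAct t S.val 1 _ ∈ D
    rw [h2]
    exact hD (Submodule.mem_map_of_mem hu)
  obtain ⟨m1, m2⟩ := JDX.main t α N ν D' hN hc hstab
  have hfin : ∀ (X : Matrix ι ι ℂ) (μ : ℂ), (∀ u ∈ D', DAct t X μ u ∈ D') →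
      D.map (DAct t (S.val * X * (S⁻¹).val) μ) ≤ D := by
    intro X μ hX
    rintro _ ⟨v, hv, rfl⟩
    have hv' : TAct t (S⁻¹).val 1 v ∈ D' := by
      show TAct t S.val 1 _ ∈ D
      rw [h1 v]
      exact hv
    have h3 := hX _ hv'
    have h4 := (hADJ ι t).1 S X 1 μ
    have h5 := LinearMap.congr_fun h4 (TAct t (S⁻¹).val 1 v)
    have h6 : DAct t (S.val * X * (S⁻¹).val) μ v
        = TAct t S.val 1 (DAct t X μ (TAct t (S⁻¹).val 1 v)) := by
      rw [LinearMap.comp_apply, LinearMap.comp_apply, h1 v] at h5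
      exact h5.symm
    rw [h6]
    exact h3
  refine ⟨fun L => hfin _ _ ?_, hfin _ _ m2⟩
  intro u hu
  classical
  have h7 := m1 (fun z => if hz : z = 0 then 0 else L (Additive.ofMul (Units.mk0 z hz))) u hu
  have h8 : DAct t (Matrix.diagonal (fun i => L (Additive.ofMul (α i)))) (L (Additive.ofMul ν)) u
      = fun p => (if hz : (JDX.bv t α ν p).val = 0 then 0
        else L (Additive.ofMul (Units.mk0 (JDX.bv t α ν p).val hz))) * u p := by
    funext p
    rw [JDX.DAct_diag, dif_neg (JDX.bv t α ν p).ne_zero]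
    congr 1
    have e1 : Units.mk0 (JDX.bv t α ν p).val (JDX.bv t α ν p).ne_zero = JDX.bv t α ν p :=
      Units.ext rfl
    rw [e1]
    unfold JDX.bv
    rw [ofMul_mul, map_add, ofMul_zpow, map_zsmul, ofMul_prod, map_sum, zsmul_eq_mul]
  rw [h8]
  exact h7

end Pool.Agent.DRB
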