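import Pool.Agent.DRB.Stmts

/-! Module JNF. -/

set_option autoImplicit false

open scoped BigOperators Topology
open Matrix Asymptotics Filter

namespace Pool.Agent.DRB

namespace JnfX

theorem inv_mul_val (g : GL (Fin 2) ℂ) : (g⁻¹).val * g.val = 1 := by
  rw [← Units.val_mul, inv_mul_cancel, Units.val_one]

theorem mul_inv_val (g : GL (Fin 2) ℂ) : g.val * (g⁻¹).val = 1 := by
  rw [← Units.val_mul, mul_inv_cancel, Units.val_one]

/-- An eigenvector. -/
theorem eigen (x : Matrix (Fin 2) (Fin 2) ℂ) : ∃ (a : ℂ) (v : Fin 2 → ℂ), v ≠ 0 ∧ x *ᵥ v = a • v := by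
  obtain ⟨s, hs⟩ := IsAlgClosed.exists_pow_nat_eq
    ((x 0 0 + x 1 1) ^ 2 - 4 * (x 0 0 * x 1 1 - x 0 1 * x 1 0)) (n := 2) (by norm_num)
  let a : ℂ := (x 0 0 + x 1 1 + s) / 2
  have hdet : (x - a • (1 : Matrix (Fin 2) (Fin 2) ℂ)).det = 0 := by
    rw [Matrix.det_fin_two]
    simp only [Matrix.sub_apply, Matrix.smul_apply, Matrix.one_apply, smul_eq_mul]
    simp only [a]
    norm_num
    linear_combination hs / 4
  obtain ⟨v, hv, h⟩ := Matrix.exists_mulVec_eq_zero_iff.mpr hdet
  refine ⟨a, v, hv, ?_⟩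
  rw [Matrix.sub_mulVec, Matrix.smul_mulVec, Matrix.one_mulVec, sub_eq_zero] at h
  exact h

/-- Triangular form. -/
theorem triang (x : Matrix (Fin 2) (Fin 2) ℂ) : ∃ (P : GL (Fin 2) ℂ) (a b d : ℂ),
    x * P.val = P.val * !![a, b; 0, d] := by
  obtain ⟨a, v, hv, h⟩ := eigen x
  have h0 := congrFun h 0
  have h1 := congrFun h 1
  simp only [Matrix.mulVec, dotProduct, Fin.sum_univ_two, Pi.smul_apply, smul_eq_mul] at h0 h1
  by_cases hv0 : v 0 = 0
  · have hv1 : v 1 ≠ 0 := by
      intro hv1
      apply hv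
      ext i
      fin_cases i
      · exact hv0
      · exact hv1
    refine ⟨Matrix.GeneralLinearGroup.mkOfDetNeZero !![0, 1; v 1, 0] ?_, a, x 1 0 / v 1, x 0 0, ?_⟩
    · rw [Matrix.det_fin_two_of]
      simpa using hv1
    · show x * !![0, 1; v 1, 0] = !![0, 1; v 1, 0] * !![a, x 1 0 / v 1; 0, x 0 0]
      rw [hv0] at h0 h1
      ext i j
      fin_cases i <;> fin_cases j <;>
        simp [Matrix.mul_apply, Fin.sum_univ_two]
      · exact mul_eq_zero.mp (by linear_combination h0)
      · linear_combination h1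
      · field_simp
  · refine ⟨Matrix.GeneralLinearGroup.mkOfDetNeZero !![v 0, 0; v 1, 1] ?_, a, x 0 1 / v 0,
      x 1 1 - v 1 * x 0 1 / v 0, ?_⟩
    · rw [Matrix.det_fin_two_of]
      simpa using hv0
    · show x * !![v 0, 0; v 1, 1] =
        !![v 0, 0; v 1, 1] * !![a, x 0 1 / v 0; 0, x 1 1 - v 1 * x 0 1 / v 0]
      ext i j
      fin_cases i <;> fin_cases j <;>
        simp [Matrix.mul_apply, Fin.sum_univ_two]
      · linear_combination h0
      · field_simp
      · linear_combination h1
      · field_simp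
        ring

end JnfX

open JnfX in
theorem jnf_proof : Stmt_Jnf := by
  intro x
  obtain ⟨P, a, b, d, hP⟩ := triang x.val
  have hx : x.val = P.val * !![a, b; 0, d] * (P⁻¹).val := by
    rw [← hP, Matrix.mul_assoc, mul_inv_val, Matrix.mul_one]
  have hdet : a * d ≠ 0 := by
    have h1 : x.val.det ≠ 0 := by
      have := x.isUnit
      rw [Matrix.isUnit_iff_isUnit_det] at this
      exact this.ne_zero
    have h2 : P.val.det ≠ 0 := by
      have := P.isUnit
      rw [Matrix.isUnit_iff_isUnit_det] at this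
      exact this.ne_zero
    have h3 := congrArg Matrix.det hP
    rw [Matrix.det_mul, Matrix.det_mul, Matrix.det_fin_two_of] at h3
    intro h4
    have h5 : a * d - b * 0 = 0 := by linear_combination h4
    rw [h5, mul_zero] at h3
    exact (mul_ne_zero h1 h2) h3
  have ha : a ≠ 0 := left_ne_zero_of_mul hdet
  have hd : d ≠ 0 := right_ne_zero_of_mul hdet
  by_cases had : a = d
  · subst had
    refine ⟨P, fun _ => Units.mk0 a ha, !![0, b / a; 0, 0], ?_, ?_, ?_⟩
    · ext i j
      fin_cases i <;> fin_cases j <;> simp [Matrix.mul_apply, Fin.sum_univ_two]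
    · have h6 : Matrix.diagonal (fun i : Fin 2 => ((fun _ => Units.mk0 a ha) i : ℂˣ).val) =
          a • (1 : Matrix (Fin 2) (Fin 2) ℂ) := by
        rw [Matrix.smul_one_eq_diagonal]
        rfl
      rw [h6, Matrix.smul_mul, Matrix.mul_smul, Matrix.one_mul, Matrix.mul_one]
    · rw [hx]
      congr 1
      rw [Matrix.mul_assoc]
      congr 1
      ext i j
      fin_cases i <;> fin_cases j <;>
        simp [Matrix.mul_apply, Fin.sum_univ_two]
      field_simp
  · have hda : d - a ≠ 0 := sub_ne_zero.mpr (Ne.symm had)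
    let T : GL (Fin 2) ℂ := Matrix.GeneralLinearGroup.mkOfDetNeZero !![1, b / (d - a); 0, 1] (by
      rw [Matrix.det_fin_two_of]
      simp)
    have hT : T.val = !![1, b / (d - a); 0, 1] := rfl
    refine ⟨P * T, ![Units.mk0 a ha, Units.mk0 d hd], 0, ?_, ?_, ?_⟩
    · simp
    · simp
    · rw [hx, _root_.mul_inv_rev, Units.val_mul, Units.val_mul, add_zero, Matrix.mul_one]
      have h7 : Matrix.diagonal (fun i : Fin 2 => ((![Units.mk0 a ha, Units.mk0 d hd] i : ℂˣ).val)) =
          !![a, 0; 0, d] := by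
        ext i j
        fin_cases i <;> fin_cases j <;> simp
      have h8 : T.val * !![a, 0; 0, d] = !![a, b; 0, d] * T.val := by
        rw [hT]
        ext i j
        fin_cases i <;> fin_cases j <;>
          simp [Matrix.mul_apply, Fin.sum_univ_two]
        field_simp
        ring
      rw [h7]
      calc P.val * !![a, b; 0, d] * (P⁻¹).val
          = P.val * (!![a, b; 0, d] * (T.val * (T⁻¹).val)) * (P⁻¹).val := by
            rw [mul_inv_val, Matrix.mul_one]
        _ = P.val * (T.val * !![a, 0; 0, d] * (T⁻¹).val) * (P⁻¹).val := by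
            rw [h8]
            simp only [Matrix.mul_assoc]
        _ = P.val * T.val * !![a, 0; 0, d] * ((T⁻¹).val * (P⁻¹).val) := by
            simp only [Matrix.mul_assoc]

end Pool.Agent.DRB
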