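import Pool.Agent.DRB.Stmts

/-!
# DRB, module LDP: bilinear expressions with algebraic values are constant
-/

open scoped BigOperators Topology

namespace Pool.Agent.DRB

noncomputable section

namespace LDPX

theorem galA_one : (1 : ℂ ≃ₐ[ℚ] ℂ) ∈ GalA := fun _ _ => rfl

theorem galA_mul {σ τ : ℂ ≃ₐ[ℚ] ℂ} (hσ : σ ∈ GalA) (hτ : τ ∈ GalA) : σ * τ ∈ GalA := by
  intro z hz
  rw [AlgEquiv.mul_apply, hτ z hz, hσ z hz]

theorem galA_inv {σ : ℂ ≃ₐ[ℚ] ℂ} (hσ : σ ∈ GalA) : σ⁻¹ ∈ GalA := by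
  intro z hz
  have h1 := hσ z hz
  have h2 : σ⁻¹ (σ z) = z := by
    rw [← AlgEquiv.mul_apply, inv_mul_cancel]
    rfl
  rwa [h1] at h2

theorem apply_inv (σ : ℂ ≃ₐ[ℚ] ℂ) (z : ℂ) : σ (σ⁻¹ z) = z := by
  rw [← AlgEquiv.mul_apply, mul_inv_cancel]
  rfl

/-- The main step. -/
theorem alg_of_indep (hA2 : Stmt_Aut2) (hDA : Stmt_DescA) (n : ℕ) (x y : Fin n → ℂ)
    (hLI : ∀ c : Fin n → ℂ, (∀ m, IsAlgebraic ℚ (c m)) → ∑ m, c m * y m = 0 → c = 0)
    (hx : ∀ τ ∈ GalA, IsAlgebraic ℚ (∑ m, x m * τ (y m))) (m : Fin n) :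
    IsAlgebraic ℚ (x m) := by
  classical
  -- the annihilator
  let Ann : Submodule ℂ (Fin n → ℂ) :=
    { carrier := {c | ∀ τ ∈ GalA, ∑ m, c m * τ (y m) = 0}
      add_mem' := by
        intro a b ha hb τ hτ
        simp only [Pi.add_apply, add_mul, Finset.sum_add_distrib, ha τ hτ, hb τ hτ, add_zero]
      zero_mem' := by
        intro τ _
        simp
      smul_mem' := by
        intro c a ha τ hτ
        simp only [Pi.smul_apply, smul_eq_mul, mul_assoc, ← Finset.mul_sum, ha τ hτ, mul_zero] }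
  have hAnnStab : ∀ σ ∈ GalA, ∀ v ∈ Ann, (fun k => σ (v k)) ∈ Ann := by
    intro σ hσ v hv τ hτ
    have h1 := hv (σ⁻¹ * τ) (galA_mul (galA_inv hσ) hτ)
    have h2 := congrArg σ h1
    rw [map_sum, map_zero] at h2
    simpa [AlgEquiv.mul_apply, apply_inv] using h2
  have hAnn : Ann = ⊥ := by
    have h1 := hDA (Fin n) Ann hAnnStab
    rw [eq_bot_iff]
    refine h1.trans ?_
    rw [Submodule.span_le]
    rintro c ⟨hc, halg⟩
    have h2 := hc 1 galA_one
    have h3 := hLI c halg (by simpa using h2)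
    simp [h3]
  -- the conjugates of `y` span
  have hspan : Submodule.span ℂ {v : Fin n → ℂ | ∃ τ ∈ GalA, v = fun k => τ (y k)} = ⊤ := by
    by_contra hne
    obtain ⟨f, hf0, hf⟩ := Submodule.exists_le_ker_of_lt_top _ (lt_top_iff_ne_top.2 hne)
    apply hf0
    have hc : (fun k => f (Pi.single k 1)) ∈ Ann := by
      intro τ hτ
      have h1 : f (fun k => τ (y k)) = 0 := hf (Submodule.subset_span ⟨τ, hτ, rfl⟩)
      have h2 : (fun k => τ (y k)) = ∑ k, τ (y k) • (Pi.single k 1 : Fin n → ℂ) := by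
        funext i
        simp [Finset.sum_apply, Pi.single_apply]
      rw [h2, map_sum] at h1
      simp only [map_smul, smul_eq_mul] at h1
      rw [← h1]
      exact Finset.sum_congr rfl fun k _ => mul_comm _ _
    rw [hAnn, Submodule.mem_bot] at hc
    refine LinearMap.ext fun v => ?_
    have h2 : v = ∑ k, v k • (Pi.single k 1 : Fin n → ℂ) := by
      funext i
      simp [Finset.sum_apply, Pi.single_apply]
    rw [h2, map_sum]
    simp only [map_smul, LinearMap.zero_apply]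
    refine Finset.sum_eq_zero fun k _ => ?_
    rw [show f (Pi.single k 1) = 0 from congrFun hc k, smul_zero]
  -- the coordinate functional as a combination
  have hem : (Pi.single m 1 : Fin n → ℂ) ∈
      Submodule.span ℂ {v : Fin n → ℂ | ∃ τ ∈ GalA, v = fun k => τ (y k)} := by
    rw [hspan]
    trivial
  have hrange : {v : Fin n → ℂ | ∃ τ ∈ GalA, v = fun k => τ (y k)} =
      Set.range (fun (τ : GalA) => fun k => (τ : ℂ ≃ₐ[ℚ] ℂ) (y k)) := by
    ext v
    constructor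
    · rintro ⟨τ, hτ, rfl⟩
      exact ⟨⟨τ, hτ⟩, rfl⟩
    · rintro ⟨τ, rfl⟩
      exact ⟨τ, τ.2, rfl⟩
  rw [hrange] at hem
  obtain ⟨a, ha⟩ := Finsupp.mem_span_range_iff_exists_finsupp.1 hem
  -- the countable set
  apply hA2
  have hcount : (Set.range fun q : a.support → {z : ℂ // IsAlgebraic ℚ z} =>
      ∑ τ : a.support, a τ * (q τ : ℂ)).Countable := by
    have : Countable {z : ℂ // IsAlgebraic ℚ z} := Algebraic.countable ℚ ℂ
    exact Set.countable_range _
  refine hcount.mono ?_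
  rintro w ⟨σ, hσ, rfl⟩
  have hN : ∀ τ ∈ GalA, IsAlgebraic ℚ (∑ k, σ (x k) * τ (y k)) := by
    intro τ hτ
    have h1 := hx (σ⁻¹ * τ) (galA_mul (galA_inv hσ) hτ)
    have h2 : ∑ k, σ (x k) * τ (y k) = σ (∑ k, x k * (σ⁻¹ * τ) (y k)) := by
      rw [map_sum]
      simp [AlgEquiv.mul_apply, apply_inv]
    rw [h2, hσ _ h1]
    exact h1
  refine ⟨fun τ => ⟨_, hN τ.1 τ.1.2⟩, ?_⟩
  simp only
  have h3 : ∑ k, σ (x k) * (Pi.single m 1 : Fin n → ℂ) k = σ (x m) := by
    simp [Pi.single_apply]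
  rw [← h3, ← ha]
  rw [Finsupp.sum]
  simp only [Finset.sum_apply, Pi.smul_apply, smul_eq_mul]
  rw [Finset.sum_coe_sort a.support (fun τ : GalA => a τ * ∑ k, σ (x k) *
    (τ : ℂ ≃ₐ[ℚ] ℂ) (y k))]
  simp only [Finset.mul_sum]
  rw [Finset.sum_comm]
  refine Finset.sum_congr rfl fun τ _ => Finset.sum_congr rfl fun k _ => ?_
  ring

end LDPX

open LDPX in
theorem ldp_proof (hA2 : Stmt_Aut2) (hDA : Stmt_DescA) : Stmt_Ldp := by
  classical
  intro n x y hxy
  set F := algebraicClosure ℚ ℂ with hF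
  have hFm : ∀ z : ℂ, z ∈ F ↔ IsAlgebraic ℚ z := fun z => mem_algebraicClosure_iff
  -- a basis of the `F`-span of the `y m`
  let S : Submodule F ℂ := Submodule.span F (Set.range y)
  have : FiniteDimensional F S := FiniteDimensional.span_of_finite F (Set.finite_range y)
  let b := Module.finBasis F S
  set r := Module.finrank F S with hr
  have hyS : ∀ m, y m ∈ S := fun m => Submodule.subset_span ⟨m, rfl⟩
  let A : Fin n → Fin r → ℂ := fun m j => ((b.repr ⟨y m, hyS m⟩ j : F) : ℂ)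
  let y' : Fin r → ℂ := fun j => ((b j : S) : ℂ)
  have hAalg : ∀ m j, IsAlgebraic ℚ (A m j) := fun m j => (hFm _).1 (b.repr ⟨y m, hyS m⟩ j).2
  have hyA : ∀ m, y m = ∑ j, A m j * y' j := by
    intro m
    have h1 := b.sum_repr ⟨y m, hyS m⟩
    have h2 := congrArg (fun s : S => (s : ℂ)) h1
    simp only [AddSubmonoidClass.coe_finsetSum, Submodule.coe_smul] at h2
    rw [← h2]
    rfl
  let x' : Fin r → ℂ := fun j => ∑ m, x m * A m j
  have hconv : ∀ τ ∈ GalA, ∑ m, x m * τ (y m) = ∑ j, x' j * τ (y' j) := by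
    intro τ hτ
    have h1 : ∀ m, τ (y m) = ∑ j, A m j * τ (y' j) := by
      intro m
      rw [hyA m, map_sum]
      exact Finset.sum_congr rfl fun j _ => by rw [map_mul, hτ _ (hAalg m j)]
    simp only [h1, Finset.mul_sum, x', Finset.sum_mul]
    rw [Finset.sum_comm]
    exact Finset.sum_congr rfl fun j _ => Finset.sum_congr rfl fun m _ => by ring
  have hLI : ∀ c : Fin r → ℂ, (∀ j, IsAlgebraic ℚ (c j)) → ∑ j, c j * y' j = 0 → c = 0 := by
    intro c hc h0
    have hb : LinearIndependent F y' := by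
      exact b.linearIndependent.map' S.subtype (Submodule.ker_subtype S)
    rw [Fintype.linearIndependent_iff] at hb
    have h1 := hb (fun j => ⟨c j, (hFm _).2 (hc j)⟩) (by
      rw [← h0]
      rfl)
    funext j
    have h2 := congrArg (fun z : F => (z : ℂ)) (h1 j)
    exact h2
  have hx' : ∀ τ ∈ GalA, IsAlgebraic ℚ (∑ j, x' j * τ (y' j)) := by
    intro τ hτ
    rw [← hconv τ hτ]
    exact hxy τ hτ
  have halg := alg_of_indep hA2 hDA r x' y' hLI hx'
  intro τ hτ
  have h1 : ∑ m, x m * y m = ∑ j, x' j * y' j := by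
    have := hconv 1 galA_one
    simpa using this
  rw [hconv τ hτ, h1]
  have h2 : IsAlgebraic ℚ (∑ j, x' j * y' j) := by
    have := hx' 1 galA_one
    simpa using this
  rw [← hτ _ h2, map_sum]
  exact Finset.sum_congr rfl fun j _ => by rw [map_mul, hτ _ (halg j)]

end

end Pool.Agent.DRB
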