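import Pool.Agent.DRB.Stmts
import Pool.Agent.Lib70.PiTranscendental

/-! # LIND: transcendence of `π` -/

namespace Pool.Agent.DRB

theorem lind_proof : Stmt_Lind := by
  intro h
  have h1 : IsAlgebraic ℚ (algebraMap ℝ ℂ Real.pi) := h
  have h2 : IsAlgebraic ℚ Real.pi :=
    (isAlgebraic_algebraMap_iff (FaithfulSMul.algebraMap_injective ℝ ℂ)).1 h1
  exact Pool.Agent.Lib70.PiTr.transcendental_pi h2

end Pool.Agent.DRB
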