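import Pool.Agent.DRB.Stmts

open scoped BigOperators Topology
open Matrix

namespace Pool.Agent.DRB

noncomputable section

namespace MAINX

section Blk

variable {R C : Type} [DecidableEq R] [DecidableEq C]

theorem Bmat_mul [Fintype R] [Fintype C] (x x' : R → Matrix (Fin 2) (Fin 2) ℂ) (y y' : C → ℂ) :
    Bmat x y * Bmat x' y' = Bmat (fun r => x r * x' r) (fun i => y i * y' i) := by
  unfold Bmat
  rw [Matrix.fromBlocks_multiply]
  simp [Matrix.blockDiagonal_mul, Matrix.diagonal_mul_diagonal]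

theorem Bmat_one : Bmat (fun _ : R => (1 : Matrix (Fin 2) (Fin 2) ℂ)) (fun _ : C => (1:ℂ)) = 1 := by
  unfold Bmat
  have h1 : Matrix.blockDiagonal (fun _ : R => (1 : Matrix (Fin 2) (Fin 2) ℂ)) = 1 :=
    Matrix.blockDiagonal_one
  have h2 : Matrix.diagonal (fun _ : C => (1:ℂ)) = 1 := Matrix.diagonal_one
  rw [h1, h2, Matrix.fromBlocks_one]

theorem Bmat_ll (x : R → Matrix (Fin 2) (Fin 2) ℂ) (y : C → ℂ) (i j : Fin 2) (r r' : R) :
    Bmat x y (Sum.inl (i, r)) (Sum.inl (j, r')) = if r = r' then x r i j else 0 := by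
  simp [Bmat, Matrix.blockDiagonal_apply]

theorem Bmat_lr (x : R → Matrix (Fin 2) (Fin 2) ℂ) (y : C → ℂ) (p : Fin 2 × R) (c : C) :
    Bmat x y (Sum.inl p) (Sum.inr c) = 0 := by
  simp [Bmat]

theorem Bmat_rl (x : R → Matrix (Fin 2) (Fin 2) ℂ) (y : C → ℂ) (p : Fin 2 × R) (c : C) :
    Bmat x y (Sum.inr c) (Sum.inl p) = 0 := by
  simp [Bmat]

theorem Bmat_rr (x : R → Matrix (Fin 2) (Fin 2) ℂ) (y : C → ℂ) (c c' : C) :
    Bmat x y (Sum.inr c) (Sum.inr c') = if c = c' then y c else 0 := by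
  simp [Bmat, Matrix.diagonal_apply]

/-- A matrix supported on the blocks is of the form `Bmat`. -/
theorem Bmat_of (N : Matrix (BIdx R C) (BIdx R C) ℂ)
    (h1 : ∀ i j r r', r ≠ r' → N (Sum.inl (i, r)) (Sum.inl (j, r')) = 0)
    (h2 : ∀ p c, N (Sum.inl p) (Sum.inr c) = 0) (h3 : ∀ p c, N (Sum.inr c) (Sum.inl p) = 0)
    (h4 : ∀ c c', c ≠ c' → N (Sum.inr c) (Sum.inr c') = 0) :
    N = Bmat (fun r => Matrix.of fun i j => N (Sum.inl (i, r)) (Sum.inl (j, r)))
      (fun c => N (Sum.inr c) (Sum.inr c)) := by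
  ext e e'
  rcases e with ⟨i, r⟩ | c <;> rcases e' with ⟨j, r'⟩ | c'
  · rw [Bmat_ll]
    split_ifs with h
    · subst h; rfl
    · exact h1 i j r r' h
  · rw [Bmat_lr, h2]
  · rw [Bmat_rl, h3]
  · rw [Bmat_rr]
    split_ifs with h
    · subst h; rfl
    · exact h4 c c' h

theorem bm_mul [Fintype R] [Fintype C] (γ δ : BGrp R C) : bm (γ * δ) = bm γ * bm δ := by
  unfold bm
  rw [Bmat_mul]
  rfl

theorem bm_one : bm (1 : BGrp R C) = 1 := by
  unfold bm
  exact Bmat_one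

theorem bm_inj (γ δ : BGrp R C) (h : bm γ = bm δ) (h' : γ.2.2 = δ.2.2) : γ = δ := by
  obtain ⟨x, y, n⟩ := γ
  obtain ⟨x', y', n'⟩ := δ
  have h1 : x = x' := by
    funext r
    refine Units.ext ?_
    ext i j
    have := congrFun (congrFun h (Sum.inl (i, r))) (Sum.inl (j, r))
    unfold bm at this
    rw [Bmat_ll, Bmat_ll, if_pos rfl, if_pos rfl] at this
    exact this
  have h2 : y = y' := by
    funext c
    refine Units.ext ?_
    have := congrFun (congrFun h (Sum.inr c)) (Sum.inr c)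
    unfold bm at this
    rw [Bmat_rr, Bmat_rr, if_pos rfl, if_pos rfl] at this
    exact this
  have h3 : n = n' := h'
  subst h1 h2 h3
  rfl

variable [Fintype R] [Fintype C] {ι : Type} [Fintype ι] [DecidableEq ι]

/-- The embedding of the block group. -/
def psi (S : Matrix ι (BIdx R C) ℂ) (S' : Matrix (BIdx R C) ι ℂ) (h : S * S' = 1) (h' : S' * S = 1) :
    BGrp R C →* GL ι ℂ × ℂˣ where
  toFun γ := (⟨S * bm γ * S', S * bm γ⁻¹ * S',
      by
        have : S * bm γ * S' * (S * bm γ⁻¹ * S') = S * (bm γ * (S' * S) * bm γ⁻¹) * S' := by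
          simp only [Matrix.mul_assoc]
        rw [this, h', Matrix.mul_one, ← bm_mul, mul_inv_cancel, bm_one, Matrix.mul_one, h],
      by
        have : S * bm γ⁻¹ * S' * (S * bm γ * S') = S * (bm γ⁻¹ * (S' * S) * bm γ) * S' := by
          simp only [Matrix.mul_assoc]
        rw [this, h', Matrix.mul_one, ← bm_mul, inv_mul_cancel, bm_one, Matrix.mul_one, h]⟩, γ.2.2)
  map_one' := by
    refine Prod.ext (Units.ext ?_) rfl
    change S * bm (1 : BGrp R C) * S' = 1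
    rw [bm_one, Matrix.mul_one, h]
  map_mul' γ δ := by
    refine Prod.ext (Units.ext ?_) rfl
    change S * bm (γ * δ) * S' = (S * bm γ * S') * (S * bm δ * S')
    have : (S * bm γ * S') * (S * bm δ * S') = S * (bm γ * (S' * S) * bm δ) * S' := by
      simp only [Matrix.mul_assoc]
    rw [this, h', Matrix.mul_one, bm_mul]

theorem psi_val (S : Matrix ι (BIdx R C) ℂ) (S' : Matrix (BIdx R C) ι ℂ) (h : S * S' = 1)
    (h' : S' * S = 1) (γ : BGrp R C) : ((psi S S' h h' γ).1 : Matrix ι ι ℂ) = S * bm γ * S' := rfl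

theorem psi_snd (S : Matrix ι (BIdx R C) ℂ) (S' : Matrix (BIdx R C) ι ℂ) (h : S * S' = 1)
    (h' : S' * S = 1) (γ : BGrp R C) : (psi S S' h h' γ).2 = γ.2.2 := rfl

theorem bm_of_psi (S : Matrix ι (BIdx R C) ℂ) (S' : Matrix (BIdx R C) ι ℂ) (h : S * S' = 1)
    (h' : S' * S = 1) (γ : BGrp R C) : S' * ((psi S S' h h' γ).1 : Matrix ι ι ℂ) * S = bm γ := by
  rw [psi_val]
  have : S' * (S * bm γ * S') * S = (S' * S) * bm γ * (S' * S) := by
    simp only [Matrix.mul_assoc]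
  rw [this, h', Matrix.one_mul, Matrix.mul_one]

end Blk

section AV

variable {g : ℕ} (A : AbVar g)

abbrev RR := {χ : A.Chr // A.IsRealChr χ}

abbrev CC := {χ : A.Chr // ¬ A.IsRealChr χ}

/-- The character of a basis element. -/
def chr : BIdx (RR A) (CC A) → A.Chr := Sum.elim (fun p => p.2.1) (fun c => c.1)

theorem conj_apply (χ : A.Chr) (α : A.EndQ) : A.conjChr χ α = (starRingEnd ℂ) (χ α) := rfl

theorem conj_conj (χ : A.Chr) : A.conjChr (A.conjChr χ) = χ := by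
  refine AlgHom.ext fun α => ?_
  rw [conj_apply, conj_apply, Complex.conj_conj]

theorem real_iff (χ : A.Chr) : A.IsRealChr χ ↔ A.conjChr χ = χ := by
  constructor
  · intro h
    refine AlgHom.ext fun α => ?_
    rw [conj_apply]
    exact Complex.conj_eq_iff_im.2 (h α)
  · intro h α
    have := congrArg (fun φ : A.Chr => φ α) h
    simp only [conj_apply] at this
    exact Complex.conj_eq_iff_im.1 this

theorem conj_real (χ : A.Chr) (h : ¬ A.IsRealChr χ) : ¬ A.IsRealChr (A.conjChr χ) := by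
  rw [real_iff] at h ⊢
  rw [conj_conj]
  exact fun h' => h h'.symm

/-- complex conjugation on the nonreal characters -/
def cj : CC A → CC A := fun χ => ⟨A.conjChr χ.1, conj_real A χ.1 χ.2⟩

theorem card_real [Fintype (RR A)] [Fintype (CC A)] (χ : A.Chr) (h : A.IsRealChr χ) :
    Nat.card {e // chr A e = χ} = 2 := by
  have E : {e // chr A e = χ} ≃ Fin 2 :=
    { toFun := fun e => Sum.elim (fun p => p.1) (fun _ => 0) e.1
      invFun := fun i => ⟨Sum.inl (i, ⟨χ, h⟩), rfl⟩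
      left_inv := by
        rintro ⟨⟨i, r⟩ | c, he⟩
        · simp only [Sum.elim_inl]
          refine Subtype.ext ?_
          have : r = ⟨χ, h⟩ := Subtype.ext he
          exact congrArg (fun r' => (Sum.inl (i, r') : BIdx (RR A) (CC A))) this.symm
        · exact absurd h (by have : c.1 = χ := he; rw [← this]; exact c.2)
      right_inv := by
        intro i
        rfl }
  rw [Nat.card_congr E]
  simp

theorem card_nonreal [Fintype (RR A)] [Fintype (CC A)] (χ : A.Chr) (h : ¬ A.IsRealChr χ) :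
    Nat.card {e // chr A e = χ} = 1 := by
  have E : {e // chr A e = χ} ≃ Fin 1 :=
    { toFun := fun _ => 0
      invFun := fun i => ⟨Sum.inr ⟨χ, h⟩, rfl⟩
      left_inv := by
        rintro ⟨⟨i, r⟩ | c, he⟩
        · exact absurd (by have : r.1 = χ := he; rw [← this]; exact r.2) h
        · refine Subtype.ext ?_
          have : c = ⟨χ, h⟩ := Subtype.ext he
          exact congrArg (fun r' => (Sum.inr r' : BIdx (RR A) (CC A))) this.symm
      right_inv := by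
        intro i
        exact Subsingleton.elim _ _ }
  rw [Nat.card_congr E]
  simp

theorem exists_basis (hEig : Stmt_Eig) (hA : A.Hyp) [Fintype (RR A)] [Fintype (CC A)] :
    ∃ B : Module.Basis (BIdx (RR A) (CC A)) ℂ (Idx g → ℂ), ∀ e, B e ∈ A.eig (chr A e) := by
  classical
  have hint := (DirectSum.isInternal_submodule_iff_iSupIndep_and_iSup_eq_top A.eig).2 (hEig g A hA)
  have hcard : ∀ χ, Module.finrank ℂ (A.eig χ) = Fintype.card {e // chr A e = χ} := by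
    intro χ
    rw [← Nat.card_eq_fintype_card]
    by_cases h : A.IsRealChr χ
    · rw [hA.real_dim χ h, card_real A χ h]
    · rw [hA.nonreal_dim χ h, card_nonreal A χ h]
  let b : ∀ χ, Module.Basis {e // chr A e = χ} ℂ (A.eig χ) := fun χ =>
    (Module.finBasisOfFinrankEq ℂ (A.eig χ) (hcard χ)).reindex (Fintype.equivFin _).symm
  let B0 := hint.collectedBasis b
  refine ⟨B0.reindex (Equiv.sigmaFiberEquiv (chr A)), fun e => ?_⟩
  rw [Module.Basis.reindex_apply]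
  exact hint.collectedBasis_mem b ((Equiv.sigmaFiberEquiv (chr A)).symm e)

/-- Matrices of the basis. -/
theorem basis_matrix [Fintype (RR A)] [Fintype (CC A)] [DecidableEq (RR A)] [DecidableEq (CC A)]
    (B : Module.Basis (BIdx (RR A) (CC A)) ℂ (Idx g → ℂ)) :
    ∃ (S : Matrix (Idx g) (BIdx (RR A) (CC A)) ℂ) (S' : Matrix (BIdx (RR A) (CC A)) (Idx g) ℂ),
      S * S' = 1 ∧ S' * S = 1 ∧ (∀ e i, S i e = B e i) ∧ ∀ v, S' *ᵥ v = fun e => B.repr v e := by
  refine ⟨(Pi.basisFun ℂ (Idx g)).toMatrix B, B.toMatrix (Pi.basisFun ℂ (Idx g)),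
    Module.Basis.toMatrix_mul_toMatrix_flip _ _, Module.Basis.toMatrix_mul_toMatrix_flip _ _,
    fun e i => ?_, fun v => ?_⟩
  · rw [Module.Basis.toMatrix_apply, Pi.basisFun_repr]
  · have h := Module.Basis.toMatrix_mulVec_repr (Pi.basisFun ℂ (Idx g)) B v
    have h2 : (⇑((Pi.basisFun ℂ (Idx g)).repr v) : Idx g → ℂ) = v := by
      funext i
      simp
    rw [h2] at h
    exact h

theorem repr_eig [Fintype (RR A)] [Fintype (CC A)]
    (B : Module.Basis (BIdx (RR A) (CC A)) ℂ (Idx g → ℂ)) (hB : ∀ e, B e ∈ A.eig (chr A e))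
    (χ : A.Chr) (v : Idx g → ℂ) (hv : v ∈ A.eig χ) (e : BIdx (RR A) (CC A)) (he : chr A e ≠ χ) :
    B.repr v e = 0 := by
  classical
  obtain ⟨α, hα⟩ : ∃ α, chr A e α ≠ χ α := by
    by_contra hcon
    push Not at hcon
    exact he (AlgHom.ext hcon)
  have h1 : (AbVar.toC (α : Matrix (Idx g) (Idx g) ℚ)) *ᵥ v = χ α • v := hv α
  have h2 : B.repr ((AbVar.toC (α : Matrix (Idx g) (Idx g) ℚ)) *ᵥ v) e = chr A e α * B.repr v e := by
    conv_lhs => rw [← B.sum_repr v]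
    rw [Matrix.mulVec_sum, map_sum, Finsupp.finsetSum_apply]
    have h3 : ∀ x, B.repr ((AbVar.toC (α : Matrix (Idx g) (Idx g) ℚ)) *ᵥ (B.repr v x • B x)) e =
        if x = e then chr A e α * B.repr v e else 0 := by
      intro x
      have h4 : (AbVar.toC (α : Matrix (Idx g) (Idx g) ℚ)) *ᵥ (B x) = chr A x α • B x := hB x α
      rw [Matrix.mulVec_smul, h4, map_smul, map_smul, Module.Basis.repr_self, Finsupp.smul_apply,
        Finsupp.smul_apply, Finsupp.single_apply]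
      split_ifs with h
      · subst h
        simp only [smul_eq_mul]
        ring
      · simp
    rw [Finset.sum_congr rfl fun x _ => h3 x, Finset.sum_ite_eq' Finset.univ e]
    simp
  rw [h1, map_smul, Finsupp.smul_apply, smul_eq_mul] at h2
  have h3 : (chr A e α - χ α) * B.repr v e = 0 := by
    rw [sub_mul, h2]; ring
  exact (mul_eq_zero.1 h3).resolve_left (sub_ne_zero.2 hα)

/-- The data of an adapted basis. -/
structure AB [Fintype (RR A)] [Fintype (CC A)] [DecidableEq (RR A)] [DecidableEq (CC A)] where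
  B : Module.Basis (BIdx (RR A) (CC A)) ℂ (Idx g → ℂ)
  hB : ∀ e, B e ∈ A.eig (chr A e)
  S : Matrix (Idx g) (BIdx (RR A) (CC A)) ℂ
  S' : Matrix (BIdx (RR A) (CC A)) (Idx g) ℂ
  h1 : S * S' = 1
  h2 : S' * S = 1
  hS : ∀ e i, S i e = B e i
  hS' : ∀ v, S' *ᵥ v = fun e => B.repr v e

section

variable [Fintype (RR A)] [Fintype (CC A)] [DecidableEq (RR A)] [DecidableEq (CC A)]
variable {A}
variable (b : AB A)

theorem S_mulVec (u : BIdx (RR A) (CC A) → ℂ) : b.S *ᵥ u = ∑ e, u e • b.B e := by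
  funext i
  simp only [Matrix.mulVec, dotProduct, b.hS, Finset.sum_apply, Pi.smul_apply, smul_eq_mul]
  exact Finset.sum_congr rfl fun e _ => mul_comm _ _

theorem S'_B (e' : BIdx (RR A) (CC A)) : b.S' *ᵥ b.B e' = Pi.single e' 1 := by
  rw [b.hS']
  funext e
  rw [Module.Basis.repr_self, Finsupp.single_apply, Pi.single_apply]
  by_cases h : e = e'
  · simp [h]
  · simp [h, Ne.symm h]

theorem mulVec_B (N : Matrix (BIdx (RR A) (CC A)) (BIdx (RR A) (CC A)) ℂ) (e' : BIdx (RR A) (CC A)) :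
    (b.S * N * b.S') *ᵥ b.B e' = ∑ e, N e e' • b.B e := by
  rw [← Matrix.mulVec_mulVec, S'_B, ← Matrix.mulVec_mulVec, S_mulVec]
  refine Finset.sum_congr rfl fun e _ => ?_
  simp

/-- On a real eigenspace. -/
theorem mulVec_inl (x : RR A → Matrix (Fin 2) (Fin 2) ℂ) (y : CC A → ℂ) (j : Fin 2) (r : RR A) :
    (b.S * Bmat x y * b.S') *ᵥ b.B (Sum.inl (j, r)) = ∑ i, x r i j • b.B (Sum.inl (i, r)) := by
  rw [mulVec_B, Fintype.sum_sum_type]
  simp only [Bmat_rl, zero_smul, Finset.sum_const_zero, add_zero]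
  rw [Fintype.sum_prod_type]
  refine Finset.sum_congr rfl fun i _ => ?_
  simp only [Bmat_ll, ite_smul, zero_smul]
  rw [Finset.sum_ite_eq' Finset.univ r]
  simp

/-- On a nonreal eigenspace. -/
theorem mulVec_inr (x : RR A → Matrix (Fin 2) (Fin 2) ℂ) (y : CC A → ℂ) (c : CC A) :
    (b.S * Bmat x y * b.S') *ᵥ b.B (Sum.inr c) = y c • b.B (Sum.inr c) := by
  rw [mulVec_B, Fintype.sum_sum_type]
  simp only [Bmat_lr, zero_smul, Finset.sum_const_zero, zero_add, Bmat_rr, ite_smul]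
  rw [Finset.sum_ite_eq' Finset.univ c]
  simp

theorem mem_inl (r : RR A) (v : Idx g → ℂ) (hv : v ∈ A.eig r.1) :
    v = ∑ i, b.B.repr v (Sum.inl (i, r)) • b.B (Sum.inl (i, r)) := by
  conv_lhs => rw [← b.B.sum_repr v]
  rw [Fintype.sum_sum_type]
  have h1 : ∀ c : CC A, b.B.repr v (Sum.inr c) • b.B (Sum.inr c) = 0 := by
    intro c
    rw [repr_eig A b.B b.hB r.1 v hv, zero_smul]
    intro h
    exact c.2 (by have : c.1 = r.1 := h; rw [this]; exact r.2)
  rw [Finset.sum_congr rfl fun c _ => h1 c, Finset.sum_const_zero, add_zero, Fintype.sum_prod_type]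
  refine Finset.sum_congr rfl fun i _ => ?_
  rw [Finset.sum_eq_single r]
  · intro r' _ hr'
    rw [repr_eig A b.B b.hB r.1 v hv, zero_smul]
    intro h
    exact hr' (Subtype.ext h)
  · intro h
    exact absurd (Finset.mem_univ r) h

theorem mem_inr (c : CC A) (v : Idx g → ℂ) (hv : v ∈ A.eig c.1) :
    v = b.B.repr v (Sum.inr c) • b.B (Sum.inr c) := by
  conv_lhs => rw [← b.B.sum_repr v]
  rw [Fintype.sum_sum_type]
  have h1 : ∀ p : Fin 2 × RR A, b.B.repr v (Sum.inl p) • b.B (Sum.inl p) = 0 := by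
    intro p
    rw [repr_eig A b.B b.hB c.1 v hv, zero_smul]
    intro h
    exact c.2 (by have : p.2.1 = c.1 := h; rw [← this]; exact p.2.2)
  rw [Finset.sum_congr rfl fun c _ => h1 c, Finset.sum_const_zero, zero_add]
  rw [Finset.sum_eq_single c]
  · intro r' _ hr'
    rw [repr_eig A b.B b.hB c.1 v hv, zero_smul]
    intro h
    exact hr' (Subtype.ext h)
  · intro h
    exact absurd (Finset.mem_univ c) h

omit [Fintype (RR A)] [Fintype (CC A)] [DecidableEq (RR A)] [DecidableEq (CC A)] in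
/-- A matrix commuting with the endomorphisms preserves the eigenspaces. -/
theorem comm_eig (M : Matrix (Idx g) (Idx g) ℂ)
    (hM : ∀ α ∈ A.EndQ, M * AbVar.toC α = AbVar.toC α * M) (χ : A.Chr) (v : Idx g → ℂ)
    (hv : v ∈ A.eig χ) : M *ᵥ v ∈ A.eig χ := by
  intro α
  have h1 : (AbVar.toC (α : Matrix (Idx g) (Idx g) ℚ)) *ᵥ v = χ α • v := hv α
  rw [Matrix.mulVec_mulVec, ← hM α α.2, ← Matrix.mulVec_mulVec, h1, Matrix.mulVec_smul]

theorem entry (M : Matrix (Idx g) (Idx g) ℂ) (e e' : BIdx (RR A) (CC A)) :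
    (b.S' * M * b.S) e e' = b.B.repr (M *ᵥ b.B e') e := by
  have h : (b.S' * M * b.S) e e' = ((b.S' * M * b.S) *ᵥ (Pi.single e' 1)) e := by
    simp
  rw [h, ← Matrix.mulVec_mulVec, S_mulVec]
  have h2 : ∑ e : BIdx (RR A) (CC A), (Pi.single e' 1 : BIdx (RR A) (CC A) → ℂ) e • b.B e = b.B e' := by
    rw [Finset.sum_eq_single e']
    · simp
    · intro e _ he
      simp [he]
    · intro h
      exact absurd (Finset.mem_univ e') h
  rw [h2, ← Matrix.mulVec_mulVec, b.hS']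

theorem entry_zero (M : Matrix (Idx g) (Idx g) ℂ)
    (hM : ∀ α ∈ A.EndQ, M * AbVar.toC α = AbVar.toC α * M) (e e' : BIdx (RR A) (CC A))
    (h : chr A e ≠ chr A e') : (b.S' * M * b.S) e e' = 0 := by
  rw [entry]
  exact repr_eig A b.B b.hB (chr A e') _ (comm_eig M hM _ _ (b.hB e')) e h

theorem exists_blocks (M : Matrix (Idx g) (Idx g) ℂ)
    (hM : ∀ α ∈ A.EndQ, M * AbVar.toC α = AbVar.toC α * M) :
    ∃ (x : RR A → Matrix (Fin 2) (Fin 2) ℂ) (y : CC A → ℂ), b.S' * M * b.S = Bmat x y := by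
  refine ⟨_, _, Bmat_of (b.S' * M * b.S) ?_ ?_ ?_ ?_⟩
  · intro i j r r' h
    exact entry_zero b M hM _ _ fun h' => h (Subtype.ext h')
  · intro p c
    refine entry_zero b M hM _ _ fun h' => c.2 ?_
    have : p.2.1 = c.1 := h'
    rw [← this]
    exact p.2.2
  · intro p c
    refine entry_zero b M hM _ _ fun h' => c.2 ?_
    have : c.1 = p.2.1 := h'
    rw [this]
    exact p.2.2
  · intro c c' h
    exact entry_zero b M hM _ _ fun h' => h (Subtype.ext h')

theorem exists_gamma (p : GL (Idx g) ℂ × ℂˣ)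
    (hM : ∀ α ∈ A.EndQ, p.1.val * AbVar.toC α = AbVar.toC α * p.1.val) :
    ∃ γ : BGrp (RR A) (CC A), psi b.S b.S' b.h1 b.h2 γ = p := by
  have hM' : ∀ α ∈ A.EndQ, (p.1⁻¹).val * AbVar.toC α = AbVar.toC α * (p.1⁻¹).val := by
    intro α hα
    have h := hM α hα
    have h1 : (p.1⁻¹).val * (p.1.val * AbVar.toC α) * (p.1⁻¹).val =
        (p.1⁻¹).val * (AbVar.toC α * p.1.val) * (p.1⁻¹).val := by rw [h]
    have h2 : (p.1⁻¹).val * p.1.val = 1 := by
      rw [← Units.val_mul, inv_mul_cancel]; rfl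
    have h3 : p.1.val * (p.1⁻¹).val = 1 := by
      rw [← Units.val_mul, mul_inv_cancel]; rfl
    rw [← Matrix.mul_assoc, h2, Matrix.one_mul] at h1
    rw [Matrix.mul_assoc, Matrix.mul_assoc, h3, Matrix.mul_one] at h1
    exact h1.symm
  obtain ⟨x, y, hxy⟩ := exists_blocks b p.1.val hM
  obtain ⟨x', y', hxy'⟩ := exists_blocks b (p.1⁻¹).val hM'
  have hm : ∀ M N : Matrix (Idx g) (Idx g) ℂ, M * N = 1 →
      (b.S' * M * b.S) * (b.S' * N * b.S) = 1 := by
    intro M N h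
    have : (b.S' * M * b.S) * (b.S' * N * b.S) = b.S' * (M * (b.S * b.S') * N) * b.S := by
      simp only [Matrix.mul_assoc]
    rw [this, b.h1, Matrix.mul_one, h, Matrix.mul_one, b.h2]
  have e1 := hm p.1.val (p.1⁻¹).val (by rw [← Units.val_mul, mul_inv_cancel]; rfl)
  have e2 := hm (p.1⁻¹).val p.1.val (by rw [← Units.val_mul, inv_mul_cancel]; rfl)
  rw [hxy, hxy', Bmat_mul] at e1 e2
  have key : ∀ (z : RR A → Matrix (Fin 2) (Fin 2) ℂ) (w : CC A → ℂ), Bmat z w = 1 →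
      (∀ r, z r = 1) ∧ ∀ c, w c = 1 := by
    intro z w h
    constructor
    · intro r
      ext i j
      have := congrFun (congrFun h (Sum.inl (i, r))) (Sum.inl (j, r))
      rw [Bmat_ll, if_pos rfl] at this
      rw [this, Matrix.one_apply, Matrix.one_apply]
      by_cases hij : i = j
      · simp [hij]
      · simp [hij]
    · intro c
      have := congrFun (congrFun h (Sum.inr c)) (Sum.inr c)
      rw [Bmat_rr, if_pos rfl] at this
      rw [this, Matrix.one_apply, if_pos rfl]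
  obtain ⟨k1, k1'⟩ := key _ _ e1
  obtain ⟨k2, k2'⟩ := key _ _ e2
  refine ⟨(fun r => ⟨x r, x' r, k1 r, k2 r⟩, fun c => ⟨y c, y' c, k1' c, k2' c⟩, p.2), ?_⟩
  refine Prod.ext (Units.ext ?_) rfl
  rw [psi_val]
  have : bm ((fun r => ⟨x r, x' r, k1 r, k2 r⟩, fun c => ⟨y c, y' c, k1' c, k2' c⟩, p.2) :
      BGrp (RR A) (CC A)) = Bmat x y := rfl
  rw [this, ← hxy]
  have : b.S * (b.S' * p.1.val * b.S) * b.S' = (b.S * b.S') * p.1.val * (b.S * b.S') := by
    simp only [Matrix.mul_assoc]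
  rw [this, b.h1, Matrix.one_mul, Matrix.mul_one]

end

theorem pair_zero (hPos : Stmt_Pos) (hA : A.Hyp) (χ ψ : A.Chr) (h : χ ≠ A.conjChr ψ)
    (v w : Idx g → ℂ) (hv : v ∈ A.eig χ) (hw : w ∈ A.eig ψ) : v ⬝ᵥ A.riem *ᵥ w = 0 := by
  obtain ⟨α, hα⟩ : ∃ α, χ α ≠ A.conjChr ψ α := by
    by_contra hcon
    push Not at hcon
    exact h (AlgHom.ext hcon)
  obtain ⟨p1, p2, p3⟩ := hPos g A hA.comm
  obtain ⟨β, hβ, hR⟩ := p1 α.1 α.2
  have h1 : (AbVar.toC (α : Matrix (Idx g) (Idx g) ℚ)) *ᵥ v = χ α • v := hv α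
  have h2 : (AbVar.toC β) *ᵥ w = ψ ⟨β, hβ⟩ • w := hw ⟨β, hβ⟩
  have h3 : ψ ⟨β, hβ⟩ = (starRingEnd ℂ) (ψ α) := p3 α ⟨β, hβ⟩ ψ hR
  have h4 : ((AbVar.toC (α : Matrix (Idx g) (Idx g) ℚ)) *ᵥ v) ⬝ᵥ A.riem *ᵥ w =
      v ⬝ᵥ A.riem *ᵥ ((AbVar.toC β) *ᵥ w) := by
    rw [Matrix.mulVec_mulVec, ← hR, ← Matrix.mulVec_mulVec, Matrix.dotProduct_mulVec v,
      Matrix.vecMul_transpose]
  rw [h1, h2, Matrix.mulVec_smul, smul_dotProduct, dotProduct_smul, h3, smul_eq_mul,
    smul_eq_mul] at h4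
  have h5 : (χ α - A.conjChr ψ α) * (v ⬝ᵥ A.riem *ᵥ w) = 0 := by
    rw [sub_mul, h4, conj_apply]; ring
  exact (mul_eq_zero.1 h5).resolve_left (sub_ne_zero.2 hα)

section

variable {A}
variable [Fintype (RR A)] [Fintype (CC A)] [DecidableEq (RR A)] [DecidableEq (CC A)]
variable (b : AB A)

theorem nondeg (hLeg : Stmt_Leg) (w : Idx g → ℂ) (hw : w ≠ 0) :
    ∃ e, b.B e ⬝ᵥ A.riem *ᵥ w ≠ 0 := by
  by_contra hcon
  push Not at hcon
  obtain ⟨-, -, hdet, -⟩ := hLeg g A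
  have h1 : ∀ v, v ⬝ᵥ A.riem *ᵥ w = 0 := by
    intro v
    rw [← b.B.sum_repr v, sum_dotProduct]
    refine Finset.sum_eq_zero fun e _ => ?_
    rw [smul_dotProduct, hcon e, smul_zero]
  have h2 : A.riem *ᵥ w = 0 := by
    funext i
    have := h1 (Pi.single i 1)
    rwa [single_one_dotProduct] at this
  apply hw
  have h3 : A.riem⁻¹ *ᵥ (A.riem *ᵥ w) = 0 := by rw [h2, Matrix.mulVec_zero]
  rwa [Matrix.mulVec_mulVec, Matrix.nonsing_inv_mul _ hdet, Matrix.one_mulVec] at h3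

omit [Fintype (RR A)] [Fintype (CC A)] [DecidableEq (RR A)] [DecidableEq (CC A)] in
theorem sim_form (x : Matrix (Idx g) (Idx g) ℂ) (ν : ℂ)
    (hx : xᵀ * A.riem * x = ν • A.riem) (v w : Idx g → ℂ) :
    (x *ᵥ v) ⬝ᵥ A.riem *ᵥ (x *ᵥ w) = ν * (v ⬝ᵥ A.riem *ᵥ w) := by
  have h : v ⬝ᵥ (xᵀ * A.riem * x) *ᵥ w = ν * (v ⬝ᵥ A.riem *ᵥ w) := by
    rw [hx, Matrix.smul_mulVec, dotProduct_smul, smul_eq_mul]
  rw [← h, ← Matrix.mulVec_mulVec, ← Matrix.mulVec_mulVec, Matrix.dotProduct_mulVec v,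
    Matrix.vecMul_transpose]

omit [Fintype (RR A)] [Fintype (CC A)] [DecidableEq (RR A)] [DecidableEq (CC A)] in
theorem riem_self (hLeg : Stmt_Leg) (v : Idx g → ℂ) : v ⬝ᵥ A.riem *ᵥ v = 0 := by
  obtain ⟨-, -, -, halt⟩ := hLeg g A
  have h : v ⬝ᵥ A.riem *ᵥ v = - (v ⬝ᵥ A.riem *ᵥ v) := by
    conv_lhs => rw [dotProduct_comm, ← Matrix.vecMul_transpose, ← Matrix.dotProduct_mulVec, halt,
      Matrix.neg_mulVec, dotProduct_neg]
  have h2 : (2 : ℂ) * (v ⬝ᵥ A.riem *ᵥ v) = 0 := by linear_combination h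
  exact (mul_eq_zero.1 h2).resolve_left two_ne_zero

omit [Fintype (RR A)] [Fintype (CC A)] [DecidableEq (RR A)] [DecidableEq (CC A)] in
theorem riem_swap (hLeg : Stmt_Leg) (v w : Idx g → ℂ) :
    w ⬝ᵥ A.riem *ᵥ v = - (v ⬝ᵥ A.riem *ᵥ w) := by
  obtain ⟨-, -, -, halt⟩ := hLeg g A
  conv_lhs => rw [dotProduct_comm, ← Matrix.vecMul_transpose, ← Matrix.dotProduct_mulVec, halt,
      Matrix.neg_mulVec, dotProduct_neg]

theorem bsim (hPos : Stmt_Pos) (hLeg : Stmt_Leg) (hA : A.Hyp) (γ : BGrp (RR A) (CC A))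
    (hs : (psi b.S b.S' b.h1 b.h2 γ).1.valᵀ * A.riem * (psi b.S b.S' b.h1 b.h2 γ).1.val =
      (γ.2.2).val • A.riem) : BSim (cj A) γ := by
  have hval : (psi b.S b.S' b.h1 b.h2 γ).1.val = b.S * Bmat (fun r => (γ.1 r).val)
    (fun i => (γ.2.1 i).val) * b.S' := rfl
  set x := (psi b.S b.S' b.h1 b.h2 γ).1.val with hx
  constructor
  · intro r
    obtain ⟨e, he⟩ := nondeg b hLeg (b.B (Sum.inl (1, r))) (b.B.ne_zero _)
    have h01 : b.B (Sum.inl (0, r)) ⬝ᵥ A.riem *ᵥ (b.B (Sum.inl (1, r))) ≠ 0 := by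
      have hc : chr A e = r.1 := by
        by_contra hcon
        apply he
        refine pair_zero A hPos hA (chr A e) r.1 ?_ _ _ (b.hB e) (b.hB (Sum.inl (1, r)))
        rwa [(real_iff A r.1).1 r.2]
      rcases e with ⟨i, r'⟩ | c
      · have hr : r' = r := Subtype.ext hc
        rw [hr] at he
        by_cases hi : i = 1
        · rw [hi] at he
          exact absurd (riem_self hLeg _) he
        · have hi0 : i = 0 := by omega
          rwa [hi0] at he
      · exact absurd (by have : c.1 = r.1 := hc; rw [this]; exact r.2) c.2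
    have h := sim_form x (γ.2.2).val hs (b.B (Sum.inl (0, r))) (b.B (Sum.inl (1, r)))
    rw [hval, mulVec_inl, mulVec_inl, Fin.sum_univ_two, Fin.sum_univ_two] at h
    simp only [Matrix.mulVec_add, Matrix.mulVec_smul, add_dotProduct, dotProduct_add,
      smul_dotProduct, dotProduct_smul, smul_eq_mul, riem_self hLeg,
      riem_swap hLeg (b.B (Sum.inl (0, r))) (b.B (Sum.inl (1, r)))] at h
    have h2 : ((γ.1 r).val.det - (γ.2.2).val) *
        (b.B (Sum.inl (0, r)) ⬝ᵥ A.riem *ᵥ (b.B (Sum.inl (1, r)))) = 0 := by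
      rw [Matrix.det_fin_two]
      linear_combination h
    exact sub_eq_zero.1 ((mul_eq_zero.1 h2).resolve_right h01)
  · intro c
    obtain ⟨e, he⟩ := nondeg b hLeg (b.B (Sum.inr (cj A c))) (b.B.ne_zero _)
    have h01 : b.B (Sum.inr c) ⬝ᵥ A.riem *ᵥ (b.B (Sum.inr (cj A c))) ≠ 0 := by
      have hc : chr A e = c.1 := by
        by_contra hcon
        apply he
        refine pair_zero A hPos hA (chr A e) (cj A c).1 ?_ _ _ (b.hB e) (b.hB (Sum.inr (cj A c)))
        have : A.conjChr (cj A c).1 = c.1 := conj_conj A c.1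
        rwa [this]
      rcases e with ⟨i, r'⟩ | c'
      · exact absurd (by have : r'.1 = c.1 := hc; rw [← this]; exact r'.2) c.2
      · have hr : c' = c := Subtype.ext hc
        rwa [hr] at he
    have h := sim_form x (γ.2.2).val hs (b.B (Sum.inr c)) (b.B (Sum.inr (cj A c)))
    rw [hval, mulVec_inr, mulVec_inr] at h
    simp only [Matrix.mulVec_smul, smul_dotProduct, dotProduct_smul, smul_eq_mul] at h
    have h2 : ((γ.2.1 c).val * (γ.2.1 (cj A c)).val - (γ.2.2).val) *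
        (b.B (Sum.inr c) ⬝ᵥ A.riem *ᵥ (b.B (Sum.inr (cj A c)))) = 0 := by
      linear_combination h
    refine Units.ext ?_
    rw [Units.val_mul]
    exact sub_eq_zero.1 ((mul_eq_zero.1 h2).resolve_right h01)

end

section

variable {A}
variable [Fintype (RR A)] [Fintype (CC A)] [DecidableEq (RR A)] [DecidableEq (CC A)]
variable (b : AB A)

/-- The group of the block theorem. -/
def Gm : Subgroup (BGrp (RR A) (CC A)) := (Gam A).comap (psi b.S b.S' b.h1 b.h2)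

theorem mem_Gm (γ : BGrp (RR A) (CC A)) : γ ∈ Gm b ↔ psi b.S b.S' b.h1 b.h2 γ ∈ Gam A := Iff.rfl

theorem lift (hGb1 : Stmt_Gb1) (p : GL (Idx g) ℂ × ℂˣ) (hp : p ∈ Gam A) :
    ∃ γ ∈ Gm b, psi b.S b.S' b.h1 b.h2 γ = p := by
  obtain ⟨γ, hγ⟩ := exists_gamma b p (hGb1 g A p hp).1
  exact ⟨γ, by rw [mem_Gm, hγ]; exact hp, hγ⟩

/-- vectors in a real eigenspace -/
def vr (r : RR A) (v : Fin 2 → ℂ) : Idx g → ℂ := ∑ i, v i • b.B (Sum.inl (i, r))

theorem vr_mem (r : RR A) (v : Fin 2 → ℂ) : vr b r v ∈ A.eig r.1 :=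
  Submodule.sum_mem _ fun i _ => Submodule.smul_mem _ _ (b.hB (Sum.inl (i, r)))

theorem vr_repr (r : RR A) (v : Fin 2 → ℂ) (e : BIdx (RR A) (CC A)) :
    b.B.repr (vr b r v) e = ∑ i, v i * (if (Sum.inl (i, r) : BIdx (RR A) (CC A)) = e then 1 else 0) := by
  unfold vr
  rw [map_sum, Finsupp.finsetSum_apply]
  refine Finset.sum_congr rfl fun i _ => ?_
  rw [map_smul, Module.Basis.repr_self, Finsupp.smul_apply, Finsupp.single_apply, smul_eq_mul]

theorem vr_coord (r : RR A) (v : Fin 2 → ℂ) (i : Fin 2) :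
    b.B.repr (vr b r v) (Sum.inl (i, r)) = v i := by
  rw [vr_repr, Finset.sum_eq_single i]
  · simp
  · intro j _ hj
    have : ¬ ((Sum.inl (j, r) : BIdx (RR A) (CC A)) = Sum.inl (i, r)) := by
      intro h
      exact hj (congrArg Prod.fst (Sum.inl.inj h))
    rw [if_neg this, mul_zero]
  · intro h
    exact absurd (Finset.mem_univ i) h

theorem vr_coord_ne (r r' : RR A) (h : r ≠ r') (v : Fin 2 → ℂ) (i : Fin 2) :
    b.B.repr (vr b r v) (Sum.inl (i, r')) = 0 := by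
  rw [vr_repr]
  refine Finset.sum_eq_zero fun j _ => ?_
  have : ¬ ((Sum.inl (j, r) : BIdx (RR A) (CC A)) = Sum.inl (i, r')) := by
    intro h'
    exact h (congrArg Prod.snd (Sum.inl.inj h'))
  rw [if_neg this, mul_zero]

theorem vr_inj (r : RR A) (v w : Fin 2 → ℂ) (h : vr b r v = vr b r w) : v = w := by
  funext i
  rw [← vr_coord b r v i, h, vr_coord]

theorem vr_smul (r : RR A) (a : ℂ) (v : Fin 2 → ℂ) : vr b r (a • v) = a • vr b r v := by
  unfold vr
  rw [Finset.smul_sum]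
  exact Finset.sum_congr rfl fun i _ => by rw [Pi.smul_apply, smul_assoc]

theorem vr_eq (r : RR A) (v : Idx g → ℂ) (hv : v ∈ A.eig r.1) :
    v = vr b r (fun i => b.B.repr v (Sum.inl (i, r))) := mem_inl b r v hv

theorem act_vr (x : RR A → Matrix (Fin 2) (Fin 2) ℂ) (y : CC A → ℂ) (r : RR A) (v : Fin 2 → ℂ) :
    (b.S * Bmat x y * b.S') *ᵥ vr b r v = vr b r (x r *ᵥ v) := by
  unfold vr
  rw [Matrix.mulVec_sum]
  simp only [Matrix.mulVec_smul, mulVec_inl, Finset.smul_sum]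
  rw [Finset.sum_comm]
  refine Finset.sum_congr rfl fun i _ => ?_
  rw [Matrix.mulVec, dotProduct, Finset.sum_smul]
  refine Finset.sum_congr rfl fun j _ => ?_
  rw [smul_smul, mul_comm]

theorem psi_vr (γ : BGrp (RR A) (CC A)) (r : RR A) (v : Fin 2 → ℂ) :
    (psi b.S b.S' b.h1 b.h2 γ).1.val *ᵥ vr b r v = vr b r ((γ.1 r).val *ᵥ v) :=
  act_vr b _ _ r v

theorem psi_inr (γ : BGrp (RR A) (CC A)) (c : CC A) (v : Idx g → ℂ) (hv : v ∈ A.eig c.1) :
    (psi b.S b.S' b.h1 b.h2 γ).1.val *ᵥ v = (γ.2.1 c).val • v := by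
  rw [mem_inr b c v hv, Matrix.mulVec_smul, psi_val]
  unfold bm
  rw [mulVec_inr, smul_comm]

omit [Fintype (RR A)] [Fintype (CC A)] [DecidableEq (RR A)] [DecidableEq (CC A)] in
/-- Combinations of endomorphisms act by scalars on the eigenspaces. -/
theorem span_scalar (Y : Matrix (Idx g) (Idx g) ℂ)
    (hY : Y ∈ Submodule.span ℂ {Y | ∃ α ∈ A.EndQ, Y = AbVar.toC α}) (χ : A.Chr) :
    ∃ c : ℂ, ∀ v ∈ A.eig χ, Y *ᵥ v = c • v := by
  induction hY using Submodule.span_induction with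
  | mem x h =>
    obtain ⟨α, hα, rfl⟩ := h
    exact ⟨χ ⟨α, hα⟩, fun v hv => hv ⟨α, hα⟩⟩
  | zero => exact ⟨0, fun v _ => by simp⟩
  | add x y _ _ hx hy =>
    obtain ⟨c, hc⟩ := hx
    obtain ⟨d, hd⟩ := hy
    exact ⟨c + d, fun v hv => by rw [Matrix.add_mulVec, hc v hv, hd v hv, add_smul]⟩
  | smul a x _ hx =>
    obtain ⟨c, hc⟩ := hx
    exact ⟨a * c, fun v hv => by rw [Matrix.smul_mulVec, hc v hv, smul_smul]⟩

theorem h1_proof (hGb1 : Stmt_Gb1) (hIrr : Stmt_Irr) (hA : A.Hyp) (r : RR A) (v : Fin 2 → ℂ)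
    (hv : v ≠ 0) : ∃ γ ∈ Gm b, ∀ a : ℂ, (γ.1 r).val *ᵥ v ≠ a • v := by
  have hv' : vr b r v ≠ 0 := by
    intro h
    apply hv
    refine vr_inj b r v 0 ?_
    rw [h]
    simp [vr]
  obtain ⟨p, hp, hp'⟩ := hIrr g A hA r.1 r.2 (vr b r v) (vr_mem b r v) hv'
  obtain ⟨γ, hγ, rfl⟩ := lift b hGb1 p hp
  refine ⟨γ, hγ, fun a ha => hp' a ?_⟩
  rw [psi_vr, ha, vr_smul]

theorem conj_orbit (γ : BGrp (RR A) (CC A)) (N : Matrix (BIdx (RR A) (CC A)) (BIdx (RR A) (CC A)) ℂ) :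
    (psi b.S b.S' b.h1 b.h2 γ).1.val * (b.S * N * b.S') *
      ((psi b.S b.S' b.h1 b.h2 γ).1⁻¹).val = b.S * (bm γ * N * bm γ⁻¹) * b.S' := by
  have h1 : ((psi b.S b.S' b.h1 b.h2 γ).1⁻¹).val = b.S * bm γ⁻¹ * b.S' := rfl
  rw [h1, psi_val]
  have : b.S * bm γ * b.S' * (b.S * N * b.S') * (b.S * bm γ⁻¹ * b.S') =
      b.S * (bm γ * (b.S' * b.S) * N * (b.S' * b.S) * bm γ⁻¹) * b.S' := by
    simp only [Matrix.mul_assoc]
  rw [this, b.h2, Matrix.mul_one, Matrix.mul_one]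

theorem h2_proof (hGb1 : Stmt_Gb1) (hFin : Stmt_Fin) (r : RR A) (X : Matrix (Fin 2) (Fin 2) ℂ)
    (hX : X.trace = 0) (hX0 : X ≠ 0) :
    ¬ {Y | ∃ γ ∈ Gm b, Y = (γ.1 r).val * X * ((γ.1 r)⁻¹).val}.Finite := by
  intro hfin
  set N : Matrix (Fin 2) (Fin 2) ℂ → Matrix (BIdx (RR A) (CC A)) (BIdx (RR A) (CC A)) ℂ :=
    fun Y => Bmat (Pi.single r Y) 0 with hN
  have h1 : {Y | ∃ p ∈ Gam A, Y = p.1.val * (b.S * N X * b.S') * (p.1⁻¹).val}.Finite := by
    refine (hfin.image fun Y => b.S * N Y * b.S').subset ?_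
    rintro Y ⟨p, hp, rfl⟩
    obtain ⟨γ, hγ, rfl⟩ := lift b hGb1 p hp
    refine ⟨_, ⟨γ, hγ, rfl⟩, ?_⟩
    have hkey : bm γ * N X * bm γ⁻¹ = N ((γ.1 r).val * X * ((γ.1 r)⁻¹).val) := by
      simp only [hN]
      unfold bm
      rw [Bmat_mul, Bmat_mul]
      have e1 : (fun s => (γ.1 s).val * (Pi.single r X : RR A → Matrix (Fin 2) (Fin 2) ℂ) s *
          (γ⁻¹.1 s).val) = Pi.single r ((γ.1 r).val * X * ((γ.1 r)⁻¹).val) := by
        funext s
        by_cases h : s = r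
        · subst h
          rw [Pi.single_eq_same, Pi.single_eq_same]
          rfl
        · rw [Pi.single_eq_of_ne h, Pi.single_eq_of_ne h, Matrix.mul_zero, Matrix.zero_mul]
      have e2 : (fun c => (γ.2.1 c).val * (0 : CC A → ℂ) c * (γ⁻¹.2.1 c).val) = 0 := by
        funext c
        rw [Pi.zero_apply, mul_zero, zero_mul]
      rw [e1, e2]
    rw [conj_orbit, hkey]
  have h2 := hFin g A _ h1
  obtain ⟨c, hc⟩ := span_scalar _ h2 r.1
  have h3 : ∀ v : Fin 2 → ℂ, X *ᵥ v = c • v := by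
    intro v
    have := hc (vr b r v) (vr_mem b r v)
    rw [act_vr, Pi.single_eq_same, ← vr_smul] at this
    exact vr_inj b r _ _ this
  have h4 : X = c • 1 := by
    ext i j
    have := congrFun (h3 (Pi.single j 1)) i
    rw [Matrix.mulVec_single_one] at this
    simpa [Matrix.one_apply, Pi.single_apply] using this
  have h5 : c = 0 := by
    rw [h4, Matrix.trace_smul, Matrix.trace_one] at hX
    simpa using hX
  exact hX0 (by rw [h4, h5, zero_smul])

/-- Matrices with one off-diagonal block. -/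
def Eb (r r' : RR A) (P : Matrix (Fin 2) (Fin 2) ℂ) :
    Matrix (BIdx (RR A) (CC A)) (BIdx (RR A) (CC A)) ℂ :=
  Matrix.fromBlocks (Matrix.of fun p q => if p.2 = r' ∧ q.2 = r then P p.1 q.1 else 0) 0 0 0

theorem Eb_conj (γ : BGrp (RR A) (CC A)) (r r' : RR A) (P : Matrix (Fin 2) (Fin 2) ℂ) :
    bm γ * Eb r r' P * bm γ⁻¹ = Eb r r' ((γ.1 r').val * P * ((γ.1 r)⁻¹).val) := by
  unfold bm Eb Bmat
  rw [Matrix.fromBlocks_multiply, Matrix.fromBlocks_multiply]
  simp only [Matrix.mul_zero, Matrix.zero_mul, add_zero]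
  congr 1
  ext p q
  rw [Matrix.mul_apply, Fintype.sum_prod_type]
  simp only [Matrix.mul_apply, Matrix.blockDiagonal_apply, Matrix.of_apply, Fintype.sum_prod_type]
  by_cases hp : p.2 = r'
  · by_cases hq : q.2 = r
    · simp only [hp, hq, and_true]
      simp [Finset.sum_ite_eq']
    · simp [hp, hq]
  · have h0 : ∀ a : ℂ,
        (∑ x : RR A, if x = r' ∧ q.2 = r then if p.2 = x then a else 0 else 0) = 0 := by
      intro a
      refine Finset.sum_eq_zero fun x _ => ?_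
      split_ifs with h1 h2
      · exact absurd (h2.trans h1.1) hp
      all_goals rfl
    simp [hp, h0]

theorem Eb_vr (r r' : RR A) (P : Matrix (Fin 2) (Fin 2) ℂ) (v : Fin 2 → ℂ) :
    (b.S * Eb r r' P * b.S') *ᵥ vr b r v = vr b r' (P *ᵥ v) := by
  unfold vr
  rw [Matrix.mulVec_sum]
  have h : ∀ j, (b.S * Eb r r' P * b.S') *ᵥ b.B (Sum.inl (j, r)) =
      ∑ i, P i j • b.B (Sum.inl (i, r')) := by
    intro j
    rw [mulVec_B, Fintype.sum_sum_type]
    have e1 : ∀ c : CC A, (Eb r r' P) (Sum.inr c) (Sum.inl (j, r)) = 0 := fun c => rfl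
    have e2 : ∀ p : Fin 2 × RR A, (Eb r r' P) (Sum.inl p) (Sum.inl (j, r)) =
        if p.2 = r' then P p.1 j else 0 := by
      intro p
      change (if p.2 = r' ∧ r = r then P p.1 j else 0) = _
      simp
    simp only [e1, e2, zero_smul, Finset.sum_const_zero, add_zero]
    rw [Fintype.sum_prod_type]
    refine Finset.sum_congr rfl fun i _ => ?_
    simp only [ite_smul, zero_smul]
    rw [Finset.sum_ite_eq' Finset.univ r']
    simp
  simp only [Matrix.mulVec_smul, h, Finset.smul_sum]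
  rw [Finset.sum_comm]
  refine Finset.sum_congr rfl fun i _ => ?_
  rw [Matrix.mulVec, dotProduct, Finset.sum_smul]
  refine Finset.sum_congr rfl fun j _ => ?_
  rw [smul_smul, mul_comm]

theorem h3_proof (hGb1 : Stmt_Gb1) (hFin : Stmt_Fin) (r r' : RR A) (hr : r ≠ r')
    (P : Matrix (Fin 2) (Fin 2) ℂ) (hP : P ≠ 0) :
    ¬ {Y | ∃ γ ∈ Gm b, Y = (γ.1 r').val * P * ((γ.1 r)⁻¹).val}.Finite := by
  intro hfin
  have h1 : {Y | ∃ p ∈ Gam A, Y = p.1.val * (b.S * Eb r r' P * b.S') * (p.1⁻¹).val}.Finite := by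
    refine (hfin.image fun Y => b.S * Eb r r' Y * b.S').subset ?_
    rintro Y ⟨p, hp, rfl⟩
    obtain ⟨γ, hγ, rfl⟩ := lift b hGb1 p hp
    refine ⟨_, ⟨γ, hγ, rfl⟩, ?_⟩
    rw [conj_orbit, Eb_conj]
  have h2 := hFin g A _ h1
  obtain ⟨c, hc⟩ := span_scalar _ h2 r.1
  have h3 : ∀ v : Fin 2 → ℂ, P *ᵥ v = 0 := by
    intro v
    have := hc (vr b r v) (vr_mem b r v)
    rw [Eb_vr, ← vr_smul] at this
    funext i
    have h4 := congrArg (fun w => b.B.repr w (Sum.inl (i, r'))) this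
    simp only [vr_coord, vr_coord_ne b r r' hr] at h4
    exact h4
  apply hP
  ext i j
  have := congrFun (h3 (Pi.single j 1)) i
  rw [Matrix.mulVec_single_one] at this
  exact this

theorem h4_proof (hGb1 : Stmt_Gb1) (hTors : Stmt_Tors) (hA : A.Hyp) (r : RR A) :
    ∃ γ ∈ Gm b, ∀ n : ℕ, 1 ≤ n →
      ¬ ∃ a : ℂ, (γ.1 r).val ^ n = a • (1 : Matrix (Fin 2) (Fin 2) ℂ) := by
  obtain ⟨p, hp, hp'⟩ := hTors g A hA r.1 r.2
  obtain ⟨γ, hγ, rfl⟩ := lift b hGb1 p hp
  refine ⟨γ, hγ, fun n hn => ?_⟩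
  rintro ⟨a, ha⟩
  refine hp' n hn ⟨a, fun v hv => ?_⟩
  have e1 : ∀ (m : ℕ) (w : Fin 2 → ℂ), (psi b.S b.S' b.h1 b.h2 γ).1.val ^ m *ᵥ vr b r w =
      vr b r ((γ.1 r).val ^ m *ᵥ w) := by
    intro m
    induction m with
    | zero => intro w; simp
    | succ m ih =>
      intro w
      rw [pow_succ, ← Matrix.mulVec_mulVec, psi_vr, ih, pow_succ, Matrix.mulVec_mulVec]
  rw [vr_eq b r v hv, e1, ha, Matrix.smul_mulVec, Matrix.one_mulVec, vr_smul]

theorem h5_proof' (hGb1 : Stmt_Gb1) (hH5 : Stmt_H5) (hA : A.Hyp) (n : CC A → ℤ) (m : ℤ)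
    (h : ∀ γ ∈ Gm b, ∃ N : ℕ, 1 ≤ N ∧ ((∏ i, γ.2.1 i ^ n i) * γ.2.2 ^ m) ^ N = 1) :
    (∀ i, n (cj A i) = n i) ∧ 2 * m + ∑ i, n i = 0 := by
  classical
  have hl : ∀ p : GL (Idx g) ℂ × ℂˣ, ∃ γ : BGrp (RR A) (CC A), p ∈ Gam A →
      γ ∈ Gm b ∧ psi b.S b.S' b.h1 b.h2 γ = p := by
    intro p
    by_cases hp : p ∈ Gam A
    · obtain ⟨γ, h1, h2⟩ := lift b hGb1 p hp
      exact ⟨γ, fun _ => ⟨h1, h2⟩⟩
    · exact ⟨1, fun h => absurd h hp⟩
  choose G hG using hl
  let Y : GL (Idx g) ℂ × ℂˣ → A.Chr → ℂˣ := fun p χ =>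
    if h : A.IsRealChr χ then 1 else (G p).2.1 ⟨χ, h⟩
  let n' : A.Chr → ℤ := fun χ => if h : A.IsRealChr χ then 0 else n ⟨χ, h⟩
  have hn' : ∀ c : CC A, n' c.1 = n c := fun c => dif_neg c.2
  have hY' : ∀ p (c : CC A), Y p c.1 = (G p).2.1 c := fun p c => dif_neg c.2
  have hYeig : ∀ p ∈ Gam A, ∀ χ : A.Chr, ¬ A.IsRealChr χ → ∀ v ∈ A.eig χ,
      p.1.val *ᵥ v = (Y p χ).val • v := by
    intro p hp χ hχ v hv
    have := psi_inr b (G p) ⟨χ, hχ⟩ v hv
    rw [(hG p hp).2] at this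
    rw [this]
    have : Y p χ = (G p).2.1 ⟨χ, hχ⟩ := dif_neg hχ
    rw [this]
  have hprod : ∀ p, ∏ᶠ χ, Y p χ ^ n' χ = ∏ i : CC A, (G p).2.1 i ^ n i := by
    intro p
    have h1 : ∏ᶠ χ, Y p χ ^ n' χ = ∏ᶠ c : CC A, Y p c.1 ^ n' c.1 := by
      rw [finprod_subtype_eq_finprod_cond (fun χ => ¬ A.IsRealChr χ) (f := fun χ => Y p χ ^ n' χ)]
      refine finprod_congr fun χ => ?_
      by_cases hχ : A.IsRealChr χ
      · have e1 : n' χ = 0 := dif_pos hχ
        rw [e1, _root_.zpow_zero]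
        simp
      · rw [finprod_eq_if]
        simp [hχ]
    rw [h1, finprod_eq_prod_of_fintype]
    refine Finset.prod_congr rfl fun c _ => ?_
    rw [hn', hY']
  have hsum : ∑ᶠ χ, n' χ = ∑ i : CC A, n i := by
    have h1 : ∑ᶠ χ, n' χ = ∑ᶠ c : CC A, n' c.1 := by
      rw [finsum_subtype_eq_finsum_cond (fun χ => ¬ A.IsRealChr χ) (f := fun χ => n' χ)]
      refine finsum_congr fun χ => ?_
      by_cases hχ : A.IsRealChr χ
      · have e1 : n' χ = 0 := dif_pos hχ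
        rw [e1]
        simp
      · rw [finsum_eq_if]
        simp [hχ]
    rw [h1, finsum_eq_sum_of_fintype]
    exact Finset.sum_congr rfl fun c _ => hn' c
  obtain ⟨r1, r2⟩ := hH5 g A hA Y hYeig n' m (fun χ hχ => dif_pos hχ) (by
    intro p hp
    obtain ⟨N, hN, hN'⟩ := h (G p) (hG p hp).1
    refine ⟨N, hN, ?_⟩
    rw [hprod]
    have : (G p).2.2 = p.2 := by
      have := congrArg Prod.snd (hG p hp).2
      exact this
    rw [← this]
    exact hN')
  refine ⟨fun i => ?_, ?_⟩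
  · have := r1 i.1
    rw [hn' i] at this
    rw [← this, ← hn' (cj A i)]
    rfl
  · rw [← hsum]
    exact r2

theorem bhyp (hGb1 : Stmt_Gb1) (hFin : Stmt_Fin) (hIrr : Stmt_Irr) (hTors : Stmt_Tors)
    (hH5 : Stmt_H5) (hPos : Stmt_Pos) (hLeg : Stmt_Leg) (hA : A.Hyp) : BHyp (cj A) (Gm b) where
  inv := fun i => Subtype.ext (conj_conj A i.1)
  free := fun i h => i.2 ((real_iff A i.1).2 (congrArg Subtype.val h))
  sim := fun γ hγ => bsim b hPos hLeg hA γ (hGb1 g A _ hγ).2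
  h1 := fun r v hv => h1_proof b hGb1 hIrr hA r v hv
  h2 := fun r X hX hX0 => h2_proof b hGb1 hFin r X hX hX0
  h3 := fun r r' hr P hP => h3_proof b hGb1 hFin r r' hr P hP
  h4 := fun r => h4_proof b hGb1 hTors hA r
  h5 := fun n m h => h5_proof' b hGb1 hH5 hA n m h

end

end AV

end MAINX

open MAINX in
theorem main_proof (hEig : Stmt_Eig) (hGb1 : Stmt_Gb1) (hGb2 : Stmt_Gb2) (hFin : Stmt_Fin)
    (hIrr : Stmt_Irr) (hTors : Stmt_Tors) (hH5 : Stmt_H5) (hPos : Stmt_Pos) (hLeg : Stmt_Leg)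
    (hGt : Stmt_Gt) (hRev : Stmt_Rev) : MainStatement := by
  classical
  intro g A hA x ν
  refine ⟨hRev g A x ν, ?_⟩
  rintro ⟨hc, hs⟩ t D hD
  have : Fintype (RR A) := Fintype.ofFinite _
  have : Fintype (CC A) := Fintype.ofFinite _
  obtain ⟨B, hB⟩ := exists_basis A hEig hA
  obtain ⟨S, S', h1, h2, hS, hS'⟩ := basis_matrix A B
  let b : AB A := ⟨B, hB, S, S', h1, h2, hS, hS'⟩
  obtain ⟨γ, hγ⟩ := exists_gamma b (x, ν) hc
  have hγ1 : (psi b.S b.S' b.h1 b.h2 γ).1 = x := congrArg Prod.fst hγ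
  have hγ2 : γ.2.2 = ν := congrArg Prod.snd hγ
  have hsim : BSim (cj A) γ := by
    refine bsim b hPos hLeg hA γ ?_
    rw [hγ1, hγ2]
    exact hs
  have key : ∀ δ : BGrp (RR A) (CC A), (TAct t (bm δ) δ.2.2.val).comp (TAct t b.S' 1) =
      (TAct t b.S' 1).comp (TAct t (psi b.S b.S' b.h1 b.h2 δ).1.val δ.2.2.val) := by
    intro δ
    rw [← TAct_comp, ← TAct_comp, mul_one, one_mul, psi_val]
    congr 1
    rw [← Matrix.mul_assoc, ← Matrix.mul_assoc, b.h2, Matrix.one_mul]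
  have hst : ∀ δ ∈ Gm b, (D.map (TAct t b.S' 1)).map (TAct t (bm δ) δ.2.2.val) ≤
      D.map (TAct t b.S' 1) := by
    intro δ hδ
    rw [← Submodule.map_comp, key, Submodule.map_comp]
    exact Submodule.map_mono (hGb2 g A t D hD _ hδ)
  have hfin := hGt (RR A) (CC A) (cj A) (Gm b) (bhyp b hGb1 hFin hIrr hTors hH5 hPos hLeg hA) t
    (D.map (TAct t b.S' 1)) hst γ hsim
  rw [← Submodule.map_comp, key, Submodule.map_comp, hγ1, hγ2] at hfin
  have hback : (TAct t b.S 1).comp (TAct t b.S' 1) = LinearMap.id := by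
    rw [← TAct_comp, b.h1, mul_one, TAct_one]
  have hle : D.map (TAct t x.val ν.val) ≤ D := by
    have := Submodule.map_mono (f := TAct t b.S 1) hfin
    have e : ∀ E : Submodule ℂ (TIdx t (Idx g) → ℂ),
        (E.map (TAct t b.S' 1)).map (TAct t b.S 1) = E := by
      intro E
      rw [← Submodule.map_comp, hback, Submodule.map_id]
    rw [e, e] at this
    exact this
  have hinj : Function.Injective (TAct t x.val ν.val) := by
    have : (TAct t (x⁻¹).val (ν⁻¹).val).comp (TAct t x.val ν.val) = LinearMap.id := by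
      rw [← TAct_comp, ← Units.val_mul, ← Units.val_mul, inv_mul_cancel, inv_mul_cancel,
        Units.val_one, Units.val_one, TAct_one]
    intro u v huv
    have h3 := congrArg (TAct t (x⁻¹).val (ν⁻¹).val) huv
    have h4 : ∀ w, TAct t (x⁻¹).val (ν⁻¹).val (TAct t x.val ν.val w) = w := by
      intro w
      exact congrArg (fun L : (TIdx t (Idx g) → ℂ) →ₗ[ℂ] (TIdx t (Idx g) → ℂ) => L w) this
    rw [h4, h4] at h3
    exact h3
  refine Submodule.eq_of_le_of_finrank_eq hle ?_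
  exact (LinearEquiv.finrank_eq (Submodule.equivMapOfInjective _ hinj D)).symm

end

end Pool.Agent.DRB
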