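import Pool.Agent.DRB.Stmts

/-!
# DRB, module PGL: bracket preserving maps of `sl₂` are conjugations
-/

set_option autoImplicit false

open Matrix

namespace Pool.Agent.DRB

namespace PGLX

abbrev M2 : Type := Matrix (Fin 2) (Fin 2) ℂ

theorem anticomm (X Y : M2) (hX : X.trace = 0) (hY : Y.trace = 0) :
    X * Y + Y * X = (X * Y).trace • (1 : M2) := by
  rw [Matrix.trace_fin_two] at hX hY
  have hX1 : X 1 1 = -X 0 0 := by linear_combination hX
  have hY1 : Y 1 1 = -Y 0 0 := by linear_combination hY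
  ext i j
  fin_cases i <;> fin_cases j <;>
    simp [Matrix.mul_apply, Fin.sum_univ_two, Matrix.trace_fin_two, hX1, hY1] <;> ring

/-- an eigenvector of the adjoint action for a nonzero eigenvalue has square zero -/
theorem sq_zero (H E : M2) (hE : E.trace = 0) (a : ℂ) (ha : a ≠ 0)
    (h : H * E - E * H = a • E) : E * E = 0 := by
  have h1 := anticomm E E hE hE
  have h2 : (E * E).trace = 0 := by
    have h3 : a * (E * E).trace = 0 := by
      have h4 : (H * E * E - E * H * E).trace = a * (E * E).trace := by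
        rw [← Matrix.sub_mul, h, Matrix.smul_mul, Matrix.trace_smul, smul_eq_mul]
      rw [← h4, Matrix.trace_sub, Matrix.mul_assoc, Matrix.mul_assoc,
        Matrix.trace_mul_comm E (H * E), Matrix.mul_assoc, sub_self]
    exact (mul_eq_zero.mp h3).resolve_left ha
  rw [h2, zero_smul] at h1
  have h5 : (2 : ℂ) • (E * E) = 0 := by rw [two_smul]; exact h1
  exact (smul_eq_zero.mp h5).resolve_left two_ne_zero

theorem mul_eq_self (H E : M2) (hH : H.trace = 0) (hE : E.trace = 0) (hE0 : E ≠ 0)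
    (h : H * E - E * H = (2 : ℂ) • E) : H * E = E := by
  have h0 := sq_zero H E hE 2 two_ne_zero h
  have h1 := anticomm H E hH hE
  have h2 : (2 : ℂ) • (H * E) = (2 : ℂ) • E + (H * E).trace • (1 : M2) := by
    rw [two_smul]
    calc H * E + H * E = (H * E - E * H) + (H * E + E * H) := by abel
      _ = _ := by rw [h, h1]
  have h3 : (H * E).trace • E = 0 := by
    have h4 := congrArg (fun Z => Z * E) h2
    simp only [Matrix.smul_mul, Matrix.add_mul, Matrix.one_mul, Matrix.mul_assoc, h0,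
      Matrix.mul_zero, smul_zero, zero_add] at h4
    exact h4.symm
  have h5 : (H * E).trace = 0 := (smul_eq_zero.mp h3).resolve_right hE0
  rw [h5, zero_smul, add_zero] at h2
  have h6 : (2 : ℂ) • (H * E - E) = 0 := by rw [smul_sub, h2, sub_self]
  exact sub_eq_zero.mp ((smul_eq_zero.mp h6).resolve_left two_ne_zero)

def h : M2 := !![1, 0; 0, -1]
def e : M2 := !![0, 1; 0, 0]
def f : M2 := !![0, 0; 1, 0]

theorem dec (X : M2) (hX : X.trace = 0) : X = X 0 0 • h + X 0 1 • e + X 1 0 • f := by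
  rw [Matrix.trace_fin_two] at hX
  have hX1 : X 1 1 = -X 0 0 := by linear_combination hX
  ext i j
  fin_cases i <;> fin_cases j <;> simp [h, e, f, hX1]

theorem exists_P (H E F : M2) (hH : H.trace = 0) (hE : E.trace = 0) (hF : F.trace = 0)
    (hE0 : E ≠ 0) (h1 : H * E - E * H = (2 : ℂ) • E) (h2 : H * F - F * H = (-2 : ℂ) • F)
    (h3 : E * F - F * E = H) :
    ∃ P : GL (Fin 2) ℂ, P.val * h = H * P.val ∧ P.val * e = E * P.val ∧
      P.val * f = F * P.val := by
  have hEE := sq_zero H E hE 2 two_ne_zero h1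
  have hFF := sq_zero H F hF (-2) (by norm_num) h2
  have hHE := mul_eq_self H E hH hE hE0 h1
  -- a vector
  obtain ⟨v, hv⟩ : ∃ v : Fin 2 → ℂ, E *ᵥ v ≠ 0 := by
    by_contra hcon
    push Not at hcon
    apply hE0
    apply Matrix.ext_of_mulVec_single
    intro i
    rw [hcon, Matrix.zero_mulVec]
  set p : Fin 2 → ℂ := E *ᵥ v with hp
  set q : Fin 2 → ℂ := F *ᵥ p with hq
  have hEp : E *ᵥ p = 0 := by
    rw [hp, Matrix.mulVec_mulVec, hEE, Matrix.zero_mulVec]
  have hHp : H *ᵥ p = p := by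
    rw [hp, Matrix.mulVec_mulVec, hHE]
  have hEq : E *ᵥ q = p := by
    have h4 : (E * F - F * E) *ᵥ p = p := by rw [h3, hHp]
    rw [Matrix.sub_mulVec, ← Matrix.mulVec_mulVec, ← Matrix.mulVec_mulVec, hEp,
      Matrix.mulVec_zero, sub_zero] at h4
    exact h4
  have hFq : F *ᵥ q = 0 := by
    rw [hq, Matrix.mulVec_mulVec, hFF, Matrix.zero_mulVec]
  have hHq : H *ᵥ q = -q := by
    have h4 : (H * F - F * H) *ᵥ p = (-2 : ℂ) • q := by rw [h2, Matrix.smul_mulVec]
    rw [Matrix.sub_mulVec, ← Matrix.mulVec_mulVec, ← Matrix.mulVec_mulVec, hHp] at h4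
    change H *ᵥ q - q = (-2 : ℂ) • q at h4
    have h5 : H *ᵥ q = (-2 : ℂ) • q + q := by rw [← h4]; abel
    rw [h5]
    module
  let P : M2 := Matrix.of fun i j => if j = 0 then p i else q i
  have hPmul : ∀ (A : M2) (i : Fin 2), (A * P) i 0 = (A *ᵥ p) i ∧ (A * P) i 1 = (A *ᵥ q) i := by
    intro A i
    constructor <;> simp [P, Matrix.mul_apply, Matrix.mulVec, dotProduct]
  have hdet : P.det ≠ 0 := by
    intro hdet
    obtain ⟨x, hx0, hx⟩ := Matrix.exists_mulVec_eq_zero_iff.mpr hdet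
    have hx' : x 0 • p + x 1 • q = 0 := by
      rw [← hx]
      ext i
      simp [P, Matrix.mulVec, dotProduct, Fin.sum_univ_two]
      ring
    have hx1 : x 1 • p = 0 := by
      have h4 := congrArg (fun z => E *ᵥ z) hx'
      simp only [Matrix.mulVec_add, Matrix.mulVec_smul, hEp, hEq, smul_zero, zero_add,
        Matrix.mulVec_zero] at h4
      exact h4
    have hx1' : x 1 = 0 := (smul_eq_zero.mp hx1).resolve_right hv
    rw [hx1', zero_smul, add_zero] at hx'
    have hx0' : x 0 = 0 := (smul_eq_zero.mp hx').resolve_right hv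
    apply hx0
    ext i
    fin_cases i
    · exact hx0'
    · exact hx1'
  refine ⟨Matrix.GeneralLinearGroup.mkOfDetNeZero P hdet, ?_, ?_, ?_⟩
  · change P * h = H * P
    ext i j
    fin_cases j
    · rw [show ((⟨0, by omega⟩ : Fin 2)) = 0 from rfl, (hPmul H i).1, hHp]
      simp [P, h, Matrix.mul_apply]
    · rw [show ((⟨1, by omega⟩ : Fin 2)) = 1 from rfl, (hPmul H i).2, hHq]
      simp [P, h, Matrix.mul_apply]
  · change P * e = E * P
    ext i j
    fin_cases j
    · rw [show ((⟨0, by omega⟩ : Fin 2)) = 0 from rfl, (hPmul E i).1, hEp]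
      simp [P, e, Matrix.mul_apply]
    · rw [show ((⟨1, by omega⟩ : Fin 2)) = 1 from rfl, (hPmul E i).2, hEq]
      simp [P, e, Matrix.mul_apply]
  · change P * f = F * P
    ext i j
    fin_cases j
    · rw [show ((⟨0, by omega⟩ : Fin 2)) = 0 from rfl, (hPmul F i).1]
      simp [P, f, Matrix.mul_apply, hq]
    · rw [show ((⟨1, by omega⟩ : Fin 2)) = 1 from rfl, (hPmul F i).2, hFq]
      simp [P, f, Matrix.mul_apply]

end PGLX

open PGLX in
theorem pgl_proof : Stmt_Pgl := by
  intro φ k hk htr hinj hbr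
  have th : PGLX.h.trace = 0 := by simp [PGLX.h, Matrix.trace_fin_two]
  have te : PGLX.e.trace = 0 := by simp [PGLX.e, Matrix.trace_fin_two]
  have tf : PGLX.f.trace = 0 := by simp [PGLX.f, Matrix.trace_fin_two]
  have e0 : PGLX.e ≠ 0 := by
    intro h0
    have := congrFun (congrFun h0 0) 1
    simp [PGLX.e] at this
  have he : PGLX.h * PGLX.e - PGLX.e * PGLX.h = (2 : ℂ) • PGLX.e := by
    ext i j
    fin_cases i <;> fin_cases j <;>
      simp [PGLX.h, PGLX.e, Matrix.mul_apply, Fin.sum_univ_two] <;> norm_num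
  have hf : PGLX.h * PGLX.f - PGLX.f * PGLX.h = (-2 : ℂ) • PGLX.f := by
    ext i j
    fin_cases i <;> fin_cases j <;>
      simp [PGLX.h, PGLX.f, Matrix.mul_apply, Fin.sum_univ_two] <;> norm_num
  have ef : PGLX.e * PGLX.f - PGLX.f * PGLX.e = PGLX.h := by
    ext i j
    fin_cases i <;> fin_cases j <;>
      simp [PGLX.h, PGLX.e, PGLX.f, Matrix.mul_apply, Fin.sum_univ_two]
  -- the normalised map
  have hbr' : ∀ X Y : M2, X.trace = 0 → Y.trace = 0 →
      (k⁻¹ • φ X) * (k⁻¹ • φ Y) - (k⁻¹ • φ Y) * (k⁻¹ • φ X) = k⁻¹ • φ (X * Y - Y * X) := by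
    intro X Y hX hY
    have h1 := hbr X Y hX hY
    rw [Matrix.smul_mul, Matrix.mul_smul, Matrix.smul_mul, Matrix.mul_smul, ← smul_sub,
      ← smul_sub, h1, smul_smul, smul_smul]
    congr 1
    field_simp
  obtain ⟨P, hP1, hP2, hP3⟩ := exists_P (k⁻¹ • φ PGLX.h) (k⁻¹ • φ PGLX.e) (k⁻¹ • φ PGLX.f)
    (by rw [Matrix.trace_smul, htr _ th, smul_zero])
    (by rw [Matrix.trace_smul, htr _ te, smul_zero])
    (by rw [Matrix.trace_smul, htr _ tf, smul_zero])
    (by
      intro h0
      have h1 := (smul_eq_zero.mp h0).resolve_left (inv_ne_zero hk)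
      exact e0 (hinj _ te h1))
    (by rw [hbr' _ _ th te, he, map_smul, smul_comm])
    (by rw [hbr' _ _ th tf, hf, map_smul, smul_comm])
    (by rw [hbr' _ _ te tf, ef])
  refine ⟨P, k, hk, ?_⟩
  intro X hX
  have h1 : P.val * X = (k⁻¹ • φ X) * P.val := by
    have hd := dec X hX
    have h2 : k⁻¹ • φ X = X 0 0 • (k⁻¹ • φ PGLX.h) + X 0 1 • (k⁻¹ • φ PGLX.e) +
        X 1 0 • (k⁻¹ • φ PGLX.f) := by
      conv_lhs => rw [hd]
      rw [map_add, map_add, map_smul, map_smul, map_smul, smul_add, smul_add, smul_comm k⁻¹,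
        smul_comm k⁻¹, smul_comm k⁻¹]
    rw [h2]
    generalize k⁻¹ • φ PGLX.h = A at *
    generalize k⁻¹ • φ PGLX.e = B at *
    generalize k⁻¹ • φ PGLX.f = D at *
    calc P.val * X = P.val * (X 0 0 • PGLX.h + X 0 1 • PGLX.e + X 1 0 • PGLX.f) := by
          conv_lhs => rw [hd]
      _ = X 0 0 • (P.val * PGLX.h) + X 0 1 • (P.val * PGLX.e) +
          X 1 0 • (P.val * PGLX.f) := by
        rw [Matrix.mul_add, Matrix.mul_add, Matrix.mul_smul, Matrix.mul_smul, Matrix.mul_smul]
      _ = X 0 0 • (A * P.val) + X 0 1 • (B * P.val) + X 1 0 • (D * P.val) := by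
        rw [hP1, hP2, hP3]
      _ = _ := by
        rw [Matrix.add_mul, Matrix.add_mul, Matrix.smul_mul, Matrix.smul_mul, Matrix.smul_mul]
  have h3 : P.val * (P⁻¹).val = 1 := P.mul_inv
  rw [h1, Matrix.mul_assoc, h3, Matrix.mul_one, smul_smul, mul_inv_cancel₀ hk, one_smul]

end Pool.Agent.DRB
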