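import Pool.Agent.DRB.Stmts

/-!
# QP: periodicity and quasi-periodicity
-/

open scoped BigOperators
open Matrix

namespace Pool.Agent.DRB

theorem qp_proof : Stmt_Qp := by
  intro g A i z hz
  have h0 : A.θ (z + A.lat i) ≠ 0 := by
    rw [A.θ_aut i z]
    exact mul_ne_zero (Complex.exp_ne_zero _) hz
  refine ⟨h0, fun k => ?_, fun j => ?_⟩
  · unfold AbVar.f
    rw [A.num_aut k i z, A.θ_aut i z, mul_pow, ← Complex.exp_nat_mul]
    exact mul_div_mul_left _ _ (Complex.exp_ne_zero _)
  · unfold AbVar.Z
    have h1 : pd j A.θ (z + A.lat i) =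
        Complex.exp ((∑ k, A.lin i k * z k) + A.cst i) * (A.lin i j * A.θ z + pd j A.θ z) := by
      unfold pd
      have e1 : HasFDerivAt A.θ (fderiv ℂ A.θ (z + A.lat i)) (z + A.lat i) :=
        (A.θ_entire _).hasFDerivAt
      have e2 : HasFDerivAt (fun w => A.θ (w + A.lat i))
          ((fderiv ℂ A.θ (z + A.lat i)).comp (ContinuousLinearMap.id ℂ (Fin g → ℂ))) z :=
        e1.comp z ((hasFDerivAt_id z).add_const (A.lat i))
      have e3 : (fun w => A.θ (w + A.lat i)) = fun w =>
          Complex.exp ((∑ k, A.lin i k * w k) + A.cst i) * A.θ w := funext fun w => A.θ_aut i w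
      have e4 : HasFDerivAt (fun w : Fin g → ℂ => (∑ k, A.lin i k * w k) + A.cst i)
          (∑ k, A.lin i k • (ContinuousLinearMap.proj k : (Fin g → ℂ) →L[ℂ] ℂ)) z := by
        refine HasFDerivAt.add_const _ ?_
        have := HasFDerivAt.fun_sum (u := Finset.univ)
          (A := fun k (w : Fin g → ℂ) => A.lin i k * w k)
          (A' := fun k => A.lin i k • (ContinuousLinearMap.proj k : (Fin g → ℂ) →L[ℂ] ℂ))
          (x := z) (fun k _ => (ContinuousLinearMap.hasFDerivAt
            (ContinuousLinearMap.proj k : (Fin g → ℂ) →L[ℂ] ℂ)).const_mul (A.lin i k))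
        exact this
      have e5 := e4.cexp.mul (A.θ_entire z).hasFDerivAt
      rw [e3] at e2
      have e6 := e2.unique e5
      have e7 := congrArg (fun T => T (Pi.single j 1)) e6
      simp only [ContinuousLinearMap.comp_apply, ContinuousLinearMap.id_apply,
        ContinuousLinearMap.add_apply, ContinuousLinearMap.smul_apply,
        ContinuousLinearMap.sum_apply, ContinuousLinearMap.proj_apply, smul_eq_mul] at e7
      have e8 : ∑ k, A.lin i k * (Pi.single j (1 : ℂ) : Fin g → ℂ) k = A.lin i j := by
        rw [Finset.sum_eq_single j]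
        · rw [Pi.single_eq_same, mul_one]
        · intro m _ hm
          rw [Pi.single_eq_of_ne hm, mul_zero]
        · intro h; exact absurd (Finset.mem_univ _) h
      rw [e8] at e7
      rw [e7]
      ring
    rw [h1, A.θ_aut i z, mul_div_mul_left _ _ (Complex.exp_ne_zero _)]
    field_simp
    ring

end Pool.Agent.DRB
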