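import Pool.Agent.DRB.Stmts

/-! # Module RECUR: recurrence modulo a lattice -/

open scoped BigOperators Topology
open Filter

namespace Pool.Agent.DRB

theorem recur_proof : Stmt_Recur := by
  intro g lat hlat v
  have hspan : Submodule.span ℝ (Set.range lat) = ⊤ := by
    apply hlat.span_eq_top_of_card_eq_finrank'
    simp [Idx, Module.finrank_pi_fintype]
    ring
  let b : Module.Basis (Idx g) ℝ (Fin g → ℂ) := Module.Basis.mk hlat hspan.ge
  have hb : ∀ i, b i = lat i := fun i => by simp [b]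
  let t : Idx g → ℝ := fun i => b.repr v i
  have hv : v = ∑ i, t i • lat i := by
    conv_lhs => rw [← b.sum_repr v]
    exact Finset.sum_congr rfl fun i _ => by rw [hb]
  let Φ : (Idx g → ℝ) → (Fin g → ℂ) := fun x => ∑ i, x i • lat i
  have hΦc : Continuous Φ := by
    refine continuous_finsetSum _ fun i _ => ?_
    exact (continuous_apply i).smul continuous_const
  have hΦ0 : Φ 0 = 0 := by simp [Φ]
  let x : ℕ → (Idx g → ℝ) := fun n i => Int.fract (n * t i)
  have hx : ∀ n, x n ∈ Set.Icc (0 : Idx g → ℝ) 1 := fun n =>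
    ⟨fun i => Int.fract_nonneg _, fun i => (Int.fract_lt_one _).le⟩
  obtain ⟨a, -, φ, hφ, hφa⟩ := (isCompact_Icc (a := (0 : Idx g → ℝ)) (b := 1)).tendsto_subseq hx
  have key : ∀ j : ℕ, ∃ᶠ k : ℕ in atTop, ∃ l : Idx g → ℤ,
      ‖(k : ℂ) • v - ∑ i, (l i : ℂ) • lat i‖ < 1 / ((j : ℝ) + 1) := by
    intro j
    rw [Filter.frequently_atTop]
    intro M
    have hε : (0 : ℝ) < 1 / ((j : ℝ) + 1) := by positivity
    have h1 := Metric.continuousAt_iff.mp (hΦc.continuousAt (x := 0)) _ hε
    obtain ⟨δ, hδ, h1⟩ := h1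
    have h2 := Metric.cauchySeq_iff.mp hφa.cauchySeq δ hδ
    obtain ⟨N, h2⟩ := h2
    have h3 := h2 (N + M) (by omega) N le_rfl
    refine ⟨φ (N + M) - φ N, ?_, fun i => ⌊(φ (N + M) : ℝ) * t i⌋ - ⌊(φ N : ℝ) * t i⌋, ?_⟩
    · have := hφ.add_le_nat M N
      rw [Nat.add_comm M N] at this
      omega
    · have hle : φ N ≤ φ (N + M) := hφ.monotone (by omega)
      have h4 : ((φ (N + M) - φ N : ℕ) : ℂ) • v -
          ∑ i, ((⌊(φ (N + M) : ℝ) * t i⌋ - ⌊(φ N : ℝ) * t i⌋ : ℤ) : ℂ) • lat i =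
          Φ (x (φ (N + M)) - x (φ N)) := by
        conv_lhs => rw [hv]
        rw [Finset.smul_sum, ← Finset.sum_sub_distrib]
        refine Finset.sum_congr rfl fun i _ => ?_
        funext k
        simp only [Pi.sub_apply, Pi.smul_apply, smul_eq_mul, x, Int.fract, Complex.real_smul]
        push_cast [hle]
        ring
      rw [h4]
      have h5 := h1 (x := x (φ (N + M)) - x (φ N)) (by
        rw [dist_zero_right, ← dist_eq_norm]; exact h3)
      rwa [hΦ0, dist_zero_right] at h5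
  obtain ⟨n, hn, hl⟩ := Filter.extraction_forall_of_frequently key
  choose l hl using hl
  refine ⟨n, l, hn, ?_⟩
  rw [tendsto_zero_iff_norm_tendsto_zero]
  exact squeeze_zero (fun _ => norm_nonneg _) (fun j => (hl j).le)
    tendsto_one_div_add_atTop_nhds_zero_nat

end Pool.Agent.DRB
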