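import Pool.Agent.DRB.Stmts

/-!
# The easy inclusion: the de Rham-Betti group commutes with the endomorphisms and preserves the
Riemann form up to a scalar
-/

open scoped BigOperators
open Matrix

namespace Pool.Agent.DRB

namespace RevX

noncomputable section

/-- the tensor space `V ⊕ V` -/
abbrev t1 : TData := ⟨2, fun _ => 1, fun _ => 0⟩

theorem fin2 (r : Fin 2) : r = 0 ∨ r = 1 := by omega

def gr {ι : Type} (c0 c1 : ι → ℂ) : TIdx t1 ι → ℂ
  | ⟨⟨0, _⟩, p⟩ => c0 (p (0 : Fin 1))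
  | ⟨⟨1, _⟩, p⟩ => c1 (p (0 : Fin 1))

/-- the graph of a matrix -/
def D1 {ι : Type} [Fintype ι] (α : Matrix ι ι ℂ) : Submodule ℂ (TIdx t1 ι → ℂ) where
  carrier := {u | ∀ i, u ⟨(1 : Fin 2), fun _ => i⟩ = ∑ j, α i j * u ⟨(0 : Fin 2), fun _ => j⟩}
  add_mem' := by
    intro u v hu hv i
    simp only [Pi.add_apply, hu i, hv i, mul_add, Finset.sum_add_distrib]
  zero_mem' := by
    intro i
    simp
  smul_mem' := by
    intro c u hu i
    simp only [Pi.smul_apply, smul_eq_mul, hu i, Finset.mul_sum]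
    exact Finset.sum_congr rfl fun j _ => by ring

theorem TAct1 {ι : Type} [Fintype ι] (x : Matrix ι ι ℂ) (ν : ℂ)
    (u : TIdx t1 ι → ℂ) (r : Fin 2) (i : ι) :
    TAct t1 x ν u ⟨r, fun _ => i⟩ = ∑ j, x i j * u ⟨r, fun _ => j⟩ := by
  rw [TAct_apply]
  have h0 : t1.k r = 0 := rfl
  show ν ^ (t1.k r) * _ = _
  rw [h0, zpow_zero, one_mul]
  refine Fintype.sum_equiv (Equiv.funUnique (Fin 1) ι) _ _ fun J => ?_
  have hJ : J = fun _ => J 0 := by
    funext s
    rw [Subsingleton.elim s 0]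
  have hu : u ⟨r, fun _ => J 0⟩ = u ⟨r, J⟩ := by rw [← hJ]
  show (∏ s : Fin 1, x i (J s)) * u ⟨r, J⟩ = x i (J 0) * u ⟨r, fun _ => J 0⟩
  rw [hu, Fin.prod_univ_one]

theorem D1_map_le {ι : Type} [Fintype ι] {α β x : Matrix ι ι ℂ} (ν : ℂ) (h : x * α = β * x) :
    (D1 α).map (TAct t1 x ν) ≤ D1 β := by
  rintro _ ⟨u, hu, rfl⟩ i
  rw [TAct1]
  have h1 : ∀ j, u ⟨(1 : Fin 2), fun _ => j⟩ = ∑ k, α j k * u ⟨(0 : Fin 2), fun _ => k⟩ := hu
  have h2 : ∀ i, TAct t1 x ν u ⟨(0 : Fin 2), fun _ => i⟩ =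
      ∑ j, x i j * u ⟨(0 : Fin 2), fun _ => j⟩ := fun i => TAct1 x ν u 0 i
  simp only [h1, h2]
  have e1 : ∑ j, x i j * ∑ k, α j k * u ⟨(0 : Fin 2), fun _ => k⟩ =
      ∑ k, (x * α) i k * u ⟨(0 : Fin 2), fun _ => k⟩ := by
    simp only [Matrix.mul_apply, Finset.mul_sum, Finset.sum_mul]
    rw [Finset.sum_comm]
    exact Finset.sum_congr rfl fun k _ => Finset.sum_congr rfl fun j _ => by ring
  have e2 : ∑ j, β i j * ∑ k, x j k * u ⟨(0 : Fin 2), fun _ => k⟩ =
      ∑ k, (β * x) i k * u ⟨(0 : Fin 2), fun _ => k⟩ := by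
    simp only [Matrix.mul_apply, Finset.mul_sum, Finset.sum_mul]
    rw [Finset.sum_comm]
    exact Finset.sum_congr rfl fun k _ => Finset.sum_congr rfl fun j _ => by ring
  rw [e1, e2, h]

theorem D1_span {ι : Type} [Fintype ι] [DecidableEq ι] (β : Matrix ι ι ℂ) (Q : ℂ → Prop) (h0 : Q 0)
    (h1 : Q 1) (hβ : ∀ i j, Q (β i j)) :
    D1 β ≤ Submodule.span ℂ {v | v ∈ D1 β ∧ ∀ k, Q (v k)} := by
  intro u hu
  have hu' : ∀ i, u ⟨(1 : Fin 2), fun _ => i⟩ = ∑ j, β i j * u ⟨(0 : Fin 2), fun _ => j⟩ := hu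
  obtain ⟨b, hbdef⟩ : ∃ b : ι → (TIdx t1 ι → ℂ), b = fun j => gr (fun i => if i = j then 1 else 0)
    (fun i => β i j) := ⟨_, rfl⟩
  have hb0 : ∀ j i, b j ⟨(0 : Fin 2), fun _ => i⟩ = if i = j then 1 else 0 := fun j i => by
    rw [hbdef]; rfl
  have hb1 : ∀ j i, b j ⟨(1 : Fin 2), fun _ => i⟩ = β i j := fun j i => by
    rw [hbdef]; rfl
  have hmem : ∀ j, b j ∈ Submodule.span ℂ {v | v ∈ D1 β ∧ ∀ k, Q (v k)} := by
    intro j
    refine Submodule.subset_span ⟨?_, ?_⟩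
    · intro i
      rw [hb1]
      simp only [hb0]
      simp
    · rintro ⟨r, p⟩
      rcases fin2 r with rfl | rfl
      · have hp : p = fun _ => p (0 : Fin 1) := by
          funext s
          exact congrArg p (Subsingleton.elim (α := Fin 1) s 0)
        rw [hp, hb0]
        split_ifs
        · exact h1
        · exact h0
      · have hp : p = fun _ => p (0 : Fin 1) := by
          funext s
          exact congrArg p (Subsingleton.elim (α := Fin 1) s 0)
        rw [hp, hb1]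
        exact hβ _ _
  have hsum : u = ∑ j, u ⟨(0 : Fin 2), fun _ => j⟩ • b j := by
    funext q
    obtain ⟨r, p⟩ := q
    have hp : p = fun _ => p (0 : Fin 1) := by
      funext s
      exact congrArg p (Subsingleton.elim (α := Fin 1) s 0)
    rw [hp]
    generalize p (0 : Fin 1) = i
    rw [Finset.sum_apply]
    simp only [Pi.smul_apply, smul_eq_mul]
    rcases fin2 r with rfl | rfl
    · have := fun j => hb0 j i
      simp only [this]
      simp
    · have := fun j => hb1 j i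
      simp only [this]
      rw [hu' i]
      exact Finset.sum_congr rfl fun j _ => by ring
  rw [hsum]
  exact Submodule.sum_mem _ fun j _ => Submodule.smul_mem _ _ (hmem j)

/-- the tensor space `V ⊗ V ⊕ 1(1)` -/
abbrev t2 : TData := ⟨2, ![2, 0], ![0, 1]⟩

def u2 {ι : Type} (M : Matrix ι ι ℂ) : TIdx t2 ι → ℂ
  | ⟨⟨0, _⟩, p⟩ => M (p (0 : Fin 2)) (p (1 : Fin 2))
  | ⟨⟨1, _⟩, _⟩ => 1

theorem TAct2_zero {ι : Type} [Fintype ι] (x M : Matrix ι ι ℂ) (ν : ℂ) (p : Fin 2 → ι) :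
    TAct t2 x ν (u2 M) ⟨(0 : Fin 2), p⟩ = (x * M * xᵀ) (p 0) (p 1) := by
  rw [TAct_apply]
  show ν ^ (0 : ℤ) * ∑ J : Fin 2 → ι, (∏ s : Fin 2, x (p s) (J s)) * M (J 0) (J 1) = _
  rw [zpow_zero, one_mul]
  simp only [Fin.prod_univ_two]
  have : ∑ J : Fin 2 → ι, x (p 0) (J 0) * x (p 1) (J 1) * M (J 0) (J 1) =
      ∑ ab : ι × ι, x (p 0) ab.1 * x (p 1) ab.2 * M ab.1 ab.2 :=
    Fintype.sum_equiv (finTwoArrowEquiv ι) _ _ fun J => rfl
  rw [this, Fintype.sum_prod_type, Matrix.mul_apply]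
  simp only [Matrix.mul_apply, Matrix.transpose_apply, Finset.sum_mul]
  rw [Finset.sum_comm]
  exact Finset.sum_congr rfl fun k _ => Finset.sum_congr rfl fun j _ => by ring

theorem TAct2_one {ι : Type} [Fintype ι] (x M : Matrix ι ι ℂ) (ν : ℂ) (p : Fin 0 → ι) :
    TAct t2 x ν (u2 M) ⟨(1 : Fin 2), p⟩ = ν := by
  rw [TAct_apply]
  show ν ^ (1 : ℤ) * ∑ J : Fin 0 → ι, (∏ s : Fin 0, x (p s) (J s)) * 1 = _
  simp

theorem TAct2 {ι : Type} [Fintype ι] (x M M' : Matrix ι ι ℂ) (ν : ℂ) (h : x * M * xᵀ = ν • M') :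
    TAct t2 x ν (u2 M) = ν • u2 M' := by
  funext q
  obtain ⟨r, p⟩ := q
  rcases fin2 r with rfl | rfl
  · have e := TAct2_zero x M ν p
    rw [h] at e
    exact e
  · have e := TAct2_one x M ν p
    refine e.trans ?_
    show ν = ν * 1
    ring

theorem exists_rat_inv {ι : Type} [Fintype ι] [DecidableEq ι] (R : Matrix ι ι ℂ)
    (hR : ∀ i j, ∃ n : ℤ, R i j = n) (hd : IsUnit R.det) : ∀ i j, ∃ q : ℚ, R⁻¹ i j = q := by
  choose n hn using hR
  let N : Matrix ι ι ℚ := Matrix.of fun i j => (n i j : ℚ)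
  have hN : R = N.map (algebraMap ℚ ℂ) := by
    ext i j
    simp [N, hn]
  have hdet : IsUnit N.det := by
    have : R.det = algebraMap ℚ ℂ N.det := by
      rw [hN]
      exact (RingHom.map_det (algebraMap ℚ ℂ) N).symm
    rw [this] at hd
    rw [isUnit_iff_ne_zero] at hd ⊢
    intro h0
    exact hd (by rw [h0, map_zero])
  have hinv : R⁻¹ = (N⁻¹).map (algebraMap ℚ ℂ) := by
    apply Matrix.inv_eq_left_inv
    rw [hN, ← Matrix.map_mul, Matrix.nonsing_inv_mul _ hdet]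
    simp
  intro i j
  refine ⟨N⁻¹ i j, ?_⟩
  rw [hinv]
  rfl

theorem Jm_inv (g : ℕ) : (Jm g)⁻¹ = Matrix.fromBlocks 0 (-1) 1 0 := by
  apply Matrix.inv_eq_left_inv
  unfold Jm
  rw [Matrix.fromBlocks_multiply]
  simp

theorem alg_Jm_inv (g : ℕ) (i j : Idx g) : IsAlgebraic ℚ ((Jm g)⁻¹ i j) := by
  rw [Jm_inv]
  have h0 : IsAlgebraic ℚ (0 : ℂ) := isAlgebraic_zero
  have h1 : IsAlgebraic ℚ (1 : ℂ) := isAlgebraic_one
  rcases i with i | i <;> rcases j with j | j
  · simpa using h0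
  · simp only [Matrix.fromBlocks_apply₁₂, Matrix.neg_apply, Matrix.one_apply]
    split_ifs
    · exact h1.neg
    · simpa using h0
  · simp only [Matrix.fromBlocks_apply₂₁, Matrix.one_apply]
    split_ifs
    · exact h1
    · exact h0
  · simpa using h0

end

end RevX

open RevX

theorem rev_proof (hL : Stmt_Leg) : Stmt_Rev := by
  classical
  intro g A x ν hx
  obtain ⟨hint, hleg, hdet, -⟩ := hL g A
  have hper : IsUnit A.per.det := A.nondeg
  have htpi : (2 * Real.pi * Complex.I : ℂ) = tpi := rfl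
  constructor
  · rintro α ⟨ρ, hρalg, -, hρ⟩
    -- the graph of α is de Rham-Betti
    have hmap : (D1 (AbVar.toC α)).map (TAct t1 A.per (2 * Real.pi * Complex.I)) = D1 ρ := by
      refine le_antisymm (D1_map_le _ hρ) ?_
      intro w hw
      have hinv : A.per⁻¹ * ρ = AbVar.toC α * A.per⁻¹ := by
        have h1 : A.per⁻¹ * (A.per * AbVar.toC α) * A.per⁻¹ = A.per⁻¹ * (ρ * A.per) * A.per⁻¹ := by
          rw [hρ]
        rw [Matrix.nonsing_inv_mul_cancel_left _ _ hper, ← Matrix.mul_assoc,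
          Matrix.mul_nonsing_inv_cancel_right _ _ hper] at h1
        exact h1.symm
      refine ⟨TAct t1 A.per⁻¹ tpi⁻¹ w, D1_map_le _ hinv ⟨w, hw, rfl⟩, ?_⟩
      have hc := TAct_comp t1 A.per A.per⁻¹ tpi tpi⁻¹
      rw [Matrix.mul_nonsing_inv _ hper, mul_inv_cancel₀ tpi_ne_zero, TAct_one] at hc
      have := congrArg (fun f : (TIdx t1 (Idx g) → ℂ) →ₗ[ℂ] (TIdx t1 (Idx g) → ℂ) => f w) hc
      rw [htpi]
      simpa using this.symm
    have hD : IsDRB A t1 (D1 (AbVar.toC α)) := by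
      refine ⟨?_, ?_⟩
      · refine D1_span _ (fun z => ∃ q : ℚ, z = q) ⟨0, by simp⟩ ⟨1, by simp⟩ fun i j => ⟨α i j, ?_⟩
        simp [AbVar.toC]
      · rw [hmap]
        exact D1_span _ (fun z => IsAlgebraic ℚ z) isAlgebraic_zero isAlgebraic_one hρalg
    have h := hx t1 _ hD
    ext i k
    obtain ⟨u, hudef⟩ : ∃ u : TIdx t1 (Idx g) → ℂ, u = gr (fun i => if i = k then 1 else 0)
      (fun i => AbVar.toC α i k) := ⟨_, rfl⟩
    have hu0 : ∀ i, u ⟨(0 : Fin 2), fun _ => i⟩ = if i = k then 1 else 0 := fun i => by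
      rw [hudef]; rfl
    have hu1 : ∀ i, u ⟨(1 : Fin 2), fun _ => i⟩ = AbVar.toC α i k := fun i => by
      rw [hudef]; rfl
    have hu : u ∈ D1 (AbVar.toC α) := by
      intro i
      rw [hu1]
      simp only [hu0]
      simp
    have hxu : TAct t1 x.val ν.val u ∈ D1 (AbVar.toC α) := by
      rw [← h]
      exact ⟨u, hu, rfl⟩
    have h3 := hxu i
    have e1 : TAct t1 x.val ν.val u ⟨(1 : Fin 2), fun _ => i⟩ = (x.val * AbVar.toC α) i k := by
      rw [TAct1]
      simp only [hu1, Matrix.mul_apply]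
    have e0 : ∀ i, TAct t1 x.val ν.val u ⟨(0 : Fin 2), fun _ => i⟩ = x.val i k := by
      intro i
      have := TAct1 x.val ν.val u 0 i
      refine this.trans ?_
      simp only [hu0]
      simp
    rw [e1] at h3
    rw [h3, Matrix.mul_apply]
    exact Finset.sum_congr rfl fun j _ => by rw [e0]
  · set R := A.riem with hRdef
    have hJ : IsUnit (Jm g).det := by
      have h1 : (Jm g)⁻¹ * Jm g = 1 := by
        rw [Jm_inv]
        unfold Jm
        rw [Matrix.fromBlocks_multiply]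
        simp
      have h2 := congrArg Matrix.det h1
      rw [Matrix.det_mul, Matrix.det_one] at h2
      exact IsUnit.of_mul_eq_one _ (by rw [mul_comm]; exact h2)
    have hPt : IsUnit (A.perᵀ).det := by rw [Matrix.det_transpose]; exact hper
    -- P R⁻¹ Pᵀ = tpi J⁻¹
    have hkey : A.per * R⁻¹ * A.perᵀ = tpi • (Jm g)⁻¹ := by
      have h1 : (A.per * R⁻¹ * A.perᵀ) * Jm g = tpi • 1 := by
        have h2 : A.per * R⁻¹ * A.perᵀ * Jm g * A.per = tpi • A.per := by
          calc A.per * R⁻¹ * A.perᵀ * Jm g * A.per = A.per * R⁻¹ * (A.perᵀ * Jm g * A.per) := by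
                simp only [Matrix.mul_assoc]
            _ = A.per * R⁻¹ * (tpi • R) := by rw [hleg]
            _ = tpi • (A.per * (R⁻¹ * R)) := by
                rw [Matrix.mul_smul, Matrix.mul_assoc]
            _ = tpi • A.per := by rw [Matrix.nonsing_inv_mul _ hdet, Matrix.mul_one]
        have h3 := congrArg (fun M => M * A.per⁻¹) h2
        simp only [Matrix.smul_mul, Matrix.mul_nonsing_inv _ hper] at h3
        rw [Matrix.mul_nonsing_inv_cancel_right _ _ hper] at h3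
        exact h3
      have h4 := congrArg (fun M => M * (Jm g)⁻¹) h1
      simp only [Matrix.smul_mul, Matrix.one_mul] at h4
      rw [Matrix.mul_nonsing_inv_cancel_right _ _ hJ] at h4
      exact h4
    have hrat := exists_rat_inv R hint hdet
    have hD : IsDRB A t2 (Submodule.span ℂ {u2 R⁻¹}) := by
      refine ⟨?_, ?_⟩
      · refine Submodule.span_mono ?_
        rintro _ rfl
        refine ⟨Submodule.subset_span rfl, ?_⟩
        rintro ⟨r, p⟩
        rcases fin2 r with rfl | rfl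
        · exact hrat _ _
        · exact ⟨1, by show (1 : ℂ) = _; simp⟩
      · rw [Submodule.map_span, Set.image_singleton, htpi, TAct2 A.per R⁻¹ (Jm g)⁻¹ tpi hkey]
        have hsp : tpi • u2 (Jm g)⁻¹ ∈ Submodule.span ℂ {v | v ∈ Submodule.span ℂ {tpi • u2 (Jm g)⁻¹} ∧
            ∀ k, IsAlgebraic ℚ (v k)} := by
          refine Submodule.smul_mem _ _ (Submodule.subset_span ⟨?_, ?_⟩)
          · have h9 : tpi⁻¹ • (tpi • u2 (Jm g)⁻¹) ∈ Submodule.span ℂ {tpi • u2 (Jm g)⁻¹} :=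
              Submodule.smul_mem _ _ (Submodule.subset_span rfl)
            rwa [smul_smul, inv_mul_cancel₀ tpi_ne_zero, one_smul] at h9
          · rintro ⟨r, p⟩
            rcases fin2 r with rfl | rfl
            · exact alg_Jm_inv g _ _
            · exact isAlgebraic_one
        exact (Submodule.span_singleton_le_iff_mem _ _).2 hsp
    have h := hx t2 _ hD
    have h1 : TAct t2 x.val ν.val (u2 R⁻¹) ∈ Submodule.span ℂ {u2 R⁻¹} := by
      rw [← h]
      exact ⟨_, Submodule.subset_span rfl, rfl⟩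
    obtain ⟨c, hc⟩ := Submodule.mem_span_singleton.1 h1
    have hc1 : c = ν.val := by
      have h2 := congrFun hc ⟨(1 : Fin 2), (fun s : Fin 0 => s.elim0)⟩
      have h3 := TAct2_one x.val R⁻¹ ν.val (fun s : Fin 0 => s.elim0)
      have h4 : (c • u2 R⁻¹) ⟨(1 : Fin 2), (fun s : Fin 0 => s.elim0)⟩ = c := by
        show c * 1 = c
        ring
      rw [h4] at h2
      exact h2.trans h3
    have hc0 : x.val * R⁻¹ * x.valᵀ = ν.val • R⁻¹ := by
      ext i j
      have h2 := congrFun hc ⟨(0 : Fin 2), (![i, j] : Fin 2 → Idx g)⟩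
      have h3 := TAct2_zero x.val R⁻¹ ν.val (![i, j] : Fin 2 → Idx g)
      have h4 : (c • u2 R⁻¹) ⟨(0 : Fin 2), (![i, j] : Fin 2 → Idx g)⟩ = c * R⁻¹ i j := rfl
      rw [h4, hc1] at h2
      have h5 : (x.val * R⁻¹ * x.valᵀ) i j = ν.val * R⁻¹ i j := by
        refine Eq.trans ?_ h2.symm
        exact h3.symm
      rw [h5]
      rfl
    -- invert
    have hxdet : IsUnit x.val.det := (Matrix.isUnit_iff_isUnit_det _).1 x.isUnit
    have hxtdet : IsUnit (x.valᵀ).det := by rw [Matrix.det_transpose]; exact hxdet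
    -- R x⁻¹ ... : from x R⁻¹ xᵀ = ν R⁻¹ get  (xᵀ R x) : compute xᵀ R (x R⁻¹ xᵀ) = ν xᵀ
    have h6 : (x.valᵀ * R * x.val) * (R⁻¹ * x.valᵀ) = ν.val • (R * (R⁻¹ * x.valᵀ)) := by
      calc (x.valᵀ * R * x.val) * (R⁻¹ * x.valᵀ) = x.valᵀ * R * (x.val * R⁻¹ * x.valᵀ) := by
            simp only [Matrix.mul_assoc]
        _ = ν.val • (x.valᵀ * (R * R⁻¹)) := by
            rw [hc0, Matrix.mul_smul, Matrix.mul_assoc]
        _ = ν.val • x.valᵀ := by rw [Matrix.mul_nonsing_inv _ hdet, Matrix.mul_one]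
        _ = ν.val • (R * (R⁻¹ * x.valᵀ)) := by
            rw [Matrix.mul_nonsing_inv_cancel_left _ _ hdet]
    have hU : IsUnit (R⁻¹ * x.valᵀ).det := by
      rw [Matrix.det_mul]
      refine IsUnit.mul ?_ hxtdet
      rw [Matrix.det_nonsing_inv]
      exact IsUnit.ringInverse hdet
    have h7 := congrArg (fun M => M * (R⁻¹ * x.valᵀ)⁻¹) h6
    simp only [Matrix.smul_mul] at h7
    rw [Matrix.mul_nonsing_inv_cancel_right _ _ hU, Matrix.mul_nonsing_inv_cancel_right _ _ hU] at h7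
    exact h7

end Pool.Agent.DRB
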