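import Pool.Agent.DRB.Stmts

/-!
# SLAV: application of the periodic Schneider-Lang theorem to abelian varieties
-/

set_option autoImplicit false

open scoped BigOperators Topology
open Matrix Asymptotics Filter

namespace Pool.Agent.DRB

noncomputable section

namespace SlavX

/-! ### growth of order two -/

/-- growth of order two -/
def Gr {d : ℕ} (F : (Fin d → ℂ) → ℂ) : Prop :=
  ∃ C : ℝ, ∀ z, ‖F z‖ ≤ Real.exp (C * (1 + ‖z‖) ^ 2)

theorem one_le_sq {d : ℕ} (z : Fin d → ℂ) : (1 : ℝ) ≤ (1 + ‖z‖) ^ 2 := by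
  nlinarith [norm_nonneg z]

theorem Gr.nonneg {d : ℕ} {F : (Fin d → ℂ) → ℂ} (h : Gr F) :
    ∃ C : ℝ, 0 ≤ C ∧ ∀ z, ‖F z‖ ≤ Real.exp (C * (1 + ‖z‖) ^ 2) := by
  obtain ⟨C, hC⟩ := h
  refine ⟨|C|, abs_nonneg C, fun z => (hC z).trans ?_⟩
  apply Real.exp_le_exp.2
  exact mul_le_mul_of_nonneg_right (le_abs_self C) (by positivity)

theorem Gr.of_le {d : ℕ} {F : (Fin d → ℂ) → ℂ} (K : ℝ) (hK : 0 ≤ K)
    (h : ∀ z, ‖F z‖ ≤ K * (1 + ‖z‖)) : Gr F := by
  refine ⟨K, fun z => (h z).trans ?_⟩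
  have h1 : K * (1 + ‖z‖) ≤ K * (1 + ‖z‖) ^ 2 := by
    apply mul_le_mul_of_nonneg_left _ hK
    nlinarith [norm_nonneg z]
  have h2 := Real.add_one_le_exp (K * (1 + ‖z‖) ^ 2)
  linarith

theorem Gr.const {d : ℕ} (c : ℂ) : Gr (fun _ : Fin d → ℂ => c) := by
  apply Gr.of_le ‖c‖ (norm_nonneg c)
  intro z
  nlinarith [norm_nonneg z, norm_nonneg c]

theorem Gr.mul {d : ℕ} {F G : (Fin d → ℂ) → ℂ} (hF : Gr F) (hG : Gr G) :
    Gr (fun z => F z * G z) := by
  obtain ⟨C, hC⟩ := hF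
  obtain ⟨D, hD⟩ := hG
  refine ⟨C + D, fun z => ?_⟩
  rw [norm_mul, add_mul, Real.exp_add]
  exact mul_le_mul (hC z) (hD z) (norm_nonneg _) (Real.exp_pos _).le

theorem Gr.add {d : ℕ} {F G : (Fin d → ℂ) → ℂ} (hF : Gr F) (hG : Gr G) :
    Gr (fun z => F z + G z) := by
  obtain ⟨C, hC0, hC⟩ := hF.nonneg
  obtain ⟨D, hD0, hD⟩ := hG.nonneg
  refine ⟨C + D + 1, fun z => ?_⟩
  have h1 := one_le_sq z
  have h2 : Real.exp (C * (1 + ‖z‖) ^ 2) ≤ Real.exp ((C + D) * (1 + ‖z‖) ^ 2) := by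
    apply Real.exp_le_exp.2
    nlinarith
  have h3 : Real.exp (D * (1 + ‖z‖) ^ 2) ≤ Real.exp ((C + D) * (1 + ‖z‖) ^ 2) := by
    apply Real.exp_le_exp.2
    nlinarith
  have h4 : (2 : ℝ) ≤ Real.exp ((1 + ‖z‖) ^ 2) := by
    have := Real.add_one_le_exp ((1 + ‖z‖) ^ 2)
    linarith
  have h5 : Real.exp ((C + D + 1) * (1 + ‖z‖) ^ 2)
      = Real.exp ((C + D) * (1 + ‖z‖) ^ 2) * Real.exp ((1 + ‖z‖) ^ 2) := by
    rw [← Real.exp_add]; congr 1; ring
  rw [h5]
  have h6 : 0 < Real.exp ((C + D) * (1 + ‖z‖) ^ 2) := Real.exp_pos _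
  calc ‖F z + G z‖ ≤ ‖F z‖ + ‖G z‖ := norm_add_le _ _
    _ ≤ Real.exp ((C + D) * (1 + ‖z‖) ^ 2) * 2 := by linarith [hC z, hD z]
    _ ≤ _ := mul_le_mul_of_nonneg_left h4 h6.le

theorem Gr.neg {d : ℕ} {F : (Fin d → ℂ) → ℂ} (hF : Gr F) : Gr (fun z => -F z) := by
  obtain ⟨C, hC⟩ := hF
  exact ⟨C, fun z => by rw [norm_neg]; exact hC z⟩

theorem Gr.sub {d : ℕ} {F G : (Fin d → ℂ) → ℂ} (hF : Gr F) (hG : Gr G) :
    Gr (fun z => F z - G z) := by
  have := hF.add hG.neg
  simpa [sub_eq_add_neg] using this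

theorem Gr.pow {d : ℕ} {F : (Fin d → ℂ) → ℂ} (hF : Gr F) (n : ℕ) : Gr (fun z => F z ^ n) := by
  induction n with
  | zero => simpa using Gr.const (d := d) 1
  | succ n ih => simpa [pow_succ] using ih.mul hF

theorem Gr.prod {d : ℕ} {κ : Type} (s : Finset κ) (F : κ → (Fin d → ℂ) → ℂ)
    (h : ∀ k ∈ s, Gr (F k)) : Gr (fun z => ∏ k ∈ s, F k z) := by
  classical
  induction s using Finset.induction_on with
  | empty => simpa using Gr.const (d := d) 1
  | insert a s ha ih =>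
    simp only [Finset.prod_insert ha]
    exact (h a (Finset.mem_insert_self a s)).mul
      (ih fun k hk => h k (Finset.mem_insert_of_mem hk))

theorem Gr.comp {d g : ℕ} {F : (Fin g → ℂ) → ℂ} (hF : Gr F)
    (L : (Fin d → ℂ) →L[ℂ] (Fin g → ℂ)) : Gr (fun w => F (L w)) := by
  obtain ⟨C, hC0, hC⟩ := hF.nonneg
  refine ⟨C * (1 + ‖L‖) ^ 2, fun w => (hC (L w)).trans ?_⟩
  apply Real.exp_le_exp.2
  have h1 : ‖L w‖ ≤ ‖L‖ * ‖w‖ := L.le_opNorm w
  have h2 : 1 + ‖L w‖ ≤ (1 + ‖L‖) * (1 + ‖w‖) := by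
    nlinarith [norm_nonneg w, norm_nonneg L]
  have h3 : (1 + ‖L w‖) ^ 2 ≤ ((1 + ‖L‖) * (1 + ‖w‖)) ^ 2 :=
    pow_le_pow_left₀ (by positivity) h2 2
  calc C * (1 + ‖L w‖) ^ 2 ≤ C * ((1 + ‖L‖) * (1 + ‖w‖)) ^ 2 := mul_le_mul_of_nonneg_left h3 hC0
    _ = _ := by ring

theorem Gr.lin {d : ℕ} (L : (Fin d → ℂ) →L[ℂ] ℂ) : Gr (fun w => L w) := by
  apply Gr.of_le ‖L‖ (norm_nonneg L)
  intro z
  have h1 := L.le_opNorm z
  nlinarith [norm_nonneg z, norm_nonneg L]

/-! ### linear maps -/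

/-- the map `x ↦ M x` -/
def mL {g d : ℕ} (M : Matrix (Idx g) (Fin d) ℂ) : (Fin d → ℂ) →L[ℂ] (Idx g → ℂ) :=
  M.mulVecLin.toContinuousLinearMap

theorem mL_apply {g d : ℕ} (M : Matrix (Idx g) (Fin d) ℂ) (w : Fin d → ℂ) : mL M w = M *ᵥ w := rfl

/-- the projection to `ℂ^g` -/
def pL (g : ℕ) : (Idx g → ℂ) →L[ℂ] (Fin g → ℂ) :=
  ContinuousLinearMap.pi fun k => ContinuousLinearMap.proj (Sum.inl k)

theorem pL_apply {g : ℕ} (x : Idx g → ℂ) : pL g x = pr x := rfl

theorem clm_sum {g : ℕ} (φ : (Fin g → ℂ) →L[ℂ] ℂ) (v : Fin g → ℂ) :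
    φ v = ∑ i, v i * φ (Pi.single i 1) := by
  have h := LinearMap.pi_apply_eq_sum_univ (φ : (Fin g → ℂ) →ₗ[ℂ] ℂ) v
  rw [ContinuousLinearMap.coe_coe] at h
  rw [h]
  refine Finset.sum_congr rfl fun i _ => ?_
  rw [smul_eq_mul]
  congr 2
  funext j
  by_cases hj : i = j
  · subst hj; simp
  · rw [if_neg hj, Pi.single_eq_of_ne (Ne.symm hj)]

/-- chain rule for compositions with `pr ∘ M` -/
theorem pd_comp {g d : ℕ} (M : Matrix (Idx g) (Fin d) ℂ) (F : (Fin g → ℂ) → ℂ) (w : Fin d → ℂ)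
    (hF : DifferentiableAt ℂ F (pr (M *ᵥ w))) (l : Fin d) :
    pd l (fun w => F (pr (M *ᵥ w))) w = ∑ i, M (Sum.inl i) l * pd i F (pr (M *ᵥ w)) := by
  have h1 : HasFDerivAt (fun w => F (pr (M *ᵥ w)))
      ((fderiv ℂ F (pr (M *ᵥ w))).comp ((pL g).comp (mL M))) w := by
    have h2 : HasFDerivAt (fun w : Fin d → ℂ => pr (M *ᵥ w)) ((pL g).comp (mL M)) w :=
      ((pL g).comp (mL M)).hasFDerivAt
    exact HasFDerivAt.comp w hF.hasFDerivAt h2
  unfold pd
  rw [h1.fderiv, ContinuousLinearMap.comp_apply, clm_sum]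
  refine Finset.sum_congr rfl fun i _ => ?_
  congr 1
  change (M *ᵥ (Pi.single l 1)) (Sum.inl i) = _
  rw [Matrix.mulVec_single_one]
  rfl

/-! ### the numerators -/

section Num

variable {g : ℕ} (A : AbVar g)

/-- the numerators of the functions `fH` with the common denominator `θ ^ (wt + 1)` -/
def nu (e : Fin A.nfun ⊕ Fin g) (x : Idx g → ℂ) : ℂ :=
  Sum.elim (fun k => A.num k (pr x) * A.θ (pr x))
    (fun j => (pd j A.θ (pr x) - (A.Z j 0 + x (Sum.inr j)) * A.θ (pr x)) * A.θ (pr x) ^ A.wt) e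

theorem nu_div (e : Fin A.nfun ⊕ Fin g) (x : Idx g → ℂ) (hx : A.θ (pr x) ≠ 0) :
    nu A e x / A.θ (pr x) ^ (A.wt + 1) = A.fH e x := by
  cases e with
  | inl k =>
    simp only [nu, AbVar.fH, Sum.elim_inl, AbVar.f]
    rw [pow_succ, mul_div_mul_right _ _ hx]
  | inr j =>
    simp only [nu, AbVar.fH, Sum.elim_inr, AbVar.H, AbVar.Z]
    field_simp
    ring

/-- periods up to a factor -/
def PerV (v : Idx g → ℂ) : Prop :=
  ∀ x, ∃ c : ℂ, c ≠ 0 ∧ (∀ e, nu A e (x + v) = c * nu A e x) ∧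
    A.θ (pr (x + v)) ^ (A.wt + 1) = c * A.θ (pr x) ^ (A.wt + 1)

theorem pr_add (x y : Idx g → ℂ) : pr (x + y) = pr x + pr y := rfl

theorem pd_theta (i : Idx g) (j : Fin g) (z : Fin g → ℂ) :
    pd j A.θ (z + A.lat i) = Complex.exp ((∑ k, A.lin i k * z k) + A.cst i) *
      (A.lin i j * A.θ z + pd j A.θ z) := by
  have h1 : (fun z => A.θ (z + A.lat i))
      = fun z => Complex.exp ((∑ k, A.lin i k * z k) + A.cst i) * A.θ z := by
    funext z; exact A.θ_aut i z
  let φ : (Fin g → ℂ) →L[ℂ] ℂ := ∑ k, A.lin i k • ContinuousLinearMap.proj k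
  have hφ : ∀ z, φ z = ∑ k, A.lin i k * z k := by
    intro z
    simp [φ]
  have h2 : HasFDerivAt (fun z => A.θ (z + A.lat i)) (fderiv ℂ A.θ (z + A.lat i)) z := by
    have h3 := (A.θ_entire (z + A.lat i)).hasFDerivAt
    have h4 : HasFDerivAt (fun z : Fin g → ℂ => z + A.lat i) (ContinuousLinearMap.id ℂ _) z :=
      (hasFDerivAt_id z).add_const (A.lat i)
    have h5 := HasFDerivAt.comp z h3 h4
    rwa [ContinuousLinearMap.comp_id] at h5
  have h6 : HasFDerivAt (fun z => Complex.exp ((∑ k, A.lin i k * z k) + A.cst i))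
      (Complex.exp ((∑ k, A.lin i k * z k) + A.cst i) • φ) z := by
    have h7 : HasFDerivAt (fun z => (∑ k, A.lin i k * z k) + A.cst i) φ z := by
      have h8 := (φ.hasFDerivAt (x := z)).add_const (A.cst i)
      simp only [hφ] at h8
      exact h8
    exact h7.cexp
  have h9 := h6.mul (A.θ_entire z).hasFDerivAt
  rw [h1] at h2
  have h10 := h2.unique h9
  have h11 := congrArg (fun ψ : (Fin g → ℂ) →L[ℂ] ℂ => ψ (Pi.single j 1)) h10
  simp only [_root_.add_apply, _root_.smul_apply, smul_eq_mul] at h11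
  have h12 : φ (Pi.single j 1) = A.lin i j := by
    rw [hφ]
    simp [Pi.single_apply]
  rw [h12] at h11
  unfold pd
  rw [h11]
  ring

/-- the columns of the period matrix -/
def col (i : Idx g) : Idx g → ℂ := fun r => A.per r i

theorem perV_col (i : Idx g) : PerV A (col A i) := by
  intro x
  have hp : pr (x + col A i) = pr x + A.lat i := rfl
  have hr : ∀ j, (x + col A i) (Sum.inr j) = x (Sum.inr j) + A.lin i j := fun j => rfl
  set E : ℂ := Complex.exp ((∑ k, A.lin i k * pr x k) + A.cst i) with hE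
  have hθ : A.θ (pr x + A.lat i) = E * A.θ (pr x) := A.θ_aut i (pr x)
  refine ⟨E ^ (A.wt + 1), pow_ne_zero _ (Complex.exp_ne_zero _), ?_, ?_⟩
  · intro e
    cases e with
    | inl k =>
      simp only [nu, Sum.elim_inl]
      rw [hp, hθ, A.num_aut k i (pr x)]
      have h1 : Complex.exp (A.wt * ((∑ k, A.lin i k * pr x k) + A.cst i)) = E ^ A.wt := by
        rw [hE, ← Complex.exp_nat_mul]
      rw [h1]
      ring
    | inr j =>
      simp only [nu, Sum.elim_inr]
      rw [hr j, hp, hθ, pd_theta A i j (pr x), ← hE]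
      ring
  · rw [hp, hθ]
    ring

/-- the group of periods -/
def perG : AddSubgroup (Idx g → ℂ) where
  carrier := {v | PerV A v}
  zero_mem' := fun x => ⟨1, one_ne_zero, fun e => by rw [add_zero, one_mul], by
    rw [add_zero, one_mul]⟩
  add_mem' := by
    intro v w hv hw x
    obtain ⟨c, hc, h1, h2⟩ := hv x
    obtain ⟨c', hc', h1', h2'⟩ := hw (x + v)
    refine ⟨c' * c, mul_ne_zero hc' hc, fun e => ?_, ?_⟩
    · rw [← add_assoc, h1' e, h1 e]; ring
    · rw [← add_assoc, h2', h2]; ring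
  neg_mem' := by
    intro v hv x
    obtain ⟨c, hc, h1, h2⟩ := hv (x + -v)
    refine ⟨c⁻¹, inv_ne_zero hc, fun e => ?_, ?_⟩
    · have h3 := h1 e
      rw [neg_add_cancel_right] at h3
      rw [h3]
      field_simp
    · rw [neg_add_cancel_right] at h2
      rw [h2]
      field_simp

theorem perV_int (n : Idx g → ℤ) : PerV A (A.per *ᵥ (fun i => (n i : ℂ))) := by
  have h1 : A.per *ᵥ (fun i => (n i : ℂ)) = ∑ i, n i • col A i := by
    funext r
    rw [Finset.sum_apply]
    simp only [Matrix.mulVec, dotProduct]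
    refine Finset.sum_congr rfl fun i _ => ?_
    rw [Pi.smul_apply, zsmul_eq_mul, mul_comm]
    rfl
  rw [h1]
  exact (perG A).sum_mem fun i _ => (perG A).zsmul_mem (perV_col A i) (n i)

end Num

/-! ### the data -/

section Data

variable {g : ℕ} (A : AbVar g) {d S : ℕ} (M : Fin S → Matrix (Idx g) (Fin d) ℂ)

/-- the denominator of one factor -/
def th (s : Fin S) (w : Fin d → ℂ) : ℂ := A.θ (pr (M s *ᵥ w)) ^ (A.wt + 1)

/-- common denominator -/
def bb (w : Fin d → ℂ) : ℂ := ∏ s, th A M s w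

/-- numerators -/
def aa (e : Fin S × (Fin A.nfun ⊕ Fin g)) (w : Fin d → ℂ) : ℂ :=
  nu A e.2 (M e.1 *ᵥ w) * ∏ s ∈ Finset.univ.erase e.1, th A M s w

theorem bb_ne {w : Fin d → ℂ} : bb A M w ≠ 0 ↔ ∀ s, A.θ (pr (M s *ᵥ w)) ≠ 0 := by
  unfold bb th
  rw [Finset.prod_ne_zero_iff]
  constructor
  · intro h s h0
    exact h s (Finset.mem_univ s) (by rw [h0, zero_pow (Nat.succ_ne_zero _)])
  · intro h s _
    exact pow_ne_zero _ (h s)

theorem aa_div (e : Fin S × (Fin A.nfun ⊕ Fin g)) {w : Fin d → ℂ} (hw : bb A M w ≠ 0) :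
    aa A M e w / bb A M w = A.fH e.2 (M e.1 *ᵥ w) := by
  have h1 := (bb_ne A M).1 hw
  unfold aa bb
  rw [← Finset.mul_prod_erase Finset.univ _ (Finset.mem_univ e.1)]
  have h2 : ∏ s ∈ Finset.univ.erase e.1, th A M s w ≠ 0 := by
    rw [Finset.prod_ne_zero_iff]
    intro s _
    exact pow_ne_zero _ (h1 s)
  rw [mul_div_mul_right _ _ h2]
  exact nu_div A e.2 _ (h1 e.1)

theorem prod_diff {d : ℕ} {κ : Type} (s : Finset κ) (F : κ → (Fin d → ℂ) → ℂ)
    (h : ∀ k ∈ s, Differentiable ℂ (F k)) : Differentiable ℂ (fun z => ∏ k ∈ s, F k z) := by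
  classical
  induction s using Finset.induction_on with
  | empty => simp
  | insert a s ha ih =>
    simp only [Finset.prod_insert ha]
    exact (h a (Finset.mem_insert_self a s)).mul
      (ih fun k hk => h k (Finset.mem_insert_of_mem hk))

theorem div_diff {E : Type} [NormedAddCommGroup E] [NormedSpace ℂ E] {F G : E → ℂ} {z : E}
    (hF : DifferentiableAt ℂ F z) (hG : DifferentiableAt ℂ G z) (h : G z ≠ 0) :
    DifferentiableAt ℂ (fun z => F z / G z) z := by
  simp only [div_eq_mul_inv]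
  exact hF.mul (hG.inv h)

theorem th_diff (s : Fin S) : Differentiable ℂ (th A M s) := by
  have h1 : Differentiable ℂ (fun w : Fin d → ℂ => pr (M s *ᵥ w)) :=
    ((pL g).comp (mL (M s))).differentiable
  exact (A.θ_entire.comp h1).pow _

theorem bb_diff : Differentiable ℂ (bb A M) := by
  exact prod_diff _ _ fun s _ => th_diff A M s

theorem nu_diff (hpd : ∀ j, Differentiable ℂ (pd j A.θ)) (e : Fin A.nfun ⊕ Fin g)
    (N : Matrix (Idx g) (Fin d) ℂ) : Differentiable ℂ (fun w : Fin d → ℂ => nu A e (N *ᵥ w)) := by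
  have h1 : Differentiable ℂ (fun w : Fin d → ℂ => pr (N *ᵥ w)) :=
    ((pL g).comp (mL N)).differentiable
  have h2 : Differentiable ℂ (fun w : Fin d → ℂ => A.θ (pr (N *ᵥ w))) := A.θ_entire.comp h1
  cases e with
  | inl k =>
    exact ((A.num_entire k).comp h1).mul h2
  | inr j =>
    have h3 : Differentiable ℂ (fun w : Fin d → ℂ => (N *ᵥ w) (Sum.inr j)) :=
      ((ContinuousLinearMap.proj (Sum.inr j)).comp (mL N)).differentiable
    exact ((((hpd j).comp h1).sub ((h3.const_add _).mul h2))).mul (h2.pow _)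

theorem th_gr (hθ : Gr A.θ) (s : Fin S) : Gr (th A M s) :=
  (hθ.comp ((pL g).comp (mL (M s)))).pow _

theorem nu_gr (hθ : Gr A.θ) (hnum : ∀ k, Gr (A.num k)) (hpd : ∀ j, Gr (pd j A.θ))
    (e : Fin A.nfun ⊕ Fin g) (N : Matrix (Idx g) (Fin d) ℂ) :
    Gr (fun w : Fin d → ℂ => nu A e (N *ᵥ w)) := by
  have h2 : Gr (fun w : Fin d → ℂ => A.θ (pr (N *ᵥ w))) := hθ.comp ((pL g).comp (mL N))
  cases e with
  | inl k =>
    exact ((hnum k).comp ((pL g).comp (mL N))).mul h2
  | inr j =>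
    have h3 : Gr (fun w : Fin d → ℂ => (N *ᵥ w) (Sum.inr j)) :=
      Gr.lin ((ContinuousLinearMap.proj (Sum.inr j)).comp (mL N))
    exact ((((hpd j).comp ((pL g).comp (mL N))).sub
      (((Gr.const (A.Z j 0)).add h3).mul h2))).mul (h2.pow _)

theorem rename_alg {σ τ : Type} (f : σ → τ) (hf : Function.Injective f)
    (P : MvPolynomial σ ℂ) (hP : AlgPoly P) : AlgPoly (MvPolynomial.rename f P) := by
  classical
  intro m
  by_cases hm : m ∈ Set.range (Finsupp.mapDomain f)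
  · obtain ⟨m', rfl⟩ := hm
    rw [MvPolynomial.coeff_rename_mapDomain f hf]
    exact hP m'
  · rw [MvPolynomial.coeff_rename_eq_zero]
    · exact isAlgebraic_zero
    · intro u hu
      exact absurd ⟨u, hu⟩ hm

theorem add_alg {σ : Type} {P Q : MvPolynomial σ ℂ} (hP : AlgPoly P) (hQ : AlgPoly Q) :
    AlgPoly (P + Q) := by
  intro m
  rw [MvPolynomial.coeff_add]
  exact (hP m).add (hQ m)

theorem C_alg {σ : Type} {c : ℂ} (hc : IsAlgebraic ℚ c) : AlgPoly (MvPolynomial.C c : MvPolynomial σ ℂ) := by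
  classical
  intro m
  rw [MvPolynomial.coeff_C]
  split_ifs
  · exact hc
  · exact isAlgebraic_zero

theorem C_mul_alg {σ : Type} {c : ℂ} (hc : IsAlgebraic ℚ c) {P : MvPolynomial σ ℂ}
    (hP : AlgPoly P) : AlgPoly (MvPolynomial.C c * P) := by
  intro m
  rw [MvPolynomial.coeff_C_mul]
  exact hc.mul (hP m)

theorem sum_alg {σ κ : Type} (s : Finset κ) (P : κ → MvPolynomial σ ℂ)
    (h : ∀ k ∈ s, AlgPoly (P k)) : AlgPoly (∑ k ∈ s, P k) := by
  intro m
  rw [MvPolynomial.coeff_sum]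
  exact AbVar.isAlgebraic_sum _ _ fun k hk => h k hk m

/-- the derivatives of the functions -/
theorem fH_der (hM : ∀ s i j, IsAlgebraic ℚ (M s i j)) (hpd : ∀ j, Differentiable ℂ (pd j A.θ))
    (l : Fin d) (e : Fin S × (Fin A.nfun ⊕ Fin g)) :
    ∃ P : MvPolynomial (Fin S × (Fin A.nfun ⊕ Fin g)) ℂ, AlgPoly P ∧ ∀ w, bb A M w ≠ 0 →
      pd l (fun w => aa A M e w / bb A M w) w
        = MvPolynomial.eval (fun e' => aa A M e' w / bb A M w) P := by
  obtain ⟨s, e⟩ := e
  -- the functions agree near w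
  have hev : ∀ w, bb A M w ≠ 0 → pd l (fun w => aa A M (s, e) w / bb A M w) w
      = pd l (fun w => A.fH e (M s *ᵥ w)) w := by
    intro w hw
    have h1 : (fun w => aa A M (s, e) w / bb A M w) =ᶠ[𝓝 w] fun w => A.fH e (M s *ᵥ w) := by
      have h2 : ∀ᶠ w' in 𝓝 w, bb A M w' ≠ 0 :=
        (bb_diff A M).continuous.continuousAt.eventually_ne hw
      filter_upwards [h2] with w' hw'
      exact aa_div A M (s, e) hw'
    unfold pd
    rw [h1.fderiv_eq]
  have hren : ∀ (P : MvPolynomial (Fin A.nfun) ℂ) (w : Fin d → ℂ), bb A M w ≠ 0 →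
      MvPolynomial.eval (fun e' => aa A M e' w / bb A M w)
        (MvPolynomial.rename (fun k => (s, Sum.inl k)) P)
        = MvPolynomial.eval (fun k => A.num k (pr (M s *ᵥ w)) / A.θ (pr (M s *ᵥ w)) ^ A.wt) P := by
    intro P w hw
    rw [MvPolynomial.eval_rename]
    congr 2
    funext k
    exact aa_div A M (s, Sum.inl k) hw
  have hinj : Function.Injective (fun k : Fin A.nfun => ((s, Sum.inl k) :
      Fin S × (Fin A.nfun ⊕ Fin g))) := by
    intro a b h
    simpa using h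
  cases e with
  | inl k =>
    choose P hP1 hP2 using fun i => A.alg_f i k
    refine ⟨∑ i, MvPolynomial.C (M s (Sum.inl i) l) *
      MvPolynomial.rename (fun k => (s, Sum.inl k)) (P i), ?_, ?_⟩
    · exact sum_alg _ _ fun i _ => C_mul_alg (hM s _ _) (rename_alg _ hinj _ (hP1 i))
    · intro w hw
      have hθ := (bb_ne A M).1 hw s
      rw [hev w hw]
      have h1 : DifferentiableAt ℂ (A.f k) (pr (M s *ᵥ w)) :=
        div_diff (A.num_entire k _) ((A.θ_entire _).pow _) (pow_ne_zero _ hθ)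
      have h2 := pd_comp (M s) (A.f k) w h1 l
      have h3 : (fun w => A.fH (Sum.inl k) (M s *ᵥ w)) = fun w => A.f k (pr (M s *ᵥ w)) := rfl
      rw [h3, h2, map_sum]
      refine Finset.sum_congr rfl fun i _ => ?_
      rw [map_mul, MvPolynomial.eval_C, hren _ w hw]
      congr 1
      exact hP2 i _ hθ
  | inr j =>
    choose P hP1 hP2 using fun i => A.alg_θ i j
    refine ⟨(∑ i, MvPolynomial.C (M s (Sum.inl i) l) *
      MvPolynomial.rename (fun k => (s, Sum.inl k)) (P i)) +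
        MvPolynomial.C (-M s (Sum.inr j) l), ?_, ?_⟩
    · exact add_alg (sum_alg _ _ fun i _ => C_mul_alg (hM s _ _) (rename_alg _ hinj _ (hP1 i)))
        (C_alg (hM s _ _).neg)
    · intro w hw
      have hθ := (bb_ne A M).1 hw s
      rw [hev w hw]
      have h1 : DifferentiableAt ℂ (A.Z j) (pr (M s *ᵥ w)) :=
        div_diff (hpd j _) (A.θ_entire _) hθ
      have h2 := pd_comp (M s) (A.Z j) w h1 l
      have h3 : (fun w => A.fH (Sum.inr j) (M s *ᵥ w))
          = fun w => (A.Z j (pr (M s *ᵥ w)) - A.Z j 0) - (M s *ᵥ w) (Sum.inr j) := rfl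
      let ψ : (Fin d → ℂ) →L[ℂ] ℂ := (ContinuousLinearMap.proj (Sum.inr j)).comp (mL (M s))
      have h4 : HasFDerivAt (fun w : Fin d → ℂ => (M s *ᵥ w) (Sum.inr j)) ψ w := ψ.hasFDerivAt
      have h5 : DifferentiableAt ℂ (fun w : Fin d → ℂ => A.Z j (pr (M s *ᵥ w))) w := by
        have h6 : DifferentiableAt ℂ (fun w : Fin d → ℂ => pr (M s *ᵥ w)) w :=
          ((pL g).comp (mL (M s))).differentiableAt
        exact DifferentiableAt.comp w h1 h6
      have h7 := (h5.hasFDerivAt.sub_const (A.Z j 0)).sub h4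
      have h8 : pd l (fun w => A.fH (Sum.inr j) (M s *ᵥ w)) w
          = pd l (fun w => A.Z j (pr (M s *ᵥ w))) w - M s (Sum.inr j) l := by
        rw [h3]
        unfold pd
        have h9 := h7.fderiv
        have h10 : (fun w : Fin d → ℂ => (A.Z j (pr (M s *ᵥ w)) - A.Z j 0)
            - (M s *ᵥ w) (Sum.inr j)) = ((fun w : Fin d → ℂ => (A.Z j (pr (M s *ᵥ w)) - A.Z j 0))
            - fun w : Fin d → ℂ => (M s *ᵥ w) (Sum.inr j)) := rfl
        rw [h10, h9, _root_.sub_apply]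
        congr 1
        change (M s *ᵥ (Pi.single l 1)) (Sum.inr j) = _
        rw [Matrix.mulVec_single_one]
        rfl
      rw [h8, h2, map_add, map_sum, MvPolynomial.eval_C, sub_eq_add_neg]
      congr 1
      refine Finset.sum_congr rfl fun i _ => ?_
      rw [map_mul, MvPolynomial.eval_C, hren _ w hw]
      congr 1
      exact hP2 i _ hθ

end Data

end SlavX

open SlavX in
theorem slav_proof (hTd : Stmt_Td) (hGrow : Stmt_Grow) (hGrowD : Stmt_GrowD) : Stmt_Slav := by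
  intro g A d S M u hd hM hu hper F
  -- growth
  have hθ : Gr A.θ := hGrow g A.lat A.lat_indep A.θ A.lin A.cst A.θ_entire A.θ_aut
  have hnum : ∀ k, Gr (A.num k) := by
    intro k
    apply hGrow g A.lat A.lat_indep (A.num k) (fun i j => A.wt * A.lin i j)
      (fun i => A.wt * A.cst i) (A.num_entire k)
    intro i z
    rw [A.num_aut k i z, mul_add, Finset.mul_sum]
    simp only [mul_assoc]
  have hpd : ∀ j, Differentiable ℂ (pd j A.θ) ∧ Gr (pd j A.θ) := fun j =>
    hGrowD g A.θ j A.θ_entire hθ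
  classical
  let e := Fintype.equivFin (Fin S × (Fin A.nfun ⊕ Fin g))
  have hagr : ∀ k, Gr (aa A M (e.symm k)) := by
    intro k
    exact (nu_gr A hθ hnum (fun j => (hpd j).2) _ _).mul
      (Gr.prod _ _ fun s _ => th_gr A M hθ s)
  have hbgr : Gr (bb A M) := Gr.prod _ _ fun s _ => th_gr A M hθ s
  have hb0 : bb A M 0 ≠ 0 := by
    rw [bb_ne]
    intro s
    rw [Matrix.mulVec_zero]
    exact A.θ_zero
  let D : SLData d (Fintype.card (Fin S × (Fin A.nfun ⊕ Fin g))) :=
    { a := fun k => aa A M (e.symm k)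
      b := bb A M
      a_entire := by
        intro k
        exact (nu_diff A (fun j => (hpd j).1) _ _).mul
          (prod_diff _ _ fun s _ => th_diff A M s)
      b_entire := bb_diff A M
      b_zero := hb0
      growth := by
        choose C hC0 hC using fun k => (hagr k).nonneg
        obtain ⟨C', hC'0, hC'⟩ := hbgr.nonneg
        refine ⟨(∑ k, C k) + C', fun k z => (hC k z).trans ?_, fun z => (hC' z).trans ?_⟩
        · apply Real.exp_le_exp.2
          apply mul_le_mul_of_nonneg_right _ (by positivity)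
          have h1 : C k ≤ ∑ k, C k := Finset.single_le_sum (fun k _ => hC0 k) (Finset.mem_univ k)
          linarith
        · apply Real.exp_le_exp.2
          apply mul_le_mul_of_nonneg_right _ (by positivity)
          have h1 : 0 ≤ ∑ k, C k := Finset.sum_nonneg fun k _ => hC0 k
          linarith
      u := u
      u_indep := hu
      per := by
        intro j k z
        -- factors
        have hfac : ∀ s, ∃ c : ℂ, (∀ e, nu A e (M s *ᵥ (z + u j)) = c * nu A e (M s *ᵥ z)) ∧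
            th A M s (z + u j) = c * th A M s z := by
          intro s
          obtain ⟨n, hn⟩ := hper s j
          obtain ⟨c, -, h1, h2⟩ := perV_int A n (M s *ᵥ z)
          refine ⟨c, ?_, ?_⟩
          · intro e
            rw [Matrix.mulVec_add, hn]
            exact h1 e
          · unfold th
            rw [Matrix.mulVec_add, hn]
            exact h2
        choose c hc1 hc2 using hfac
        obtain ⟨s, e'⟩ := e.symm k
        simp only [aa, bb]
        rw [hc1 s e']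
        simp only [hc2, Finset.prod_mul_distrib]
        rw [← Finset.mul_prod_erase Finset.univ c (Finset.mem_univ s)]
        ring
      der := by
        intro l k
        obtain ⟨P, hP1, hP2⟩ := fH_der A M hM (fun j => (hpd j).1) l (e.symm k)
        refine ⟨MvPolynomial.rename e P, rename_alg _ e.injective _ hP1, fun z hz => ?_⟩
        rw [MvPolynomial.eval_rename, hP2 z hz]
        congr 2
        funext e'
        simp [Function.comp]
      alg0 := by
        intro k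
        rw [aa_div A M (e.symm k) hb0, Matrix.mulVec_zero]
        obtain ⟨s, e'⟩ := e.symm k
        cases e' with
        | inl k => exact A.alg_zero k
        | inr j =>
          have : A.fH (Sum.inr j) (0 : Idx g → ℂ) = 0 := by
            change A.Z j (pr 0) - A.Z j 0 - (0 : Idx g → ℂ) (Sum.inr j) = 0
            have h1 : pr (0 : Idx g → ℂ) = 0 := rfl
            rw [h1]
            simp
          simp only [this]
          exact isAlgebraic_zero }
  obtain ⟨R, hR0, hR⟩ := hTd d _ D (fun i => e (F i)) hd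
  refine ⟨R, hR0, fun w hw => ?_⟩
  have hbw : bb A M w ≠ 0 := (bb_ne A M).2 hw
  have h1 := hR w hbw
  have h2 : (fun i => A.fH (F i).2 (M (F i).1 *ᵥ w)) = fun i => D.a (e (F i)) w / D.b w := by
    funext i
    change _ = aa A M (e.symm (e (F i))) w / bb A M w
    rw [Equiv.symm_apply_apply, aa_div A M (F i) hbw]
  rw [h2]
  exact h1

end

end Pool.Agent.DRB
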