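import Pool.Agent.DRB.Stmts

/-!
# De Rham-Betti squad, module T1: there is no proper de Rham-Betti subobject of `H_1(A)` which maps
onto `Lie A`
-/

open scoped BigOperators
open Matrix

namespace Pool.Agent.DRB

noncomputable section

namespace T1X

/-- A spanning set contains a basis. -/
theorem exists_basis {κ : Type} [Fintype κ] (E : Submodule ℂ (κ → ℂ)) (s : Set (κ → ℂ))
    (hs : Submodule.span ℂ s = E) (d : ℕ) (hd : Module.finrank ℂ E = d) :
    ∃ m : Fin d → (κ → ℂ), (∀ j, m j ∈ s) ∧ LinearIndependent ℂ m ∧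
      Submodule.span ℂ (Set.range m) = E := by
  classical
  obtain ⟨b, hbs, hspan, hli⟩ := exists_linearIndependent ℂ s
  haveI : Finite b := hli.finite
  haveI := Fintype.ofFinite b
  have hcard : Fintype.card b = d := by
    rw [← hd, ← hs, ← hspan]
    have h1 := finrank_span_eq_card hli
    rw [Subtype.range_coe] at h1
    exact h1.symm
  let e : Fin d ≃ b := (Fintype.equivFinOfCardEq hcard).symm
  refine ⟨fun j => (e j : κ → ℂ), fun j => hbs (e j).2, hli.comp e e.injective, ?_⟩
  have h2 : Set.range (fun j => (e j : κ → ℂ)) = b := by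
    ext v
    constructor
    · rintro ⟨j, rfl⟩
      exact (e j).2
    · intro hv
      exact ⟨e.symm ⟨v, hv⟩, by simp⟩
  rw [h2, hspan, hs]

/-- Clearing denominators. -/
theorem clear_den {κ : Type} [Fintype κ] (v : κ → ℂ) (hv : ∀ k, ∃ q : ℚ, v k = q) :
    ∃ (N : ℂˣ) (n : κ → ℤ), N • v = fun k => (n k : ℂ) := by
  classical
  choose q hq using hv
  set N : ℕ := ∏ k, (q k).den with hN
  have hN0 : N ≠ 0 := Finset.prod_ne_zero_iff.mpr fun k _ => (q k).den_nz
  have h1 : ∀ k, ∃ c : ℕ, N = (q k).den * c := fun k =>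
    Finset.dvd_prod_of_mem (fun k => (q k).den) (Finset.mem_univ k)
  choose c hc using h1
  refine ⟨Units.mk0 (N : ℂ) (by exact_mod_cast hN0), fun k => (q k).num * c k, ?_⟩
  funext k
  rw [Pi.smul_apply, Units.smul_mk0, smul_eq_mul, hq k]
  have h2 : (N : ℚ) * q k = (q k).num * c k := by
    have h3 := Rat.den_mul_eq_num (q k)
    rw [hc k]
    push_cast
    linear_combination (c k : ℚ) * h3
  have h4 := congrArg (Rat.cast : ℚ → ℂ) h2
  push_cast at h4 ⊢
  exact h4

end T1X

open T1X in
theorem t1_proof (hSlav : Stmt_Slav) (hIndep : Stmt_Indep) : Stmt_T1 := by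
  classical
  intro g A D hrat halg hsurj
  rcases Nat.eq_zero_or_pos g with hg | hg
  · subst hg
    refine Submodule.eq_top_iff'.mpr fun x => ?_
    have hx : x = 0 := by
      funext i
      rcases i with i | i <;> exact i.elim0
    rw [hx]
    exact D.zero_mem
  by_contra hD
  -- the matrix of periods is injective
  have hPu : IsUnit A.per := (Matrix.isUnit_iff_isUnit_det _).mpr A.nondeg
  have hPinj : Function.Injective A.per.mulVecLin := by
    have := Matrix.mulVec_injective_of_isUnit hPu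
    exact this
  have hPker : LinearMap.ker A.per.mulVecLin = ⊥ := LinearMap.ker_eq_bot.mpr hPinj
  set D' : Submodule ℂ (Idx g → ℂ) := D.map A.per.mulVecLin with hD'
  set d : ℕ := Module.finrank ℂ D with hd
  have hd' : Module.finrank ℂ D' = d :=
    (LinearEquiv.finrank_eq (Submodule.equivMapOfInjective _ hPinj D)).symm
  -- a basis of rational vectors and a basis of algebraic vectors
  have hspanQ : Submodule.span ℂ {v | v ∈ D ∧ ∀ k, ∃ q : ℚ, v k = q} = D :=
    le_antisymm (Submodule.span_le.mpr fun v hv => hv.1) hrat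
  have hspanA : Submodule.span ℂ {v | v ∈ D' ∧ ∀ k, IsAlgebraic ℚ (v k)} = D' :=
    le_antisymm (Submodule.span_le.mpr fun v hv => hv.1) halg
  obtain ⟨v, hv, hvli, hvspan⟩ := exists_basis D _ hspanQ d rfl
  obtain ⟨m, hm, hmli, hmspan⟩ := exists_basis D' _ hspanA d hd'
  choose N n hn using fun j => clear_den (v j) (hv j).2
  set M : Matrix (Idx g) (Fin d) ℂ := Matrix.of fun i j => m j i with hM
  have hMv : ∀ w : Fin d → ℂ, M *ᵥ w = ∑ j, w j • m j := by
    intro w
    funext i
    rw [Matrix.mulVec, dotProduct, Finset.sum_apply]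
    refine Finset.sum_congr rfl fun j _ => ?_
    rw [Pi.smul_apply, smul_eq_mul, hM, Matrix.of_apply, mul_comm]
  have hrange : ∀ x ∈ D', ∃ w : Fin d → ℂ, M *ᵥ w = x := by
    intro x hx
    rw [← hmspan, Submodule.mem_span_range_iff_exists_fun] at hx
    obtain ⟨w, hw⟩ := hx
    exact ⟨w, by rw [hMv, hw]⟩
  have hnD : ∀ j, (fun k => (n j k : ℂ)) ∈ D := by
    intro j
    rw [← hn j]
    exact D.smul_mem _ (hv j).1
  have hPn : ∀ j, ∃ u : Fin d → ℂ, M *ᵥ u = A.per *ᵥ (fun k => (n j k : ℂ)) := fun j =>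
    hrange _ ⟨_, hnD j, rfl⟩
  choose u hu using hPn
  have huli : LinearIndependent ℂ u := by
    have h1 : LinearIndependent ℂ (fun j => (fun k => (n j k : ℂ))) := by
      have h2 := hvli.units_smul N
      have h3 : N • v = fun j => (fun k => (n j k : ℂ)) := by
        funext j
        rw [Pi.smul_apply', hn j]
      rwa [h3] at h2
    have h4 := h1.map' A.per.mulVecLin hPker
    have h5 : (A.per.mulVecLin ∘ fun j => (fun k => (n j k : ℂ))) = M.mulVecLin ∘ u := by
      funext j
      rw [Function.comp_apply, Function.comp_apply, Matrix.mulVecLin_apply,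
        Matrix.mulVecLin_apply, hu j]
    rw [h5] at h4
    exact h4.of_comp _
  -- dimensions
  have hd1 : 1 ≤ d := by
    by_contra h0
    have h1 : Module.finrank ℂ D = 0 := by omega
    rw [Submodule.finrank_eq_zero] at h1
    obtain ⟨x, hx, hxz⟩ := hsurj (fun _ => 1)
    rw [h1, Submodule.mem_bot] at hx
    rw [hx, Matrix.mulVec_zero] at hxz
    have h2 := congrFun hxz ⟨0, hg⟩
    simp [pr] at h2
  have hd2 : d + 1 ≤ g + g := by
    have h1 := Submodule.finrank_lt hD
    have h2 : Module.finrank ℂ (Idx g → ℂ) = g + g := by simp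
    omega
  -- the two theorems
  obtain ⟨ks, hks⟩ := hIndep g A d M (by
    intro z
    obtain ⟨x, hx, hxz⟩ := hsurj z
    obtain ⟨w, hw⟩ := hrange (A.per *ᵥ x) ⟨x, hx, rfl⟩
    exact ⟨w, by rw [hw, hxz]⟩)
  obtain ⟨ε⟩ : Nonempty (Fin (d + 1) ↪ Fin g ⊕ Fin g) :=
    Function.Embedding.nonempty_of_card_le (by simpa using hd2)
  obtain ⟨R, hR0, hR⟩ := hSlav g A d 1 (fun _ => M) u hd1
    (fun _ i j => (hm j).2 i) huli (fun _ j => ⟨n j, hu j⟩)
    (fun i => (0, Sum.map ks id (ε i)))
  have h1 : MvPolynomial.rename ε R = 0 := by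
    refine hks _ fun w hw => ?_
    rw [MvPolynomial.eval_rename]
    exact hR w (fun _ => hw)
  exact hR0 (MvPolynomial.rename_injective ε ε.injective (by rw [h1, map_zero]))

end

end Pool.Agent.DRB
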