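import Pool.Agent.DRB.Stmts

/-!
# De Rham-Betti conjecture, module T2: de Rham-Betti endomorphisms are endomorphisms
-/

open scoped BigOperators Topology
open Matrix Filter

namespace Pool.Agent.DRB

noncomputable section

namespace T2X

/-! ### A limit lemma -/

theorem lead_lim (P : Polynomial (Polynomial ℂ)) (t y : ℕ → ℂ) (y0 : ℂ)
    (ht : Tendsto (fun n => ‖t n‖) atTop atTop) (hy : Tendsto y atTop (𝓝 y0))
    (h : ∀ᶠ n in atTop, (P.eval (Polynomial.C (t n))).eval (y n) = 0) :
    P.leadingCoeff.eval y0 = 0 := by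
  have hev : ∀ (s w : ℂ), (P.eval (Polynomial.C s)).eval w =
      ∑ m ∈ Finset.range (P.natDegree + 1), (P.coeff m).eval w * s ^ m := by
    intro s w
    rw [Polynomial.eval_eq_sum_range (p := P), Polynomial.eval_finsetSum]
    refine Finset.sum_congr rfl fun m _ => ?_
    rw [Polynomial.eval_mul, Polynomial.eval_pow, Polynomial.eval_C]
  have hinv : Tendsto (fun n => (t n)⁻¹) atTop (𝓝 0) :=
    tendsto_inv₀_cobounded.comp (tendsto_norm_atTop_iff_cobounded.mp ht)
  have hne : ∀ᶠ n in atTop, t n ≠ 0 := by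
    filter_upwards [ht.eventually_gt_atTop 0] with n hn
    exact norm_pos_iff.mp hn
  have hlim : Tendsto (fun n => (∑ m ∈ Finset.range P.natDegree,
      (P.coeff m).eval (y n) * (t n)⁻¹ ^ (P.natDegree - m)) + P.leadingCoeff.eval (y n)) atTop
      (𝓝 (0 + P.leadingCoeff.eval y0)) := by
    apply Tendsto.add
    · have h0 : (0 : ℂ) = ∑ m ∈ Finset.range P.natDegree, (P.coeff m).eval y0 * 0 := by simp
      rw [h0]
      refine tendsto_finsetSum _ fun m hm => ?_
      refine Tendsto.mul (((P.coeff m).continuous.tendsto y0).comp hy) ?_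
      have h1 : P.natDegree - m ≠ 0 := by
        have := Finset.mem_range.mp hm
        omega
      have h2 := hinv.pow (P.natDegree - m)
      rwa [zero_pow h1] at h2
    · exact (P.leadingCoeff.continuous.tendsto y0).comp hy
  rw [zero_add] at hlim
  have hz : ∀ᶠ n in atTop, (∑ m ∈ Finset.range P.natDegree,
      (P.coeff m).eval (y n) * (t n)⁻¹ ^ (P.natDegree - m)) + P.leadingCoeff.eval (y n) = 0 := by
    filter_upwards [h, hne] with n hn hn'
    rw [hev, Finset.sum_range_succ] at hn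
    have h3 : (∑ m ∈ Finset.range P.natDegree,
        (P.coeff m).eval (y n) * (t n)⁻¹ ^ (P.natDegree - m)) + P.leadingCoeff.eval (y n) =
        (t n)⁻¹ ^ P.natDegree * (∑ m ∈ Finset.range P.natDegree,
          (P.coeff m).eval (y n) * t n ^ m +
          (P.coeff P.natDegree).eval (y n) * t n ^ P.natDegree) := by
      rw [mul_add, Finset.mul_sum]
      congr 1
      · refine Finset.sum_congr rfl fun m hm => ?_
        have h4 : P.natDegree = (P.natDegree - m) + m := by
          have := Finset.mem_range.mp hm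
          omega
        have h5 : (t n)⁻¹ ^ P.natDegree = (t n)⁻¹ ^ (P.natDegree - m) * (t n)⁻¹ ^ m := by
          rw [← pow_add, ← h4]
        have h6 : (t n)⁻¹ ^ m * t n ^ m = 1 := by
          rw [← mul_pow, inv_mul_cancel₀ hn', one_pow]
        rw [h5]
        linear_combination (-((P.coeff m).eval (y n) * (t n)⁻¹ ^ (P.natDegree - m))) * h6
      · have h6 : (t n)⁻¹ ^ P.natDegree * t n ^ P.natDegree = 1 := by
          rw [← mul_pow, inv_mul_cancel₀ hn', one_pow]
        change (P.coeff P.natDegree).eval (y n) = _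
        linear_combination (-((P.coeff P.natDegree).eval (y n))) * h6
    rw [h3, hn, mul_zero]
  exact (tendsto_nhds_unique (hlim.congr' hz) tendsto_const_nhds)

/-! ### Polynomials in two groups of variables -/

/-- substitute `y` for the first variable and `c + t d` for the other variables -/
def subst {σ : Type} (c d : σ → ℂ) (R : MvPolynomial (Option σ) ℂ) :
    Polynomial (Polynomial ℂ) :=
  MvPolynomial.eval₂ ((Polynomial.C).comp Polynomial.C)
    (fun o => Option.elim o (Polynomial.C Polynomial.X)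
      (fun e => Polynomial.C (Polynomial.C (c e)) +
        Polynomial.C (Polynomial.C (d e)) * Polynomial.X)) R

theorem subst_eval {σ : Type} (c d : σ → ℂ) (R : MvPolynomial (Option σ) ℂ) (t y : ℂ) :
    ((subst c d R).eval (Polynomial.C t)).eval y =
      MvPolynomial.eval (fun o => Option.elim o y (fun e => c e + t * d e)) R := by
  unfold subst
  induction R using MvPolynomial.induction_on with
  | C a => simp
  | add p q hp hq =>
    simp only [MvPolynomial.eval₂_add, Polynomial.eval_add, hp, hq, map_add]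
  | mul_X p o hp =>
    simp only [MvPolynomial.eval₂_mul, Polynomial.eval_mul, hp, map_mul, MvPolynomial.eval₂_X,
      MvPolynomial.eval_X]
    congr 1
    cases o with
    | none => simp
    | some e =>
      simp only [Option.elim_some, Polynomial.eval_add, Polynomial.eval_C, Polynomial.eval_mul,
        Polynomial.eval_X]
      ring

theorem subst_ne {σ : Type} (c d : σ → ℂ) (R : MvPolynomial (Option σ) ℂ)
    (h : MvPolynomial.eval c (MvPolynomial.optionEquivLeft ℂ σ R).leadingCoeff ≠ 0) :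
    subst c d R ≠ 0 := by
  intro h0
  have h1 : (MvPolynomial.optionEquivLeft ℂ σ R).map (MvPolynomial.eval c) = 0 := by
    apply Polynomial.funext
    intro y
    have h2 := subst_eval c d R 0 y
    rw [h0] at h2
    simp only [Polynomial.eval_zero, zero_mul, add_zero] at h2
    have h3 := MvPolynomial.optionEquivLeft_elim_eval ℂ σ c y R
    rw [← h3, ← h2, Polynomial.eval_zero]
  apply h
  have h2 := congrArg (fun q => Polynomial.coeff q
    (MvPolynomial.optionEquivLeft ℂ σ R).natDegree) h1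
  rw [Polynomial.coeff_map, Polynomial.coeff_zero] at h2
  exact h2

/-! ### Periods -/

variable {g : ℕ} (A : AbVar g)

/-- `l` is a period of the functions `f k` -/
def Inv (l : Fin g → ℂ) : Prop :=
  ∀ z, A.θ z ≠ 0 → A.θ (z + l) ≠ 0 ∧ ∀ k, A.f k (z + l) = A.f k z

theorem inv_lat (hQ : Stmt_Qp) (i : Idx g) : Inv A (A.lat i) := fun z hz =>
  ⟨(hQ g A i z hz).1, (hQ g A i z hz).2.1⟩

theorem inv_neg_lat (hQ : Stmt_Qp) (i : Idx g) : Inv A (-(A.lat i)) := by
  intro z hz
  have h1 : A.θ (z + -(A.lat i)) ≠ 0 := by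
    intro h0
    apply hz
    have h2 := A.θ_aut i (z + -(A.lat i))
    rw [h0, mul_zero, neg_add_cancel_right] at h2
    exact h2
  refine ⟨h1, fun k => ?_⟩
  have h3 := (hQ g A i (z + -(A.lat i)) h1).2.1 k
  rw [neg_add_cancel_right] at h3
  exact h3.symm

/-- the group of periods -/
def perGrp : AddSubgroup (Fin g → ℂ) where
  carrier := {l | Inv A l ∧ Inv A (-l)}
  zero_mem' := by
    constructor <;> intro z hz <;> simp [hz]
  add_mem' := by
    rintro a b ⟨ha, ha'⟩ ⟨hb, hb'⟩
    constructor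
    · intro z hz
      obtain ⟨h1, h2⟩ := ha z hz
      obtain ⟨h3, h4⟩ := hb _ h1
      rw [← add_assoc]
      exact ⟨h3, fun k => by rw [h4, h2]⟩
    · intro z hz
      obtain ⟨h1, h2⟩ := ha' z hz
      obtain ⟨h3, h4⟩ := hb' _ h1
      rw [neg_add, ← add_assoc]
      exact ⟨h3, fun k => by rw [h4, h2]⟩
  neg_mem' := by
    rintro a ⟨ha, ha'⟩
    exact ⟨ha', by rwa [neg_neg]⟩

theorem inv_comb (hQ : Stmt_Qp) (l : Idx g → ℤ) : Inv A (∑ i, (l i : ℂ) • A.lat i) := by
  have h : (∑ i, (l i : ℂ) • A.lat i) ∈ perGrp A := by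
    refine sum_mem fun i _ => ?_
    rw [Int.cast_smul_eq_zsmul]
    exact zsmul_mem (⟨inv_lat A hQ i, inv_neg_lat A hQ i⟩ : A.lat i ∈ perGrp A) _
  exact h.1

/-! ### Clearing denominators -/

theorem f_cont (k : Fin A.nfun) {z : Fin g → ℂ} (hz : A.θ z ≠ 0) : ContinuousAt (A.f k) z := by
  have h : ContinuousAt (fun z => A.num k z / A.θ z ^ A.wt) z :=
    ((A.num_entire k).continuous.continuousAt).div
      ((A.θ_entire.continuous.continuousAt).pow _) (pow_ne_zero _ hz)
  exact h

theorem pr_diff : Differentiable ℂ (fun x : Idx g → ℂ => (pr x : Fin g → ℂ)) := by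
  rw [differentiable_pi]
  intro i
  exact differentiable_apply (Sum.inl i)

theorem clear (hD : ∀ j, Differentiable ℂ (pd j A.θ)) (ks : Fin g → Fin A.nfun)
    (R : MvPolynomial (Fin g ⊕ Fin g) ℂ) :
    ∃ (N : ℕ) (E : (Idx g → ℂ) → ℂ), Differentiable ℂ E ∧ ∀ x, A.θ (pr x) ≠ 0 →
      E x = A.θ (pr x) ^ N * MvPolynomial.eval (fun e => A.fH (Sum.map ks id e) x) R := by
  have hθ : Differentiable ℂ (fun x : Idx g → ℂ => A.θ (pr x)) := A.θ_entire.comp pr_diff
  induction R using MvPolynomial.induction_on with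
  | C a =>
    refine ⟨0, fun _ => a, differentiable_const _, fun x _ => ?_⟩
    simp
  | add p q hp hq =>
    obtain ⟨N, E, hE, h⟩ := hp
    obtain ⟨N', E', hE', h'⟩ := hq
    refine ⟨N + N', fun x => A.θ (pr x) ^ N' * E x + A.θ (pr x) ^ N * E' x,
      ((hθ.pow _).mul hE).add ((hθ.pow _).mul hE'), fun x hx => ?_⟩
    simp only [h x hx, h' x hx, map_add]
    ring
  | mul_X p e hp =>
    obtain ⟨N, E, hE, h⟩ := hp
    cases e with
    | inl k =>
      refine ⟨N + A.wt, fun x => E x * A.num (ks k) (pr x),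
        hE.mul ((A.num_entire _).comp pr_diff), fun x hx => ?_⟩
      simp only [h x hx, map_mul, MvPolynomial.eval_X]
      have h1 : A.fH (Sum.map ks id (Sum.inl k)) x = A.num (ks k) (pr x) / A.θ (pr x) ^ A.wt := rfl
      rw [h1, pow_add]
      have h2 := pow_ne_zero A.wt hx
      field_simp
    | inr j =>
      refine ⟨N + 1, fun x => E x * (pd j A.θ (pr x) - (A.Z j 0 + x (Sum.inr j)) * A.θ (pr x)),
        hE.mul (((hD j).comp pr_diff).sub (((differentiable_apply (Sum.inr j)).const_add _).mul hθ)),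
        fun x hx => ?_⟩
      simp only [h x hx, map_mul, MvPolynomial.eval_X]
      have h1 : A.fH (Sum.map ks id (Sum.inr j)) x =
        pd j A.θ (pr x) / A.θ (pr x) - A.Z j 0 - x (Sum.inr j) := rfl
      rw [h1, pow_add, pow_one]
      field_simp
      ring

/-! ### The main argument -/

/-- At a generic point the function takes finitely many values on the line, so it is constant
near the base point. -/
theorem line_const (hQ : Stmt_Qp) (hRec : Stmt_Recur) (k : Fin A.nfun) (a v : Fin g → ℂ)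
    (P : Polynomial (Polynomial ℂ)) (hP : P ≠ 0)
    (hrel : ∀ s : ℂ, A.θ (a + s • v) ≠ 0 →
      (P.eval (Polynomial.C s)).eval (A.f k (a + s • v)) = 0)
    (r : ℝ) (hr : ∀ s ∈ Metric.ball (0 : ℂ) r, A.θ (a + s • v) ≠ 0) :
    ∀ s ∈ Metric.ball (0 : ℂ) r, A.f k (a + s • v) = A.f k a := by
  obtain ⟨n, l, hn, hl⟩ := hRec g A.lat A.lat_indep v
  have hroot : ∀ s ∈ Metric.ball (0 : ℂ) r, P.leadingCoeff.eval (A.f k (a + s • v)) = 0 := by
    intro s hs
    set ε : ℕ → (Fin g → ℂ) := fun j => (n j : ℂ) • v - ∑ i, (l j i : ℂ) • A.lat i with hε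
    have h1 : Tendsto (fun j => a + s • v + ε j) atTop (𝓝 (a + s • v)) := by
      have := (tendsto_const_nhds (x := a + s • v)).add hl
      rwa [add_zero] at this
    have hθs := hr s hs
    have h2 : ∀ᶠ j in atTop, A.θ (a + s • v + ε j) ≠ 0 :=
      h1.eventually (A.θ_entire.continuous.continuousAt.eventually_ne hθs)
    have h3 : ∀ j, a + (s + (n j : ℂ)) • v = a + s • v + ε j + ∑ i, (l j i : ℂ) • A.lat i := by
      intro j
      have hab : ∀ p q r l : Fin g → ℂ, p + (q + r) = p + q + (r - l) + l := by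
        intro p q r l
        abel
      rw [add_smul]
      exact hab _ _ _ _
    refine lead_lim P (fun j => s + (n j : ℂ)) (fun j => A.f k (a + s • v + ε j)) _ ?_
      ((f_cont A k hθs).tendsto.comp h1) ?_
    · have h4 : Tendsto (fun j => (n j : ℝ) - ‖s‖) atTop atTop := by
        apply tendsto_atTop_add_const_right
        exact tendsto_natCast_atTop_atTop.comp hn.tendsto_atTop
      refine tendsto_atTop_mono (fun j => ?_) h4
      have h5 : ‖(n j : ℂ)‖ ≤ ‖s + (n j : ℂ)‖ + ‖s‖ := by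
        have := norm_sub_le (s + (n j : ℂ)) s
        rwa [add_sub_cancel_left] at this
      rw [Complex.norm_natCast] at h5
      linarith
    · filter_upwards [h2] with j hj
      obtain ⟨h6, h7⟩ := inv_comb A hQ (l j) _ hj
      rw [← h7 k, ← h3 j]
      apply hrel
      rw [h3 j]
      exact h6
  have hlc : P.leadingCoeff ≠ 0 := by
    rwa [Ne, Polynomial.leadingCoeff_eq_zero]
  have hfin : ((P.leadingCoeff.roots.toFinset : Finset ℂ) : Set ℂ).Finite :=
    Finset.finite_toSet _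
  intro s hs
  have h0 : (0 : ℂ) ∈ Metric.ball (0 : ℂ) r :=
    Metric.mem_ball_self (lt_of_le_of_lt (norm_nonneg s) (mem_ball_zero_iff.mp hs))
  have hcont : ContinuousOn (fun s : ℂ => A.f k (a + s • v)) (Metric.ball 0 r) := by
    intro s hs
    have h1 : ContinuousAt (fun s : ℂ => a + s • v) s := by fun_prop
    exact (ContinuousAt.comp (f := fun s : ℂ => a + s • v) (f_cont A k (hr s hs))
      h1).continuousWithinAt
  have hmaps : Set.MapsTo (fun s : ℂ => A.f k (a + s • v)) (Metric.ball 0 r)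
      ((P.leadingCoeff.roots.toFinset : Finset ℂ) : Set ℂ) := by
    intro s hs
    simp only [Finset.mem_coe, Multiset.mem_toFinset]
    rw [Polynomial.mem_roots hlc]
    exact hroot s hs
  have hdisc : IsDiscrete ((P.leadingCoeff.roots.toFinset : Finset ℂ) : Set ℂ) :=
    ⟨hfin.instDiscreteTopology⟩
  have h2 := (convex_ball (0 : ℂ) r).isPreconnected.constant_of_mapsTo hdisc hcont hmaps hs h0
  simpa using h2

/-- The integral case. -/
theorem main (hT : Stmt_T2r) (hI : Stmt_Indep) (hRec : Stmt_Recur) (hQ : Stmt_Qp)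
    (hD : ∀ j, Differentiable ℂ (pd j A.θ)) (α : Matrix (Idx g) (Idx g) ℤ)
    (ρ : Matrix (Idx g) (Idx g) ℂ) (hρ : ∀ r s, IsAlgebraic ℚ (ρ r s))
    (h : A.per * α.map (Int.cast : ℤ → ℂ) = ρ * A.per) (i0 j0 : Fin g) :
    ρ (Sum.inl i0) (Sum.inr j0) = 0 := by
  have hg : 1 ≤ g := Nat.one_le_iff_ne_zero.mpr (by rintro rfl; exact i0.elim0)
  -- all coordinates are allowed
  obtain ⟨ks, hks⟩ : ∃ ks : Fin g → Fin A.nfun, ∀ R : MvPolynomial (Fin g ⊕ Fin g) ℂ,
      (∀ x : Idx g → ℂ, A.θ (pr x) ≠ 0 →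
        MvPolynomial.eval (fun e => A.fH (Sum.map ks id e) x) R = 0) → R = 0 := by
    set e : Fin (g + g) ≃ Idx g := finSumFinEquiv.symm with he
    set M : Matrix (Idx g) (Fin (g + g)) ℂ := (1 : Matrix (Idx g) (Idx g) ℂ).submatrix id e
      with hM
    have hMw : ∀ w : Fin (g + g) → ℂ, M *ᵥ w = fun r => w (e.symm r) := by
      intro w
      funext r
      rw [hM, Matrix.mulVec, dotProduct, ← e.symm.sum_comp]
      simp [Matrix.one_apply]
    obtain ⟨ks, hks⟩ := hI g A (g + g) M (by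
      intro z
      refine ⟨fun q => Sum.elim z z (e q), ?_⟩
      rw [hMw]
      funext k
      simp [pr])
    refine ⟨ks, fun R hR => hks R fun w hw => hR _ hw⟩
  -- the direction
  set e1 : Idx g → ℂ := Pi.single (Sum.inr j0) 1 with he1
  set v : Fin g → ℂ := pr (ρ *ᵥ e1) with hv
  have hvi : v i0 = ρ (Sum.inl i0) (Sum.inr j0) := by
    rw [hv, he1]
    simp [pr]
  suffices hv0 : v = 0 by rw [← hvi, hv0]; rfl
  apply A.imm
  intro k
  -- the relation
  obtain ⟨R, hR0, hR⟩ := hT g A α ρ hg hρ h ks k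
  set Q := MvPolynomial.optionEquivLeft ℂ (Fin g ⊕ Fin g) R with hQdef
  have hQ0 : Q ≠ 0 := by
    intro h0
    apply hR0
    exact (MvPolynomial.optionEquivLeft ℂ (Fin g ⊕ Fin g)).injective (by rw [← hQdef, h0, map_zero])
  have hL0 : Q.leadingCoeff ≠ 0 := by rwa [Ne, Polynomial.leadingCoeff_eq_zero]
  obtain ⟨x1, hx1, hx1'⟩ : ∃ x1 : Idx g → ℂ, A.θ (pr x1) ≠ 0 ∧
      MvPolynomial.eval (fun e => A.fH (Sum.map ks id e) x1) Q.leadingCoeff ≠ 0 := by
    by_contra hcon
    push Not at hcon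
    exact hL0 (hks _ hcon)
  obtain ⟨N, E, hE, hEx⟩ := clear A hD ks Q.leadingCoeff
  have hE1 : E x1 ≠ 0 := by
    rw [hEx x1 hx1]
    exact mul_ne_zero (pow_ne_zero _ hx1) hx1'
  have hline : ∀ᶠ t in 𝓝[≠] (0 : ℂ), E (t • x1) ≠ 0 := by
    have hd : Differentiable ℂ (fun t : ℂ => E (t • x1)) := hE.comp (by fun_prop)
    have han : AnalyticOnNhd ℂ (fun t : ℂ => E (t • x1)) Set.univ :=
      fun t _ => hd.analyticAt t
    rcases (han 0 (Set.mem_univ _)).eventually_eq_zero_or_eventually_ne_zero with h1 | h1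
    · exfalso
      have h2 := han.eqOn_zero_of_preconnected_of_eventuallyEq_zero isPreconnected_univ
        (Set.mem_univ 0) h1 (Set.mem_univ 1)
      apply hE1
      simpa using h2
    · exact h1
  -- a uniform radius
  have hc : Continuous (fun p : ℂ × ℂ => A.θ (pr (ρ *ᵥ (p.1 • x1)) + p.2 • v)) := by
    have h1 : Continuous (fun x : Idx g → ℂ => (pr (ρ *ᵥ x) : Fin g → ℂ)) :=
      pr_diff.continuous.comp (LinearMap.continuous_of_finiteDimensional ρ.mulVecLin)
    have h2 : Continuous (fun p : ℂ × ℂ => (pr (ρ *ᵥ (p.1 • x1)) : Fin g → ℂ)) :=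
      h1.comp (by fun_prop)
    exact A.θ_entire.continuous.comp (h2.add (by fun_prop))
  have hzero : pr (ρ *ᵥ ((0 : ℂ) • x1)) = (0 : Fin g → ℂ) := by
    rw [zero_smul, Matrix.mulVec_zero]
    rfl
  have hnhds : ∀ᶠ p : ℂ × ℂ in 𝓝 (0, 0), A.θ (pr (ρ *ᵥ (p.1 • x1)) + p.2 • v) ≠ 0 := by
    apply hc.continuousAt.eventually_ne
    have h1 : A.θ (pr (ρ *ᵥ ((0 : ℂ) • x1)) + (0 : ℂ) • v) ≠ 0 := by
      rw [hzero, zero_smul, add_zero]
      exact A.θ_zero
    exact h1
  obtain ⟨r, hr, hrball⟩ := Metric.eventually_nhds_iff_ball.mp hnhds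
  have hrr : ∀ t s : ℂ, ‖t‖ < r → ‖s‖ < r → A.θ (pr (ρ *ᵥ (t • x1)) + s • v) ≠ 0 := by
    intro t s ht hs
    apply hrball (t, s)
    rw [Metric.mem_ball, Prod.dist_eq, max_lt_iff, dist_zero_right, dist_zero_right]
    exact ⟨ht, hs⟩
  have hθc : Continuous (fun t : ℂ => A.θ (pr (t • x1))) :=
    A.θ_entire.continuous.comp (pr_diff.continuous.comp (by fun_prop))
  have hθ1 : ∀ᶠ t in 𝓝 (0 : ℂ), A.θ (pr (t • x1)) ≠ 0 := by
    apply hθc.continuousAt.eventually_ne
    have : (pr ((0 : ℂ) • x1) : Fin g → ℂ) = 0 := by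
      rw [zero_smul]
      rfl
    rw [this]
    exact A.θ_zero
  have hconst : ∀ᶠ t in 𝓝[≠] (0 : ℂ), ∀ s ∈ Metric.ball (0 : ℂ) r,
      A.f k (pr (ρ *ᵥ (t • x1)) + s • v) = A.f k (pr (ρ *ᵥ (t • x1))) := by
    filter_upwards [hline, mem_nhdsWithin_of_mem_nhds (Metric.ball_mem_nhds (0 : ℂ) hr),
      mem_nhdsWithin_of_mem_nhds hθ1] with t ht ht1 ht2
    set x := t • x1 with hx
    have ht1' : ‖t‖ < r := mem_ball_zero_iff.mp ht1
    have hL : MvPolynomial.eval (fun e => A.fH (Sum.map ks id e) x) Q.leadingCoeff ≠ 0 := by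
      intro h0
      apply ht
      rw [hEx x ht2, h0, mul_zero]
    set c : Fin g ⊕ Fin g → ℂ := fun e => A.fH (Sum.map ks id e) x with hcdef
    set d : Fin g ⊕ Fin g → ℂ := Sum.elim (fun _ => 0) (fun j => if j = j0 then -1 else 0)
      with hddef
    have hprx : ∀ s : ℂ, (pr (x + s • e1) : Fin g → ℂ) = pr x := by
      intro s
      funext i
      simp [pr, he1]
    have hprρ : ∀ s : ℂ, (pr (ρ *ᵥ (x + s • e1)) : Fin g → ℂ) = pr (ρ *ᵥ x) + s • v := by
      intro s
      rw [Matrix.mulVec_add, Matrix.mulVec_smul ρ s e1]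
      rfl
    have hcd : ∀ (s : ℂ) (e : Fin g ⊕ Fin g),
        A.fH (Sum.map ks id e) (x + s • e1) = c e + s * d e := by
      intro s e
      cases e with
      | inl k' =>
        change A.f (ks k') (pr (x + s • e1)) = A.f (ks k') (pr x) + s * 0
        rw [hprx, mul_zero, add_zero]
      | inr j =>
        change A.Z j (pr (x + s • e1)) - A.Z j 0 - (x + s • e1) (Sum.inr j) =
          (A.Z j (pr x) - A.Z j 0 - x (Sum.inr j)) + s * (if j = j0 then -1 else 0)
        rw [hprx, Pi.add_apply, Pi.smul_apply, he1, Pi.single_apply, smul_eq_mul]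
        by_cases hj : j = j0
        · simp [hj]
          ring
        · simp [hj]
    refine line_const A hQ hRec k (pr (ρ *ᵥ x)) v (subst c d R) (subst_ne c d R hL) ?_ r
      (fun s hs => hrr t s ht1' (mem_ball_zero_iff.mp hs))
    intro s hs
    rw [subst_eval]
    have h1 := hR (x + s • e1) (by rw [hprx]; exact ht2) (by rw [hprρ]; exact hs)
    simp only [hcd, hprρ] at h1
    exact h1
  have hlim : ∀ s ∈ Metric.ball (0 : ℂ) r, A.f k (s • v) = A.f k 0 := by
    intro s hs
    have hc1 : Tendsto (fun t : ℂ => (pr (ρ *ᵥ (t • x1)) : Fin g → ℂ)) (𝓝[≠] 0) (𝓝 0) := by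
      have h1 : Continuous (fun x : Idx g → ℂ => (pr (ρ *ᵥ x) : Fin g → ℂ)) :=
        pr_diff.continuous.comp (LinearMap.continuous_of_finiteDimensional ρ.mulVecLin)
      have h2 : Continuous (fun t : ℂ => (pr (ρ *ᵥ (t • x1)) : Fin g → ℂ)) :=
        h1.comp (by fun_prop)
      have h3 := h2.tendsto 0
      rw [hzero] at h3
      exact h3.mono_left nhdsWithin_le_nhds
    have hθs : A.θ (s • v) ≠ 0 := by
      have := hrr 0 s (by rwa [norm_zero]) (mem_ball_zero_iff.mp hs)
      rwa [hzero, zero_add] at this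
    have h4 : Tendsto (fun t : ℂ => A.f k (pr (ρ *ᵥ (t • x1)) + s • v)) (𝓝[≠] 0)
        (𝓝 (A.f k (s • v))) := by
      have h5 := hc1.add (tendsto_const_nhds (x := s • v))
      rw [zero_add] at h5
      exact (f_cont A k hθs).tendsto.comp h5
    have h6 : Tendsto (fun t : ℂ => A.f k (pr (ρ *ᵥ (t • x1)))) (𝓝[≠] 0) (𝓝 (A.f k 0)) :=
      (f_cont A k A.θ_zero).tendsto.comp hc1
    exact tendsto_nhds_unique h4 (h6.congr' (hconst.mono fun t ht => (ht s hs).symm))
  -- the derivative
  have hθp : DifferentiableAt ℂ (fun w => A.θ w ^ A.wt) 0 :=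
    A.θ_entire.differentiableAt.pow _
  have hFd : DifferentiableAt ℂ (fun w => A.num k w / A.θ w ^ A.wt) 0 := by
    simp only [div_eq_mul_inv]
    exact (A.num_entire k).differentiableAt.mul (hθp.inv (pow_ne_zero _ A.θ_zero))
  have hγ : HasDerivAt (fun s : ℂ => s • v) v 0 := by
    have := (hasDerivAt_id (0 : ℂ)).smul_const v
    rwa [one_smul] at this
  have hF0 : HasFDerivAt (fun w => A.num k w / A.θ w ^ A.wt)
      (fderiv ℂ (fun w => A.num k w / A.θ w ^ A.wt) 0) ((fun s : ℂ => s • v) 0) := by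
    simp only [zero_smul]
    exact hFd.hasFDerivAt
  have h1 := hF0.comp_hasDerivAt (0 : ℂ) hγ
  have h2 : (fun s : ℂ => A.f k (s • v)) =ᶠ[𝓝 0] fun _ => A.f k 0 := by
    filter_upwards [Metric.ball_mem_nhds (0 : ℂ) hr] with s hs
    exact hlim s hs
  have h3 : HasDerivAt (fun s : ℂ => A.f k (s • v)) 0 0 :=
    (hasDerivAt_const (0 : ℂ) (A.f k 0)).congr_of_eventuallyEq h2
  exact h1.unique h3

/-- a common denominator -/
theorem exists_int (α : Matrix (Idx g) (Idx g) ℚ) :
    ∃ (N : ℕ) (β : Matrix (Idx g) (Idx g) ℤ), N ≠ 0 ∧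
      β.map (Int.cast : ℤ → ℂ) = (N : ℂ) • AbVar.toC α := by
  refine ⟨∏ p : Idx g × Idx g, (α p.1 p.2).den, Matrix.of fun r s =>
    (α r s).num * ∏ p ∈ Finset.univ.erase (r, s), ((α p.1 p.2).den : ℤ), ?_, ?_⟩
  · rw [Finset.prod_ne_zero_iff]
    intro p _
    exact (α p.1 p.2).den_ne_zero
  · ext r s
    rw [Matrix.smul_apply, Matrix.map_apply, Matrix.of_apply, AbVar.toC, Matrix.map_apply,
      ← Finset.mul_prod_erase Finset.univ _ (Finset.mem_univ (r, s))]
    have h1 : (algebraMap ℚ ℂ) (α r s) * ((α r s).den : ℂ) = ((α r s).num : ℂ) := by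
      have h2 : (α r s) * ((α r s).den : ℚ) = ((α r s).num : ℚ) := Rat.mul_den_eq_num _
      have h3 := congrArg (algebraMap ℚ ℂ) h2
      rw [map_mul, map_natCast, map_intCast] at h3
      exact h3
    push_cast
    rw [smul_eq_mul, ← h1]
    ring

end T2X

/-- De Rham-Betti endomorphisms are endomorphisms. -/
theorem t2_proof (hT : Stmt_T2r) (hI : Stmt_Indep) (hRec : Stmt_Recur) (hQ : Stmt_Qp)
    (hG : Stmt_Grow) (hGD : Stmt_GrowD) : Stmt_T2 := by
  intro g A α ρ hρ h i j
  have hD : ∀ j, Differentiable ℂ (pd j A.θ) := by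
    intro j
    obtain ⟨C, hC⟩ := hG g A.lat A.lat_indep A.θ A.lin A.cst A.θ_entire A.θ_aut
    exact (hGD g A.θ j A.θ_entire ⟨C, hC⟩).1
  obtain ⟨N, β, hN, hβ⟩ := T2X.exists_int α
  have h1 := T2X.main A hT hI hRec hQ hD β ((N : ℂ) • ρ) (fun r s => by
    rw [Matrix.smul_apply, smul_eq_mul]
    exact (isAlgebraic_natCast N).mul (hρ r s)) (by
    rw [hβ, Matrix.mul_smul, h, Matrix.smul_mul]) i j
  rw [Matrix.smul_apply, smul_eq_mul] at h1
  rcases mul_eq_zero.mp h1 with h2 | h2
  · exact absurd (Nat.cast_eq_zero.mp h2) hN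
  · exact h2

end

end Pool.Agent.DRB
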