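import Pool.Agent.DRB.Stmts

/-!
# De Rham-Betti squad, module T2R: the algebraic relation between `f_k (pr (ρ x))` and the
functions `f_(ks j) (pr x)`, `H_j x`
-/

open scoped BigOperators
open Matrix

namespace Pool.Agent.DRB

noncomputable section

theorem t2r_proof (hSlav : Stmt_Slav) : Stmt_T2r := by
  classical
  intro g A α ρ hg hρ hper ks k
  let e : Fin (g + g) ≃ Idx g := finSumFinEquiv.symm
  let E : Fin (g + g + 1) ≃ Option (Idx g) :=
    (Fintype.equivFinOfCardEq (by simp)).symm
  let M : Fin 2 → Matrix (Idx g) (Fin (g + g)) ℂ := fun s =>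
    if s = 0 then (1 : Matrix (Idx g) (Idx g) ℂ).submatrix id e else ρ.submatrix id e
  have hM0 : M 0 = (1 : Matrix (Idx g) (Idx g) ℂ).submatrix id e := if_pos rfl
  have hM1 : M 1 = ρ.submatrix id e := if_neg (by decide)
  have hMv0 : ∀ w : Fin (g + g) → ℂ, M 0 *ᵥ w = w ∘ e.symm := by
    intro w
    rw [hM0, Matrix.submatrix_mulVec_equiv, Matrix.one_mulVec]
    rfl
  have hMv1 : ∀ w : Fin (g + g) → ℂ, M 1 *ᵥ w = ρ *ᵥ (w ∘ e.symm) := by
    intro w
    rw [hM1, Matrix.submatrix_mulVec_equiv]
    rfl
  let u : Fin (g + g) → (Fin (g + g) → ℂ) := fun j a => A.per (e a) (e j)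
  have hue : ∀ j, u j ∘ e.symm = A.per *ᵥ (fun i => (((Pi.single (e j) 1 : Idx g → ℤ) i : ℤ) : ℂ)) := by
    intro j
    funext i
    rw [Matrix.mulVec, dotProduct, Finset.sum_eq_single (e j)]
    · simp [u]
    · intro b _ hb
      rw [Pi.single_eq_of_ne hb]
      simp
    · simp
  have huli : LinearIndependent ℂ u := by
    have h1 : IsUnit (A.per.submatrix e e)ᵀ := by
      rw [Matrix.isUnit_iff_isUnit_det, Matrix.det_transpose, Matrix.det_submatrix_equiv_self]
      exact A.nondeg
    have h2 := Matrix.linearIndependent_rows_iff_isUnit.mpr h1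
    exact h2
  obtain ⟨R, hR0, hR⟩ := hSlav g A (g + g) 2 M u (by omega)
    (by
      intro s i j
      by_cases hs : s = 0
      · subst hs
        rw [hM0, Matrix.submatrix_apply, Matrix.one_apply]
        split_ifs
        · exact isAlgebraic_one
        · exact isAlgebraic_zero
      · have hs1 : s = 1 := by omega
        subst hs1
        rw [hM1, Matrix.submatrix_apply]
        exact hρ _ _)
    huli
    (by
      intro s j
      by_cases hs : s = 0
      · subst hs
        exact ⟨Pi.single (e j) 1, by rw [hMv0, hue]⟩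
      · have hs1 : s = 1 := by omega
        subst hs1
        refine ⟨fun i => α i (e j), ?_⟩
        rw [hMv1, hue, Matrix.mulVec_mulVec, ← hper, ← Matrix.mulVec_mulVec]
        congr 1
        funext i
        rw [Matrix.mulVec, dotProduct, Finset.sum_eq_single (e j)]
        · simp
        · intro b _ hb
          rw [Pi.single_eq_of_ne hb]
          simp
        · simp)
    (fun i => Option.elim (E i) (1, Sum.inl k) (fun e' => (0, Sum.map ks id e')))
  refine ⟨MvPolynomial.rename E R, fun h => hR0 (MvPolynomial.rename_injective E E.injective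
    (by rw [h, map_zero])), fun x hx hx' => ?_⟩
  have h3 := hR (x ∘ e) (by
    intro s
    by_cases hs : s = 0
    · subst hs
      rw [hMv0]
      have : (x ∘ e) ∘ e.symm = x := by
        funext i
        simp
      rwa [this]
    · have hs1 : s = 1 := by omega
      subst hs1
      rw [hMv1]
      have : (x ∘ e) ∘ e.symm = x := by
        funext i
        simp
      rwa [this])
  rw [MvPolynomial.eval_rename]
  have hxe : (x ∘ e) ∘ e.symm = x := by
    funext i
    simp
  have h4 : (fun i => A.fH (Option.elim (E i) ((1, Sum.inl k) : Fin 2 × (Fin A.nfun ⊕ Fin g))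
        (fun e' => (0, Sum.map ks id e'))).2
        (M (Option.elim (E i) ((1, Sum.inl k) : Fin 2 × (Fin A.nfun ⊕ Fin g))
          (fun e' => (0, Sum.map ks id e'))).1 *ᵥ (x ∘ e))) =
      (fun o => Option.elim o (A.f k (pr (ρ *ᵥ x))) (fun e' => A.fH (Sum.map ks id e') x)) ∘ E := by
    funext i
    rw [Function.comp_apply]
    rcases h5 : E i with _ | e'
    · simp only [Option.elim_none]
      rw [hMv1, hxe]
      rfl
    · simp only [Option.elim_some]
      rw [hMv0, hxe]
  rw [← h4]
  exact h3

end

end Pool.Agent.DRB
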