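import Pool.Agent.DRB.Stmts
import Pool.Agent.DRB.Osgood
import Pool.Agent.FDR.Stmts

/-!
# The algebraic dependence theorem `Stmt_Td` from the Schneider-Lang theorem of squad FDR
-/

set_option autoImplicit false

open scoped BigOperators Topology
open Matrix Asymptotics Filter

namespace Pool.Agent.DRB

noncomputable section

namespace TdSLX

/-- algebraic data come from a number field inside the complex numbers -/
theorem numf {d N : ℕ} (P : Fin d → Fin N → MvPolynomial (Fin N) ℂ) (x : Fin N → ℂ)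
    (hP : ∀ l k, AlgPoly (P l k)) (hx : ∀ k, IsAlgebraic ℚ (x k)) :
    ∃ K : IntermediateField ℚ ℂ, FiniteDimensional ℚ K ∧ (∀ k, x k ∈ K) ∧
      ∀ l k, ∃ P' : MvPolynomial (Fin N) K, MvPolynomial.map (algebraMap K ℂ) P' = P l k := by
  classical
  let T : Finset ℂ := (Finset.univ.image x) ∪
    Finset.univ.biUnion (fun l => Finset.univ.biUnion (fun k => (P l k).support.image
      (fun m => (P l k).coeff m)))
  let K : IntermediateField ℚ ℂ := IntermediateField.adjoin ℚ (T : Set ℂ)
  have hT : ∀ t ∈ (T : Set ℂ), t ∈ K := fun t ht => IntermediateField.subset_adjoin ℚ _ ht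
  refine ⟨K, ?_, fun k => ?_, fun l k => ?_⟩
  · have : Finite (T : Set ℂ) := T.finite_toSet.to_subtype
    apply IntermediateField.finiteDimensional_adjoin
    intro t ht
    rw [← isAlgebraic_iff_isIntegral]
    have ht' : t ∈ T := ht
    simp only [T, Finset.mem_union, Finset.mem_image, Finset.mem_univ, true_and,
      Finset.mem_biUnion] at ht'
    rcases ht' with ⟨k, rfl⟩ | ⟨l, k, m, -, rfl⟩
    · exact hx k
    · exact hP l k m
  · apply hT
    have : x k ∈ T := by
      simp only [T, Finset.mem_union, Finset.mem_image, Finset.mem_univ, true_and]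
      exact Or.inl ⟨k, rfl⟩
    exact this
  · have h1 : P l k ∈ Set.range (MvPolynomial.map (σ := Fin N) (algebraMap K ℂ)) := by
      rw [MvPolynomial.mem_range_map_iff_coeffs_subset]
      intro c hc
      obtain ⟨m, hm, rfl⟩ := MvPolynomial.mem_coeffs_iff.1 hc
      have h2 : (P l k).coeff m ∈ K := by
        apply hT
        have : (P l k).coeff m ∈ T := by
          simp only [T, Finset.mem_union, Finset.mem_image, Finset.mem_univ, true_and,
            Finset.mem_biUnion]
          exact Or.inr ⟨l, k, m, hm, rfl⟩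
        exact this
      exact ⟨⟨_, h2⟩, rfl⟩
    obtain ⟨P', hP'⟩ := h1
    exact ⟨P', hP'⟩

variable {d N : ℕ} (S : SLData d N)

/-- the linear change of variables -/
def UL : (Fin d → ℂ) →L[ℂ] (Fin d → ℂ) :=
  ((Fintype.linearCombination ℂ S.u : (Fin d → ℂ) →ₗ[ℂ] (Fin d → ℂ))).toContinuousLinearMap

theorem UL_apply (t : Fin d → ℂ) : UL S t = ∑ j, t j • S.u j := by
  change Fintype.linearCombination ℂ S.u t = _
  rw [Fintype.linearCombination_apply]

theorem UL_single (j : Fin d) : UL S (Pi.single j 1) = S.u j := by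
  rw [UL_apply, Finset.sum_eq_single j]
  · simp
  · intro k _ hk
    rw [Pi.single_eq_of_ne hk, zero_smul]
  · simp

theorem UL_inj : Function.Injective (UL S) := by
  intro x y hxy
  have h := S.u_indep
  rw [Fintype.linearIndependent_iffₛ] at h
  funext i
  apply h x y _ i
  rw [← UL_apply, ← UL_apply, hxy]

theorem UL_surj : Function.Surjective (UL S) :=
  LinearMap.injective_iff_surjective.1 (UL_inj S)

theorem fderiv_comp (φ : (Fin d → ℂ) → ℂ) (w : Fin d → ℂ) (hφ : DifferentiableAt ℂ φ (UL S w))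
    (v : Fin d → ℂ) : fderiv ℂ (fun w => φ (UL S w)) w v = fderiv ℂ φ (UL S w) (UL S v) := by
  have h1 : HasFDerivAt (fun w => φ (UL S w)) ((fderiv ℂ φ (UL S w)).comp (UL S)) w :=
    HasFDerivAt.comp w hφ.hasFDerivAt (UL S).hasFDerivAt
  rw [h1.fderiv]
  rfl

theorem ev_b : ∀ᶠ w in 𝓝 (0 : Fin d → ℂ), S.b (UL S w) ≠ 0 := by
  have h1 : ContinuousAt (fun w => S.b (UL S w)) 0 :=
    (S.b_entire.continuous.comp (UL S).continuous).continuousAt
  apply h1.eventually_ne
  rw [map_zero]
  exact S.b_zero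

theorem an_comp {F : (Fin d → ℂ) → ℂ} (hF : Differentiable ℂ F) (z : Fin d → ℂ) :
    AnalyticAt ℂ (fun w => F (UL S w)) z :=
  osgood (hF.comp (UL S).differentiable) z

/-- representation on any ball -/
def rep {n : ℕ} (s : Fin n → Fin N) (R : ℝ) :
    FDR.Rep (fun (w : Fin d → ℂ) (i : Fin n) => S.a (s i) (UL S w) / S.b (UL S w)) R where
  G0 := fun w => S.b (UL S w)
  G := fun i w => S.a (s i) (UL S w)
  an0 := fun z _ => an_comp S S.b_entire z
  an := fun i z _ => an_comp S (S.a_entire (s i)) z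
  ne := by rw [map_zero]; exact S.b_zero
  eq := by
    filter_upwards [ev_b S] with z hz i
    field_simp

theorem growth {n : ℕ} (s : Fin n → Fin N) :
    FDR.HasGrowth (fun (w : Fin d → ℂ) (i : Fin n) => S.a (s i) (UL S w) / S.b (UL S w)) := by
  obtain ⟨C, hCa, hCb⟩ := S.growth
  set B : ℝ := |C| * (1 + ‖UL S‖) ^ 2 + |Real.log ‖S.b 0‖| + 1 with hB
  have hB0 : 0 < B := by positivity
  refine ⟨B, 2, hB0, by norm_num, fun R hR => ⟨rep S s R, ⟨?_, ?_⟩⟩⟩
  · intro z hz
    have hzR : ‖z‖ < R := by simpa using hz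
    have h1 : C * (1 + ‖UL S z‖) ^ 2 ≤ B * R ^ (2 : ℝ) := by
      rw [show (2 : ℝ) = ((2 : ℕ) : ℝ) by norm_num, Real.rpow_natCast]
      have h2 : ‖UL S z‖ ≤ ‖UL S‖ * ‖z‖ := (UL S).le_opNorm z
      have h3 : 1 + ‖UL S z‖ ≤ (1 + ‖UL S‖) * R := by
        nlinarith [norm_nonneg (UL S), norm_nonneg z]
      have h4 : (1 + ‖UL S z‖) ^ 2 ≤ ((1 + ‖UL S‖) * R) ^ 2 :=
        pow_le_pow_left₀ (by positivity) h3 2
      calc C * (1 + ‖UL S z‖) ^ 2 ≤ |C| * (1 + ‖UL S z‖) ^ 2 :=
            mul_le_mul_of_nonneg_right (le_abs_self C) (by positivity)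
        _ ≤ |C| * ((1 + ‖UL S‖) * R) ^ 2 := mul_le_mul_of_nonneg_left h4 (abs_nonneg C)
        _ = (|C| * (1 + ‖UL S‖) ^ 2) * R ^ 2 := by ring
        _ ≤ B * R ^ 2 := by
            apply mul_le_mul_of_nonneg_right _ (by positivity)
            rw [hB]
            have := abs_nonneg (Real.log ‖S.b 0‖)
            linarith
    exact ⟨(hCb _).trans (Real.exp_le_exp.2 h1), fun i => (hCa _ _).trans (Real.exp_le_exp.2 h1)⟩
  · change Real.exp (-(B * R ^ (2 : ℝ))) ≤ ‖S.b (UL S 0)‖
    rw [map_zero]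
    have h0 : 0 < ‖S.b 0‖ := norm_pos_iff.2 S.b_zero
    rw [← Real.exp_log h0, Real.exp_le_exp]
    rw [show (2 : ℝ) = ((2 : ℕ) : ℝ) by norm_num, Real.rpow_natCast]
    have h1 : -|Real.log ‖S.b 0‖| ≤ Real.log ‖S.b 0‖ := neg_abs_le _
    have h2 : |Real.log ‖S.b 0‖| ≤ B := by
      rw [hB]
      have : 0 ≤ |C| * (1 + ‖UL S‖) ^ 2 := by positivity
      linarith
    have h4 : 1 ≤ R ^ 2 := one_le_pow₀ hR
    have h3 : B ≤ B * R ^ 2 := le_mul_of_one_le_right hB0.le h4
    linarith

theorem isPer {n : ℕ} (s : Fin n → Fin N) (j : Fin d) :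
    FDR.IsPer (fun (w : Fin d → ℂ) (i : Fin n) => S.a (s i) (UL S w) / S.b (UL S w))
      (Pi.single j 1) := by
  refine ⟨‖(Pi.single j 1 : Fin d → ℂ)‖ + 1, by linarith, rep S s _, ?_⟩
  filter_upwards [ev_b S] with w hw i
  change S.a (s i) (UL S (Pi.single j 1 + w)) =
    S.a (s i) (UL S w) / S.b (UL S w) * S.b (UL S (Pi.single j 1 + w))
  rw [map_add, UL_single, add_comm (S.u j)]
  have h := S.per j (s i) (UL S w)
  field_simp
  exact h

/-- a relation near `0` holds wherever it makes sense -/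
theorem extend {n : ℕ} (s : Fin n → Fin N) (P : MvPolynomial (Fin n) ℂ)
    (h : ∀ᶠ w in 𝓝 (0 : Fin d → ℂ),
      MvPolynomial.eval (fun i => S.a (s i) (UL S w) / S.b (UL S w)) P = 0) :
    ∀ z, S.b z ≠ 0 → MvPolynomial.eval (fun i => S.a (s i) z / S.b z) P = 0 := by
  classical
  let M := P.totalDegree
  let Φ : (Fin d → ℂ) → ℂ := fun z => ∑ m ∈ P.support, P.coeff m * (∏ i, S.a (s i) z ^ m i) *
    S.b z ^ (M - ∑ i, m i)
  have hΦ : ∀ z, S.b z ≠ 0 →
      Φ z = S.b z ^ M * MvPolynomial.eval (fun i => S.a (s i) z / S.b z) P := by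
    intro z hz
    rw [MvPolynomial.eval_eq', Finset.mul_sum]
    refine Finset.sum_congr rfl fun m hm => ?_
    have hmM : ∑ i, m i ≤ M := by
      have h1 := MvPolynomial.le_totalDegree hm
      rwa [Finsupp.sum_fintype _ _ (fun _ => rfl)] at h1
    have h2 : ∏ i, (S.a (s i) z / S.b z) ^ m i = (∏ i, S.a (s i) z ^ m i) / S.b z ^ (∑ i, m i) := by
      simp only [div_pow]
      rw [Finset.prod_div_distrib, Finset.prod_pow_eq_pow_sum]
    have h3 : S.b z ^ M = S.b z ^ (M - ∑ i, m i) * S.b z ^ (∑ i, m i) := by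
      rw [← pow_add]; congr 1; omega
    rw [h2, h3]
    have h4 : S.b z ^ (∑ i, m i) ≠ 0 := pow_ne_zero _ hz
    field_simp
  have hd : Differentiable ℂ Φ := by
    have hprod : ∀ m : Fin n →₀ ℕ, Differentiable ℂ (fun z => ∏ i, S.a (s i) z ^ m i) := by
      intro m
      have : ∀ t : Finset (Fin n), Differentiable ℂ (fun z => ∏ i ∈ t, S.a (s i) z ^ m i) := by
        intro t
        induction t using Finset.induction_on with
        | empty => simp
        | insert a t ha ih =>
          simp only [Finset.prod_insert ha]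
          exact ((S.a_entire (s a)).pow _).mul ih
      exact this Finset.univ
    have hsum : ∀ t : Finset (Fin n →₀ ℕ), Differentiable ℂ (fun z => ∑ m ∈ t,
        P.coeff m * (∏ i, S.a (s i) z ^ m i) * S.b z ^ (M - ∑ i, m i)) := by
      intro t
      induction t using Finset.induction_on with
      | empty => simp
      | insert a t ha ih =>
        simp only [Finset.sum_insert ha]
        exact (((hprod a).const_mul _).mul (S.b_entire.pow _)).add ih
    exact hsum P.support
  have han : AnalyticOnNhd ℂ (fun w => Φ (UL S w)) Set.univ := fun z _ => an_comp S hd z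
  have hz : (fun w => Φ (UL S w)) =ᶠ[𝓝 (0 : Fin d → ℂ)] fun _ => 0 := by
    filter_upwards [h, ev_b S] with w hw hb
    rw [hΦ _ hb, hw, mul_zero]
  have hall : (fun w => Φ (UL S w)) = fun _ => 0 :=
    han.eq_of_eventuallyEq (fun z _ => analyticAt_const) hz
  intro z hb
  obtain ⟨w, rfl⟩ := UL_surj S z
  have h1 := congrFun hall w
  have h2 := hΦ (UL S w) hb
  simp only [h1] at h2
  rcases mul_eq_zero.1 h2.symm with h3 | h3
  · exact absurd h3 (pow_ne_zero _ hb)
  · exact h3

end TdSLX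

open TdSLX in
theorem td_of_sl (hSL : FDR.Stmt_SL) : Stmt_Td := by
  intro d N S s hd
  by_contra hcon
  push Not at hcon
  choose P hP1 hP2 using S.der
  obtain ⟨K, hK, hx, hP'⟩ := numf P (fun k => S.a k 0 / S.b 0) hP1 S.alg0
  choose P' hP' using hP'
  choose v hv using fun j : Fin d => UL_surj S (Pi.single j 1)
  have hvi : LinearIndependent ℂ v := by
    have h1 : LinearIndependent ℂ ((UL S : (Fin d → ℂ) →ₗ[ℂ] (Fin d → ℂ)) ∘ v) := by
      have h2 : ((UL S : (Fin d → ℂ) →ₗ[ℂ] (Fin d → ℂ)) ∘ v) = fun j => Pi.single j (1 : ℂ) := by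
        funext j
        exact hv j
      rw [h2]
      have h3 := (Pi.basisFun ℂ (Fin d)).linearIndependent
      have h4 : ⇑(Pi.basisFun ℂ (Fin d)) = fun j => Pi.single j (1 : ℂ) := by
        funext j
        simp
      rwa [h4] at h3
    exact LinearIndependent.of_comp _ h1
  have hb := ev_b S
  refine hSL d N (by omega) K hK v hvi (fun w k => S.a k (UL S w) / S.b (UL S w)) ?_ ?_ ?_
    (fun w i => S.a (s i) (UL S w) / S.b (UL S w)) ?_ (growth S s) (isPer S s) ?_
  · rw [analyticAt_pi_iff]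
    intro k
    exact (an_comp S (S.a_entire k) 0).div (an_comp S S.b_entire 0) (by
      rw [map_zero]; exact S.b_zero)
  · intro k
    simp only [map_zero]
    exact hx k
  · intro j k
    refine ⟨P' j k, ?_⟩
    filter_upwards [hb] with w hw
    have h1 : DifferentiableAt ℂ (fun z => S.a k z / S.b z) (UL S w) := by
      simp only [div_eq_mul_inv]
      exact (S.a_entire k _).mul ((S.b_entire _).inv hw)
    have h2 := fderiv_comp S (fun z => S.a k z / S.b z) w h1 (v j)
    rw [h2, hv j]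
    have h3 := hP2 j k (UL S w) hw
    unfold pd at h3
    rw [h3, ← hP' j k, MvPolynomial.eval_map, MvPolynomial.aeval_def]
  · intro i
    refine ⟨MvPolynomial.X (s i), Eventually.of_forall fun w => ?_⟩
    rw [MvPolynomial.aeval_X]
  · intro R hR
    by_contra hR0
    obtain ⟨z, hz, hne⟩ := hcon R hR0
    exact hne (extend S s R hR z hz)

end

end Pool.Agent.DRB
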