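import Pool.Agent.DRB.Stmts

/-!
# De Rham-Betti conjecture, module TORS: an element which is not torsion modulo scalars
-/

open scoped BigOperators
open Matrix

namespace Pool.Agent.DRB

namespace TORSX

/-! ### Two by two matrices -/

theorem pow_mulVec {κ : Type} [Fintype κ] [DecidableEq κ] (m : Matrix κ κ ℂ) (v : κ → ℂ) (l : ℂ)
    (h : m *ᵥ v = l • v) (n : ℕ) : (m ^ n) *ᵥ v = l ^ n • v := by
  induction n with
  | zero => simp
  | succ n ih =>
    rw [pow_succ, ← Matrix.mulVec_mulVec, h, Matrix.mulVec_smul, ih, smul_smul, pow_succ, mul_comm]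

theorem eigen_pow (m : Matrix (Fin 2) (Fin 2) ℂ) (l : ℂ)
    (hl : l ^ 2 - m.trace * l + m.det = 0) (n : ℕ) (c : ℂ)
    (h : m ^ n = c • (1 : Matrix (Fin 2) (Fin 2) ℂ)) : c = l ^ n := by
  have hdet : (m - l • (1 : Matrix (Fin 2) (Fin 2) ℂ)).det = 0 := by
    rw [Matrix.det_fin_two] at hl ⊢
    rw [Matrix.trace_fin_two] at hl
    simp only [Matrix.sub_apply, Matrix.smul_apply, Matrix.one_apply, smul_eq_mul]
    simp
    linear_combination hl
  obtain ⟨v, hv, hv2⟩ := Matrix.exists_mulVec_eq_zero_iff.2 hdet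
  have h1 : m *ᵥ v = l • v := by
    rw [Matrix.sub_mulVec, Matrix.smul_mulVec, Matrix.one_mulVec] at hv2
    exact sub_eq_zero.1 hv2
  have h2 := pow_mulVec m v l h1 n
  rw [h, Matrix.smul_mulVec, Matrix.one_mulVec] at h2
  have h3 : (c - l ^ n) • v = 0 := by rw [sub_smul, h2, sub_self]
  rcases smul_eq_zero.1 h3 with h4 | h4
  · exact sub_eq_zero.1 h4
  · exact absurd h4 hv

theorem two (m m' : Matrix (Fin 2) (Fin 2) ℂ) (hmm : m * m' = 1) (n : ℕ) (hn : 1 ≤ n) (c : ℂ)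
    (h : m ^ n = c • (1 : Matrix (Fin 2) (Fin 2) ℂ)) :
    IsAlgebraic ℚ (m.trace * m'.trace) ∧
      (m.trace * m'.trace = 4 → ∃ l : ℂ, m = l • (1 : Matrix (Fin 2) (Fin 2) ℂ)) := by
  have hd : m.det ≠ 0 := by
    intro h0
    have := congrArg Matrix.det hmm
    rw [Matrix.det_mul, h0, zero_mul, Matrix.det_one] at this
    exact zero_ne_one this
  have htr : m.trace = m.det * m'.trace := by
    have h1 : m.adjugate = m.det • m' := by
      have h2 : m.adjugate * (m * m') = m.adjugate := by rw [hmm, mul_one]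
      rw [← mul_assoc, Matrix.adjugate_mul, Matrix.smul_mul, one_mul] at h2
      exact h2.symm
    have h3 := congrArg Matrix.trace h1
    rw [Matrix.trace_smul, Matrix.adjugate_fin_two, smul_eq_mul] at h3
    rw [← h3, Matrix.trace_fin_two, Matrix.trace_fin_two]
    simp
    ring
  obtain ⟨s, hs⟩ := IsAlgClosed.exists_pow_nat_eq (m.trace ^ 2 - 4 * m.det) (n := 2) (by norm_num)
  set t := m.trace with ht
  set d := m.det with hdd
  set l := (t + s) / 2 with hl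
  set u := (t - s) / 2 with hu
  have h1 : l + u = t := by rw [hl, hu]; ring
  have h2 : l * u = d := by
    rw [hl, hu]
    linear_combination (-1 / 4) * hs
  have hl0 : l ≠ 0 := by
    intro h0; rw [h0, zero_mul] at h2; exact hd h2.symm
  have hu0 : u ≠ 0 := by
    intro h0; rw [h0, mul_zero] at h2; exact hd h2.symm
  have hcl : c = l ^ n := eigen_pow m l (by rw [← ht, ← hdd, ← h1, ← h2]; ring) n c h
  have hcu : c = u ^ n := eigen_pow m u (by rw [← ht, ← hdd, ← h1, ← h2]; ring) n c h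
  have hc0 : c ≠ 0 := by rw [hcl]; exact pow_ne_zero _ hl0
  have ht' : t * m'.trace = 2 + l / u + (l / u)⁻¹ := by
    have : m'.trace = t / d := by
      rw [htr]; field_simp
    rw [this, ← h1, ← h2]
    field_simp
    ring
  have hz : (l / u) ^ n = 1 := by
    rw [div_pow, ← hcl, ← hcu, div_self hc0]
  have hzalg : IsAlgebraic ℚ (l / u) := by
    have : IsIntegral ℚ ((l / u) ^ n) := by rw [hz]; exact isIntegral_one
    exact (IsIntegral.of_pow (by omega) this).isAlgebraic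
  refine ⟨?_, ?_⟩
  · rw [ht']
    have h2a : IsAlgebraic ℚ (2 : ℂ) := by
      have := isAlgebraic_algebraMap (R := ℚ) (A := ℂ) (2 : ℚ)
      simpa using this
    exact (h2a.add hzalg).add hzalg.inv
  · intro h4
    have hlu : l = u := by
      rw [ht'] at h4
      have h5 : (l - u) ^ 2 = 0 := by
        field_simp at h4
        linear_combination h4
      have h6 : l - u = 0 := by
        exact pow_eq_zero_iff (two_ne_zero) |>.1 h5
      exact sub_eq_zero.1 h6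
    refine ⟨l, ?_⟩
    set N : Matrix (Fin 2) (Fin 2) ℂ := m - l • (1 : Matrix (Fin 2) (Fin 2) ℂ) with hN
    have hm : m = l • (1 : Matrix (Fin 2) (Fin 2) ℂ) + N := by rw [hN]; abel
    have htl : t = 2 * l := by rw [← h1, ← hlu]; ring
    have hdl : d = l ^ 2 := by rw [← h2, ← hlu]; ring
    have hNN : N * N = 0 := by
      rw [Matrix.trace_fin_two] at ht
      rw [Matrix.det_fin_two] at hdd
      rw [htl] at ht
      rw [hdl] at hdd
      have e : ∀ i j, (N * N) i j = 0 := by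
        intro i j
        rw [Matrix.mul_apply, Fin.sum_univ_two]
        fin_cases i <;> fin_cases j <;> simp [hN]
        · linear_combination (-m 0 0) * ht + hdd
        · linear_combination (-m 0 1) * ht
        · linear_combination (-m 1 0) * ht
        · linear_combination (-m 1 1) * ht + hdd
      ext i j
      exact e i j
    obtain ⟨k, rfl⟩ : ∃ k, n = k + 1 := ⟨n - 1, by omega⟩
    have hpow : ∀ k : ℕ, m ^ (k + 1) = l ^ (k + 1) • (1 : Matrix (Fin 2) (Fin 2) ℂ) +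
        (((k + 1 : ℕ) : ℂ) * l ^ k) • N := by
      intro k
      induction k with
      | zero => simp [← hm]
      | succ k ih =>
        rw [pow_succ, ih]
        conv_lhs => rw [hm]
        simp only [add_mul, mul_add, Matrix.smul_mul, Matrix.mul_smul, one_mul, mul_one, hNN,
          smul_zero, add_zero, smul_smul]
        rw [add_assoc, ← add_smul]
        congr 2
        · ring
        · push_cast; ring
    have hk := hpow k
    rw [h, hcl] at hk
    have h7 : (((k + 1 : ℕ) : ℂ) * l ^ k) • N = 0 := by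
      have := congrArg (fun M => M - l ^ (k + 1) • (1 : Matrix (Fin 2) (Fin 2) ℂ)) hk
      simpa using this.symm
    have h8 : N = 0 := by
      rcases smul_eq_zero.1 h7 with h9 | h9
      · exfalso
        rcases mul_eq_zero.1 h9 with h10 | h10
        · exact (Nat.cast_ne_zero.2 (Nat.succ_ne_zero k)) h10
        · exact pow_ne_zero _ hl0 h10
      · exact h9
    rw [hm, h8, add_zero]

/-! ### The projection onto an eigenspace -/

section proj

variable {g : ℕ} (A : AbVar g)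

theorem alg_chr (φ : A.Chr) (α : A.EndQ) : IsAlgebraic ℚ (φ α) := by
  have h : IsIntegral ℚ α := Algebra.IsIntegral.isIntegral α
  exact (h.map φ).isAlgebraic

theorem alg_toC (α : Matrix (Idx g) (Idx g) ℚ) (i j : Idx g) :
    IsAlgebraic ℚ (AbVar.toC α i j) := by
  simp only [AbVar.toC, Matrix.map_apply]
  exact isAlgebraic_algebraMap _

theorem exists_proj (ψ : A.Chr) (s : Finset A.Chr) (hs : ψ ∉ s) :
    ∃ e : Matrix (Idx g) (Idx g) ℂ, (∀ i j, IsAlgebraic ℚ (e i j)) ∧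
      (∀ M : Matrix (Idx g) (Idx g) ℂ, (∀ α ∈ A.EndQ, M * AbVar.toC α = AbVar.toC α * M) →
        M * e = e * M) ∧
      (∀ v ∈ A.eig ψ, e *ᵥ v = v) ∧ ∀ φ ∈ s, ∀ v ∈ A.eig φ, e *ᵥ v = 0 := by
  classical
  induction s using Finset.induction_on with
  | empty =>
    refine ⟨1, fun i j => ?_, fun M _ => by rw [mul_one, one_mul], fun v _ => Matrix.one_mulVec v,
      fun φ hφ => absurd hφ (Finset.notMem_empty φ)⟩
    rw [Matrix.one_apply]
    split_ifs
    · exact isAlgebraic_one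
    · exact isAlgebraic_zero
  | insert φ s hφ ih =>
    obtain ⟨e, h1, h2, h3, h4⟩ := ih (fun h => hs (Finset.mem_insert_of_mem h))
    have hne : φ ≠ ψ := fun h => hs (h ▸ Finset.mem_insert_self φ s)
    obtain ⟨α, hα⟩ : ∃ α, φ α ≠ ψ α := by
      by_contra hcon
      push Not at hcon
      exact hne (AlgHom.ext hcon)
    have hα' : ψ α - φ α ≠ 0 := sub_ne_zero.2 (Ne.symm hα)
    set F : Matrix (Idx g) (Idx g) ℂ :=
      (ψ α - φ α)⁻¹ • (AbVar.toC (α : Matrix (Idx g) (Idx g) ℚ) - φ α • 1) with hF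
    have hFv : ∀ (χ : A.Chr), ∀ v ∈ A.eig χ, F *ᵥ v = ((ψ α - φ α)⁻¹ * (χ α - φ α)) • v := by
      intro χ v hv
      rw [hF, Matrix.smul_mulVec, Matrix.sub_mulVec, Matrix.smul_mulVec, Matrix.one_mulVec, hv α,
        ← sub_smul, smul_smul]
    refine ⟨e * F, fun i j => ?_, fun M hM => ?_, fun v hv => ?_, fun χ hχ v hv => ?_⟩
    · rw [Matrix.mul_apply]
      refine AbVar.isAlgebraic_sum _ _ fun k _ => (h1 i k).mul ?_
      rw [hF, Matrix.smul_apply, Matrix.sub_apply, Matrix.smul_apply, Matrix.one_apply, smul_eq_mul,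
        smul_eq_mul]
      refine IsAlgebraic.mul ((alg_chr A ψ α).sub (alg_chr A φ α)).inv ?_
      refine IsAlgebraic.sub (alg_toC _ _ _) ?_
      split_ifs
      · simpa using alg_chr A φ α
      · simpa using isAlgebraic_zero
    · have hMF : M * F = F * M := by
        rw [hF, Matrix.mul_smul, Matrix.smul_mul, Matrix.mul_sub, Matrix.sub_mul, Matrix.mul_smul,
          Matrix.smul_mul, mul_one, one_mul, hM _ α.2]
      rw [← mul_assoc, h2 M hM, mul_assoc, hMF, mul_assoc]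
    · rw [← Matrix.mulVec_mulVec, hFv ψ v hv, inv_mul_cancel₀ hα', one_smul, h3 v hv]
    · rw [← Matrix.mulVec_mulVec, hFv χ v hv, Matrix.mulVec_smul]
      rcases Finset.mem_insert.1 hχ with rfl | hχ
      · rw [sub_self, mul_zero, zero_smul]
      · rw [h4 χ hχ v hv, smul_zero]

/-- The full projection. -/
theorem proj (hE : (⨆ χ, A.eig χ) = ⊤) (ψ : A.Chr) :
    ∃ e : Matrix (Idx g) (Idx g) ℂ, (∀ i j, IsAlgebraic ℚ (e i j)) ∧
      (∀ M : Matrix (Idx g) (Idx g) ℂ, (∀ α ∈ A.EndQ, M * AbVar.toC α = AbVar.toC α * M) →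
        M * e = e * M) ∧
      (∀ v ∈ A.eig ψ, e *ᵥ v = v) ∧ ∀ v, e *ᵥ v ∈ A.eig ψ := by
  classical
  have : Fintype A.Chr := Fintype.ofFinite _
  obtain ⟨e, h1, h2, h3, h4⟩ := exists_proj A ψ (Finset.univ.erase ψ) (Finset.notMem_erase ψ _)
  refine ⟨e, h1, h2, h3, fun v => ?_⟩
  have hv : v ∈ ⨆ χ, A.eig χ := by rw [hE]; trivial
  induction hv using Submodule.iSup_induction' with
  | mem χ x hx =>
    by_cases h : χ = ψ
    · subst h
      rw [h3 x hx]
      exact hx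
    · rw [h4 χ (Finset.mem_erase.2 ⟨h, Finset.mem_univ χ⟩) x hx]
      exact Submodule.zero_mem _
  | zero => rw [Matrix.mulVec_zero]; exact Submodule.zero_mem _
  | add x y _ _ hx hy => rw [Matrix.mulVec_add]; exact Submodule.add_mem _ hx hy

theorem eig_stable (ψ : A.Chr) (a : Matrix (Idx g) (Idx g) ℂ)
    (ha : ∀ α ∈ A.EndQ, a * AbVar.toC α = AbVar.toC α * a) (v : Idx g → ℂ) (hv : v ∈ A.eig ψ) :
    a *ᵥ v ∈ A.eig ψ := by
  intro α
  rw [Matrix.mulVec_mulVec, ← ha _ α.2, ← Matrix.mulVec_mulVec, hv α, Matrix.mulVec_smul]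

/-- Factorisation of the projection through `ℂ²`. -/
theorem factor (ψ : A.Chr) (hr : Module.finrank ℂ (A.eig ψ) = 2) (e : Matrix (Idx g) (Idx g) ℂ)
    (h3 : ∀ v ∈ A.eig ψ, e *ᵥ v = v) (h4 : ∀ v, e *ᵥ v ∈ A.eig ψ) :
    ∃ (B : Matrix (Idx g) (Fin 2) ℂ) (C : Matrix (Fin 2) (Idx g) ℂ), B * C = e ∧ C * B = 1 ∧
      (∀ w, B *ᵥ w ∈ A.eig ψ) ∧ ∀ v ∈ A.eig ψ, ∃ w, v = B *ᵥ w := by
  classical
  let b : Module.Basis (Fin 2) ℂ (A.eig ψ) := Module.finBasisOfFinrankEq ℂ (A.eig ψ) hr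
  let E : (Idx g → ℂ) →ₗ[ℂ] A.eig ψ := LinearMap.codRestrict (A.eig ψ) e.mulVecLin h4
  let Bl : (Fin 2 → ℂ) →ₗ[ℂ] (Idx g → ℂ) := (A.eig ψ).subtype ∘ₗ b.equivFun.symm.toLinearMap
  let Cl : (Idx g → ℂ) →ₗ[ℂ] (Fin 2 → ℂ) := b.equivFun.toLinearMap ∘ₗ E
  have hBw : ∀ w, LinearMap.toMatrix' Bl *ᵥ w = Bl w := fun w => by
    rw [LinearMap.toMatrix'_mulVec]
  have hCv : ∀ v, LinearMap.toMatrix' Cl *ᵥ v = Cl v := fun v => by
    rw [LinearMap.toMatrix'_mulVec]
  have hEv : ∀ v, ((E v : A.eig ψ) : Idx g → ℂ) = e *ᵥ v := fun v => rfl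
  have hBC : Bl ∘ₗ Cl = Matrix.toLin' e := by
    refine LinearMap.ext fun v => ?_
    show ((b.equivFun.symm (b.equivFun (E v)) : A.eig ψ) : Idx g → ℂ) = Matrix.toLin' e v
    rw [LinearEquiv.symm_apply_apply, hEv, Matrix.toLin'_apply]
  have hCB : Cl ∘ₗ Bl = LinearMap.id := by
    refine LinearMap.ext fun w => ?_
    have h5 : E (Bl w) = b.equivFun.symm w := by
      apply Subtype.ext
      rw [hEv]
      exact h3 _ (b.equivFun.symm w).2
    show b.equivFun (E (Bl w)) = w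
    rw [h5, LinearEquiv.apply_symm_apply]
  refine ⟨LinearMap.toMatrix' Bl, LinearMap.toMatrix' Cl, ?_, ?_, ?_, ?_⟩
  · rw [← LinearMap.toMatrix'_comp, hBC]
    exact LinearMap.toMatrix'_toLin' e
  · rw [← LinearMap.toMatrix'_comp, hCB, LinearMap.toMatrix'_id]
  · intro w
    rw [hBw]
    exact (b.equivFun.symm w).2
  · intro v hv
    refine ⟨b.equivFun ⟨v, hv⟩, ?_⟩
    rw [hBw]
    simp [Bl]

end proj

/-! ### The trace identity -/

theorem bilin {κ : Type} [Fintype κ] (e P Q : Matrix κ κ ℂ) :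
    ∃ (n : ℕ) (x y : Fin n → ℂ), ∀ τ : ℂ ≃ₐ[ℚ] ℂ,
      ∑ m, x m * τ (y m) = (e * (Q * P.map τ)).trace * (e * (Q.map τ * P)).trace := by
  classical
  let T := (κ × κ × κ) × (κ × κ × κ)
  let X : T → ℂ := fun t => (e t.1.1 t.1.2.1 * Q t.1.2.1 t.1.2.2) * (e t.2.1 t.2.2.1 * P t.2.2.2 t.2.1)
  let Y : T → ℂ := fun t => P t.1.2.2 t.1.1 * Q t.2.2.1 t.2.2.2
  let q : T ≃ Fin (Fintype.card T) := Fintype.equivFin T
  refine ⟨Fintype.card T, fun m => X (q.symm m), fun m => Y (q.symm m), fun τ => ?_⟩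
  have h0 : ∑ m, X (q.symm m) * τ (Y (q.symm m)) = ∑ t : T, X t * τ (Y t) :=
    Equiv.sum_comp q.symm (fun t => X t * τ (Y t))
  rw [h0]
  have h1 : (e * (Q * P.map τ)).trace =
      ∑ t : κ × κ × κ, e t.1 t.2.1 * Q t.2.1 t.2.2 * τ (P t.2.2 t.1) := by
    rw [Fintype.sum_prod_type, Matrix.trace]
    refine Finset.sum_congr rfl fun i _ => ?_
    rw [Matrix.diag_apply, Matrix.mul_apply, Fintype.sum_prod_type]
    refine Finset.sum_congr rfl fun j _ => ?_
    rw [Matrix.mul_apply, Finset.mul_sum]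
    refine Finset.sum_congr rfl fun k _ => ?_
    rw [Matrix.map_apply]
    ring
  have h2 : (e * (Q.map τ * P)).trace =
      ∑ t : κ × κ × κ, e t.1 t.2.1 * P t.2.2 t.1 * τ (Q t.2.1 t.2.2) := by
    rw [Fintype.sum_prod_type, Matrix.trace]
    refine Finset.sum_congr rfl fun i _ => ?_
    rw [Matrix.diag_apply, Matrix.mul_apply, Fintype.sum_prod_type]
    refine Finset.sum_congr rfl fun j _ => ?_
    rw [Matrix.mul_apply, Finset.mul_sum]
    refine Finset.sum_congr rfl fun k _ => ?_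
    rw [Matrix.map_apply]
    ring
  rw [h1, h2, Finset.sum_mul_sum, ← Fintype.sum_prod_type']
  refine Finset.sum_congr rfl fun t _ => ?_
  simp only [X, Y, map_mul]
  ring

/-- The cocycle. -/
noncomputable def coc {g : ℕ} (A : AbVar g) (τ : ℂ ≃ₐ[ℚ] ℂ) : Matrix (Idx g) (Idx g) ℂ :=
  A.per⁻¹ * A.per.map τ

theorem per_isUnit {g : ℕ} (A : AbVar g) : IsUnit A.per.det := A.nondeg

theorem map_mul' {κ : Type} [Fintype κ] (M N : Matrix κ κ ℂ) (τ : ℂ ≃ₐ[ℚ] ℂ) :
    (M * N).map τ = M.map τ * N.map τ := by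
  ext i j
  simp only [Matrix.map_apply, Matrix.mul_apply, map_sum, map_mul]

theorem map_one' {κ : Type} [DecidableEq κ] (τ : ℂ ≃ₐ[ℚ] ℂ) :
    (1 : Matrix κ κ ℂ).map τ = 1 := by
  ext i j
  simp only [Matrix.map_apply, Matrix.one_apply]
  split_ifs <;> simp

theorem map_pow' {κ : Type} [Fintype κ] [DecidableEq κ] (M : Matrix κ κ ℂ) (τ : ℂ ≃ₐ[ℚ] ℂ)
    (n : ℕ) : (M ^ n).map τ = M.map τ ^ n := by
  induction n with
  | zero => rw [pow_zero, pow_zero, map_one']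
  | succ n ih => rw [pow_succ, pow_succ, map_mul', ih]

theorem map_mulVec' {κ : Type} [Fintype κ] (M : Matrix κ κ ℂ) (v : κ → ℂ) (τ : ℂ ≃ₐ[ℚ] ℂ) :
    (M.map τ) *ᵥ (fun k => τ (v k)) = fun k => τ ((M *ᵥ v) k) := by
  funext i
  simp only [Matrix.mulVec, dotProduct, Matrix.map_apply, map_sum, map_mul]

theorem coc_mul {g : ℕ} (A : AbVar g) (τ : ℂ ≃ₐ[ℚ] ℂ) :
    coc A τ * (A.per⁻¹.map τ * A.per) = 1 := by
  rw [coc, mul_assoc, ← mul_assoc (A.per.map τ), ← map_mul', Matrix.mul_nonsing_inv _ (per_isUnit A),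
    map_one', one_mul, Matrix.nonsing_inv_mul _ (per_isUnit A)]

theorem key (hL : Stmt_Ldp) {g : ℕ} (A : AbVar g) (hE : (⨆ χ, A.eig χ) = ⊤) (ψ : A.Chr)
    (hr : Module.finrank ℂ (A.eig ψ) = 2)
    (hc : ∀ τ ∈ GalA, ∀ α ∈ A.EndQ, coc A τ * AbVar.toC α = AbVar.toC α * coc A τ)
    (ht : ∀ τ ∈ GalA, ∃ n : ℕ, 1 ≤ n ∧ ∃ c : ℂ, ∀ v ∈ A.eig ψ, (coc A τ ^ n) *ᵥ v = c • v) :
    ∀ τ ∈ GalA, ∃ l : ℂ, ∀ v ∈ A.eig ψ, coc A τ *ᵥ v = l • v := by
  obtain ⟨e, -, he2, he3, he4⟩ := proj A hE ψ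
  obtain ⟨B, C, hBC, hCB, hBw, hBs⟩ := factor A ψ hr e he3 he4
  have heB : e * B = B := by rw [← hBC, Matrix.mul_assoc, hCB, Matrix.mul_one]
  have hCe : C * e = C := by rw [← hBC, ← Matrix.mul_assoc, hCB, Matrix.one_mul]
  obtain ⟨N, x, y, hxy⟩ := bilin e A.per A.per⁻¹
  -- the traces
  have htr1 : ∀ τ, (e * (A.per⁻¹ * A.per.map τ)).trace = (C * coc A τ * B).trace := by
    intro τ
    rw [← hBC, Matrix.mul_assoc, Matrix.trace_mul_comm, coc]
  have htr2 : ∀ τ : ℂ ≃ₐ[ℚ] ℂ, (e * (A.per⁻¹.map τ * A.per)).trace =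
      (C * (A.per⁻¹.map τ * A.per) * B).trace := by
    intro τ
    rw [← hBC, Matrix.mul_assoc, Matrix.trace_mul_comm]
  have hmm : ∀ τ ∈ GalA, (C * coc A τ * B) * (C * (A.per⁻¹.map τ * A.per) * B) = 1 := by
    intro τ hτ
    calc (C * coc A τ * B) * (C * (A.per⁻¹.map τ * A.per) * B)
        = C * (coc A τ * (B * C)) * (A.per⁻¹.map τ * A.per) * B := by simp only [Matrix.mul_assoc]
      _ = C * (e * coc A τ) * (A.per⁻¹.map τ * A.per) * B := by rw [hBC, he2 _ (hc τ hτ)]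
      _ = (C * e) * (coc A τ * (A.per⁻¹.map τ * A.per)) * B := by simp only [Matrix.mul_assoc]
      _ = 1 := by rw [coc_mul, Matrix.mul_one, hCe, hCB]
  have haB : ∀ τ ∈ GalA, coc A τ * B = B * (C * coc A τ * B) := by
    intro τ hτ
    calc coc A τ * B = coc A τ * (e * B) := by rw [heB]
      _ = (coc A τ * e) * B := by rw [Matrix.mul_assoc]
      _ = (e * coc A τ) * B := by rw [he2 _ (hc τ hτ)]
      _ = B * (C * coc A τ * B) := by rw [← hBC]; simp only [Matrix.mul_assoc]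
  have hpow : ∀ τ ∈ GalA, ∀ n : ℕ, coc A τ ^ n * B = B * (C * coc A τ * B) ^ n := by
    intro τ hτ n
    induction n with
    | zero => rw [pow_zero, pow_zero, Matrix.one_mul, Matrix.mul_one]
    | succ n ih => rw [pow_succ, Matrix.mul_assoc, haB τ hτ, ← Matrix.mul_assoc, ih, Matrix.mul_assoc, ← pow_succ]
  have htors : ∀ τ ∈ GalA, ∃ n : ℕ, 1 ≤ n ∧ ∃ c : ℂ,
      (C * coc A τ * B) ^ n = c • (1 : Matrix (Fin 2) (Fin 2) ℂ) := by
    intro τ hτ
    obtain ⟨n, hn, c, hcv⟩ := ht τ hτ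
    refine ⟨n, hn, c, ?_⟩
    have h1 : coc A τ ^ n * B = c • B := by
      rw [← Matrix.mulVec_injective.eq_iff]
      funext w
      rw [← Matrix.mulVec_mulVec, hcv _ (hBw w), Matrix.smul_mulVec]
    calc (C * coc A τ * B) ^ n = (C * B) * (C * coc A τ * B) ^ n := by rw [hCB, Matrix.one_mul]
      _ = C * (coc A τ ^ n * B) := by rw [hpow τ hτ, Matrix.mul_assoc]
      _ = c • 1 := by rw [h1, Matrix.mul_smul, hCB]
  have halg : ∀ τ ∈ GalA, IsAlgebraic ℚ (∑ m, x m * τ (y m)) := by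
    intro τ hτ
    obtain ⟨n, hn, c, hcc⟩ := htors τ hτ
    rw [hxy τ, htr1, htr2]
    exact (two _ _ (hmm τ hτ) n hn c hcc).1
  have hconst := hL N x y halg
  have hone : ∑ m, x m * y m = 4 := by
    have h1 := hxy AlgEquiv.refl
    have h2 : A.per.map (AlgEquiv.refl : ℂ ≃ₐ[ℚ] ℂ) = A.per := by ext i j; simp
    have h3 : A.per⁻¹.map (AlgEquiv.refl : ℂ ≃ₐ[ℚ] ℂ) = A.per⁻¹ := by ext i j; simp
    rw [h2, h3, Matrix.nonsing_inv_mul _ (per_isUnit A), Matrix.mul_one] at h1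
    have h4 : e.trace = 2 := by
      rw [← hBC, Matrix.trace_mul_comm, hCB, Matrix.trace_one]
      simp
    rw [h4] at h1
    simp only [AlgEquiv.coe_refl, id_eq] at h1
    rw [h1]
    norm_num
  intro τ hτ
  obtain ⟨n, hn, c, hcc⟩ := htors τ hτ
  have h5 : (C * coc A τ * B).trace * (C * (A.per⁻¹.map τ * A.per) * B).trace = 4 := by
    rw [← htr1, ← htr2, ← hxy τ, hconst τ hτ, hone]
  obtain ⟨l, hl⟩ := (two _ _ (hmm τ hτ) n hn c hcc).2 h5
  refine ⟨l, fun v hv => ?_⟩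
  obtain ⟨w, rfl⟩ := hBs v hv
  rw [Matrix.mulVec_mulVec, haB τ hτ, hl, Matrix.mul_smul, Matrix.mul_one, Matrix.smul_mulVec]

/-! ### Generators -/

theorem gen {g : ℕ} (A : AbVar g) (σ τ : ℂ ≃ₐ[ℚ] ℂ) (hτ : τ ∈ GalA) :
    ∃ p ∈ Gam A, p.1.val = (coc A τ).map σ := by
  have hdet : ((coc A τ).map σ).det ≠ 0 := by
    intro h0
    have h1 : (coc A τ * (A.per⁻¹.map τ * A.per)).map σ = 1 := by rw [coc_mul, map_one']
    rw [map_mul'] at h1
    have h2 := congrArg Matrix.det h1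
    rw [Matrix.det_mul, h0, zero_mul, Matrix.det_one] at h2
    exact zero_ne_one h2
  have hz : σ (τ tpi / tpi) ≠ 0 := by
    rw [Ne, map_eq_zero_iff σ σ.injective]
    refine div_ne_zero ?_ tpi_ne_zero
    rw [Ne, map_eq_zero_iff τ τ.injective]
    exact tpi_ne_zero
  refine ⟨(Matrix.GeneralLinearGroup.mkOfDetNeZero _ hdet, Units.mk0 _ hz), ?_, rfl⟩
  exact Subgroup.subset_closure ⟨σ, τ, hτ, rfl, rfl⟩

theorem toC_map {g : ℕ} (α : Matrix (Idx g) (Idx g) ℚ) (σ : ℂ ≃ₐ[ℚ] ℂ) :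
    (AbVar.toC α).map σ = AbVar.toC α := by
  ext i j
  simp [AbVar.toC]

theorem eig_map {g : ℕ} (A : AbVar g) (σ : ℂ ≃ₐ[ℚ] ℂ) (χ : A.Chr) (v : Idx g → ℂ)
    (hv : v ∈ A.eig χ) : (fun k => σ (v k)) ∈ A.eig (A.galChr σ χ) := by
  intro α
  have h := map_mulVec' (AbVar.toC (α : Matrix (Idx g) (Idx g) ℚ)) v σ
  rw [toC_map] at h
  rw [h, hv α]
  funext k
  simp [AbVar.galChr]

end TORSX

open TORSX in
theorem tors_proof (hL : Stmt_Ldp) (hI : Stmt_Irr) (h1 : Stmt_Gb1) (hE : Stmt_Eig) :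
    Stmt_Tors := by
  intro g A hA χ hχ
  by_contra hcon
  push Not at hcon
  have htop := (hE g A hA).2
  -- torsion of the cocycle on all conjugate eigenspaces
  have hscal : ∀ σ τ : ℂ ≃ₐ[ℚ] ℂ, τ ∈ GalA → ∃ l : ℂ, ∀ v ∈ A.eig (A.galChr σ.symm χ),
      coc A τ *ᵥ v = l • v := by
    intro σ
    set ψ := A.galChr σ.symm χ with hψ
    have hψχ : A.galChr σ ψ = χ := by
      refine AlgHom.ext fun α => ?_
      simp [hψ, AbVar.galChr]
    have hc : ∀ τ ∈ GalA, ∀ α ∈ A.EndQ, coc A τ * AbVar.toC α = AbVar.toC α * coc A τ := by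
      intro τ hτ α hα
      obtain ⟨p, hp, hpv⟩ := gen A AlgEquiv.refl τ hτ
      have h2 : (coc A τ).map (AlgEquiv.refl : ℂ ≃ₐ[ℚ] ℂ) = coc A τ := by ext i j; simp
      have h3 := (h1 g A p hp).1 α hα
      rw [hpv, h2] at h3
      exact h3
    have ht : ∀ τ ∈ GalA, ∃ n : ℕ, 1 ≤ n ∧ ∃ c : ℂ, ∀ v ∈ A.eig ψ,
        (coc A τ ^ n) *ᵥ v = c • v := by
      intro τ hτ
      obtain ⟨p, hp, hpv⟩ := gen A σ τ hτ
      obtain ⟨n, hn, c, hcv⟩ := hcon p hp
      refine ⟨n, hn, σ.symm c, fun v hv => ?_⟩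
      have h2 : (fun k => σ (v k)) ∈ A.eig χ := by
        have := eig_map A σ ψ v hv
        rwa [hψχ] at this
      have h3 := hcv _ h2
      rw [hpv, ← map_pow', map_mulVec'] at h3
      funext k
      have h4 := congrFun h3 k
      simp only [Pi.smul_apply, smul_eq_mul] at h4 ⊢
      apply σ.injective
      rw [h4, map_mul, AlgEquiv.apply_symm_apply]
    by_cases hr : A.IsRealChr ψ
    · exact key hL A htop ψ (hA.real_dim ψ hr) hc ht
    · intro τ hτ
      obtain ⟨⟨v0, hv0⟩, -, hv1⟩ := finrank_eq_one_iff'.1 (hA.nonreal_dim ψ hr)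
      obtain ⟨l, hl⟩ := hv1 ⟨coc A τ *ᵥ v0, eig_stable A ψ _ (hc τ hτ) v0 hv0⟩
      refine ⟨l, fun v hv => ?_⟩
      obtain ⟨a, ha⟩ := hv1 ⟨v, hv⟩
      have ha' : a • v0 = v := congrArg Subtype.val ha
      have hl' : l • v0 = coc A τ *ᵥ v0 := congrArg Subtype.val hl
      rw [← ha', Matrix.mulVec_smul, ← hl', smul_comm]
  -- all elements of `Γ` are scalar on `eig χ`
  have hall : ∀ p ∈ Gam A, ∃ c : ℂ, ∀ v ∈ A.eig χ, p.1.val *ᵥ v = c • v := by
    intro p hp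
    induction hp using Subgroup.closure_induction with
    | mem p hp =>
      obtain ⟨σ, τ, hτ, hp1, -⟩ := hp
      obtain ⟨l, hl⟩ := hscal σ τ hτ
      refine ⟨σ l, fun v hv => ?_⟩
      have h2 := hl _ (eig_map A σ.symm χ v hv)
      have h3 : v = fun k => σ (σ.symm (v k)) := by funext k; simp
      have h4 : p.1.val = (coc A τ).map σ := hp1
      rw [h4]
      conv_lhs => rw [h3]
      rw [map_mulVec' _ (fun k => σ.symm (v k)) σ, h2]
      funext k
      simp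
    | one => exact ⟨1, fun v _ => by simp⟩
    | mul p q _ _ hp hq =>
      obtain ⟨c, hc⟩ := hp
      obtain ⟨d, hd⟩ := hq
      refine ⟨c * d, fun v hv => ?_⟩
      have : (p * q).1.val = p.1.val * q.1.val := rfl
      rw [this, ← Matrix.mulVec_mulVec, hd v hv, Matrix.mulVec_smul, hc v hv, smul_smul, mul_comm]
    | inv p _ hp =>
      obtain ⟨c, hc⟩ := hp
      refine ⟨c⁻¹, fun v hv => ?_⟩
      have h2 : (p⁻¹).1.val * p.1.val = 1 := by
        have : (p⁻¹).1.val * p.1.val = ((p⁻¹).1 * p.1).val := rfl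
        rw [this, Prod.fst_inv, inv_mul_cancel]
        rfl
      have h3 : v = c • ((p⁻¹).1.val *ᵥ v) := by
        rw [← Matrix.mulVec_smul, ← hc v hv, Matrix.mulVec_mulVec, h2, Matrix.one_mulVec]
      by_cases h0 : c = 0
      · rw [h0, zero_smul] at h3
        rw [h3, Matrix.mulVec_zero, smul_zero]
      · conv_rhs => rw [h3]
        rw [smul_smul, inv_mul_cancel₀ h0, one_smul]
  have hfr := hA.real_dim χ hχ
  have hnt : Nontrivial (A.eig χ) := Module.nontrivial_of_finrank_pos (R := ℂ) (by rw [hfr]; norm_num)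
  obtain ⟨⟨v, hv⟩, hv0⟩ := exists_ne (0 : A.eig χ)
  have hv0' : v ≠ 0 := fun h => hv0 (Subtype.ext h)
  obtain ⟨p, hp, hpc⟩ := hI g A hA χ hχ v hv hv0'
  obtain ⟨c, hc⟩ := hall p hp
  exact hpc c (hc v hv)

end Pool.Agent.DRB
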