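import Pool.Agent.FDR.PERANY
import Pool.Agent.FDR.PERGROUP
import Pool.Agent.FDR.SL.BOUND
import Pool.Agent.FDR.SL.DAEV
import Pool.Agent.FDR.SL.DBASIS
import Pool.Agent.FDR.SL.DCAU
import Pool.Agent.FDR.SL.DLEAD
import Pool.Agent.FDR.SL.DLINE
import Pool.Agent.FDR.SL.DORDA
import Pool.Agent.FDR.SL.DORDB
import Pool.Agent.FDR.SL.DORDC
import Pool.Agent.FDR.SL.DPERM
import Pool.Agent.FDR.SL.GAPP
import Pool.Agent.FDR.SL.LIOU
import Pool.Agent.FDR.SL.MAIN
import Pool.Agent.FDR.SL.SCHW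
import Pool.Agent.FDR.SL.SIEG
import Pool.Agent.FDR.SL.SLAUX
import Pool.Agent.FDR.SL.SLNUM
import Pool.Agent.DRB.Ad1
import Pool.Agent.DRB.Ad2
import Pool.Agent.DRB.Ad3
import Pool.Agent.DRB.Adj
import Pool.Agent.DRB.Aut1
import Pool.Agent.DRB.AUT2
import Pool.Agent.DRB.Cen
import Pool.Agent.DRB.Desca
import Pool.Agent.DRB.Descq
import Pool.Agent.DRB.EXP
import Pool.Agent.DRB.Eig
import Pool.Agent.DRB.Fin
import Pool.Agent.DRB.Gb1
import Pool.Agent.DRB.Gb2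
import Pool.Agent.DRB.Gb3
import Pool.Agent.DRB.Gb4
import Pool.Agent.DRB.Grow
import Pool.Agent.DRB.GrowD
import Pool.Agent.DRB.Gt
import Pool.Agent.DRB.H5
import Pool.Agent.DRB.Herm
import Pool.Agent.DRB.Homx
import Pool.Agent.DRB.Indep
import Pool.Agent.DRB.Irr
import Pool.Agent.DRB.JD
import Pool.Agent.DRB.Jnf
import Pool.Agent.DRB.Ldp
import Pool.Agent.DRB.Leg
import Pool.Agent.DRB.Lind
import Pool.Agent.DRB.MAIN
import Pool.Agent.DRB.Pgl
import Pool.Agent.DRB.Pos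
import Pool.Agent.DRB.Qp
import Pool.Agent.DRB.Recur
import Pool.Agent.DRB.Rev
import Pool.Agent.DRB.Slav
import Pool.Agent.DRB.T1
import Pool.Agent.DRB.T2
import Pool.Agent.DRB.T2r
import Pool.Agent.DRB.TdSL
import Pool.Agent.DRB.Tors

/-!
# De Rham-Betti conjecture for abelian varieties of RM and CM type: assembly
-/

namespace Pool.Agent.DRB

theorem slC : Pool.Agent.FDR.Stmt_SL :=
  Pool.Agent.FDR.SL.MAIN.thm_SL Pool.Agent.FDR.SL.DPERM.thm_DPERM Pool.Agent.FDR.SL.DAEV.thm_DAEV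
    Pool.Agent.FDR.SL.DLINE.thm_DLINE Pool.Agent.FDR.SL.DBASIS.thm_DBASIS
    Pool.Agent.FDR.SL.DORDA.thm_DORDA Pool.Agent.FDR.SL.DORDB.thm_DORDB
    Pool.Agent.FDR.SL.DORDC.thm_DORDC
    (Pool.Agent.FDR.SL.DLEAD.thm_DLEAD Pool.Agent.FDR.SL.DORDC.thm_DORDC)
    Pool.Agent.FDR.SL.DCAU.thm_DCAU Pool.Agent.FDR.SL.SCHW.thm_SCHW
    (Pool.Agent.FDR.SLAUX.thm_SLAUX Pool.Agent.FDR.SL.BOUND.thm_BOUND
      Pool.Agent.FDR.SL.SIEG.thm_SIEG Pool.Agent.FDR.SL.LIOU.thm_LIOU)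
    (Pool.Agent.FDR.SL.GAPP.thm_GAPP Pool.Agent.FDR.PERANY.thm_PERANY
      (Pool.Agent.FDR.PERGROUP.thm_PERGROUP Pool.Agent.FDR.PERANY.thm_PERANY)) Pool.Agent.FDR.SL.SLNUM.thm_SLNUM

theorem slavC : Stmt_Slav := slav_proof (td_of_sl slC) grow_proof growD_proof

theorem indepC : Stmt_Indep := indep_proof qp_proof

theorem t1C : Stmt_T1 := t1_proof slavC indepC

theorem t2C : Stmt_T2 :=
  t2_proof (t2r_proof slavC) indepC recur_proof qp_proof grow_proof growD_proof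

theorem posC : Stmt_Pos := pos_proof (herm_proof leg_proof) leg_proof

theorem eigC : Stmt_Eig := eig_proof posC

theorem descqC : Stmt_DescQ := descq_proof aut1_proof

theorem descaC : Stmt_DescA := desca_proof aut2_proof

theorem finC : Stmt_Fin := fin_proof t2C aut2_proof descqC gb4_proof

theorem gb1C : Stmt_Gb1 := gb1_proof leg_proof

theorem irrC : Stmt_Irr := irr_proof t1C finC gb1C (gb3_proof descaC) gb4_proof eigC descqC

theorem torsC : Stmt_Tors := tors_proof (ldp_proof aut2_proof descaC) irrC gb1C eigC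

theorem h5C : Stmt_H5 := h5_proof finC lind_proof aut2_proof eigC posC gb1C gb4_proof leg_proof

theorem gtC : Stmt_Gt :=
  gt_proof (jd_proof adj_proof) exp_proof jnf_proof (ad1_proof ad2_proof (ad3_proof ad2_proof pgl_proof))
    (cen_proof homx_proof) adj_proof homx_proof

/-- The main theorem. -/
theorem mainC : MainStatement :=
  main_proof eigC gb1C gb2_proof finC irrC torsC h5C posC leg_proof gtC (rev_proof leg_proof)

end Pool.Agent.DRB
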