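import Pool.Agent.DRB.Stmts3

/-!
# DRB, module DIAG: diagonal Lie algebras and diagonal groups
-/

set_option autoImplicit false

open scoped BigOperators Matrix

namespace Pool.Agent.DRB

namespace DIAGX

/-- The multipliers which preserve `D`. -/
def stab {P : Type} (D : Submodule ℂ (P → ℂ)) : Subalgebra ℂ (P → ℂ) where
  carrier := {f | ∀ u ∈ D, f * u ∈ D}
  mul_mem' := by
    intro a b ha hb
    rw [Set.mem_ofPred_eq] at ha hb ⊢
    intro u hu
    rw [mul_assoc]
    exact ha _ (hb _ hu)
  add_mem' := by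
    intro a b ha hb
    rw [Set.mem_ofPred_eq] at ha hb ⊢
    intro u hu
    rw [add_mul]
    exact D.add_mem (ha _ hu) (hb _ hu)
  algebraMap_mem' := by
    intro c
    rw [Set.mem_ofPred_eq]
    intro u hu
    have h : algebraMap ℂ (P → ℂ) c * u = c • u := by
      funext p
      rfl
    rw [h]
    exact D.smul_mem c hu

lemma mem_stab {P : Type} {D : Submodule ℂ (P → ℂ)} {f : P → ℂ} :
    f ∈ stab D ↔ ∀ u ∈ D, f * u ∈ D := by
  unfold stab
  rw [← SetLike.mem_coe]
  exact Iff.of_eq (Set.mem_ofPred_eq ..)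

/-- A function which is constant on the classes of a family of multipliers is a multiplier. -/
lemma of_classes {P : Type} [Fintype P] (D : Submodule ℂ (P → ℂ)) (F : Set (P → ℂ))
    (hF : ∀ f ∈ F, f ∈ stab D) (τ : P → ℂ)
    (hτ : ∀ p q, (∀ f ∈ F, f p = f q) → τ p = τ q) : τ ∈ stab D := by
  classical
  have hsep : ∀ p q : P, (¬ ∀ f ∈ F, f p = f q) → ∃ f ∈ F, f p ≠ f q := by
    intro p q h
    push Not at h
    exact h
  -- the projections
  have hproj : ∀ p : P, ∃ L ∈ stab D, ∀ q, L q = if (∀ f ∈ F, f p = f q) then 1 else 0 := by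
    intro p
    choose f hfF hf using hsep p
    set s : Finset P := Finset.univ.filter (fun q => ¬ ∀ f ∈ F, f p = f q) with hs
    have hs' : ∀ q ∈ s, ¬ ∀ f ∈ F, f p = f q := fun q hq => (Finset.mem_filter.1 hq).2
    refine ⟨∏ q ∈ s.attach, ((f q.1 (hs' _ q.2) p - f q.1 (hs' _ q.2) q.1)⁻¹ •
      (f q.1 (hs' _ q.2) - algebraMap ℂ (P → ℂ) (f q.1 (hs' _ q.2) q.1))), ?_, ?_⟩
    · apply Subalgebra.prod_mem
      intro q _
      apply Subalgebra.smul_mem
      apply Subalgebra.sub_mem
      · exact hF _ (hfF _ _)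
      · exact Subalgebra.algebraMap_mem _ _
    · intro q
      rw [Finset.prod_apply]
      split_ifs with h
      · apply Finset.prod_eq_one
        intro q' _
        have h1 := h _ (hfF q'.1 (hs' _ q'.2))
        have h2 := hf q'.1 (hs' _ q'.2)
        simp only [Pi.smul_apply, Pi.sub_apply, smul_eq_mul, Pi.algebraMap_apply,
          Algebra.algebraMap_self, RingHom.id_apply]
        rw [← h1]
        exact inv_mul_cancel₀ (sub_ne_zero.2 h2)
      · have hq : q ∈ s := Finset.mem_filter.2 ⟨Finset.mem_univ _, h⟩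
        apply Finset.prod_eq_zero (Finset.mem_attach _ ⟨q, hq⟩)
        simp
  choose L hL1 hL2 using hproj
  -- the number of elements of the class
  set N : P → ℕ := fun p => (Finset.univ.filter (fun q => ∀ f ∈ F, f p = f q)).card with hN
  have hN0 : ∀ p, (N p : ℂ) ≠ 0 := by
    intro p
    have : 0 < N p := Finset.card_pos.2 ⟨p, Finset.mem_filter.2 ⟨Finset.mem_univ _, fun _ _ => rfl⟩⟩
    exact_mod_cast this.ne'
  have hNeq : ∀ p q, (∀ f ∈ F, f p = f q) → N p = N q := by
    intro p q h
    rw [hN]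
    simp only
    congr 1
    ext x
    simp only [Finset.mem_filter, Finset.mem_univ, true_and]
    constructor
    · intro hx f hf
      rw [← h f hf, hx f hf]
    · intro hx f hf
      rw [h f hf, hx f hf]
  have hsum : τ = ∑ p, (τ p / N p) • L p := by
    funext q
    rw [Finset.sum_apply]
    simp only [Pi.smul_apply, smul_eq_mul, hL2, mul_ite, mul_one, mul_zero]
    rw [← Finset.sum_filter]
    have h1 : ∀ p ∈ Finset.univ.filter (fun p => ∀ f ∈ F, f p = f q), τ p / N p = τ q / N q := by
      intro p hp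
      have h2 := (Finset.mem_filter.1 hp).2
      rw [hτ p q h2, hNeq p q h2]
    rw [Finset.sum_congr rfl h1, Finset.sum_const, nsmul_eq_mul]
    have h3 : (Finset.univ.filter (fun p => ∀ f ∈ F, f p = f q)).card = N q := by
      rw [hN]
      simp only
      congr 1
      ext x
      simp only [Finset.mem_filter, Finset.mem_univ, true_and]
      exact ⟨fun h f hf => (h f hf).symm, fun h f hf => (h f hf).symm⟩
    rw [h3]
    field_simp [hN0 q]
  rw [hsum]
  apply Subalgebra.sum_mem
  intro p _
  exact Subalgebra.smul_mem _ (hL1 p) _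

end DIAGX

open DIAGX in
theorem diag_proof : Stmt_Diag := by
  classical
  intro ι _ _ t D Z hZ ζ ν hrel
  set χ : (ι → ℂ) × ℂ → TIdx t ι → ℂ := fun z p => (t.k p.1 : ℂ) * z.2 + ∑ s, z.1 (p.2 s) with hχ
  set τ : TIdx t ι → ℂ := fun p => ν.val ^ (t.k p.1) * ∏ s, (ζ (p.2 s)).val with hτdef
  have hD : ∀ z (u : TIdx t ι → ℂ), DAct t (Matrix.diagonal z.1) z.2 u = χ z * u := by
    intro z u
    funext p
    change (t.k p.1 : ℂ) * z.2 * u p + ∑ s : Fin (t.a p.1), ∑ j : ι,
      Matrix.diagonal z.1 (p.2 s) j * u ⟨p.1, Function.update p.2 s j⟩ = _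
    have h1 : ∀ s : Fin (t.a p.1), ∑ j : ι,
        Matrix.diagonal z.1 (p.2 s) j * u ⟨p.1, Function.update p.2 s j⟩ = z.1 (p.2 s) * u p := by
      intro s
      rw [Finset.sum_eq_single (p.2 s)]
      · rw [Matrix.diagonal_apply_eq, Function.update_eq_self]
      · intro j _ hj
        rw [Matrix.diagonal_apply_ne' _ hj, zero_mul]
      · intro h
        exact absurd (Finset.mem_univ _) h
    rw [Finset.sum_congr rfl fun s _ => h1 s, ← Finset.sum_mul, Pi.mul_apply, hχ]
    ring
  have hT : ∀ u : TIdx t ι → ℂ, TAct t (Matrix.diagonal fun i => (ζ i).val) ν.val u = τ * u := by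
    intro u
    funext p
    change ν.val ^ (t.k p.1) * ∑ J : Fin (t.a p.1) → ι,
      (∏ s, Matrix.diagonal (fun i => (ζ i).val) (p.2 s) (J s)) * u ⟨p.1, J⟩ = _
    rw [Finset.sum_eq_single p.2]
    · simp only [Matrix.diagonal_apply_eq, Pi.mul_apply, hτdef]
      ring
    · intro J _ hJ
      obtain ⟨s, hs⟩ := Function.ne_iff.1 hJ
      rw [Finset.prod_eq_zero (Finset.mem_univ s), zero_mul]
      exact Matrix.diagonal_apply_ne' _ hs
    · intro h
      exact absurd (Finset.mem_univ _) h
  have hmem : τ ∈ stab D := by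
    refine of_classes D (χ '' Z) ?_ τ ?_
    · rintro _ ⟨z, hz, rfl⟩
      rw [mem_stab]
      intro u hu
      rw [← hD]
      exact hZ z hz (Submodule.mem_map_of_mem hu)
    · intro p q hpq
      set cnt : TIdx t ι → ι → ℤ := fun p i => ((Finset.univ.filter (fun s => p.2 s = i)).card : ℤ)
        with hcnt
      have hsumC : ∀ (p : TIdx t ι) (x : ι → ℂ), ∑ s, x (p.2 s) = ∑ i, (cnt p i : ℂ) * x i := by
        intro p x
        rw [← Finset.sum_fiberwise_of_maps_to (s := Finset.univ) (t := Finset.univ)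
          (g := fun s => p.2 s) (fun _ _ => Finset.mem_univ _)]
        refine Finset.sum_congr rfl fun i _ => ?_
        rw [Finset.sum_congr rfl (fun s hs => by rw [(Finset.mem_filter.1 hs).2]),
          Finset.sum_const, nsmul_eq_mul, hcnt]
        push_cast
        rfl
      have hprodC : ∀ p : TIdx t ι, ∏ s, ζ (p.2 s) = ∏ i, ζ i ^ cnt p i := by
        intro p
        rw [← Finset.prod_fiberwise_of_maps_to (s := Finset.univ) (t := Finset.univ)
          (g := fun s => p.2 s) (fun _ _ => Finset.mem_univ _)]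
        refine Finset.prod_congr rfl fun i _ => ?_
        rw [Finset.prod_congr rfl (fun s hs => by rw [(Finset.mem_filter.1 hs).2]),
          Finset.prod_const, hcnt, zpow_natCast]
      have h1 := hrel (fun i => cnt p i - cnt q i) (t.k p.1 - t.k q.1) (by
        intro z hz
        have h2 := hpq _ ⟨z, hz, rfl⟩
        rw [hχ] at h2
        simp only at h2
        rw [hsumC, hsumC] at h2
        push_cast
        simp only [sub_mul, Finset.sum_sub_distrib]
        linear_combination h2)
      have h3 : ν ^ t.k p.1 * ∏ s, ζ (p.2 s) = ν ^ t.k q.1 * ∏ s, ζ (q.2 s) := by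
        rw [hprodC, hprodC]
        simp only [zpow_sub, Finset.prod_mul_distrib, Finset.prod_inv_distrib] at h1
        have h4 : (∏ i, ζ i ^ cnt p i) * ν ^ t.k p.1 =
            (∏ i, ζ i ^ cnt q i) * ν ^ t.k q.1 := by
          rw [← div_eq_one, ← h1, div_eq_mul_inv, mul_inv]
          simp only [mul_comm, mul_left_comm, mul_assoc]
        rw [mul_comm, h4, mul_comm]
      have h5 := congrArg Units.val h3
      rw [hτdef]
      simpa only [Units.val_mul, Units.val_zpow_eq_zpow_val, Units.coe_prod] using h5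
  rintro _ ⟨u, hu, rfl⟩
  rw [hT]
  exact mem_stab.1 hmem u hu

end Pool.Agent.DRB
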