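import Pool.Agent.DRB.Stmts3

/-!
# De Rham-Betti conjecture, second theorem: module DEC

The decomposition `H_1(A, ℂ) = ⊕ W_i ⊗ S_i` (structure `Dec`) from Wedderburn's theorem (`Stmt_Wed`) and the
polarisation (`Stmt_Pos2`).
-/

open scoped BigOperators
open Matrix

namespace Pool.Agent.DRB

noncomputable section

namespace DecX

theorem isEnd_one {g : ℕ} (A : AbVar g) : A.IsEnd 1 := A.EndQ.one_mem

theorem isEnd_mul {g : ℕ} (A : AbVar g) {α β : Matrix (Idx g) (Idx g) ℚ} (hα : A.IsEnd α)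
    (hβ : A.IsEnd β) : A.IsEnd (α * β) := A.EndQ.mul_mem hα hβ

theorem toC_one {ι : Type} [DecidableEq ι] : AbVar.toC (1 : Matrix ι ι ℚ) = 1 := by
  unfold AbVar.toC
  exact Matrix.map_one _ (map_zero _) (map_one _)

theorem toC_mem {g : ℕ} (A : AbVar g) {α : Matrix (Idx g) (Idx g) ℚ} (hα : A.IsEnd α) :
    AbVar.toC α ∈ A.EndC := Submodule.subset_span ⟨α, hα, rfl⟩

theorem one_mem {g : ℕ} (A : AbVar g) : (1 : Matrix (Idx g) (Idx g) ℂ) ∈ A.EndC := by
  have h := toC_mem A (isEnd_one A)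
  rwa [toC_one] at h

theorem mul_mem {g : ℕ} (A : AbVar g) : ∀ x ∈ A.EndC, ∀ y ∈ A.EndC, x * y ∈ A.EndC := by
  intro x hx y hy
  refine Submodule.span_induction (p := fun x _ => x * y ∈ A.EndC) ?_ ?_ ?_ ?_ hx
  · rintro x ⟨α, hα, rfl⟩
    refine Submodule.span_induction (p := fun y _ => AbVar.toC α * y ∈ A.EndC) ?_ ?_ ?_ ?_ hy
    · rintro y ⟨β, hβ, rfl⟩
      rw [← AbVar.toC_mul]
      exact toC_mem A (isEnd_mul A hα hβ)
    · rw [Matrix.mul_zero]
      exact Submodule.zero_mem _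
    · intro a b _ _ ha hb
      rw [Matrix.mul_add]
      exact Submodule.add_mem _ ha hb
    · intro c a _ ha
      rw [Matrix.mul_smul]
      exact Submodule.smul_mem _ c ha
  · rw [Matrix.zero_mul]
    exact Submodule.zero_mem _
  · intro a b _ _ ha hb
    rw [Matrix.add_mul]
    exact Submodule.add_mem _ ha hb
  · intro c a _ ha
    rw [Matrix.smul_mul]
    exact Submodule.smul_mem _ c ha

theorem adj_mem {g : ℕ} (A : AbVar g) (h : Matrix (Idx g) (Idx g) ℂ)
    (hh : ∀ α, A.IsEnd α → ∃ β, A.IsEnd β ∧ A.IsRosati α β ∧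
      (AbVar.toC α)ᴴ * h = h * AbVar.toC β) :
    ∀ x ∈ A.EndC, ∃ y ∈ A.EndC, xᴴ * h = h * y := by
  intro x hx
  refine Submodule.span_induction (p := fun x _ => ∃ y ∈ A.EndC, xᴴ * h = h * y) ?_ ?_ ?_ ?_ hx
  · rintro x ⟨α, hα, rfl⟩
    obtain ⟨β, hβ, _, h1⟩ := hh α hα
    exact ⟨AbVar.toC β, toC_mem A hβ, h1⟩
  · refine ⟨0, Submodule.zero_mem _, ?_⟩
    rw [Matrix.conjTranspose_zero, Matrix.zero_mul, Matrix.mul_zero]
  · rintro a b _ _ ⟨y, hy, h1⟩ ⟨z, hz, h2⟩
    refine ⟨y + z, Submodule.add_mem _ hy hz, ?_⟩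
    rw [Matrix.conjTranspose_add, Matrix.add_mul, Matrix.mul_add, h1, h2]
  · rintro c a _ ⟨y, hy, h1⟩
    refine ⟨star c • y, Submodule.smul_mem _ _ hy, ?_⟩
    rw [Matrix.conjTranspose_smul, Matrix.smul_mul, Matrix.mul_smul, h1]

theorem comm_iff {g : ℕ} (A : AbVar g) (x : Matrix (Idx g) (Idx g) ℂ) :
    A.Comm x ↔ ∀ y ∈ A.EndC, x * y = y * x := by
  constructor
  · intro h y hy
    refine Submodule.span_induction (p := fun y _ => x * y = y * x) ?_ ?_ ?_ ?_ hy
    · rintro y ⟨α, hα, rfl⟩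
      exact h α hα
    · rw [Matrix.mul_zero, Matrix.zero_mul]
    · intro a b _ _ ha hb
      rw [Matrix.mul_add, Matrix.add_mul, ha, hb]
    · intro c a _ ha
      rw [Matrix.mul_smul, Matrix.smul_mul, ha]
  · intro h α hα
    exact h _ (toC_mem A hα)

section

variable {g : ℕ} {k : ℕ} {m n : Fin k → ℕ}
  (B : Module.Basis (Σ i, Fin (m i) × Fin (n i)) ℂ (Idx g → ℂ))

/-- The matrix with prescribed values on the basis. -/
def mk (F : (Σ i, Fin (m i) × Fin (n i)) → (Idx g → ℂ)) : Matrix (Idx g) (Idx g) ℂ :=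
  LinearMap.toMatrix' (B.constr ℂ F)

theorem mk_apply (F : (Σ i, Fin (m i) × Fin (n i)) → (Idx g → ℂ)) (e : Σ i, Fin (m i) × Fin (n i)) :
    mk B F *ᵥ B e = F e := by
  rw [mk, ← Matrix.toLin'_apply, Matrix.toLin'_toMatrix', Module.Basis.constr_basis]

/-- Two matrices with the same values on the basis are equal. -/
theorem ext_B {x y : Matrix (Idx g) (Idx g) ℂ} (h : ∀ i a b, x *ᵥ B ⟨i, (a, b)⟩ = y *ᵥ B ⟨i, (a, b)⟩) :
    x = y := by
  have : Matrix.toLin' x = Matrix.toLin' y := by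
    refine B.ext fun e => ?_
    obtain ⟨i, a, b⟩ := e
    rw [Matrix.toLin'_apply, Matrix.toLin'_apply]
    exact h i a b
  exact Matrix.toLin'.injective this

/-- The matrix `⊕ 1 ⊗ Y i`. -/
def mkY (Y : ∀ i, Matrix (Fin (n i)) (Fin (n i)) ℂ) : Matrix (Idx g) (Idx g) ℂ :=
  mk B fun e => ∑ b', Y e.1 b' e.2.2 • B ⟨e.1, (e.2.1, b')⟩

theorem mkY_apply (Y : ∀ i, Matrix (Fin (n i)) (Fin (n i)) ℂ) (i : Fin k) (a : Fin (m i))
    (b : Fin (n i)) : mkY B Y *ᵥ B ⟨i, (a, b)⟩ = ∑ b', Y i b' b • B ⟨i, (a, b')⟩ := by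
  rw [mkY, mk_apply]

/-- The matrix `⊕ X i ⊗ 1`. -/
def mkX (X : ∀ i, Matrix (Fin (m i)) (Fin (m i)) ℂ) : Matrix (Idx g) (Idx g) ℂ :=
  mk B fun e => ∑ a', X e.1 a' e.2.1 • B ⟨e.1, (a', e.2.2)⟩

theorem mkX_apply (X : ∀ i, Matrix (Fin (m i)) (Fin (m i)) ℂ) (i : Fin k) (a : Fin (m i))
    (b : Fin (n i)) : mkX B X *ᵥ B ⟨i, (a, b)⟩ = ∑ a', X i a' a • B ⟨i, (a', b)⟩ := by
  rw [mkX, mk_apply]

/-- The matrix unit `b' b` in the `i`-th block. -/
def mu (i : Fin k) (b' b : Fin (n i)) : Matrix (Idx g) (Idx g) ℂ :=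
  mkY B (Function.update 0 i (Matrix.single b' b 1))

theorem mu_same (i : Fin k) (b' b : Fin (n i)) (a : Fin (m i)) :
    mu B i b' b *ᵥ B ⟨i, (a, b)⟩ = B ⟨i, (a, b')⟩ := by
  rw [mu, mkY_apply, Function.update_self, Finset.sum_eq_single b']
  · rw [Matrix.single_apply, if_pos ⟨rfl, rfl⟩, one_smul]
  · intro c _ hc
    rw [Matrix.single_apply, if_neg (fun h => hc h.1.symm), zero_smul]
  · intro h
    exact absurd (Finset.mem_univ _) h

theorem mu_other (i : Fin k) (b' b c : Fin (n i)) (hc : c ≠ b) (a : Fin (m i)) :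
    mu B i b' b *ᵥ B ⟨i, (a, c)⟩ = 0 := by
  rw [mu, mkY_apply, Function.update_self]
  refine Finset.sum_eq_zero fun e _ => ?_
  rw [Matrix.single_apply, if_neg (fun h => hc h.2.symm), zero_smul]

theorem mu_block (i j : Fin k) (hj : j ≠ i) (b' b : Fin (n i)) (a : Fin (m j)) (c : Fin (n j)) :
    mu B i b' b *ᵥ B ⟨j, (a, c)⟩ = 0 := by
  rw [mu, mkY_apply, Function.update_of_ne hj]
  refine Finset.sum_eq_zero fun e _ => ?_
  rw [Pi.zero_apply, Matrix.zero_apply, zero_smul]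

theorem mu_mul (i : Fin k) (b' b : Fin (n i)) (v : Idx g → ℂ) :
    mu B i b' b *ᵥ v = ∑ a, B.repr v ⟨i, (a, b)⟩ • B ⟨i, (a, b')⟩ := by
  conv_lhs => rw [← B.sum_repr v]
  rw [Matrix.mulVec_sum, Fintype.sum_sigma, Finset.sum_eq_single i]
  · rw [Fintype.sum_prod_type]
    refine Finset.sum_congr rfl fun a _ => ?_
    rw [Finset.sum_eq_single b]
    · rw [Matrix.mulVec_smul, mu_same]
    · intro c _ hc
      rw [Matrix.mulVec_smul, mu_other B i b' b c hc, smul_zero]
    · intro h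
      exact absurd (Finset.mem_univ _) h
  · intro j _ hj
    refine Finset.sum_eq_zero fun e _ => ?_
    rw [Matrix.mulVec_smul, mu_block B i j hj, smul_zero]
  · intro h
    exact absurd (Finset.mem_univ _) h

variable {A : AbVar g}
  (hE : ∀ x, x ∈ A.EndC ↔ ∃ Y : ∀ i, Matrix (Fin (n i)) (Fin (n i)) ℂ, ∀ i a b,
    x *ᵥ B ⟨i, (a, b)⟩ = ∑ b', Y i b' b • B ⟨i, (a, b')⟩)

include hE

theorem mkY_mem (Y : ∀ i, Matrix (Fin (n i)) (Fin (n i)) ℂ) : mkY B Y ∈ A.EndC :=
  (hE _).2 ⟨Y, fun i a b => mkY_apply B Y i a b⟩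

theorem hC (npos : ∀ i, 0 < n i) (x : Matrix (Idx g) (Idx g) ℂ) :
    A.Comm x ↔ ∃ X : ∀ i, Matrix (Fin (m i)) (Fin (m i)) ℂ, ∀ i a b,
      x *ᵥ B ⟨i, (a, b)⟩ = ∑ a', X i a' a • B ⟨i, (a', b)⟩ := by
  constructor
  · intro hx
    refine ⟨fun i => Matrix.of fun a' a =>
      B.repr (x *ᵥ B ⟨i, (a, ⟨0, npos i⟩)⟩) ⟨i, (a', ⟨0, npos i⟩)⟩, fun i a b => ?_⟩
    have h1 := (comm_iff A x).1 hx (mu B i b ⟨0, npos i⟩) (mkY_mem B hE _)
    have h2 := congrArg (fun y : Matrix (Idx g) (Idx g) ℂ => y *ᵥ B ⟨i, (a, ⟨0, npos i⟩)⟩) h1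
    rw [← Matrix.mulVec_mulVec, ← Matrix.mulVec_mulVec, mu_same, mu_mul] at h2
    rw [h2]
    rfl
  · rintro ⟨X, hX⟩
    rw [comm_iff]
    intro y hy
    obtain ⟨Y, hY⟩ := (hE y).1 hy
    refine ext_B B fun i a b => ?_
    rw [← Matrix.mulVec_mulVec, ← Matrix.mulVec_mulVec, hX, hY, Matrix.mulVec_sum, Matrix.mulVec_sum]
    simp only [Matrix.mulVec_smul, hX, hY, Finset.smul_sum]
    rw [Finset.sum_comm]
    refine Finset.sum_congr rfl fun a' _ => Finset.sum_congr rfl fun b' _ => ?_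
    rw [smul_comm]

omit hE in
/-- The projection on the `i`-th block. -/
def pj (i : Fin k) : Matrix (Idx g) (Idx g) ℂ :=
  mk B fun e => if e.1 = i then B e else 0

omit hE in
theorem pj_apply (i : Fin k) (e : Σ i, Fin (m i) × Fin (n i)) :
    pj B i *ᵥ B e = if e.1 = i then B e else 0 := by
  rw [pj, mk_apply]

omit hE in
theorem pj_comm_form (i : Fin k) : ∀ j a b, pj B i *ᵥ B ⟨j, (a, b)⟩ =
    ∑ a', (Function.update (0 : ∀ i, Matrix (Fin (m i)) (Fin (m i)) ℂ) i 1) j a' a •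
      B ⟨j, (a', b)⟩ := by
  intro j a b
  rw [pj_apply]
  by_cases h : j = i
  · subst h
    rw [if_pos rfl, Function.update_self, Finset.sum_eq_single a]
    · rw [Matrix.one_apply_eq, one_smul]
    · intro c _ hc
      rw [Matrix.one_apply_ne hc, zero_smul]
    · intro h
      exact absurd (Finset.mem_univ _) h
  · rw [if_neg h, Function.update_of_ne h]
    symm
    refine Finset.sum_eq_zero fun c _ => ?_
    rw [Pi.zero_apply, Matrix.zero_apply, zero_smul]

omit hE in
theorem pj_end_form (i : Fin k) : ∀ j a b, pj B i *ᵥ B ⟨j, (a, b)⟩ =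
    ∑ b', (Function.update (0 : ∀ i, Matrix (Fin (n i)) (Fin (n i)) ℂ) i 1) j b' b •
      B ⟨j, (a, b')⟩ := by
  intro j a b
  rw [pj_apply]
  by_cases h : j = i
  · subst h
    rw [if_pos rfl, Function.update_self, Finset.sum_eq_single b]
    · rw [Matrix.one_apply_eq, one_smul]
    · intro c _ hc
      rw [Matrix.one_apply_ne hc, zero_smul]
    · intro h
      exact absurd (Finset.mem_univ _) h
  · rw [if_neg h, Function.update_of_ne h]
    symm
    refine Finset.sum_eq_zero fun c _ => ?_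
    rw [Pi.zero_apply, Matrix.zero_apply, zero_smul]

omit hE in
theorem pj_mul (i : Fin k) : pj B i * pj B i = pj B i := by
  refine ext_B B fun j a b => ?_
  rw [← Matrix.mulVec_mulVec, pj_apply]
  by_cases h : j = i
  · rw [if_pos h, pj_apply, if_pos h]
  · rw [if_neg h, Matrix.mulVec_zero]

theorem pj_cidem (npos : ∀ i, 0 < n i) (i : Fin k) : A.IsCIdem (pj B i) :=
  ⟨(hE _).2 ⟨_, pj_end_form B i⟩, pj_mul B i, (hC B hE npos _).2 ⟨_, pj_comm_form B i⟩⟩

omit hE in
theorem pj_ne (mpos : ∀ i, 0 < m i) (npos : ∀ i, 0 < n i) (i : Fin k) : pj B i ≠ 0 := by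
  intro h
  have h1 := pj_apply B i ⟨i, (⟨0, mpos i⟩, ⟨0, npos i⟩)⟩
  rw [h, Matrix.zero_mulVec, if_pos rfl] at h1
  exact B.ne_zero _ h1.symm

/-- Central idempotents are scalar (`0` or `1`) on every block. -/
theorem cidem_form (mpos : ∀ i, 0 < m i) (npos : ∀ i, 0 < n i) {q : Matrix (Idx g) (Idx g) ℂ}
    (hq : A.IsCIdem q) : ∀ i, ∃ c : ℂ, (c = 0 ∨ c = 1) ∧ ∀ a b, q *ᵥ B ⟨i, (a, b)⟩ = c • B ⟨i, (a, b)⟩ := by
  intro i
  obtain ⟨Y, hY⟩ := (hE q).1 hq.1
  obtain ⟨X, hX⟩ := (hC B hE npos q).1 hq.2.2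
  -- coordinates
  have key : ∀ a b, q *ᵥ B ⟨i, (a, b)⟩ = Y i b b • B ⟨i, (a, b)⟩ := by
    intro a b
    rw [hY]
    refine Finset.sum_eq_single b ?_ ?_
    · intro c _ hc
      have h1 := (hY i a b).symm.trans (hX i a b)
      have h2 := congrArg (fun v => B.repr v ⟨i, (a, c)⟩) h1
      simp only [map_sum, map_smul, Finsupp.finsetSum_apply, Finsupp.smul_apply,
        Module.Basis.repr_self] at h2
      rw [Finset.sum_eq_single c, Finset.sum_eq_zero] at h2
      · rw [Finsupp.single_eq_same, smul_eq_mul, mul_one] at h2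
        rw [h2, zero_smul]
      · intro a' _
        rw [Finsupp.single_apply, if_neg, smul_zero]
        intro h3
        simp only [Sigma.mk.injEq, heq_eq_eq, Prod.mk.injEq, true_and] at h3
        exact hc h3.2.symm
      · intro c' _ hc'
        rw [Finsupp.single_apply, if_neg, smul_zero]
        intro h3
        simp only [Sigma.mk.injEq, heq_eq_eq, Prod.mk.injEq, true_and] at h3
        exact hc' h3
      · intro h
        exact absurd (Finset.mem_univ _) h
    · intro h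
      exact absurd (Finset.mem_univ _) h
  have key2 : ∀ a b, X i a a = Y i b b := by
    intro a b
    have h1 := (key a b).symm.trans (hX i a b)
    have h2 := congrArg (fun v => B.repr v ⟨i, (a, b)⟩) h1
    simp only [map_sum, map_smul, Finsupp.finsetSum_apply, Finsupp.smul_apply,
      Module.Basis.repr_self] at h2
    rw [Finset.sum_eq_single a] at h2
    · rw [Finsupp.single_eq_same, smul_eq_mul, smul_eq_mul, mul_one, mul_one] at h2
      exact h2.symm
    · intro c _ hc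
      rw [Finsupp.single_apply, if_neg, smul_zero]
      intro h3
      simp only [Sigma.mk.injEq, heq_eq_eq, Prod.mk.injEq, and_true, true_and] at h3
      exact hc h3
    · intro h
      exact absurd (Finset.mem_univ _) h
  refine ⟨X i ⟨0, mpos i⟩ ⟨0, mpos i⟩, ?_, fun a b => ?_⟩
  · have h1 := congrArg (fun y : Matrix (Idx g) (Idx g) ℂ =>
      y *ᵥ B ⟨i, (⟨0, mpos i⟩, ⟨0, npos i⟩)⟩) hq.2.1
    rw [← Matrix.mulVec_mulVec, key, Matrix.mulVec_smul, key, smul_smul,
      ← key2 ⟨0, mpos i⟩ ⟨0, npos i⟩] at h1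
    have h2 := congrArg (fun v => B.repr v ⟨i, (⟨0, mpos i⟩, ⟨0, npos i⟩)⟩) h1
    simp only [map_smul, Finsupp.smul_apply, Module.Basis.repr_self, Finsupp.single_eq_same,
      smul_eq_mul, mul_one] at h2
    by_cases h0 : X i ⟨0, mpos i⟩ ⟨0, mpos i⟩ = 0
    · exact Or.inl h0
    · exact Or.inr (mul_left_cancel₀ h0 (h2.trans (mul_one _).symm))
  · rw [key, ← key2 ⟨0, mpos i⟩ b]

theorem pj_comp (mpos : ∀ i, 0 < m i) (npos : ∀ i, 0 < n i) (i : Fin k) : A.IsComp (pj B i) := by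
  refine ⟨pj_cidem B hE npos i, pj_ne B mpos npos i, fun q hq hqp => ?_⟩
  have hzero : ∀ j, j ≠ i → ∀ a b, q *ᵥ B ⟨j, (a, b)⟩ = 0 := by
    intro j hj a b
    rw [← hqp, ← Matrix.mulVec_mulVec, pj_apply, if_neg hj, Matrix.mulVec_zero]
  obtain ⟨c, hc, hq2⟩ := cidem_form B hE mpos npos hq i
  rcases hc with rfl | rfl
  · left
    refine ext_B B fun j a b => ?_
    rw [Matrix.zero_mulVec]
    by_cases hj : j = i
    · subst hj
      rw [hq2, zero_smul]
    · exact hzero j hj a b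
  · right
    refine ext_B B fun j a b => ?_
    rw [pj_apply]
    by_cases hj : j = i
    · subst hj
      rw [if_pos rfl, hq2, one_smul]
    · rw [if_neg hj]
      exact hzero j hj a b

theorem comp_iff (mpos : ∀ i, 0 < m i) (npos : ∀ i, 0 < n i) (q : Matrix (Idx g) (Idx g) ℂ) :
    A.IsComp q ↔ ∃ i, q = pj B i := by
  constructor
  · rintro ⟨hq, hq0, hmin⟩
    by_contra hcon
    apply hq0
    refine ext_B B fun i a b => ?_
    rw [Matrix.zero_mulVec]
    obtain ⟨c, hc, hq2⟩ := cidem_form B hE mpos npos hq i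
    rcases hc with rfl | rfl
    · rw [hq2, zero_smul]
    · exfalso
      apply hcon
      refine ⟨i, ?_⟩
      have h1 : pj B i * q = pj B i := by
        refine ext_B B fun j a' b' => ?_
        obtain ⟨c', _, hq3⟩ := cidem_form B hE mpos npos hq j
        rw [← Matrix.mulVec_mulVec, hq3, Matrix.mulVec_smul, pj_apply]
        by_cases hj : j = i
        · subst hj
          rw [if_pos rfl, ← hq3, hq2, one_smul]
        · rw [if_neg hj, smul_zero]
      rcases hmin _ (pj_cidem B hE npos i) h1 with h2 | h2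
      · exact absurd h2 (pj_ne B mpos npos i)
      · exact h2.symm
  · rintro ⟨i, rfl⟩
    exact pj_comp B hE mpos npos i

omit hE in
/-- The embedding of the matrices of size `m i` in the commutant. -/
def emb (i : Fin k) : Matrix (Fin (m i)) (Fin (m i)) ℂ →ₗ[ℂ] Matrix (Idx g) (Idx g) ℂ where
  toFun X := mkX B (Function.update 0 i X)
  map_add' X X' := by
    refine ext_B B fun j a b => ?_
    rw [Matrix.add_mulVec, mkX_apply, mkX_apply, mkX_apply, ← Finset.sum_add_distrib]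
    refine Finset.sum_congr rfl fun a' _ => ?_
    rw [← add_smul]
    by_cases hj : j = i
    · subst hj
      rw [Function.update_self, Function.update_self, Function.update_self, Matrix.add_apply]
    · rw [Function.update_of_ne hj, Function.update_of_ne hj, Function.update_of_ne hj,
        Pi.zero_apply, Matrix.zero_apply, add_zero]
  map_smul' c X := by
    refine ext_B B fun j a b => ?_
    rw [RingHom.id_apply, Matrix.smul_mulVec, mkX_apply, mkX_apply, Finset.smul_sum]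
    refine Finset.sum_congr rfl fun a' _ => ?_
    rw [smul_smul]
    by_cases hj : j = i
    · subst hj
      rw [Function.update_self, Function.update_self, Matrix.smul_apply, smul_eq_mul]
    · rw [Function.update_of_ne hj, Function.update_of_ne hj, Pi.zero_apply, Matrix.zero_apply,
        mul_zero]

omit hE in
theorem emb_apply (i : Fin k) (X : Matrix (Fin (m i)) (Fin (m i)) ℂ) :
    emb B i X = mkX B (Function.update 0 i X) := rfl

omit hE in
theorem emb_inj (npos : ∀ i, 0 < n i) (i : Fin k) : Function.Injective (emb B i) := by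
  intro X X' h
  ext a' a
  have h1 := congrArg (fun y : Matrix (Idx g) (Idx g) ℂ =>
    B.repr (y *ᵥ B ⟨i, (a, ⟨0, npos i⟩)⟩) ⟨i, (a', ⟨0, npos i⟩)⟩) h
  have key : ∀ R : Matrix (Fin (m i)) (Fin (m i)) ℂ,
      B.repr (emb B i R *ᵥ B ⟨i, (a, ⟨0, npos i⟩)⟩) ⟨i, (a', ⟨0, npos i⟩)⟩ = R a' a := by
    intro R
    rw [emb_apply, mkX_apply, Function.update_self, map_sum, Finsupp.finsetSum_apply,
      Finset.sum_eq_single a']
    · rw [map_smul, Finsupp.smul_apply, Module.Basis.repr_self, Finsupp.single_eq_same, smul_eq_mul,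
        mul_one]
    · intro c _ hc
      rw [map_smul, Finsupp.smul_apply, Module.Basis.repr_self, Finsupp.single_apply, if_neg,
        smul_zero]
      intro h3
      simp only [Sigma.mk.injEq, heq_eq_eq, Prod.mk.injEq, and_true, true_and] at h3
      exact hc h3
    · intro h
      exact absurd (Finset.mem_univ _) h
  simp only [key] at h1
  exact h1

theorem dim_eq (npos : ∀ i, 0 < n i) (i : Fin k) : A.comDim (pj B i) = m i ^ 2 := by
  have h1 : Submodule.span ℂ {x | A.Comm x ∧ pj B i * x = x} = LinearMap.range (emb B i) := by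
    apply le_antisymm
    · rw [Submodule.span_le]
      rintro x ⟨hx, hpx⟩
      obtain ⟨X, hX⟩ := (hC B hE npos x).1 hx
      refine ⟨X i, ?_⟩
      refine ext_B B fun j a b => ?_
      rw [emb_apply, mkX_apply]
      by_cases hj : j = i
      · subst hj
        rw [Function.update_self, hX]
      · rw [Function.update_of_ne hj, ← hpx, ← Matrix.mulVec_mulVec, hX, Matrix.mulVec_sum]
        refine Finset.sum_congr rfl fun a' _ => ?_
        rw [Pi.zero_apply, Matrix.zero_apply, zero_smul, Matrix.mulVec_smul, pj_apply, if_neg hj,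
          smul_zero]
    · rintro _ ⟨X, rfl⟩
      refine Submodule.subset_span ⟨(hC B hE npos _).2 ⟨_, mkX_apply B _⟩, ?_⟩
      refine ext_B B fun j a b => ?_
      rw [← Matrix.mulVec_mulVec, emb_apply, mkX_apply, Matrix.mulVec_sum]
      refine Finset.sum_congr rfl fun a' _ => ?_
      rw [Matrix.mulVec_smul, pj_apply]
      by_cases hj : j = i
      · rw [if_pos hj]
      · rw [if_neg hj, Function.update_of_ne hj, Pi.zero_apply, Matrix.zero_apply, zero_smul,
          zero_smul]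
  rw [AbVar.comDim, h1, LinearMap.finrank_range_of_inj (emb_inj B npos i), Module.finrank_matrix,
    Fintype.card_fin, Module.finrank_self, mul_one, sq]

end

end DecX

/-- DEC. -/
theorem dec_proof (hPos2 : Stmt_Pos2) (hWed : Stmt_Wed) : Stmt_Dec := by
  intro g A
  obtain ⟨h, hpd, hh⟩ := hPos2 g A
  obtain ⟨k, m, n, B, hpos, hE⟩ := hWed (Idx g) A.EndC h hpd (DecX.one_mem A) (DecX.mul_mem A)
    (DecX.adj_mem A h hh)
  exact ⟨{
    k := k
    m := m
    n := n
    mpos := fun i => (hpos i).1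
    npos := fun i => (hpos i).2
    B := B
    hE := hE
    hC := DecX.hC B hE fun i => (hpos i).2
    p := DecX.pj B
    hp := DecX.pj_apply B
    comp := DecX.comp_iff B hE (fun i => (hpos i).1) fun i => (hpos i).2
    dim := DecX.dim_eq B hE fun i => (hpos i).2 }⟩

end

end Pool.Agent.DRB
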