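import Pool.Agent.DRB.Stmts3

/-!
# De Rham-Betti conjecture, second theorem: module FINX
Finite orbits in the spaces of homomorphisms between the multiplicity spaces.
-/

open scoped BigOperators
open Matrix

namespace Pool.Agent.DRB

noncomputable section

namespace FinXX

variable {g : ℕ} {A : AbVar g} (d : Dec A)

/-- coefficients of an element of `EndC` -/
theorem repr_end {x : Matrix (Idx g) (Idx g) ℂ} (Y : ∀ i, Matrix (Fin (d.n i)) (Fin (d.n i)) ℂ)
    (hY : ∀ i a b, x *ᵥ d.B ⟨i, (a, b)⟩ = ∑ b', Y i b' b • d.B ⟨i, (a, b')⟩) (j : Fin d.k)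
    (a : Fin (d.m j)) (b b' : Fin (d.n j)) (a' : Fin (d.m j)) :
    d.B.repr (x *ᵥ d.B ⟨j, (a, b)⟩) ⟨j, (a', b')⟩ = if a' = a then Y j b' b else 0 := by
  rw [hY, map_sum, Finsupp.finsetSum_apply]
  by_cases h : a' = a
  · subst h
    rw [if_pos rfl, Finset.sum_eq_single b']
    · rw [map_smul, Finsupp.smul_apply, Module.Basis.repr_self, Finsupp.single_eq_same,
        smul_eq_mul, mul_one]
    · intro c _ hc
      rw [map_smul, Finsupp.smul_apply, Module.Basis.repr_self, Finsupp.single_apply, if_neg,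
        smul_zero]
      intro h'
      apply hc
      have := congrArg (fun e : (Σ i, Fin (d.m i) × Fin (d.n i)) => (e.2.2 : ℕ)) h'
      exact Fin.ext this
    · intro h'
      exact absurd (Finset.mem_univ _) h'
  · rw [if_neg h]
    refine Finset.sum_eq_zero fun c _ => ?_
    rw [map_smul, Finsupp.smul_apply, Module.Basis.repr_self, Finsupp.single_apply, if_neg,
      smul_zero]
    intro h'
    apply h
    have := congrArg (fun e : (Σ i, Fin (d.m i) × Fin (d.n i)) => (e.2.1 : ℕ)) h'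
    exact (Fin.ext this).symm

theorem repr_end_ne {x : Matrix (Idx g) (Idx g) ℂ} (Y : ∀ i, Matrix (Fin (d.n i)) (Fin (d.n i)) ℂ)
    (hY : ∀ i a b, x *ᵥ d.B ⟨i, (a, b)⟩ = ∑ b', Y i b' b • d.B ⟨i, (a, b')⟩) (i j : Fin d.k)
    (hij : i ≠ j) (a : Fin (d.m j)) (b : Fin (d.n j)) (e : Fin (d.m i) × Fin (d.n i)) :
    d.B.repr (x *ᵥ d.B ⟨j, (a, b)⟩) ⟨i, e⟩ = 0 := by
  rw [hY, map_sum, Finsupp.finsetSum_apply]
  refine Finset.sum_eq_zero fun c _ => ?_
  rw [map_smul, Finsupp.smul_apply, Module.Basis.repr_self, Finsupp.single_apply, if_neg,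
    smul_zero]
  intro h'
  exact hij (congrArg (fun e : (Σ i, Fin (d.m i) × Fin (d.n i)) => e.1) h').symm

/-- coefficients of `T i j P Q` -/
theorem repr_T (i j : Fin d.k) (P : Matrix (Fin (d.m i)) (Fin (d.m j)) ℂ)
    (Q : Matrix (Fin (d.n i)) (Fin (d.n j)) ℂ) (a : Fin (d.m j)) (b : Fin (d.n j))
    (a' : Fin (d.m i)) (b' : Fin (d.n i)) :
    d.B.repr (d.T i j P Q *ᵥ d.B ⟨j, (a, b)⟩) ⟨i, (a', b')⟩ = P a' a * Q b' b := by
  rw [Dec.T_apply, map_sum, Finsupp.finsetSum_apply, Finset.sum_eq_single a']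
  · rw [map_sum, Finsupp.finsetSum_apply, Finset.sum_eq_single b']
    · rw [map_smul, Finsupp.smul_apply, Module.Basis.repr_self, Finsupp.single_eq_same, smul_eq_mul,
        mul_one]
    · intro c _ hc
      rw [map_smul, Finsupp.smul_apply, Module.Basis.repr_self, Finsupp.single_apply, if_neg,
        smul_zero]
      intro h'
      apply hc
      have := congrArg (fun e : (Σ i, Fin (d.m i) × Fin (d.n i)) => (e.2.2 : ℕ)) h'
      exact Fin.ext this
    · intro h'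
      exact absurd (Finset.mem_univ _) h'
  · intro c _ hc
    rw [map_sum, Finsupp.finsetSum_apply]
    refine Finset.sum_eq_zero fun e _ => ?_
    rw [map_smul, Finsupp.smul_apply, Module.Basis.repr_self, Finsupp.single_apply, if_neg,
        smul_zero]
    intro h'
    apply hc
    have := congrArg (fun e : (Σ i, Fin (d.m i) × Fin (d.n i)) => (e.2.1 : ℕ)) h'
    exact Fin.ext this
  · intro h'
    exact absurd (Finset.mem_univ _) h'

/-- if the orbit of `P` is finite, `T i j P Q` is an endomorphism -/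
theorem mem_endC (hF : Stmt_Fin) (hG : Stmt_Gb1) (i j : Fin d.k)
    (P : Matrix (Fin (d.m i)) (Fin (d.m j)) ℂ) (Q : Matrix (Fin (d.n i)) (Fin (d.n j)) ℂ)
    (h : {Y | ∃ q ∈ Gam A, Y = d.X q.1.val i * P * d.X (q.1⁻¹).val j}.Finite) :
    d.T i j P Q ∈ A.EndC := by
  have h1 : {Y | ∃ p ∈ Gam A, Y = p.1.val * d.T i j P Q * (p.1⁻¹).val}.Finite := by
    refine (h.image fun R => d.T i j R Q).subset ?_
    rintro Y ⟨q, hq, rfl⟩
    have hc : A.Comm q.1.val := (hG g A q hq).1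
    refine ⟨_, ⟨q, hq, rfl⟩, ?_⟩
    rw [d.mul_T hc, d.T_mul (Dec.comm_inv hc)]
  have h2 := hF g A _ h1
  refine Submodule.span_mono ?_ h2
  rintro Y ⟨α, hα, rfl⟩
  exact ⟨α, hα, rfl⟩

end FinXX

open FinXX in
theorem finx_proof (hF : Stmt_Fin) (hG : Stmt_Gb1) : Stmt_FinX := by
  intro g A d
  refine ⟨fun i j hij P h => ?_, fun i P h => ?_⟩
  · have h1 := mem_endC d hF hG i j P
      (Matrix.single ⟨0, d.npos i⟩ ⟨0, d.npos j⟩ 1) h
    obtain ⟨Y, hY⟩ := (d.hE _).1 h1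
    ext a' a
    have h2 := repr_T d i j P (Matrix.single ⟨0, d.npos i⟩ ⟨0, d.npos j⟩ 1) a ⟨0, d.npos j⟩ a'
      ⟨0, d.npos i⟩
    rw [repr_end_ne d Y hY i j hij, Matrix.single_apply_same, mul_one] at h2
    rw [← h2, Matrix.zero_apply]
  · have h1 := mem_endC d hF hG i i P
      (Matrix.single ⟨0, d.npos i⟩ ⟨0, d.npos i⟩ 1) h
    obtain ⟨Y, hY⟩ := (d.hE _).1 h1
    refine ⟨Y i ⟨0, d.npos i⟩ ⟨0, d.npos i⟩, ?_⟩
    ext a' a
    have h2 := repr_T d i i P (Matrix.single ⟨0, d.npos i⟩ ⟨0, d.npos i⟩ 1) a ⟨0, d.npos i⟩ a'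
      ⟨0, d.npos i⟩
    rw [repr_end d Y hY i, Matrix.single_apply_same, mul_one] at h2
    rw [← h2, Matrix.smul_apply, Matrix.one_apply, smul_eq_mul]
    split_ifs <;> simp

end

end Pool.Agent.DRB
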