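import Pool.Agent.DRB.Stmts3

/-!
# FORM: the Riemann form on the multiplicity spaces
-/

open scoped BigOperators
open Matrix

namespace Pool.Agent.DRB

noncomputable section

namespace FormX

/-- The Riemann form as a bilinear form. -/
def bf {g : ℕ} (A : AbVar g) (v w : Idx g → ℂ) : ℂ := v ⬝ᵥ (A.riem *ᵥ w)

theorem bf_mul {g : ℕ} (A : AbVar g) (x : Matrix (Idx g) (Idx g) ℂ) (v w : Idx g → ℂ) :
    bf A (x *ᵥ v) w = v ⬝ᵥ ((xᵀ * A.riem) *ᵥ w) := by
  unfold bf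
  rw [← Matrix.vecMul_transpose, ← Matrix.dotProduct_mulVec, Matrix.mulVec_mulVec]

theorem bf_sim {g : ℕ} (A : AbVar g) {x : Matrix (Idx g) (Idx g) ℂ} {ν : ℂ}
    (h : xᵀ * A.riem * x = ν • A.riem) (v w : Idx g → ℂ) :
    bf A (x *ᵥ v) (x *ᵥ w) = ν * bf A v w := by
  rw [bf_mul, Matrix.mulVec_mulVec, h, Matrix.smul_mulVec, dotProduct_smul, smul_eq_mul]
  rfl

theorem bf_sum {g : ℕ} (A : AbVar g) {κ κ' : Type} [Fintype κ] [Fintype κ'] (c : κ → ℂ)
    (c' : κ' → ℂ) (v : κ → Idx g → ℂ) (w : κ' → Idx g → ℂ) :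
    bf A (∑ k, c k • v k) (∑ k, c' k • w k) = ∑ k', ∑ k, c k * bf A (v k) (w k') * c' k' := by
  unfold bf
  rw [Matrix.mulVec_sum, dotProduct_sum]
  refine Finset.sum_congr rfl fun k' _ => ?_
  rw [sum_dotProduct]
  refine Finset.sum_congr rfl fun k _ => ?_
  rw [Matrix.mulVec_smul, dotProduct_smul, smul_dotProduct, smul_eq_mul, smul_eq_mul]
  ring

/-- The matrix of the Riemann form between two copies of the multiplicity spaces. -/
def Om {g : ℕ} {A : AbVar g} (d : Dec A) (i j : Fin d.k) (b : Fin (d.n i)) (b' : Fin (d.n j)) :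
    Matrix (Fin (d.m i)) (Fin (d.m j)) ℂ :=
  Matrix.of fun a a' => bf A (d.B ⟨i, (a, b)⟩) (d.B ⟨j, (a', b')⟩)

theorem Om_rel {g : ℕ} {A : AbVar g} (d : Dec A) (i j : Fin d.k) (b : Fin (d.n i))
    (b' : Fin (d.n j)) {x : Matrix (Idx g) (Idx g) ℂ} {ν : ℂ} (hx : A.Comm x)
    (h : xᵀ * A.riem * x = ν • A.riem) :
    (d.X x i)ᵀ * Om d i j b b' * d.X x j = ν • Om d i j b b' := by
  ext a a'
  rw [Matrix.smul_apply, Om, Matrix.of_apply, smul_eq_mul, ← bf_sim A h, d.X_spec hx, d.X_spec hx,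
    bf_sum, Matrix.mul_apply]
  refine Finset.sum_congr rfl fun c' _ => ?_
  rw [Matrix.mul_apply, Finset.sum_mul]
  refine Finset.sum_congr rfl fun c _ => ?_
  rw [Matrix.transpose_apply, Matrix.of_apply]

theorem Om_ne {g : ℕ} {A : AbVar g} (hros : Stmt_Ros) (hleg : Stmt_Leg) (d : Dec A)
    (i j : Fin d.k) (hij : d.p j = cc (d.p i)) :
    ∃ (b : Fin (d.n i)) (b' : Fin (d.n j)), Om d i j b b' ≠ 0 := by
  by_contra hcon
  push Not at hcon
  have hv : d.B ⟨i, (⟨0, d.mpos i⟩, ⟨0, d.npos i⟩)⟩ ≠ 0 := d.B.ne_zero _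
  set v := d.B ⟨i, (⟨0, d.mpos i⟩, ⟨0, d.npos i⟩)⟩ with hvdef
  have hpv : d.p i *ᵥ v = v := by
    rw [hvdef, d.hp, if_pos rfl]
  have hB : ∀ e, bf A v (d.B e) = 0 := by
    intro e
    by_cases he : e.1 = j
    · obtain ⟨l, a', b'⟩ := e
      subst he
      have h1 := congrFun (congrFun (hcon ⟨0, d.npos i⟩ b') ⟨0, d.mpos i⟩) a'
      exact h1
    · rw [← hpv, bf_mul, (hros g A (d.p i) (d.isComp i)).1, ← hij, ← Matrix.mulVec_mulVec, d.hp,
        if_neg he, Matrix.mulVec_zero, dotProduct_zero]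
  have hall : ∀ w, bf A v w = 0 := by
    intro w
    have hw := d.B.sum_repr w
    rw [← hw]
    unfold bf
    rw [Matrix.mulVec_sum, dotProduct_sum]
    refine Finset.sum_eq_zero fun e _ => ?_
    rw [Matrix.mulVec_smul, dotProduct_smul]
    have := hB e
    unfold bf at this
    rw [this, smul_zero]
  apply hv
  have hunit : IsUnit A.riem := (Matrix.isUnit_iff_isUnit_det _).2 (hleg g A).2.2.1
  have h2 : v ᵥ* A.riem = 0 := by
    ext k
    have h3 := hall (Pi.single k 1)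
    unfold bf at h3
    rw [Matrix.dotProduct_mulVec] at h3
    simpa using h3
  have h4 : v ᵥ* A.riem = 0 ᵥ* A.riem := by rw [h2, Matrix.zero_vecMul]
  exact Matrix.vecMul_injective_of_isUnit hunit h4

/-- Injectivity from irreducibility. -/
theorem inj_of_irr {m n : ℕ} (S : Set (Matrix (Fin m) (Fin m) ℂ × Matrix (Fin n) (Fin n) ℂ × ℂ))
    (Ω : Matrix (Fin m) (Fin n) ℂ) (hΩ : Ω ≠ 0)
    (hrel : ∀ s ∈ S, s.1ᵀ * Ω * s.2.1 = s.2.2 • Ω) (hdet : ∀ s ∈ S, s.1.det ≠ 0)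
    (irr : ∀ L : Submodule ℂ (Fin n → ℂ), (∀ s ∈ S, ∀ v ∈ L, s.2.1 *ᵥ v ∈ L) → L = ⊥ ∨ L = ⊤) :
    Function.Injective Ω.mulVecLin := by
  rw [← LinearMap.ker_eq_bot]
  have hst : ∀ s ∈ S, ∀ v ∈ LinearMap.ker Ω.mulVecLin, s.2.1 *ᵥ v ∈ LinearMap.ker Ω.mulVecLin := by
    intro s hs v hv
    rw [LinearMap.mem_ker, Matrix.mulVecLin_apply] at hv ⊢
    have h1 : s.1ᵀ *ᵥ (Ω *ᵥ (s.2.1 *ᵥ v)) = 0 := by
      rw [Matrix.mulVec_mulVec, Matrix.mulVec_mulVec, hrel s hs, Matrix.smul_mulVec, hv, smul_zero]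
    have hu : IsUnit (s.1ᵀ) := by
      rw [Matrix.isUnit_iff_isUnit_det, Matrix.det_transpose]
      exact isUnit_iff_ne_zero.2 (hdet s hs)
    have h2 : s.1ᵀ *ᵥ (Ω *ᵥ (s.2.1 *ᵥ v)) = s.1ᵀ *ᵥ 0 := by rw [h1, Matrix.mulVec_zero]
    exact Matrix.mulVec_injective_of_isUnit hu h2
  rcases irr (LinearMap.ker Ω.mulVecLin) hst with h | h
  · exact h
  · exfalso
    apply hΩ
    ext a b
    have h1 : (Pi.single b (1 : ℂ) : Fin n → ℂ) ∈ LinearMap.ker Ω.mulVecLin := by rw [h]; trivial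
    rw [LinearMap.mem_ker, Matrix.mulVecLin_apply] at h1
    have h2 := congrFun h1 a
    simpa using h2

/-- A matrix which is injective on both sides is invertible. -/
theorem inv_of_inj {m n : ℕ} (Ω : Matrix (Fin m) (Fin n) ℂ) (h1 : Function.Injective Ω.mulVecLin)
    (h2 : Function.Injective (Ωᵀ).mulVecLin) :
    ∃ Ω' : Matrix (Fin n) (Fin m) ℂ, Ω * Ω' = 1 ∧ Ω' * Ω = 1 := by
  have hnm : n ≤ m := by
    have := LinearMap.finrank_le_finrank_of_injective h1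
    simpa using this
  have hmn : m ≤ n := by
    have := LinearMap.finrank_le_finrank_of_injective h2
    simpa using this
  obtain rfl : m = n := le_antisymm hmn hnm
  have hu : IsUnit Ω := Matrix.mulVec_injective_iff_isUnit.1 h1
  have hd := (Matrix.isUnit_iff_isUnit_det _).1 hu
  exact ⟨Ω⁻¹, Matrix.mul_nonsing_inv _ hd, Matrix.nonsing_inv_mul _ hd⟩

/-- The real case: a semi-invariant form on a plane is alternating. -/
theorem alt_of_irr (S : Set (Matrix (Fin 2) (Fin 2) ℂ × Matrix (Fin 2) (Fin 2) ℂ × ℂ))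
    (hinv : ∀ s ∈ S, s.1 * s.2.1 = 1 ∧ s.2.1 * s.1 = 1) (hν : ∀ s ∈ S, s.2.2 ≠ 0)
    (Ω : Matrix (Fin 2) (Fin 2) ℂ)
    (hrel : ∀ s ∈ S, s.1ᵀ * Ω * s.1 = s.2.2 • Ω)
    (irr : ∀ L : Submodule ℂ (Fin 2 → ℂ), (∀ s ∈ S, ∀ v ∈ L, s.1 *ᵥ v ∈ L) → L = ⊥ ∨ L = ⊤)
    (hfin : ∀ P : Matrix (Fin 2) (Fin 2) ℂ, {Y | ∃ s ∈ S, Y = s.1 * P * s.2.1}.Finite →
      ∃ c : ℂ, P = c • 1) : Ωᵀ = -Ω := by
  by_contra hcon
  set T : Matrix (Fin 2) (Fin 2) ℂ := Ω + Ωᵀ with hT
  have hT0 : T ≠ 0 := by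
    intro h
    apply hcon
    rw [hT] at h
    rw [eq_neg_iff_add_eq_zero, add_comm]
    exact h
  have hTt : Tᵀ = T := by
    rw [hT, Matrix.transpose_add, Matrix.transpose_transpose, add_comm]
  have hTrel : ∀ s ∈ S, s.1ᵀ * T * s.1 = s.2.2 • T := by
    intro s hs
    have h1 := hrel s hs
    have h2 := congrArg Matrix.transpose h1
    rw [Matrix.transpose_mul, Matrix.transpose_mul, Matrix.transpose_transpose,
      Matrix.transpose_smul, ← Matrix.mul_assoc] at h2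
    rw [hT, Matrix.mul_add, Matrix.add_mul, h1, h2, smul_add]
  have hdet : ∀ s ∈ S, s.1.det ≠ 0 := by
    intro s hs h
    have := congrArg Matrix.det (hinv s hs).1
    rw [Matrix.det_mul, h, zero_mul, Matrix.det_one] at this
    exact zero_ne_one this
  have hinj : Function.Injective T.mulVecLin := by
    refine inj_of_irr ((fun s => (s.1, s.1, s.2.2)) '' S) T hT0 ?_ ?_ ?_
    · rintro _ ⟨s, hs, rfl⟩
      exact hTrel s hs
    · rintro _ ⟨s, hs, rfl⟩
      exact hdet s hs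
    · intro L hL
      refine irr L fun s hs v hv => ?_
      exact hL _ ⟨s, hs, rfl⟩ v hv
  obtain ⟨T', hT1, hT2⟩ := inv_of_inj T hinj (by rw [hTt]; exact hinj)
  -- the standard alternating matrix
  set J : Matrix (Fin 2) (Fin 2) ℂ := !![0, 1; -1, 0] with hJ
  have hJX : ∀ X : Matrix (Fin 2) (Fin 2) ℂ, Xᵀ * J * X = X.det • J := by
    intro X
    rw [hJ, Matrix.det_fin_two]
    ext a b
    fin_cases a <;> fin_cases b <;>
      simp [Matrix.mul_apply, Fin.sum_univ_two] <;> ring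
  have hT't : T'ᵀ = T' := by
    have h1 : T'ᵀ * T = 1 := by
      have := congrArg Matrix.transpose hT1
      rw [Matrix.transpose_mul, hTt, Matrix.transpose_one] at this
      exact this
    calc T'ᵀ = T'ᵀ * (T * T') := by rw [hT1, Matrix.mul_one]
      _ = T' := by rw [← Matrix.mul_assoc, h1, Matrix.one_mul]
  -- the element
  have hdetT : T.det ≠ 0 := by
    intro h
    have := congrArg Matrix.det hT1
    rw [Matrix.det_mul, h, zero_mul, Matrix.det_one] at this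
    exact zero_ne_one this
  have key : ∀ s ∈ S, s.1 * (T' * J) * s.2.1 = T' * J ∨ s.1 * (T' * J) * s.2.1 = -(T' * J) := by
    intro s hs
    have h1 := hTrel s hs
    have hd : s.1.det ^ 2 = s.2.2 ^ 2 := by
      have := congrArg Matrix.det h1
      rw [Matrix.det_mul, Matrix.det_mul, Matrix.det_transpose, Matrix.det_smul,
        Fintype.card_fin] at this
      have h3 : (s.1.det ^ 2 - s.2.2 ^ 2) * T.det = 0 := by linear_combination this
      rcases mul_eq_zero.1 h3 with h | h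
      · exact sub_eq_zero.1 h
      · exact absurd h hdetT
    have h4 : s.1.det = s.2.2 ∨ s.1.det = - s.2.2 := sq_eq_sq_iff_eq_or_eq_neg.1 hd
    -- X * T' * Xᵀ = ν T'
    have h5 : s.1 * T' * s.1ᵀ = s.2.2 • T' := by
      -- T' Xᵀ T X = ν  hence X^{-1} = ν^{-1} T' Xᵀ T
      have h6 : T' * s.1ᵀ * T * s.1 = s.2.2 • (1 : Matrix (Fin 2) (Fin 2) ℂ) := by
        rw [Matrix.mul_assoc, Matrix.mul_assoc, ← Matrix.mul_assoc s.1ᵀ, h1, Matrix.mul_smul, hT2]
      have h7 : T' * s.1ᵀ * T = s.2.2 • s.2.1 := by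
        calc T' * s.1ᵀ * T = T' * s.1ᵀ * T * (s.1 * s.2.1) := by
              rw [(hinv s hs).1, Matrix.mul_one]
          _ = (T' * s.1ᵀ * T * s.1) * s.2.1 := by rw [Matrix.mul_assoc _ s.1]
          _ = s.2.2 • s.2.1 := by rw [h6, Matrix.smul_mul, Matrix.one_mul]
      have h8 : T' * s.1ᵀ = s.2.2 • (s.2.1 * T') := by
        calc T' * s.1ᵀ = T' * s.1ᵀ * (T * T') := by rw [hT1, Matrix.mul_one]
          _ = (T' * s.1ᵀ * T) * T' := by rw [Matrix.mul_assoc _ T]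
          _ = s.2.2 • (s.2.1 * T') := by rw [h7, Matrix.smul_mul]
      rw [Matrix.mul_assoc, h8, Matrix.mul_smul, ← Matrix.mul_assoc, (hinv s hs).1, Matrix.one_mul]
    -- J X⁻¹ = (det X)⁻¹ Xᵀ J, i.e. Xᵀ J = det X J X⁻¹
    have h9 : s.1ᵀ * J = s.1.det • (J * s.2.1) := by
      calc s.1ᵀ * J = s.1ᵀ * J * (s.1 * s.2.1) := by rw [(hinv s hs).1, Matrix.mul_one]
        _ = (s.1ᵀ * J * s.1) * s.2.1 := by rw [Matrix.mul_assoc _ s.1]
        _ = s.1.det • (J * s.2.1) := by rw [hJX, Matrix.smul_mul]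
    have h10 : s.1.det • (s.1 * (T' * J) * s.2.1) = s.2.2 • (T' * J) := by
      calc s.1.det • (s.1 * (T' * J) * s.2.1) = s.1 * T' * (s.1.det • (J * s.2.1)) := by
            rw [Matrix.mul_smul]
            simp only [Matrix.mul_assoc]
        _ = s.1 * T' * (s.1ᵀ * J) := by rw [h9]
        _ = (s.1 * T' * s.1ᵀ) * J := by simp only [Matrix.mul_assoc]
        _ = s.2.2 • (T' * J) := by rw [h5, Matrix.smul_mul]
    have hd0 : s.2.2 ≠ 0 := hν s hs
    rcases h4 with h | h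
    · left
      rw [h] at h10
      exact smul_right_injective _ hd0 h10
    · right
      rw [h, neg_smul, ← smul_neg] at h10
      have h11 : -(s.1 * (T' * J) * s.2.1) = T' * J := smul_right_injective _ hd0 h10
      exact neg_eq_iff_eq_neg.1 h11
  obtain ⟨c, hc⟩ := hfin (T' * J) (by
    refine Set.Finite.subset (Set.toFinite {T' * J, -(T' * J)}) ?_
    rintro Y ⟨s, hs, rfl⟩
    rcases key s hs with h | h
    · rw [h]; exact Or.inl rfl
    · rw [h]; exact Or.inr rfl)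
  -- the trace of T' J is zero
  have hJt : Jᵀ = -J := by
    rw [hJ]
    ext a b
    fin_cases a <;> fin_cases b <;> simp
  have htr : (T' * J).trace = 0 := by
    have h1 : (T' * J).trace = -(T' * J).trace := by
      calc (T' * J).trace = ((T' * J)ᵀ).trace := (Matrix.trace_transpose _).symm
        _ = (Jᵀ * T'ᵀ).trace := by rw [Matrix.transpose_mul]
        _ = -(J * T').trace := by rw [hJt, hT't, Matrix.neg_mul, Matrix.trace_neg]
        _ = -(T' * J).trace := by rw [Matrix.trace_mul_comm]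
    have h2 : (2 : ℂ) * (T' * J).trace = 0 := by linear_combination h1
    rcases mul_eq_zero.1 h2 with h | h
    · norm_num at h
    · exact h
  rw [hc, Matrix.trace_smul, Matrix.trace_one, Fintype.card_fin] at htr
  have hc0 : c = 0 := by
    rw [smul_eq_mul] at htr
    rcases mul_eq_zero.1 htr with h | h
    · exact h
    · norm_num at h
  rw [hc0, zero_smul] at hc
  have hJ0 : J = 0 := by
    calc J = (T * T') * J := by rw [hT1, Matrix.one_mul]
      _ = T * (T' * J) := by rw [Matrix.mul_assoc]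
      _ = 0 := by rw [hc, Matrix.mul_zero]
  have := congrFun (congrFun hJ0 0) 1
  rw [hJ] at this
  simp at this

theorem det_of_alt (Ω : Matrix (Fin 2) (Fin 2) ℂ) (hΩ : Ω ≠ 0) (halt : Ωᵀ = -Ω)
    (X : Matrix (Fin 2) (Fin 2) ℂ) (ν : ℂ) (h : Xᵀ * Ω * X = ν • Ω) : X.det = ν := by
  have h00 : Ω 0 0 = 0 := by
    have := congrFun (congrFun halt 0) 0
    rw [Matrix.transpose_apply, Matrix.neg_apply] at this
    have h2 : (2 : ℂ) * Ω 0 0 = 0 := by linear_combination this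
    rcases mul_eq_zero.1 h2 with h | h
    · norm_num at h
    · exact h
  have h11 : Ω 1 1 = 0 := by
    have := congrFun (congrFun halt 1) 1
    rw [Matrix.transpose_apply, Matrix.neg_apply] at this
    have h2 : (2 : ℂ) * Ω 1 1 = 0 := by linear_combination this
    rcases mul_eq_zero.1 h2 with h | h
    · norm_num at h
    · exact h
  have h10 : Ω 1 0 = - Ω 0 1 := by
    have := congrFun (congrFun halt 0) 1
    rw [Matrix.transpose_apply, Matrix.neg_apply] at this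
    exact this
  have h01 : Ω 0 1 ≠ 0 := by
    intro h0
    apply hΩ
    ext a b
    fin_cases a <;> fin_cases b <;> simp [h00, h11, h10, h0]
  have h1 := congrFun (congrFun h 0) 1
  simp [Matrix.mul_apply, Fin.sum_univ_two, h00, h11, h10] at h1
  rw [Matrix.det_fin_two]
  have h2 : (X 0 0 * X 1 1 - X 0 1 * X 1 0 - ν) * Ω 0 1 = 0 := by
    linear_combination h1
  rcases mul_eq_zero.1 h2 with h | h
  · exact sub_eq_zero.1 h
  · exact absurd h h01

/-- The real case with `n = 2` as a hypothesis. -/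
theorem real_case {n : ℕ} (hn : n = 2)
    (S : Set (Matrix (Fin n) (Fin n) ℂ × Matrix (Fin n) (Fin n) ℂ × ℂ))
    (hinv : ∀ s ∈ S, s.1 * s.2.1 = 1 ∧ s.2.1 * s.1 = 1) (hν : ∀ s ∈ S, s.2.2 ≠ 0)
    (Ω : Matrix (Fin n) (Fin n) ℂ) (hΩ : Ω ≠ 0)
    (hrel : ∀ s ∈ S, s.1ᵀ * Ω * s.1 = s.2.2 • Ω)
    (irr : ∀ L : Submodule ℂ (Fin n → ℂ), (∀ s ∈ S, ∀ v ∈ L, s.1 *ᵥ v ∈ L) → L = ⊥ ∨ L = ⊤)
    (hfin : ∀ P : Matrix (Fin n) (Fin n) ℂ, {Y | ∃ s ∈ S, Y = s.1 * P * s.2.1}.Finite →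
      ∃ c : ℂ, P = c • 1) (X : Matrix (Fin n) (Fin n) ℂ) (ν : ℂ) (h : Xᵀ * Ω * X = ν • Ω) :
    X.det = ν := by
  subst hn
  exact det_of_alt Ω hΩ (alt_of_irr S hinv hν Ω hrel irr hfin) X ν h

theorem comm_gam (hgb1 : Stmt_Gb1) {g : ℕ} {A : AbVar g} {q : GL (Idx g) ℂ × ℂˣ} (hq : q ∈ Gam A) :
    A.Comm q.1.val := fun α hα => (hgb1 g A q hq).1 α hα

end FormX

open FormX

theorem form_proof (hros : Stmt_Ros) (hleg : Stmt_Leg) (hirrx : Stmt_IrrX) (hfinx : Stmt_FinX)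
    (hgb1 : Stmt_Gb1) : Stmt_Form := by
  intro g A d
  constructor
  · intro i hm hreal x ν hx h
    obtain ⟨b, b', hΩ⟩ := Om_ne hros hleg d i i hreal.symm
    refine real_case hm {s | ∃ q ∈ Gam A, s = (d.X q.1.val i, d.X (q.1⁻¹).val i, q.2.val)}
      ?_ ?_ (Om d i i b b') hΩ ?_ ?_ ?_ (d.X x i) ν (Om_rel d i i b b' hx h)
    · rintro _ ⟨q, hq, rfl⟩
      exact d.X_inv (comm_gam hgb1 hq) i
    · rintro _ ⟨q, hq, rfl⟩
      exact q.2.ne_zero
    · rintro _ ⟨q, hq, rfl⟩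
      exact Om_rel d i i b b' (comm_gam hgb1 hq) (hgb1 g A q hq).2
    · intro L hL
      refine hirrx g A d i L fun q hq v hv => ?_
      exact hL _ ⟨q, hq, rfl⟩ v hv
    · intro P hP
      refine (hfinx g A d).2 i P ?_
      refine hP.subset ?_
      rintro Y ⟨q, hq, rfl⟩
      exact ⟨_, ⟨q, hq, rfl⟩, rfl⟩
  · intro i j hij
    obtain ⟨b, b', hΩ⟩ := Om_ne hros hleg d i j hij
    have h1 : Function.Injective (Om d i j b b').mulVecLin := by
      refine inj_of_irr {s | ∃ q ∈ Gam A, s = (d.X q.1.val i, d.X q.1.val j, q.2.val)}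
        (Om d i j b b') hΩ ?_ ?_ ?_
      · rintro _ ⟨q, hq, rfl⟩
        exact Om_rel d i j b b' (comm_gam hgb1 hq) (hgb1 g A q hq).2
      · rintro _ ⟨q, hq, rfl⟩
        exact d.X_det_ne (comm_gam hgb1 hq) i
      · intro L hL
        refine hirrx g A d j L fun q hq v hv => ?_
        exact hL _ ⟨q, hq, rfl⟩ v hv
    have h2 : Function.Injective ((Om d i j b b')ᵀ).mulVecLin := by
      refine inj_of_irr {s | ∃ q ∈ Gam A, s = (d.X q.1.val j, d.X q.1.val i, q.2.val)}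
        ((Om d i j b b')ᵀ) ?_ ?_ ?_ ?_
      · intro h
        apply hΩ
        rw [← Matrix.transpose_transpose (Om d i j b b'), h, Matrix.transpose_zero]
      · rintro _ ⟨q, hq, rfl⟩
        have h3 := Om_rel d i j b b' (comm_gam hgb1 hq) (hgb1 g A q hq).2
        have h4 := congrArg Matrix.transpose h3
        rw [Matrix.transpose_mul, Matrix.transpose_mul, Matrix.transpose_transpose,
          Matrix.transpose_smul, ← Matrix.mul_assoc] at h4
        exact h4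
      · rintro _ ⟨q, hq, rfl⟩
        exact d.X_det_ne (comm_gam hgb1 hq) j
      · intro L hL
        refine hirrx g A d i L fun q hq v hv => ?_
        exact hL _ ⟨q, hq, rfl⟩ v hv
    obtain ⟨Ω', h3, h4⟩ := inv_of_inj _ h1 h2
    exact ⟨Om d i j b b', Ω', h3, h4, fun x ν hx h => Om_rel d i j b b' hx h⟩

end

end Pool.Agent.DRB
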