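import Pool.Agent.DRB.Stmts3
import Pool.Agent.DRB.Gt

/-!
# GT3: the block theorem
-/

set_option autoImplicit false

open scoped BigOperators
open Matrix

namespace Pool.Agent.DRB

noncomputable section

namespace GT3X

open GtX

variable {R C : Type} [Fintype R] [DecidableEq R] [Fintype C] [DecidableEq C]

/-- every block has a non scalar element -/
theorem exists_nonscalar (hAdj : Stmt_Adj) (hJd : Stmt_Jd) (hJnf : Stmt_Jnf)
    (hHomx : Stmt_Homx) (Γ : Subgroup (BGrp R C)) (t : TData)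
    (D : Submodule ℂ (TIdx t (BIdx R C) → ℂ))
    (hD : ∀ γ ∈ Γ, D.map (TAct t (bm γ) γ.2.2.val) ≤ D) (r : R)
    (h4 : ∃ γ ∈ Γ, ∀ n : ℕ, 1 ≤ n →
      ¬ ∃ a : ℂ, (γ.1 r).val ^ n = a • (1 : Matrix (Fin 2) (Fin 2) ℂ)) :
    ∃ X ∈ hh hAdj t D, ∀ a : ℂ, X.1 r ≠ a • (1 : Matrix (Fin 2) (Fin 2) ℂ) := by
  obtain ⟨γ, hγ, hn⟩ := h4
  choose S α N hN hc he using fun r' => hJnf (γ.1 r')
  obtain ⟨h1, h2⟩ := jordan_mem hAdj hJd t D γ (hD γ hγ) S α N hN hc he
  by_cases hNr : N r = 0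
  · have hz : ∀ k : ℕ, 1 ≤ k → (α r 0 / α r 1) ^ k ≠ 1 := by
      intro k hk h3
      apply hn k hk
      have h4 : (α r 0) ^ k = (α r 1) ^ k := by
        rw [div_pow, div_eq_one] at h3
        exact h3
      refine ⟨((α r 1) ^ k : ℂˣ).val, ?_⟩
      have h5 : (γ.1 r).val ^ k = (S r).val * Matrix.diagonal (fun i => ((α r i) ^ k : ℂˣ).val) *
          ((S r)⁻¹).val := by
        have h6 : (γ.1 r).val = (S r).val * Matrix.diagonal (fun i => (α r i).val) *
            ((S r)⁻¹).val := by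
          rw [he r, hNr, add_zero, Matrix.mul_one]
        have h7 : ∀ j : ℕ, (γ.1 r).val ^ j = (S r).val *
            Matrix.diagonal (fun i => ((α r i) ^ j : ℂˣ).val) * ((S r)⁻¹).val := by
          intro j
          induction j with
          | zero =>
            simp only [pow_zero, Units.val_one]
            rw [Matrix.diagonal_one, Matrix.mul_one, Units.mul_inv]
          | succ j ih =>
            rw [pow_succ, ih, h6]
            calc (S r).val * Matrix.diagonal (fun i => ((α r i) ^ j : ℂˣ).val) * ((S r)⁻¹).val *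
                  ((S r).val * Matrix.diagonal (fun i => (α r i).val) * ((S r)⁻¹).val)
                = (S r).val * (Matrix.diagonal (fun i => ((α r i) ^ j : ℂˣ).val) *
                  (((S r)⁻¹).val * (S r).val) * Matrix.diagonal (fun i => (α r i).val)) *
                    ((S r)⁻¹).val := by simp only [Matrix.mul_assoc]
              _ = _ := by
                rw [Units.inv_mul, Matrix.mul_one, Matrix.diagonal_mul_diagonal]
                congr 3
        exact h7 k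
      rw [h5]
      have h8 : (fun i : Fin 2 => ((α r i) ^ k : ℂˣ).val) = fun _ => ((α r 1) ^ k : ℂˣ).val := by
        funext i
        fin_cases i
        · show ((α r 0) ^ k : ℂˣ).val = _
          rw [h4]
        · rfl
      rw [h8]
      have h9 : Matrix.diagonal (fun _ : Fin 2 => ((α r 1) ^ k : ℂˣ).val) =
          ((α r 1) ^ k : ℂˣ).val • (1 : Matrix (Fin 2) (Fin 2) ℂ) := by
        rw [Matrix.smul_one_eq_diagonal]
      rw [h9, Matrix.mul_smul, Matrix.mul_one, Matrix.smul_mul, Units.mul_inv]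
    obtain ⟨L, hL⟩ := exists_hom hHomx (α r 0 / α r 1) hz
    refine ⟨_, h1 L, ?_⟩
    intro a ha
    have h3 := conj_scalar (S r) _ a ha
    have h4 := congrFun (congrFun h3 0) 0
    have h5 := congrFun (congrFun h3 1) 1
    simp only [Matrix.diagonal_apply_eq, Matrix.smul_apply, Matrix.one_apply_eq] at h4 h5
    apply hL
    rw [ofMul_div, map_sub, h4, h5, sub_self]
  · refine ⟨_, h2, ?_⟩
    intro a ha
    have h3 := conj_scalar (S r) _ a ha
    have h4 := hN r
    rw [h3] at h4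
    have h5 := congrFun (congrFun h4 0) 0
    have h6 : a * a = 0 := by simpa using h5
    have h7 : a = 0 := mul_self_eq_zero.mp h6
    apply hNr
    rw [h3, h7, zero_smul]

/-- all block elements which are traceless -/
theorem traceless_mem (hAdj : Stmt_Adj) (t : TData)
    (D : Submodule ℂ (TIdx t (BIdx R C) → ℂ))
    (hs : ∀ r, ∀ Y : Matrix (Fin 2) (Fin 2) ℂ, Y.trace = 0 →
      ((Pi.single r Y, 0, 0) : BLie R C) ∈ hh hAdj t D)
    (X : R → Matrix (Fin 2) (Fin 2) ℂ) (hX : ∀ r, (X r).trace = 0) :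
    ((X, 0, 0) : BLie R C) ∈ hh hAdj t D := by
  have h1 : ((X, 0, 0) : BLie R C) = ∑ r, ((Pi.single r (X r), 0, 0) : BLie R C) := by
    refine Prod.ext ?_ (Prod.ext ?_ ?_)
    · rw [Prod.fst_sum]
      exact (Finset.univ_sum_single X).symm
    · rw [Prod.snd_sum, Prod.fst_sum]
      simp
    · rw [Prod.snd_sum, Prod.snd_sum]
      simp
  rw [h1]
  exact Submodule.sum_mem _ fun r _ => hs r (X r) (hX r)

/-- logarithms of determinants -/
theorem det_mem (hAdj : Stmt_Adj) (hJd : Stmt_Jd) (hJnf : Stmt_Jnf) (t : TData)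
    (D : Submodule ℂ (TIdx t (BIdx R C) → ℂ))
    (hs : ∀ r, ∀ Y : Matrix (Fin 2) (Fin 2) ℂ, Y.trace = 0 →
      ((Pi.single r Y, 0, 0) : BLie R C) ∈ hh hAdj t D)
    (δ : BGrp R C) (hδ : D.map (TAct t (bm δ) δ.2.2.val) ≤ D) (L : Additive ℂˣ →+ ℂ) :
    ((fun r => Matrix.diagonal ![L (Additive.ofMul (Matrix.GeneralLinearGroup.det (δ.1 r))), 0],
      fun i => L (Additive.ofMul (δ.2.1 i)), L (Additive.ofMul δ.2.2)) : BLie R C) ∈
      hh hAdj t D := by
  choose S α N hN hc he using fun r' => hJnf (δ.1 r')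
  obtain ⟨h1, -⟩ := jordan_mem hAdj hJd t D δ hδ S α N hN hc he
  have h2 := h1 L
  have h3 := traceless_mem hAdj t D hs
    (fun r => Matrix.diagonal ![L (Additive.ofMul (Matrix.GeneralLinearGroup.det (δ.1 r))), 0] -
        (S r).val * Matrix.diagonal (fun i => L (Additive.ofMul (α r i))) * ((S r)⁻¹).val) (by
      intro r
      rw [Matrix.trace_sub, trace_conj, Matrix.trace_diagonal, Matrix.trace_diagonal,
        Fin.sum_univ_two, Fin.sum_univ_two]
      have hdet : α r 0 * α r 1 = Matrix.GeneralLinearGroup.det (δ.1 r) := by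
        apply Units.ext
        rw [Matrix.GeneralLinearGroup.val_det_apply, he r, Matrix.det_mul, Matrix.det_mul,
          Matrix.det_mul, (sq_zero (N r) (hN r)).2, Matrix.det_diagonal, Fin.prod_univ_two,
          mul_one, Units.val_mul]
        have h5 : (S r).val.det * ((S r)⁻¹).val.det = 1 := by
          rw [← Matrix.det_mul, Units.mul_inv, Matrix.det_one]
        linear_combination (-((α r 0).val * (α r 1).val)) * h5
      have h6 : L (Additive.ofMul (α r 0)) + L (Additive.ofMul (α r 1)) =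
          L (Additive.ofMul (Matrix.GeneralLinearGroup.det (δ.1 r))) := by
        rw [← map_add, ← ofMul_mul, hdet]
      rw [h6]
      simp)
  have h4 := (hh hAdj t D).add_mem h2 h3
  have h5 : ((fun r => Matrix.diagonal
      ![L (Additive.ofMul (Matrix.GeneralLinearGroup.det (δ.1 r))), 0],
      fun i => L (Additive.ofMul (δ.2.1 i)), L (Additive.ofMul δ.2.2)) : BLie R C) =
      ((fun r => (S r).val * Matrix.diagonal (fun i => L (Additive.ofMul (α r i))) *
        ((S r)⁻¹).val, fun i => L (Additive.ofMul (δ.2.1 i)), L (Additive.ofMul δ.2.2)) :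
        BLie R C) +
      ((fun r => Matrix.diagonal
        ![L (Additive.ofMul (Matrix.GeneralLinearGroup.det (δ.1 r))), 0] -
        (S r).val * Matrix.diagonal (fun i => L (Additive.ofMul (α r i))) * ((S r)⁻¹).val,
        0, 0) : BLie R C) := by
    refine Prod.ext ?_ (Prod.ext ?_ ?_)
    · funext r
      show Matrix.diagonal ![L (Additive.ofMul (Matrix.GeneralLinearGroup.det (δ.1 r))), 0] =
        (S r).val * Matrix.diagonal (fun i => L (Additive.ofMul (α r i))) * ((S r)⁻¹).val +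
        (Matrix.diagonal ![L (Additive.ofMul (Matrix.GeneralLinearGroup.det (δ.1 r))), 0] -
        (S r).val * Matrix.diagonal (fun i => L (Additive.ofMul (α r i))) * ((S r)⁻¹).val)
      rw [add_sub_cancel]
    · show (fun i => L (Additive.ofMul (δ.2.1 i))) = (fun i => L (Additive.ofMul (δ.2.1 i))) + 0
      rw [add_zero]
    · show L (Additive.ofMul δ.2.2) = L (Additive.ofMul δ.2.2) + 0
      rw [add_zero]
  rw [h5]
  exact h4

/-- elements killed by all homomorphisms to `ℂ` are torsion -/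
theorem torsion_of_hom (hHomx : Stmt_Homx) (z : ℂˣ)
    (hz : ∀ L : Additive ℂˣ →+ ℂ, L (Additive.ofMul z) = 0) : ∃ N : ℕ, 1 ≤ N ∧ z ^ N = 1 := by
  by_contra hcon
  push Not at hcon
  obtain ⟨L, hL⟩ := exists_hom hHomx z hcon
  exact hL (hz L)

/-- diagonal elements of the stabilizer algebra -/
theorem diag_mem (hAdj : Stmt_Adj) (t : TData)
    (D : Submodule ℂ (TIdx t (BIdx R C) → ℂ)) (a : R → Fin 2 → ℂ) (y : C → ℂ) (μ : ℂ)
    (h : ((fun r => Matrix.diagonal (a r), y, μ) : BLie R C) ∈ hh hAdj t D) :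
    D.map (DAct t (Matrix.diagonal (Sum.elim (fun p : Fin 2 × R => a p.2 p.1) y)) μ) ≤ D := by
  rw [Bmat_diag]
  exact h

omit [DecidableEq R] [DecidableEq C] in
theorem sum_diag (w : BIdx R C → ℤ) (a : R → Fin 2 → ℂ) (y : C → ℂ) :
    ∑ i, (w i : ℂ) * (Sum.elim (fun p : Fin 2 × R => a p.2 p.1) y) i =
      ∑ r, ((w (Sum.inl (0, r)) : ℂ) * a r 0 + (w (Sum.inl (1, r)) : ℂ) * a r 1) +
        ∑ i, (w (Sum.inr i) : ℂ) * y i := by
  rw [Fintype.sum_sum_type]
  simp only [Sum.elim_inl, Sum.elim_inr]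
  congr 1
  rw [Fintype.sum_prod_type_right]
  refine Finset.sum_congr rfl fun r _ => ?_
  rw [Fin.sum_univ_two]


/-- the diagonal part of the Lie algebra -/
def ZZ (t : TData) (D : Submodule ℂ (TIdx t (BIdx R C) → ℂ)) : Set ((BIdx R C → ℂ) × ℂ) :=
  {z | D.map (DAct t (Matrix.diagonal z.1) z.2) ≤ D}

theorem mem_ZZ (hAdj : Stmt_Adj) (t : TData)
    (D : Submodule ℂ (TIdx t (BIdx R C) → ℂ)) (a : R → Fin 2 → ℂ) (y : C → ℂ) (μ : ℂ)
    (h : ((fun r => Matrix.diagonal (a r), y, μ) : BLie R C) ∈ hh hAdj t D) :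
    (Sum.elim (fun p : Fin 2 × R => a p.2 p.1) y, μ) ∈ ZZ t D :=
  diag_mem hAdj t D a y μ h

/-- consequence for the weights -/
theorem weight_eq (t : TData) (D : Submodule ℂ (TIdx t (BIdx R C) → ℂ))
    (w : BIdx R C → ℤ) (m : ℤ)
    (hw : ∀ z ∈ ZZ t D, ∑ i, (w i : ℂ) * z.1 i + m * z.2 = 0)
    (a : R → Fin 2 → ℂ) (y : C → ℂ) (μ : ℂ)
    (h : (Sum.elim (fun p : Fin 2 × R => a p.2 p.1) y, μ) ∈ ZZ t D) :
    ∑ r, ((w (Sum.inl (0, r)) : ℂ) * a r 0 + (w (Sum.inl (1, r)) : ℂ) * a r 1) +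
        ∑ i, (w (Sum.inr i) : ℂ) * y i + m * μ = 0 := by
  have h2 := hw _ h
  rw [← sum_diag]
  exact h2

theorem weight_torsion (hAdj : Stmt_Adj) (hJd : Stmt_Jd) (hJnf : Stmt_Jnf) (hHomx : Stmt_Homx)
    (t : TData) (D : Submodule ℂ (TIdx t (BIdx R C) → ℂ))
    (hs : ∀ r, ∀ Y : Matrix (Fin 2) (Fin 2) ℂ, Y.trace = 0 →
      ((Pi.single r Y, 0, 0) : BLie R C) ∈ hh hAdj t D)
    (w : BIdx R C → ℤ) (m : ℤ)
    (hw : ∀ z ∈ ZZ t D, ∑ i, (w i : ℂ) * z.1 i + m * z.2 = 0)
    (δ : BGrp R C) (hδ : D.map (TAct t (bm δ) δ.2.2.val) ≤ D) :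
    ∃ N : ℕ, 1 ≤ N ∧
      ((∏ r, (δ.1 r).val.det ^ w (Sum.inl (0, r))) *
        (∏ i, (δ.2.1 i).val ^ w (Sum.inr i)) * δ.2.2.val ^ m) ^ N = 1 := by
  obtain ⟨N, hN, h1⟩ := torsion_of_hom hHomx
    ((∏ r, (Matrix.GeneralLinearGroup.det (δ.1 r)) ^ w (Sum.inl (0, r))) *
      (∏ i, (δ.2.1 i) ^ w (Sum.inr i)) * δ.2.2 ^ m) (by
    intro L
    have h2 := weight_eq t D w m hw _ _ _
      (mem_ZZ hAdj t D _ _ _ (det_mem hAdj hJd hJnf t D hs δ hδ L))
    have h3 : ∀ z : ℂˣ, ∀ n : ℤ, L (Additive.ofMul (z ^ n)) =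
        (n : ℂ) * L (Additive.ofMul z) := by
      intro z n
      rw [ofMul_zpow, map_zsmul, zsmul_eq_mul]
    have h4 : ∀ (ι : Type) [Fintype ι] (f : ι → ℂˣ), L (Additive.ofMul (∏ i, f i)) =
        ∑ i, L (Additive.ofMul (f i)) := by
      intro ι _ f
      rw [ofMul_prod, map_sum]
    rw [ofMul_mul, ofMul_mul, map_add, map_add, h4, h4, h3]
    rw [← h2]
    congr 1
    congr 1
    · refine Finset.sum_congr rfl fun r _ => ?_
      rw [h3]
      simp
    · refine Finset.sum_congr rfl fun i _ => ?_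
      rw [h3])
  refine ⟨N, hN, ?_⟩
  have h2 := congrArg Units.val h1
  rw [Units.val_pow_eq_pow_val, Units.val_mul, Units.val_mul, Units.coe_prod,
    Units.coe_prod, Units.val_zpow_eq_zpow_val, Units.val_one] at h2
  simp only [Units.val_zpow_eq_zpow_val, Matrix.GeneralLinearGroup.val_det_apply] at h2
  exact h2

/-- the diagonal element with the same determinants -/
def zeta (γ : BGrp R C) : BIdx R C → ℂˣ :=
  Sum.elim (fun p : Fin 2 × R => ![Matrix.GeneralLinearGroup.det (γ.1 p.2), 1] p.1) γ.2.1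

omit [DecidableEq R] [DecidableEq C] in
theorem zeta_prod (γ : BGrp R C) (w : BIdx R C → ℤ) (m : ℤ)
    (h : (∏ r, (γ.1 r).val.det ^ w (Sum.inl (0, r))) *
        (∏ i, (γ.2.1 i).val ^ w (Sum.inr i)) * γ.2.2.val ^ m = 1) :
    (∏ i, zeta γ i ^ w i) * γ.2.2 ^ m = 1 := by
  apply Units.ext
  rw [Units.val_mul, Units.coe_prod, Units.val_zpow_eq_zpow_val, Units.val_one, ← h]
  congr 1
  rw [Fintype.prod_sum_type, Fintype.prod_prod_type_right]
  congr 1
  · refine Finset.prod_congr rfl fun r _ => ?_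
    rw [Fin.prod_univ_two, Units.val_zpow_eq_zpow_val, Units.val_zpow_eq_zpow_val]
    show (Matrix.GeneralLinearGroup.det (γ.1 r)).val ^ w (Sum.inl (0, r)) *
      (1 : ℂˣ).val ^ w (Sum.inl (1, r)) = _
    rw [Units.val_one, _root_.one_zpow, mul_one, Matrix.GeneralLinearGroup.val_det_apply]
  · refine Finset.prod_congr rfl fun r _ => ?_
    rw [Units.val_zpow_eq_zpow_val]
    rfl

theorem bm_eq (γ : BGrp R C) :
    bm γ = Bmat (fun r => (γ.1 r).val *
      Matrix.diagonal ![((Matrix.GeneralLinearGroup.det (γ.1 r))⁻¹).val, 1]) (1 : C → ℂ) *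
      Matrix.diagonal (fun i => (zeta γ i).val) := by
  have h6 : (fun i => (zeta γ i).val) = Sum.elim (fun p : Fin 2 × R =>
      (fun (r : R) (i : Fin 2) => (![Matrix.GeneralLinearGroup.det (γ.1 r), 1] i).val)
        p.2 p.1) (fun i => (γ.2.1 i).val) := by
    funext i
    rcases i with i | i <;> rfl
  rw [h6, Bmat_diag (fun (r : R) (i : Fin 2) =>
    (![Matrix.GeneralLinearGroup.det (γ.1 r), 1] i).val), Bmat_mul]
  unfold bm
  congr 1
  · funext r
    rw [Matrix.mul_assoc, Matrix.diagonal_mul_diagonal]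
    have h7 : (fun i : Fin 2 => ![((Matrix.GeneralLinearGroup.det (γ.1 r))⁻¹).val, 1] i *
        (![Matrix.GeneralLinearGroup.det (γ.1 r), 1] i).val) = fun _ => 1 := by
      funext i
      fin_cases i
      · show ((Matrix.GeneralLinearGroup.det (γ.1 r))⁻¹).val *
          (Matrix.GeneralLinearGroup.det (γ.1 r)).val = 1
        rw [Units.inv_mul]
      · show (1 : ℂ) * (1 : ℂˣ).val = 1
        rw [Units.val_one, mul_one]
    have h8 : Matrix.diagonal (fun _ : Fin 2 => (1 : ℂ)) = 1 := Matrix.diagonal_one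
    rw [h7, h8, Matrix.mul_one]
  · funext i
    show (γ.2.1 i).val = (1 : C → ℂ) i * (γ.2.1 i).val
    rw [Pi.one_apply, one_mul]

end GT3X

open GtX GT3X in
theorem gt3_proof (hJd : Stmt_Jd) (hExp : Stmt_Exp) (hJnf : Stmt_Jnf) (hAd13 : Stmt_Ad13)
    (hAdj : Stmt_Adj) (hDiag : Stmt_Diag) (hHomx : Stmt_Homx) : Stmt_Gt3 := by
  intro R C _ _ _ _ Γ hΓ t D hD γ hγ
  -- the traceless blocks
  have hs : ∀ r, ∀ Y : Matrix (Fin 2) (Fin 2) ℂ, Y.trace = 0 →
      ((Pi.single r Y, 0, 0) : BLie R C) ∈ hh hAdj t D := by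
    intro r
    refine hAd13 R C Γ hΓ (hh hAdj t D) ?_ ?_ r ?_
    · intro X hX Y hY
      exact hh_bracket hAdj t D X Y hX hY
    · intro γ' hγ' X hX
      refine hh_conj hAdj t D γ' ?_ ?_ X hX
      · exact fun u hu => (Submodule.map_le_iff_le_comap.mp (hD γ' hγ')) hu
      · exact fun u hu =>
          (Submodule.map_le_iff_le_comap.mp (hD γ'⁻¹ (Γ.inv_mem hγ'))) hu
    · exact GT3X.exists_nonscalar hAdj hJd hJnf hHomx Γ t D hD r (hΓ.h4 r)
  -- the diagonal part
  have hdg : D.map (TAct t (Matrix.diagonal fun i => (zeta γ i).val) γ.2.2.val) ≤ D := by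
    refine hDiag (BIdx R C) t D (ZZ t D) (fun z hz => hz) (zeta γ) γ.2.2 ?_
    intro w m hw
    apply zeta_prod
    exact hγ (fun r => w (Sum.inl (0, r))) (fun i => w (Sum.inr i)) m
      fun δ hδ => weight_torsion hAdj hJd hJnf hHomx t D hs w m hw δ (hD δ hδ)
  -- the determinant one part
  have hx : ∀ r, ((γ.1 r).val *
      Matrix.diagonal ![((Matrix.GeneralLinearGroup.det (γ.1 r))⁻¹).val, 1]).det = 1 := by
    intro r
    rw [Matrix.det_mul, Matrix.det_diagonal, Fin.prod_univ_two,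
      ← Matrix.GeneralLinearGroup.val_det_apply]
    show (Matrix.GeneralLinearGroup.det (γ.1 r)).val *
      (((Matrix.GeneralLinearGroup.det (γ.1 r))⁻¹).val * 1) = 1
    rw [mul_one, Units.mul_inv]
  have hx2 := sl_mem hExp hAdj t D hs _ hx
  rw [Submodule.map_le_iff_le_comap] at hdg ⊢
  intro u hu
  have h5 : TAct t (bm γ) γ.2.2.val = (TAct t (Bmat (fun r => (γ.1 r).val *
      Matrix.diagonal ![((Matrix.GeneralLinearGroup.det (γ.1 r))⁻¹).val, 1]) (1 : C → ℂ)) 1).comp
      (TAct t (Matrix.diagonal fun i => (zeta γ i).val) γ.2.2.val) := by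
    rw [← TAct_comp, one_mul, bm_eq]
  rw [Submodule.mem_comap, h5]
  exact hx2 _ (hdg hu)

end

end Pool.Agent.DRB
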