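import Pool.Agent.DRB.Stmts3

/-!
# De Rham-Betti conjecture, second theorem: GAL3, automorphisms of `ℂ` permute the components
-/

open scoped BigOperators
open Matrix

namespace Pool.Agent.DRB

namespace Gal3X

noncomputable section

variable {g : ℕ} {A : AbVar g}

theorem map_toC (f : ℂ ≃+* ℂ) (α : Matrix (Idx g) (Idx g) ℚ) :
    (AbVar.toC α).map f = AbVar.toC α := by
  ext i j
  rw [AbVar.toC, Matrix.map_apply, Matrix.map_apply]
  exact map_ratCast f (α i j)

theorem map_symm (f : ℂ ≃+* ℂ) (x : Matrix (Idx g) (Idx g) ℂ) : (x.map f).map f.symm = x := by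
  ext i j
  simp

theorem symm_map (f : ℂ ≃+* ℂ) (x : Matrix (Idx g) (Idx g) ℂ) : (x.map f.symm).map f = x := by
  ext i j
  simp

theorem mul_map (f : ℂ ≃+* ℂ) (x y : Matrix (Idx g) (Idx g) ℂ) :
    (x * y).map f = x.map f * y.map f := Matrix.map_mul

theorem mem_EndC (f : ℂ ≃+* ℂ) {x : Matrix (Idx g) (Idx g) ℂ} (hx : x ∈ A.EndC) :
    x.map f ∈ A.EndC := by
  rw [AbVar.EndC] at hx
  induction hx using Submodule.span_induction with
  | mem x h =>
    obtain ⟨α, hα, rfl⟩ := h
    rw [map_toC]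
    exact Submodule.subset_span ⟨α, hα, rfl⟩
  | zero =>
    rw [Matrix.map_zero _ (map_zero f)]
    exact zero_mem _
  | add x y _ _ hx hy =>
    rw [Matrix.map_add _ (map_add f)]
    exact add_mem hx hy
  | smul c x _ hx =>
    have : (c • x).map f = f c • x.map f := by
      ext i j
      simp
    rw [this]
    exact Submodule.smul_mem _ _ hx

theorem comm (f : ℂ ≃+* ℂ) {x : Matrix (Idx g) (Idx g) ℂ} (hx : A.Comm x) : A.Comm (x.map f) := by
  intro α hα
  have := congrArg (fun y : Matrix (Idx g) (Idx g) ℂ => y.map f) (hx α hα)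
  simp only [mul_map, map_toC] at this
  exact this

theorem isCIdem (f : ℂ ≃+* ℂ) {x : Matrix (Idx g) (Idx g) ℂ} (hx : A.IsCIdem x) :
    A.IsCIdem (x.map f) := by
  refine ⟨mem_EndC f hx.1, ?_, comm f hx.2.2⟩
  rw [← mul_map, hx.2.1]

theorem isComp (f : ℂ ≃+* ℂ) {p : Matrix (Idx g) (Idx g) ℂ} (hp : A.IsComp p) :
    A.IsComp (p.map f) := by
  refine ⟨isCIdem f hp.1, ?_, ?_⟩
  · intro h
    apply hp.2.1
    rw [← map_symm f p, h, Matrix.map_zero _ (map_zero f.symm)]
  · intro q hq hqp
    have h1 : q.map f.symm * p = q.map f.symm := by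
      have := congrArg (fun y : Matrix (Idx g) (Idx g) ℂ => y.map f.symm) hqp
      simp only [mul_map, map_symm] at this
      exact this
    rcases hp.2.2 _ (isCIdem f.symm hq) h1 with h | h
    · left
      rw [← symm_map f q, h, Matrix.map_zero _ (map_zero f)]
    · right
      rw [← symm_map f q, h]

/-- The submodule in the definition of `comDim`. -/
theorem mem_span_iff (p : Matrix (Idx g) (Idx g) ℂ) (x : Matrix (Idx g) (Idx g) ℂ) :
    x ∈ Submodule.span ℂ {x | A.Comm x ∧ p * x = x} ↔ A.Comm x ∧ p * x = x := by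
  constructor
  · intro hx
    induction hx using Submodule.span_induction with
    | mem x h => exact h
    | zero =>
      refine ⟨fun α _ => by rw [Matrix.zero_mul, Matrix.mul_zero], Matrix.mul_zero _⟩
    | add x y _ _ hx hy =>
      refine ⟨fun α hα => ?_, ?_⟩
      · rw [Matrix.add_mul, Matrix.mul_add, hx.1 α hα, hy.1 α hα]
      · rw [Matrix.mul_add, hx.2, hy.2]
    | smul c x _ hx =>
      refine ⟨fun α hα => ?_, ?_⟩
      · rw [Matrix.smul_mul, Matrix.mul_smul, hx.1 α hα]
      · rw [Matrix.mul_smul, hx.2]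
  · intro hx
    exact Submodule.subset_span hx

theorem mem_span_map (f : ℂ ≃+* ℂ) (p : Matrix (Idx g) (Idx g) ℂ) {x : Matrix (Idx g) (Idx g) ℂ}
    (hx : x ∈ Submodule.span ℂ {x | A.Comm x ∧ p * x = x}) :
    x.map f ∈ Submodule.span ℂ {x | A.Comm x ∧ p.map f * x = x} := by
  rw [mem_span_iff] at hx ⊢
  refine ⟨comm f hx.1, ?_⟩
  rw [← mul_map, hx.2]

theorem comDim (f : ℂ ≃+* ℂ) (p : Matrix (Idx g) (Idx g) ℂ) : A.comDim (p.map f) = A.comDim p := by
  symm
  rw [AbVar.comDim, AbVar.comDim]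
  have key := rank_eq_of_equiv_equiv (R := ℂ) (R' := ℂ)
    (M := Submodule.span ℂ {x | A.Comm x ∧ p * x = x})
    (M₁ := Submodule.span ℂ {x | A.Comm x ∧ p.map f * x = x}) f
    { toFun := fun x => ⟨x.1.map f, mem_span_map f p x.2⟩
      invFun := fun x => ⟨x.1.map f.symm, by
        have := mem_span_map f.symm (p.map f) x.2
        rw [map_symm] at this
        exact this⟩
      left_inv := fun x => Subtype.ext (map_symm f x.1)
      right_inv := fun x => Subtype.ext (symm_map f x.1)
      map_add' := fun x y => Subtype.ext (Matrix.map_add _ (map_add f) x.1 y.1) }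
    f.bijective (fun r x => by
      apply Subtype.ext
      ext i j
      simp)
  exact congrArg Cardinal.toNat key

end

end Gal3X

open Gal3X in
theorem gal3_proof (hD : Stmt_Dec) (hA : Stmt_Aut2) : Stmt_Gal3 := by
  intro g A p hp
  refine ⟨fun σ => ⟨isComp σ.toRingEquiv hp, comDim σ.toRingEquiv p⟩,
    isComp (starRingAut : ℂ ≃+* ℂ) hp, comDim (starRingAut : ℂ ≃+* ℂ) p, fun i j => ?_⟩
  obtain ⟨d⟩ := hD g A
  apply hA
  have hfin : (Set.range fun l : Fin d.k => d.p l i j).Finite := Set.finite_range _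
  refine (hfin.subset ?_).countable
  rintro w ⟨τ, _, rfl⟩
  obtain ⟨l, hl⟩ := (d.comp _).1 (isComp τ.toRingEquiv hp)
  refine ⟨l, ?_⟩
  have := congrFun (congrFun hl i) j
  exact this.symm

end Pool.Agent.DRB
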