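import Pool.Agent.DRB.Stmts3
import Pool.Agent.DRB.H5

open scoped BigOperators Topology Kronecker
open Matrix

namespace Pool.Agent.DRB

noncomputable section

namespace H53X

open H5X

/-! ### Matrices of the components -/

section comp

variable {g : ℕ} {A : AbVar g} (d : Dec A)

/-- The inclusion of a component. -/
def G (i : Fin d.k) : Matrix (Idx g) (Fin (d.m i) × Fin (d.n i)) ℂ :=
  Matrix.of fun k e => d.B ⟨i, e⟩ k

/-- The coordinates on a component. -/
def F (i : Fin d.k) : Matrix (Fin (d.m i) × Fin (d.n i)) (Idx g) ℂ :=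
  LinearMap.toMatrix' (LinearMap.pi fun e => d.B.coord ⟨i, e⟩)

theorem F_mulVec (i : Fin d.k) (v : Idx g → ℂ) :
    F d i *ᵥ v = fun e => d.B.repr v ⟨i, e⟩ := by
  rw [F, LinearMap.toMatrix'_mulVec]
  rfl

theorem G_mulVec (i : Fin d.k) (c : Fin (d.m i) × Fin (d.n i) → ℂ) :
    G d i *ᵥ c = ∑ e, c e • d.B ⟨i, e⟩ := by
  funext k
  rw [Finset.sum_apply]
  refine Finset.sum_congr rfl fun e _ => ?_
  change d.B ⟨i, e⟩ k * c e = c e * d.B ⟨i, e⟩ k
  ring

theorem FG (i : Fin d.k) : F d i * G d i = 1 := by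
  ext e e'
  change (F d i *ᵥ d.B ⟨i, e'⟩) e = _
  rw [F_mulVec]
  change d.B.repr (d.B ⟨i, e'⟩) ⟨i, e⟩ = _
  rw [Module.Basis.repr_self, Finsupp.single_apply, Matrix.one_apply]
  by_cases h : e = e'
  · rw [if_pos h, if_pos (by rw [h])]
  · rw [if_neg h, if_neg]
    intro h'
    apply h
    have h2 := eq_of_heq (Sigma.mk.inj h').2
    exact h2.symm

theorem GF (i : Fin d.k) : G d i * F d i = d.p i := by
  refine d.ext_B fun l a b => ?_
  rw [← Matrix.mulVec_mulVec, F_mulVec, d.hp, G_mulVec]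
  simp only [Module.Basis.repr_self]
  by_cases h : l = i
  · subst h
    rw [if_pos rfl, Finset.sum_eq_single (a, b)]
    · rw [Finsupp.single_eq_same, one_smul]
    · intro e _ he
      rw [Finsupp.single_apply, if_neg, zero_smul]
      intro h'
      apply he
      exact (eq_of_heq (Sigma.mk.inj h').2).symm
    · intro h'
      exact absurd (Finset.mem_univ _) h'
  · rw [if_neg h]
    refine Finset.sum_eq_zero fun e _ => ?_
    rw [Finsupp.single_apply, if_neg, zero_smul]
    intro h'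
    exact h (Sigma.mk.inj h').1

theorem xG {x : Matrix (Idx g) (Idx g) ℂ} (hx : A.Comm x) (i : Fin d.k) :
    x * G d i = G d i * (d.X x i ⊗ₖ (1 : Matrix (Fin (d.n i)) (Fin (d.n i)) ℂ)) := by
  ext k ⟨a, b⟩
  have h1 := congrFun (d.X_spec hx i a b) k
  change (x *ᵥ d.B ⟨i, (a, b)⟩) k = _
  rw [h1, Matrix.mul_apply, Fintype.sum_prod_type, Finset.sum_apply]
  refine Finset.sum_congr rfl fun a' _ => ?_
  rw [Finset.sum_eq_single b]
  · rw [Matrix.kroneckerMap_apply, Matrix.one_apply_eq, mul_one]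
    change d.X x i a' a * d.B ⟨i, (a', b)⟩ k = d.B ⟨i, (a', b)⟩ k * d.X x i a' a
    ring
  · intro b' _ hb
    rw [Matrix.kroneckerMap_apply, Matrix.one_apply_ne hb, mul_zero, mul_zero]
  · intro h'
    exact absurd (Finset.mem_univ _) h'

/-- The determinant on the homogeneous component. -/
def D (i : Fin d.k) (x : Matrix (Idx g) (Idx g) ℂ) : ℂ := (x * d.p i + (1 - d.p i)).det

theorem D_eq {x : Matrix (Idx g) (Idx g) ℂ} (hx : A.Comm x) (i : Fin d.k) :
    D d i x = (d.X x i).det ^ d.n i := by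
  unfold D
  have h1 : x * d.p i + (1 - d.p i) = 1 + ((x - 1) * G d i) * F d i := by
    rw [Matrix.mul_assoc, GF, Matrix.sub_mul, Matrix.one_mul]
    abel
  have h2 : (1 : Matrix _ _ ℂ) + F d i * ((x - 1) * G d i) =
      d.X x i ⊗ₖ (1 : Matrix (Fin (d.n i)) (Fin (d.n i)) ℂ) := by
    rw [Matrix.sub_mul, xG d hx, Matrix.one_mul, Matrix.mul_sub, ← Matrix.mul_assoc, FG,
      Matrix.one_mul]
    abel
  rw [h1, Matrix.det_one_add_mul_comm, h2, Matrix.det_kronecker, Matrix.det_one, one_pow, mul_one,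
    Fintype.card_fin]

theorem trace_p (i : Fin d.k) : (d.p i).trace = ((d.m i * d.n i : ℕ) : ℂ) := by
  rw [← GF, Matrix.trace_mul_comm, FG, Matrix.trace_one, Fintype.card_prod, Fintype.card_fin,
    Fintype.card_fin]

theorem m_eq {i j : Fin d.k} (h : A.comDim (d.p j) = A.comDim (d.p i)) : d.m j = d.m i := by
  rw [d.dim, d.dim] at h
  exact Nat.pow_left_injective (n := 2) (by norm_num) h

theorem n_eq (σ : ℂ ≃ₐ[ℚ] ℂ) {i j : Fin d.k} (h : (d.p i).map σ = d.p j) (hm : d.m j = d.m i) :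
    d.n j = d.n i := by
  have h1 : (d.p j).trace = σ (d.p i).trace := by
    rw [← h]
    unfold Matrix.trace
    rw [map_sum]
    rfl
  rw [trace_p, trace_p, map_natCast, hm] at h1
  have h2 : d.m i * d.n j = d.m i * d.n i := by exact_mod_cast h1
  exact Nat.eq_of_mul_eq_mul_left (d.mpos i) h2

theorem D_map (σ : ℂ ≃ₐ[ℚ] ℂ) {i j : Fin d.k} (h : (d.p i).map σ = d.p j)
    (x : Matrix (Idx g) (Idx g) ℂ) : D d j (x.map σ) = σ (D d i x) := by
  unfold D
  rw [← h]
  have h1 : (x.map σ) * (d.p i).map σ + (1 - (d.p i).map σ) = (x * d.p i + (1 - d.p i)).map σ := by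
    have e1 : (x * d.p i).map σ = (x.map σ) * (d.p i).map σ := Matrix.map_mul
    rw [← e1]
    ext a b
    simp only [Matrix.add_apply, Matrix.sub_apply, Matrix.map_apply, map_add, map_sub,
      Matrix.one_apply]
    congr 2
    split_ifs <;> simp
  rw [h1]
  have h2 := RingHom.map_det (σ : ℂ →+* ℂ) (x * d.p i + (1 - d.p i))
  exact h2.symm

end comp

/-! ### Density of algebraic matrices -/

theorem alg_dense : Dense {z : ℂ | IsAlgebraic ℚ z} := by
  rw [Metric.dense_iff]
  intro z r hr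
  obtain ⟨a, ha⟩ := exists_rat_btwn (show z.re < z.re + r / 2 by linarith)
  obtain ⟨b, hb⟩ := exists_rat_btwn (show z.im < z.im + r / 2 by linarith)
  refine ⟨(a : ℂ) + (b : ℂ) * Complex.I, ?_, ?_⟩
  · rw [Metric.mem_ball, dist_eq_norm]
    refine lt_of_le_of_lt (Complex.norm_le_abs_re_add_abs_im _) ?_
    have h1 : ((a : ℂ) + (b : ℂ) * Complex.I - z).re = (a : ℝ) - z.re := by simp
    have h2 : ((a : ℂ) + (b : ℂ) * Complex.I - z).im = (b : ℝ) - z.im := by simp
    rw [h1, h2, abs_of_pos (by linarith [ha.1]), abs_of_pos (by linarith [hb.1])]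
    linarith [ha.2, hb.2]
  · have hI : IsAlgebraic ℚ Complex.I := by
      refine ⟨Polynomial.X ^ 2 + 1, ?_, ?_⟩
      · exact (Polynomial.monic_X_pow_add_C (1 : ℚ) two_ne_zero).ne_zero
      · simp
    have h1 : IsAlgebraic ℚ (a : ℂ) := by
      simpa using isAlgebraic_algebraMap (R := ℚ) (A := ℂ) a
    have h2 : IsAlgebraic ℚ (b : ℂ) := by
      simpa using isAlgebraic_algebraMap (R := ℚ) (A := ℂ) b
    exact h1.add (h2.mul hI)

theorem exists_alg {ι : Type} [Fintype ι] (f : Matrix ι ι ℂ → ℂ) (hf : Continuous f)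
    (C₀ : Matrix ι ι ℂ) (h : f C₀ ≠ 0) :
    ∃ C : Matrix ι ι ℂ, (∀ i j, IsAlgebraic ℚ (C i j)) ∧ f C ≠ 0 := by
  have h1 : Dense {C : Matrix ι ι ℂ | ∀ i j, IsAlgebraic ℚ (C i j)} := by
    have h2 : Dense (Set.pi Set.univ fun _ : ι => {v : ι → ℂ | ∀ j, IsAlgebraic ℚ (v j)}) := by
      apply dense_pi
      intro i _
      have h3 : Dense (Set.pi Set.univ fun _ : ι => {z : ℂ | IsAlgebraic ℚ z}) :=
        dense_pi _ fun _ _ => alg_dense
      refine h3.mono ?_
      intro v hv j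
      exact hv j (Set.mem_univ j)
    refine h2.mono ?_
    intro C hC i
    exact hC i (Set.mem_univ i)
  obtain ⟨C, hC1, hC2⟩ := h1.exists_mem_open (isOpen_ne_fun hf continuous_const) ⟨C₀, h⟩
  exact ⟨C, hC1, hC2⟩

/-! ### The characters -/

section chars

variable {g : ℕ} {A : AbVar g} (d : Dec A)

theorem comm_gam (hGb1 : Stmt_Gb1) {q : GL (Idx g) ℂ × ℂˣ} (hq : q ∈ Gam A) : A.Comm q.1.val :=
  fun α hα => (hGb1 g A q hq).1 α hα

/-- the determinant of `q` on the multiplicity space -/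
def dl (q : GL (Idx g) ℂ × ℂˣ) (i : Fin d.k) : ℂ := (d.X q.1.val i).det

theorem dl_ne (hGb1 : Stmt_Gb1) {q : GL (Idx g) ℂ × ℂˣ} (hq : q ∈ Gam A) (i : Fin d.k) :
    dl d q i ≠ 0 := d.X_det_ne (comm_gam hGb1 hq) i

theorem dl_mul (hGb1 : Stmt_Gb1) {q q' : GL (Idx g) ℂ × ℂˣ} (hq : q ∈ Gam A) (hq' : q' ∈ Gam A)
    (i : Fin d.k) : dl d (q * q') i = dl d q i * dl d q' i := by
  unfold dl
  rw [← Matrix.det_mul, ← d.X_mul (comm_gam hGb1 hq) (comm_gam hGb1 hq')]
  rfl

theorem dl_inv (hGb1 : Stmt_Gb1) {q : GL (Idx g) ℂ × ℂˣ} (hq : q ∈ Gam A) (i : Fin d.k) :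
    (d.X (q.1⁻¹).val i).det = (dl d q i)⁻¹ := by
  have h := (d.X_inv (comm_gam hGb1 hq) i).2
  have h1 := congrArg Matrix.det h
  rw [Matrix.det_mul, Matrix.det_one] at h1
  exact eq_inv_of_mul_eq_one_left h1

/-- the character attached to `n, M` -/
def ch (n : Fin d.k → ℤ) (M : ℤ) (q : GL (Idx g) ℂ × ℂˣ) : ℂ :=
  (∏ i, dl d q i ^ n i) * q.2.val ^ M

theorem ch_ne (hGb1 : Stmt_Gb1) (n : Fin d.k → ℤ) (M : ℤ) {q : GL (Idx g) ℂ × ℂˣ}
    (hq : q ∈ Gam A) : ch d n M q ≠ 0 :=
  mul_ne_zero (Finset.prod_ne_zero_iff.2 fun i _ => zpow_ne_zero _ (dl_ne d hGb1 hq i))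
    (zpow_ne_zero _ q.2.ne_zero)

theorem ch_mul (hGb1 : Stmt_Gb1) (n : Fin d.k → ℤ) (M : ℤ) {q q' : GL (Idx g) ℂ × ℂˣ}
    (hq : q ∈ Gam A) (hq' : q' ∈ Gam A) : ch d n M (q * q') = ch d n M q * ch d n M q' := by
  unfold ch
  simp only [dl_mul d hGb1 hq hq', mul_zpow, Finset.prod_mul_distrib, Prod.snd_mul, Units.val_mul]
  ring

theorem ch_add (hGb1 : Stmt_Gb1) (n n' : Fin d.k → ℤ) (M M' : ℤ) {q : GL (Idx g) ℂ × ℂˣ}
    (hq : q ∈ Gam A) : ch d (n + n') (M + M') q = ch d n M q * ch d n' M' q := by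
  unfold ch
  simp only [Pi.add_apply, zpow_add₀ (dl_ne d hGb1 hq _), zpow_add₀ q.2.ne_zero,
    Finset.prod_mul_distrib]
  ring

theorem ch_zero (q : GL (Idx g) ℂ × ℂˣ) : ch d 0 0 q = 1 := by
  unfold ch
  simp

theorem ch_neg (hGb1 : Stmt_Gb1) (n : Fin d.k → ℤ) (M : ℤ) {q : GL (Idx g) ℂ × ℂˣ}
    (hq : q ∈ Gam A) : ch d (-n) (-M) q = (ch d n M q)⁻¹ := by
  apply eq_inv_of_mul_eq_one_left
  rw [← ch_add d hGb1 _ _ _ _ hq, neg_add_cancel, neg_add_cancel, ch_zero]

/-- torsion relations -/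
def InT (n : Fin d.k → ℤ) (M : ℤ) : Prop :=
  ∀ q ∈ Gam A, ∃ N : ℕ, 1 ≤ N ∧ ch d n M q ^ N = 1

theorem inT_zero : InT d 0 0 := fun q _ => ⟨1, le_refl 1, by rw [ch_zero, one_pow]⟩

theorem inT_add (hGb1 : Stmt_Gb1) {n n' : Fin d.k → ℤ} {M M' : ℤ} (h : InT d n M)
    (h' : InT d n' M') : InT d (n + n') (M + M') := by
  intro q hq
  obtain ⟨N, hN, h1⟩ := h q hq
  obtain ⟨N', hN', h1'⟩ := h' q hq
  refine ⟨N * N', Nat.mul_pos hN hN', ?_⟩
  rw [ch_add d hGb1 _ _ _ _ hq, mul_pow, pow_mul, h1, one_pow, mul_comm N N', pow_mul, h1',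
    one_pow, mul_one]

theorem inT_neg (hGb1 : Stmt_Gb1) {n : Fin d.k → ℤ} {M : ℤ} (h : InT d n M) :
    InT d (-n) (-M) := by
  intro q hq
  obtain ⟨N, hN, h1⟩ := h q hq
  exact ⟨N, hN, by rw [ch_neg d hGb1 _ _ hq, inv_pow, h1, inv_one]⟩

/-- a common multiple of the multiplicities -/
def L : ℕ := ∏ i, d.n i

theorem L_pos : 1 ≤ L d := Finset.prod_pos fun i _ => d.npos i

theorem L_dvd (i : Fin d.k) : d.n i ∣ L d := Finset.dvd_prod_of_mem _ (Finset.mem_univ i)

/-- `s` describes the action of `σ` on the components -/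
def IsS (σ : ℂ ≃ₐ[ℚ] ℂ) (s : Fin d.k → Fin d.k) : Prop := ∀ i, (d.p i).map σ = d.p (s i)

theorem exists_s (hGal : Stmt_Gal3) (σ : ℂ ≃ₐ[ℚ] ℂ) : ∃ s, IsS d σ s := by
  have h : ∀ i, ∃ j, (d.p i).map σ = d.p j := fun i =>
    (d.comp _).1 ((hGal g A _ (d.isComp i)).1 σ).1
  choose s hs using h
  exact ⟨s, hs⟩

theorem s_bij {σ : ℂ ≃ₐ[ℚ] ℂ} {s : Fin d.k → Fin d.k} (hs : IsS d σ s) : Function.Bijective s := by
  rw [← Finite.injective_iff_bijective]
  intro i j hij
  apply d.p_injective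
  have h1 : (d.p i).map σ = (d.p j).map σ := by rw [hs, hs, hij]
  ext a b
  have h2 := congrFun (congrFun h1 a) b
  exact σ.injective h2

theorem dl_map (hGb1 : Stmt_Gb1) (hGb4 : Stmt_Gb4) (hGal : Stmt_Gal3) {σ : ℂ ≃ₐ[ℚ] ℂ}
    {s : Fin d.k → Fin d.k} (hs : IsS d σ s) {q : GL (Idx g) ℂ × ℂˣ} (hq : q ∈ Gam A)
    (i : Fin d.k) : dl d (mapP σ q) (s i) ^ L d = σ (dl d q i) ^ L d := by
  have hm : d.m (s i) = d.m i := by
    apply m_eq
    rw [← hs i]
    exact ((hGal g A _ (d.isComp i)).1 σ).2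
  have hn := n_eq d σ (hs i) hm
  have h1 : dl d (mapP σ q) (s i) ^ d.n i = σ (dl d q i) ^ d.n i := by
    rw [← map_pow]
    unfold dl
    rw [← D_eq d (comm_gam hGb1 hq) i, ← D_map d σ (hs i), ← hn,
      ← D_eq d (comm_gam hGb1 (mapP_mem A hGb4 σ hq)) (s i)]
    rfl
  obtain ⟨e, he⟩ := L_dvd d i
  rw [he, pow_mul, h1, ← pow_mul]

theorem ch_map (hGb1 : Stmt_Gb1) (hGb4 : Stmt_Gb4) (hGal : Stmt_Gal3) {σ : ℂ ≃ₐ[ℚ] ℂ}
    {s : Fin d.k → Fin d.k} (hs : IsS d σ s) (n : Fin d.k → ℤ) (M : ℤ)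
    {q : GL (Idx g) ℂ × ℂˣ} (hq : q ∈ Gam A) :
    ch d n M (mapP σ q) ^ L d = σ (ch d (n ∘ s) M q) ^ L d := by
  unfold ch
  rw [mul_pow, map_mul, map_zpow₀, mul_pow, map_prod, ← (s_bij d hs).prod_comp, ← Finset.prod_pow,
    ← Finset.prod_pow]
  congr 1
  refine Finset.prod_congr rfl fun i _ => ?_
  rw [map_zpow₀, Function.comp_apply, ← zpow_natCast, ← _root_.zpow_mul, mul_comm,
    _root_.zpow_mul, zpow_natCast, dl_map d hGb1 hGb4 hGal hs hq, ← zpow_natCast,
    ← _root_.zpow_mul, mul_comm, _root_.zpow_mul, zpow_natCast]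

theorem inT_map (hGb1 : Stmt_Gb1) (hGb4 : Stmt_Gb4) (hGal : Stmt_Gal3) {σ : ℂ ≃ₐ[ℚ] ℂ}
    {s : Fin d.k → Fin d.k} (hs : IsS d σ s) {n : Fin d.k → ℤ} {M : ℤ} (h : InT d n M) :
    InT d (n ∘ s) M := by
  intro q hq
  obtain ⟨N, hN, h1⟩ := h _ (mapP_mem A hGb4 σ hq)
  refine ⟨L d * N, Nat.mul_pos (L_pos d) hN, ?_⟩
  have h2 : σ (ch d (n ∘ s) M q ^ (L d * N)) = 1 := by
    rw [map_pow, pow_mul, ← ch_map d hGb1 hGb4 hGal hs n M hq, ← pow_mul, mul_comm, pow_mul, h1,
      one_pow]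
  exact (map_eq_one_iff σ σ.injective).1 h2

theorem exists_omega (hGb1 : Stmt_Gb1) (hGal : Stmt_Gal3) (i : Fin d.k) :
    ∃ ω : ℂ, ω ≠ 0 ∧ ∀ τ ∈ GalA, τ ω = dl d (pt A τ) i ^ L d * ω := by
  have hcont : Continuous fun C : Matrix (Idx g) (Idx g) ℂ =>
      (C * A.per * d.p i + (1 - d.p i)).det := by
    apply Continuous.matrix_det
    fun_prop
  have hpp : d.p i * d.p i = d.p i := (d.isComp i).1.2.1
  obtain ⟨C, hC1, hC2⟩ := exists_alg _ hcont A.per⁻¹ (by
    rw [← perGL_inv, ← perGL_val, ← Units.val_mul, inv_mul_cancel, Units.val_one, Matrix.one_mul,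
      add_sub_cancel, Matrix.det_one]
    exact one_ne_zero)
  obtain ⟨e, he⟩ := L_dvd d i
  refine ⟨(C * A.per * d.p i + (1 - d.p i)).det ^ e, pow_ne_zero _ hC2, fun τ hτ => ?_⟩
  have hcm := comm_gam hGb1 (pt_mem A hτ)
  have hfixC : C.map τ = C := by
    ext a b
    exact hτ _ (hC1 a b)
  have hfixp : (d.p i).map τ = d.p i := by
    ext a b
    exact hτ _ ((hGal g A _ (d.isComp i)).2.2.2 a b)
  have h1 : τ (C * A.per * d.p i + (1 - d.p i)).det =
      (C * A.per.map τ * d.p i + (1 - d.p i)).det := by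
    have h2 := RingHom.map_det (τ : ℂ →+* ℂ) (C * A.per * d.p i + (1 - d.p i))
    have h3 : (C * A.per * d.p i + (1 - d.p i)).map τ =
        C * A.per.map τ * d.p i + (1 - d.p i) := by
      have e1 : (C * A.per * d.p i).map τ = (C.map τ) * (A.per.map τ) * (d.p i).map τ := by
        rw [Matrix.map_mul, Matrix.map_mul]
      rw [hfixC, hfixp] at e1
      rw [← e1]
      ext a b
      simp only [Matrix.add_apply, Matrix.sub_apply, Matrix.map_apply, map_add, map_sub,
        Matrix.one_apply]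
      have e2 : τ (d.p i a b) = d.p i a b := congrFun (congrFun hfixp a) b
      rw [e2]
      congr 2
      split_ifs <;> simp
    rw [← h3]
    exact h2
  have hP : A.per.map τ = A.per * (pt A τ).1.val := by
    rw [pt_val, ← perGL_inv, ← perGL_val A, ← Matrix.mul_assoc, ← Units.val_mul, mul_inv_cancel,
      Units.val_one, Matrix.one_mul]
  set a := (pt A τ).1.val with ha
  have hcp : a * d.p i = d.p i * a := by
    have h5 : d.p i ∈ A.EndC := (d.isComp i).1.1
    unfold AbVar.EndC at h5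
    refine Submodule.span_induction (p := fun x _ => a * x = x * a) ?_ ?_ ?_ ?_ h5
    · rintro x ⟨α, hα, rfl⟩
      exact hcm α hα
    · rw [Matrix.mul_zero, Matrix.zero_mul]
    · intro x y _ _ hx hy
      rw [Matrix.mul_add, Matrix.add_mul, hx, hy]
    · intro c x _ hx
      rw [Matrix.mul_smul, Matrix.smul_mul, hx]
  have h4 : C * A.per.map τ * d.p i + (1 - d.p i) =
      (C * A.per * d.p i + (1 - d.p i)) * (a * d.p i + (1 - d.p i)) := by
    rw [hP]
    have e1 : d.p i * (a * d.p i) = a * d.p i := by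
      rw [hcp, ← Matrix.mul_assoc, hpp]
    rw [Matrix.add_mul, Matrix.mul_add, Matrix.mul_add]
    have e2 : C * A.per * d.p i * (a * d.p i) = C * (A.per * a) * d.p i := by
      rw [Matrix.mul_assoc _ (d.p i), e1]
      simp only [Matrix.mul_assoc]
    have e3 : C * A.per * d.p i * (1 - d.p i) = 0 := by
      rw [Matrix.mul_sub, Matrix.mul_one, Matrix.mul_assoc _ (d.p i), hpp, sub_self]
    have e4 : (1 - d.p i) * (a * d.p i) = 0 := by
      rw [Matrix.sub_mul, Matrix.one_mul, e1, sub_self]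
    have e5 : (1 - d.p i) * (1 - d.p i) = 1 - d.p i := by
      rw [Matrix.sub_mul, Matrix.one_mul, Matrix.mul_sub, Matrix.mul_one, hpp, sub_self, sub_zero]
    rw [e2, e3, e4, e5, add_zero, zero_add]
  have h6 : (a * d.p i + (1 - d.p i)).det = dl d (pt A τ) i ^ d.n i := D_eq d hcm i
  rw [map_pow, h1, h4, Matrix.det_mul, h6, mul_pow, ← pow_mul, ← he, mul_comm]

theorem inT_pt (hGb1 : Stmt_Gb1) (hGal : Stmt_Gal3) (hAut2 : Stmt_Aut2) {n : Fin d.k → ℤ} {M : ℤ}
    (h : InT d n M) : ∀ τ ∈ GalA, ch d n M (pt A τ) ^ L d = 1 := by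
  have hω := fun i => exists_omega d hGb1 hGal i
  choose ω hω0 hω using hω
  set z : ℂ := (∏ i, ω i ^ n i) * (tpi ^ L d) ^ M with hz
  have hz0 : z ≠ 0 := mul_ne_zero
    (Finset.prod_ne_zero_iff.2 fun i _ => zpow_ne_zero _ (hω0 i))
    (zpow_ne_zero _ (pow_ne_zero _ tpi_ne_zero))
  have key : ∀ τ ∈ GalA, τ z = ch d n M (pt A τ) ^ L d * z := by
    intro τ hτ
    rw [hz, map_mul, map_prod, map_zpow₀, map_pow]
    unfold ch
    have h1 : τ tpi = (pt A τ).2.val * tpi := by
      change τ tpi = τ tpi / tpi * tpi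
      rw [div_mul_cancel₀ _ tpi_ne_zero]
    have h2 : ∀ i, τ (ω i ^ n i) = (dl d (pt A τ) i ^ n i) ^ L d * ω i ^ n i := by
      intro i
      rw [map_zpow₀, hω i τ hτ, mul_zpow]
      congr 1
      rw [← zpow_natCast, ← _root_.zpow_mul, mul_comm, _root_.zpow_mul, zpow_natCast]
    simp only [h2, h1, Finset.prod_mul_distrib]
    rw [mul_pow, mul_pow, mul_zpow, Finset.prod_pow]
    have h3 : ((pt A τ).2.val ^ L d) ^ M = ((pt A τ).2.val ^ M) ^ L d := by
      rw [← zpow_natCast, ← _root_.zpow_mul, mul_comm, _root_.zpow_mul, zpow_natCast]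
    rw [h3]
    ring
  have hcount : {w : ℂ | ∃ τ ∈ GalA, w = τ z}.Countable := by
    have h1 : {x : ℂ | IsAlgebraic ℚ x}.Countable := Algebraic.countable ℚ ℂ
    refine (h1.image (fun x => x * z)).mono ?_
    rintro w ⟨τ, hτ, rfl⟩
    refine ⟨ch d n M (pt A τ) ^ L d, ?_, (key τ hτ).symm⟩
    obtain ⟨N, hN, hN1⟩ := h _ (pt_mem A hτ)
    have h3 : IsAlgebraic ℚ (ch d n M (pt A τ) ^ N) := by
      rw [hN1]
      exact isAlgebraic_one
    exact (h3.of_pow (by omega)).pow _
  have halg := hAut2 _ hcount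
  intro τ hτ
  have h1 := key τ hτ
  rw [hτ _ halg] at h1
  exact mul_right_cancel₀ hz0 (by rw [one_mul]; exact h1.symm)

/-- torsion relations have bounded exponent -/
theorem inT_pow (hGb1 : Stmt_Gb1) (hGb4 : Stmt_Gb4) (hGal : Stmt_Gal3) (hAut2 : Stmt_Aut2)
    {n : Fin d.k → ℤ} {M : ℤ} (h : InT d n M) : ∀ q ∈ Gam A, ch d n M q ^ L d = 1 := by
  intro q hq
  have hq2 := hq
  unfold Gam at hq
  induction hq using Subgroup.closure_induction with
  | mem x hx =>
    obtain ⟨σ, τ, hτ, h1, h2⟩ := hx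
    obtain ⟨s, hs⟩ := exists_s d hGal σ
    rw [gen_eq A h1 h2, ch_map d hGb1 hGb4 hGal hs n M (pt_mem A hτ), ← map_pow,
      inT_pt d hGb1 hGal hAut2 (inT_map d hGb1 hGb4 hGal hs h) τ hτ, map_one]
  | one =>
    have h1 := ch_mul d hGb1 n M (one_mem (Gam A)) (one_mem (Gam A))
    rw [mul_one] at h1
    have h2 : ch d n M 1 = 1 := by
      have h3 := ch_ne d hGb1 n M (one_mem (Gam A))
      exact mul_left_cancel₀ h3 (by rw [mul_one]; exact h1.symm)
    rw [h2, one_pow]
  | mul x y hx hy h1 h2 =>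
    rw [ch_mul d hGb1 n M hx hy, mul_pow, h1 hx, h2 hy, mul_one]
  | inv x hx h1 =>
    have hx' : x ∈ Gam A := hx
    have h2 := ch_mul d hGb1 n M ((Gam A).inv_mem hx') hx'
    rw [inv_mul_cancel] at h2
    have h3 : ch d n M 1 = 1 := by
      have h4 := ch_mul d hGb1 n M (one_mem (Gam A)) (one_mem (Gam A))
      rw [mul_one] at h4
      have h5 := ch_ne d hGb1 n M (one_mem (Gam A))
      exact mul_left_cancel₀ h5 (by rw [mul_one]; exact h4.symm)
    rw [h3] at h2
    have h6 : ch d n M x⁻¹ ^ L d * ch d n M x ^ L d = 1 := by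
      rw [← mul_pow, ← h2, one_pow]
    rw [h1 hx', mul_one] at h6
    exact h6

theorem dl_conj (hGb1 : Stmt_Gb1) (hForm : Stmt_Form) {q : GL (Idx g) ℂ × ℂˣ}
    (hq : q ∈ Gam A) {i j : Fin d.k} (h : d.p j = cc (d.p i)) :
    dl d q i * dl d q j = q.2.val ^ d.m i := by
  obtain ⟨Ω, Ω', h1, h2, h3⟩ := (hForm g A d).2 i j h
  have h4 := h3 q.1.val q.2.val (comm_gam hGb1 hq) (hGb1 g A q hq).2
  have h5 : (d.X q.1.val i)ᵀ * (Ω * d.X q.1.val j * Ω') = q.2.val • 1 := by
    rw [← Matrix.mul_assoc, ← Matrix.mul_assoc, h4, Matrix.smul_mul, h1]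
  have h6 := congrArg Matrix.det h5
  rw [Matrix.det_mul, Matrix.det_transpose, Matrix.det_conj_of_mul_eq_one h1 h2, Matrix.det_smul,
    Matrix.det_one, mul_one, Fintype.card_fin] at h6
  exact h6

end chars

theorem prod_ite (k : ℕ) (f : Fin k → ℂ) (i : Fin k) :
    ∏ r, f r ^ (if r = i then (1 : ℤ) else 0) = f i := by
  rw [Finset.prod_eq_single i]
  · simp
  · intro r _ h
    simp [h]
  · intro h
    exact absurd (Finset.mem_univ i) h

theorem prod4 (k : ℕ) (f : Fin k → ℂ) (hf : ∀ r, f r ≠ 0) (c : ℤ) (i i' j j' : Fin k) :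
    ∏ r, f r ^ (c * ((if r = i then (1 : ℤ) else 0) - (if r = i' then (1 : ℤ) else 0) -
      (if r = j then (1 : ℤ) else 0) + (if r = j' then (1 : ℤ) else 0))) =
    (f i * (f i')⁻¹ * (f j)⁻¹ * f j') ^ c := by
  have h : ∀ r, f r ^ (c * ((if r = i then (1 : ℤ) else 0) - (if r = i' then (1 : ℤ) else 0) -
      (if r = j then (1 : ℤ) else 0) + (if r = j' then (1 : ℤ) else 0))) =
      ((f r ^ (if r = i then (1 : ℤ) else 0)) * (f r ^ (if r = i' then (1 : ℤ) else 0))⁻¹ *
        (f r ^ (if r = j then (1 : ℤ) else 0))⁻¹ * (f r ^ (if r = j' then (1 : ℤ) else 0))) ^ c := by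
    intro r
    rw [mul_comm c, _root_.zpow_mul, zpow_add₀ (hf r), zpow_sub₀ (hf r), zpow_sub₀ (hf r)]
    rfl
  simp only [h]
  rw [Finset.prod_zpow, Finset.prod_mul_distrib, Finset.prod_mul_distrib,
      Finset.prod_mul_distrib, Finset.prod_inv_distrib, Finset.prod_inv_distrib,
      prod_ite, prod_ite, prod_ite, prod_ite]

theorem oneone {a b : ℕ} (ha : a = 1) (hb : b = 1) (X : Matrix (Fin a) (Fin a) ℂ)
    (Y : Matrix (Fin b) (Fin b) ℂ) :
    X * (Matrix.of fun _ _ => 1 : Matrix (Fin a) (Fin b) ℂ) * Y =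
      (X.det * Y.det) • (Matrix.of fun _ _ => 1 : Matrix (Fin a) (Fin b) ℂ) := by
  subst ha hb
  ext i j
  have hi : i = 0 := Subsingleton.elim _ _
  have hj : j = 0 := Subsingleton.elim _ _
  subst hi hj
  simp [Matrix.mul_apply]

theorem existsJ {a : ℕ} (ha : a = 2) : ∃ J J' : Matrix (Fin a) (Fin a) ℂ, J' * J = 1 ∧
    ∀ X : Matrix (Fin a) (Fin a) ℂ, X * J * Xᵀ = X.det • J := by
  subst ha
  refine ⟨!![0, 1; -1, 0], !![0, -1; 1, 0], ?_, ?_⟩
  · ext i j
    fin_cases i <;> fin_cases j <;> simp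
  · intro X
    ext i j
    fin_cases i <;> fin_cases j <;> simp [Matrix.mul_apply, Fin.sum_univ_two, Matrix.det_fin_two] <;>
      ring

theorem fin_zpow {c : ℤ} (hc : c ≠ 0) : {r : ℂ | r ^ c = 1}.Finite := by
  refine ((fin_pow hc).image (fun r : ℂˣ => r.val)).subset ?_
  intro r hr
  have hr0 : r ≠ 0 := by
    intro h
    have hr' : r ^ c = 1 := hr
    rw [h, _root_.zero_zpow c hc] at hr'
    exact zero_ne_one hr'
  refine ⟨Units.mk0 r hr0, ?_, rfl⟩
  apply Units.ext
  rw [Units.val_zpow_eq_zpow_val, Units.val_mk0, Units.val_one]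
  exact hr

end H53X

open H5X H53X in
theorem h53_proof (hFinX : Stmt_FinX) (hForm : Stmt_Form) (hLind : Stmt_Lind)
    (hAut2 : Stmt_Aut2) (hGb1 : Stmt_Gb1) (hGb4 : Stmt_Gb4) (hGal : Stmt_Gal3)
    (hRos : Stmt_Ros) : Stmt_H53 := by
  classical
  intro g A hA d n M hn0 hT
  have hT' : InT d n M := hT
  have hcc : ∀ p : Matrix (Idx g) (Idx g) ℂ, cc (cc p) = p := by
    intro p
    ext a b
    simp [cc]
  have hcj : ∀ p : Matrix (Idx g) (Idx g) ℂ, p.map cj = cc p := fun p => rfl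
  have hbar0 : ∀ i, ∃ j, cc (d.p i) = d.p j := fun i =>
    (d.comp _).1 (hGal g A _ (d.isComp i)).2.1
  choose bar hbar using hbar0
  have hS : IsS d cj bar := fun i => hbar i
  have hbb : ∀ i, bar (bar i) = i := by
    intro i
    apply d.p_injective
    rw [← hbar, ← hbar, hcc]
  have hbij : Function.Bijective bar := s_bij d hS
  have hmb : ∀ i, d.m (bar i) = d.m i := by
    intro i
    apply m_eq
    rw [← hbar]
    exact (hGal g A _ (d.isComp i)).2.2.1
  have hL0 : ((L d : ℕ) : ℤ) ≠ 0 := by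
    have := L_pos d
    omega
  -- a relation of the special form is impossible
  have hno : ∀ (i j : Fin d.k) (c : ℤ), c ≠ 0 → i ≠ j →
      (j = bar i ∨ (d.m i = 1 ∧ d.m j = 1)) →
      (∀ q ∈ Gam A, ((dl d q i * (dl d q (bar i))⁻¹ * (dl d q j)⁻¹ *
        dl d q (bar j)) ^ c) ^ L d = 1) → False := by
    intro i j c hc hij hor hrel
    have hle := hA.le _ (d.isComp i)
    rw [d.dim] at hle
    have hm2 : d.m i ≤ 2 := by
      by_contra hcon
      push Not at hcon
      have : 3 ^ 2 ≤ d.m i ^ 2 := Nat.pow_le_pow_left hcon 2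
      omega
    have hmpos := d.mpos i
    by_cases hm1 : d.m i = 1 ∧ d.m j = 1
    · -- both of multiplicity one
      obtain ⟨hmi, hmj⟩ := hm1
      have hfin : {Y | ∃ q ∈ Gam A, Y = d.X q.1.val i *
          (Matrix.of fun _ _ => 1 : Matrix (Fin (d.m i)) (Fin (d.m j)) ℂ) *
            d.X (q.1⁻¹).val j}.Finite := by
        have hf := (fin_zpow (c := 2 * c * L d) (mul_ne_zero (mul_ne_zero two_ne_zero hc) hL0)).image
          (fun r : ℂ => r • (Matrix.of fun _ _ => 1 : Matrix (Fin (d.m i)) (Fin (d.m j)) ℂ))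
        refine hf.subset ?_
        rintro Y ⟨q, hq, rfl⟩
        refine ⟨dl d q i * (dl d q j)⁻¹, ?_, ?_⟩
        · have h1 := hrel q hq
          have h2 := dl_conj d hGb1 hForm hq (hbar i).symm
          have h3 := dl_conj d hGb1 hForm hq (hbar j).symm
          rw [hmi, pow_one] at h2
          rw [hmj, pow_one] at h3
          have n1 := dl_ne d hGb1 hq i
          have n2 := dl_ne d hGb1 hq (bar i)
          have n3 := dl_ne d hGb1 hq j
          have n4 := dl_ne d hGb1 hq (bar j)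
          have h4 : dl d q i * (dl d q (bar i))⁻¹ * (dl d q j)⁻¹ * dl d q (bar j) =
              (dl d q i * (dl d q j)⁻¹) ^ (2 : ℤ) := by
            have e1 : dl d q (bar i) = q.2.val / dl d q i := by
              rw [← h2]
              field_simp
            have e2 : dl d q (bar j) = q.2.val / dl d q j := by
              rw [← h3]
              field_simp
            have n5 : q.2.val ≠ 0 := q.2.ne_zero
            rw [e1, e2, show (2 : ℤ) = ((2 : ℕ) : ℤ) by norm_num, zpow_natCast]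
            field_simp
          rw [h4] at h1
          change (dl d q i * (dl d q j)⁻¹) ^ (2 * c * L d) = 1
          rw [_root_.zpow_mul, _root_.zpow_mul, zpow_natCast]
          exact h1
        · change (dl d q i * (dl d q j)⁻¹) • _ = _
          rw [oneone hmi hmj, dl_inv d hGb1 hq]
          rfl
      have h0 := (hFinX g A d).1 i j hij _ hfin
      have h1 := congrFun (congrFun h0 ⟨0, d.mpos i⟩) ⟨0, d.mpos j⟩
      exact one_ne_zero h1
    · -- complex conjugate components of multiplicity two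
      have hj : j = bar i := by
        rcases hor with h | h
        · exact h
        · exact absurd h hm1
      subst hj
      have hmi : d.m i = 2 := by
        have h1 := hmb i
        by_contra hcon
        apply hm1
        constructor <;> omega
      obtain ⟨Ω, Ω', hΩ1, hΩ2, hΩ⟩ := (hForm g A d).2 i (bar i) (hbar i).symm
      obtain ⟨J, J', hJ1, hJ2⟩ := existsJ hmi
      have hfin : {Y | ∃ q ∈ Gam A, Y = d.X q.1.val i * (J * Ω) *
            d.X (q.1⁻¹).val (bar i)}.Finite := by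
        have hf := (fin_zpow (c := 4 * c * L d) (mul_ne_zero (mul_ne_zero four_ne_zero hc) hL0)).image
          (fun r : ℂ => r • (J * Ω))
        refine hf.subset ?_
        rintro Y ⟨q, hq, rfl⟩
        refine ⟨dl d q i * (q.2.val)⁻¹, ?_, ?_⟩
        · have h1 := hrel q hq
          rw [hbb] at h1
          have h2 := dl_conj d hGb1 hForm hq (hbar i).symm
          rw [hmi] at h2
          have n1 := dl_ne d hGb1 hq i
          have n2 := dl_ne d hGb1 hq (bar i)
          have n5 : q.2.val ≠ 0 := q.2.ne_zero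
          have h4 : dl d q i * (dl d q (bar i))⁻¹ * (dl d q (bar i))⁻¹ * dl d q i =
              (dl d q i * (q.2.val)⁻¹) ^ (4 : ℤ) := by
            have e1 : dl d q (bar i) = q.2.val ^ 2 / dl d q i := by
              rw [← h2]
              field_simp
            rw [e1, show (4 : ℤ) = ((4 : ℕ) : ℤ) by norm_num, zpow_natCast]
            field_simp
          rw [h4] at h1
          change (dl d q i * (q.2.val)⁻¹) ^ (4 * c * L d) = 1
          rw [_root_.zpow_mul, _root_.zpow_mul, zpow_natCast]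
          exact h1
        · change (dl d q i * (q.2.val)⁻¹) • (J * Ω) = _
          have hcm := comm_gam hGb1 hq
          have h3 := hΩ q.1.val q.2.val hcm (hGb1 g A q hq).2
          have h5 := (d.X_inv hcm (bar i)).1
          have n5 : q.2.val ≠ 0 := q.2.ne_zero
          have h6 : Ω * d.X (q.1⁻¹).val (bar i) = (q.2.val)⁻¹ • ((d.X q.1.val i)ᵀ * Ω) := by
            have h7 : (d.X q.1.val i)ᵀ * Ω = q.2.val • (Ω * d.X (q.1⁻¹).val (bar i)) := by
              rw [← Matrix.smul_mul, ← h3, Matrix.mul_assoc _ _ (d.X (q.1⁻¹).val (bar i)), h5,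
                Matrix.mul_one]
            rw [h7, smul_smul, inv_mul_cancel₀ n5, one_smul]
          have h8 : d.X q.1.val i * (J * Ω) * d.X (q.1⁻¹).val (bar i) =
              d.X q.1.val i * J * (Ω * d.X (q.1⁻¹).val (bar i)) := by
            simp only [Matrix.mul_assoc]
          rw [h8, h6, Matrix.mul_smul, ← Matrix.mul_assoc, hJ2, Matrix.smul_mul, smul_smul, mul_comm]
          rfl
      have h0 := (hFinX g A d).1 i (bar i) hij _ hfin
      have h1 : Ω = 0 := by
        have h2 : J' * (J * Ω) = 0 := by rw [h0, Matrix.mul_zero]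
        rwa [← Matrix.mul_assoc, hJ1, Matrix.one_mul] at h2
      rw [h1, Matrix.zero_mul] at hΩ1
      have h3 := congrFun (congrFun hΩ1 ⟨0, d.mpos i⟩) ⟨0, d.mpos i⟩
      rw [Matrix.one_apply_eq] at h3
      exact zero_ne_one h3
  -- the group of odd relations
  let R : AddSubgroup (Matrix (Idx g) (Idx g) ℂ → ℤ) :=
    { carrier := {f | (∀ p, ¬ A.IsComp p → f p = 0) ∧ (∀ p, f (cc p) = - f p) ∧
        InT d (fun i => f (d.p i)) 0}
      zero_mem' := ⟨fun _ _ => rfl, fun _ => by simp, inT_zero d⟩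
      add_mem' := by
        rintro f f' ⟨h1, h2, h3⟩ ⟨h1', h2', h3'⟩
        refine ⟨fun p hp => ?_, fun p => ?_, ?_⟩
        · rw [Pi.add_apply, h1 p hp, h1' p hp, add_zero]
        · rw [Pi.add_apply, Pi.add_apply, h2, h2']
          ring
        · have h4 := inT_add d hGb1 h3 h3'
          rw [add_zero] at h4
          exact h4
      neg_mem' := by
        rintro f ⟨h1, h2, h3⟩
        refine ⟨fun p hp => ?_, fun p => ?_, ?_⟩
        · rw [Pi.neg_apply, h1 p hp, neg_zero]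
        · rw [Pi.neg_apply, Pi.neg_apply, h2]
        · have h4 := inT_neg d hGb1 h3
          rw [neg_zero] at h4
          exact h4 }
  have hcompcc : ∀ p, A.IsComp p → A.IsComp (cc p) := fun p hp => (hGal g A p hp).2.1
  have hbot : R = ⊥ := by
    by_contra hne
    obtain ⟨p, q, hp, hq, hpr, hqr, hpq, hor, f, hf, c, hc, hfr⟩ := hA.cm R (fun f hf => hf.1)
      (fun f hf => hf.2.1) (by
        intro σ f hf
        obtain ⟨h1, h2, h3⟩ := hf
        have hσ : ∀ p, ¬ A.IsComp p → ¬ A.IsComp (p.map σ) := by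
          intro p hp hp'
          apply hp
          have h4 := ((hGal g A _ hp').1 σ.symm).1
          have h5 : (p.map σ).map σ.symm = p := by
            ext a b
            simp
          rwa [h5] at h4
        refine ⟨fun p hp => h1 _ (hσ p hp), fun p => ?_, ?_⟩
        · change f ((cc p).map σ) = - f (p.map σ)
          by_cases hp : A.IsComp p
          · rw [(hRos g A p hp).2 σ, h2]
          · rw [h1 _ (hσ p hp), h1 _ (hσ _ fun h' => hp (by rw [← hcc p]; exact hcompcc _ h')),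
              neg_zero]
        · obtain ⟨s, hs⟩ := exists_s d hGal σ
          have h4 := inT_map d hGb1 hGb4 hGal hs h3
          have h5 : (fun i => f ((d.p i).map σ)) = (fun i => f (d.p i)) ∘ s := by
            funext i
            rw [Function.comp_apply, hs i]
          rw [h5]
          exact h4) hne
    obtain ⟨i, rfl⟩ := (d.comp p).1 hp
    obtain ⟨j, rfl⟩ := (d.comp q).1 hq
    have hij : i ≠ j := fun h => hpq (by rw [h])
    have hor' : j = bar i ∨ (d.m i = 1 ∧ d.m j = 1) := by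
      rcases hor with h | ⟨h1, h2⟩
      · left
        apply d.p_injective
        rw [h, hbar]
      · right
        rw [d.dim] at h1 h2
        exact ⟨by simpa using h1, by simpa using h2⟩
    refine hno i j c hc hij hor' ?_
    intro q hq
    have h1 := inT_pow d hGb1 hGb4 hGal hAut2 hf.2.2 q hq
    rw [← h1]
    congr 1
    unfold H53X.ch
    rw [_root_.zpow_zero, mul_one]
    have h2 : ∀ r l, ind (d.p r) (d.p l) = if r = l then (1 : ℤ) else 0 := by
      intro r l
      unfold ind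
      by_cases h : r = l
      · rw [if_pos h, if_pos (by rw [h])]
      · rw [if_neg h, if_neg fun h' => h (d.p_injective h')]
    simp only [hfr, hbar, h2]
    rw [prod4 _ _ (dl_ne d hGb1 hq)]
  -- symmetry
  have hTb : InT d (n ∘ bar) M := inT_map d hGb1 hGb4 hGal hS hT'
  have hsym : ∀ i, n (bar i) = n i := by
    have h1 := inT_add d hGb1 hT' (inT_neg d hGb1 hTb)
    rw [add_neg_cancel] at h1
    let f : Matrix (Idx g) (Idx g) ℂ → ℤ := fun p =>
      if h : ∃ i, p = d.p i then n h.choose - n (bar h.choose) else 0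
    have hf1 : ∀ i, f (d.p i) = n i - n (bar i) := by
      intro i
      have h : ∃ j, d.p i = d.p j := ⟨i, rfl⟩
      have h2 : h.choose = i := d.p_injective h.choose_spec.symm
      simp only [f]
      rw [dif_pos h, h2]
    have hf2 : ∀ p, ¬ A.IsComp p → f p = 0 := by
      intro p hp
      simp only [f]
      rw [dif_neg]
      intro h
      exact hp ((d.comp p).2 h)
    have hmem : f ∈ R := by
      refine ⟨hf2, fun p => ?_, ?_⟩
      · by_cases hp : A.IsComp p
        · obtain ⟨i, rfl⟩ := (d.comp p).1 hp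
          rw [hbar, hf1, hf1, hbb]
          ring
        · rw [hf2 p hp, hf2 _ fun h' => hp (by rw [← hcc p]; exact hcompcc _ h'), neg_zero]
      · have h5 : (fun i => f (d.p i)) = n + -(n ∘ bar) := by
          funext i
          rw [hf1]
          simp [sub_eq_add_neg]
        rw [h5]
        exact h1
    rw [hbot, AddSubgroup.mem_bot] at hmem
    intro i
    have h6 := hf1 i
    rw [hmem, Pi.zero_apply] at h6
    omega
  refine ⟨fun i j hij => ?_, ?_⟩
  · have h1 : j = bar i := by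
      apply d.p_injective
      rw [hij, hbar]
    rw [h1, hsym]
  · by_contra hk
    set k : ℤ := 2 * M + ∑ i, (d.m i : ℤ) * n i with hkdef
    have h1 := inT_add d hGb1 hT' hTb
    have hpow : ∀ q ∈ Gam A, (q.2.val ^ k) ^ L d = 1 := by
      intro q hq
      have h2 := inT_pow d hGb1 hGb4 hGal hAut2 h1 q hq
      have n5 : q.2.val ≠ 0 := q.2.ne_zero
      have h3 : H53X.ch d (n + n ∘ bar) (M + M) q = q.2.val ^ k := by
        rw [ch_add d hGb1 _ _ _ _ hq]
        unfold H53X.ch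
        have h4 : ∏ i, dl d q i ^ (n ∘ bar) i = ∏ i, dl d q (bar i) ^ n i := by
          rw [← hbij.prod_comp]
          refine Finset.prod_congr rfl fun i _ => ?_
          rw [Function.comp_apply, hbb]
        rw [h4]
        have h5 : (∏ i, dl d q i ^ n i) * q.2.val ^ M * ((∏ i, dl d q (bar i) ^ n i) * q.2.val ^ M) =
            (∏ i, (dl d q i * dl d q (bar i)) ^ n i) * (q.2.val ^ M * q.2.val ^ M) := by
          simp only [mul_zpow, Finset.prod_mul_distrib]
          ring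
        rw [h5]
        have h6 : ∀ i, (dl d q i * dl d q (bar i)) ^ n i = q.2.val ^ ((d.m i : ℤ) * n i) := by
          intro i
          rw [dl_conj d hGb1 hForm hq (hbar i).symm, _root_.zpow_mul, zpow_natCast]
        simp only [h6]
        have h7 : ∏ i, q.2.val ^ ((d.m i : ℤ) * n i) = q.2.val ^ (∑ i, (d.m i : ℤ) * n i) := by
          generalize (Finset.univ : Finset (Fin d.k)) = S
          induction S using Finset.induction_on with
          | empty => simp
          | insert i S hi ih => rw [Finset.prod_insert hi, Finset.sum_insert hi, ih, zpow_add₀ n5]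
        rw [h7, ← zpow_add₀ n5, ← zpow_add₀ n5, hkdef]
        congr 1
        ring
      rw [h3] at h2
      exact h2
    have hcount : {w : ℂ | ∃ τ ∈ GalA, w = τ tpi}.Countable := by
      have hfin : ((fun r : ℂ => r * tpi) '' {r : ℂ | r ^ (k * L d) = 1}).Finite :=
        (fin_zpow (mul_ne_zero hk hL0)).image _
      refine (hfin.subset ?_).countable
      rintro w ⟨τ, hτ, rfl⟩
      refine ⟨(pt A τ).2.val, ?_, ?_⟩
      · change (pt A τ).2.val ^ (k * L d) = 1
        rw [_root_.zpow_mul, zpow_natCast]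
        exact hpow _ (pt_mem A hτ)
      · change τ tpi / tpi * tpi = τ tpi
        rw [div_mul_cancel₀ _ tpi_ne_zero]
    have halg := hAut2 _ hcount
    apply hLind
    have h1 : (Real.pi : ℂ) = tpi * (2 * Complex.I)⁻¹ := by
      unfold tpi
      field_simp
    rw [h1]
    have hI : IsAlgebraic ℚ Complex.I := by
      refine ⟨Polynomial.X ^ 2 + 1, ?_, ?_⟩
      · exact (Polynomial.monic_X_pow_add_C (1 : ℚ) two_ne_zero).ne_zero
      · simp
    have h2 : IsAlgebraic ℚ (2 : ℂ) := by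
      simpa using isAlgebraic_algebraMap (R := ℚ) (A := ℂ) (2 : ℚ)
    exact halg.mul (h2.mul hI).inv

end

end Pool.Agent.DRB
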