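import Pool.Agent.DRB.Stmts3

/-!
# DRB, IRRX: the multiplicity spaces are irreducible under `Γ`
-/

open scoped BigOperators Topology
open Matrix

namespace Pool.Agent.DRB

noncomputable section

namespace IrrxX

variable {g : ℕ} {A : AbVar g} (d : Dec A)

/-- Coordinates of the image under a matrix acting on the first tensor factors. -/
theorem repr_left (x : Matrix (Idx g) (Idx g) ℂ) (X : ∀ i, Matrix (Fin (d.m i)) (Fin (d.m i)) ℂ)
    (hx : ∀ i a b, x *ᵥ d.B ⟨i, (a, b)⟩ = ∑ a', X i a' a • d.B ⟨i, (a', b)⟩)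
    (w : Idx g → ℂ) (i : Fin d.k) (a' : Fin (d.m i)) (b : Fin (d.n i)) :
    d.B.repr (x *ᵥ w) ⟨i, (a', b)⟩ = ∑ a, X i a' a * d.B.repr w ⟨i, (a, b)⟩ := by
  have key : (d.B.coord ⟨i, (a', b)⟩).comp x.mulVecLin =
      ∑ a, X i a' a • d.B.coord ⟨i, (a, b)⟩ := by
    refine d.B.ext fun e => ?_
    obtain ⟨j, c, f⟩ := e
    rw [LinearMap.comp_apply, Matrix.mulVecLin_apply, hx, map_sum, LinearMap.sum_apply]
    by_cases hj : j = i
    · subst hj
      by_cases hf : f = b
      · subst hf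
        rw [Finset.sum_eq_single a', Finset.sum_eq_single c]
        · simp
        · intro a _ ha
          have : ¬ (c = a) := fun h => ha h.symm
          simp [Module.Basis.coord_apply, this]
        · intro h
          exact absurd (Finset.mem_univ _) h
        · intro a _ ha
          simp [Module.Basis.coord_apply, ha]
        · intro h
          exact absurd (Finset.mem_univ _) h
      · rw [Finset.sum_eq_zero, Finset.sum_eq_zero]
        · intro a _
          simp [Module.Basis.coord_apply, hf]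
        · intro a _
          simp [Module.Basis.coord_apply, hf]
    · rw [Finset.sum_eq_zero, Finset.sum_eq_zero]
      · intro a _
        simp [Module.Basis.coord_apply, hj]
      · intro a _
        simp [Module.Basis.coord_apply, hj]
  have h := congrArg (fun l : (Idx g → ℂ) →ₗ[ℂ] ℂ => l w) key
  simpa [LinearMap.sum_apply, Module.Basis.coord_apply] using h

/-- Coordinates of the image under a matrix acting on the second tensor factors. -/
theorem repr_right (x : Matrix (Idx g) (Idx g) ℂ) (Y : ∀ i, Matrix (Fin (d.n i)) (Fin (d.n i)) ℂ)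
    (hx : ∀ i a b, x *ᵥ d.B ⟨i, (a, b)⟩ = ∑ b', Y i b' b • d.B ⟨i, (a, b')⟩)
    (w : Idx g → ℂ) (i : Fin d.k) (a : Fin (d.m i)) (b' : Fin (d.n i)) :
    d.B.repr (x *ᵥ w) ⟨i, (a, b')⟩ = ∑ b, Y i b' b * d.B.repr w ⟨i, (a, b)⟩ := by
  have key : (d.B.coord ⟨i, (a, b')⟩).comp x.mulVecLin =
      ∑ b, Y i b' b • d.B.coord ⟨i, (a, b)⟩ := by
    refine d.B.ext fun e => ?_
    obtain ⟨j, c, f⟩ := e
    rw [LinearMap.comp_apply, Matrix.mulVecLin_apply, hx, map_sum, LinearMap.sum_apply]
    by_cases hj : j = i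
    · subst hj
      by_cases hf : c = a
      · subst hf
        rw [Finset.sum_eq_single b', Finset.sum_eq_single f]
        · simp
        · intro b _ hb
          have : ¬ (f = b) := fun h => hb h.symm
          simp [Module.Basis.coord_apply, this]
        · intro h
          exact absurd (Finset.mem_univ _) h
        · intro b _ hb
          simp [Module.Basis.coord_apply, hb]
        · intro h
          exact absurd (Finset.mem_univ _) h
      · rw [Finset.sum_eq_zero, Finset.sum_eq_zero]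
        · intro b _
          simp [Module.Basis.coord_apply, hf]
        · intro b _
          simp [Module.Basis.coord_apply, hf]
    · rw [Finset.sum_eq_zero, Finset.sum_eq_zero]
      · intro b _
        simp [Module.Basis.coord_apply, hj]
      · intro b _
        simp [Module.Basis.coord_apply, hj]
  have h := congrArg (fun l : (Idx g → ℂ) →ₗ[ℂ] ℂ => l w) key
  simpa [LinearMap.sum_apply, Module.Basis.coord_apply] using h

/-- The vectors of `L ⊗ ℂ^{n i}`. -/
def U (i : Fin d.k) (L : Submodule ℂ (Fin (d.m i) → ℂ)) : Submodule ℂ (Idx g → ℂ) where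
  carrier := {w | d.p i *ᵥ w = w ∧ ∀ b, (fun a => d.B.repr w ⟨i, (a, b)⟩) ∈ L}
  add_mem' := by
    rintro v w ⟨h1, h2⟩ ⟨h1', h2'⟩
    refine ⟨by rw [Matrix.mulVec_add, h1, h1'], fun b => ?_⟩
    have := L.add_mem (h2 b) (h2' b)
    have e : (fun a => d.B.repr (v + w) ⟨i, (a, b)⟩) =
        (fun a => d.B.repr v ⟨i, (a, b)⟩) + fun a => d.B.repr w ⟨i, (a, b)⟩ := by
      funext a
      rw [map_add]
      rfl
    rw [e]
    exact this
  zero_mem' := by
    refine ⟨Matrix.mulVec_zero _, fun b => ?_⟩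
    have e : (fun a => d.B.repr (0 : Idx g → ℂ) ⟨i, (a, b)⟩) = 0 := by
      funext a
      rw [map_zero]
      rfl
    rw [e]
    exact L.zero_mem
  smul_mem' := by
    rintro c v ⟨h1, h2⟩
    refine ⟨by rw [Matrix.mulVec_smul, h1], fun b => ?_⟩
    have e : (fun a => d.B.repr (c • v) ⟨i, (a, b)⟩) = c • fun a => d.B.repr v ⟨i, (a, b)⟩ := by
      funext a
      rw [map_smul]
      rfl
    rw [e]
    exact L.smul_mem c (h2 b)

/-- Matrices commuting with the endomorphisms commute with `End(A) ⊗ ℂ`. -/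
theorem comm_endC {x y : Matrix (Idx g) (Idx g) ℂ} (hx : A.Comm x) (hy : y ∈ A.EndC) :
    x * y = y * x := by
  refine Submodule.span_induction (p := fun y _ => x * y = y * x) ?_ ?_ ?_ ?_ hy
  · rintro _ ⟨α, hα, rfl⟩
    exact hx α hα
  · rw [Matrix.mul_zero, Matrix.zero_mul]
  · intro a b _ _ ha hb
    rw [Matrix.mul_add, Matrix.add_mul, ha, hb]
  · intro c a _ ha
    rw [Matrix.mul_smul, Matrix.smul_mul, ha]

/-- The vector `v ⊗ e_0`. -/
def emb (i : Fin d.k) (v : Fin (d.m i) → ℂ) : Idx g → ℂ :=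
  ∑ a, v a • d.B ⟨i, (a, ⟨0, d.npos i⟩)⟩

theorem p_emb (i : Fin d.k) (v : Fin (d.m i) → ℂ) : d.p i *ᵥ emb d i v = emb d i v := by
  unfold emb
  rw [Matrix.mulVec_sum]
  refine Finset.sum_congr rfl fun a _ => ?_
  rw [Matrix.mulVec_smul, d.hp, if_pos rfl]

theorem repr_emb (i : Fin d.k) (v : Fin (d.m i) → ℂ) (b : Fin (d.n i)) :
    (fun a => d.B.repr (emb d i v) ⟨i, (a, b)⟩) = if b = ⟨0, d.npos i⟩ then v else 0 := by
  funext a
  unfold emb
  rw [map_sum, Finsupp.finsetSum_apply]
  by_cases hb : b = ⟨0, d.npos i⟩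
  · rw [if_pos hb, Finset.sum_eq_single a]
    · simp [hb]
    · intro c _ hc
      simp [hc]
    · intro h
      exact absurd (Finset.mem_univ _) h
  · rw [if_neg hb, Finset.sum_eq_zero]
    · rfl
    · intro c _
      have : ¬ ((⟨0, d.npos i⟩ : Fin (d.n i)) = b) := fun h => hb h.symm
      simp [this]

end IrrxX

open IrrxX in
theorem irrx_proof (h1 : Stmt_Irr3) (h2 : Stmt_Gb1) : Stmt_IrrX := by
  intro g A d i L hL
  have hcomm : ∀ q ∈ Gam A, A.Comm q.1.val := fun q hq α hα => (h2 g A q hq).1 α hα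
  have hpc : A.IsCIdem (d.p i) := (d.isComp i).1
  have hpv : ∀ x : Matrix (Idx g) (Idx g) ℂ, x * d.p i = d.p i * x → ∀ w, d.p i *ᵥ w = w →
      d.p i *ᵥ (x *ᵥ w) = x *ᵥ w := by
    intro x hx w hw
    rw [Matrix.mulVec_mulVec, ← hx, ← Matrix.mulVec_mulVec, hw]
  have hA : ∀ α, A.IsEnd α → ∀ v ∈ U d i L, AbVar.toC α *ᵥ v ∈ U d i L := by
    intro α hα w hw
    have hαE : AbVar.toC α ∈ A.EndC := Submodule.subset_span ⟨α, hα, rfl⟩
    obtain ⟨Y, hY⟩ := (d.hE _).1 hαE
    refine ⟨hpv _ (hpc.2.2 α hα).symm w hw.1, fun b' => ?_⟩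
    have e : (fun a => d.B.repr (AbVar.toC α *ᵥ w) ⟨i, (a, b')⟩) =
        ∑ b, Y i b' b • fun a => d.B.repr w ⟨i, (a, b)⟩ := by
      funext a
      rw [repr_right d _ Y hY, Finset.sum_apply]
      rfl
    rw [e]
    exact L.sum_mem fun b _ => L.smul_mem _ (hw.2 b)
  have hG : ∀ q ∈ Gam A, ∀ v ∈ U d i L, q.1.val *ᵥ v ∈ U d i L := by
    intro q hq w hw
    refine ⟨hpv _ (comm_endC (hcomm q hq) hpc.1) w hw.1, fun b => ?_⟩
    have e : (fun a' => d.B.repr (q.1.val *ᵥ w) ⟨i, (a', b)⟩) =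
        d.X q.1.val i *ᵥ fun a => d.B.repr w ⟨i, (a, b)⟩ := by
      funext a'
      rw [repr_left d _ (fun i => d.X q.1.val i) (fun i a b => d.X_spec (hcomm q hq) i a b)]
      rfl
    rw [e]
    exact hL q hq _ (hw.2 b)
  rcases h1 g A (d.p i) (d.isComp i) (U d i L) (fun v hv => hv.1) hA hG with h | h
  · left
    rw [Submodule.eq_bot_iff]
    intro v hv
    have hmem : emb d i v ∈ U d i L := by
      refine ⟨p_emb d i v, fun b => ?_⟩
      rw [repr_emb]
      split_ifs
      · exact hv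
      · exact L.zero_mem
    rw [h, Submodule.mem_bot] at hmem
    have h3 := repr_emb d i v ⟨0, d.npos i⟩
    rw [if_pos rfl, hmem] at h3
    rw [← h3]
    funext a
    rw [map_zero]
    rfl
  · right
    rw [Submodule.eq_top_iff']
    intro v
    have hmem := (h (emb d i v) (p_emb d i v)).2 ⟨0, d.npos i⟩
    rw [repr_emb, if_pos rfl] at hmem
    exact hmem

end

end Pool.Agent.DRB
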