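import Pool.Agent.DRB.Stmts3
import Pool.Agent.DRB.MAIN

open scoped BigOperators Topology
open Matrix

namespace Pool.Agent.DRB

noncomputable section

namespace MAIN3X

open MAINX

variable {g : ℕ} {A : AbVar g}

theorem cc_cc {ι κ : Type} (x : Matrix ι κ ℂ) : cc (cc x) = x := by
  ext i j
  simp [cc]

/-- The data used in the proof. -/
structure Setup (A : AbVar g) where
  d : Dec A
  c : Fin d.k → Fin d.k
  hc : ∀ i, d.p (c i) = cc (d.p i)
  hm : ∀ i, d.m i = 1 ∨ d.m i = 2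
  hmc : ∀ i, d.m (c i) = d.m i
  h1 : ∀ i, d.m i = 1 → c i ≠ i

theorem exists_setup (hDec : Stmt_Dec) (hGal : Stmt_Gal3) (hMix : Stmt_Mix) (hA : A.Rank2) :
    Nonempty (Setup A) := by
  obtain ⟨d⟩ := hDec g A
  have hex : ∀ i, ∃ j, d.p j = cc (d.p i) := by
    intro i
    obtain ⟨j, hj⟩ := (d.comp _).1 (hGal g A (d.p i) (d.isComp i)).2.1
    exact ⟨j, hj.symm⟩
  choose c hc using hex
  refine ⟨⟨d, c, hc, fun i => ?_, fun i => ?_, fun i hi h => ?_⟩⟩
  · have h := hA.le (d.p i) (d.isComp i)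
    rw [d.dim] at h
    have h0 := d.mpos i
    have : d.m i ≤ 2 := by
      by_contra hcon
      push Not at hcon
      have : 3 ^ 2 ≤ d.m i ^ 2 := Nat.pow_le_pow_left hcon 2
      omega
    omega
  · have h := (hGal g A (d.p i) (d.isComp i)).2.2.1
    rw [← hc i, d.dim, d.dim] at h
    exact Nat.pow_left_injective (n := 2) (by norm_num) h
  · have h2 := (hMix g A (d.p i) (d.isComp i) (by rw [← hc i, h])).2
    rw [d.dim, hi] at h2
    exact h2 (by norm_num)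

variable (s : Setup A)

theorem c_c (i : Fin s.d.k) : s.c (s.c i) = i := by
  apply s.d.p_injective
  rw [s.hc, s.hc, cc_cc]

abbrev RR := {i : Fin s.d.k // s.d.m i = 2 ∧ i ≤ s.c i}
abbrev NN := {i : Fin s.d.k // s.d.m i = 1}
abbrev UU := {i : Fin s.d.k // s.d.m i = 2 ∧ i < s.c i}
abbrev CX := Option (NN s ⊕ UU s)

/-- matrices of size `m i = 2` as matrices of size two -/
def rx {a b : ℕ} (ha : a = 2) (hb : b = 2) (M : Matrix (Fin a) (Fin b) ℂ) :
    Matrix (Fin 2) (Fin 2) ℂ :=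
  M.submatrix (Fin.cast ha.symm) (Fin.cast hb.symm)

theorem rx_mul {a b c : ℕ} (ha : a = 2) (hb : b = 2) (hc : c = 2) (M : Matrix (Fin a) (Fin b) ℂ)
    (N : Matrix (Fin b) (Fin c) ℂ) : rx ha hc (M * N) = rx ha hb M * rx hb hc N := by
  subst ha hb hc
  rfl

theorem rx_one {a : ℕ} (ha : a = 2) : rx ha ha (1 : Matrix (Fin a) (Fin a) ℂ) = 1 := by
  subst ha
  rfl

theorem rx_smul {a b : ℕ} (ha : a = 2) (hb : b = 2) (c : ℂ) (M : Matrix (Fin a) (Fin b) ℂ) :
    rx ha hb (c • M) = c • rx ha hb M := by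
  subst ha hb
  rfl

theorem rx_det {a : ℕ} (ha : a = 2) (M : Matrix (Fin a) (Fin a) ℂ) : (rx ha ha M).det = M.det := by
  subst ha
  rfl

theorem rx_pow {a : ℕ} (ha : a = 2) (M : Matrix (Fin a) (Fin a) ℂ) (n : ℕ) :
    rx ha ha (M ^ n) = rx ha ha M ^ n := by
  subst ha
  rfl

theorem rx_inj {a b : ℕ} (ha : a = 2) (hb : b = 2) {M N : Matrix (Fin a) (Fin b) ℂ}
    (h : rx ha hb M = rx ha hb N) : M = N := by
  subst ha hb
  exact h

theorem rx_surj {a b : ℕ} (ha : a = 2) (hb : b = 2) (N : Matrix (Fin 2) (Fin 2) ℂ) :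
    ∃ M : Matrix (Fin a) (Fin b) ℂ, rx ha hb M = N := by
  subst ha hb
  exact ⟨N, rfl⟩

/-- The group of pairs `(x, ν)`, where `x` commutes with the endomorphisms. -/
def CG (A : AbVar g) : Subgroup (GL (Idx g) ℂ × ℂˣ) where
  carrier := {q | A.Comm q.1.val}
  one_mem' := Dec.comm_one
  mul_mem' := fun ha hb => Dec.comm_mul ha hb
  inv_mem' := fun ha => Dec.comm_inv ha

/-- The action on the multiplicity spaces of dimension two. -/
def x2 (q : CG A) (r : RR s) : GL (Fin 2) ℂ :=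
  ⟨rx r.2.1 r.2.1 (s.d.X q.1.1.val r.1), rx r.2.1 r.2.1 (s.d.X (q.1.1⁻¹).val r.1),
    by rw [← rx_mul, (s.d.X_inv q.2 r.1).1, rx_one], by rw [← rx_mul, (s.d.X_inv q.2 r.1).2, rx_one]⟩

/-- The determinants. -/
def dt (q : CG A) (i : Fin s.d.k) : ℂˣ :=
  ⟨(s.d.X q.1.1.val i).det, (s.d.X (q.1.1⁻¹).val i).det,
    by rw [← Matrix.det_mul, (s.d.X_inv q.2 i).1, Matrix.det_one],
    by rw [← Matrix.det_mul, (s.d.X_inv q.2 i).2, Matrix.det_one]⟩

theorem dt_val (q : CG A) (i : Fin s.d.k) : (dt s q i).val = (s.d.X q.1.1.val i).det := rfl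

theorem dt_mul (q q' : CG A) (i : Fin s.d.k) : dt s (q * q') i = dt s q i * dt s q' i := by
  refine Units.ext ?_
  rw [Units.val_mul, dt_val, dt_val, dt_val, ← Matrix.det_mul, ← s.d.X_mul q.2 q'.2]
  rfl

theorem dt_one (i : Fin s.d.k) : dt s 1 i = 1 := by
  refine Units.ext ?_
  rw [dt_val]
  change (s.d.X 1 i).det = 1
  rw [s.d.X_one, Matrix.det_one]

/-- The characters. -/
def ych (q : CG A) : CX s → ℂˣ
  | none => 1
  | some (Sum.inl i) => dt s q i.1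
  | some (Sum.inr u) => q.1.2 * (dt s q u.1)⁻¹

/-- The homomorphism to the block group. -/
def Phi : CG A →* BGrp (RR s) (CX s) where
  toFun q := (x2 s q, ych s q, q.1.2)
  map_one' := by
    refine Prod.ext (funext fun r => Units.ext ?_) (Prod.ext (funext fun c => ?_) rfl)
    · change rx r.2.1 r.2.1 (s.d.X 1 r.1) = 1
      rw [s.d.X_one, rx_one]
    · rcases c with _ | (i | u)
      · rfl
      · exact dt_one s i.1
      · change (1 : ℂˣ) * (dt s 1 u.1)⁻¹ = 1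
        rw [dt_one, inv_one, mul_one]
  map_mul' q q' := by
    refine Prod.ext (funext fun r => Units.ext ?_) (Prod.ext (funext fun c => ?_) rfl)
    · change rx r.2.1 r.2.1 (s.d.X (q.1.1.val * q'.1.1.val) r.1) =
        rx r.2.1 r.2.1 (s.d.X q.1.1.val r.1) * rx r.2.1 r.2.1 (s.d.X q'.1.1.val r.1)
      rw [s.d.X_mul q.2 q'.2, rx_mul]
    · rcases c with _ | (i | u)
      · change (1 : ℂˣ) = 1 * 1
        rw [mul_one]
      · exact dt_mul s q q' i.1
      · change (q.1.2 * q'.1.2) * (dt s (q * q') u.1)⁻¹ =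
          (q.1.2 * (dt s q u.1)⁻¹) * (q'.1.2 * (dt s q' u.1)⁻¹)
        rw [dt_mul, mul_inv]
        exact mul_mul_mul_comm _ _ _ _

/-- The block group generated by `Γ`. -/
def Gm3 : Subgroup (BGrp (RR s) (CX s)) := ((Gam A).subgroupOf (CG A)).map (Phi s)

theorem mem_Gm3 (γ : BGrp (RR s) (CX s)) : γ ∈ Gm3 s ↔ ∃ q : CG A, q.1 ∈ Gam A ∧ Phi s q = γ := by
  unfold Gm3
  rw [Subgroup.mem_map]
  constructor
  · rintro ⟨q, hq, rfl⟩
    exact ⟨q, hq, rfl⟩
  · rintro ⟨q, hq, rfl⟩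
    exact ⟨q, hq, rfl⟩

theorem gam_comm (hGb1 : Stmt_Gb1) {q : GL (Idx g) ℂ × ℂˣ} (hq : q ∈ Gam A) : A.Comm q.1.val :=
  (hGb1 g A q hq).1

/-- vectors of size two -/
def rv {a : ℕ} (ha : a = 2) (v : Fin a → ℂ) : Fin 2 → ℂ := fun i => v (Fin.cast ha.symm i)

theorem rv_mulVec {a : ℕ} (ha : a = 2) (M : Matrix (Fin a) (Fin a) ℂ) (v : Fin a → ℂ) :
    rv ha (M *ᵥ v) = rx ha ha M *ᵥ rv ha v := by
  subst ha
  rfl

theorem rv_inj {a : ℕ} (ha : a = 2) {v w : Fin a → ℂ} (h : rv ha v = rv ha w) : v = w := by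
  subst ha
  exact h

theorem rv_surj {a : ℕ} (ha : a = 2) (w : Fin 2 → ℂ) : ∃ v : Fin a → ℂ, rv ha v = w := by
  subst ha
  exact ⟨w, rfl⟩

theorem rv_smul {a : ℕ} (ha : a = 2) (c : ℂ) (v : Fin a → ℂ) : rv ha (c • v) = c • rv ha v := rfl

theorem lift3 (hGb1 : Stmt_Gb1) {q : GL (Idx g) ℂ × ℂˣ} (hq : q ∈ Gam A) :
    ∃ γ ∈ Gm3 s, γ = Phi s ⟨q, gam_comm hGb1 hq⟩ :=
  ⟨Phi s ⟨q, gam_comm hGb1 hq⟩, (mem_Gm3 s _).2 ⟨⟨q, gam_comm hGb1 hq⟩, hq, rfl⟩, rfl⟩

theorem Phi_fst (q : CG A) (r : RR s) :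
    ((Phi s q).1 r).val = rx r.2.1 r.2.1 (s.d.X q.1.1.val r.1) := rfl

theorem Phi_inv (q : CG A) (r : RR s) :
    (((Phi s q).1 r)⁻¹).val = rx r.2.1 r.2.1 (s.d.X (q.1.1⁻¹).val r.1) := rfl

theorem h1_proof3 (hGb1 : Stmt_Gb1) (hIrrX : Stmt_IrrX) (r : RR s) (v : Fin 2 → ℂ) (hv : v ≠ 0) :
    ∃ γ ∈ Gm3 s, ∀ a : ℂ, (γ.1 r).val *ᵥ v ≠ a • v := by
  by_contra hcon
  push Not at hcon
  obtain ⟨v', hv'⟩ := rv_surj r.2.1 v
  have hv0 : v' ≠ 0 := by
    rintro rfl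
    apply hv
    rw [← hv']
    rfl
  have key : ∀ q ∈ Gam A, ∃ a : ℂ, s.d.X q.1.val r.1 *ᵥ v' = a • v' := by
    intro q hq
    obtain ⟨γ, hγ, rfl⟩ := lift3 s hGb1 hq
    obtain ⟨a, ha⟩ := hcon _ hγ
    refine ⟨a, rv_inj r.2.1 ?_⟩
    rw [rv_mulVec, rv_smul, hv']
    exact ha
  rcases hIrrX g A s.d r.1 (Submodule.span ℂ {v'}) (by
    intro q hq w hw
    obtain ⟨a, ha⟩ := key q hq
    obtain ⟨b, rfl⟩ := Submodule.mem_span_singleton.1 hw
    rw [Matrix.mulVec_smul, ha]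
    exact Submodule.smul_mem _ _ (Submodule.smul_mem _ _ (Submodule.mem_span_singleton_self _))) with
    h | h
  · exact hv0 (Submodule.span_singleton_eq_bot.1 h)
  · have h2 := finrank_span_singleton (K := ℂ) hv0
    rw [h, finrank_top, Module.finrank_fin_fun, r.2.1] at h2
    norm_num at h2

theorem h2_proof3 (hGb1 : Stmt_Gb1) (hFinX : Stmt_FinX) (r : RR s) (X : Matrix (Fin 2) (Fin 2) ℂ)
    (hX : X.trace = 0) (hX0 : X ≠ 0) :
    ¬ {Y | ∃ γ ∈ Gm3 s, Y = (γ.1 r).val * X * ((γ.1 r)⁻¹).val}.Finite := by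
  intro hfin
  obtain ⟨P, hP⟩ := rx_surj r.2.1 r.2.1 X
  have h1 : {Y | ∃ q ∈ Gam A, Y = s.d.X q.1.val r.1 * P * s.d.X (q.1⁻¹).val r.1}.Finite := by
    refine Set.Finite.subset (hfin.preimage
      (f := fun M : Matrix (Fin (s.d.m r.1)) (Fin (s.d.m r.1)) ℂ => rx r.2.1 r.2.1 M)
      (fun M _ N _ h => rx_inj r.2.1 r.2.1 h)) ?_
    rintro Y ⟨q, hq, rfl⟩
    obtain ⟨γ, hγ, he⟩ := lift3 s hGb1 hq
    refine ⟨γ, hγ, ?_⟩
    rw [he, Phi_fst, Phi_inv, ← hP]
    change rx r.2.1 r.2.1 _ = _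
    rw [rx_mul r.2.1 r.2.1 r.2.1, rx_mul r.2.1 r.2.1 r.2.1]
  obtain ⟨c, hc⟩ := (hFinX g A s.d).2 r.1 P h1
  have h4 : X = c • 1 := by
    rw [← hP, hc, rx_smul, rx_one]
  have h5 : c = 0 := by
    rw [h4, Matrix.trace_smul, Matrix.trace_one] at hX
    simpa using hX
  exact hX0 (by rw [h4, h5, zero_smul])

theorem h3_proof3 (hGb1 : Stmt_Gb1) (hLnk : Stmt_Lnk) (hA : A.Rank2) (r r' : RR s) (hr : r ≠ r')
    (P : Matrix (Fin 2) (Fin 2) ℂ) (hP : P ≠ 0) :
    ∃ γ ∈ Gm3 s, ∀ a : ℂ, (γ.1 r').val * P * ((γ.1 r)⁻¹).val ≠ a • P := by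
  obtain ⟨P', hP'⟩ := rx_surj r'.2.1 r.2.1 P
  obtain ⟨q, hq, h⟩ := hLnk g A hA s.d r'.1 r.1 r'.2.1 r.2.1
    (fun h => hr (Subtype.ext h.symm))
    (fun h => by
      rw [← s.hc] at h
      have h1 := s.d.p_injective h
      have h2 := r.2.2
      have h3 := r'.2.2
      rw [← h1] at h3
      rw [h1, c_c, ← h1] at h2
      exact hr (Subtype.ext (le_antisymm h2 h3)))
    P' (by rintro rfl; exact hP (by rw [← hP']; rfl))
  obtain ⟨γ, hγ, he⟩ := lift3 s hGb1 hq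
  refine ⟨γ, hγ, fun a ha => h a (rx_inj r'.2.1 r.2.1 ?_)⟩
  rw [he, Phi_fst, Phi_inv, ← hP', ← rx_smul, ← rx_mul, ← rx_mul] at ha
  exact ha

theorem h4_proof3 (hGb1 : Stmt_Gb1) (hTors3 : Stmt_Tors3) (r : RR s) :
    ∃ γ ∈ Gm3 s, ∀ n : ℕ, 1 ≤ n →
      ¬ ∃ a : ℂ, (γ.1 r).val ^ n = a • (1 : Matrix (Fin 2) (Fin 2) ℂ) := by
  obtain ⟨q, hq, h⟩ := hTors3 g A s.d r.1 r.2.1
  obtain ⟨γ, hγ, he⟩ := lift3 s hGb1 hq
  refine ⟨γ, hγ, fun n hn => ?_⟩
  rintro ⟨a, ha⟩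
  refine h n hn ⟨a, rx_inj r.2.1 r.2.1 ?_⟩
  rw [he, Phi_fst, ← rx_pow] at ha
  rw [rx_smul, rx_one]
  exact ha

theorem bhyp3 (hGb1 : Stmt_Gb1) (hIrrX : Stmt_IrrX) (hFinX : Stmt_FinX) (hLnk : Stmt_Lnk)
    (hTors3 : Stmt_Tors3) (hA : A.Rank2) : BHyp3 (Gm3 s) where
  h1 := fun r v hv => h1_proof3 s hGb1 hIrrX r v hv
  h2 := fun r X hX hX0 => h2_proof3 s hGb1 hFinX r X hX hX0
  h3 := fun r r' hr P hP => h3_proof3 s hGb1 hLnk hA r r' hr P hP
  h4 := fun r => h4_proof3 s hGb1 hTors3 r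

/-- Similitudes commuting with the endomorphisms. -/
def IsSim (q : CG A) : Prop := q.1.1.valᵀ * A.riem * q.1.1.val = q.1.2.val • A.riem

/-- The coefficient functions. -/
def Coef (i : Fin s.d.k) : Prop :=
  ∃ C : BIdx (RR s) (CX s) → BIdx (RR s) (CX s) → Fin (s.d.m i) → ℂ,
    (∀ q : CG A, IsSim q → ∀ e0 e1 a,
      ∑ e0', ∑ e1', bm (Phi s q) e0 e0' * bm (Phi s q) e1 e1' * C e0' e1' a =
        ∑ a', C e0 e1 a' * s.d.X q.1.1.val i a' a) ∧
    ∀ w : Fin (s.d.m i) → ℂ, (∀ e0 e1, ∑ a, C e0 e1 a * w a = 0) → w = 0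

theorem bm_ych (q : CG A) (e : BIdx (RR s) (CX s)) (c : CX s) :
    bm (Phi s q) e (Sum.inr c) = if e = Sum.inr c then (ych s q c).val else 0 := by
  unfold bm
  rcases e with p | c'
  · rw [Bmat_lr, if_neg]
    simp
  · rw [Bmat_rr]
    by_cases h : c' = c
    · subst h
      rw [if_pos rfl, if_pos rfl]
      rfl
    · rw [if_neg h, if_neg (by simpa using h)]

theorem coef_aux (i : Fin s.d.k) (c : CX s) (F : BIdx (RR s) (CX s) → Fin (s.d.m i) → ℂ)
    (hF : ∀ q : CG A, IsSim q → ∀ e0 a,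
      (∑ e0', bm (Phi s q) e0 e0' * F e0' a) * (ych s q c).val =
        ∑ a', F e0 a' * s.d.X q.1.1.val i a' a)
    (hinj : ∀ w : Fin (s.d.m i) → ℂ, (∀ e0, ∑ a, F e0 a * w a = 0) → w = 0) : Coef s i := by
  refine ⟨fun e0 e1 a => F e0 a * (if e1 = Sum.inr c then 1 else 0), fun q hq e0 e1 a => ?_,
    fun w hw => hinj w fun e0 => ?_⟩
  · have h1 : ∀ e0' : BIdx (RR s) (CX s), ∑ e1', bm (Phi s q) e0 e0' * bm (Phi s q) e1 e1' *
        (F e0' a * (if e1' = Sum.inr c then 1 else 0)) =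
        (bm (Phi s q) e0 e0' * F e0' a) * bm (Phi s q) e1 (Sum.inr c) := by
      intro e0'
      rw [Finset.sum_eq_single (Sum.inr c)]
      · rw [if_pos rfl]
        ring
      · intro e _ he
        rw [if_neg he]
        ring
      · intro h
        exact absurd (Finset.mem_univ _) h
    rw [Finset.sum_congr rfl fun e0' _ => h1 e0', ← Finset.sum_mul, bm_ych]
    by_cases he : e1 = Sum.inr c
    · rw [if_pos he, hF q hq]
      refine Finset.sum_congr rfl fun a' _ => ?_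
      beta_reduce
      rw [if_pos he, mul_one]
    · rw [if_neg he, mul_zero]
      symm
      refine Finset.sum_eq_zero fun a' _ => ?_
      beta_reduce
      rw [if_neg he]
      ring
  · have := hw e0 (Sum.inr c)
    rw [← this]
    refine Finset.sum_congr rfl fun a _ => ?_
    beta_reduce
    rw [if_pos rfl, mul_one]

theorem sum_det_one {m : ℕ} (h : m = 1) (M : Matrix (Fin m) (Fin m) ℂ) (a : Fin m) :
    ∑ a', M a' a = M.det := by
  subst h
  have : a = 0 := Subsingleton.elim _ _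
  subst this
  simp

theorem eq_zero_one {m : ℕ} (h : m = 1) (w : Fin m → ℂ) (hw : ∑ a, w a = 0) : w = 0 := by
  subst h
  funext a
  have : a = 0 := Subsingleton.elim _ _
  subst this
  simpa using hw

theorem coef1 (i : Fin s.d.k) (hi : s.d.m i = 1) : Coef s i := by
  refine coef_aux s i none (fun e0 _ => if e0 = Sum.inr (some (Sum.inl ⟨i, hi⟩)) then 1 else 0)
    (fun q hq e0 a => ?_) (fun w hw => ?_)
  · have h1 : ∑ e0', bm (Phi s q) e0 e0' *
        (if e0' = Sum.inr (some (Sum.inl ⟨i, hi⟩)) then 1 else 0) =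
        bm (Phi s q) e0 (Sum.inr (some (Sum.inl ⟨i, hi⟩))) := by
      rw [Finset.sum_eq_single (Sum.inr (some (Sum.inl ⟨i, hi⟩)))]
      · rw [if_pos rfl, mul_one]
      · intro e _ he
        rw [if_neg he, mul_zero]
      · intro h
        exact absurd (Finset.mem_univ _) h
    have h2 : (ych s q none).val = 1 := rfl
    rw [h1, h2, mul_one, bm_ych, ← Finset.mul_sum, sum_det_one hi]
    by_cases he : e0 = Sum.inr (some (Sum.inl ⟨i, hi⟩))
    · rw [if_pos he, if_pos he, one_mul]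
      rfl
    · rw [if_neg he, if_neg he, zero_mul]
  · have := hw (Sum.inr (some (Sum.inl ⟨i, hi⟩)))
    rw [if_pos rfl] at this
    refine eq_zero_one hi w ?_
    rw [← this]
    exact Finset.sum_congr rfl fun a _ => (one_mul _).symm

theorem coef2 (i : Fin s.d.k) (u : RR s) (c : CX s) (Ψ : Matrix (Fin 2) (Fin (s.d.m i)) ℂ)
    (hΨ : ∀ q : CG A, IsSim q → (ych s q c).val • (((Phi s q).1 u).val * Ψ) =
      Ψ * s.d.X q.1.1.val i)
    (hinj : ∀ w, Ψ *ᵥ w = 0 → w = 0) : Coef s i := by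
  refine coef_aux s i c (fun e0 a => Sum.elim (fun p => if p.2 = u then Ψ p.1 a else 0)
    (fun _ => 0) e0) (fun q hq e0 a => ?_) (fun w hw => ?_)
  · rcases e0 with ⟨b, r⟩ | c'
    · simp only [Sum.elim_inl, Fintype.sum_sum_type, Sum.elim_inr, mul_zero, Finset.sum_const_zero,
        add_zero]
      unfold bm
      simp only [Bmat_ll, Fintype.sum_prod_type]
      have h1 : ∀ x : Fin 2, (∑ x_1 : RR s, (if r = x_1 then ((Phi s q).1 r).val b x else 0) *
          if x_1 = u then Ψ x a else 0) =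
          if r = u then ((Phi s q).1 r).val b x * Ψ x a else 0 := by
        intro x
        rw [Finset.sum_eq_single r]
        · rw [if_pos rfl]
          by_cases h : r = u
          · rw [if_pos h, if_pos h]
          · rw [if_neg h, if_neg h, mul_zero]
        · intro y _ hy
          rw [if_neg (Ne.symm hy), zero_mul]
        · intro h
          exact absurd (Finset.mem_univ _) h
      rw [Finset.sum_congr rfl fun x _ => h1 x]
      by_cases h : r = u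
      · subst h
        simp only [if_true]
        have h2 := congrFun (congrFun (hΨ q hq) b) a
        rw [Matrix.smul_apply, Matrix.mul_apply, Matrix.mul_apply, smul_eq_mul, mul_comm] at h2
        exact h2
      · simp only [if_neg h, Finset.sum_const_zero, zero_mul]
    · simp only [Sum.elim_inr, zero_mul, Finset.sum_const_zero, Fintype.sum_sum_type, mul_zero,
        add_zero]
      have h1 : ∀ p : Fin 2 × RR s, bm (Phi s q) (Sum.inr c') (Sum.inl p) = 0 := fun p => by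
        unfold bm
        rw [Bmat_rl]
      simp only [h1, zero_mul, Finset.sum_const_zero]
  · refine hinj w (funext fun b => ?_)
    have := hw (Sum.inl (b, u))
    simp only [Sum.elim_inl, if_true] at this
    exact this

/-- rows of a matrix of size `m i = 2` -/
def ry {a : ℕ} {κ : Type} (ha : a = 2) (M : Matrix (Fin a) κ ℂ) : Matrix (Fin 2) κ ℂ :=
  M.submatrix (Fin.cast ha.symm) id

theorem ry_mul {a : ℕ} {κ : Type} (ha : a = 2) (M : Matrix (Fin a) (Fin a) ℂ)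
    (N : Matrix (Fin a) κ ℂ) : ry ha (M * N) = rx ha ha M * ry ha N := by
  subst ha
  rfl

theorem ry_mul' {a : ℕ} {κ κ' : Type} [Fintype κ] (ha : a = 2) (M : Matrix (Fin a) κ ℂ)
    (N : Matrix κ κ' ℂ) : ry ha (M * N) = ry ha M * N := by
  subst ha
  rfl

theorem ry_mulVec {a : ℕ} {κ : Type} [Fintype κ] (ha : a = 2) (M : Matrix (Fin a) κ ℂ) (w : κ → ℂ) :
    ry ha M *ᵥ w = rv ha (M *ᵥ w) := by
  subst ha
  rfl

theorem ry_smul {a : ℕ} {κ : Type} (ha : a = 2) (c : ℂ) (M : Matrix (Fin a) κ ℂ) :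
    ry ha (c • M) = c • ry ha M := rfl

theorem coef3 (i : Fin s.d.k) (hi : s.d.m i = 2) (hic : i ≤ s.c i) : Coef s i := by
  refine coef2 s i ⟨i, hi, hic⟩ none (ry hi 1) (fun q hq => ?_) (fun w hw => ?_)
  · have h2 : (ych s q none).val = 1 := rfl
    rw [h2, one_smul, Phi_fst]
    change rx hi hi (s.d.X q.1.1.val i) * ry hi 1 = _
    rw [← ry_mul, ← ry_mul', Matrix.mul_one, Matrix.one_mul]
  · rw [ry_mulVec, Matrix.one_mulVec] at hw
    exact rv_inj hi hw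

/-- the standard alternating matrix -/
def J2 : Matrix (Fin 2) (Fin 2) ℂ := !![0, -1; 1, 0]

theorem J2_det (X : Matrix (Fin 2) (Fin 2) ℂ) : X * J2 * Xᵀ = X.det • J2 := by
  ext i j
  fin_cases i <;> fin_cases j <;> simp [J2, Matrix.mul_apply, Fin.sum_univ_two,
    Matrix.det_fin_two] <;> ring

theorem J2_inj (w : Fin 2 → ℂ) (h : J2 *ᵥ w = 0) : w = 0 := by
  have h0 := congrFun h 0
  have h1 := congrFun h 1
  simp [J2, Matrix.mulVec, dotProduct, Fin.sum_univ_two] at h0 h1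
  funext i
  fin_cases i
  · exact h1
  · exact h0

theorem coef4 (hForm : Stmt_Form) (i : Fin s.d.k) (hi : s.d.m i = 2) (hic : s.c i < i) :
    Coef s i := by
  have hu2 : s.d.m (s.c i) = 2 := by rw [s.hmc, hi]
  have hcc : s.c (s.c i) = i := c_c s i
  obtain ⟨Ω, Ω', h1, h2, h3⟩ := (hForm g A s.d).2 (s.c i) i (by rw [s.hc, cc_cc])
  refine coef2 s i ⟨s.c i, hu2, by rw [hcc]; exact hic.le⟩
    (some (Sum.inr ⟨s.c i, hu2, by rw [hcc]; exact hic⟩)) (J2 * ry hu2 Ω)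
    (fun q hq => ?_) (fun w hw => ?_)
  · have h4 := h3 q.1.1.val q.1.2.val q.2 hq
    have h5 : (ych s q (some (Sum.inr ⟨s.c i, hu2, by rw [hcc]; exact hic⟩))).val =
        q.1.2.val * (s.d.X q.1.1.val (s.c i)).det⁻¹ := by
      change ((q.1.2 * (dt s q (s.c i))⁻¹ : ℂˣ) : ℂ) = _
      rw [Units.val_mul, Units.val_inv_eq_inv_val]
      rfl
    have h6 : (s.d.X q.1.1.val (s.c i)).det ≠ 0 := s.d.X_det_ne q.2 _
    rw [h5, Phi_fst]
    change (q.1.2.val * (s.d.X q.1.1.val (s.c i)).det⁻¹) •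
      (rx hu2 hu2 (s.d.X q.1.1.val (s.c i)) * (J2 * ry hu2 Ω)) = _
    have h7 : ((rx hu2 hu2 (s.d.X q.1.1.val (s.c i))) * J2 *
        (rx hu2 hu2 (s.d.X q.1.1.val (s.c i)))ᵀ) * (ry hu2 (Ω * s.d.X q.1.1.val i)) =
        rx hu2 hu2 (s.d.X q.1.1.val (s.c i)) * J2 * ry hu2 (q.1.2.val • Ω) := by
      have h8 : (rx hu2 hu2 (s.d.X q.1.1.val (s.c i)))ᵀ =
          rx hu2 hu2 (s.d.X q.1.1.val (s.c i))ᵀ := rfl
      rw [← h4, Matrix.mul_assoc (s.d.X q.1.1.val (s.c i))ᵀ, ry_mul, h8]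
      simp only [Matrix.mul_assoc]
    rw [J2_det, rx_det, ry_smul, Matrix.mul_smul, Matrix.smul_mul] at h7
    rw [mul_comm, mul_smul, ← Matrix.mul_assoc, ← h7, smul_smul, inv_mul_cancel₀ h6, one_smul,
      ry_mul', Matrix.mul_assoc]
  · rw [← Matrix.mulVec_mulVec] at hw
    have h4 := J2_inj _ hw
    rw [ry_mulVec] at h4
    have h5 : Ω *ᵥ w = 0 := rv_inj hu2 h4
    have h6 := congrArg (fun v => Ω' *ᵥ v) h5
    simp only [Matrix.mulVec_mulVec, h2, Matrix.one_mulVec, Matrix.mulVec_zero] at h6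
    exact h6

theorem exists_coef (hForm : Stmt_Form) (i : Fin s.d.k) : Coef s i := by
  rcases s.hm i with hi | hi
  · exact coef1 s i hi
  · rcases le_or_gt i (s.c i) with h | h
    · exact coef3 s i hi h
    · exact coef4 s hForm i hi h

/-! ### The tensor space -/

/-- The slots. -/
abbrev Slot := Σ i : Fin s.d.k, Fin (s.d.n i)

/-- The tensor space which contains `H_1(A)`. -/
def tJ : TData := ⟨Fintype.card (Slot s), fun _ => 2, fun _ => 0⟩

/-- The slots are numbered. -/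
def sig : Fin (Fintype.card (Slot s)) ≃ Slot s := (Fintype.equivFin (Slot s)).symm

/-- The embedding. -/
def Jmap (C : ∀ i, BIdx (RR s) (CX s) → BIdx (RR s) (CX s) → Fin (s.d.m i) → ℂ) :
    (Idx g → ℂ) →ₗ[ℂ] (TIdx (tJ s) (BIdx (RR s) (CX s)) → ℂ) where
  toFun v p := ∑ a, C (sig s p.1).1 (p.2 (0 : Fin 2)) (p.2 (1 : Fin 2)) a *
    s.d.B.repr v ⟨(sig s p.1).1, (a, (sig s p.1).2)⟩
  map_add' u v := by
    funext p
    simp only [map_add, Finsupp.add_apply, mul_add, Finset.sum_add_distrib, Pi.add_apply]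
  map_smul' c u := by
    funext p
    simp only [map_smul, Finsupp.smul_apply, smul_eq_mul, RingHom.id_apply, Pi.smul_apply,
      Finset.mul_sum]
    exact Finset.sum_congr rfl fun a _ => by ring

theorem Jmap_apply (C : ∀ i, BIdx (RR s) (CX s) → BIdx (RR s) (CX s) → Fin (s.d.m i) → ℂ)
    (v : Idx g → ℂ) (n : Fin (Fintype.card (Slot s))) (f : Fin 2 → BIdx (RR s) (CX s)) :
    Jmap s C v ⟨n, f⟩ = ∑ a, C (sig s n).1 (f 0) (f 1) a *
      s.d.B.repr v ⟨(sig s n).1, (a, (sig s n).2)⟩ := rfl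

theorem Jmap_inj (C : ∀ i, BIdx (RR s) (CX s) → BIdx (RR s) (CX s) → Fin (s.d.m i) → ℂ)
    (hC : ∀ i, ∀ w : Fin (s.d.m i) → ℂ, (∀ e0 e1, ∑ a, C i e0 e1 a * w a = 0) → w = 0) :
    Function.Injective (Jmap s C) := by
  rw [← LinearMap.ker_eq_bot, LinearMap.ker_eq_bot']
  intro v hv
  have h1 : s.d.B.repr v = 0 := by
    ext e
    obtain ⟨i, a, b⟩ := e
    have h2 : (fun a => s.d.B.repr v ⟨i, (a, b)⟩) = 0 := by
      refine hC i _ fun e0 e1 => ?_
      have h3 := congrFun hv ⟨(sig s).symm ⟨i, b⟩, ![e0, e1]⟩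
      rw [Jmap_apply] at h3
      have h4 : sig s ((sig s).symm ⟨i, b⟩) = ⟨i, b⟩ := Equiv.apply_symm_apply _ _
      rw [h4] at h3
      exact h3
    exact congrFun h2 a
  simpa using h1

theorem repr_mulVec (x : Matrix (Idx g) (Idx g) ℂ) (hx : A.Comm x) (v : Idx g → ℂ)
    (i : Fin s.d.k) (a' : Fin (s.d.m i)) (b : Fin (s.d.n i)) :
    s.d.B.repr (x *ᵥ v) ⟨i, (a', b)⟩ = ∑ a, s.d.X x i a' a * s.d.B.repr v ⟨i, (a, b)⟩ := by
  conv_lhs => rw [← s.d.B.sum_repr v]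
  rw [Matrix.mulVec_sum, map_sum, Finsupp.finsetSum_apply]
  have h1 : ∀ j a1 b1, s.d.B.repr (x *ᵥ (s.d.B.repr v ⟨j, (a1, b1)⟩ • s.d.B ⟨j, (a1, b1)⟩))
      ⟨i, (a', b)⟩ = ∑ a2, s.d.X x j a2 a1 * s.d.B.repr v ⟨j, (a1, b1)⟩ *
        (if (⟨j, (a2, b1)⟩ : Σ i, Fin (s.d.m i) × Fin (s.d.n i)) = ⟨i, (a', b)⟩ then 1 else 0) := by
    intro j a1 b1
    rw [Matrix.mulVec_smul, s.d.X_spec hx, Finset.smul_sum, map_sum, Finsupp.finsetSum_apply]
    refine Finset.sum_congr rfl fun a2 _ => ?_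
    rw [map_smul, map_smul, Module.Basis.repr_self, Finsupp.smul_apply, Finsupp.smul_apply,
      Finsupp.single_apply, smul_eq_mul, smul_eq_mul]
    ring
  rw [Fintype.sum_sigma, Finset.sum_eq_single i]
  · rw [Fintype.sum_prod_type]
    refine Finset.sum_congr rfl fun a _ => ?_
    rw [Finset.sum_eq_single b]
    · rw [h1, Finset.sum_eq_single a']
      · rw [if_pos rfl, mul_one]
      · intro a2 _ ha2
        rw [if_neg, mul_zero]
        intro h
        apply ha2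
        have := congrArg (fun e : (Σ i, Fin (s.d.m i) × Fin (s.d.n i)) => (e.2.1 : ℕ)) h
        exact Fin.ext this
      · intro h
        exact absurd (Finset.mem_univ _) h
    · intro b1 _ hb1
      rw [h1]
      refine Finset.sum_eq_zero fun a2 _ => ?_
      rw [if_neg, mul_zero]
      intro h
      apply hb1
      have := congrArg (fun e : (Σ i, Fin (s.d.m i) × Fin (s.d.n i)) => (e.2.2 : ℕ)) h
      exact Fin.ext this
    · intro h
      exact absurd (Finset.mem_univ _) h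
  · intro j _ hj
    refine Finset.sum_eq_zero fun p _ => ?_
    rw [h1]
    refine Finset.sum_eq_zero fun a2 _ => ?_
    rw [if_neg, mul_zero]
    intro h
    exact hj (congrArg Sigma.fst h)
  · intro h
    exact absurd (Finset.mem_univ _) h

theorem Jmap_equiv_aux (C : ∀ i, BIdx (RR s) (CX s) → BIdx (RR s) (CX s) → Fin (s.d.m i) → ℂ)
    (q : CG A)
    (hC : ∀ i, ∀ e0 e1 a,
      ∑ e0', ∑ e1', bm (Phi s q) e0 e0' * bm (Phi s q) e1 e1' * C i e0' e1' a =
        ∑ a', C i e0 e1 a' * s.d.X q.1.1.val i a' a)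
    (v : Idx g → ℂ) (ν : ℂ) (n : Fin (Fintype.card (Slot s))) (f : Fin 2 → BIdx (RR s) (CX s)) :
    ν ^ (0 : ℤ) * ∑ K : Fin 2 → BIdx (RR s) (CX s), (∏ t : Fin 2, bm (Phi s q) (f t) (K t)) *
        Jmap s C v ⟨n, K⟩ = Jmap s C (q.1.1.val *ᵥ v) ⟨n, f⟩ := by
  rw [Jmap_apply]
  simp only [repr_mulVec s _ q.2]
  rw [_root_.zpow_zero, one_mul, ← (finTwoArrowEquiv _).symm.sum_comp, Fintype.sum_prod_type]
  simp only [Jmap_apply, Fin.prod_univ_two]
  have h2 : ∀ e0' e1' : BIdx (RR s) (CX s),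
      bm (Phi s q) (f 0) ((finTwoArrowEquiv _).symm (e0', e1') 0) *
        bm (Phi s q) (f 1) ((finTwoArrowEquiv _).symm (e0', e1') 1) *
        ∑ a, C (sig s n).1 ((finTwoArrowEquiv _).symm (e0', e1') 0)
          ((finTwoArrowEquiv _).symm (e0', e1') 1) a *
            s.d.B.repr v ⟨(sig s n).1, (a, (sig s n).2)⟩ =
      ∑ a, (bm (Phi s q) (f 0) e0' * bm (Phi s q) (f 1) e1' * C (sig s n).1 e0' e1' a) *
        s.d.B.repr v ⟨(sig s n).1, (a, (sig s n).2)⟩ := by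
    intro e0' e1'
    rw [Finset.mul_sum]
    refine Finset.sum_congr rfl fun a _ => ?_
    change bm (Phi s q) (f 0) e0' * bm (Phi s q) (f 1) e1' * (C (sig s n).1 e0' e1' a *
      s.d.B.repr v ⟨(sig s n).1, (a, (sig s n).2)⟩) = _
    ring
  simp only [h2]
  have h3 : ∀ e0' : BIdx (RR s) (CX s), ∑ e1', ∑ a, (bm (Phi s q) (f 0) e0' *
      bm (Phi s q) (f 1) e1' * C (sig s n).1 e0' e1' a) *
        s.d.B.repr v ⟨(sig s n).1, (a, (sig s n).2)⟩ =
      ∑ a, (∑ e1', bm (Phi s q) (f 0) e0' * bm (Phi s q) (f 1) e1' *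
        C (sig s n).1 e0' e1' a) * s.d.B.repr v ⟨(sig s n).1, (a, (sig s n).2)⟩ := by
    intro e0'
    rw [Finset.sum_comm]
    exact Finset.sum_congr rfl fun a _ => (Finset.sum_mul _ _ _).symm
  simp only [h3]
  have h4 : ∀ a, ∑ e0', (∑ e1', bm (Phi s q) (f 0) e0' * bm (Phi s q) (f 1) e1' *
      C (sig s n).1 e0' e1' a) * s.d.B.repr v ⟨(sig s n).1, (a, (sig s n).2)⟩ =
      ∑ a', C (sig s n).1 (f 0) (f 1) a' * (s.d.X q.1.1.val (sig s n).1 a' a *
        s.d.B.repr v ⟨(sig s n).1, (a, (sig s n).2)⟩) := by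
    intro a
    rw [← Finset.sum_mul, hC, Finset.sum_mul]
    exact Finset.sum_congr rfl fun a' _ => mul_assoc _ _ _
  rw [Finset.sum_comm, Finset.sum_congr rfl fun a _ => h4 a, Finset.sum_comm]
  exact Finset.sum_congr rfl fun a' _ => (Finset.mul_sum _ _ _).symm

theorem Jmap_equiv (C : ∀ i, BIdx (RR s) (CX s) → BIdx (RR s) (CX s) → Fin (s.d.m i) → ℂ)
    (q : CG A)
    (hC : ∀ i, ∀ e0 e1 a,
      ∑ e0', ∑ e1', bm (Phi s q) e0 e0' * bm (Phi s q) e1 e1' * C i e0' e1' a =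
        ∑ a', C i e0 e1 a' * s.d.X q.1.1.val i a' a)
    (v : Idx g → ℂ) (ν : ℂ) :
    TAct (tJ s) (bm (Phi s q)) ν (Jmap s C v) = Jmap s C (q.1.1.val *ᵥ v) := by
  funext p
  exact Jmap_equiv_aux s C q hC v ν p.1 p.2

/-! ### The relations -/

theorem prod_dite' {k : ℕ} {M : Type} [CommMonoid M] (p : Fin k → Prop) [DecidablePred p]
    (F : {i // p i} → M) : ∏ x, F x = ∏ i, if h : p i then F ⟨i, h⟩ else 1 := by
  rw [Fintype.prod_dite]
  simp

theorem prod_invol {k : ℕ} {M : Type} [CommMonoid M] (c : Fin k → Fin k) (hc : ∀ i, c (c i) = i)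
    (f : Fin k → M) (hf : ∀ i, c i = i → f i = 1) :
    ∏ i, f i = ∏ i, if i < c i then f i * f (c i) else 1 := by
  have h1 : ∀ i, f i = (if i < c i then f i else 1) * (if c i < i then f i else 1) := by
    intro i
    rcases lt_trichotomy i (c i) with h | h | h
    · rw [if_pos h, if_neg (not_lt.2 h.le), mul_one]
    · rw [← h, if_neg (lt_irrefl _), hf i h.symm, one_mul]
    · rw [if_neg (not_lt.2 h.le), if_pos h, one_mul]
  have h2 : ∏ i, (if c i < i then f i else 1) = ∏ i, (if i < c i then f (c i) else 1) := by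
    let e : Fin k ≃ Fin k := ⟨c, c, hc, hc⟩
    rw [← e.prod_comp]
    refine Finset.prod_congr rfl fun i _ => ?_
    change (if c (c i) < c i then f (c i) else 1) = _
    rw [hc]
  rw [Finset.prod_congr rfl fun i _ => h1 i, Finset.prod_mul_distrib, h2, ← Finset.prod_mul_distrib]
  refine Finset.prod_congr rfl fun i _ => ?_
  by_cases h : i < c i
  · rw [if_pos h, if_pos h, if_pos h]
  · rw [if_neg h, if_neg h, if_neg h, one_mul]

theorem sum_invol {k : ℕ} (c : Fin k → Fin k) (hc : ∀ i, c (c i) = i)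
    (f : Fin k → ℤ) (hf : ∀ i, c i = i → f i = 0) :
    ∑ i, f i = ∑ i, if i < c i then f i + f (c i) else 0 := by
  have h := prod_invol (M := Multiplicative ℤ) c hc (fun i => Multiplicative.ofAdd (f i)) (fun i hi => by
    rw [hf i hi]; rfl)
  have h2 := congrArg Multiplicative.toAdd h
  rw [toAdd_prod, toAdd_prod] at h2
  refine Eq.trans ?_ (h2.trans ?_)
  · exact Finset.sum_congr rfl fun i _ => rfl
  · refine Finset.sum_congr rfl fun i _ => ?_
    split_ifs <;> rfl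

section Rel

variable (a : RR s → ℤ) (n : CX s → ℤ) (m : ℤ)

/-- exponents of the determinants -/
def nn (i : Fin s.d.k) : ℤ :=
  (if h : s.d.m i = 1 then n (some (Sum.inl ⟨i, h⟩)) else 0) +
    (if h : s.d.m i = 2 ∧ i < s.c i then
      a ⟨i, h.1, h.2.le⟩ - n (some (Sum.inr ⟨i, h⟩)) else 0)

/-- exponents of the multiplier -/
def mu (i : Fin s.d.k) : ℤ :=
  (if h : s.d.m i = 2 ∧ i = s.c i then a ⟨i, h.1, h.2.le⟩ else 0) +
    (if h : s.d.m i = 2 ∧ i < s.c i then n (some (Sum.inr ⟨i, h⟩)) else 0)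

/-- The value of a relation. -/
theorem rel_value (hForm : Stmt_Form) (q : CG A) (hq : IsSim q) :
    (∏ r, (((Phi s q).1 r).val.det) ^ a r) * (∏ i, ((Phi s q).2.1 i).val ^ n i) *
      (Phi s q).2.2.val ^ m =
    (∏ i, (s.d.X q.1.1.val i).det ^ nn s a n i) * q.1.2.val ^ (m + ∑ i, mu s a n i) := by
  have hν : q.1.2.val ≠ 0 := q.1.2.ne_zero
  have hD : ∀ i, (s.d.X q.1.1.val i).det ≠ 0 := fun i => s.d.X_det_ne q.2 i
  have e1 : ∏ r, (((Phi s q).1 r).val.det) ^ a r =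
      ∏ i, if h : s.d.m i = 2 ∧ i ≤ s.c i then (s.d.X q.1.1.val i).det ^ a ⟨i, h⟩ else 1 := by
    rw [← prod_dite' (fun i => s.d.m i = 2 ∧ i ≤ s.c i)
      (fun r => (s.d.X q.1.1.val r.1).det ^ a r)]
    refine Finset.prod_congr rfl fun r _ => ?_
    rw [Phi_fst, rx_det]
  have e2 : ∏ i, ((Phi s q).2.1 i).val ^ n i =
      (∏ i, if h : s.d.m i = 1 then (s.d.X q.1.1.val i).det ^ n (some (Sum.inl ⟨i, h⟩)) else 1) *
      ∏ i, if h : s.d.m i = 2 ∧ i < s.c i then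
        (q.1.2.val * (s.d.X q.1.1.val i).det⁻¹) ^ n (some (Sum.inr ⟨i, h⟩)) else 1 := by
    rw [Fintype.prod_option, Fintype.prod_sum_type]
    have e3 : ((Phi s q).2.1 none).val = 1 := rfl
    rw [e3, _root_.one_zpow, one_mul,
      ← prod_dite' (fun i => s.d.m i = 1)
        (fun r => (s.d.X q.1.1.val r.1).det ^ n (some (Sum.inl r))),
      ← prod_dite' (fun i => s.d.m i = 2 ∧ i < s.c i)
        (fun r => (q.1.2.val * (s.d.X q.1.1.val r.1).det⁻¹) ^ n (some (Sum.inr r)))]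
    refine congrArg₂ _ (Finset.prod_congr rfl fun r _ => rfl) (Finset.prod_congr rfl fun r _ => ?_)
    have e4 : ((Phi s q).2.1 (some (Sum.inr r))).val = q.1.2.val * (s.d.X q.1.1.val r.1).det⁻¹ := by
      change ((q.1.2 * (dt s q r.1)⁻¹ : ℂˣ) : ℂ) = _
      rw [Units.val_mul, Units.val_inv_eq_inv_val]
      rfl
    rw [e4]
  have e5 : (Phi s q).2.2.val = q.1.2.val := rfl
  have e6 : q.1.2.val ^ (∑ i, mu s a n i) = ∏ i, q.1.2.val ^ mu s a n i := by
    have : ∀ t : Finset (Fin s.d.k), q.1.2.val ^ (∑ i ∈ t, mu s a n i) =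
        ∏ i ∈ t, q.1.2.val ^ mu s a n i := by
      intro t
      induction t using Finset.induction_on with
      | empty => simp
      | insert i t hi ih => rw [Finset.sum_insert hi, Finset.prod_insert hi, zpow_add₀ hν, ih]
    exact this _
  rw [e1, e2, e5, zpow_add₀ hν, e6, ← Finset.prod_mul_distrib, ← Finset.prod_mul_distrib,
    mul_comm (q.1.2.val ^ m), ← mul_assoc, ← Finset.prod_mul_distrib]
  congr 1
  refine Finset.prod_congr rfl fun i _ => ?_
  unfold nn mu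
  rcases s.hm i with hi | hi
  · have n2 : ¬ (s.d.m i = 2 ∧ i ≤ s.c i) := fun h => by omega
    have n3 : ¬ (s.d.m i = 2 ∧ i < s.c i) := fun h => by omega
    have n4 : ¬ (s.d.m i = 2 ∧ i = s.c i) := fun h => by omega
    rw [dif_neg n2, dif_pos hi, dif_neg n3, dif_pos hi, dif_neg n3, dif_neg n4, dif_neg n3]
    simp
  · have n1 : ¬ s.d.m i = 1 := by omega
    rw [dif_neg n1, dif_neg n1]
    rcases lt_trichotomy i (s.c i) with h | h | h
    · have n4 : ¬ (s.d.m i = 2 ∧ i = s.c i) := fun h' => absurd h'.2 h.ne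
      rw [dif_pos ⟨hi, h.le⟩, dif_pos ⟨hi, h⟩, dif_pos ⟨hi, h⟩, dif_neg n4, dif_pos ⟨hi, h⟩]
      rw [zero_add, zero_add, mul_zpow, zpow_sub₀ (hD i), _root_.inv_zpow]
      ring
    · have n3 : ¬ (s.d.m i = 2 ∧ i < s.c i) := fun h' => absurd h h'.2.ne
      rw [dif_pos ⟨hi, h.le⟩, dif_neg n3, dif_neg n3, dif_pos ⟨hi, h⟩, dif_neg n3]
      have hr : cc (s.d.p i) = s.d.p i := by
        rw [← s.hc, ← h]
      rw [(hForm g A s.d).1 i hi hr q.1.1.val q.1.2.val q.2 hq]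
      simp
    · have n2 : ¬ (s.d.m i = 2 ∧ i ≤ s.c i) := fun h' => absurd h'.2 (not_le.2 h)
      have n3 : ¬ (s.d.m i = 2 ∧ i < s.c i) := fun h' => absurd h'.2 (not_lt.2 h.le)
      have n4 : ¬ (s.d.m i = 2 ∧ i = s.c i) := fun h' => absurd h'.2 (ne_of_gt h)
      rw [dif_neg n2, dif_neg n3, dif_neg n3, dif_neg n4, dif_neg n3]
      simp

theorem det_det {m m' : ℕ} (h : m = 1) (h' : m' = 1) (X : Matrix (Fin m) (Fin m) ℂ)
    (X' : Matrix (Fin m') (Fin m') ℂ) (Ω : Matrix (Fin m) (Fin m') ℂ)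
    (Ω' : Matrix (Fin m') (Fin m) ℂ) (h1 : Ω * Ω' = 1) (ν : ℂ) (h2 : Xᵀ * Ω * X' = ν • Ω) :
    X.det * X'.det = ν := by
  subst h h'
  have h3 := congrFun (congrFun h1 0) 0
  have h4 := congrFun (congrFun h2 0) 0
  simp only [Matrix.mul_apply, Finset.univ_unique, Fin.default_eq_zero, Finset.sum_singleton,
    Matrix.one_apply_eq, Matrix.transpose_apply, Matrix.smul_apply, smul_eq_mul] at h3 h4
  have h5 : Ω 0 0 ≠ 0 := by
    intro h
    rw [h, zero_mul] at h3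
    exact zero_ne_one h3
  rw [Matrix.det_unique, Matrix.det_unique]
  have h6 : (X default default * X' default default - ν) * Ω 0 0 = 0 := by
    simp only [Fin.default_eq_zero]
    linear_combination h4
  exact sub_eq_zero.1 ((mul_eq_zero.1 h6).resolve_right h5)

theorem rel_one (hForm : Stmt_Form) (hH53 : Stmt_H53) (hGb1 : Stmt_Gb1) (hA : A.Rank2)
    (h : ∀ δ ∈ Gm3 s, ∃ N : ℕ, 1 ≤ N ∧
      ((∏ r, (δ.1 r).val.det ^ a r) * (∏ i, (δ.2.1 i).val ^ n i) * δ.2.2.val ^ m) ^ N = 1)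
    (q : CG A) (hq : IsSim q) :
    (∏ r, (((Phi s q).1 r).val.det) ^ a r) * (∏ i, ((Phi s q).2.1 i).val ^ n i) *
      (Phi s q).2.2.val ^ m = 1 := by
  have hν : q.1.2.val ≠ 0 := q.1.2.ne_zero
  have hreal : ∀ i, s.c i = i → nn s a n i = 0 := by
    intro i hi
    have n1 : ¬ s.d.m i = 1 := fun h => s.h1 i h hi
    have n2 : ¬ (s.d.m i = 2 ∧ i < s.c i) := fun h => absurd h.2 (by rw [hi]; exact lt_irrefl _)
    unfold nn
    rw [dif_neg n1, dif_neg n2, add_zero]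
  obtain ⟨r1, r2⟩ := hH53 g A hA s.d (nn s a n) (m + ∑ i, mu s a n i)
    (fun i hi => hreal i (s.d.p_injective (by rw [s.hc, hi]))) (by
      intro p hp
      obtain ⟨N, hN, hN'⟩ := h (Phi s ⟨p, gam_comm hGb1 hp⟩)
        ((mem_Gm3 s _).2 ⟨⟨p, gam_comm hGb1 hp⟩, hp, rfl⟩)
      refine ⟨N, hN, ?_⟩
      rw [rel_value s a n m hForm ⟨p, gam_comm hGb1 hp⟩ (hGb1 g A p hp).2] at hN'
      exact hN')
  rw [rel_value s a n m hForm q hq]
  have r3 : ∀ i, nn s a n (s.c i) = nn s a n i := fun i => r1 i (s.c i) (s.hc i)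
  have r4 : ∀ i, s.d.m i = 2 → nn s a n i = 0 := by
    intro i hi
    rcases le_or_gt (s.c i) i with hlt | hlt
    · unfold nn
      rw [dif_neg (by omega), dif_neg (fun h => absurd h.2 (not_lt.2 hlt)), add_zero]
    · rw [← r3]
      have h2 : s.d.m (s.c i) = 2 := by rw [s.hmc, hi]
      unfold nn
      rw [dif_neg (by omega), dif_neg (fun h => absurd h.2 (by rw [c_c]; exact not_lt.2 hlt.le)),
        add_zero]
  have r5 : ∀ i, (s.d.X q.1.1.val i).det ^ nn s a n i *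
      (s.d.X q.1.1.val (s.c i)).det ^ nn s a n (s.c i) = q.1.2.val ^ nn s a n i := by
    intro i
    rcases s.hm i with hi | hi
    · obtain ⟨Ω, Ω', k1, k2, k3⟩ := (hForm g A s.d).2 i (s.c i) (s.hc i)
      rw [r3, ← mul_zpow, det_det hi (by rw [s.hmc, hi]) _ _ Ω Ω' k1 q.1.2.val
        (k3 q.1.1.val q.1.2.val q.2 hq)]
    · rw [r3, r4 i hi]
      simp
  rw [prod_invol s.c (c_c s) (fun i => (s.d.X q.1.1.val i).det ^ nn s a n i) (fun i hi => by
    rw [hreal i hi, _root_.zpow_zero])]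
  have r6 : ∏ i, (if i < s.c i then (s.d.X q.1.1.val i).det ^ nn s a n i *
      (s.d.X q.1.1.val (s.c i)).det ^ nn s a n (s.c i) else 1) =
      q.1.2.val ^ (∑ i, if i < s.c i then nn s a n i else 0) := by
    have : ∀ t : Finset (Fin s.d.k), ∏ i ∈ t, (if i < s.c i then (s.d.X q.1.1.val i).det ^ nn s a n i *
      (s.d.X q.1.1.val (s.c i)).det ^ nn s a n (s.c i) else 1) =
      q.1.2.val ^ (∑ i ∈ t, if i < s.c i then nn s a n i else 0) := by
      intro t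
      induction t using Finset.induction_on with
      | empty => simp
      | insert i t hi ih =>
        rw [Finset.sum_insert hi, Finset.prod_insert hi, zpow_add₀ hν, ih, r5]
        split_ifs with h
        · rfl
        · simp
    exact this _
  have r7 := sum_invol s.c (c_c s) (nn s a n) hreal
  have r8 : ∑ i, (s.d.m i : ℤ) * nn s a n i = ∑ i, nn s a n i := by
    refine Finset.sum_congr rfl fun i _ => ?_
    rcases s.hm i with hi | hi
    · rw [hi]; simp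
    · rw [r4 i hi]; simp
  have r9 : ∑ i, nn s a n i = 2 * ∑ i, (if i < s.c i then nn s a n i else 0) := by
    rw [r7, Finset.mul_sum]
    refine Finset.sum_congr rfl fun i _ => ?_
    split_ifs with h
    · rw [r3]; ring
    · ring
  rw [r8, r9] at r2
  have r10 : (∑ i, if i < s.c i then nn s a n i else 0) + (m + ∑ i, mu s a n i) = 0 := by omega
  rw [r6, ← zpow_add₀ hν, r10, _root_.zpow_zero]

end Rel

end MAIN3X

open MAIN3X in
theorem main3_proof (hDec : Stmt_Dec) (hGal3 : Stmt_Gal3) (hMix : Stmt_Mix) (hForm : Stmt_Form)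
    (hFinX : Stmt_FinX) (hIrrX : Stmt_IrrX) (hTors3 : Stmt_Tors3) (hLnk : Stmt_Lnk)
    (hH53 : Stmt_H53) (hTrans : Stmt_Trans) (hGt3 : Stmt_Gt3) (hGb1 : Stmt_Gb1) (hGb2 : Stmt_Gb2)
    (hRev : Stmt_Rev) : MainStatement3 := by
  intro g A hA x ν
  refine ⟨hRev g A x ν, ?_⟩
  rintro ⟨hc, hs⟩ t D hD
  obtain ⟨s⟩ := exists_setup hDec hGal3 hMix hA
  choose C hC1 hC2 using exists_coef s hForm
  obtain ⟨t', D', hD'⟩ := hTrans (BIdx (RR s) (CX s)) (Idx g) (tJ s) t (Jmap s C)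
    (Jmap_inj s C hC2) D
  have hst : ∀ δ ∈ Gm3 s, D'.map (TAct t' (bm δ) δ.2.2.val) ≤ D' := by
    intro δ hδ
    obtain ⟨q, hq, rfl⟩ := (mem_Gm3 s δ).1 hδ
    refine (hD' (bm (Phi s q)) q.1.1.val q.1.2.val q.1.2.ne_zero (fun v => ?_)).2
      (hGb2 g A t D hD q.1 hq)
    exact Jmap_equiv s C q (fun i => hC1 i q (hGb1 g A q.1 hq).2) v _
  let q : CG A := ⟨(x, ν), hc⟩
  have hq : IsSim q := hs
  have hfin := hGt3 (RR s) (CX s) (Gm3 s) (bhyp3 s hGb1 hIrrX hFinX hLnk hTors3 hA) t' D' hst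
    (Phi s q) (fun a n m h => rel_one s a n m hForm hH53 hGb1 hA h q hq)
  have hle : D.map (TAct t x.val ν.val) ≤ D :=
    (hD' (bm (Phi s q)) x.val ν.val ν.ne_zero
      (fun v => Jmap_equiv s C q (fun i => hC1 i q hq) v _)).1 hfin
  have hinj : Function.Injective (TAct t x.val ν.val) := by
    have : (TAct t (x⁻¹).val (ν⁻¹).val).comp (TAct t x.val ν.val) = LinearMap.id := by
      rw [← TAct_comp, ← Units.val_mul, ← Units.val_mul, inv_mul_cancel, inv_mul_cancel,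
        Units.val_one, Units.val_one, TAct_one]
    intro u v huv
    have h3 := congrArg (TAct t (x⁻¹).val (ν⁻¹).val) huv
    have h4 : ∀ w, TAct t (x⁻¹).val (ν⁻¹).val (TAct t x.val ν.val w) = w := by
      intro w
      exact congrArg (fun L : (TIdx t (Idx g) → ℂ) →ₗ[ℂ] (TIdx t (Idx g) → ℂ) => L w) this
    rw [h4, h4] at h3
    exact h3
  refine Submodule.eq_of_le_of_finrank_eq hle ?_
  exact (LinearEquiv.finrank_eq (Submodule.equivMapOfInjective _ hinj D)).symm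

end

end Pool.Agent.DRB
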