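import Pool.Agent.DRB.Stmts3
import Pool.Agent.DRB.Irr

/-!
# DRB / MIX: real components are mixed, and do not have multiplicity one
-/

open scoped BigOperators Topology
open Matrix

namespace Pool.Agent.DRB

noncomputable section

namespace MIXX

variable {g : ℕ} (A : AbVar g)

open IrrX

theorem kk_endC {x : Matrix (Idx g) (Idx g) ℂ} (hx : x ∈ A.EndC) {v : Idx g → ℂ}
    (hv : v ∈ kk A) : x *ᵥ v ∈ kk A := by
  unfold AbVar.EndC at hx
  induction hx using Submodule.span_induction with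
  | mem y hy =>
    obtain ⟨α, hα, rfl⟩ := hy
    exact kk_stable A ⟨α, hα⟩ hv
  | zero =>
    rw [Matrix.zero_mulVec]
    exact (kk A).zero_mem
  | add y z _ _ hy hz =>
    rw [Matrix.add_mulVec]
    exact (kk A).add_mem hy hz
  | smul c y _ hy =>
    rw [Matrix.smul_mulVec]
    exact (kk A).smul_mem _ hy

theorem cc_eq_map (x : Matrix (Idx g) (Idx g) ℂ) : cc x = x.map cj := rfl

/-- A nonzero vector of the kernel in a real component. -/
theorem exists_kk {p : Matrix (Idx g) (Idx g) ℂ} (hp : A.IsComp p) (hr : cc p = p) :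
    ∃ v : Idx g → ℂ, v ≠ 0 ∧ p *ᵥ v = v ∧ v ∈ kk A := by
  obtain ⟨⟨hE, hpp, hC⟩, hp0, -⟩ := hp
  have hconj : ∀ v : Idx g → ℂ, sv cj (p *ᵥ v) = p *ᵥ sv cj v := by
    intro v
    rw [sv_mulVec, ← cc_eq_map, hr]
  have hidem : ∀ v : Idx g → ℂ, p *ᵥ (p *ᵥ v) = p *ᵥ v := by
    intro v
    rw [Matrix.mulVec_mulVec, hpp]
  have hw : ∃ w : Idx g → ℂ, p *ᵥ w ≠ 0 := by
    by_contra hcon
    push Not at hcon
    apply hp0
    ext i j
    have := congrFun (hcon (Pi.single j 1)) i
    rw [Matrix.mulVec_single_one] at this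
    simpa using this
  obtain ⟨w, hw⟩ := hw
  obtain ⟨y, z, hyz, hy, hz⟩ := kk_codisj A w
  have hy' : p *ᵥ y ∈ kk A := kk_endC A hE hy
  have hz' : p *ᵥ sv cj z ∈ kk A := kk_endC A hE hz
  by_cases h0 : p *ᵥ y = 0
  · refine ⟨p *ᵥ sv cj z, ?_, hidem _, hz'⟩
    intro h1
    apply hw
    rw [← hconj] at h1
    have h2 : p *ᵥ z = 0 := by
      by_contra hne
      exact sv_ne cj hne h1
    rw [hyz, Matrix.mulVec_add, h0, h2, add_zero]
  · exact ⟨p *ᵥ y, h0, hidem _, hy'⟩

theorem mixed {p : Matrix (Idx g) (Idx g) ℂ} (hp : A.IsComp p) (hr : cc p = p) :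
    A.Mixed p := by
  obtain ⟨v, hv0, hpv, hv⟩ := exists_kk A hp hr
  refine ⟨⟨v, hv0, hpv, fun k => congrFun ((mem_kk A v).1 hv) k⟩,
    ⟨sv cj v, sv_ne cj hv0, ?_, ?_⟩⟩
  · have h1 : sv cj (p *ᵥ v) = p *ᵥ sv cj v := by
      rw [sv_mulVec, ← cc_eq_map, hr]
    rw [← h1, hpv]
  · intro k
    have h2 : (fun i => (starRingEnd ℂ) (sv cj v i)) = v := by
      funext i
      exact Complex.conj_conj _
    rw [h2]
    exact congrFun ((mem_kk A v).1 hv) k

theorem p_apply (d : Dec A) (i : Fin d.k) (v : Idx g → ℂ) :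
    d.p i *ᵥ v = ∑ e, d.B.repr v e • (if e.1 = i then d.B e else 0) := by
  conv_lhs => rw [← d.B.sum_repr v]
  rw [Matrix.mulVec_sum]
  refine Finset.sum_congr rfl fun e _ => ?_
  rw [Matrix.mulVec_smul, d.hp]

/-- In a component of multiplicity one the kernel is everything if it is not zero. -/
theorem simple (d : Dec A) (i : Fin d.k) (hm : d.m i = 1) {u : Idx g → ℂ} (hu0 : u ≠ 0)
    (hpu : d.p i *ᵥ u = u) (hu : u ∈ kk A) (v : Idx g → ℂ) (hpv : d.p i *ᵥ v = v) :
    v ∈ kk A := by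
  classical
  have hsub : ∀ a a' : Fin (d.m i), a = a' := by
    intro a a'
    have h1 := a.2
    have h2 := a'.2
    exact Fin.ext (by omega)
  set a0 : Fin (d.m i) := ⟨0, d.mpos i⟩ with ha0
  have hex : ∃ β : Fin (d.n i), d.B.repr u ⟨i, (a0, β)⟩ ≠ 0 := by
    by_contra hcon
    push Not at hcon
    apply hu0
    rw [← hpu, p_apply]
    refine Finset.sum_eq_zero fun e _ => ?_
    by_cases he : e.1 = i
    · obtain ⟨j, a, b⟩ := e
      simp only at he
      subst he
      rw [hsub a a0, hcon b, zero_smul]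
    · rw [if_neg he, smul_zero]
  obtain ⟨β, hβ⟩ := hex
  have hB : ∀ β' : Fin (d.n i), d.B ⟨i, (a0, β')⟩ ∈ kk A := by
    intro β'
    set F : (Σ i, Fin (d.m i) × Fin (d.n i)) → (Idx g → ℂ) := fun e =>
      if e = ⟨i, (a0, β)⟩ then d.B ⟨i, (a0, β')⟩ else 0 with hF
    set x : Matrix (Idx g) (Idx g) ℂ := LinearMap.toMatrix' (d.B.constr ℂ F) with hx
    have hxB : ∀ e, x *ᵥ d.B e = F e := by
      intro e
      rw [← Matrix.toLin'_apply, hx, Matrix.toLin'_toMatrix', Module.Basis.constr_basis]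
    have hxE : x ∈ A.EndC := by
      rw [d.hE]
      refine ⟨fun j => Matrix.of fun b' b =>
        if j = i ∧ (b' : ℕ) = β' ∧ (b : ℕ) = β then 1 else 0, fun j a b => ?_⟩
      rw [hxB]
      by_cases hj : j = i
      · subst hj
        rw [hsub a a0]
        by_cases hb : b = β
        · subst hb
          rw [hF]
          simp only [if_true]
          rw [Finset.sum_eq_single β']
          · simp
          · intro c _ hc
            rw [Matrix.of_apply, if_neg, zero_smul]
            rintro ⟨-, h2, -⟩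
            exact hc (Fin.ext h2)
          · intro h
            exact absurd (Finset.mem_univ _) h
        · rw [hF]
          have hne : ¬ ((⟨j, (a0, b)⟩ : (Σ i, Fin (d.m i) × Fin (d.n i))) = ⟨j, (a0, β)⟩) := by
            intro h
            apply hb
            have := congrArg (fun e : (Σ i, Fin (d.m i) × Fin (d.n i)) => (e.2.2 : ℕ)) h
            exact Fin.ext this
          simp only [hne, if_false]
          symm
          refine Finset.sum_eq_zero fun c _ => ?_
          rw [Matrix.of_apply, if_neg, zero_smul]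
          rintro ⟨-, -, h3⟩
          exact hb (Fin.ext h3)
      · rw [hF]
        have hne : ¬ ((⟨j, (a, b)⟩ : (Σ i, Fin (d.m i) × Fin (d.n i))) = ⟨i, (a0, β)⟩) := by
          intro h
          exact hj (congrArg Sigma.fst h)
        simp only [hne, if_false]
        symm
        refine Finset.sum_eq_zero fun c _ => ?_
        rw [Matrix.of_apply, if_neg, zero_smul]
        rintro ⟨h1, -, -⟩
        exact hj h1
    have h1 : x *ᵥ u = d.B.repr u ⟨i, (a0, β)⟩ • d.B ⟨i, (a0, β')⟩ := by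
      conv_lhs => rw [← d.B.sum_repr u]
      rw [Matrix.mulVec_sum, Finset.sum_eq_single (⟨i, (a0, β)⟩ : (Σ i, Fin (d.m i) × Fin (d.n i)))]
      · rw [Matrix.mulVec_smul, hxB, hF]
        simp
      · intro e _ he
        rw [Matrix.mulVec_smul, hxB, hF]
        simp [he]
      · intro h
        exact absurd (Finset.mem_univ _) h
    have h2 := kk_endC A hxE hu
    rw [h1] at h2
    have h3 := (kk A).smul_mem (d.B.repr u ⟨i, (a0, β)⟩)⁻¹ h2
    rwa [smul_smul, inv_mul_cancel₀ hβ, one_smul] at h3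
  rw [← hpv, p_apply]
  refine (kk A).sum_mem fun e _ => (kk A).smul_mem _ ?_
  by_cases he : e.1 = i
  · obtain ⟨j, a, b⟩ := e
    simp only at he
    subst he
    rw [if_pos rfl, hsub a a0]
    exact hB b
  · rw [if_neg he]
    exact (kk A).zero_mem

end MIXX

open MIXX IrrX in
theorem mix_proof (hDec : Stmt_Dec) : Stmt_Mix := by
  intro g A p hp hr
  have hM := mixed A hp hr
  refine ⟨hM, fun h1 => ?_⟩
  obtain ⟨d⟩ := hDec g A
  obtain ⟨i, hi⟩ := (d.comp p).1 hp
  have hm : d.m i = 1 := by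
    have h2 := d.dim i
    rw [← hi, h1] at h2
    nlinarith [d.mpos i]
  obtain ⟨⟨u, hu0, hpu, hu⟩, ⟨v, hv0, hpv, hv⟩⟩ := hM
  rw [hi] at hpu hpv
  have hu' : u ∈ kk A := (mem_kk A u).2 (funext hu)
  have h3 : v ∈ kk A := simple A d i hm hu0 hpu hu' v hpv
  exact hv0 (kk_disj A h3 ((mem_kk A _).2 (funext hv)))

end

end Pool.Agent.DRB
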