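import Pool.Agent.DRB.Stmts3
import Pool.Agent.DRB.Pos

/-!
# DRB / POS2: a positive definite form on the homology with adjoint the Rosati adjoint
-/

open scoped BigOperators Topology
open Matrix

namespace Pool.Agent.DRB

noncomputable section

namespace POS2X

open PosX

variable {g : ℕ} (A : AbVar g)

/-- The real part of the Riemann form, as a matrix on the homology. -/
def Gm (h : Matrix (Fin g) (Fin g) ℂ) : Matrix (Idx g) (Idx g) ℂ :=
  Matrix.of fun i j => ((Hf h (A.lat i) (A.lat j)).re : ℂ)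

theorem G_bil (h : Matrix (Fin g) (Fin g) ℂ) (x y : Idx g → ℝ) :
    ((Hf h (pr (A.per *ᵥ cx x)) (pr (A.per *ᵥ cx y))).re : ℂ) = cx x ⬝ᵥ (Gm A h *ᵥ cx y) := by
  have h1 : Hf h (pr (A.per *ᵥ cx x)) (pr (A.per *ᵥ cx y)) =
      ∑ i, ∑ j, ((x i * y j : ℝ) : ℂ) * Hf h (A.lat i) (A.lat j) := by
    rw [pr_per, pr_per, Hf_sum_left]
    refine Finset.sum_congr rfl fun i _ => ?_
    rw [Hf_sum_right]
    refine Finset.sum_congr rfl fun j _ => ?_
    rw [Hf_smul_left, Hf_smul_right]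
    simp only [cx, Complex.conj_ofReal, Complex.ofReal_mul]
    ring
  rw [h1, Complex.re_sum, Complex.ofReal_sum]
  simp only [dotProduct, Matrix.mulVec]
  refine Finset.sum_congr rfl fun i _ => ?_
  rw [Complex.re_sum, Complex.ofReal_sum, Finset.mul_sum]
  refine Finset.sum_congr rfl fun j _ => ?_
  rw [Complex.re_ofReal_mul, Complex.ofReal_mul, Complex.ofReal_mul]
  simp only [cx, Gm, Matrix.of_apply]
  ring

theorem G_herm {h : Matrix (Fin g) (Fin g) ℂ} (hh : h.IsHermitian) : (Gm A h).IsHermitian := by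
  ext i j
  rw [Matrix.conjTranspose_apply, Gm, Matrix.of_apply, Matrix.of_apply, ← Hf_conj hh (A.lat i),
    Complex.star_def, Complex.conj_ofReal, Complex.conj_re]

theorem ext_real {M N : Matrix (Idx g) (Idx g) ℂ}
    (h : ∀ x y : Idx g → ℝ, cx x ⬝ᵥ (M *ᵥ cx y) = cx x ⬝ᵥ (N *ᵥ cx y)) : M = N := by
  ext i j
  have h1 := h (Pi.single i 1) (Pi.single j 1)
  have h2 : ∀ k : Idx g, cx (Pi.single k 1 : Idx g → ℝ) = Pi.single k 1 := by
    intro k
    funext l
    by_cases hl : l = k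
    · subst hl
      simp [cx]
    · simp [cx, hl]
  rw [h2, h2, Matrix.mulVec_single_one, Matrix.mulVec_single_one, single_one_dotProduct,
    single_one_dotProduct] at h1
  exact h1

theorem G_exp (h : Matrix (Fin g) (Fin g) ℂ) (x y : Idx g → ℝ) :
    (cx x - Complex.I • cx y) ⬝ᵥ (Gm A h *ᵥ (cx x + Complex.I • cx y)) =
      (cx x ⬝ᵥ (Gm A h *ᵥ cx x)) + (cx y ⬝ᵥ (Gm A h *ᵥ cx y)) +
      Complex.I * ((cx x ⬝ᵥ (Gm A h *ᵥ cx y)) - (cx y ⬝ᵥ (Gm A h *ᵥ cx x))) := by
  rw [Matrix.mulVec_add, Matrix.mulVec_smul, sub_dotProduct, dotProduct_add, dotProduct_add,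
    smul_dotProduct, smul_dotProduct, dotProduct_smul, dotProduct_smul]
  simp only [smul_eq_mul]
  have hI : Complex.I * Complex.I = -1 := Complex.I_mul_I
  linear_combination (-(cx y ⬝ᵥ (Gm A h *ᵥ cx y))) * hI

/-- The value at a complex vector. -/
theorem G_val {h : Matrix (Fin g) (Fin g) ℂ} (hh : h.IsHermitian) (v : Idx g → ℂ) :
    (star v ⬝ᵥ (Gm A h *ᵥ v)).re =
      (Hf h (pr (A.per *ᵥ cx fun i => (v i).re)) (pr (A.per *ᵥ cx fun i => (v i).re))).re +
      (Hf h (pr (A.per *ᵥ cx fun i => (v i).im)) (pr (A.per *ᵥ cx fun i => (v i).im))).re := by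
  have e1 := G_bil A h (fun i => (v i).re) (fun i => (v i).re)
  have e2 := G_bil A h (fun i => (v i).im) (fun i => (v i).im)
  have e3 := G_bil A h (fun i => (v i).re) (fun i => (v i).im)
  have e4 := G_bil A h (fun i => (v i).im) (fun i => (v i).re)
  have hv : v = (cx fun i => (v i).re) + Complex.I • (cx fun i => (v i).im) := by
    funext i
    simp only [Pi.add_apply, Pi.smul_apply, cx, smul_eq_mul]
    rw [mul_comm]
    exact (Complex.re_add_im (v i)).symm
  have hs : star v = (cx fun i => (v i).re) - Complex.I • (cx fun i => (v i).im) := by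
    funext i
    simp only [Pi.star_apply, Pi.sub_apply, Pi.smul_apply, cx, smul_eq_mul, Complex.star_def]
    apply Complex.ext <;> simp
  have key := G_exp A h (fun i => (v i).re) (fun i => (v i).im)
  rw [← hs, ← hv] at key
  rw [key, ← e1, ← e2, ← e3, ← e4]
  simp

end POS2X

open PosX POS2X

theorem pos2_proof (hHerm : Stmt_Herm) (hLeg : Stmt_Leg) : Stmt_Pos2 := by
  intro g A
  obtain ⟨h, hh, hpos, hE⟩ := hHerm g A
  obtain ⟨hint, hleg, hdet, hsk⟩ := hLeg g A
  have hnn : ∀ z : Fin g → ℂ, 0 ≤ (Hf h z z).re := by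
    intro z
    by_cases hz : z = 0
    · subst hz
      rw [Hf_zero_right]
      simp
    · exact (hpos z hz).le
  refine ⟨Gm A h, ⟨G_herm A hh, ?_⟩, ?_⟩
  · intro v hv
    rw [G_val A hh]
    by_cases h1 : (fun i => (v i).re) = (0 : Idx g → ℝ)
    · have h2 : (fun i => (v i).im) ≠ (0 : Idx g → ℝ) := by
        intro h2
        apply hv
        funext i
        exact Complex.ext (congrFun h1 i) (congrFun h2 i)
      have h3 : pr (A.per *ᵥ cx fun i => (v i).im) ≠ 0 := fun h4 => h2 (inj A _ h4)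
      exact add_pos_of_nonneg_of_pos (hnn _) (hpos _ h3)
    · have h3 : pr (A.per *ᵥ cx fun i => (v i).re) ≠ 0 := fun h4 => h1 (inj A _ h4)
      exact add_pos_of_pos_of_nonneg (hpos _ h3) (hnn _)
  · intro α hα
    obtain ⟨β, hβ, hR⟩ := exists_rosati A hint hleg hdet α hα
    refine ⟨β, hβ, hR, ?_⟩
    obtain ⟨ρ, -, hρ, hαρ⟩ := hα
    obtain ⟨σ, -, hσ, hβσ⟩ := hβ
    apply ext_real
    intro x y
    have h0 : (AbVar.toC α)ᴴ = (AbVar.toC α)ᵀ := by
      ext i j
      simp [AbVar.toC, Matrix.conjTranspose_apply]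
    have h4 : (AbVar.toC α *ᵥ cx x) = cx x ᵥ* (AbVar.toC α)ᵀ := by
      rw [Matrix.vecMul_transpose]
    have h1 : cx x ⬝ᵥ (((AbVar.toC α)ᴴ * Gm A h) *ᵥ cx y) =
        (AbVar.toC α *ᵥ cx x) ⬝ᵥ (Gm A h *ᵥ cx y) := by
      rw [h0, h4, ← Matrix.mulVec_mulVec, Matrix.dotProduct_mulVec]
    rw [h1, ← Matrix.mulVec_mulVec (cx y), toC_cx, toC_cx, ← G_bil, ← G_bil, ← toC_cx, ← toC_cx,
      act A hρ hαρ, act A hσ hβσ, adj A hE hρ hαρ hσ hβσ hR]

end

end Pool.Agent.DRB
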