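import Pool.Agent.DRB.Stmts3

/-!
# ROS: the Rosati adjoint of a component
-/

open scoped BigOperators
open Matrix

namespace Pool.Agent.DRB

noncomputable section

namespace RosX

variable {g : ℕ}

theorem cc_mul {ι : Type} [Fintype ι] (x y : Matrix ι ι ℂ) : cc (x * y) = cc x * cc y := by
  unfold cc
  exact Matrix.map_mul

theorem cc_cc {ι : Type} (x : Matrix ι ι ℂ) : cc (cc x) = x := by
  ext i j
  simp [cc]

theorem cc_toC {ι : Type} (α : Matrix ι ι ℚ) : cc (AbVar.toC α) = AbVar.toC α := by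
  ext i j
  simp [cc, AbVar.toC]

theorem cc_riem (hLeg : Stmt_Leg) (A : AbVar g) : cc A.riem = A.riem := by
  ext i j
  obtain ⟨n, hn⟩ := (hLeg g A).1 i j
  simp [cc, hn]

theorem map_riem (hLeg : Stmt_Leg) (A : AbVar g) (σ : ℂ ≃ₐ[ℚ] ℂ) : A.riem.map σ = A.riem := by
  ext i j
  obtain ⟨n, hn⟩ := (hLeg g A).1 i j
  simp [hn]

theorem PD.cancel {ι : Type} [Fintype ι] {h a b : Matrix ι ι ℂ} (hh : PD h)
    (hab : h * a = h * b) : a = b := by
  ext i j
  have h1 : h *ᵥ (fun i => a i j - b i j) = 0 := by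
    funext k
    have h2 := congrFun (congrFun hab k) j
    rw [Matrix.mul_apply, Matrix.mul_apply] at h2
    simp only [Matrix.mulVec, dotProduct, mul_sub, Finset.sum_sub_distrib, h2, sub_self,
      Pi.zero_apply]
  by_contra hne
  have h3 : (fun i => a i j - b i j) ≠ 0 := fun h4 => hne (sub_eq_zero.1 (congrFun h4 i))
  have h4 := hh.2 _ h3
  rw [h1, dotProduct_zero, Complex.zero_re] at h4
  exact lt_irrefl _ h4

theorem comm_EndC (A : AbVar g) {x y : Matrix (Idx g) (Idx g) ℂ} (hx : A.Comm x)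
    (hy : y ∈ A.EndC) : x * y = y * x := by
  unfold AbVar.EndC at hy
  induction hy using Submodule.span_induction with
  | mem z hz =>
    obtain ⟨α, hα, rfl⟩ := hz
    exact hx α hα
  | zero => rw [Matrix.mul_zero, Matrix.zero_mul]
  | add a b _ _ ha hb => rw [Matrix.mul_add, Matrix.add_mul, ha, hb]
  | smul c a _ ha => rw [Matrix.mul_smul, Matrix.smul_mul, ha]

theorem mul_mem (A : AbVar g) {x y : Matrix (Idx g) (Idx g) ℂ} (hx : x ∈ A.EndC)
    (hy : y ∈ A.EndC) : x * y ∈ A.EndC := by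
  have hx' := hx
  unfold AbVar.EndC at hx hy
  induction hx using Submodule.span_induction with
  | mem z hz =>
    obtain ⟨α, hα, rfl⟩ := hz
    induction hy using Submodule.span_induction with
    | mem w hw =>
      obtain ⟨β, hβ, rfl⟩ := hw
      refine Submodule.subset_span ⟨α * β, ?_, (AbVar.toC_mul α β).symm⟩
      exact A.EndQ.mul_mem hα hβ
    | zero => rw [Matrix.mul_zero]; exact zero_mem _
    | add a b _ _ ha hb => rw [Matrix.mul_add]; exact add_mem ha hb
    | smul c a _ ha => rw [Matrix.mul_smul]; exact Submodule.smul_mem _ c ha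
  | zero => rw [Matrix.zero_mul]; exact zero_mem _
  | add a b ha' hb' ha hb => rw [Matrix.add_mul]; exact add_mem (ha ha') (hb hb')
  | smul c a ha' ha => rw [Matrix.smul_mul]; exact Submodule.smul_mem _ c (ha ha')

/-- The adjoint with respect to `h` is the Rosati adjoint of the conjugate. -/
theorem adj (A : AbVar g) {h : Matrix (Idx g) (Idx g) ℂ}
    (hh : ∀ α, A.IsEnd α → ∃ β, A.IsEnd β ∧ A.IsRosati α β ∧
      (AbVar.toC α)ᴴ * h = h * AbVar.toC β) {x : Matrix (Idx g) (Idx g) ℂ} (hx : x ∈ A.EndC) :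
    ∃ y ∈ A.EndC, xᴴ * h = h * y ∧ (cc x)ᵀ * A.riem = A.riem * y := by
  unfold AbVar.EndC at hx
  induction hx using Submodule.span_induction with
  | mem z hz =>
    obtain ⟨α, hα, rfl⟩ := hz
    obtain ⟨β, h1, h2, h3⟩ := hh α hα
    refine ⟨AbVar.toC β, Submodule.subset_span ⟨β, h1, rfl⟩, h3, ?_⟩
    rw [cc_toC]
    exact h2
  | zero =>
    refine ⟨0, zero_mem _, by simp, ?_⟩
    have : cc (0 : Matrix (Idx g) (Idx g) ℂ) = 0 := by
      ext i j
      simp [cc]
    rw [this]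
    simp
  | add a b _ _ ha hb =>
    obtain ⟨y, h1, h2, h3⟩ := ha
    obtain ⟨y', h1', h2', h3'⟩ := hb
    refine ⟨y + y', add_mem h1 h1', ?_, ?_⟩
    · rw [Matrix.conjTranspose_add, Matrix.add_mul, Matrix.mul_add, h2, h2']
    · have : cc (a + b) = cc a + cc b := by
        ext i j
        simp [cc]
      rw [this, Matrix.transpose_add, Matrix.add_mul, Matrix.mul_add, h3, h3']
  | smul c a _ ha =>
    obtain ⟨y, h1, h2, h3⟩ := ha
    refine ⟨(starRingEnd ℂ) c • y, Submodule.smul_mem _ _ h1, ?_, ?_⟩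
    · rw [Matrix.conjTranspose_smul, Matrix.smul_mul, Matrix.mul_smul, h2]
      rfl
    · have : cc (c • a) = (starRingEnd ℂ) c • cc a := by
        ext i j
        simp [cc]
      rw [this, Matrix.transpose_smul, Matrix.smul_mul, Matrix.mul_smul, h3]

theorem part1 (hPos : Stmt_Pos2) (hLeg : Stmt_Leg) (A : AbVar g)
    (p : Matrix (Idx g) (Idx g) ℂ) (hp : A.IsComp p) : pᵀ * A.riem = A.riem * cc p := by
  obtain ⟨h, hPD, hh⟩ := hPos g A
  obtain ⟨⟨hpE, hpp, hpC⟩, hp0, hmin⟩ := hp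
  have hH : hᴴ = h := hPD.1
  -- symmetry of the adjoint
  have hsymm : ∀ x y : Matrix (Idx g) (Idx g) ℂ, xᴴ * h = h * y → yᴴ * h = h * x := by
    intro x y hxy
    have h1 := congrArg Matrix.conjTranspose hxy
    rw [Matrix.conjTranspose_mul, Matrix.conjTranspose_mul, Matrix.conjTranspose_conjTranspose,
      hH] at h1
    exact h1.symm
  obtain ⟨y, hyE, hy1, hy2⟩ := adj A hh hpE
  have hyy : y * y = y := by
    apply PD.cancel hPD
    calc h * (y * y) = pᴴ * (h * y) := by
          rw [← Matrix.mul_assoc, ← Matrix.mul_assoc, hy1]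
      _ = (p * p)ᴴ * h := by rw [← hy1, ← Matrix.mul_assoc, Matrix.conjTranspose_mul]
      _ = h * y := by rw [hpp, hy1]
  have hyC : A.Comm y := by
    intro α hα
    obtain ⟨β, h1, h2, h3⟩ := hh α hα
    have h4 := hsymm _ _ h3
    apply PD.cancel hPD
    calc h * (y * AbVar.toC α) = pᴴ * (h * AbVar.toC α) := by
          rw [← Matrix.mul_assoc, ← hy1, Matrix.mul_assoc]
      _ = (AbVar.toC β * p)ᴴ * h := by rw [← h4, ← Matrix.mul_assoc, Matrix.conjTranspose_mul]
      _ = (p * AbVar.toC β)ᴴ * h := by rw [hpC β h1]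
      _ = (AbVar.toC β)ᴴ * (h * y) := by rw [Matrix.conjTranspose_mul, Matrix.mul_assoc, hy1]
      _ = h * (AbVar.toC α * y) := by rw [← Matrix.mul_assoc, h4, Matrix.mul_assoc]
  have hyp : y * p = p * y := comm_EndC A hyC hpE
  have hq : A.IsCIdem (y * p) := by
    refine ⟨mul_mem A hyE hpE, ?_, ?_⟩
    · calc y * p * (y * p) = y * (p * y) * p := by simp only [Matrix.mul_assoc]
        _ = (y * y) * (p * p) := by rw [← hyp]; simp only [Matrix.mul_assoc]
        _ = y * p := by rw [hyy, hpp]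
    · intro α hα
      rw [Matrix.mul_assoc, hpC α hα, ← Matrix.mul_assoc, hyC α hα, Matrix.mul_assoc]
  have hy : y = p := by
    rcases hmin (y * p) hq (by rw [Matrix.mul_assoc, hpp]) with h0 | h0
    · exfalso
      obtain ⟨v, hv⟩ : ∃ v, p *ᵥ v ≠ 0 := by
        by_contra hn
        push Not at hn
        apply hp0
        ext i j
        have h1 := congrFun (hn (Pi.single j 1)) i
        rw [Matrix.mulVec_single_one] at h1
        exact h1
      have h1 := hPD.2 _ hv
      have h2 : star (p *ᵥ v) ⬝ᵥ (h *ᵥ (p *ᵥ v)) = 0 := by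
        rw [Matrix.star_mulVec, ← Matrix.dotProduct_mulVec, Matrix.mulVec_mulVec,
          Matrix.mulVec_mulVec, hy1, Matrix.mul_assoc, h0, Matrix.mul_zero,
          Matrix.zero_mulVec, dotProduct_zero]
      rw [h2, Complex.zero_re] at h1
      exact lt_irrefl _ h1
    · apply PD.cancel hPD
      calc h * y = (y * p)ᴴ * h := by rw [h0, hy1]
        _ = pᴴ * (yᴴ * h) := by rw [Matrix.conjTranspose_mul, Matrix.mul_assoc]
        _ = h * (y * p) := by rw [hsymm _ _ hy1, ← Matrix.mul_assoc, hy1, Matrix.mul_assoc]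
        _ = h * p := by rw [h0]
  rw [hy] at hy2
  have h1 := congrArg cc hy2
  rw [cc_mul, cc_mul, cc_riem hLeg] at h1
  have h2 : cc ((cc p)ᵀ) = pᵀ := by
    ext i j
    simp [cc]
  rw [h2] at h1
  exact h1

/-! ### Automorphisms of `ℂ` -/

theorem map_mem (A : AbVar g) (σ : ℂ ≃ₐ[ℚ] ℂ) {x : Matrix (Idx g) (Idx g) ℂ} (hx : x ∈ A.EndC) :
    x.map σ ∈ A.EndC := by
  unfold AbVar.EndC at hx
  induction hx using Submodule.span_induction with
  | mem z hz =>
    obtain ⟨α, hα, rfl⟩ := hz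
    refine Submodule.subset_span ⟨α, hα, ?_⟩
    ext i j
    simp [AbVar.toC]
  | zero =>
    have : (0 : Matrix (Idx g) (Idx g) ℂ).map σ = 0 := by
      ext i j
      simp
    rw [this]
    exact zero_mem _
  | add a b _ _ ha hb =>
    have : (a + b).map σ = a.map σ + b.map σ := by
      ext i j
      simp
    rw [this]
    exact add_mem ha hb
  | smul c a _ ha =>
    have : (c • a).map σ = σ c • a.map σ := by
      ext i j
      simp
    rw [this]
    exact Submodule.smul_mem _ _ ha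

theorem map_mul' {ι : Type} [Fintype ι] (σ : ℂ ≃ₐ[ℚ] ℂ) (x y : Matrix ι ι ℂ) :
    (x * y).map σ = x.map σ * y.map σ := by
  exact Matrix.map_mul (f := (σ : ℂ →+* ℂ))

theorem map_cidem (A : AbVar g) (σ : ℂ ≃ₐ[ℚ] ℂ) {q : Matrix (Idx g) (Idx g) ℂ}
    (hq : A.IsCIdem q) : A.IsCIdem (q.map σ) := by
  refine ⟨map_mem A σ hq.1, ?_, ?_⟩
  · rw [← map_mul', hq.2.1]
  · intro α hα
    have h1 : (AbVar.toC α).map σ = AbVar.toC α := by
      ext i j
      simp [AbVar.toC]
    have h2 := congrArg (fun x : Matrix (Idx g) (Idx g) ℂ => x.map σ) (hq.2.2 α hα)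
    simp only [map_mul', h1] at h2
    exact h2

theorem map_map_symm {ι : Type} (σ : ℂ ≃ₐ[ℚ] ℂ) (x : Matrix ι ι ℂ) :
    (x.map σ).map σ.symm = x := by
  ext i j
  simp

theorem map_symm_map {ι : Type} (σ : ℂ ≃ₐ[ℚ] ℂ) (x : Matrix ι ι ℂ) :
    (x.map σ.symm).map σ = x := by
  ext i j
  simp

theorem map_zero' {ι : Type} (σ : ℂ ≃ₐ[ℚ] ℂ) : (0 : Matrix ι ι ℂ).map σ = 0 := by
  ext i j
  simp

theorem map_comp (A : AbVar g) (σ : ℂ ≃ₐ[ℚ] ℂ) {p : Matrix (Idx g) (Idx g) ℂ}
    (hp : A.IsComp p) : A.IsComp (p.map σ) := by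
  obtain ⟨h1, h2, h3⟩ := hp
  refine ⟨map_cidem A σ h1, fun h0 => h2 ?_, fun q hq hqp => ?_⟩
  · rw [← map_map_symm σ p, h0, map_zero']
  · have h4 : q.map σ.symm * p = q.map σ.symm := by
      have h5 := congrArg (fun x : Matrix (Idx g) (Idx g) ℂ => x.map σ.symm) hqp
      simp only [map_mul', map_map_symm] at h5
      exact h5
    rcases h3 _ (map_cidem A σ.symm hq) h4 with h5 | h5
    · left
      rw [← map_symm_map σ q, h5, map_zero']
    · right
      rw [← map_symm_map σ q, h5]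

end RosX

open RosX in
/-- ROS -/
theorem ros_proof (hPos : Stmt_Pos2) (hLeg : Stmt_Leg) : Stmt_Ros := by
  intro g A p hp
  refine ⟨part1 hPos hLeg A p hp, fun σ => ?_⟩
  have h1 := part1 hPos hLeg A p hp
  have h2 := part1 hPos hLeg A (p.map σ) (map_comp A σ hp)
  have h3 := congrArg (fun x : Matrix (Idx g) (Idx g) ℂ => x.map σ) h1
  simp only [map_mul', map_riem hLeg] at h3
  have h4 : (pᵀ).map σ = (p.map σ)ᵀ := rfl
  rw [h4, h2] at h3
  have h5 := (hLeg g A).2.2.1
  have h6 := congrArg (fun x => A.riem⁻¹ * x) h3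
  simp only [← Matrix.mul_assoc, Matrix.nonsing_inv_mul _ h5, Matrix.one_mul] at h6
  exact h6.symm

end

end Pool.Agent.DRB
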