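import Pool.Agent.DRB.Stmts3
import Pool.Agent.DRB.T1

/-!
# De Rham-Betti squad, module T1A: any `w + 1` of the functions `f_k` are algebraically dependent on the
image `W` of a de Rham-Betti subobject of `H_1(A)` in `Lie A`, `w = dim W`
-/

open scoped BigOperators
open Matrix

namespace Pool.Agent.DRB

noncomputable section

namespace T1aX

/-- A finite family of functionals without common zero contains a basis. -/
theorem exists_js {V : Type} [AddCommGroup V] [Module ℂ V] [FiniteDimensional ℂ V] {g : ℕ}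
    (φ : Fin g → Module.Dual ℂ V) (h : ∀ v, (∀ k, φ k v = 0) → v = 0) (e : ℕ)
    (he : Module.finrank ℂ V = e) :
    ∃ js : Fin e → Fin g, ∀ v, (∀ j, φ (js j) v = 0) → v = 0 := by
  subst he
  have htop : Submodule.span ℂ (Set.range φ) = ⊤ := by
    by_contra hne
    obtain ⟨F, hF0, hF⟩ := Submodule.exists_le_ker_of_lt_top _ (lt_top_iff_ne_top.2 hne)
    obtain ⟨v, rfl⟩ := (Module.evalEquiv ℂ V).surjective F
    apply hF0
    have : v = 0 := h v (fun k => by
      have := hF (Submodule.subset_span ⟨k, rfl⟩)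
      simpa using this)
    rw [this, map_zero]
  obtain ⟨f, hf, hspan, -⟩ := Submodule.exists_fun_fin_finrank_span_eq ℂ (Set.range φ)
  have hfin : Module.finrank ℂ (Submodule.span ℂ (Set.range φ)) = Module.finrank ℂ V := by
    rw [htop, finrank_top, Subspace.dual_finrank_eq]
  choose ks hks using hf
  refine ⟨fun j => ks (Fin.cast hfin.symm j), fun v hv => ?_⟩
  have hle : Submodule.span ℂ (Set.range f) ≤ LinearMap.ker (Module.Dual.eval ℂ V v) := by
    rw [Submodule.span_le]
    rintro _ ⟨i, rfl⟩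
    have := hv (Fin.cast hfin i)
    simp only [Fin.cast_cast, Fin.cast_eq_self] at this
    rw [hks] at this
    simpa using this
  rw [hspan, htop, top_le_iff] at hle
  refine h v fun k => ?_
  have : φ k ∈ LinearMap.ker (Module.Dual.eval ℂ V v) := by rw [hle]; trivial
  simpa using this

/-- Evaluation in two steps. -/
theorem eval_sum {S₁ S₂ : Type} (R : MvPolynomial (S₁ ⊕ S₂) ℂ) (y : S₁ → ℂ) (x : S₂ → ℂ) :
    MvPolynomial.eval y (MvPolynomial.map (MvPolynomial.eval x) (MvPolynomial.sumAlgEquiv ℂ S₁ S₂ R)) =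
      MvPolynomial.eval (Sum.elim y x) R := by
  have key : ((MvPolynomial.eval y).comp (MvPolynomial.map (MvPolynomial.eval x))).comp
      ((MvPolynomial.sumAlgEquiv ℂ S₁ S₂ :
        MvPolynomial (S₁ ⊕ S₂) ℂ ≃ₐ[ℂ] MvPolynomial S₁ (MvPolynomial S₂ ℂ)) :
        MvPolynomial (S₁ ⊕ S₂) ℂ →+* MvPolynomial S₁ (MvPolynomial S₂ ℂ)) =
      MvPolynomial.eval (Sum.elim y x) := by
    apply MvPolynomial.ringHom_ext
    · intro i; simp
    · rintro (i | i) <;> simp
  exact DFunLike.congr_fun key R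

/-- A basis of integral vectors of `D` and a matrix with algebraic entries for `P D`. -/
theorem data {g : ℕ} (A : AbVar g) (D : Submodule ℂ (Idx g → ℂ)) (hrat : RatSpan D)
    (halg : AlgSpan (D.map A.per.mulVecLin)) :
    ∃ (M : Matrix (Idx g) (Fin (Module.finrank ℂ D)) ℂ)
      (u : Fin (Module.finrank ℂ D) → (Fin (Module.finrank ℂ D) → ℂ)),
      (∀ i j, IsAlgebraic ℚ (M i j)) ∧ LinearIndependent ℂ u ∧
      (∀ j, ∃ n : Idx g → ℤ, M *ᵥ u j = A.per *ᵥ (fun i => (n i : ℂ))) ∧
      (∀ x, x ∈ D.map A.per.mulVecLin ↔ ∃ w, M *ᵥ w = x) ∧ ∀ w, M *ᵥ w = 0 → w = 0 := by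
  classical
  have hPu : IsUnit A.per := (Matrix.isUnit_iff_isUnit_det _).mpr A.nondeg
  have hPinj : Function.Injective A.per.mulVecLin := Matrix.mulVec_injective_of_isUnit hPu
  have hPker : LinearMap.ker A.per.mulVecLin = ⊥ := LinearMap.ker_eq_bot.mpr hPinj
  set D' : Submodule ℂ (Idx g → ℂ) := D.map A.per.mulVecLin with hD'
  set d : ℕ := Module.finrank ℂ D with hd
  have hd' : Module.finrank ℂ D' = d :=
    (LinearEquiv.finrank_eq (Submodule.equivMapOfInjective _ hPinj D)).symm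
  have hspanQ : Submodule.span ℂ {v | v ∈ D ∧ ∀ k, ∃ q : ℚ, v k = q} = D :=
    le_antisymm (Submodule.span_le.mpr fun v hv => hv.1) hrat
  have hspanA : Submodule.span ℂ {v | v ∈ D' ∧ ∀ k, IsAlgebraic ℚ (v k)} = D' :=
    le_antisymm (Submodule.span_le.mpr fun v hv => hv.1) halg
  obtain ⟨v, hv, hvli, hvspan⟩ := T1X.exists_basis D _ hspanQ d rfl
  obtain ⟨m, hm, hmli, hmspan⟩ := T1X.exists_basis D' _ hspanA d hd'
  choose N n hn using fun j => T1X.clear_den (v j) (hv j).2
  set M : Matrix (Idx g) (Fin d) ℂ := Matrix.of fun i j => m j i with hM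
  have hMv : ∀ w : Fin d → ℂ, M *ᵥ w = ∑ j, w j • m j := by
    intro w
    funext i
    rw [Matrix.mulVec, dotProduct, Finset.sum_apply]
    refine Finset.sum_congr rfl fun j _ => ?_
    rw [Pi.smul_apply, smul_eq_mul, hM, Matrix.of_apply, mul_comm]
  have hrange : ∀ x, x ∈ D' ↔ ∃ w : Fin d → ℂ, M *ᵥ w = x := by
    intro x
    rw [← hmspan, Submodule.mem_span_range_iff_exists_fun]
    simp only [hMv]
  have hnD : ∀ j, (fun k => (n j k : ℂ)) ∈ D := by
    intro j
    rw [← hn j]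
    exact D.smul_mem _ (hv j).1
  have hPn : ∀ j, ∃ u : Fin d → ℂ, M *ᵥ u = A.per *ᵥ (fun k => (n j k : ℂ)) := fun j =>
    (hrange _).1 ⟨_, hnD j, rfl⟩
  choose u hu using hPn
  have huli : LinearIndependent ℂ u := by
    have h1 : LinearIndependent ℂ (fun j => (fun k => (n j k : ℂ))) := by
      have h2 := hvli.units_smul N
      have h3 : N • v = fun j => (fun k => (n j k : ℂ)) := by
        funext j
        rw [Pi.smul_apply', hn j]
      rwa [h3] at h2
    have h4 := h1.map' A.per.mulVecLin hPker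
    have h5 : (A.per.mulVecLin ∘ fun j => (fun k => (n j k : ℂ))) = M.mulVecLin ∘ u := by
      funext j
      rw [Function.comp_apply, Function.comp_apply, Matrix.mulVecLin_apply,
        Matrix.mulVecLin_apply, hu j]
    rw [h5] at h4
    exact h4.of_comp _
  refine ⟨M, u, fun i j => (hm j).2 i, huli, fun j => ⟨n j, hu j⟩, hrange, fun w hw => ?_⟩
  rw [hMv] at hw
  funext j
  exact Fintype.linearIndependent_iff.1 hmli w hw j

end T1aX

open T1aX in
theorem t1a_proof (hSlav : Stmt_Slav) : Stmt_T1a := by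
  classical
  intro g A D hrat halg F
  have hlie : ∀ z, z ∈ lieIm A D ↔ ∃ v ∈ D, pr (A.per *ᵥ v) = z := by
    intro z
    rw [lieIm, Submodule.mem_map]
    rfl
  obtain ⟨M, u, hMalg, huli, huper, hrange, hinj⟩ := data A D hrat halg
  rcases Nat.eq_zero_or_pos (Module.finrank ℂ D) with hd0 | hd1
  · -- the trivial case
    rw [Submodule.finrank_eq_zero] at hd0
    refine ⟨MvPolynomial.X 0 - MvPolynomial.C (A.f (F 0) 0), fun h0 => ?_, fun z hz _ => ?_⟩
    · have h1 := congrArg (MvPolynomial.eval fun _ => A.f (F 0) 0 + 1) h0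
      simp at h1
    · obtain ⟨v, hv, hvz⟩ := (hlie z).1 hz
      rw [hd0, Submodule.mem_bot] at hv
      have hz0 : z = 0 := by
        rw [← hvz, hv, Matrix.mulVec_zero]
        rfl
      rw [hz0]
      simp
  -- the kernel of the projection
  set pL : (Fin (Module.finrank ℂ D) → ℂ) →ₗ[ℂ] (Fin g → ℂ) :=
    (LinearMap.funLeft ℂ ℂ (Sum.inl : Fin g → Idx g)).comp M.mulVecLin with hpL
  have hpLa : ∀ w, pL w = pr (M *ᵥ w) := fun w => rfl
  have hpLr : LinearMap.range pL = lieIm A D := by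
    ext z
    rw [hlie, LinearMap.mem_range]
    constructor
    · rintro ⟨w, rfl⟩
      obtain ⟨v, hv, hvw⟩ := (hrange (M *ᵥ w)).2 ⟨w, rfl⟩
      exact ⟨v, hv, by rw [hpLa, ← hvw]; rfl⟩
    · rintro ⟨v, hv, rfl⟩
      obtain ⟨w, hw⟩ := (hrange (A.per *ᵥ v)).1 ⟨v, hv, rfl⟩
      exact ⟨w, by rw [hpLa, hw]⟩
  obtain ⟨e, he⟩ : ∃ e, Module.finrank ℂ (LinearMap.ker pL) = e := ⟨_, rfl⟩
  obtain ⟨js, hjs⟩ := exists_js (V := LinearMap.ker pL)
    (fun j => ((LinearMap.proj (Sum.inr j) : (Idx g → ℂ) →ₗ[ℂ] ℂ).comp M.mulVecLin).comp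
      (LinearMap.ker pL).subtype) (by
      intro v hv
      apply Subtype.ext
      refine hinj _ ?_
      funext i
      rcases i with i | i
      · have h1 := v.2
        rw [LinearMap.mem_ker] at h1
        exact congrFun h1 i
      · exact hv i) e he
  have hdim : e + (Module.finrank ℂ (lieIm A D) + 1) = Module.finrank ℂ D + 1 := by
    have h1 := LinearMap.finrank_range_add_finrank_ker pL
    rw [hpLr, Module.finrank_fin_fun, he] at h1
    omega
  -- surjectivity
  set qL : LinearMap.ker pL →ₗ[ℂ] (Fin e → ℂ) := LinearMap.pi fun j =>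
    ((LinearMap.proj (Sum.inr (js j)) : (Idx g → ℂ) →ₗ[ℂ] ℂ).comp M.mulVecLin).comp
      (LinearMap.ker pL).subtype with hqL
  have hqinj : Function.Injective qL := by
    rw [← LinearMap.ker_eq_bot, LinearMap.ker_eq_bot']
    intro v hv
    exact hjs v fun j => congrFun hv j
  have hqsurj : Function.Surjective qL := by
    rwa [← LinearMap.injective_iff_surjective_of_finrank_eq_finrank]
    rw [Module.finrank_fin_fun, he]
  let ε : Fin (Module.finrank ℂ D + 1) ≃ Fin e ⊕ Fin (Module.finrank ℂ (lieIm A D) + 1) :=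
    (finCongr hdim.symm).trans finSumFinEquiv.symm
  obtain ⟨R0, hR00, hR0⟩ := hSlav g A (Module.finrank ℂ D) 1 (fun _ => M) u hd1
    (fun _ => hMalg) huli (fun _ => huper)
    (fun i => (0, Sum.elim (fun j => Sum.inr (js j)) (fun i => Sum.inl (F i)) (ε i)))
  set R' : MvPolynomial (Fin e ⊕ Fin (Module.finrank ℂ (lieIm A D) + 1)) ℂ :=
    MvPolynomial.rename ε R0 with hR'
  have hR'0 : R' ≠ 0 := fun h =>
    hR00 (MvPolynomial.rename_injective ε ε.injective (by rw [← hR', h, map_zero]))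
  have hR'e : ∀ w : Fin (Module.finrank ℂ D) → ℂ, A.θ (pr (M *ᵥ w)) ≠ 0 →
      MvPolynomial.eval (Sum.elim (fun j => A.H (js j) (M *ᵥ w))
        (fun i => A.f (F i) (pr (M *ᵥ w)))) R' = 0 := by
    intro w hw
    rw [hR', MvPolynomial.eval_rename, ← hR0 w fun _ => hw]
    congr 1
    congr 1
    funext i
    simp only [Function.comp_apply]
    rcases ε i with j | j <;> rfl
  set Q := MvPolynomial.sumAlgEquiv ℂ (Fin e) (Fin (Module.finrank ℂ (lieIm A D) + 1)) R' with hQ
  have hQ0 : Q ≠ 0 := by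
    intro h
    apply hR'0
    rw [hQ] at h
    exact (map_eq_zero_iff _ (MvPolynomial.sumAlgEquiv ℂ (Fin e)
      (Fin (Module.finrank ℂ (lieIm A D) + 1))).injective).1 h
  obtain ⟨m, hm⟩ := MvPolynomial.ne_zero_iff.1 hQ0
  refine ⟨MvPolynomial.coeff m Q, hm, fun z hz hθ => ?_⟩
  rw [← MvPolynomial.coeff_map]
  have hmap : MvPolynomial.map (MvPolynomial.eval fun i => A.f (F i) z) Q = 0 := by
    refine MvPolynomial.funext fun y => ?_
    rw [hQ, eval_sum, map_zero]
    rw [← hpLr, LinearMap.mem_range] at hz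
    obtain ⟨w, hw⟩ := hz
    obtain ⟨v, hv⟩ := hqsurj fun j => A.H (js j) (M *ᵥ w) - y j
    have hvz : pr (M *ᵥ (v : Fin (Module.finrank ℂ D) → ℂ)) = 0 := by
      have := v.2
      rw [LinearMap.mem_ker] at this
      exact this
    have hprz : pr (M *ᵥ (w + (v : Fin (Module.finrank ℂ D) → ℂ))) = z := by
      rw [← hpLa, map_add, hpLa v, hvz, add_zero, hw]
    have h1 := hR'e (w + v) (by rw [hprz]; exact hθ)
    rw [hprz] at h1
    rw [← h1]
    congr 1
    congr 1
    funext i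
    rcases i with j | j
    · simp only [Sum.elim_inl]
      have h2 : (M *ᵥ (v : Fin (Module.finrank ℂ D) → ℂ)) (Sum.inr (js j)) =
          A.H (js j) (M *ᵥ w) - y j := congrFun hv j
      have h3 : A.H (js j) (M *ᵥ w) = A.Z (js j) z - A.Z (js j) 0 - (M *ᵥ w) (Sum.inr (js j)) := by
        rw [AbVar.H, ← hpLa, hw]
      have h4 : A.H (js j) (M *ᵥ (w + (v : Fin (Module.finrank ℂ D) → ℂ))) =
          A.Z (js j) z - A.Z (js j) 0 - (M *ᵥ (w + (v : Fin (Module.finrank ℂ D) → ℂ)))
            (Sum.inr (js j)) := by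
        rw [AbVar.H, hprz]
      rw [h4, Matrix.mulVec_add, Pi.add_apply, h2, h3]
      ring
    · rfl
  rw [hmap, MvPolynomial.coeff_zero]

end

end Pool.Agent.DRB
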