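import Pool.Agent.DRB.Stmts3
import Pool.Agent.DRB.Indep
import Pool.Agent.DRB.T1

/-!
# De Rham-Betti squad, module T1B: periods over lattice points in the image of `D` belong to `D`
-/

set_option autoImplicit false

open scoped BigOperators Topology
open Matrix Filter

namespace Pool.Agent.DRB

noncomputable section

namespace T1BX

open IndepX T1X

theorem mem_G_pos {g : ℕ} (hQ : Stmt_Qp) (A : AbVar g) (i : Idx g) :
    ((A.lat i, A.lin i) : (Fin g → ℂ) × (Fin g → ℂ)) ∈ G A :=
  (mem_G A _).2 fun z hz => hQ g A i z hz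

theorem mem_G_neg {g : ℕ} (hQ : Stmt_Qp) (A : AbVar g) (i : Idx g) :
    (-((A.lat i, A.lin i) : (Fin g → ℂ) × (Fin g → ℂ))) ∈ G A := by
  refine (mem_G A _).2 fun z hz => ?_
  rw [Prod.fst_neg, Prod.snd_neg]
  have h1 : A.θ (z + -(A.lat i)) ≠ 0 := by
    intro h0
    apply hz
    have := A.θ_aut i (z + -(A.lat i))
    rwa [h0, mul_zero, neg_add_cancel_right] at this
  obtain ⟨-, h3, h4⟩ := hQ g A i _ h1
  refine ⟨h1, fun k => ?_, fun j => ?_⟩
  · have := h3 k
    rw [neg_add_cancel_right] at this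
    exact this.symm
  · have := h4 j
    rw [neg_add_cancel_right] at this
    rw [this, Pi.neg_apply]
    ring

theorem per_int {g : ℕ} (A : AbVar g) (n : Idx g → ℤ) :
    ((pr (A.per *ᵥ fun i => (n i : ℂ)), fun j => (A.per *ᵥ fun i => (n i : ℂ)) (Sum.inr j)) :
      (Fin g → ℂ) × (Fin g → ℂ)) =
      ∑ i, n i • ((A.lat i, A.lin i) : (Fin g → ℂ) × (Fin g → ℂ)) := by
  refine Prod.ext ?_ ?_
  · rw [Prod.fst_sum]
    funext k
    rw [Finset.sum_apply]
    change ∑ i, A.per (Sum.inl k) i * (n i : ℂ) = _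
    refine Finset.sum_congr rfl fun i _ => ?_
    rw [Prod.smul_fst, Pi.smul_apply, zsmul_eq_mul, mul_comm]
    rfl
  · rw [Prod.snd_sum]
    funext k
    rw [Finset.sum_apply]
    change ∑ i, A.per (Sum.inr k) i * (n i : ℂ) = _
    refine Finset.sum_congr rfl fun i _ => ?_
    rw [Prod.smul_snd, Pi.smul_apply, zsmul_eq_mul, mul_comm]
    rfl

theorem mem_G_int {g : ℕ} (hQ : Stmt_Qp) (A : AbVar g) (n : Idx g → ℤ) :
    ((pr (A.per *ᵥ fun i => (n i : ℂ)), fun j => (A.per *ᵥ fun i => (n i : ℂ)) (Sum.inr j)) :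
      (Fin g → ℂ) × (Fin g → ℂ)) ∈ G A := by
  rw [per_int]
  refine sum_mem fun i _ => ?_
  obtain ⟨m, hm | hm⟩ := Int.eq_nat_or_neg (n i)
  · rw [hm, natCast_zsmul]
    exact (G A).nsmul_mem (mem_G_pos hQ A i) m
  · rw [hm, neg_smul, ← smul_neg, natCast_zsmul]
    exact (G A).nsmul_mem (mem_G_neg hQ A i) m

/-- Local surjectivity of `w` of the functions on a subspace. -/
theorem map_nhds' {g w : ℕ} (A : AbVar g) (B : (Fin w → ℂ) →ₗ[ℂ] (Fin g → ℂ))
    (ks : Fin w → Fin A.nfun)
    (hks : ∀ v, (∀ j, fderiv ℂ (A.f (ks j)) 0 (B v) = 0) → v = 0) :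
    Filter.map (fun (z : Fin w → ℂ) (j : Fin w) => A.f (ks j) (B z)) (𝓝 0) =
      𝓝 (fun j => A.f (ks j) 0) := by
  set B' : (Fin w → ℂ) →L[ℂ] (Fin g → ℂ) := LinearMap.toContinuousLinearMap B with hB'
  have hB0 : B' 0 = 0 := map_zero B'
  set Φ' : (Fin w → ℂ) →L[ℂ] (Fin w → ℂ) :=
    ContinuousLinearMap.pi fun j => (fderiv ℂ (A.f (ks j)) 0).comp B' with hΦ'
  have h1 : HasStrictFDerivAt (fun (z : Fin w → ℂ) (j : Fin w) => A.f (ks j) (B z)) Φ' 0 := by
    rw [hasStrictFDerivAt_pi]
    intro j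
    have h2 : HasStrictFDerivAt (A.f (ks j)) (fderiv ℂ (A.f (ks j)) 0) (B' 0) := by
      rw [hB0]
      exact strict (f_diffAt A (ks j))
    exact h2.comp (0 : Fin w → ℂ) B'.hasStrictFDerivAt
  have h3 := h1.map_nhds_eq_of_surj (by
    have hinj : Function.Injective (Φ' : (Fin w → ℂ) →ₗ[ℂ] (Fin w → ℂ)) := by
      rw [← LinearMap.ker_eq_bot, LinearMap.ker_eq_bot']
      intro v hv
      refine hks v fun j => ?_
      have := congrFun hv j
      exact this
    exact LinearMap.range_eq_top.2 ((LinearMap.injective_iff_surjective).1 hinj))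
  rw [h3, map_zero]

/-- Algebraic independence of the functions `f_k` (`k ∈ ks`) and `H_j` (`j ∈ J`) on the image of `M`. -/
theorem indep {g d w m : ℕ} (A : AbVar g) (M : Matrix (Idx g) (Fin d) ℂ)
    (B : (Fin w → ℂ) →ₗ[ℂ] (Fin g → ℂ)) (hB : ∀ z, ∃ x : Fin d → ℂ, pr (M *ᵥ x) = B z)
    (ks : Fin w → Fin A.nfun)
    (hks : ∀ v, (∀ j, fderiv ℂ (A.f (ks j)) 0 (B v) = 0) → v = 0)
    (J : Fin m → Fin g) (X : AddSubmonoid (Fin m → ℂ))
    (hX : Submodule.span ℂ (X : Set (Fin m → ℂ)) = ⊤)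
    (hXG : ∀ s ∈ X, ∃ (u : Fin d → ℂ) (c : Fin g → ℂ),
      ((pr (M *ᵥ u), c) : (Fin g → ℂ) × (Fin g → ℂ)) ∈ G A ∧
      ∀ i, s i = c (J i) - (M *ᵥ u) (Sum.inr (J i)))
    (R : MvPolynomial (Fin w ⊕ Fin m) ℂ)
    (hR : ∀ x : Fin d → ℂ, A.θ (pr (M *ᵥ x)) ≠ 0 →
      MvPolynomial.eval (fun e => A.fH (Sum.map ks J e) (M *ᵥ x)) R = 0) : R = 0 := by
  classical
  -- the relation holds for all values of the additive coordinates
  have h1 : ∀ z : Fin w → ℂ, A.θ (B z) ≠ 0 → ∀ y : Fin m → ℂ,
      MvPolynomial.eval (Sum.elim (fun j => A.f (ks j) (B z)) y) R = 0 := by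
    intro z hz y
    obtain ⟨x, hx⟩ := hB z
    set x0 : Fin w → ℂ := fun j => A.f (ks j) (B z)
    set y0 : Fin m → ℂ := fun j => A.H (J j) (M *ᵥ x)
    set P : MvPolynomial (Fin m) ℂ := MvPolynomial.aeval
      (Sum.elim (fun j => MvPolynomial.C (x0 j)) (fun j => MvPolynomial.X j)) R with hP
    have hPe : ∀ y : Fin m → ℂ, MvPolynomial.eval y P = MvPolynomial.eval (Sum.elim x0 y) R := by
      intro y
      have key : (MvPolynomial.eval y).comp
          (MvPolynomial.aeval (Sum.elim (fun j => MvPolynomial.C (x0 j))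
            (fun j => MvPolynomial.X j)) :
            MvPolynomial (Fin w ⊕ Fin m) ℂ →ₐ[ℂ] MvPolynomial (Fin m) ℂ).toRingHom =
          MvPolynomial.eval (Sum.elim x0 y) := by
        apply MvPolynomial.ringHom_ext
        · intro i; simp
        · rintro (i | i) <;> simp
      exact DFunLike.congr_fun key R
    rw [← hPe]
    refine eval_eq_zero_of_group P y0 X hX (fun s hs => ?_) y
    obtain ⟨u, c, hu, hc⟩ := hXG s hs
    obtain ⟨g1, g2, g3⟩ := (mem_G A _).1 hu (B z) hz
    simp only at g1 g2 g3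
    have hpr : pr (M *ᵥ (x + u)) = B z + pr (M *ᵥ u) := by
      rw [Matrix.mulVec_add, pr_add, hx]
    have h2 := hR (x + u) (by rw [hpr]; exact g1)
    rw [hPe, ← h2]
    congr 1
    congr 1
    funext e
    rcases e with j | j
    · simp only [AbVar.fH, Sum.map_inl, Sum.elim_inl]
      rw [hpr, g2]
    · simp only [AbVar.fH, Sum.map_inr, Sum.elim_inr, Pi.add_apply, AbVar.H, y0]
      rw [hpr, g3, Matrix.mulVec_add, Pi.add_apply, hx, hc]
      ring
  -- the multiplicative coordinates cover an open set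
  have h2 : ∀ᶠ x in 𝓝 (fun j => A.f (ks j) 0), ∀ y : Fin m → ℂ,
      MvPolynomial.eval (Sum.elim x y) R = 0 := by
    rw [← map_nhds' A B ks hks, Filter.eventually_map]
    have h3 : ∀ᶠ z in 𝓝 (0 : Fin w → ℂ), A.θ (B z) ≠ 0 := by
      have hc : Continuous fun z : Fin w → ℂ => A.θ (B z) :=
        A.θ_entire.continuous.comp B.continuous_of_finiteDimensional
      refine hc.continuousAt.eventually_ne ?_
      rw [map_zero]
      exact A.θ_zero
    exact h3.mono fun z hz => h1 z hz
  refine MvPolynomial.funext fun v => ?_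
  rw [map_zero]
  set x : Fin w → ℂ := fun j => v (Sum.inl j)
  set y : Fin m → ℂ := fun j => v (Sum.inr j)
  set P : MvPolynomial (Fin w) ℂ := MvPolynomial.aeval
      (Sum.elim (fun j => MvPolynomial.X j) (fun j => MvPolynomial.C (y j))) R with hP
  have hPe : ∀ x : Fin w → ℂ, MvPolynomial.eval x P = MvPolynomial.eval (Sum.elim x y) R := by
    intro x
    have key : (MvPolynomial.eval x).comp
        (MvPolynomial.aeval (Sum.elim (fun j => MvPolynomial.X j)
          (fun j => MvPolynomial.C (y j))) :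
          MvPolynomial (Fin w ⊕ Fin m) ℂ →ₐ[ℂ] MvPolynomial (Fin w) ℂ).toRingHom =
        MvPolynomial.eval (Sum.elim x y) := by
      apply MvPolynomial.ringHom_ext
      · intro i; simp
      · rintro (i | i) <;> simp
    exact DFunLike.congr_fun key R
  have hP0 : P = 0 := eq_zero_of_nhds P _ (h2.mono fun x hx => by rw [hPe]; exact hx y)
  have h4 := hPe x
  rw [hP0, map_zero] at h4
  have hv : v = Sum.elim x y := by
    funext e
    rcases e with j | j <;> rfl
  rw [hv]
  exact h4.symm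

/-- A parametrisation of a subspace. -/
theorem exists_param {κ : Type} [Fintype κ] (E : Submodule ℂ (κ → ℂ)) (m : ℕ)
    (hm : Module.finrank ℂ E = m) :
    ∃ B : (Fin m → ℂ) →ₗ[ℂ] (κ → ℂ), Function.Injective B ∧ LinearMap.range B = E := by
  subst hm
  refine ⟨E.subtype ∘ₗ ((Module.finBasis ℂ E).equivFun.symm : (Fin _ → ℂ) →ₗ[ℂ] E), ?_, ?_⟩
  · exact E.injective_subtype.comp (LinearEquiv.injective _)
  · rw [LinearMap.range_comp, LinearEquiv.range, Submodule.map_top, Submodule.range_subtype]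

end T1BX

open T1BX T1X IndepX in
theorem t1b_proof (hSlav : Stmt_Slav) (hQ : Stmt_Qp) : Stmt_T1b := by
  classical
  intro g A D hrat halg n hn
  -- the matrix of periods is injective
  have hPu : IsUnit A.per := (Matrix.isUnit_iff_isUnit_det _).mpr A.nondeg
  have hPinj : Function.Injective A.per.mulVecLin := by
    have := Matrix.mulVec_injective_of_isUnit hPu
    exact this
  have hPker : LinearMap.ker A.per.mulVecLin = ⊥ := LinearMap.ker_eq_bot.mpr hPinj
  set D' : Submodule ℂ (Idx g → ℂ) := D.map A.per.mulVecLin with hD'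
  set d : ℕ := Module.finrank ℂ D with hd
  have hd' : Module.finrank ℂ D' = d :=
    (LinearEquiv.finrank_eq (Submodule.equivMapOfInjective _ hPinj D)).symm
  -- a basis of rational vectors and a basis of algebraic vectors
  have hspanQ : Submodule.span ℂ {v | v ∈ D ∧ ∀ k, ∃ q : ℚ, v k = q} = D :=
    le_antisymm (Submodule.span_le.mpr fun v hv => hv.1) hrat
  have hspanA : Submodule.span ℂ {v | v ∈ D' ∧ ∀ k, IsAlgebraic ℚ (v k)} = D' :=
    le_antisymm (Submodule.span_le.mpr fun v hv => hv.1) halg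
  obtain ⟨v, hv, hvli, hvspan⟩ := exists_basis D _ hspanQ d rfl
  obtain ⟨m, hm, hmli, hmspan⟩ := exists_basis D' _ hspanA d hd'
  choose N n' hn' using fun j => clear_den (v j) (hv j).2
  set M : Matrix (Idx g) (Fin d) ℂ := Matrix.of fun i j => m j i with hM
  have hMv : ∀ w : Fin d → ℂ, M *ᵥ w = ∑ j, w j • m j := by
    intro w
    funext i
    rw [Matrix.mulVec, dotProduct, Finset.sum_apply]
    refine Finset.sum_congr rfl fun j _ => ?_
    rw [Pi.smul_apply, smul_eq_mul, hM, Matrix.of_apply, mul_comm]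
  have hrange : ∀ x ∈ D', ∃ w : Fin d → ℂ, M *ᵥ w = x := by
    intro x hx
    rw [← hmspan, Submodule.mem_span_range_iff_exists_fun] at hx
    obtain ⟨w, hw⟩ := hx
    exact ⟨w, by rw [hMv, hw]⟩
  have hnD : ∀ j, (fun k => (n' j k : ℂ)) ∈ D := by
    intro j
    rw [← hn' j]
    exact D.smul_mem _ (hv j).1
  have hPn : ∀ j, ∃ u : Fin d → ℂ, M *ᵥ u = A.per *ᵥ (fun k => (n' j k : ℂ)) := fun j =>
    hrange _ ⟨_, hnD j, rfl⟩
  choose u hu using hPn
  have huli : LinearIndependent ℂ u := by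
    have h1 : LinearIndependent ℂ (fun j => (fun k => (n' j k : ℂ))) := by
      have h2 := hvli.units_smul N
      have h3 : N • v = fun j => (fun k => (n' j k : ℂ)) := by
        funext j
        rw [Pi.smul_apply', hn' j]
      rwa [h3] at h2
    have h4 := h1.map' A.per.mulVecLin hPker
    have h5 : (A.per.mulVecLin ∘ fun j => (fun k => (n' j k : ℂ))) = M.mulVecLin ∘ u := by
      funext j
      rw [Function.comp_apply, Function.comp_apply, Matrix.mulVecLin_apply,
        Matrix.mulVecLin_apply, hu j]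
    rw [h5] at h4
    exact h4.of_comp _
  -- the projection to `Lie A`
  let pL : (Idx g → ℂ) →ₗ[ℂ] (Fin g → ℂ) := LinearMap.funLeft ℂ ℂ (Sum.inl : Fin g → Idx g)
  have hpL : ∀ x, pL x = pr x := fun x => rfl
  have hW : lieIm A D = D'.map pL := by
    rw [hD', ← Submodule.map_comp]
    rfl
  set W : Submodule ℂ (Fin g → ℂ) := lieIm A D with hWdef
  set w : ℕ := Module.finrank ℂ W with hw
  have hwd : w ≤ d := by
    rw [hw, hW, ← hd']
    exact Submodule.finrank_map_le pL D'
  -- the vector `y`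
  set pn : Idx g → ℂ := A.per *ᵥ (fun i => (n i : ℂ)) with hpn
  obtain ⟨xu, hxu, hxun⟩ : ∃ x ∈ D', pr x = pr pn := by
    rw [hW] at hn
    obtain ⟨x, hx, hx'⟩ := hn
    exact ⟨x, hx, hx'⟩
  by_contra hnot
  have hpnD : pn ∉ D' := by
    rintro ⟨x, hx, hx'⟩
    have : x = fun i => (n i : ℂ) := hPinj hx'
    rw [this] at hx
    exact hnot hx
  set y : Idx g → ℂ := pn - xu with hy
  have hyD : y ∉ D' := by
    intro h
    apply hpnD
    have := D'.add_mem h hxu
    rwa [hy, sub_add_cancel] at this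
  have hpry : pL y = 0 := by
    rw [hy, map_sub, hpL, hpL, hxun, sub_self]
  set Nn : Submodule ℂ (Idx g → ℂ) := D' ⊓ LinearMap.ker pL with hNn
  have hNd : Module.finrank ℂ Nn + w = d := by
    have h1 := LinearMap.finrank_range_add_finrank_ker (pL.domRestrict D')
    have h2 : LinearMap.range (pL.domRestrict D') = W := by
      rw [hW, LinearMap.range_domRestrict]
    have h3 : Module.finrank ℂ (LinearMap.ker (pL.domRestrict D')) = Module.finrank ℂ Nn := by
      have h4 : Nn = (LinearMap.ker (pL.domRestrict D')).map D'.subtype := by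
        ext x
        simp only [hNn, Submodule.mem_map, Submodule.mem_inf, LinearMap.mem_ker]
        constructor
        · rintro ⟨h5, h6⟩
          exact ⟨⟨x, h5⟩, h6, rfl⟩
        · rintro ⟨z, h5, rfl⟩
          exact ⟨z.2, h5⟩
      rw [h4]
      exact (LinearEquiv.finrank_eq (Submodule.equivMapOfInjective _ D'.injective_subtype _))
    rw [h2, h3, hd'] at h1
    omega
  set N' : Submodule ℂ (Idx g → ℂ) := Nn ⊔ Submodule.span ℂ {y} with hN'
  have hyN : y ∉ Nn := fun h => hyD h.1
  have hN'd : Module.finrank ℂ N' = Module.finrank ℂ Nn + 1 := by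
    have hdisj : Nn ⊓ Submodule.span ℂ {y} = ⊥ := by
      rw [eq_bot_iff]
      rintro x ⟨hx1, hx2⟩
      obtain ⟨c, rfl⟩ := Submodule.mem_span_singleton.1 hx2
      rcases eq_or_ne c 0 with hc | hc
      · rw [hc, zero_smul]; exact Submodule.zero_mem _
      · exfalso
        apply hyN
        have := Nn.smul_mem c⁻¹ hx1
        rwa [smul_smul, inv_mul_cancel₀ hc, one_smul] at this
    have h1 := Submodule.finrank_sup_add_finrank_inf_eq Nn (Submodule.span ℂ {y})
    have hy0 : y ≠ 0 := by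
      rintro h0
      apply hyN
      rw [h0]
      exact Nn.zero_mem
    rw [hdisj, finrank_bot, finrank_span_singleton hy0, add_zero] at h1
    exact h1
  have hN'ker : ∀ x ∈ N', pL x = 0 := by
    intro x hx
    have hle : N' ≤ LinearMap.ker pL := by
      refine sup_le inf_le_right ?_
      rw [Submodule.span_le]
      rintro _ rfl
      exact hpry
    exact hle hx
  set m' : ℕ := Module.finrank ℂ Nn + 1 with hm'
  obtain ⟨E, hEinj, hErange⟩ := exists_param N' m' hN'd
  obtain ⟨B, hBinj, hBrange⟩ := exists_param W w rfl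
  -- choice of the functions
  obtain ⟨ks, hks⟩ := exists_ks (fun k => (((fderiv ℂ (A.f k) 0 : (Fin g → ℂ) →L[ℂ] ℂ) :
    (Fin g → ℂ) →ₗ[ℂ] ℂ)).comp B) (fun v hv => hBinj (by
      rw [map_zero]
      exact A.imm _ hv))
  obtain ⟨J, hJ⟩ := exists_ks (fun j : Fin g => (LinearMap.proj (Sum.inr j) :
    (Idx g → ℂ) →ₗ[ℂ] ℂ).comp E) (fun v hv => hEinj (by
      rw [map_zero]
      have h1 : pL (E v) = 0 := hN'ker _ (by rw [← hErange]; exact ⟨v, rfl⟩)
      funext i
      rcases i with i | i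
      · exact congrFun h1 i
      · exact hv i))
  -- the projection to the coordinates `J`
  let jL : (Idx g → ℂ) →ₗ[ℂ] (Fin m' → ℂ) :=
    LinearMap.funLeft ℂ ℂ (fun i : Fin m' => (Sum.inr (J i) : Idx g))
  have hjL : ∀ x i, jL x i = x (Sum.inr (J i)) := fun x i => rfl
  have hsurj : Function.Surjective (jL.comp E) := by
    rw [← LinearMap.injective_iff_surjective, ← LinearMap.ker_eq_bot, LinearMap.ker_eq_bot']
    intro v hv
    exact hJ v fun j => congrFun hv j
  -- the translations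
  let X : AddSubmonoid (Fin m' → ℂ) :=
    { carrier := {s | ∃ (u : Fin d → ℂ) (c : Fin g → ℂ),
        ((pr (M *ᵥ u), c) : (Fin g → ℂ) × (Fin g → ℂ)) ∈ G A ∧
        ∀ i, s i = c (J i) - (M *ᵥ u) (Sum.inr (J i))}
      zero_mem' := by
        refine ⟨0, 0, ?_, fun i => ?_⟩
        · rw [Matrix.mulVec_zero]
          exact (G A).zero_mem
        · simp
      add_mem' := by
        rintro s t ⟨u, c, h1, h2⟩ ⟨u', c', h1', h2'⟩
        refine ⟨u + u', c + c', ?_, fun i => ?_⟩
        · rw [Matrix.mulVec_add]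
          exact (G A).add_mem h1 h1'
        · rw [Matrix.mulVec_add, Pi.add_apply, Pi.add_apply, Pi.add_apply, h2, h2']
          ring }
  have hXmem : ∀ s, s ∈ X ↔ ∃ (u : Fin d → ℂ) (c : Fin g → ℂ),
        ((pr (M *ᵥ u), c) : (Fin g → ℂ) × (Fin g → ℂ)) ∈ G A ∧
        ∀ i, s i = c (J i) - (M *ᵥ u) (Sum.inr (J i)) := fun s => Iff.rfl
  have hXspan : Submodule.span ℂ (X : Set (Fin m' → ℂ)) = ⊤ := by
    rw [Submodule.eq_top_iff']
    intro s
    obtain ⟨a, rfl⟩ := hsurj s
    have h1 : E a ∈ N' := by rw [← hErange]; exact ⟨a, rfl⟩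
    have h2 : N' ≤ (Submodule.span ℂ (X : Set (Fin m' → ℂ))).comap jL := by
      refine sup_le ?_ ?_
      · intro x hx
        rw [Submodule.mem_comap]
        obtain ⟨c, hc⟩ := hrange x hx.1
        have h3 : jL (-x) ∈ X := by
          refine (hXmem _).2 ⟨c, 0, ?_, fun i => ?_⟩
          · rw [hc, ← hpL, LinearMap.mem_ker.1 hx.2]
            exact (G A).zero_mem
          · rw [hc, hjL]
            simp
        have h4 := Submodule.neg_mem _ (Submodule.subset_span (R := ℂ) h3)
        rwa [map_neg, neg_neg] at h4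
      · rw [Submodule.span_le]
        rintro _ rfl
        rw [SetLike.mem_coe, Submodule.mem_comap]
        refine Submodule.subset_span ?_
        obtain ⟨c, hc⟩ := hrange xu hxu
        refine (hXmem _).2 ⟨c, fun j => pn (Sum.inr j), ?_, fun i => ?_⟩
        · rw [hc, hxun]
          exact mem_G_int hQ A n
        · rw [hc, hjL]
          rfl
    exact h2 h1
  -- dimensions
  have hsum : d + 1 = w + m' := by omega
  -- the case `d = 0`
  rcases Nat.eq_zero_or_pos d with hd0 | hd1
  · apply hnot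
    have h1 : D = ⊥ := by
      rw [← Submodule.finrank_eq_zero (R := ℂ)]
      exact hd0
    have h2 : pr pn = 0 := by
      rw [hW, hD', h1, Submodule.map_bot, Submodule.map_bot, Submodule.mem_bot] at hn
      exact hn
    have h3 : ∑ i, (n i : ℝ) • A.lat i = 0 := by
      have h4 := congrArg Prod.fst (per_int A n)
      rw [Prod.fst_sum] at h4
      simp only at h4
      rw [← hpn, h2] at h4
      rw [h4]
      refine Finset.sum_congr rfl fun i _ => ?_
      rw [Prod.smul_fst, Int.cast_smul_eq_zsmul]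
    have h5 := Fintype.linearIndependent_iff.1 A.lat_indep _ h3
    have h6 : (fun i => (n i : ℂ)) = 0 := by
      funext i
      have := h5 i
      have h7 : n i = 0 := by exact_mod_cast this
      simp [h7]
    rw [h6]
    exact D.zero_mem
  -- the two theorems
  let ε : Fin (d + 1) ≃ Fin w ⊕ Fin m' := (finCongr hsum).trans finSumFinEquiv.symm
  obtain ⟨R, hR0, hR⟩ := hSlav g A d 1 (fun _ => M) u hd1
    (fun _ i j => (hm j).2 i) huli (fun _ j => ⟨n' j, hu j⟩)
    (fun i => (0, Sum.map ks J (ε i)))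
  have h1 : MvPolynomial.rename ε R = 0 := by
    refine indep A M B (fun z => ?_) ks (fun v hv => hks v hv) J X hXspan (fun s hs => hs) _ ?_
    · have h2 : B z ∈ W := by rw [← hBrange]; exact ⟨z, rfl⟩
      rw [hW] at h2
      obtain ⟨x, hx, hx'⟩ := h2
      obtain ⟨c, hc⟩ := hrange x hx
      exact ⟨c, by rw [hc]; exact hx'⟩
    · intro x hx
      rw [MvPolynomial.eval_rename]
      exact hR x (fun _ => hx)
  exact hR0 (MvPolynomial.rename_injective ε ε.injective (by rw [h1, map_zero]))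

end

end Pool.Agent.DRB
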