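import Pool.Agent.DRB.Stmts3
import Pool.Agent.DRB.Osgood
import Pool.Agent.DRB.Indep
import Pool.Agent.FDR.SL.AIDIR
import Pool.Agent.FDR.SL.AILEAF
import Pool.Agent.FDR.SL.AIMINOR

/-!
# T1C: the lattice points in the image `W` of a de Rham-Betti subobject span `W` over `ℝ`
-/

set_option autoImplicit false

open scoped BigOperators Topology
open Matrix Filter Metric

namespace Pool.Agent.DRB

noncomputable section

namespace T1CX

variable {g : ℕ} (A : AbVar g)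

theorem f_analyticAt (k : Fin A.nfun) (z : Fin g → ℂ) (hz : A.θ z ≠ 0) :
    AnalyticAt ℂ (A.f k) z := by
  have h := (osgood (A.num_entire k) z).div ((osgood A.θ_entire z).pow A.wt) (pow_ne_zero _ hz)
  exact h

/-- The lattice of periods. -/
def Lam : AddSubgroup (Fin g → ℂ) := AddSubgroup.closure (Set.range A.lat)

theorem pr_per (n : Idx g → ℤ) :
    pr (A.per *ᵥ (fun i => (n i : ℂ))) = ∑ i, (n i : ℂ) • A.lat i := by
  funext k
  rw [Finset.sum_apply]
  show ∑ i, A.per (Sum.inl k) i * (n i : ℂ) = _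
  refine Finset.sum_congr rfl fun i _ => ?_
  rw [Pi.smul_apply, smul_eq_mul, mul_comm]
  rfl

theorem mem_Lam {γ : Fin g → ℂ} (h : γ ∈ Lam A) :
    ∃ n : Idx g → ℤ, γ = pr (A.per *ᵥ (fun i => (n i : ℂ))) := by
  classical
  suffices h' : ∃ n : Idx g → ℤ, γ = ∑ i, (n i : ℂ) • A.lat i by
    obtain ⟨n, hn⟩ := h'
    exact ⟨n, by rw [pr_per, hn]⟩
  induction h using AddSubgroup.closure_induction with
  | mem x hx =>
    obtain ⟨i, rfl⟩ := hx
    refine ⟨Pi.single i 1, ?_⟩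
    rw [Finset.sum_eq_single i]
    · simp
    · intro j _ hj
      simp [Pi.single_eq_of_ne hj]
    · intro h
      exact absurd (Finset.mem_univ _) h
  | zero => exact ⟨0, by simp⟩
  | add x y _ _ hx hy =>
    obtain ⟨n, hn⟩ := hx
    obtain ⟨m, hm⟩ := hy
    refine ⟨n + m, ?_⟩
    rw [hn, hm, ← Finset.sum_add_distrib]
    refine Finset.sum_congr rfl fun i _ => ?_
    rw [← add_smul]
    simp
  | neg x _ hx =>
    obtain ⟨n, hn⟩ := hx
    refine ⟨-n, ?_⟩
    rw [hn, ← Finset.sum_neg_distrib]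
    refine Finset.sum_congr rfl fun i _ => ?_
    rw [← neg_smul]
    simp

/-- Invariance under periods. -/
theorem inv_Lam (hQ : Stmt_Qp) {γ : Fin g → ℂ} (h : γ ∈ Lam A) :
    ∀ z, (A.θ (z + γ) ≠ 0 ↔ A.θ z ≠ 0) ∧ (A.θ z ≠ 0 → ∀ k, A.f k (z + γ) = A.f k z) := by
  induction h using AddSubgroup.closure_induction with
  | mem x hx =>
    obtain ⟨i, rfl⟩ := hx
    intro z
    refine ⟨⟨fun h1 h2 => h1 ?_, fun h1 => (hQ g A i z h1).1⟩, fun h1 => (hQ g A i z h1).2.1⟩
    rw [A.θ_aut i z, h2, mul_zero]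
  | zero =>
    intro z
    simp
  | add x y _ _ hx hy =>
    intro z
    rw [← add_assoc]
    refine ⟨(hy (z + x)).1.trans (hx z).1, fun h1 k => ?_⟩
    rw [(hy (z + x)).2 ((hx z).1.mpr h1) k, (hx z).2 h1 k]
  | neg x _ hx =>
    intro z
    have h1 := hx (z + -x)
    rw [neg_add_cancel_right] at h1
    exact ⟨h1.1.symm, fun h2 k => (h1.2 (h1.1.mp h2) k).symm⟩

theorem span_Lam : Submodule.span ℝ (Lam A : Set (Fin g → ℂ)) = ⊤ := by
  have hcard : Fintype.card (Idx g) = Module.finrank ℝ (Fin g → ℂ) := by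
    rw [Module.finrank_pi_fintype]
    simp [Complex.finrank_real_complex]
    ring
  have h1 := A.lat_indep.span_eq_top_of_card_eq_finrank' hcard
  rw [eq_top_iff, ← h1]
  exact Submodule.span_mono AddSubgroup.subset_closure

end T1CX

open T1CX in
theorem t1c_proof (hT1a : Stmt_T1a) (hQ : Stmt_Qp) : Stmt_T1c := by
  classical
  intro g A D hRat hAlg v hv
  -- a parametrisation of `W`
  set w := Module.finrank ℂ (lieIm A D) with hw
  let b := Module.finBasis ℂ (lieIm A D)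
  let Al : (Fin w → ℂ) →ₗ[ℂ] (Fin g → ℂ) :=
    (lieIm A D).subtype.comp (b.equivFun.symm : (Fin w → ℂ) →ₗ[ℂ] lieIm A D)
  have hAinj : Function.Injective Al := by
    intro x y hxy
    exact b.equivFun.symm.injective (Subtype.ext hxy)
  have hAmem : ∀ x, Al x ∈ lieIm A D := fun x => (b.equivFun.symm x).2
  let AL : (Fin w → ℂ) →L[ℂ] (Fin g → ℂ) := LinearMap.toContinuousLinearMap Al
  have hAL : ∀ x, AL x = Al x := fun x => rfl
  -- local coordinates
  obtain ⟨ks, hks⟩ := IndepX.exists_ks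
    (fun k => ((fderiv ℂ (A.f k) 0 : (Fin g → ℂ) →L[ℂ] ℂ) : (Fin g → ℂ) →ₗ[ℂ] ℂ))
    (fun v hv => A.imm v (fun k => hv k))
  let U : (Fin g → ℂ) → (Fin g → ℂ) := fun z s => A.f (ks s) z
  have hUan : ∀ z, A.θ z ≠ 0 → ∀ s, AnalyticAt ℂ (fun z => U z s) z :=
    fun z hz s => f_analyticAt A (ks s) z hz
  have hUd : ∀ v s, fderiv ℂ U 0 v s = fderiv ℂ (A.f (ks s)) 0 v := by
    intro v s
    have h1 : HasFDerivAt U (ContinuousLinearMap.pi fun s => fderiv ℂ (A.f (ks s)) 0) 0 :=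
      hasFDerivAt_pi.mpr fun s => (f_analyticAt A (ks s) 0 A.θ_zero).differentiableAt.hasFDerivAt
    rw [h1.fderiv]
    rfl
  have hUinj : Function.Injective (fderiv ℂ U 0) := by
    rw [injective_iff_map_eq_zero]
    intro v hv
    refine hks v fun s => ?_
    have := congrFun hv s
    rw [hUd] at this
    exact this
  obtain ⟨φ, -, hφ⟩ := FDR.SL.AIMINOR.thm_AIMINOR g w
    (((fderiv ℂ U 0 : (Fin g → ℂ) →L[ℂ] (Fin g → ℂ)) : (Fin g → ℂ) →ₗ[ℂ] (Fin g → ℂ)).comp Al)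
    (fun x y hxy => hAinj (hUinj hxy))
  -- radius
  obtain ⟨ε, hε, hθ⟩ : ∃ ε : ℝ, 0 < ε ∧ ∀ z ∈ ball (0 : Fin g → ℂ) ε, A.θ z ≠ 0 := by
    have h1 : ∀ᶠ z in 𝓝 (0 : Fin g → ℂ), A.θ z ≠ 0 :=
      A.θ_entire.continuous.continuousAt.eventually_ne A.θ_zero
    exact Metric.eventually_nhds_iff_ball.1 h1
  -- relations
  have hrel : ∀ i : Fin g, ∃ R : MvPolynomial (Fin (w + 1)) ℂ, R ≠ 0 ∧
      ∀ z ∈ lieIm A D, A.θ z ≠ 0 → MvPolynomial.eval
        (fun j => A.f ((Fin.snoc (fun s => ks (φ s)) (ks i) : Fin (w + 1) → Fin A.nfun) j) z) R = 0 :=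
    fun i => hT1a g A D hRat hAlg (Fin.snoc (fun s => ks (φ s)) (ks i) : Fin (w + 1) → Fin A.nfun)
  choose P hP0 hP using hrel
  set S : Set (Fin g → ℂ) := {δ | ∃ γ ∈ Lam A, ∃ u ∈ lieIm A D, δ = u - γ} with hS
  obtain ⟨η, hη, hleaf⟩ := FDR.SL.AILEAF.thm_AILEAF g w U ε hε (fun i z hz => hUan z (hθ z hz) i)
    hUinj AL φ hφ P hP0 S (by
      rintro δ ⟨γ, hγ, u, hu, rfl⟩ x hx i
      have h1 := hθ _ hx
      have h2 := inv_Lam A hQ hγ (u - γ + AL x)
      have h3 : u - γ + AL x + γ = u + AL x := by abel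
      rw [h3] at h2
      have h4 := hP i (u + AL x) (Submodule.add_mem _ hu (hAmem x)) (h2.1.mpr h1)
      have h5 : (fun j => A.f ((Fin.snoc (fun s => ks (φ s)) (ks i) : Fin (w + 1) → Fin A.nfun) j)
          (u + AL x)) = (Fin.snoc (fun s => U (u - γ + AL x) (φ s)) (U (u - γ + AL x) i) :
            Fin (w + 1) → ℂ) := by
        funext j
        rw [h2.2 h1]
        refine Fin.lastCases ?_ (fun j => ?_) j
        · simp [U]
        · simp [U]
      rw [h5] at h4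
      exact h4)
  -- approximation
  set T : Set (Fin g → ℂ) := {z : Fin g → ℂ | z ∈ lieIm A D ∧
    ∃ n : Idx g → ℤ, z = pr (A.per *ᵥ (fun i => (n i : ℂ)))} with hT
  have hclosed : IsClosed (Submodule.span ℝ T : Set (Fin g → ℂ)) :=
    Submodule.closed_of_finiteDimensional _
  have hmem : v ∈ closure (Submodule.span ℝ T : Set (Fin g → ℂ)) := by
    rw [Metric.mem_closure_iff]
    intro e he
    obtain ⟨n, hn, γ, hγ, hlt⟩ := FDR.SL.AIDIR.thm_AIDIR g (Lam A) (span_Lam A) v (min η e)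
      (lt_min hη he) 1
    have hnpos : (0 : ℝ) < n := by exact_mod_cast hn
    have hnc : (n : ℂ) ≠ 0 := by
      have : n ≠ 0 := by omega
      exact_mod_cast this
    obtain ⟨x, hx⟩ := hleaf ((n : ℂ) • v - γ)
      ⟨γ, hγ, (n : ℂ) • v, Submodule.smul_mem _ _ hv, rfl⟩ (hlt.trans_le (min_le_left _ _))
    have hγW : γ ∈ lieIm A D := by
      have : γ = (n : ℂ) • v - AL x := by
        rw [← hx]
        abel
      rw [this]
      exact Submodule.sub_mem _ (Submodule.smul_mem _ _ hv) (hAmem x)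
    refine ⟨((n : ℝ)⁻¹) • γ, Submodule.smul_mem _ _ (Submodule.subset_span ⟨hγW, mem_Lam A hγ⟩), ?_⟩
    have h1 : v - ((n : ℝ)⁻¹) • γ = ((n : ℝ)⁻¹) • ((n : ℂ) • v - γ) := by
      rw [smul_sub]
      congr 1
      funext k
      simp only [Pi.smul_apply, smul_eq_mul, Complex.real_smul]
      push_cast
      field_simp
    rw [dist_eq_norm, h1, norm_smul, norm_inv, Real.norm_eq_abs, abs_of_pos hnpos]
    have h2 : ‖(n : ℂ) • v - γ‖ < e := hlt.trans_le (min_le_right _ _)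
    have h3 : (n : ℝ)⁻¹ ≤ 1 := by
      apply inv_le_one_of_one_le₀
      exact_mod_cast hn
    exact (mul_le_of_le_one_left (norm_nonneg _) h3).trans_lt h2
  rw [hclosed.closure_eq] at hmem
  exact hmem

end

end Pool.Agent.DRB
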