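import Pool.Agent.DRB.Stmts3
import Pool.Agent.DRB.Pos

/-!
# DRB / T1E: a de Rham-Betti subobject of `H_1(A)` is the image of a symmetric idempotent endomorphism
-/

open scoped BigOperators Topology
open Matrix

namespace Pool.Agent.DRB

noncomputable section

namespace T1EX

open PosX

variable {g : ℕ} (A : AbVar g)

/-- The map to `Lie A`. -/
def zz (v : Idx g → ℂ) : Fin g → ℂ := pr (A.per *ᵥ v)

theorem zz_add (v w : Idx g → ℂ) : zz A (v + w) = zz A v + zz A w := by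
  unfold zz
  rw [Matrix.mulVec_add]
  rfl

theorem zz_smul (c : ℂ) (v : Idx g → ℂ) : zz A (c • v) = c • zz A v := by
  unfold zz
  rw [Matrix.mulVec_smul]
  rfl

theorem zz_eq (v : Idx g → ℂ) : zz A v = ∑ i, v i • A.lat i := pr_per A v

theorem bil {h : Matrix (Fin g) (Fin g) ℂ} (hh : h.IsHermitian)
    (hE : ∀ i j, A.riem i j =
      ((∑ k, ∑ l, A.lat i k * h k l * (starRingEnd ℂ) (A.lat j l)).im : ℂ))
    (v w : Idx g → ℂ) :
    2 * Complex.I * (v ⬝ᵥ (A.riem *ᵥ cv w)) =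
      Hf h (zz A v) (zz A w) - Hf h (zz A (cv w)) (zz A (cv v)) := by
  have h1 : Hf h (zz A v) (zz A w) =
      ∑ i, ∑ j, v i * (starRingEnd ℂ) (w j) * Hf h (A.lat i) (A.lat j) := by
    rw [zz_eq, zz_eq, Hf_sum_left]
    refine Finset.sum_congr rfl fun i _ => ?_
    rw [Hf_sum_right]
    refine Finset.sum_congr rfl fun j _ => ?_
    rw [Hf_smul_left, Hf_smul_right]
    ring
  have h2 : Hf h (zz A (cv w)) (zz A (cv v)) =
      ∑ i, ∑ j, v i * (starRingEnd ℂ) (w j) * Hf h (A.lat j) (A.lat i) := by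
    rw [zz_eq, zz_eq, Hf_sum_left, Finset.sum_comm]
    refine Finset.sum_congr rfl fun i _ => ?_
    rw [Hf_sum_right]
    refine Finset.sum_congr rfl fun j _ => ?_
    rw [Hf_smul_left, Hf_smul_right]
    simp only [cv, Complex.conj_conj]
    ring
  have h3 : ∀ i j, 2 * Complex.I * A.riem i j =
      Hf h (A.lat i) (A.lat j) - Hf h (A.lat j) (A.lat i) := by
    intro i j
    rw [hE i j, ← Hf_conj hh (A.lat i) (A.lat j)]
    have := Complex.sub_conj (Hf h (A.lat i) (A.lat j))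
    rw [this]
    unfold Hf
    push_cast
    ring
  rw [h1, h2, ← Finset.sum_sub_distrib]
  simp only [dotProduct, Matrix.mulVec, Finset.mul_sum]
  refine Finset.sum_congr rfl fun i _ => ?_
  rw [← Finset.sum_sub_distrib]
  refine Finset.sum_congr rfl fun j _ => ?_
  rw [← mul_sub, ← h3 i j]
  simp only [cv]
  ring

theorem cv_cv (v : Idx g → ℂ) : cv (cv v) = v := by
  funext i
  simp [cv]

/-- A vector killed together with its conjugate is zero. -/
theorem eq_zero_of {v : Idx g → ℂ} (h1 : zz A v = 0) (h2 : zz A (cv v) = 0) : v = 0 := by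
  have e1 : (2 : ℂ) • cx (fun i => (v i).re) = v + cv v := by
    funext i
    simp only [cx, cv, Pi.smul_apply, Pi.add_apply, smul_eq_mul, Complex.add_conj]
    push_cast
    ring
  have e2 : (2 * Complex.I) • cx (fun i => (v i).im) = v + (-1 : ℂ) • cv v := by
    funext i
    simp only [cx, cv, Pi.smul_apply, Pi.add_apply, smul_eq_mul]
    have := Complex.sub_conj (v i)
    rw [neg_one_mul, ← sub_eq_add_neg, this]
    push_cast
    ring
  have k1 : zz A (cx fun i => (v i).re) = 0 := by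
    have := congrArg (zz A) e1
    rw [zz_smul, zz_add, h1, h2, add_zero] at this
    rcases smul_eq_zero.1 this with h | h
    · norm_num at h
    · exact h
  have k2 : zz A (cx fun i => (v i).im) = 0 := by
    have := congrArg (zz A) e2
    rw [zz_smul, zz_add, zz_smul, h1, h2, smul_zero, add_zero] at this
    rcases smul_eq_zero.1 this with h | h
    · simp at h
    · exact h
  have l1 := inj A _ k1
  have l2 := inj A _ k2
  funext i
  apply Complex.ext
  · exact congrFun l1 i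
  · exact congrFun l2 i

theorem skew (hsk : A.riemᵀ = - A.riem) (v w : Idx g → ℂ) :
    v ⬝ᵥ (A.riem *ᵥ w) = - (w ⬝ᵥ (A.riem *ᵥ v)) := by
  have h1 : w ⬝ᵥ (A.riem *ᵥ v) = v ⬝ᵥ (A.riemᵀ *ᵥ w) := by
    rw [Matrix.mulVec_transpose, Matrix.dotProduct_mulVec, dotProduct_comm]
  rw [h1, hsk, Matrix.neg_mulVec, dotProduct_neg, neg_neg]

theorem defK {h : Matrix (Fin g) (Fin g) ℂ} (hh : h.IsHermitian)
    (hpos : ∀ z : Fin g → ℂ, z ≠ 0 → 0 < (∑ k, ∑ l, z k * h k l * (starRingEnd ℂ) (z l)).re)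
    (hE : ∀ i j, A.riem i j =
      ((∑ k, ∑ l, A.lat i k * h k l * (starRingEnd ℂ) (A.lat j l)).im : ℂ))
    {v : Idx g → ℂ} (hv : zz A v = 0) (h0 : v ⬝ᵥ (A.riem *ᵥ cv v) = 0) : v = 0 := by
  have h1 := bil A hh hE v v
  rw [h0, mul_zero, hv, Hf_zero_right, zero_sub, zero_eq_neg] at h1
  by_contra hne
  have h2 : zz A (cv v) ≠ 0 := fun h2 => hne (eq_zero_of A hv h2)
  have h3 := hpos _ h2
  have h4 : (∑ k, ∑ l, zz A (cv v) k * h k l * (starRingEnd ℂ) (zz A (cv v) l)) = 0 := h1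
  rw [h4] at h3
  simp at h3

theorem defKb {h : Matrix (Fin g) (Fin g) ℂ} (hh : h.IsHermitian)
    (hpos : ∀ z : Fin g → ℂ, z ≠ 0 → 0 < (∑ k, ∑ l, z k * h k l * (starRingEnd ℂ) (z l)).re)
    (hE : ∀ i j, A.riem i j =
      ((∑ k, ∑ l, A.lat i k * h k l * (starRingEnd ℂ) (A.lat j l)).im : ℂ))
    (hsk : A.riemᵀ = - A.riem)
    {v : Idx g → ℂ} (hv : zz A (cv v) = 0) (h0 : v ⬝ᵥ (A.riem *ᵥ cv v) = 0) : v = 0 := by
  have h1 : cv v ⬝ᵥ (A.riem *ᵥ cv (cv v)) = 0 := by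
    rw [cv_cv, skew A hsk, h0, neg_zero]
  have h2 := defK A hh hpos hE hv h1
  rw [← cv_cv v, h2]
  funext i
  simp [cv]

theorem perp {h : Matrix (Fin g) (Fin g) ℂ} (hh : h.IsHermitian)
    (hE : ∀ i j, A.riem i j =
      ((∑ k, ∑ l, A.lat i k * h k l * (starRingEnd ℂ) (A.lat j l)).im : ℂ))
    {v b : Idx g → ℂ} (hv : zz A v = 0) (hb : zz A (cv b) = 0) :
    v ⬝ᵥ (A.riem *ᵥ cv b) = 0 := by
  have h1 := bil A hh hE v b
  have h2 : ∀ w : Fin g → ℂ, Hf h 0 w = 0 := by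
    intro w
    simp [Hf]
  rw [hv, hb, h2, h2, sub_zero] at h1
  rcases mul_eq_zero.1 h1 with h3 | h3
  · simp at h3
  · exact h3

/-- A rational subspace is stable under complex conjugation. -/
theorem cv_mem {D : Submodule ℂ (Idx g → ℂ)} (hD : RatSpan D) {v : Idx g → ℂ} (hv : v ∈ D) :
    cv v ∈ D := by
  have h1 := hD hv
  induction h1 using Submodule.span_induction with
  | mem x hx =>
    have : cv x = x := by
      funext i
      obtain ⟨q, hq⟩ := hx.2 i
      simp [cv, hq]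
    rw [this]
    exact hx.1
  | zero =>
    have : cv (0 : Idx g → ℂ) = 0 := by
      funext i
      simp [cv]
    rw [this]
    exact D.zero_mem
  | add x y hx hy ihx ihy =>
    have : cv (x + y) = cv x + cv y := by
      funext i
      simp [cv]
    rw [this]
    have hle : Submodule.span ℂ {v | v ∈ D ∧ ∀ k, ∃ q : ℚ, v k = q} ≤ D :=
      Submodule.span_le.2 fun w hw => hw.1
    exact D.add_mem (ihx (hle hx)) (ihy (hle hy))
  | smul c x hx ihx =>
    have : cv (c • x) = (starRingEnd ℂ) c • cv x := by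
      funext i
      simp [cv]
    rw [this]
    have hle : Submodule.span ℂ {v | v ∈ D ∧ ∀ k, ∃ q : ℚ, v k = q} ≤ D :=
      Submodule.span_le.2 fun w hw => hw.1
    exact D.smul_mem _ (ihx (hle hx))

/-- A basis with entries in a given set. -/
theorem exists_mat (D : Submodule ℂ (Idx g → ℂ)) (p : ℂ → Prop) (d : ℕ)
    (hd : Module.finrank ℂ D = d)
    (hD : D ≤ Submodule.span ℂ {v | v ∈ D ∧ ∀ k, p (v k)}) :
    ∃ N : Matrix (Idx g) (Fin d) ℂ, (∀ i j, p (N i j)) ∧ (∀ u, N *ᵥ u = 0 → u = 0) ∧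
      ∀ v, v ∈ D ↔ ∃ u, v = N *ᵥ u := by
  set S : Set (Idx g → ℂ) := {v | v ∈ D ∧ ∀ k, p (v k)} with hS
  have hspan : Submodule.span ℂ S = D :=
    le_antisymm (Submodule.span_le.2 fun w hw => hw.1) hD
  obtain ⟨b, hbS, hbspan, hbli⟩ := exists_linearIndependent ℂ S
  rw [hspan] at hbspan
  have : Fintype b := hbli.setFinite.fintype
  have hcard : Fintype.card b = d := by
    rw [← hd, ← hbspan]
    exact (finrank_span_set_eq_card hbli).symm ▸ (Set.toFinset_card b).symm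
  let e : Fin d ≃ b := (Fintype.equivFinOfCardEq hcard).symm
  let N : Matrix (Idx g) (Fin d) ℂ := Matrix.of fun i j => (e j).1 i
  have hN : ∀ u, N *ᵥ u = ∑ j, u j • (e j).1 := by
    intro u
    funext i
    simp only [Matrix.mulVec, dotProduct, N, Matrix.of_apply, Finset.sum_apply, Pi.smul_apply,
      smul_eq_mul]
    exact Finset.sum_congr rfl fun j _ => mul_comm _ _
  have hli : LinearIndependent ℂ fun j : Fin d => (e j).1 := hbli.comp e e.injective
  refine ⟨N, fun i j => (hbS (e j).2).2 i, fun u hu => ?_, fun v => ?_⟩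
  · rw [hN] at hu
    funext j
    exact Fintype.linearIndependent_iff.1 hli u hu j
  · have hr : Set.range (fun j : Fin d => (e j).1) = b := by
      ext x
      constructor
      · rintro ⟨j, rfl⟩
        exact (e j).2
      · intro hx
        exact ⟨e.symm ⟨x, hx⟩, by simp⟩
    rw [← hbspan, ← hr, Submodule.mem_span_range_iff_exists_fun]
    constructor
    · rintro ⟨c, hc⟩
      exact ⟨c, by rw [hN, hc]⟩
    · rintro ⟨u, hu⟩
      exact ⟨u, by rw [hu, hN]⟩

theorem det_ne_zero_of_inj {d : ℕ} {G : Matrix (Fin d) (Fin d) ℂ} (h : ∀ u, G *ᵥ u = 0 → u = 0) :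
    G.det ≠ 0 := by
  intro h0
  obtain ⟨v, hv, hv0⟩ := Matrix.exists_mulVec_eq_zero_iff.2 h0
  exact hv (h v hv0)

/-- The inverse of an invertible matrix with entries in a subfield. -/
theorem inv_sub {F : Type} [Field F] (φ : F →+* ℂ) {d : ℕ} (G : Matrix (Fin d) (Fin d) F)
    (h : (G.map φ).det ≠ 0) : G.map φ * G⁻¹.map φ = 1 ∧ G⁻¹.map φ * G.map φ = 1 := by
  have h1 : (G.map φ).det = φ G.det := by
    rw [RingHom.map_det]
    rfl
  have h2 : IsUnit G.det := by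
    rw [isUnit_iff_ne_zero]
    intro h0
    rw [h1, h0, map_zero] at h
    exact h rfl
  constructor
  · rw [← Matrix.map_mul, Matrix.mul_nonsing_inv _ h2]
    exact Matrix.map_one _ (map_zero φ) (map_one φ)
  · rw [← Matrix.map_mul, Matrix.nonsing_inv_mul _ h2]
    exact Matrix.map_one _ (map_zero φ) (map_one φ)

theorem alg_Jm (r s : Idx g) : IsAlgebraic ℚ (Jm g r s) := by
  rcases r with r | r <;> rcases s with s | s
  · simpa [Jm] using isAlgebraic_zero
  · simp only [Jm, Matrix.fromBlocks_apply₁₂, Matrix.one_apply]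
    split_ifs
    · exact isAlgebraic_one
    · exact isAlgebraic_zero
  · simp only [Jm, Matrix.fromBlocks_apply₂₁, Matrix.neg_apply, Matrix.one_apply]
    split_ifs
    · exact isAlgebraic_one.neg
    · exact isAlgebraic_zero.neg
  · simpa [Jm] using isAlgebraic_zero

theorem alg_mul {ι κ μ : Type} [Fintype κ] {X : Matrix ι κ ℂ} {Y : Matrix κ μ ℂ}
    (hX : ∀ i j, IsAlgebraic ℚ (X i j)) (hY : ∀ i j, IsAlgebraic ℚ (Y i j)) (i : ι) (j : μ) :
    IsAlgebraic ℚ ((X * Y) i j) := by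
  rw [Matrix.mul_apply]
  exact AbVar.isAlgebraic_sum _ _ fun k _ => (hX i k).mul (hY k j)

theorem perp2 {h : Matrix (Fin g) (Fin g) ℂ} (hh : h.IsHermitian)
    (hE : ∀ i j, A.riem i j =
      ((∑ k, ∑ l, A.lat i k * h k l * (starRingEnd ℂ) (A.lat j l)).im : ℂ))
    {a b : Idx g → ℂ} (ha : zz A a = 0) (hb : zz A (cv b) = 0) :
    b ⬝ᵥ (A.riem *ᵥ cv a) = 0 := by
  have h1 := bil A hh hE b a
  rw [ha, hb, Hf_zero_right, Hf_zero_right, sub_zero] at h1
  rcases mul_eq_zero.1 h1 with h3 | h3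
  · simp at h3
  · exact h3

end T1EX

open T1EX in
theorem t1e_proof (hT : Stmt_T1p) (hH : Stmt_Herm) (hL : Stmt_Leg) : Stmt_T1e := by
  intro g A D hrat halg
  obtain ⟨hint, hleg, hdet, hsk⟩ := hL g A
  obtain ⟨h, hh, hpos, hE⟩ := hH g A
  have hP : IsUnit A.per.det := A.nondeg
  -- the basis of D
  obtain ⟨d, hd⟩ : ∃ d, Module.finrank ℂ D = d := ⟨_, rfl⟩
  obtain ⟨N, hNq, hNinj, hND⟩ := exists_mat D (fun z => ∃ q : ℚ, z = q) d hd hrat
  have hPinj : Function.Injective A.per.mulVecLin := by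
    intro x y hxy
    have h1 : A.per *ᵥ x = A.per *ᵥ y := hxy
    have h2 := congrArg (fun w => A.per⁻¹ *ᵥ w) h1
    simpa only [Matrix.mulVec_mulVec, Matrix.nonsing_inv_mul _ hP, Matrix.one_mulVec] using h2
  have hd2 : Module.finrank ℂ (D.map A.per.mulVecLin) = d := by
    rw [← hd]
    exact (Submodule.equivMapOfInjective A.per.mulVecLin hPinj D).finrank_eq.symm
  obtain ⟨M, hMa, hMinj, hMD⟩ :=
    exists_mat (D.map A.per.mulVecLin) (fun z => IsAlgebraic ℚ z) d hd2 halg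
  -- rational versions
  choose Nq hNq' using hNq
  choose rz hrz using hint
  let φ : ℚ →+* ℂ := algebraMap ℚ ℂ
  obtain ⟨Rq, hRq⟩ : ∃ Rq : Matrix (Idx g) (Idx g) ℚ, Rq.map φ = A.riem := by
    refine ⟨Matrix.of fun i j => (rz i j : ℚ), ?_⟩
    ext i j
    simp [φ, hrz i j]
  obtain ⟨N0, hN0⟩ : ∃ N0 : Matrix (Idx g) (Fin d) ℚ, N0.map φ = N := by
    refine ⟨Matrix.of fun i j => Nq i j, ?_⟩
    ext i j
    simp [φ, hNq' i j]
  obtain ⟨G0, hG0⟩ : ∃ G0 : Matrix (Fin d) (Fin d) ℚ, G0 = N0ᵀ * Rq * N0 := ⟨_, rfl⟩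
  have hG : G0.map φ = Nᵀ * A.riem * N := by
    rw [hG0, Matrix.map_mul, Matrix.map_mul, hRq, hN0, ← hN0, Matrix.transpose_map]
  -- nondegeneracy
  have hnd : ∀ v ∈ D, (∀ w ∈ D, w ⬝ᵥ (A.riem *ᵥ v) = 0) → v = 0 := by
    intro v hv hw
    obtain ⟨a, ha, b, hb, rfl, hza, hzb⟩ := hT g A D hrat halg v hv
    have h1 : ∀ w ∈ D, (a + b) ⬝ᵥ (A.riem *ᵥ w) = 0 := by
      intro w hw'
      rw [skew A hsk, hw w hw', neg_zero]
    have ha0 : a = 0 := by
      have h2 := h1 (cv a) (cv_mem hrat ha)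
      rw [add_dotProduct, perp2 A hh hE hza hzb, add_zero] at h2
      exact defK A hh hpos hE hza h2
    have hb0 : b = 0 := by
      have h2 := h1 (cv b) (cv_mem hrat hb)
      rw [add_dotProduct, perp A hh hE hza hzb, zero_add] at h2
      exact defKb A hh hpos hE hsk hzb h2
    rw [ha0, hb0, add_zero]
  have hGdet : (G0.map φ).det ≠ 0 := by
    apply det_ne_zero_of_inj
    intro u hu
    apply hNinj
    apply hnd _ ((hND _).2 ⟨u, rfl⟩)
    intro w hw
    obtain ⟨y, rfl⟩ := (hND w).1 hw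
    rw [hG] at hu
    have h1 : (N *ᵥ y) ⬝ᵥ (A.riem *ᵥ (N *ᵥ u)) = y ⬝ᵥ ((Nᵀ * A.riem * N) *ᵥ u) := by
      rw [← Matrix.mulVec_mulVec, ← Matrix.mulVec_mulVec, Matrix.dotProduct_mulVec y,
        Matrix.vecMul_transpose]
    rw [h1, hu, dotProduct_zero]
  obtain ⟨hGi1, hGi2⟩ := inv_sub φ G0 hGdet
  set Gi : Matrix (Fin d) (Fin d) ℂ := G0⁻¹.map φ with hGi
  rw [hG] at hGi1 hGi2
  -- the endomorphism
  set α : Matrix (Idx g) (Idx g) ℚ := N0 * G0⁻¹ * N0ᵀ * Rq with hα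
  have hαC : AbVar.toC α = N * Gi * Nᵀ * A.riem := by
    show (N0 * G0⁻¹ * N0ᵀ * Rq).map φ = _
    rw [Matrix.map_mul, Matrix.map_mul, Matrix.map_mul, hRq, hN0, ← hN0, Matrix.transpose_map]
  have hαN : AbVar.toC α * N = N := by
    rw [hαC]
    have : N * Gi * Nᵀ * A.riem * N = N * (Gi * (Nᵀ * A.riem * N)) := by
      simp only [Matrix.mul_assoc]
    rw [this, hGi2, Matrix.mul_one]
  have hαD : ∀ v, AbVar.toC α *ᵥ v ∈ D := by
    intro v
    rw [hND]
    refine ⟨(Gi * Nᵀ * A.riem) *ᵥ v, ?_⟩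
    rw [Matrix.mulVec_mulVec, hαC]
    simp only [Matrix.mul_assoc]
  have hfix : ∀ v, v ∈ D → AbVar.toC α *ᵥ v = v := by
    intro v hv
    obtain ⟨u, rfl⟩ := (hND v).1 hv
    rw [Matrix.mulVec_mulVec, hαN]
  have hGit : Giᵀ = - Gi := by
    have h1 : (Nᵀ * A.riem * N)ᵀ = - (Nᵀ * A.riem * N) := by
      rw [Matrix.transpose_mul, Matrix.transpose_mul, Matrix.transpose_transpose, hsk,
        Matrix.neg_mul, Matrix.mul_neg, Matrix.mul_assoc]
    have h2 := congrArg Matrix.transpose hGi1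
    rw [Matrix.transpose_mul, h1, Matrix.transpose_one, Matrix.mul_neg] at h2
    have h3 : Giᵀ * (Nᵀ * A.riem * N) * Gi = Giᵀ := by
      rw [Matrix.mul_assoc, hGi1, Matrix.mul_one]
    rw [← h3, neg_eq_iff_eq_neg.1 h2, Matrix.neg_mul, Matrix.one_mul]
  have hros : A.IsRosati α α := by
    unfold AbVar.IsRosati
    rw [hαC, Matrix.transpose_mul, Matrix.transpose_mul, Matrix.transpose_mul,
      Matrix.transpose_transpose, hsk, hGit]
    simp only [Matrix.neg_mul, Matrix.mul_neg, neg_neg, Matrix.mul_assoc]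
  have hidem : α * α = α := by
    have h1 : AbVar.toC (α * α) = AbVar.toC α := by
      have h2 : AbVar.toC α * (N * (Gi * Nᵀ * A.riem)) = N * (Gi * Nᵀ * A.riem) := by
        rw [← Matrix.mul_assoc, hαN]
      have h3 : N * (Gi * Nᵀ * A.riem) = AbVar.toC α := by
        rw [hαC]
        simp only [Matrix.mul_assoc]
      rw [h3] at h2
      rw [AbVar.toC_mul, h2]
    ext i j
    have h2 := congrFun (congrFun h1 i) j
    simp only [AbVar.toC, Matrix.map_apply] at h2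
    exact (algebraMap ℚ ℂ).injective h2
  -- the algebraic basis
  have hC : ∃ C : Matrix (Fin d) (Fin d) ℂ, A.per * N = M * C := by
    have h1 : ∀ j : Fin d, ∃ u : Fin d → ℂ, A.per *ᵥ (N *ᵥ Pi.single j 1) = M *ᵥ u := by
      intro j
      exact (hMD _).1 ⟨_, (hND _).2 ⟨_, rfl⟩, rfl⟩
    choose c hc using h1
    refine ⟨Matrix.of fun i j => c j i, ?_⟩
    ext i j
    have h2 := congrFun (hc j) i
    rw [Matrix.mulVec_mulVec, Matrix.mulVec_single_one] at h2
    exact h2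
  obtain ⟨C, hC⟩ := hC
  have e1 : tpi • (A.riem * A.per⁻¹) = A.perᵀ * Jm g := by
    rw [← Matrix.smul_mul, ← hleg, Matrix.mul_assoc, Matrix.mul_nonsing_inv _ hP, Matrix.mul_one]
  have e2 : (A.per * N)ᵀ * Jm g * (A.per * N) = tpi • (Nᵀ * A.riem * N) := by
    rw [← Matrix.smul_mul, ← Matrix.mul_smul, ← hleg, Matrix.transpose_mul]
    simp only [Matrix.mul_assoc]
  have e3 : Cᵀ * ((Mᵀ * Jm g * M) * C) = tpi • (Nᵀ * A.riem * N) := by
    rw [← e2, hC, Matrix.transpose_mul]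
    simp only [Matrix.mul_assoc]
  have e4 : Cᵀ * ((Mᵀ * Jm g * M) * C * Gi) = tpi • 1 := by
    have : Cᵀ * ((Mᵀ * Jm g * M) * C * Gi) = (Cᵀ * ((Mᵀ * Jm g * M) * C)) * Gi := by
      simp only [Matrix.mul_assoc]
    rw [this, e3, Matrix.smul_mul, hGi1]
  have e5 : (tpi⁻¹ • ((Mᵀ * Jm g * M) * C * Gi)) * Cᵀ = 1 := by
    rw [_root_.mul_eq_one_comm, Matrix.mul_smul, e4, smul_smul, inv_mul_cancel₀ tpi_ne_zero,
      one_smul]
  have e6 : (Mᵀ * Jm g * M) * (C * Gi * Cᵀ) = tpi • 1 := by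
    rw [Matrix.smul_mul] at e5
    have := congrArg (fun X => tpi • X) e5
    simp only [smul_smul, mul_inv_cancel₀ tpi_ne_zero, one_smul] at this
    rw [← this]
    simp only [Matrix.mul_assoc]
  -- the matrix M over the algebraic numbers
  let ψ : (algebraicClosure ℚ ℂ) →+* ℂ := algebraMap (algebraicClosure ℚ ℂ) ℂ
  obtain ⟨Q0, hQ0⟩ : ∃ Q0 : Matrix (Fin d) (Fin d) (algebraicClosure ℚ ℂ),
      Q0.map ψ = Mᵀ * Jm g * M := by
    have h1 : ∀ i j, IsAlgebraic ℚ ((Mᵀ * Jm g * M) i j) := fun i j =>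
      alg_mul (fun i j => alg_mul (fun i j => hMa j i) alg_Jm i j) hMa i j
    refine ⟨Matrix.of fun i j => ⟨(Mᵀ * Jm g * M) i j, mem_algebraicClosure_iff.2 (h1 i j)⟩, ?_⟩
    ext i j
    rfl
  have hQdet : (Q0.map ψ).det ≠ 0 := by
    rw [hQ0]
    intro h0
    have := congrArg Matrix.det e6
    rw [Matrix.det_mul, h0, zero_mul, Matrix.det_smul, Matrix.det_one, mul_one] at this
    exact pow_ne_zero _ tpi_ne_zero this.symm
  obtain ⟨hQ1, hQ2⟩ := inv_sub ψ Q0 hQdet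
  have e7 : C * Gi * Cᵀ = tpi • Q0⁻¹.map ψ := by
    have := congrArg (fun X => Q0⁻¹.map ψ * X) e6
    simp only [← hQ0] at this
    rw [← Matrix.mul_assoc, hQ2, Matrix.one_mul, Matrix.mul_smul, Matrix.mul_one] at this
    exact this
  have e8 : A.per * AbVar.toC α * A.per⁻¹ = M * (Q0⁻¹.map ψ) * (Mᵀ * Jm g) := by
    have h1 : tpi • (A.per * AbVar.toC α * A.per⁻¹) = tpi • (M * (Q0⁻¹.map ψ) * (Mᵀ * Jm g)) := by
      have h2 : tpi • (A.per * AbVar.toC α * A.per⁻¹) =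
          (A.per * N) * Gi * (Nᵀ * (tpi • (A.riem * A.per⁻¹))) := by
        rw [hαC, Matrix.mul_smul, Matrix.mul_smul]
        simp only [Matrix.mul_assoc]
      have h3 : Nᵀ * (A.perᵀ * Jm g) = Cᵀ * (Mᵀ * Jm g) := by
        rw [← Matrix.mul_assoc, ← Matrix.transpose_mul, hC, Matrix.transpose_mul, Matrix.mul_assoc]
      rw [h2, e1, h3, hC]
      have h4 : M * C * Gi * (Cᵀ * (Mᵀ * Jm g)) = M * (C * Gi * Cᵀ) * (Mᵀ * Jm g) := by
        simp only [Matrix.mul_assoc]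
      rw [h4, e7, Matrix.mul_smul, Matrix.smul_mul]
    exact smul_right_injective _ tpi_ne_zero h1
  -- the Hodge filtration
  have hF : ∀ v, zz A v = 0 → zz A (AbVar.toC α *ᵥ v) = 0 := by
    intro v hv
    obtain ⟨a, ha, b, hb, hab, hza, hzb⟩ := hT g A D hrat halg _ (hαD v)
    have h1 : ∀ w ∈ D, w ⬝ᵥ (A.riem *ᵥ (AbVar.toC α *ᵥ v)) = w ⬝ᵥ (A.riem *ᵥ v) := by
      intro w hw
      rw [Matrix.mulVec_mulVec, ← hros, ← Matrix.mulVec_mulVec, Matrix.dotProduct_mulVec w,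
        Matrix.vecMul_transpose, hfix w hw]
    have h2 := h1 (cv b) (cv_mem hrat hb)
    rw [hab, skew A hsk, skew A hsk (cv b) v, add_dotProduct, perp A hh hE hza hzb,
      perp A hh hE hv hzb, zero_add, neg_zero, neg_eq_zero] at h2
    have hb0 := defKb A hh hpos hE hsk hzb h2
    rw [hab, hb0, add_zero]
    exact hza
  refine ⟨α, ⟨A.per * AbVar.toC α * A.per⁻¹, ?_, ?_, ?_⟩, hidem, hros, fun v => ⟨hfix v, fun hv => ?_⟩⟩
  · intro r s
    rw [e8]
    exact alg_mul (fun i j => alg_mul hMa (fun i j => mem_algebraicClosure_iff.1 (Q0⁻¹ i j).2) i j)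
      (fun i j => alg_mul (fun i j => hMa j i) alg_Jm i j) r s
  · intro i j
    have h1 : zz A (A.per⁻¹ *ᵥ Pi.single (Sum.inr j) 1) = 0 := by
      unfold zz
      rw [Matrix.mulVec_mulVec, Matrix.mul_nonsing_inv _ hP, Matrix.one_mulVec]
      funext k
      simp [pr]
    have h2 := congrFun (hF _ h1) i
    unfold zz at h2
    rw [Matrix.mulVec_mulVec, Matrix.mulVec_mulVec, Matrix.mulVec_single_one] at h2
    simpa [pr, Matrix.mul_assoc] using h2
  · rw [Matrix.mul_assoc, Matrix.nonsing_inv_mul _ hP, Matrix.mul_one]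
  · rw [← hv]
    exact hαD v

end

end Pool.Agent.DRB
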