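import Pool.Agent.DRB.Stmts3

/-!
# DRB / T1P: a de Rham-Betti subobject of `H_1(A)` is a sub-Hodge structure
-/

open scoped BigOperators Topology
open Matrix

namespace Pool.Agent.DRB

noncomputable section

namespace T1PX

variable {g : ℕ} (A : AbVar g)

theorem pr_add (x y : Idx g → ℂ) : pr (x + y) = pr x + pr y := rfl

theorem pr_smul (c : ℂ) (x : Idx g → ℂ) : pr (c • x) = c • pr x := rfl

theorem cv_add (x y : Idx g → ℂ) : cv (x + y) = cv x + cv y := by
  funext i
  simp [cv]

theorem cv_smul (c : ℂ) (x : Idx g → ℂ) : cv (c • x) = (starRingEnd ℂ) c • cv x := by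
  funext i
  simp [cv]

theorem cv_zero : cv (0 : Idx g → ℂ) = 0 := by
  funext i
  simp [cv]

theorem mem_lieIm {D : Submodule ℂ (Idx g → ℂ)} {x : Idx g → ℂ} (hx : x ∈ D) :
    pr (A.per *ᵥ x) ∈ lieIm A D := ⟨x, hx, rfl⟩

/-- Points of the image which lift to real vectors of `D`. -/
theorem lift_real (h1 : Stmt_T1b) (h2 : Stmt_T1c) {D : Submodule ℂ (Idx g → ℂ)} (hD : RatSpan D)
    (hD' : AlgSpan (D.map A.per.mulVecLin)) {z : Fin g → ℂ} (hz : z ∈ lieIm A D) :
    ∃ y ∈ D, cv y = y ∧ pr (A.per *ᵥ y) = z := by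
  have h := h2 g A D hD hD' z hz
  induction h using Submodule.span_induction with
  | mem w hw =>
    obtain ⟨hw1, n, rfl⟩ := hw
    refine ⟨fun i => (n i : ℂ), h1 g A D hD hD' n hw1, ?_, rfl⟩
    funext i
    simp [cv]
  | zero =>
    refine ⟨0, D.zero_mem, cv_zero, ?_⟩
    rw [Matrix.mulVec_zero]
    rfl
  | add w w' hw hw' hy hy' =>
    have hsub : ∀ u ∈ Submodule.span ℝ
      {z : Fin g → ℂ | z ∈ lieIm A D ∧ ∃ n : Idx g → ℤ, z = pr (A.per *ᵥ (fun i => (n i : ℂ)))},
        u ∈ lieIm A D := by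
      intro u hu
      induction hu using Submodule.span_induction with
      | mem w hw => exact hw.1
      | zero => exact (lieIm A D).zero_mem
      | add a b _ _ ha hb => exact (lieIm A D).add_mem ha hb
      | smul c a _ ha =>
        have : c • a = (c : ℂ) • a := by
          funext k
          simp
        rw [this]
        exact (lieIm A D).smul_mem _ ha
    obtain ⟨y, hy1, hy2, hy3⟩ := hy (hsub _ hw)
    obtain ⟨y', hy1', hy2', hy3'⟩ := hy' (hsub _ hw')
    refine ⟨y + y', D.add_mem hy1 hy1', ?_, ?_⟩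
    · rw [cv_add, hy2, hy2']
    · rw [Matrix.mulVec_add, pr_add, hy3, hy3']
  | smul c w hw hy =>
    have hsub : ∀ u ∈ Submodule.span ℝ
      {z : Fin g → ℂ | z ∈ lieIm A D ∧ ∃ n : Idx g → ℤ, z = pr (A.per *ᵥ (fun i => (n i : ℂ)))},
        u ∈ lieIm A D := by
      intro u hu
      induction hu using Submodule.span_induction with
      | mem w hw => exact hw.1
      | zero => exact (lieIm A D).zero_mem
      | add a b _ _ ha hb => exact (lieIm A D).add_mem ha hb
      | smul c a _ ha =>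
        have : c • a = (c : ℂ) • a := by
          funext k
          simp
        rw [this]
        exact (lieIm A D).smul_mem _ ha
    obtain ⟨y, hy1, hy2, hy3⟩ := hy (hsub _ hw)
    refine ⟨(c : ℂ) • y, D.smul_mem _ hy1, ?_, ?_⟩
    · rw [cv_smul, hy2, Complex.conj_ofReal]
    · rw [Matrix.mulVec_smul, pr_smul, hy3]
      funext k
      simp

end T1PX

open T1PX in
theorem t1p_proof (h1 : Stmt_T1b) (h2 : Stmt_T1c) : Stmt_T1p := by
  intro g A D hD hD' v hv
  have hv' := hD hv
  clear hv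
  induction hv' using Submodule.span_induction with
  | mem x hx =>
    obtain ⟨hx1, hx2⟩ := hx
    have hcx : cv x = x := by
      funext i
      obtain ⟨q, hq⟩ := hx2 i
      simp [cv, hq]
    obtain ⟨y, hy1, hy2, hy3⟩ := lift_real A h1 h2 hD hD'
      ((lieIm A D).smul_mem Complex.I (mem_lieIm A hx1))
    have ha : pr (A.per *ᵥ ((1 / 2 : ℂ) • (x + Complex.I • y))) = 0 := by
      rw [Matrix.mulVec_smul, Matrix.mulVec_add, Matrix.mulVec_smul, pr_smul, pr_add, pr_smul, hy3,
        smul_smul, Complex.I_mul_I, neg_smul, one_smul, add_neg_cancel, smul_zero]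
    refine ⟨(1 / 2 : ℂ) • (x + Complex.I • y), D.smul_mem _ (D.add_mem hx1 (D.smul_mem _ hy1)),
      (1 / 2 : ℂ) • (x + (-Complex.I) • y), D.smul_mem _ (D.add_mem hx1 (D.smul_mem _ hy1)),
      ?_, ha, ?_⟩
    · funext i
      simp only [Pi.add_apply, Pi.smul_apply, smul_eq_mul]
      ring
    · have : cv ((1 / 2 : ℂ) • (x + (-Complex.I) • y)) = (1 / 2 : ℂ) • (x + Complex.I • y) := by
        have hh : (starRingEnd ℂ) (1 / 2 : ℂ) = 1 / 2 := by
          rw [map_div₀, map_one, map_ofNat]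
        rw [cv_smul, cv_add, cv_smul, hcx, hy2, hh, map_neg, Complex.conj_I, neg_neg]
      rw [this]
      exact ha
  | zero =>
    refine ⟨0, D.zero_mem, 0, D.zero_mem, by simp, ?_, ?_⟩
    · rw [Matrix.mulVec_zero]
      rfl
    · rw [cv_zero, Matrix.mulVec_zero]
      rfl
  | add x y _ _ hx hy =>
    obtain ⟨a, ha, b, hb, e, h3, h4⟩ := hx
    obtain ⟨a', ha', b', hb', e', h3', h4'⟩ := hy
    refine ⟨a + a', D.add_mem ha ha', b + b', D.add_mem hb hb', ?_, ?_, ?_⟩
    · rw [e, e']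
      abel
    · rw [Matrix.mulVec_add, pr_add, h3, h3', add_zero]
    · rw [cv_add, Matrix.mulVec_add, pr_add, h4, h4', add_zero]
  | smul c x _ hx =>
    obtain ⟨a, ha, b, hb, e, h3, h4⟩ := hx
    refine ⟨c • a, D.smul_mem _ ha, c • b, D.smul_mem _ hb, ?_, ?_, ?_⟩
    · rw [e, smul_add]
    · rw [Matrix.mulVec_smul, pr_smul, h3, smul_zero]
    · rw [cv_smul, Matrix.mulVec_smul, pr_smul, h4, smul_zero]

end

end Pool.Agent.DRB
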