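import Pool.Agent.DRB.Stmts3
import Pool.Agent.DRB.Tors

/-!
# De Rham-Betti conjecture, module TORS3: an element which is not torsion modulo scalars on a
component of rank two
-/

open scoped BigOperators
open Matrix

namespace Pool.Agent.DRB

namespace TORS3X

open TORSX

variable {g : ℕ} {A : AbVar g} (d : Dec A)

/-- The trace of the action on the multiplicity space is given by a matrix. -/
theorem trX (j : Fin d.k) : ∃ e : Matrix (Idx g) (Idx g) ℂ, ∀ x : Matrix (Idx g) (Idx g) ℂ,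
    (e * x).trace = (d.X x j).trace := by
  classical
  refine ⟨Matrix.of fun k l => ∑ a : Fin (d.m j), d.B ⟨j, (a, ⟨0, d.npos j⟩)⟩ k *
    d.B.repr (Pi.single l 1) ⟨j, (a, ⟨0, d.npos j⟩)⟩, fun x => ?_⟩
  have h1 : ∀ (v : Idx g → ℂ) (f : Σ i, Fin (d.m i) × Fin (d.n i)),
      d.B.repr v f = ∑ l, v l * d.B.repr (Pi.single l 1) f := by
    intro v f
    conv_lhs => rw [← Finset.univ_sum_single v]
    rw [map_sum, Finsupp.finsetSum_apply]
    refine Finset.sum_congr rfl fun l _ => ?_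
    have h2 : (Pi.single l (v l) : Idx g → ℂ) = v l • Pi.single l 1 := by
      rw [← Pi.single_smul, smul_eq_mul, mul_one]
    rw [h2, map_smul, Finsupp.smul_apply, smul_eq_mul]
  have h3 : (d.X x j).trace = ∑ a : Fin (d.m j), ∑ l, ∑ k, x l k * d.B ⟨j, (a, ⟨0, d.npos j⟩)⟩ k *
      d.B.repr (Pi.single l 1) ⟨j, (a, ⟨0, d.npos j⟩)⟩ := by
    rw [Matrix.trace]
    refine Finset.sum_congr rfl fun a _ => ?_
    rw [Matrix.diag_apply, Dec.X, Matrix.of_apply, h1]
    refine Finset.sum_congr rfl fun l _ => ?_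
    rw [Matrix.mulVec, dotProduct, Finset.sum_mul]
  rw [h3, Matrix.trace]
  simp only [Matrix.diag_apply, Matrix.mul_apply, Matrix.of_apply, Finset.sum_mul]
  rw [Finset.sum_congr rfl fun k _ => Finset.sum_comm, Finset.sum_comm]
  refine Finset.sum_congr rfl fun a _ => ?_
  rw [Finset.sum_comm]
  refine Finset.sum_congr rfl fun l _ => Finset.sum_congr rfl fun k _ => ?_
  ring

theorem X_pow {x : Matrix (Idx g) (Idx g) ℂ} (hx : A.Comm x) (j : Fin d.k) (n : ℕ) :
    A.Comm (x ^ n) ∧ d.X (x ^ n) j = d.X x j ^ n := by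
  induction n with
  | zero => exact ⟨by rw [pow_zero]; exact Dec.comm_one, by rw [pow_zero, pow_zero]; exact d.X_one j⟩
  | succ n ih =>
    refine ⟨by rw [pow_succ]; exact Dec.comm_mul ih.1 hx, ?_⟩
    rw [pow_succ, d.X_mul ih.1 hx, ih.2, pow_succ]

/-- Scalar action on a multiplicity space. -/
theorem scal {x : Matrix (Idx g) (Idx g) ℂ} (hx : A.Comm x) (j : Fin d.k) (c : ℂ) :
    d.X x j = c • 1 ↔ x * d.p j = c • d.p j := by
  constructor
  · intro h
    refine d.ext_B fun l a b => ?_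
    rw [← Matrix.mulVec_mulVec, Matrix.smul_mulVec, d.hp]
    by_cases hl : l = j
    · subst hl
      rw [if_pos rfl, d.X_spec hx, h, Finset.sum_eq_single a]
      · simp
      · intro c' _ hc'
        simp [hc']
      · intro h'
        exact absurd (Finset.mem_univ _) h'
    · rw [if_neg (by exact hl), Matrix.mulVec_zero, smul_zero]
  · intro h
    ext a' a
    have h1 : x *ᵥ d.B ⟨j, (a, ⟨0, d.npos j⟩)⟩ = c • d.B ⟨j, (a, ⟨0, d.npos j⟩)⟩ := by
      have h2 : d.p j *ᵥ d.B ⟨j, (a, ⟨0, d.npos j⟩)⟩ = d.B ⟨j, (a, ⟨0, d.npos j⟩)⟩ := by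
        rw [d.hp, if_pos rfl]
      conv_lhs => rw [← h2]
      rw [Matrix.mulVec_mulVec, h, Matrix.smul_mulVec, h2]
    rw [Dec.X, Matrix.of_apply, h1, map_smul, Finsupp.smul_apply, Module.Basis.repr_self,
      Matrix.smul_apply, Finsupp.single_apply, Matrix.one_apply]
    congr 1
    by_cases haa : a' = a
    · subst haa
      rw [if_pos rfl, if_pos rfl]
    · rw [if_neg haa, if_neg]
      intro h'
      apply haa
      have := congrArg (fun e : (Σ i, Fin (d.m i) × Fin (d.n i)) => (e.2.1 : ℕ)) h'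
      exact Fin.ext this.symm

theorem two' (k : ℕ) (hk : k = 2) (m m' : Matrix (Fin k) (Fin k) ℂ) (hmm : m * m' = 1) (n : ℕ)
    (hn : 1 ≤ n) (c : ℂ) (h : m ^ n = c • (1 : Matrix (Fin k) (Fin k) ℂ)) :
    IsAlgebraic ℚ (m.trace * m'.trace) ∧
      (m.trace * m'.trace = 4 → ∃ l : ℂ, m = l • (1 : Matrix (Fin k) (Fin k) ℂ)) := by
  subst hk
  exact two m m' hmm n hn c h

theorem map_smul' {κ : Type} (c : ℂ) (M : Matrix κ κ ℂ) (σ : ℂ ≃ₐ[ℚ] ℂ) :
    (c • M).map σ = σ c • M.map σ := by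
  ext i j
  simp only [Matrix.map_apply, Matrix.smul_apply, smul_eq_mul, map_mul]

theorem key3 (hL : Stmt_Ldp) (j : Fin d.k) (hj : d.m j = 2)
    (hc : ∀ τ ∈ GalA, A.Comm (coc A τ) ∧ A.Comm (A.per⁻¹.map τ * A.per))
    (ht : ∀ τ ∈ GalA, ∃ n : ℕ, 1 ≤ n ∧ ∃ c : ℂ, d.X (coc A τ) j ^ n = c • 1) :
    ∀ τ ∈ GalA, ∃ l : ℂ, d.X (coc A τ) j = l • 1 := by
  obtain ⟨e, he⟩ := trX d j
  obtain ⟨N, x, y, hxy⟩ := bilin e A.per A.per⁻¹
  have hmm : ∀ τ ∈ GalA, d.X (coc A τ) j * d.X (A.per⁻¹.map τ * A.per) j = 1 := by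
    intro τ hτ
    rw [← d.X_mul (hc τ hτ).1 (hc τ hτ).2, coc_mul, d.X_one]
  have hval : ∀ τ : ℂ ≃ₐ[ℚ] ℂ, ∑ m, x m * τ (y m) =
      (d.X (coc A τ) j).trace * (d.X (A.per⁻¹.map τ * A.per) j).trace := by
    intro τ
    rw [hxy τ, he, he, coc]
  have halg : ∀ τ ∈ GalA, IsAlgebraic ℚ (∑ m, x m * τ (y m)) := by
    intro τ hτ
    obtain ⟨n, hn, c, hcc⟩ := ht τ hτ
    rw [hval]
    exact (two' _ hj _ _ (hmm τ hτ) n hn c hcc).1
  have hconst := hL N x y halg
  have hone : ∑ m, x m * y m = 4 := by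
    have h1 := hval AlgEquiv.refl
    have h2 : A.per.map (AlgEquiv.refl : ℂ ≃ₐ[ℚ] ℂ) = A.per := by ext i j; simp
    have h3 : A.per⁻¹.map (AlgEquiv.refl : ℂ ≃ₐ[ℚ] ℂ) = A.per⁻¹ := by ext i j; simp
    rw [coc, h2, h3, Matrix.nonsing_inv_mul _ (per_isUnit A), d.X_one, Matrix.trace_one,
      Fintype.card_fin, hj] at h1
    simp only [AlgEquiv.coe_refl, id_eq] at h1
    rw [h1]
    norm_num
  intro τ hτ
  obtain ⟨n, hn, c, hcc⟩ := ht τ hτ
  exact (two' _ hj _ _ (hmm τ hτ) n hn c hcc).2 (by rw [← hval, hconst τ hτ, hone])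

end TORS3X

open TORSX TORS3X in
theorem tors3_proof (hL : Stmt_Ldp) (hI : Stmt_IrrX) (h1 : Stmt_Gb1) (h3 : Stmt_Gal3) :
    Stmt_Tors3 := by
  intro g A d i hi
  by_contra hcon
  push Not at hcon
  have hcomm : ∀ q ∈ Gam A, A.Comm q.1.val := fun q hq α hα => (h1 g A q hq).1 α hα
  have hrefl : ∀ M : Matrix (Idx g) (Idx g) ℂ, M.map (AlgEquiv.refl : ℂ ≃ₐ[ℚ] ℂ) = M := by
    intro M; ext i j; simp
  have hc : ∀ τ ∈ GalA, A.Comm (coc A τ) ∧ A.Comm (A.per⁻¹.map τ * A.per) := by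
    intro τ hτ
    obtain ⟨q, hq, hqv⟩ := gen A AlgEquiv.refl τ hτ
    rw [hrefl] at hqv
    have h4 : (q.1⁻¹).val = A.per⁻¹.map τ * A.per := by
      have h5 : (q.1⁻¹).val * q.1.val = 1 := by
        rw [← Units.val_mul, inv_mul_cancel]; rfl
      calc (q.1⁻¹).val = (q.1⁻¹).val * (coc A τ * (A.per⁻¹.map τ * A.per)) := by
            rw [coc_mul, mul_one]
        _ = _ := by rw [← hqv, ← mul_assoc, h5, one_mul]
    refine ⟨hqv ▸ hcomm q hq, ?_⟩
    rw [← h4]
    exact Dec.comm_inv (hcomm q hq)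
  -- the cocycle is scalar on all conjugate components
  have hscal : ∀ σ τ : ℂ ≃ₐ[ℚ] ℂ, τ ∈ GalA →
      ∃ l : ℂ, coc A τ * (d.p i).map σ.symm = l • (d.p i).map σ.symm := by
    intro σ
    obtain ⟨hcomp, hdim⟩ := (h3 g A (d.p i) (d.isComp i)).1 σ.symm
    obtain ⟨j, hj⟩ := (d.comp _).1 hcomp
    rw [hj] at hdim ⊢
    have hmj : d.m j = 2 := by
      rw [d.dim, d.dim, hi] at hdim
      nlinarith
    have hpi : (d.p j).map σ = d.p i := by
      rw [← hj]
      ext a b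
      simp
    have hkey := key3 d hL j hmj hc (fun τ hτ => by
      obtain ⟨q, hq, hqv⟩ := gen A σ τ hτ
      obtain ⟨n, hn, c, hcv⟩ := hcon q hq
      refine ⟨n, hn, σ.symm c, ?_⟩
      have hp1 := X_pow d (hcomm q hq) i n
      rw [← hp1.2, scal d hp1.1, hqv, ← map_pow'] at hcv
      have hp2 := X_pow d (hc τ hτ).1 j n
      rw [← hp2.2, scal d hp2.1]
      have h6 : ∀ M : Matrix (Idx g) (Idx g) ℂ, (M.map σ).map σ.symm = M := by
        intro M; ext a b; simp
      have h7 := congrArg (fun M : Matrix (Idx g) (Idx g) ℂ => M.map σ.symm) hcv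
      rw [map_mul', h6, map_smul', hj] at h7
      exact h7)
    intro τ hτ
    obtain ⟨l, hl⟩ := hkey τ hτ
    exact ⟨l, (scal d (hc τ hτ).1 j l).1 hl⟩
  -- all elements of `Γ` are scalar on the component
  have hall : ∀ q ∈ Gam A, ∃ c : ℂ, q.1.val * d.p i = c • d.p i := by
    intro q hq
    induction hq using Subgroup.closure_induction with
    | mem q hq =>
      obtain ⟨σ, τ, hτ, hq1, -⟩ := hq
      obtain ⟨l, hl⟩ := hscal σ τ hτ
      refine ⟨σ l, ?_⟩
      have h4 : q.1.val = (coc A τ).map σ := hq1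
      have h6 : ((d.p i).map σ.symm).map σ = d.p i := by
        ext a b; simp
      have h7 := congrArg (fun M : Matrix (Idx g) (Idx g) ℂ => M.map σ) hl
      rw [map_mul', map_smul', h6] at h7
      rw [h4]
      exact h7
    | one => exact ⟨1, by simp⟩
    | mul p q _ _ hp hq =>
      obtain ⟨c, hc⟩ := hp
      obtain ⟨e, he⟩ := hq
      refine ⟨e * c, ?_⟩
      have h4 : (p * q).1.val = p.1.val * q.1.val := rfl
      rw [h4, mul_assoc, he, Matrix.mul_smul, hc, smul_smul]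
    | inv p _ hp =>
      obtain ⟨c, hc⟩ := hp
      refine ⟨c⁻¹, ?_⟩
      have h2 : (p⁻¹).1.val * p.1.val = 1 := by
        have : (p⁻¹).1.val * p.1.val = ((p⁻¹).1 * p.1).val := rfl
        rw [this, Prod.fst_inv, inv_mul_cancel]
        rfl
      have h4 : d.p i = c • ((p⁻¹).1.val * d.p i) := by
        rw [← Matrix.mul_smul, ← hc, ← mul_assoc, h2, one_mul]
      have h0 : c ≠ 0 := by
        intro h0
        rw [h0, zero_smul] at h4
        exact (d.isComp i).2.1 h4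
      conv_rhs => rw [h4]
      rw [smul_smul, inv_mul_cancel₀ h0, one_smul]
  -- a line is stable
  have hpos : 0 < d.m i := d.mpos i
  set v : Fin (d.m i) → ℂ := Pi.single ⟨0, hpos⟩ 1 with hv
  have hv0 : v ≠ 0 := by
    intro h0
    have := congrFun h0 ⟨0, hpos⟩
    rw [hv, Pi.single_eq_same, Pi.zero_apply] at this
    exact one_ne_zero this
  have hst := hI g A d i (Submodule.span ℂ {v}) (fun q hq w hw => by
    obtain ⟨c, hc⟩ := hall q hq
    rw [(scal d (hcomm q hq) i c).2 hc, Matrix.smul_mulVec, Matrix.one_mulVec]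
    exact Submodule.smul_mem _ _ hw)
  have hfr : Module.finrank ℂ (Submodule.span ℂ {v}) = 1 := finrank_span_singleton hv0
  rcases hst with h | h
  · rw [h, finrank_bot] at hfr
    exact zero_ne_one hfr
  · rw [h, finrank_top, Module.finrank_fin_fun, hi] at hfr
    omega

end Pool.Agent.DRB
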