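import Pool.Agent.DRB.Stmts3

/-!
# TRANS: tensor spaces of subspaces of tensor spaces
-/

open scoped BigOperators
open Matrix

namespace Pool.Agent.DRB

noncomputable section

namespace TransX

/-- The index set of the summands of the iterated tensor space. -/
abbrev Q (s t : TData) := Σ r : Fin t.n, (Fin (t.a r) → Fin s.n)

/-- The enumeration of the summands. -/
def En (s t : TData) : Q s t ≃ Fin (Fintype.card (Q s t)) := Fintype.equivFin _

/-- The iterated tensor space as a tensor space. -/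
def tt (s t : TData) : TData where
  n := Fintype.card (Q s t)
  a r := ∑ j, s.a (((En s t).symm r).2 j)
  k r := t.k ((En s t).symm r).1 + ∑ j, s.k (((En s t).symm r).2 j)

/-- The second half of the identification of the indices. -/
def phi2 (s t : TData) (ι₀ : Type) (u : Σ q : Q s t, (Fin (∑ j, s.a (q.2 j)) → ι₀)) :
    TIdx t (TIdx s ι₀) :=
  ⟨u.1.1, fun j => ⟨u.1.2 j, fun l => u.2 (finSigmaFinEquiv ⟨j, l⟩)⟩⟩

/-- The inverse of `phi2`. -/
def psi2 (s t : TData) (ι₀ : Type) (p : TIdx t (TIdx s ι₀)) :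
    Σ q : Q s t, (Fin (∑ j, s.a (q.2 j)) → ι₀) :=
  ⟨⟨p.1, fun j => (p.2 j).1⟩, fun m =>
    (p.2 (finSigmaFinEquiv.symm m).1).2 (finSigmaFinEquiv.symm m).2⟩

theorem phi2_psi2 (s t : TData) (ι₀ : Type) (p : TIdx t (TIdx s ι₀)) :
    phi2 s t ι₀ (psi2 s t ι₀ p) = p := by
  obtain ⟨r, K⟩ := p
  unfold phi2 psi2
  congr 1
  funext j
  have h : ∀ l : Fin (s.a (K j).1),
      (fun x : Σ j : Fin (t.a r), Fin (s.a (K j).1) => (K x.1).2 x.2)
        (finSigmaFinEquiv.symm (finSigmaFinEquiv ⟨j, l⟩)) = (K j).2 l := by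
    intro l
    rw [Equiv.symm_apply_apply]
  exact Sigma.ext rfl (heq_of_eq (funext h))

theorem phi2_surj (s t : TData) (ι₀ : Type) : Function.Surjective (phi2 s t ι₀) :=
  fun p => ⟨_, phi2_psi2 s t ι₀ p⟩

/-- The identification of the indices. -/
def phi (s t : TData) (ι₀ : Type) (u : TIdx (tt s t) ι₀) : TIdx t (TIdx s ι₀) :=
  phi2 s t ι₀ ⟨(En s t).symm u.1, u.2⟩

theorem phi_surj (s t : TData) (ι₀ : Type) : Function.Surjective (phi s t ι₀) := by
  intro p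
  obtain ⟨⟨q, f⟩, hq⟩ := phi2_surj s t ι₀ p
  obtain ⟨r, rfl⟩ := (En s t).symm.surjective q
  exact ⟨⟨r, f⟩, hq⟩

/-- The matrix of the action on the tensor space. -/
def Mx (s : TData) {ι₀ : Type} [Fintype ι₀] [DecidableEq ι₀] (x₀ : Matrix ι₀ ι₀ ℂ) (ν : ℂ) :
    Matrix (TIdx s ι₀) (TIdx s ι₀) ℂ :=
  LinearMap.toMatrix' (TAct s x₀ ν)

theorem Mx_apply (s : TData) {ι₀ : Type} [Fintype ι₀] [DecidableEq ι₀] (x₀ : Matrix ι₀ ι₀ ℂ)
    (ν : ℂ) (r : Fin s.n) (I K : Fin (s.a r) → ι₀) :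
    Mx s x₀ ν ⟨r, I⟩ ⟨r, K⟩ = ν ^ s.k r * ∏ l, x₀ (I l) (K l) := by
  rw [Mx, LinearMap.toMatrix'_apply, TAct_apply, Finset.sum_eq_single K]
  · simp
  · intro J _ hJ
    have : (Pi.single (⟨r, K⟩ : TIdx s ι₀) (1 : ℂ) : TIdx s ι₀ → ℂ) ⟨r, J⟩ = 0 := by
      rw [Pi.single_apply, if_neg]
      intro h
      exact hJ (eq_of_heq (Sigma.mk.inj h).2)
    rw [this, mul_zero]
  · intro h
    exact absurd (Finset.mem_univ _) h

theorem Mx_ne (s : TData) {ι₀ : Type} [Fintype ι₀] [DecidableEq ι₀] (x₀ : Matrix ι₀ ι₀ ℂ)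
    (ν : ℂ) (p q : TIdx s ι₀) (h : q.1 ≠ p.1) : Mx s x₀ ν p q = 0 := by
  rw [Mx, LinearMap.toMatrix'_apply, TAct_apply, Finset.sum_eq_zero, mul_zero]
  intro J _
  have : (Pi.single q (1 : ℂ) : TIdx s ι₀ → ℂ) ⟨p.1, J⟩ = 0 := by
    rw [Pi.single_apply, if_neg]
    rintro rfl
    exact h rfl
  rw [this, mul_zero]

theorem prod_zpow_sum {κ : Type} (S : Finset κ) (f : κ → ℤ) {ν : ℂ} (hν : ν ≠ 0) :
    ∏ j ∈ S, ν ^ f j = ν ^ ∑ j ∈ S, f j := by
  classical
  induction S using Finset.induction_on with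
  | empty => simp
  | insert a S ha ih => rw [Finset.prod_insert ha, Finset.sum_insert ha, ih, zpow_add₀ hν]

/-- The restriction to the index set of the tensor space `tt s t`. -/
def Psi (s t : TData) (ι₀ : Type) : (TIdx t (TIdx s ι₀) → ℂ) →ₗ[ℂ] (TIdx (tt s t) ι₀ → ℂ) :=
  LinearMap.funLeft ℂ ℂ (phi s t ι₀)

/-- The multi-index of a sequence of multi-indices. -/
def wt (s : TData) {N : ℕ} (c : Fin N → Fin s.n) {ι₀ : Type}
    (I : Fin (∑ j, s.a (c j)) → ι₀) (j : Fin N) : TIdx s ι₀ :=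
  ⟨c j, fun l => I (finSigmaFinEquiv ⟨j, l⟩)⟩

theorem key1 (s : TData) {N : ℕ} (c : Fin N → Fin s.n) {ι₀ : Type} [Fintype ι₀] [DecidableEq ι₀]
    (x₀ : Matrix ι₀ ι₀ ℂ) {ν : ℂ} (hν : ν ≠ 0) (I : Fin (∑ j, s.a (c j)) → ι₀)
    (u : (Fin N → TIdx s ι₀) → ℂ) :
    ∑ K : Fin N → TIdx s ι₀, (∏ j, Mx s x₀ ν (wt s c I j) (K j)) * u K =
      ν ^ (∑ j, s.k (c j)) *
        ∑ K : Fin (∑ j, s.a (c j)) → ι₀, (∏ m, x₀ (I m) (K m)) * u (wt s c K) := by
  rw [Finset.mul_sum]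
  symm
  refine Fintype.sum_of_injective (fun K : Fin (∑ j, s.a (c j)) → ι₀ => wt s c K) ?_ _ _ ?_ ?_
  · intro K K' h
    funext m
    obtain ⟨⟨j, l⟩, rfl⟩ := finSigmaFinEquiv.surjective m
    have h2 := congrFun h j
    have h3 := congrFun (eq_of_heq (Sigma.mk.inj h2).2) l
    exact h3
  · intro K hK
    have : ∃ j, (K j).1 ≠ c j := by
      by_contra hcon
      push Not at hcon
      apply hK
      have h4 : ∀ j, ∃ f : Fin (s.a (c j)) → ι₀, K j = ⟨c j, f⟩ := by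
        intro j
        have := hcon j
        generalize c j = c' at this
        subst this
        exact ⟨(K j).2, rfl⟩
      choose f hf using h4
      refine ⟨fun m => f (finSigmaFinEquiv.symm m).1 (finSigmaFinEquiv.symm m).2, ?_⟩
      funext j
      rw [hf j]
      refine Sigma.ext rfl (heq_of_eq (funext fun l => ?_))
      change (fun x : Σ j, Fin (s.a (c j)) => f x.1 x.2)
        (finSigmaFinEquiv.symm (finSigmaFinEquiv ⟨j, l⟩)) = f j l
      rw [Equiv.symm_apply_apply]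
    obtain ⟨j, hj⟩ := this
    rw [Finset.prod_eq_zero (Finset.mem_univ j), zero_mul]
    exact Mx_ne s x₀ ν _ _ hj
  · intro K
    have h6 : (∏ j, Mx s x₀ ν (wt s c I j) (wt s c K j)) =
        ν ^ (∑ j, s.k (c j)) * ∏ m, x₀ (I m) (K m) := by
      have h5 : ∀ j, Mx s x₀ ν (wt s c I j) (wt s c K j) =
          ν ^ s.k (c j) * ∏ l, x₀ (I (finSigmaFinEquiv ⟨j, l⟩)) (K (finSigmaFinEquiv ⟨j, l⟩)) :=
        fun j => Mx_apply s x₀ ν _ _ _
      rw [Finset.prod_congr rfl fun j _ => h5 j, Finset.prod_mul_distrib, prod_zpow_sum _ _ hν]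
      congr 1
      rw [← Equiv.prod_comp finSigmaFinEquiv, Fintype.prod_sigma]
    rw [← mul_assoc]
    exact congrArg (· * u (wt s c K)) h6.symm

theorem key (s t : TData) {ι₀ : Type} [Fintype ι₀] [DecidableEq ι₀] (x₀ : Matrix ι₀ ι₀ ℂ)
    {ν : ℂ} (hν : ν ≠ 0) (u : TIdx t (TIdx s ι₀) → ℂ) :
    Psi s t ι₀ (TAct t (Mx s x₀ ν) ν u) = TAct (tt s t) x₀ ν (Psi s t ι₀ u) := by
  funext p
  obtain ⟨r, I⟩ := p
  have h := key1 s ((En s t).symm r).2 x₀ hν I (fun K => u ⟨((En s t).symm r).1, K⟩)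
  have h2 := congrArg (fun z => ν ^ t.k ((En s t).symm r).1 * z) h
  refine Eq.trans ?_ (h2.trans ?_)
  · rfl
  · rw [← mul_assoc, ← zpow_add₀ hν]
    rfl

end TransX

open TransX in
theorem trans_proof : Stmt_Trans := by
  intro ι₀ ι _ _ _ _ s t J hJ D
  have hJm : ∀ v, J v = LinearMap.toMatrix' J *ᵥ v := by
    intro v
    rw [← Matrix.toLin'_apply, Matrix.toLin'_toMatrix']
  obtain ⟨L, hL⟩ := J.exists_leftInverse_of_injective (LinearMap.ker_eq_bot.2 hJ)
  have hLJ : LinearMap.toMatrix' L * LinearMap.toMatrix' J = 1 := by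
    rw [← LinearMap.toMatrix'_comp, hL, LinearMap.toMatrix'_id]
  let Θ := (Psi s t ι₀).comp (TAct t (LinearMap.toMatrix' J) 1)
  have hΘ : Function.Injective Θ := by
    have h : (TAct t (LinearMap.toMatrix' L) 1).comp (TAct t (LinearMap.toMatrix' J) 1) =
        LinearMap.id := by
      rw [← TAct_comp, hLJ, mul_one, TAct_one]
    have h1 : Function.Injective (TAct t (LinearMap.toMatrix' J) 1) := by
      intro a b hab
      have ha := LinearMap.congr_fun h a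
      have hb := LinearMap.congr_fun h b
      rw [LinearMap.comp_apply, LinearMap.id_apply] at ha hb
      rw [← ha, ← hb, hab]
    have h2 : Function.Injective (Psi s t ι₀) :=
      LinearMap.funLeft_injective_of_surjective ℂ ℂ _ (phi_surj s t ι₀)
    intro a b hab
    exact h1 (h2 hab)
  refine ⟨tt s t, D.map Θ, fun x₀ x ν hν hx => ?_⟩
  have hM : Mx s x₀ ν * LinearMap.toMatrix' J = LinearMap.toMatrix' J * x := by
    apply Matrix.toLin'.injective
    refine LinearMap.ext fun v => ?_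
    rw [Matrix.toLin'_apply, Matrix.toLin'_apply, ← Matrix.mulVec_mulVec, ← Matrix.mulVec_mulVec,
      ← hJm, ← hJm, ← hx, Mx, ← Matrix.toLin'_apply, Matrix.toLin'_toMatrix']
  have hint : (TAct (tt s t) x₀ ν).comp Θ = Θ.comp (TAct t x ν) := by
    refine LinearMap.ext fun v => ?_
    change TAct (tt s t) x₀ ν (Psi s t ι₀ (TAct t (LinearMap.toMatrix' J) 1 v)) =
      Psi s t ι₀ (TAct t (LinearMap.toMatrix' J) 1 (TAct t x ν v))
    rw [← key s t x₀ hν]
    congr 1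
    have h1 := LinearMap.congr_fun (TAct_comp t (Mx s x₀ ν) (LinearMap.toMatrix' J) ν 1) v
    have h2 := LinearMap.congr_fun (TAct_comp t (LinearMap.toMatrix' J) x 1 ν) v
    rw [hM, mul_one] at h1
    rw [one_mul] at h2
    exact h1.symm.trans h2
  rw [← Submodule.map_comp, hint, Submodule.map_comp]
  exact Submodule.map_le_map_iff_of_injective hΘ _ _

end

end Pool.Agent.DRB
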