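import Pool.Agent.DRB.Stmts3
import Mathlib.RingTheory.SimpleModule.IsAlgClosed

/-!
# Matrix algebras stable under adjoints (Wedderburn)
-/

open scoped BigOperators Topology
open Matrix

namespace Pool.Agent.DRB.WedX

noncomputable section

variable {ι : Type} [Fintype ι] [DecidableEq ι]

/-- The algebra. -/
def alg (E : Submodule ℂ (Matrix ι ι ℂ)) (h1 : (1 : Matrix ι ι ℂ) ∈ E)
    (hm : ∀ x ∈ E, ∀ y ∈ E, x * y ∈ E) : Subalgebra ℂ (Matrix ι ι ℂ) where
  carrier := E
  mul_mem' := fun {x y} hx hy => hm x hx y hy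
  one_mem' := h1
  add_mem' := fun {x y} hx hy => E.add_mem hx hy
  zero_mem' := E.zero_mem
  algebraMap_mem' := by
    intro r
    rw [Algebra.algebraMap_eq_smul_one]
    exact E.smul_mem r h1

theorem mem_alg {E : Submodule ℂ (Matrix ι ι ℂ)} {h1 : (1 : Matrix ι ι ℂ) ∈ E}
    {hm : ∀ x ∈ E, ∀ y ∈ E, x * y ∈ E} (x : Matrix ι ι ℂ) : x ∈ alg E h1 hm ↔ x ∈ E := Iff.rfl

omit [DecidableEq ι] in
/-- trace form is positive definite. -/
theorem form_pos {h : Matrix ι ι ℂ} (hh : PD h) {x : Matrix ι ι ℂ}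
    (hx : (xᴴ * h * x).trace = 0) : x = 0 := by
  have key : (xᴴ * h * x).trace = ∑ j, star (x.col j) ⬝ᵥ (h *ᵥ x.col j) := by
    rw [Matrix.trace]
    refine Finset.sum_congr rfl fun j _ => ?_
    rw [Matrix.diag_apply, Matrix.mul_assoc, Matrix.mul_apply]
    rw [dotProduct]
    refine Finset.sum_congr rfl fun k _ => ?_
    rw [Matrix.mul_apply]
    rfl
  rw [key] at hx
  have hre : ∑ j, (star (x.col j) ⬝ᵥ (h *ᵥ x.col j)).re = 0 := by
    rw [← Complex.re_sum, hx, Complex.zero_re]
  have hnn : ∀ j ∈ Finset.univ, 0 ≤ (star (x.col j) ⬝ᵥ (h *ᵥ x.col j)).re := by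
    intro j _
    by_cases hj : x.col j = 0
    · rw [hj]; simp
    · exact (hh.2 _ hj).le
  have h0 := (Finset.sum_eq_zero_iff_of_nonneg hnn).1 hre
  ext i j
  by_contra hne
  have hj : x.col j ≠ 0 := by
    intro h'
    exact hne (congrFun h' i)
  exact (hh.2 _ hj).ne' (h0 j (Finset.mem_univ _))

theorem semisimple (S : Subalgebra ℂ (Matrix ι ι ℂ)) {h : Matrix ι ι ℂ} (hh : PD h)
    (hs : ∀ x ∈ S, ∃ y ∈ S, xᴴ * h = h * y) : IsSemisimpleRing S := by
  have hadj : ∀ s ∈ S, ∃ t ∈ S, h * s = tᴴ * h := by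
    intro s hs'
    obtain ⟨t, ht, e⟩ := hs s hs'
    refine ⟨t, ht, ?_⟩
    have := congrArg Matrix.conjTranspose e
    rw [Matrix.conjTranspose_mul, Matrix.conjTranspose_mul, Matrix.conjTranspose_conjTranspose,
      hh.1.eq] at this
    exact this
  have : IsSemisimpleModule S S := by
    rw [isSemisimpleModule_iff]
    refine ⟨fun L => ?_⟩
    let Lc : Submodule ℂ S := L.restrictScalars ℂ
    have : Module.Free ℂ Lc := Module.Free.of_divisionRing ℂ Lc
    let b := Module.finBasis ℂ Lc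
    let φ : S →ₗ[ℂ] (Fin (Module.finrank ℂ Lc) → ℂ) :=
      { toFun := fun y i => (((b i : S).val)ᴴ * h * y.val).trace
        map_add' := by
          intro y z
          funext i
          simp [Matrix.mul_add, Matrix.trace_add]
        map_smul' := by
          intro c y
          funext i
          simp [Matrix.trace_smul] }
    have hφ : ∀ y : S, φ y = 0 → ∀ x ∈ L, (x.val ᴴ * h * y.val).trace = 0 := by
      intro y hy x hx
      have hxr := b.sum_repr ⟨x, hx⟩
      have hx2 : (x : Matrix ι ι ℂ) = ∑ i, (b.repr ⟨x, hx⟩ i) • ((b i : S).val) := by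
        have := congrArg (fun z : Lc => ((z : S) : Matrix ι ι ℂ)) hxr
        simp only at this
        rw [← this]
        push_cast
        rfl
      rw [hx2, Matrix.conjTranspose_sum, Matrix.sum_mul, Matrix.sum_mul, Matrix.trace_sum]
      refine Finset.sum_eq_zero fun i _ => ?_
      rw [Matrix.conjTranspose_smul, Matrix.smul_mul, Matrix.smul_mul, Matrix.trace_smul]
      have : (((b i : S).val)ᴴ * h * y.val).trace = 0 := congrFun hy i
      rw [this, smul_zero]
    have hφ' : ∀ y : S, (∀ x ∈ L, (x.val ᴴ * h * y.val).trace = 0) → φ y = 0 := by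
      intro y hy
      funext i
      exact hy _ (b i).2
    let P : Submodule S S :=
      { carrier := {y | φ y = 0}
        add_mem' := by
          intro y z hy hz
          show φ (y + z) = 0
          rw [map_add, hy, hz, add_zero]
        zero_mem' := map_zero φ
        smul_mem' := by
          intro s y hy
          show φ (s * y) = 0
          refine hφ' _ fun x hx => ?_
          obtain ⟨t, ht, e⟩ := hadj s.val s.2
          have h1 := hφ y hy ((⟨t, ht⟩ : S) * x) (L.smul_mem (⟨t, ht⟩ : S) hx)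
          rw [← h1]
          congr 1
          show (x.val)ᴴ * h * (s.val * y.val) = (t * x.val)ᴴ * h * y.val
          rw [Matrix.conjTranspose_mul, Matrix.mul_assoc (x.val)ᴴ tᴴ h, ← e]
          simp only [Matrix.mul_assoc] }
    refine ⟨P, ?_⟩
    have hdis : Disjoint L P := by
      rw [Submodule.disjoint_def]
      intro x hx hy
      have := hφ x hy x hx
      exact Subtype.ext (form_pos hh this)
    refine ⟨hdis, ?_⟩
    rw [codisjoint_iff]
    let Pc : Submodule ℂ S := LinearMap.ker φ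
    have hPc : Pc = P.restrictScalars ℂ := by
      ext y
      exact Iff.rfl
    have hinf : Lc ⊓ Pc = ⊥ := by
      rw [eq_bot_iff]
      rintro x ⟨hx, hy⟩
      exact (Submodule.mem_bot ℂ).2 ((Submodule.disjoint_def.1 hdis) x hx hy)
    have hdim : Module.finrank ℂ (Lc ⊔ Pc : Submodule ℂ S) = Module.finrank ℂ S := by
      have e1 := Submodule.finrank_sup_add_finrank_inf_eq Lc Pc
      rw [hinf, finrank_bot, add_zero] at e1
      have e2 := LinearMap.finrank_range_add_finrank_ker φ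
      have e3 : Module.finrank ℂ (LinearMap.range φ) ≤ Module.finrank ℂ Lc := by
        refine (Submodule.finrank_le _).trans ?_
        simp
      have e4 := Submodule.finrank_le (Lc ⊔ Pc)
      have e5 : Module.finrank ℂ Pc = Module.finrank ℂ (LinearMap.ker φ) := rfl
      omega
    have htop : Lc ⊔ Pc = ⊤ := Submodule.eq_top_of_finrank_eq hdim
    rw [eq_top_iff]
    intro x _
    have hx : x ∈ Lc ⊔ Pc := by rw [htop]; trivial
    obtain ⟨y, hy, z, hz, e⟩ := Submodule.mem_sup.1 hx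
    exact Submodule.mem_sup.2 ⟨y, hy, z, hz, e⟩
  exact this

/-- matrix units of a product of matrix algebras -/
def pu {k : ℕ} (n : Fin k → ℕ) (i : Fin k) (a b : Fin (n i)) :
    ∀ i, Matrix (Fin (n i)) (Fin (n i)) ℂ :=
  Pi.single i (Matrix.single a b 1)

theorem pu_ne {k : ℕ} (n : Fin k → ℕ) (i l : Fin k) (a b : Fin (n i)) (h : l ≠ i) :
    pu n i a b l = 0 :=
  Pi.single_eq_of_ne (M := fun i => Matrix (Fin (n i)) (Fin (n i)) ℂ) h (Matrix.single a b 1)

theorem pu_mul_same {k : ℕ} (n : Fin k → ℕ) (i : Fin k) (a b c : Fin (n i)) :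
    pu n i a b * pu n i b c = pu n i a c := by
  rw [pu, pu, pu, ← Pi.single_mul, Matrix.single_mul_single_same, mul_one]

theorem pu_mul_ne {k : ℕ} (n : Fin k → ℕ) (i : Fin k) (a b b' c : Fin (n i)) (h : b ≠ b') :
    pu n i a b * pu n i b' c = 0 := by
  rw [pu, pu, ← Pi.single_mul, Matrix.single_mul_single_of_ne _ _ _ _ h, Pi.single_zero]

theorem pu_mul_ne' {k : ℕ} (n : Fin k → ℕ) (i j : Fin k) (a b : Fin (n i)) (c d : Fin (n j))
    (h : i ≠ j) : pu n i a b * pu n j c d = 0 := by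
  funext l
  rw [Pi.mul_apply]
  by_cases hl : l = i
  · subst hl
    rw [pu_ne n j l c d h, mul_zero]
    rfl
  · rw [pu_ne n i l a b hl, zero_mul]
    rfl

theorem pu_expand {k : ℕ} (n : Fin k → ℕ) (Y : ∀ i, Matrix (Fin (n i)) (Fin (n i)) ℂ) :
    Y = ∑ i, ∑ a, ∑ b, Y i a b • pu n i a b := by
  funext l
  rw [Finset.sum_apply, Finset.sum_eq_single l]
  · rw [Finset.sum_apply]
    conv_lhs => rw [Matrix.matrix_eq_sum_single (Y l)]
    refine Finset.sum_congr rfl fun a _ => ?_
    rw [Finset.sum_apply]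
    refine Finset.sum_congr rfl fun b _ => ?_
    rw [Pi.smul_apply, pu, Pi.single_eq_same, Matrix.smul_single, smul_eq_mul, mul_one]
  · intro j _ hj
    rw [Finset.sum_apply]
    refine Finset.sum_eq_zero fun a _ => ?_
    rw [Finset.sum_apply]
    refine Finset.sum_eq_zero fun b _ => ?_
    rw [Pi.smul_apply, pu_ne n j l a b (Ne.symm hj), smul_zero]
  · intro h
    exact absurd (Finset.mem_univ _) h

end

end Pool.Agent.DRB.WedX

namespace Pool.Agent.DRB

open WedX

theorem wed_proof : Stmt_Wed := by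
  intro ι _ _ E h hh h1 hm hadj
  let S := alg E h1 hm
  have hss : IsSemisimpleRing S := semisimple S hh hadj
  obtain ⟨k, n, hn, ⟨e⟩⟩ := IsSemisimpleRing.exists_algEquiv_pi_matrix_of_isAlgClosed ℂ S
  let z : ∀ i, Fin (n i) := fun i => ⟨0, Nat.pos_of_ne_zero (hn i).out⟩
  let u : ∀ i, Fin (n i) → Fin (n i) → Matrix ι ι ℂ := fun i a b => (e.symm (pu n i a b)).val
  have umul : ∀ i a b c, u i a b * u i b c = u i a c := by
    intro i a b c
    show (e.symm (pu n i a b) * e.symm (pu n i b c)).val = _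
    rw [← map_mul, pu_mul_same]
  have umul0 : ∀ i a b b' c, b ≠ b' → u i a b * u i b' c = 0 := by
    intro i a b b' c hb
    show (e.symm (pu n i a b) * e.symm (pu n i b' c)).val = _
    rw [← map_mul, pu_mul_ne _ _ _ _ _ _ hb, map_zero]
    rfl
  have umul1 : ∀ i j a b c d, i ≠ j → u i a b * u j c d = 0 := by
    intro i j a b c d hb
    show (e.symm (pu n i a b) * e.symm (pu n j c d)).val = _
    rw [← map_mul, pu_mul_ne' _ _ _ _ _ _ _ hb, map_zero]
    rfl
  have uexp : ∀ x ∈ E, ∃ Y : ∀ i, Matrix (Fin (n i)) (Fin (n i)) ℂ,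
      x = ∑ i, ∑ a, ∑ b, Y i a b • u i a b := by
    intro x hx
    refine ⟨e ⟨x, hx⟩, ?_⟩
    have h2 := congrArg (fun Y => (e.symm Y).val) (pu_expand n (e ⟨x, hx⟩))
    simp only [AlgEquiv.symm_apply_apply, map_sum, map_smul] at h2
    refine h2.trans ?_
    push_cast
    rfl
  have uexp' : ∀ Y : ∀ i, Matrix (Fin (n i)) (Fin (n i)) ℂ,
      (∑ i, ∑ a, ∑ b, Y i a b • u i a b) ∈ E := by
    intro Y
    refine E.sum_mem fun i _ => E.sum_mem fun a _ => E.sum_mem fun b _ => E.smul_mem _ ?_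
    exact (e.symm (pu n i a b)).2
  have uone : (1 : Matrix ι ι ℂ) = ∑ i, ∑ a, u i a a := by
    obtain ⟨Y, hY⟩ : ∃ Y : ∀ i, Matrix (Fin (n i)) (Fin (n i)) ℂ, Y = 1 := ⟨_, rfl⟩
    have h2 := congrArg (fun Y => (e.symm Y).val) (pu_expand n 1)
    simp only [map_sum, map_smul, map_one] at h2
    have h3 : (1 : Matrix ι ι ℂ) = ((1 : S) : Matrix ι ι ℂ) := rfl
    rw [h3, h2]
    push_cast
    refine Finset.sum_congr rfl fun i _ => Finset.sum_congr rfl fun a _ => ?_
    rw [Finset.sum_eq_single a]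
    · rw [Pi.one_apply, Matrix.one_apply_eq, one_smul]
    · intro b _ hb
      rw [Pi.one_apply, Matrix.one_apply_ne (Ne.symm hb), zero_smul]
    · intro h'
      exact absurd (Finset.mem_univ _) h'
  let W : Fin k → Submodule ℂ (ι → ℂ) := fun i => LinearMap.range (u i (z i) (z i)).mulVecLin
  have hW : ∀ i, ∀ w ∈ W i, u i (z i) (z i) *ᵥ w = w := by
    rintro i w ⟨v, rfl⟩
    rw [Matrix.mulVecLin_apply, Matrix.mulVec_mulVec, umul]
  have hWb : ∀ i b v, u i (z i) b *ᵥ v ∈ W i := by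
    intro i b v
    refine ⟨u i (z i) b *ᵥ v, ?_⟩
    rw [Matrix.mulVecLin_apply, Matrix.mulVec_mulVec, umul]
  let m : Fin k → ℕ := fun i => Module.finrank ℂ (W i)
  let w : ∀ i, Module.Basis (Fin (m i)) ℂ (W i) := fun i => Module.finBasis ℂ (W i)
  let f : (Σ i, Fin (m i) × Fin (n i)) → (ι → ℂ) := fun e => u e.1 e.2.2 (z e.1) *ᵥ (w e.1 e.2.1).val
  have hw : ∀ i a, u i (z i) (z i) *ᵥ (w i a).val = (w i a).val := fun i a => hW i _ (w i a).2
  -- action of the units
  have act : ∀ i a b b', u i b' b *ᵥ f ⟨i, (a, b)⟩ = f ⟨i, (a, b')⟩ := by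
    intro i a b b'
    show u i b' b *ᵥ (u i b (z i) *ᵥ (w i a).val) = u i b' (z i) *ᵥ (w i a).val
    rw [Matrix.mulVec_mulVec, umul]
  have act0 : ∀ i a b b' c, c ≠ b → u i b' c *ᵥ f ⟨i, (a, b)⟩ = 0 := by
    intro i a b b' c hc
    show u i b' c *ᵥ (u i b (z i) *ᵥ (w i a).val) = 0
    rw [Matrix.mulVec_mulVec, umul0 _ _ _ _ _ hc, Matrix.zero_mulVec]
  have act1 : ∀ i j a b b' c, j ≠ i → u j b' c *ᵥ f ⟨i, (a, b)⟩ = 0 := by
    intro i j a b b' c hc
    show u j b' c *ᵥ (u i b (z i) *ᵥ (w i a).val) = 0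
    rw [Matrix.mulVec_mulVec, umul1 _ _ _ _ _ _ hc, Matrix.zero_mulVec]
  have hli : LinearIndependent ℂ f := by
    rw [Fintype.linearIndependent_iff]
    intro g hg
    have key : ∀ j b', ∑ a, g ⟨j, (a, b')⟩ • (w j a).val = 0 := by
      intro j b'
      have h2 := congrArg (fun v => u j (z j) b' *ᵥ v) hg
      simp only [Matrix.mulVec_zero] at h2
      rw [Matrix.mulVec_sum, Fintype.sum_sigma, Finset.sum_eq_single j] at h2
      · rw [Fintype.sum_prod_type] at h2
        rw [← h2]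
        refine Finset.sum_congr rfl fun a _ => ?_
        rw [Finset.sum_eq_single b']
        · rw [Matrix.mulVec_smul, act]
          show _ = g ⟨j, (a, b')⟩ • (u j (z j) (z j) *ᵥ (w j a).val)
          rw [hw]
        · intro b _ hb
          rw [Matrix.mulVec_smul, act0 _ _ _ _ _ (Ne.symm hb), smul_zero]
        · intro h'
          exact absurd (Finset.mem_univ _) h'
      · intro i _ hi
        refine Finset.sum_eq_zero fun p _ => ?_
        rw [Matrix.mulVec_smul, act1 _ _ _ _ _ _ (Ne.symm hi), smul_zero]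
      · intro h'
        exact absurd (Finset.mem_univ _) h'
    rintro ⟨j, a, b⟩
    have h3 := Fintype.linearIndependent_iff.1 (w j).linearIndependent (fun a => g ⟨j, (a, b)⟩) (by
      apply Subtype.ext
      push_cast
      exact key j b)
    exact h3 a
  have hsp : ⊤ ≤ Submodule.span ℂ (Set.range f) := by
    intro v _
    have h2 : v = ∑ i, ∑ b, u i b (z i) *ᵥ (u i (z i) b *ᵥ v) := by
      conv_lhs => rw [← Matrix.one_mulVec v, uone, Matrix.sum_mulVec]
      refine Finset.sum_congr rfl fun i _ => ?_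
      rw [Matrix.sum_mulVec]
      refine Finset.sum_congr rfl fun b _ => ?_
      rw [Matrix.mulVec_mulVec, umul]
    rw [h2]
    refine Submodule.sum_mem _ fun i _ => Submodule.sum_mem _ fun b _ => ?_
    have h3 := (w i).sum_repr ⟨_, hWb i b v⟩
    have h4 : u i (z i) b *ᵥ v = ∑ a, (w i).repr ⟨_, hWb i b v⟩ a • (w i a).val := by
      have := congrArg Subtype.val h3
      refine this.symm.trans ?_
      push_cast
      rfl
    rw [h4, Matrix.mulVec_sum]
    refine Submodule.sum_mem _ fun a _ => ?_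
    rw [Matrix.mulVec_smul]
    exact Submodule.smul_mem _ _ (Submodule.subset_span ⟨⟨i, (a, b)⟩, rfl⟩)
  let B : Module.Basis (Σ i, Fin (m i) × Fin (n i)) ℂ (ι → ℂ) := Module.Basis.mk hli hsp
  have hB : ∀ e, B e = f e := fun e => by rw [Module.Basis.mk_apply]
  have actY : ∀ Y : ∀ i, Matrix (Fin (n i)) (Fin (n i)) ℂ, ∀ i a b,
      (∑ i, ∑ a, ∑ b, Y i a b • u i a b) *ᵥ B ⟨i, (a, b)⟩ = ∑ b', Y i b' b • B ⟨i, (a, b')⟩ := by
    intro Y i a b
    rw [hB, Matrix.sum_mulVec, Finset.sum_eq_single i]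
    · rw [Matrix.sum_mulVec]
      refine Finset.sum_congr rfl fun b' _ => ?_
      rw [Matrix.sum_mulVec, Finset.sum_eq_single b]
      · rw [Matrix.smul_mulVec, act, hB]
      · intro c _ hc
        rw [Matrix.smul_mulVec, act0 _ _ _ _ _ hc, smul_zero]
      · intro h'
        exact absurd (Finset.mem_univ _) h'
    · intro j _ hj
      rw [Matrix.sum_mulVec]
      refine Finset.sum_eq_zero fun b' _ => ?_
      rw [Matrix.sum_mulVec]
      refine Finset.sum_eq_zero fun c _ => ?_
      rw [Matrix.smul_mulVec, act1 _ _ _ _ _ _ hj, smul_zero]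
    · intro h'
      exact absurd (Finset.mem_univ _) h'
  refine ⟨k, m, n, B, fun i => ⟨?_, Nat.pos_of_ne_zero (hn i).out⟩, fun x => ⟨?_, ?_⟩⟩
  · rw [Nat.pos_iff_ne_zero]
    intro h0
    have h2 : W i = ⊥ := Submodule.finrank_eq_zero.1 h0
    have h3 : u i (z i) (z i) = 0 := by
      refine Matrix.ext_of_mulVec_single fun j => ?_
      have h4 : u i (z i) (z i) *ᵥ Pi.single j 1 ∈ W i := hWb _ _ _
      rw [h2, Submodule.mem_bot] at h4
      rw [h4, Matrix.zero_mulVec]
    have h4 : e.symm (pu n i (z i) (z i)) = 0 := Subtype.ext h3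
    have h5 : pu n i (z i) (z i) = 0 := by
      rw [← e.apply_symm_apply (pu n i (z i) (z i)), h4, map_zero]
    have h6 := congrFun (congrFun (congrFun h5 i) (z i)) (z i)
    rw [pu, Pi.single_eq_same, Matrix.single_apply_same] at h6
    exact one_ne_zero h6
  · intro hx
    obtain ⟨Y, hY⟩ := uexp x hx
    refine ⟨Y, fun i a b => ?_⟩
    rw [hY, actY]
  · rintro ⟨Y, hY⟩
    have : x = ∑ i, ∑ a, ∑ b, Y i a b • u i a b := by
      have h2 : Matrix.toLin' x = Matrix.toLin' (∑ i, ∑ a, ∑ b, Y i a b • u i a b) := by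
        refine B.ext fun e => ?_
        obtain ⟨i, a, b⟩ := e
        rw [Matrix.toLin'_apply, Matrix.toLin'_apply, hY, actY]
      exact Matrix.toLin'.injective h2
    rw [this]
    exact uexp' Y

end Pool.Agent.DRB
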