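import Pool.Agent.DRB.Assembly
import Pool.Agent.DRB.POS2
import Pool.Agent.DRB.Wed
import Pool.Agent.DRB.Dec
import Pool.Agent.DRB.Gal3
import Pool.Agent.DRB.Ros
import Pool.Agent.DRB.Mix
import Pool.Agent.DRB.T1a
import Pool.Agent.DRB.T1b
import Pool.Agent.DRB.T1c
import Pool.Agent.DRB.T1p
import Pool.Agent.DRB.T1e
import Pool.Agent.DRB.FinX
import Pool.Agent.DRB.Irr3
import Pool.Agent.DRB.Irrx
import Pool.Agent.DRB.Tors3
import Pool.Agent.DRB.Form
import Pool.Agent.DRB.Sig
import Pool.Agent.DRB.Lnk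
import Pool.Agent.DRB.H53
import Pool.Agent.DRB.Trans
import Pool.Agent.DRB.DIAG
import Pool.Agent.DRB.Ad33
import Pool.Agent.DRB.Ad13
import Pool.Agent.DRB.GT3
import Pool.Agent.DRB.MAIN3

/-!
# De Rham-Betti conjecture for abelian varieties of rank at most two over their endomorphisms: assembly
-/

namespace Pool.Agent.DRB

theorem pos2C : Stmt_Pos2 := pos2_proof (herm_proof leg_proof) leg_proof

theorem decC : Stmt_Dec := dec_proof pos2C wed_proof

theorem gal3C : Stmt_Gal3 := gal3_proof decC aut2_proof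

theorem rosC : Stmt_Ros := ros_proof pos2C leg_proof

theorem mixC : Stmt_Mix := mix_proof decC

theorem t1pC : Stmt_T1p := t1p_proof (t1b_proof slavC qp_proof) (t1c_proof (t1a_proof slavC) qp_proof)

theorem t1eC : Stmt_T1e := t1e_proof t1pC (herm_proof leg_proof) leg_proof

theorem finxC : Stmt_FinX := finx_proof finC gb1C

theorem irr3C : Stmt_Irr3 :=
  irr3_proof t1eC finC gb1C (gb3_proof descaC) gb4_proof descqC pos2C gal3C leg_proof

theorem irrxC : Stmt_IrrX := irrx_proof irr3C gb1C

theorem tors3C : Stmt_Tors3 := tors3_proof (ldp_proof aut2_proof descaC) irrxC gb1C gal3C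

theorem formC : Stmt_Form := form_proof rosC leg_proof irrxC finxC gb1C

theorem h53C : Stmt_H53 := h53_proof finxC formC lind_proof aut2_proof gb1C gb4_proof gal3C rosC

theorem ad13C : Stmt_Ad13 := ad13_proof ad2_proof (ad33_proof ad2_proof pgl_proof)

theorem gt3C : Stmt_Gt3 :=
  gt3_proof (jd_proof adj_proof) exp_proof jnf_proof ad13C adj_proof diag_proof homx_proof

theorem sigC : Stmt_Sig := sig_proof (herm_proof leg_proof) decC irrxC finxC gb1C gb4_proof

theorem lnkC : Stmt_Lnk :=
  lnk_proof sigC formC finxC irrxC gb1C gb4_proof gal3C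

/-- The main theorem. -/
theorem main3C : MainStatement3 :=
  main3_proof decC gal3C mixC formC finxC irrxC tors3C lnkC h53C trans_proof gt3C gb1C
    gb2_proof (rev_proof leg_proof)

end Pool.Agent.DRB
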