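import Pool.Agent.DRB.Stmts

open scoped BigOperators

namespace Pool.Agent.DRB.AUXX

theorem house_le {L : Type} [Field L] [NumberField L] {ξ : L} {A : ℝ} (hA : 0 ≤ A)
    (h : ∀ σ : L →+* ℂ, ‖σ ξ‖ ≤ A) : NumberField.house ξ ≤ A := by
  rw [NumberField.house_eq_sup']
  have : (Finset.univ.sup' Finset.univ_nonempty (fun φ : L →+* ℂ => ‖φ ξ‖₊)) ≤
      (⟨A, hA⟩ : NNReal) := Finset.sup'_le _ _ fun σ _ => h σ
  exact_mod_cast this

theorem raw (L : Type) [Field L] [NumberField L] : ∃ c : ℝ,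
    ∀ (α β : Type) [Fintype α] [Fintype β] (M : Matrix α β (NumberField.RingOfIntegers L))
    (A : ℝ) (p q : ℕ), Fintype.card α = p → Fintype.card β = q → 0 < p → p < q → M ≠ 0 →
    (∀ i j, NumberField.house (algebraMap (NumberField.RingOfIntegers L) L (M i j)) ≤ A) →
    ∃ x : β → NumberField.RingOfIntegers L, x ≠ 0 ∧ Matrix.mulVec M x = 0 ∧
      ∀ j, NumberField.house (x j).1 ≤ c * ((c * q * A) ^ ((p : ℝ) / (q - p))) := by
  classical
  refine ⟨?c, ?h⟩
  case h =>
    intro α β _ _ M A p q hp hq h0 hpq hM hA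
    exact NumberField.house.exists_ne_zero_int_vec_house_le L M hM h0 hpq hq hA hp

theorem sieg (L : Type) [Field L] [NumberField L] : ∃ C : ℝ, 1 ≤ C ∧
    ∀ (α β : Type) [Fintype α] [Fintype β] (M : α → β → NumberField.RingOfIntegers L) (A : ℝ),
    1 ≤ A → 0 < Fintype.card β → 2 * Fintype.card α ≤ Fintype.card β →
    (∀ i j, NumberField.house (M i j : L) ≤ A) →
    ∃ x : β → NumberField.RingOfIntegers L, x ≠ 0 ∧ (∀ i, ∑ j, M i j * x j = 0) ∧
      ∀ j, NumberField.house (x j : L) ≤ C * Fintype.card β * A := by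
  classical
  obtain ⟨c₀, hraw⟩ := raw L
  set c : ℝ := max 1 |c₀| with hc
  have hc1 : 1 ≤ c := le_max_left _ _
  have hcc : |c₀| ≤ c := le_max_right _ _
  refine ⟨c * c, by nlinarith, ?_⟩
  intro α β _ _ M A hA hβ hαβ hM
  have hβR : (1 : ℝ) ≤ Fintype.card β := by exact_mod_cast hβ
  obtain ⟨j0⟩ := Fintype.card_pos_iff.mp hβ
  by_cases hM0 : M = 0
  · refine ⟨fun _ => 1, ?_, ?_, ?_⟩
    · intro h
      have h1 := congrFun h j0
      simp only [Pi.zero_apply] at h1
      exact one_ne_zero h1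
    · intro i
      simp [hM0]
    · intro j
      have h1 : NumberField.house ((1 : NumberField.RingOfIntegers L) : L) ≤ 1 := by
        refine house_le zero_le_one fun σ => ?_
        simp
      refine h1.trans ?_
      have : 1 ≤ c * c := by nlinarith
      calc (1 : ℝ) ≤ c * c * 1 * 1 := by linarith
        _ ≤ c * c * Fintype.card β * A := by
            refine mul_le_mul (mul_le_mul_of_nonneg_left hβR (by positivity)) hA zero_le_one
              (by positivity)
  · have hα0 : 0 < Fintype.card α := by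
      rw [Fintype.card_pos_iff]
      by_contra hne
      rw [not_nonempty_iff] at hne
      exact hM0 (funext fun i => hne.elim i)
    have hlt : Fintype.card α < Fintype.card β := by omega
    obtain ⟨ξ, hξ0, hξ1, hξ2⟩ := hraw α β M A _ _ rfl rfl hα0 hlt hM0 hM
    refine ⟨ξ, hξ0, ?_, ?_⟩
    · intro i
      have := congrFun hξ1 i
      simpa [Matrix.mulVec, dotProduct] using this
    · intro l
      refine (hξ2 l).trans ?_
      set q : ℝ := (Fintype.card β : ℝ) with hq
      set p : ℝ := (Fintype.card α : ℝ) with hp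
      have hp0 : 0 < p := by
        rw [hp]
        exact_mod_cast hα0
      have hpq : p < q := by
        rw [hp, hq]
        exact_mod_cast hlt
      have h2pq : 2 * p ≤ q := by
        rw [hp, hq]
        exact_mod_cast hαβ
      have hq0 : 0 < q := by linarith
      have he1 : p / (q - p) ≤ 1 := by
        rw [div_le_one (by linarith)]
        linarith
      have he0 : 0 ≤ p / (q - p) := div_nonneg hp0.le (by linarith)
      have h3 : |c₀ * q * A| ≤ c * q * A := by
        rw [abs_mul, abs_mul, abs_of_pos hq0, abs_of_pos (by linarith : (0 : ℝ) < A)]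
        exact mul_le_mul_of_nonneg_right (mul_le_mul_of_nonneg_right hcc hq0.le) (by linarith)
      have h4 : 1 ≤ c * q * A := by
        have h5 : 1 ≤ c * q := by nlinarith
        nlinarith
      calc c₀ * (c₀ * q * A) ^ (p / (q - p)) ≤ |c₀ * (c₀ * q * A) ^ (p / (q - p))| :=
            le_abs_self _
        _ = |c₀| * |(c₀ * q * A) ^ (p / (q - p))| := abs_mul _ _
        _ ≤ |c₀| * |c₀ * q * A| ^ (p / (q - p)) :=
            mul_le_mul_of_nonneg_left (Real.abs_rpow_le_abs_rpow _ _) (abs_nonneg _)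
        _ ≤ c * (c * q * A) ^ (p / (q - p)) :=
            mul_le_mul hcc (Real.rpow_le_rpow (abs_nonneg _) h3 he0)
              (Real.rpow_nonneg (abs_nonneg _) _) (by linarith)
        _ ≤ c * (c * q * A) ^ (1 : ℝ) :=
            mul_le_mul_of_nonneg_left (Real.rpow_le_rpow_of_exponent_le h4 he1) (by linarith)
        _ = c * c * q * A := by rw [Real.rpow_one]; ring

theorem length_cl {d : ℕ} (κ : Fin d → ℕ) : (cl κ).length = ∑ j, κ j := by
  unfold cl
  rw [List.length_flatMap]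
  simp only [List.length_replicate]
  rw [← List.sum_ofFn, List.ofFn_eq_map]

theorem mono {L : Type} [Field L] {d N : ℕ} (s : Fin (d + 1) → Fin N) (e : Fin (d + 1) → ℕ) :
    (∏ j, MvPolynomial.X (s j) ^ (e j) : MvPolynomial (Fin N) L) =
      MvPolynomial.monomial (∑ j, Finsupp.single (s j) (e j)) 1 := by
  rw [MvPolynomial.monomial_sum_one]
  exact Finset.prod_congr rfl fun j _ => MvPolynomial.X_pow_eq_monomial

theorem deg_mono {d N : ℕ} (s : Fin (d + 1) → Fin N) (e : Fin (d + 1) → ℕ) :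
    (∑ j, Finsupp.single (s j) (e j)).degree = ∑ j, e j := by
  rw [map_sum]
  exact Finset.sum_congr rfl fun j _ => by simp

end Pool.Agent.DRB.AUXX

namespace Pool.Agent.DRB

theorem aux_proof (hDer : Stmt_Der) : Stmt_Aux := by
  intro L _ _ d N P x s
  obtain ⟨q, C0, hq, hC0, hder⟩ := hDer L d N P x
  obtain ⟨C1, hC1, hsieg⟩ := AUXX.sieg L
  have hqR : (1 : ℝ) ≤ q := by exact_mod_cast hq
  have hqC : 1 ≤ (q : ℝ) * C0 := by nlinarith
  refine ⟨C1 * (2 * (q * C0)) ^ (d + 1) * (d + 1), ?_, ?_⟩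
  · have h1 : 1 ≤ (2 * ((q : ℝ) * C0)) ^ (d + 1) := one_le_pow₀ (by linarith)
    have h2 : (1 : ℝ) ≤ (d : ℝ) + 1 := by
      have : (0 : ℝ) ≤ d := Nat.cast_nonneg d
      linarith
    have h3 : 1 ≤ C1 * (2 * ((q : ℝ) * C0)) ^ (d + 1) := by nlinarith
    nlinarith
  intro D T hD hT hDT
  classical
  set M : ℕ := (d + 1) * D with hM
  set ev : (Fin d → ℕ) → (Fin (d + 1) → ℕ) → L := fun κ e =>
    MvPolynomial.eval x ((cl κ).foldr (fun l Q => MvPolynomial.mkDerivation L (P l) Q)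
      (∏ j, MvPolynomial.X (s j) ^ (e j))) with hev
  -- integrality and size
  have hkey : ∀ (κ : Fin d → ℕ) (e : Fin (d + 1) → ℕ), ∑ j, κ j < T → (∀ j, e j ≤ D) →
      IsIntegral ℤ ((q : L) ^ (M + T) * ev κ e) ∧
      NumberField.house ((q : L) ^ (M + T) * ev κ e) ≤
        ((q : ℝ) * C0) ^ (M + T) * ((M + T : ℕ) : ℝ) ^ T := by
    intro κ e hκ he
    obtain ⟨h1, h2⟩ := hder (∑ j, Finsupp.single (s j) (e j)) (cl κ)
    rw [← AUXX.mono, AUXX.deg_mono, AUXX.length_cl] at h1 h2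
    have hle : ∑ j, e j + ∑ j, κ j ≤ M + T := by
      have h3 : ∑ j, e j ≤ M := by
        calc ∑ j, e j ≤ ∑ _j : Fin (d + 1), D := Finset.sum_le_sum fun j _ => he j
          _ = M := by simp [hM]
      omega
    obtain ⟨r, hr⟩ := Nat.exists_eq_add_of_le hle
    have hpow : (q : L) ^ (M + T) * ev κ e =
        (q : L) ^ r * ((q : L) ^ (∑ j, e j + ∑ j, κ j) * ev κ e) := by
      rw [hr, pow_add]
      ring
    constructor
    · rw [hpow]
      refine IsIntegral.mul ?_ h1
      exact (isIntegral_algebraMap (R := ℤ) (x := (q : ℤ)) |>.pow r) |> fun h => by simpa using h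
    · have h4 : NumberField.house ((q : L) ^ (M + T) * ev κ e) =
          (q : ℝ) ^ (M + T) * NumberField.house (ev κ e) := by
        have h5 := NumberField.house_nat_mul (ev κ e) (q ^ (M + T))
        push_cast at h5
        exact h5
      rw [h4, mul_pow, mul_assoc]
      refine mul_le_mul_of_nonneg_left ?_ (by positivity)
      refine h2.trans ?_
      have h6 : C0 ^ (∑ j, e j + ∑ j, κ j) ≤ C0 ^ (M + T) := pow_le_pow_right₀ hC0 hle
      have h7 : (((∑ j, e j + ∑ j, κ j : ℕ)) : ℝ) ^ (∑ j, κ j) ≤ ((M + T : ℕ) : ℝ) ^ T := by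
        have h8 : (((∑ j, e j + ∑ j, κ j : ℕ)) : ℝ) ≤ ((M + T : ℕ) : ℝ) := by
          exact_mod_cast hle
        have h9 : (1 : ℝ) ≤ ((M + T : ℕ) : ℝ) := by
          have : 1 ≤ M + T := by omega
          exact_mod_cast this
        calc (((∑ j, e j + ∑ j, κ j : ℕ)) : ℝ) ^ (∑ j, κ j)
            ≤ ((M + T : ℕ) : ℝ) ^ (∑ j, κ j) := pow_le_pow_left₀ (Nat.cast_nonneg _) h8 _
          _ ≤ ((M + T : ℕ) : ℝ) ^ T := pow_le_pow_right₀ h9 hκ.le
      exact mul_le_mul h6 h7 (by positivity) (by positivity)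
  -- the system
  let α : Type := {κ : Fin d → Fin T // ∑ j, ((κ j : Fin T) : ℕ) < T}
  let β : Type := Fin (d + 1) → Fin D
  have hMint : ∀ (κ : α) (e : β), IsIntegral ℤ
      ((q : L) ^ (M + T) * ev (fun j => ((κ.1 j : Fin T) : ℕ)) (fun j => ((e j : Fin D) : ℕ))) :=
    fun κ e => (hkey _ _ κ.2 (fun j => (e j).2.le)).1
  have hβ : Fintype.card β = D ^ (d + 1) := by simp [β]
  have hα : Fintype.card α ≤ T ^ d := by
    calc Fintype.card α ≤ Fintype.card (Fin d → Fin T) :=
          Fintype.card_le_of_injective (fun κ : α => κ.1) Subtype.val_injective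
      _ = T ^ d := by simp
  have hA1 : 1 ≤ ((q : ℝ) * C0) ^ (M + T) * ((M + T : ℕ) : ℝ) ^ T := by
    have h1 : 1 ≤ ((q : ℝ) * C0) ^ (M + T) := one_le_pow₀ hqC
    have h2 : (1 : ℝ) ≤ ((M + T : ℕ) : ℝ) ^ T := by
      refine one_le_pow₀ ?_
      have : 1 ≤ M + T := by omega
      exact_mod_cast this
    nlinarith
  obtain ⟨p, hp0, hp1, hp2⟩ := hsieg α β (fun κ e => ⟨_, hMint κ e⟩)
    (((q : ℝ) * C0) ^ (M + T) * ((M + T : ℕ) : ℝ) ^ T) hA1
    (by rw [hβ]; positivity) (by rw [hβ]; omega)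
    (fun κ e => (hkey _ _ κ.2 (fun j => (e j).2.le)).2)
  refine ⟨p, hp0, ?_, ?_⟩
  · intro κ hκ
    have hκT : ∀ j, κ j < T := fun j =>
      lt_of_le_of_lt (Finset.single_le_sum (fun i _ => Nat.zero_le (κ i)) (Finset.mem_univ j)) hκ
    have h1 := hp1 ⟨fun j => ⟨κ j, hκT j⟩, hκ⟩
    have h2 := congrArg (algebraMap (NumberField.RingOfIntegers L) L) h1
    rw [map_sum, map_zero] at h2
    simp only [map_mul] at h2
    have hq0 : (q : L) ^ (M + T) ≠ 0 := by
      have : q ≠ 0 := by omega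
      exact pow_ne_zero _ (by exact_mod_cast this)
    have h3 : (q : L) ^ (M + T) * ∑ e : β, (p e : L) * ev κ (fun j => ((e j : Fin D) : ℕ)) = 0 := by
      rw [← h2, Finset.mul_sum]
      refine Finset.sum_congr rfl fun e _ => ?_
      have h4 : (algebraMap (NumberField.RingOfIntegers L) L)
          (⟨(q : L) ^ (M + T) * ev κ (fun j => ((e j : Fin D) : ℕ)),
            hMint ⟨fun j => ⟨κ j, hκT j⟩, hκ⟩ e⟩ : NumberField.RingOfIntegers L) =
          (q : L) ^ (M + T) * ev κ (fun j => ((e j : Fin D) : ℕ)) := rfl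
      rw [h4]
      ring
    rcases mul_eq_zero.mp h3 with h5 | h5
    · exact absurd h5 hq0
    · exact h5
  · intro e
    refine (hp2 e).trans ?_
    rw [hβ]
    push_cast
    have hDR : (1 : ℝ) ≤ D := by exact_mod_cast hD
    have hTR : (1 : ℝ) ≤ T := by exact_mod_cast hT
    have hd0 : (0 : ℝ) ≤ d := Nat.cast_nonneg d
    -- the pieces
    have e1 : C1 ≤ C1 ^ (D + T) := le_self_pow₀ hC1 (by omega)
    have e2 : (D : ℝ) ^ (d + 1) ≤ ((2 : ℝ) ^ (d + 1)) ^ (D + T) := by
      have h1 : (D : ℝ) ≤ 2 ^ D := by exact_mod_cast Nat.lt_two_pow_self.le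
      calc (D : ℝ) ^ (d + 1) ≤ ((2 : ℝ) ^ D) ^ (d + 1) := pow_le_pow_left₀ (by positivity) h1 _
        _ ≤ ((2 : ℝ) ^ (D + T)) ^ (d + 1) :=
            pow_le_pow_left₀ (by positivity) (pow_le_pow_right₀ (by norm_num) (by omega)) _
        _ = ((2 : ℝ) ^ (d + 1)) ^ (D + T) := by rw [← pow_mul, ← pow_mul, mul_comm]
    have e3 : ((q : ℝ) * C0) ^ (M + T) ≤ (((q : ℝ) * C0) ^ (d + 1)) ^ (D + T) := by
      rw [← pow_mul]
      refine pow_le_pow_right₀ hqC ?_
      rw [hM]
      nlinarith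
    have e4 : ((M : ℝ) + T) ^ T ≤ ((d : ℝ) + 1) ^ (D + T) * ((D : ℝ) + T) ^ T := by
      have h1 : (M : ℝ) + T ≤ ((d : ℝ) + 1) * ((D : ℝ) + T) := by
        rw [hM]
        push_cast
        nlinarith
      calc ((M : ℝ) + T) ^ T ≤ (((d : ℝ) + 1) * ((D : ℝ) + T)) ^ T :=
            pow_le_pow_left₀ (by positivity) h1 _
        _ = ((d : ℝ) + 1) ^ T * ((D : ℝ) + T) ^ T := mul_pow _ _ _
        _ ≤ _ := by
            refine mul_le_mul_of_nonneg_right ?_ (by positivity)
            exact pow_le_pow_right₀ (by linarith) (by omega)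
    calc C1 * (D : ℝ) ^ (d + 1) * (((q : ℝ) * C0) ^ (M + T) * ((M : ℝ) + T) ^ T)
        ≤ C1 ^ (D + T) * ((2 : ℝ) ^ (d + 1)) ^ (D + T) *
          ((((q : ℝ) * C0) ^ (d + 1)) ^ (D + T) *
            (((d : ℝ) + 1) ^ (D + T) * ((D : ℝ) + T) ^ T)) := by
          refine mul_le_mul (mul_le_mul e1 e2 (by positivity) (by positivity))
            (mul_le_mul e3 e4 (by positivity) (by positivity)) (by positivity) (by positivity)
      _ = (C1 * (2 * ((q : ℝ) * C0)) ^ (d + 1) * ((d : ℝ) + 1)) ^ (D + T) *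
          ((D : ℝ) + T) ^ T := by
          rw [mul_pow, mul_pow, mul_pow, mul_pow]
          ring

end Pool.Agent.DRB
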