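import Pool.Agent.DRB.Defs3
import Pool.Agent.DRB.Basic

/-!
# De Rham-Betti conjecture, second theorem: common tools
-/

open scoped BigOperators
open Matrix

namespace Pool.Agent.DRB

noncomputable section

/-- The complex conjugate vector. -/
def cv {ι : Type} (v : ι → ℂ) : ι → ℂ := fun i => (starRingEnd ℂ) (v i)

/-- A decomposition `H_1(A, ℂ) = ⊕ ℂ^{m i} ⊗ ℂ^{n i}`, with basis `B ⟨i, (a, b)⟩ = e_a ⊗ e_b`, such that
`End(A) ⊗ ℂ` is the algebra of all `⊕ 1 ⊗ Y i` and its commutant is the algebra of all `⊕ X i ⊗ 1`; `p i` is the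
projection onto the `i`-th summand. -/
structure Dec {g : ℕ} (A : AbVar g) where
  k : ℕ
  m : Fin k → ℕ
  n : Fin k → ℕ
  mpos : ∀ i, 0 < m i
  npos : ∀ i, 0 < n i
  B : Module.Basis (Σ i, Fin (m i) × Fin (n i)) ℂ (Idx g → ℂ)
  hE : ∀ x, x ∈ A.EndC ↔ ∃ Y : ∀ i, Matrix (Fin (n i)) (Fin (n i)) ℂ, ∀ i a b,
    x *ᵥ B ⟨i, (a, b)⟩ = ∑ b', Y i b' b • B ⟨i, (a, b')⟩
  hC : ∀ x, A.Comm x ↔ ∃ X : ∀ i, Matrix (Fin (m i)) (Fin (m i)) ℂ, ∀ i a b,
    x *ᵥ B ⟨i, (a, b)⟩ = ∑ a', X i a' a • B ⟨i, (a', b)⟩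
  p : Fin k → Matrix (Idx g) (Idx g) ℂ
  hp : ∀ i e, p i *ᵥ B e = if e.1 = i then B e else 0
  comp : ∀ q, A.IsComp q ↔ ∃ i, q = p i
  dim : ∀ i, A.comDim (p i) = m i ^ 2

namespace Dec

variable {g : ℕ} {A : AbVar g} (d : Dec A)

/-- The action of `x` (commuting with the endomorphisms) on `ℂ^{m i}`. -/
def X (x : Matrix (Idx g) (Idx g) ℂ) (i : Fin d.k) : Matrix (Fin (d.m i)) (Fin (d.m i)) ℂ :=
  Matrix.of fun a' a =>
    d.B.repr (x *ᵥ d.B ⟨i, (a, ⟨0, d.npos i⟩)⟩) ⟨i, (a', ⟨0, d.npos i⟩)⟩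

theorem X_unique (x : Matrix (Idx g) (Idx g) ℂ) (Z : ∀ i, Matrix (Fin (d.m i)) (Fin (d.m i)) ℂ)
    (h : ∀ i a b, x *ᵥ d.B ⟨i, (a, b)⟩ = ∑ a', Z i a' a • d.B ⟨i, (a', b)⟩) (i : Fin d.k) :
    d.X x i = Z i := by
  ext a' a
  rw [X, Matrix.of_apply, h, map_sum, Finsupp.finsetSum_apply, Finset.sum_eq_single a']
  · rw [map_smul, Finsupp.smul_apply, Module.Basis.repr_self, Finsupp.single_eq_same, smul_eq_mul,
      mul_one]
  · intro c _ hc
    rw [map_smul, Finsupp.smul_apply, Module.Basis.repr_self, Finsupp.single_apply, if_neg, smul_zero]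
    intro h'
    apply hc
    have := congrArg (fun e : (Σ i, Fin (d.m i) × Fin (d.n i)) => (e.2.1 : ℕ)) h'
    exact Fin.ext this
  · intro h'
    exact absurd (Finset.mem_univ _) h'

theorem X_spec {x : Matrix (Idx g) (Idx g) ℂ} (hx : A.Comm x) (i : Fin d.k) (a : Fin (d.m i))
    (b : Fin (d.n i)) : x *ᵥ d.B ⟨i, (a, b)⟩ = ∑ a', d.X x i a' a • d.B ⟨i, (a', b)⟩ := by
  obtain ⟨Z, hZ⟩ := (d.hC x).1 hx
  rw [d.X_unique x Z hZ i]
  exact hZ i a b

theorem X_mul {x y : Matrix (Idx g) (Idx g) ℂ} (hx : A.Comm x) (hy : A.Comm y) (i : Fin d.k) :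
    d.X (x * y) i = d.X x i * d.X y i := by
  refine d.X_unique (x * y) (fun i => d.X x i * d.X y i) (fun i a b => ?_) i
  rw [← Matrix.mulVec_mulVec, d.X_spec hy, Matrix.mulVec_sum]
  simp only [Matrix.mulVec_smul, d.X_spec hx, Finset.smul_sum, Matrix.mul_apply, Finset.sum_smul]
  rw [Finset.sum_comm]
  refine Finset.sum_congr rfl fun c _ => Finset.sum_congr rfl fun e _ => ?_
  rw [smul_smul, mul_comm]

theorem X_one (i : Fin d.k) : d.X 1 i = 1 := by
  refine d.X_unique 1 (fun i => 1) (fun i a b => ?_) i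
  rw [Matrix.one_mulVec, Finset.sum_eq_single a]
  · simp
  · intro c _ hc
    simp [hc]
  · intro h
    exact absurd (Finset.mem_univ _) h

theorem comm_one : A.Comm 1 := by
  intro α _
  rw [Matrix.one_mul, Matrix.mul_one]

theorem comm_mul {x y : Matrix (Idx g) (Idx g) ℂ} (hx : A.Comm x) (hy : A.Comm y) :
    A.Comm (x * y) := by
  intro α hα
  rw [Matrix.mul_assoc, hy α hα, ← Matrix.mul_assoc, hx α hα, Matrix.mul_assoc]

theorem comm_inv {x : GL (Idx g) ℂ} (hx : A.Comm x.val) : A.Comm (x⁻¹).val := by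
  intro α hα
  have h := hx α hα
  have h2 : (x⁻¹).val * x.val = 1 := by
    rw [← Units.val_mul, inv_mul_cancel]; rfl
  have h3 : x.val * (x⁻¹).val = 1 := by
    rw [← Units.val_mul, mul_inv_cancel]; rfl
  have h1 : (x⁻¹).val * (x.val * AbVar.toC α) * (x⁻¹).val =
      (x⁻¹).val * (AbVar.toC α * x.val) * (x⁻¹).val := by rw [h]
  rw [← Matrix.mul_assoc, h2, Matrix.one_mul] at h1
  rw [Matrix.mul_assoc, Matrix.mul_assoc, h3, Matrix.mul_one] at h1
  exact h1.symm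

theorem X_inv {x : GL (Idx g) ℂ} (hx : A.Comm x.val) (i : Fin d.k) :
    d.X x.val i * d.X (x⁻¹).val i = 1 ∧ d.X (x⁻¹).val i * d.X x.val i = 1 := by
  constructor
  · rw [← d.X_mul hx (comm_inv hx), ← Units.val_mul, mul_inv_cancel, Units.val_one, X_one]
  · rw [← d.X_mul (comm_inv hx) hx, ← Units.val_mul, inv_mul_cancel, Units.val_one, X_one]

/-- The action on `ℂ^{m i}` as an invertible matrix. -/
def XGL (x : GL (Idx g) ℂ) (hx : A.Comm x.val) (i : Fin d.k) : GL (Fin (d.m i)) ℂ :=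
  ⟨d.X x.val i, d.X (x⁻¹).val i, (d.X_inv hx i).1, (d.X_inv hx i).2⟩

theorem X_det_ne {x : GL (Idx g) ℂ} (hx : A.Comm x.val) (i : Fin d.k) : (d.X x.val i).det ≠ 0 := by
  intro h
  have := congrArg Matrix.det (d.X_inv hx i).1
  rw [Matrix.det_mul, h, zero_mul, Matrix.det_one] at this
  exact zero_ne_one this

theorem isComp (i : Fin d.k) : A.IsComp (d.p i) := (d.comp _).2 ⟨i, rfl⟩

theorem p_injective : Function.Injective d.p := by
  intro i j h
  by_contra hij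
  have h1 := d.hp i ⟨i, (⟨0, d.mpos i⟩, ⟨0, d.npos i⟩)⟩
  rw [h, d.hp, if_neg (by exact hij), if_pos rfl] at h1
  exact d.B.ne_zero _ h1.symm

/-- The matrix of the linear map which sends `e_a ⊗ e_b` in the `j`-th summand to
`∑ P a' a • e_{a'} ⊗ ∑ Q b' b • e_{b'}` in the `i`-th summand. -/
def T (i j : Fin d.k) (P : Matrix (Fin (d.m i)) (Fin (d.m j)) ℂ)
    (Q : Matrix (Fin (d.n i)) (Fin (d.n j)) ℂ) : Matrix (Idx g) (Idx g) ℂ :=
  LinearMap.toMatrix' (d.B.constr ℂ fun e =>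
    if h : e.1 = j then ∑ a', ∑ b', (P a' (Fin.cast (by rw [h]) e.2.1) *
      Q b' (Fin.cast (by rw [h]) e.2.2)) • d.B ⟨i, (a', b')⟩ else 0)

theorem T_apply (i j : Fin d.k) (P : Matrix (Fin (d.m i)) (Fin (d.m j)) ℂ)
    (Q : Matrix (Fin (d.n i)) (Fin (d.n j)) ℂ) (a : Fin (d.m j)) (b : Fin (d.n j)) :
    d.T i j P Q *ᵥ d.B ⟨j, (a, b)⟩ = ∑ a', ∑ b', (P a' a * Q b' b) • d.B ⟨i, (a', b')⟩ := by
  rw [T, ← Matrix.toLin'_apply, Matrix.toLin'_toMatrix', Module.Basis.constr_basis, dif_pos rfl]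
  rfl

theorem T_apply_ne (i j l : Fin d.k) (hl : l ≠ j) (P : Matrix (Fin (d.m i)) (Fin (d.m j)) ℂ)
    (Q : Matrix (Fin (d.n i)) (Fin (d.n j)) ℂ) (a : Fin (d.m l)) (b : Fin (d.n l)) :
    d.T i j P Q *ᵥ d.B ⟨l, (a, b)⟩ = 0 := by
  rw [T, ← Matrix.toLin'_apply, Matrix.toLin'_toMatrix', Module.Basis.constr_basis, dif_neg]
  exact hl

/-- Two matrices with the same values on the basis are equal. -/
theorem ext_B {x y : Matrix (Idx g) (Idx g) ℂ} (h : ∀ i a b, x *ᵥ d.B ⟨i, (a, b)⟩ = y *ᵥ d.B ⟨i, (a, b)⟩) :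
    x = y := by
  have : Matrix.toLin' x = Matrix.toLin' y := by
    refine d.B.ext fun e => ?_
    obtain ⟨i, a, b⟩ := e
    rw [Matrix.toLin'_apply, Matrix.toLin'_apply]
    exact h i a b
  exact Matrix.toLin'.injective this

theorem mul_T {x : Matrix (Idx g) (Idx g) ℂ} (hx : A.Comm x) (i j : Fin d.k)
    (P : Matrix (Fin (d.m i)) (Fin (d.m j)) ℂ) (Q : Matrix (Fin (d.n i)) (Fin (d.n j)) ℂ) :
    x * d.T i j P Q = d.T i j (d.X x i * P) Q := by
  refine d.ext_B fun l a b => ?_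
  rw [← Matrix.mulVec_mulVec]
  by_cases h : l = j
  · subst h
    rw [T_apply, T_apply, Matrix.mulVec_sum]
    simp only [Matrix.mulVec_sum, Matrix.mulVec_smul, d.X_spec hx, Finset.smul_sum, Matrix.mul_apply,
      Finset.sum_mul, Finset.sum_smul]
    rw [Finset.sum_congr rfl fun a' _ => Finset.sum_comm, Finset.sum_comm]
    refine Finset.sum_congr rfl fun a' _ => ?_
    rw [Finset.sum_comm]
    refine Finset.sum_congr rfl fun b' _ => Finset.sum_congr rfl fun c _ => ?_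
    rw [smul_smul]
    congr 1
    ring
  · rw [T_apply_ne _ _ _ _ h, T_apply_ne _ _ _ _ h, Matrix.mulVec_zero]

theorem T_mul {x : Matrix (Idx g) (Idx g) ℂ} (hx : A.Comm x) (i j : Fin d.k)
    (P : Matrix (Fin (d.m i)) (Fin (d.m j)) ℂ) (Q : Matrix (Fin (d.n i)) (Fin (d.n j)) ℂ) :
    d.T i j P Q * x = d.T i j (P * d.X x j) Q := by
  refine d.ext_B fun l a b => ?_
  rw [← Matrix.mulVec_mulVec]
  by_cases h : l = j
  · subst h
    rw [d.X_spec hx, T_apply, Matrix.mulVec_sum]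
    simp only [Matrix.mulVec_smul, T_apply, Finset.smul_sum, Matrix.mul_apply, Finset.sum_mul,
      Finset.sum_smul]
    rw [Finset.sum_comm]
    refine Finset.sum_congr rfl fun a' _ => ?_
    rw [Finset.sum_comm]
    refine Finset.sum_congr rfl fun b' _ => Finset.sum_congr rfl fun c _ => ?_
    rw [smul_smul]
    congr 1
    ring
  · rw [T_apply_ne _ _ _ _ h, d.X_spec hx, Matrix.mulVec_sum]
    refine Finset.sum_eq_zero fun c _ => ?_
    rw [Matrix.mulVec_smul, T_apply_ne _ _ _ _ h, smul_zero]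

theorem T_inj (i j : Fin d.k) {P P' : Matrix (Fin (d.m i)) (Fin (d.m j)) ℂ}
    {Q : Matrix (Fin (d.n i)) (Fin (d.n j)) ℂ} {b' : Fin (d.n i)} {b : Fin (d.n j)} (hQ : Q b' b ≠ 0)
    (h : d.T i j P Q = d.T i j P' Q) : P = P' := by
  ext a' a
  have h1 := congrArg (fun x : Matrix (Idx g) (Idx g) ℂ =>
    d.B.repr (x *ᵥ d.B ⟨j, (a, b)⟩) ⟨i, (a', b')⟩) h
  have key : ∀ R : Matrix (Fin (d.m i)) (Fin (d.m j)) ℂ,
      d.B.repr (d.T i j R Q *ᵥ d.B ⟨j, (a, b)⟩) ⟨i, (a', b')⟩ = R a' a * Q b' b := by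
    intro R
    rw [T_apply, map_sum, Finsupp.finsetSum_apply, Finset.sum_eq_single a']
    · rw [map_sum, Finsupp.finsetSum_apply, Finset.sum_eq_single b']
      · rw [map_smul, Finsupp.smul_apply, Module.Basis.repr_self, Finsupp.single_eq_same, smul_eq_mul,
          mul_one]
      · intro c _ hc
        rw [map_smul, Finsupp.smul_apply, Module.Basis.repr_self, Finsupp.single_apply, if_neg,
          smul_zero]
        intro h'
        apply hc
        have := congrArg (fun e : (Σ i, Fin (d.m i) × Fin (d.n i)) => (e.2.2 : ℕ)) h'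
        exact Fin.ext this
      · intro h'
        exact absurd (Finset.mem_univ _) h'
    · intro c _ hc
      rw [map_sum, Finsupp.finsetSum_apply]
      refine Finset.sum_eq_zero fun e _ => ?_
      rw [map_smul, Finsupp.smul_apply, Module.Basis.repr_self, Finsupp.single_apply, if_neg,
          smul_zero]
      intro h'
      apply hc
      have := congrArg (fun e : (Σ i, Fin (d.m i) × Fin (d.n i)) => (e.2.1 : ℕ)) h'
      exact Fin.ext this
    · intro h'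
      exact absurd (Finset.mem_univ _) h'
  simp only [key] at h1
  exact mul_right_cancel₀ hQ h1

end Dec

end

end Pool.Agent.DRB
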