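import Mathlib

/-!
# De Rham-Betti conjecture: the objects of the statement

Everything is over the field of algebraic numbers (the elements of ℂ which are algebraic over ℚ).

* `AbVar g` : an abelian variety `A` of dimension `g` over the algebraic numbers, given analytically:
  `A(ℂ) = ℂ^g / Λ`, an effective ample divisor `D` not passing through the origin, given by a theta
  function `θ`, and functions `f_k = num k / θ ^ wt` generating the ring of regular functions of the affine
  variety `A - D` (over the algebraic numbers).  `dz_1, .., dz_g` is a basis of the invariant differentials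
  over the algebraic numbers.
* `AbVar.per` : the period matrix: rows = the basis `dz_k`, `d (∂_k log θ)` of the algebraic de Rham
  cohomology `H^1_dR(A)` (differentials of the second kind), columns = the basis of `H_1(A, ℤ) = Λ`.
* `AbVar.EndQ` : the algebra `End(A) ⊗ ℚ`.
* `TAct`, `IsDRB` : de Rham-Betti subobjects of the tensor spaces `⊕ H_1(A)^{⊗ a} (k)`.
-/

open scoped BigOperators
open Matrix

namespace Pool.Agent.DRB

noncomputable section

/-- The index set of the basis of `H_1(A, ℤ)` and of the basis of `H^1_dR(A)`. -/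
abbrev Idx (g : ℕ) := Fin g ⊕ Fin g

/-- The partial derivative in direction of the `i`-th coordinate. -/
def pd {g : ℕ} (i : Fin g) (f : (Fin g → ℂ) → ℂ) (z : Fin g → ℂ) : ℂ :=
  fderiv ℂ f z (Pi.single i 1)

/-- A polynomial with algebraic coefficients. -/
def AlgPoly {σ : Type} (P : MvPolynomial σ ℂ) : Prop := ∀ m, IsAlgebraic ℚ (P.coeff m)

/-- An abelian variety of dimension `g` over the algebraic numbers, with an ample divisor `θ = 0`. -/
structure AbVar (g : ℕ) where
  /-- a basis of the lattice `Λ` in `ℂ^g` -/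
  lat : Idx g → (Fin g → ℂ)
  lat_indep : LinearIndependent ℝ lat
  /-- the theta function of the divisor -/
  θ : (Fin g → ℂ) → ℂ
  θ_entire : Differentiable ℂ θ
  θ_zero : θ 0 ≠ 0
  /-- linear and constant parts of the exponents of the factors of automorphy -/
  lin : Idx g → (Fin g → ℂ)
  cst : Idx g → ℂ
  θ_aut : ∀ i z, θ (z + lat i) = Complex.exp ((∑ k, lin i k * z k) + cst i) * θ z
  /-- the number of generators of the ring of regular functions on the complement of the divisor -/
  nfun : ℕ
  wt : ℕ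
  num : Fin nfun → (Fin g → ℂ) → ℂ
  num_entire : ∀ k, Differentiable ℂ (num k)
  num_aut : ∀ k i z,
    num k (z + lat i) = Complex.exp (wt * ((∑ k, lin i k * z k) + cst i)) * num k z
  /-- the ring generated by the `f_k = num k / θ ^ wt` over the algebraic numbers is stable under the
  derivations `∂/∂z_i` (the differentials `dz_i` are defined over the algebraic numbers) -/
  alg_f : ∀ i k, ∃ P : MvPolynomial (Fin nfun) ℂ, AlgPoly P ∧ ∀ z, θ z ≠ 0 →
    pd i (fun w => num k w / θ w ^ wt) z = MvPolynomial.eval (fun l => num l z / θ z ^ wt) P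
  /-- the second logarithmic derivatives of `θ` belong to this ring (so the classes `d (∂_j log θ)`
  belong to the algebraic de Rham cohomology over the algebraic numbers) -/
  alg_θ : ∀ i j, ∃ P : MvPolynomial (Fin nfun) ℂ, AlgPoly P ∧ ∀ z, θ z ≠ 0 →
    pd i (fun w => pd j θ w / θ w) z = MvPolynomial.eval (fun l => num l z / θ z ^ wt) P
  /-- the origin is an algebraic point -/
  alg_zero : ∀ k, IsAlgebraic ℚ (num k 0 / θ 0 ^ wt)
  /-- the functions `f_k` give an immersion at the origin -/
  imm : ∀ v : Fin g → ℂ, (∀ k, fderiv ℂ (fun w => num k w / θ w ^ wt) 0 v = 0) → v = 0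
  /-- the divisor is ample: the differentials of the second kind `dz_k`, `d (∂_k log θ)` form a basis of
  the first cohomology, that is, the period matrix is invertible -/
  nondeg : IsUnit (Matrix.of (fun (r : Idx g) (i : Idx g) =>
    Sum.elim (fun k => lat i k) (fun k => lin i k) r)).det

namespace AbVar

variable {g : ℕ} (A : AbVar g)

/-- The coordinate functions of the affine variety. -/
def f (k : Fin A.nfun) (z : Fin g → ℂ) : ℂ := A.num k z / A.θ z ^ A.wt

/-- The integrals of the second kind `∂_j log θ`. -/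
def Z (j : Fin g) (z : Fin g → ℂ) : ℂ := pd j A.θ z / A.θ z

/-- The period matrix (comparison isomorphism `H_1(A, ℚ) ⊗ ℂ → H_1^dR(A) ⊗ ℂ`): the entry in row
`inl k` is the integral of `dz_k`, the entry in row `inr k` the integral of `d (∂_k log θ)`. -/
def per : Matrix (Idx g) (Idx g) ℂ :=
  Matrix.of fun r i => Sum.elim (fun k => A.lat i k) (fun k => A.lin i k) r

/-- The Riemann form of the divisor on `H_1(A, ℤ)` (an integral alternating matrix). -/
def riem : Matrix (Idx g) (Idx g) ℂ :=
  Matrix.of fun i j => (∑ k, (A.lat i k * A.lin j k - A.lat j k * A.lin i k)) /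
    (2 * Real.pi * Complex.I)

/-- A rational matrix as a complex matrix. -/
def toC {ι : Type} (α : Matrix ι ι ℚ) : Matrix ι ι ℂ := α.map (algebraMap ℚ ℂ)

/-- `α`, acting on `H_1(A, ℚ)`, is an endomorphism of `A` (up to isogeny): it acts on the algebraic de Rham
homology by a matrix `ρ` with algebraic entries which preserves the Hodge filtration (equivalently, `α` is
complex linear on `ℂ^g = Lie A`). -/
def IsEnd (α : Matrix (Idx g) (Idx g) ℚ) : Prop :=
  ∃ ρ : Matrix (Idx g) (Idx g) ℂ, (∀ r s, IsAlgebraic ℚ (ρ r s)) ∧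
    (∀ i j, ρ (Sum.inl i) (Sum.inr j) = 0) ∧ A.per * toC α = ρ * A.per

theorem isAlgebraic_sum {κ : Type} (s : Finset κ) (f : κ → ℂ) (h : ∀ k ∈ s, IsAlgebraic ℚ (f k)) :
    IsAlgebraic ℚ (∑ k ∈ s, f k) := by
  have : (∑ k ∈ s, f k) ∈ algebraicClosure ℚ ℂ :=
    sum_mem fun k hk => mem_algebraicClosure_iff.2 (h k hk)
  exact mem_algebraicClosure_iff.1 this

theorem toC_add {ι : Type} (α β : Matrix ι ι ℚ) : toC (α + β) = toC α + toC β := by
  ext i j; simp [toC]

theorem toC_mul {ι : Type} [Fintype ι] (α β : Matrix ι ι ℚ) : toC (α * β) = toC α * toC β := by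
  unfold toC; exact Matrix.map_mul

/-- The algebra `End(A) ⊗ ℚ`, as an algebra of endomorphisms of `H_1(A, ℚ)`. -/
def EndQ : Subalgebra ℚ (Matrix (Idx g) (Idx g) ℚ) where
  carrier := {α | A.IsEnd α}
  mul_mem' := by
    rintro α β ⟨ρ, h1, h2, h3⟩ ⟨ρ', h1', h2', h3'⟩
    refine ⟨ρ * ρ', fun r s => ?_, fun i j => ?_, ?_⟩
    · rw [Matrix.mul_apply]
      exact isAlgebraic_sum _ _ fun k _ => (h1 r k).mul (h1' k s)
    · rw [Matrix.mul_apply, Fintype.sum_sum_type]
      simp [h2, h2']
    · rw [toC_mul, ← Matrix.mul_assoc, h3, Matrix.mul_assoc, h3', Matrix.mul_assoc]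
  add_mem' := by
    rintro α β ⟨ρ, h1, h2, h3⟩ ⟨ρ', h1', h2', h3'⟩
    refine ⟨ρ + ρ', fun r s => (h1 r s).add (h1' r s), fun i j => ?_, ?_⟩
    · simp [h2, h2']
    · rw [toC_add, Matrix.mul_add, Matrix.add_mul, h3, h3']
  algebraMap_mem' := by
    intro q
    refine ⟨(algebraMap ℚ ℂ q) • 1, fun r s => ?_, fun i j => ?_, ?_⟩
    · rw [Matrix.smul_apply, Matrix.one_apply]
      split_ifs
      · simpa using isAlgebraic_algebraMap (A := ℂ) q
      · simpa using isAlgebraic_zero
    · simp
    · have h : toC ((algebraMap ℚ (Matrix (Idx g) (Idx g) ℚ)) q) =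
          (algebraMap ℚ ℂ q) • (1 : Matrix (Idx g) (Idx g) ℂ) := by
        ext r s
        rw [toC, Matrix.map_apply, Matrix.algebraMap_matrix_apply, Matrix.smul_apply, Matrix.one_apply]
        split_ifs <;> simp
      rw [h, Matrix.mul_smul, Matrix.smul_mul, Matrix.one_mul, Matrix.mul_one]

/-- `β` is the Rosati adjoint of `α` for the Riemann form. -/
def IsRosati (α β : Matrix (Idx g) (Idx g) ℚ) : Prop :=
  (toC α)ᵀ * A.riem = A.riem * toC β

/-- The homomorphisms `End(A) ⊗ ℚ → ℂ`. -/
abbrev Chr := A.EndQ →ₐ[ℚ] ℂ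

/-- The complex conjugate of a character. -/
def conjChr (χ : A.Chr) : A.Chr :=
  (Complex.conjAe.toAlgHom.restrictScalars ℚ).comp χ

/-- The action of field automorphisms of `ℂ` on characters. -/
def galChr (σ : ℂ ≃ₐ[ℚ] ℂ) (χ : A.Chr) : A.Chr := (σ : ℂ →ₐ[ℚ] ℂ).comp χ

/-- A real character. -/
def IsRealChr (χ : A.Chr) : Prop := ∀ α, (χ α).im = 0

/-- The eigenspace of a character in `H_1(A, ℚ) ⊗ ℂ`. -/
def eig (χ : A.Chr) : Submodule ℂ (Idx g → ℂ) where
  carrier := {v | ∀ α : A.EndQ, (toC (α : Matrix (Idx g) (Idx g) ℚ)).mulVec v = χ α • v}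
  add_mem' := by
    intro v w hv hw α
    rw [Matrix.mulVec_add, hv α, hw α, smul_add]
  zero_mem' := by
    intro α
    simp
  smul_mem' := by
    intro c v hv α
    rw [Matrix.mulVec_smul, hv α, smul_comm]

/-- The condition on the CM factors: if `R` is a nonzero group of odd functions on the set of
characters, stable under the automorphisms of `ℂ`, then it contains a nonzero multiple of
`δ_χ - δ_{χ^c} - δ_χ' + δ_{χ'^c}` for two different nonreal characters `χ, χ'`.  (There is no condition if all
characters are real.) -/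
def CMCond : Prop :=
  open Classical in
  ∀ R : AddSubgroup (A.Chr → ℤ),
    (∀ n ∈ R, ∀ χ, n (A.conjChr χ) = - n χ) →
    (∀ σ : ℂ ≃ₐ[ℚ] ℂ, ∀ n ∈ R, (fun χ => n (A.galChr σ χ)) ∈ R) →
    R ≠ ⊥ →
    ∃ χ χ' : A.Chr, χ ≠ χ' ∧ ¬ A.IsRealChr χ ∧ ¬ A.IsRealChr χ' ∧ ∃ n ∈ R, ∃ c : ℤ, c ≠ 0 ∧
      ∀ ψ, n ψ = c * ((if ψ = χ then 1 else 0) - (if ψ = A.conjChr χ then 1 else 0)
        - (if ψ = χ' then 1 else 0) + (if ψ = A.conjChr χ' then 1 else 0))

/-- The class of abelian varieties of the theorem: `A` is isogenous to a product of pairwise non isogenous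
simple factors, each with real multiplication by a totally real field of degree equal to its dimension (the
real characters of `End(A) ⊗ ℚ`, with two dimensional eigenspaces) or with complex multiplication (the
nonreal characters, with one dimensional eigenspaces), and the CM part satisfies `CMCond`. -/
structure Hyp : Prop where
  comm : ∀ α ∈ A.EndQ, ∀ β ∈ A.EndQ, α * β = β * α
  real_dim : ∀ χ : A.Chr, A.IsRealChr χ → Module.finrank ℂ (A.eig χ) = 2
  nonreal_dim : ∀ χ : A.Chr, ¬ A.IsRealChr χ → Module.finrank ℂ (A.eig χ) = 1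
  cm : A.CMCond

end AbVar

/-! ### Tensor spaces -/

/-- The data of a tensor space `⊕_r V^{⊗ a r} (k r)`. -/
structure TData where
  n : ℕ
  a : Fin n → ℕ
  k : Fin n → ℤ

/-- The index set of the standard basis of the tensor space. -/
abbrev TIdx (t : TData) (ι : Type) := Σ r : Fin t.n, (Fin (t.a r) → ι)

/-- The action of `(x, ν)` on the tensor space: `x` acts on `V`, `ν` on the Tate object `1(1)`.
(`x` may be any linear map `V → V'`.) -/
def TAct (t : TData) {ι ι' : Type} [Fintype ι] (x : Matrix ι' ι ℂ) (ν : ℂ) :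
    (TIdx t ι → ℂ) →ₗ[ℂ] (TIdx t ι' → ℂ) where
  toFun u p := ν ^ (t.k p.1) * ∑ J : Fin (t.a p.1) → ι, (∏ s, x (p.2 s) (J s)) * u ⟨p.1, J⟩
  map_add' u v := by
    funext p
    simp only [Pi.add_apply, mul_add, Finset.sum_add_distrib]
  map_smul' c u := by
    funext p
    simp only [Pi.smul_apply, smul_eq_mul, RingHom.id_apply, Finset.mul_sum]
    refine Finset.sum_congr rfl fun J _ => ?_
    ring

/-- A complex subspace of `ℂ^κ` defined over `ℚ`. -/
def RatSpan {κ : Type} (D : Submodule ℂ (κ → ℂ)) : Prop :=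
  D ≤ Submodule.span ℂ {v | v ∈ D ∧ ∀ k, ∃ q : ℚ, v k = q}

/-- A complex subspace of `ℂ^κ` defined over the algebraic numbers. -/
def AlgSpan {κ : Type} (D : Submodule ℂ (κ → ℂ)) : Prop :=
  D ≤ Submodule.span ℂ {v | v ∈ D ∧ ∀ k, IsAlgebraic ℚ (v k)}

/-- `D` is (the complexification of) a de Rham-Betti subobject of the tensor space
`⊕_r H_1(A)^{⊗ a r} (k r)`: it is rational for the Betti structure and its image under the comparison
isomorphism is rational over the algebraic numbers for the de Rham structure. -/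
def IsDRB {g : ℕ} (A : AbVar g) (t : TData) (D : Submodule ℂ (TIdx t (Idx g) → ℂ)) : Prop :=
  RatSpan D ∧ AlgSpan (D.map (TAct t A.per (2 * Real.pi * Complex.I)))

/-- The (complex points of the) de Rham-Betti group of `A`: the pairs `(x, ν)`, where `x` acts on
`H_1(A, ℚ) ⊗ ℂ` and `ν` on the Tate object, preserving all de Rham-Betti subobjects of all tensor spaces. -/
def InGdRB {g : ℕ} (A : AbVar g) (x : GL (Idx g) ℂ) (ν : ℂˣ) : Prop :=
  ∀ (t : TData) (D : Submodule ℂ (TIdx t (Idx g) → ℂ)), IsDRB A t D →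
    D.map (TAct t (x : Matrix (Idx g) (Idx g) ℂ) (ν : ℂ)) = D

/-- The de Rham-Betti conjecture for `A`: the de Rham-Betti group is the group of all similitudes of the
Riemann form which commute with the endomorphisms. -/
def MainStatement : Prop :=
  ∀ (g : ℕ) (A : AbVar g), A.Hyp → ∀ (x : GL (Idx g) ℂ) (ν : ℂˣ),
    InGdRB A x ν ↔
      ((∀ α ∈ A.EndQ, (x : Matrix (Idx g) (Idx g) ℂ) * AbVar.toC α = AbVar.toC α * x) ∧
        (x : Matrix (Idx g) (Idx g) ℂ)ᵀ * A.riem * x = (ν : ℂ) • A.riem)

end

end Pool.Agent.DRB
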