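import Pool.Agent.DRB.Defs

/-!
# De Rham-Betti conjecture: abelian varieties of rank at most two over their endomorphism algebra

Definitions of the second theorem.  `A` is an abelian variety over the algebraic numbers (structure
`AbVar`), `H_1(A, ℂ) = ℂ ^ Idx g`.  As a module over `End(A) ⊗ ℂ = ∏ M_{n_i}(ℂ)` it is
`⊕ W_i ⊗ ℂ^{n_i}`; the summands are the images of the minimal central idempotents `p` of `End(A) ⊗ ℂ`
(predicate `IsComp`), and `comDim p = (dim W_i) ^ 2`.
-/

open scoped BigOperators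
open Matrix

namespace Pool.Agent.DRB

noncomputable section

/-- The complex conjugate matrix. -/
def cc {ι κ : Type} (x : Matrix ι κ ℂ) : Matrix ι κ ℂ := x.map (starRingEnd ℂ)

/-- The indicator function. -/
def ind {κ : Type} (r p : κ) : ℤ := open Classical in if r = p then 1 else 0

namespace AbVar

variable {g : ℕ} (A : AbVar g)

/-- `End(A) ⊗ ℂ`, acting on `H_1(A, ℂ)`. -/
def EndC : Submodule ℂ (Matrix (Idx g) (Idx g) ℂ) :=
  Submodule.span ℂ {x | ∃ α, A.IsEnd α ∧ x = toC α}

/-- `x` commutes with the endomorphisms of `A`. -/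
def Comm (x : Matrix (Idx g) (Idx g) ℂ) : Prop :=
  ∀ α, A.IsEnd α → x * toC α = toC α * x

/-- `p` is a central idempotent of `End(A) ⊗ ℂ`. -/
def IsCIdem (p : Matrix (Idx g) (Idx g) ℂ) : Prop :=
  p ∈ A.EndC ∧ p * p = p ∧ A.Comm p

/-- `p` is a minimal central idempotent of `End(A) ⊗ ℂ`, that is, the projection of `H_1(A, ℂ)` onto one of
its homogeneous components. -/
def IsComp (p : Matrix (Idx g) (Idx g) ℂ) : Prop :=
  A.IsCIdem p ∧ p ≠ 0 ∧ ∀ q, A.IsCIdem q → q * p = q → q = 0 ∨ q = p

/-- The dimension of the space of endomorphisms of the homogeneous component `p` commuting with the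
endomorphisms of `A`: the square of the multiplicity of the simple module in this component. -/
def comDim (p : Matrix (Idx g) (Idx g) ℂ) : ℕ :=
  Module.finrank ℂ (Submodule.span ℂ {x | A.Comm x ∧ p * x = x})

/-- The component `p` has mixed Hodge type: it meets both `F^0 H_1(A, ℂ)` (the kernel of the map to
`Lie A`) and its complex conjugate. -/
def Mixed (p : Matrix (Idx g) (Idx g) ℂ) : Prop :=
  (∃ v : Idx g → ℂ, v ≠ 0 ∧ p.mulVec v = v ∧ ∀ k : Fin g, (A.per.mulVec v) (Sum.inl k) = 0) ∧
  (∃ v : Idx g → ℂ, v ≠ 0 ∧ p.mulVec v = v ∧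
    ∀ k : Fin g, (A.per.mulVec fun i => (starRingEnd ℂ) (v i)) (Sum.inl k) = 0)

/-- The condition on the components which are not real: a nonzero group `R` of odd functions on the set of
components, stable under the automorphisms of `ℂ`, contains a nonzero multiple of
`δ_p - δ_{p^c} - δ_q + δ_{q^c}` for two different nonreal components `p, q`, where `q = p^c` (`c` is
complex conjugation) or both have multiplicity one.  (There is no condition if all components are real.) -/
def CMCond3 : Prop :=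
  ∀ R : AddSubgroup (Matrix (Idx g) (Idx g) ℂ → ℤ),
    (∀ n ∈ R, ∀ p, ¬ A.IsComp p → n p = 0) →
    (∀ n ∈ R, ∀ p, n (cc p) = - n p) →
    (∀ σ : ℂ ≃ₐ[ℚ] ℂ, ∀ n ∈ R, (fun p => n (p.map σ)) ∈ R) →
    R ≠ ⊥ →
    ∃ p q, A.IsComp p ∧ A.IsComp q ∧ cc p ≠ p ∧ cc q ≠ q ∧ p ≠ q ∧
      (q = cc p ∨ (A.comDim p = 1 ∧ A.comDim q = 1)) ∧
      ∃ n ∈ R, ∃ c : ℤ, c ≠ 0 ∧
        ∀ r, n r = c * (ind r p - ind r (cc p) - ind r q + ind r (cc q))

/-- The class of abelian varieties of the theorem. -/
structure Rank2 : Prop where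
  /-- the simple modules occur with multiplicity at most two in `H_1(A, ℂ)` -/
  le : ∀ p, A.IsComp p → A.comDim p ≤ 4
  /-- two components of multiplicity two, not both real and not complex conjugate, are separated by
  the Hodge types of their conjugates -/
  sep : ∀ p q, A.IsComp p → A.IsComp q → A.comDim p = 4 → A.comDim q = 4 → cc p ≠ p →
    q ≠ p → q ≠ cc p → ∃ σ : ℂ ≃ₐ[ℚ] ℂ, ¬ (A.Mixed (p.map σ) ↔ A.Mixed (q.map σ))
  cm : A.CMCond3

end AbVar

/-- The de Rham-Betti conjecture for `A`: the de Rham-Betti group is the group of all similitudes of the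
Riemann form which commute with the endomorphisms. -/
def MainStatement3 : Prop :=
  ∀ (g : ℕ) (A : AbVar g), A.Rank2 → ∀ (x : GL (Idx g) ℂ) (ν : ℂˣ),
    InGdRB A x ν ↔
      (A.Comm x.val ∧ x.valᵀ * A.riem * x.val = ν.val • A.riem)

end

end Pool.Agent.DRB
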