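import Pool.Agent.DRB.Defs3

/-!
# De Rham-Betti conjecture: abelian varieties with large endomorphism algebras, complex multiplication

Definitions of the third theorem: components of multiplicity two as in `Defs3`, and arbitrary
CM factors with abelian CM fields.
-/

open scoped BigOperators
open Matrix

namespace Pool.Agent.DRB

noncomputable section

namespace AbVar

variable {g : ℕ} (A : AbVar g)

/-- The component `p` is not contained in `F^0 H_1(A, ℂ)` (the kernel of the map to `Lie A`).  If the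
multiplicity is one, this means that `p` has Hodge type `(-1, 0)` (otherwise it has type `(0, -1)`). -/
def Hol (p : Matrix (Idx g) (Idx g) ℂ) : Prop :=
  ∃ (k : Fin g) (j : Idx g), (A.per * p) (Sum.inl k) j ≠ 0

/-- `p` is a CM component: a component of multiplicity one. -/
def IsCM (p : Matrix (Idx g) (Idx g) ℂ) : Prop := A.IsComp p ∧ A.comDim p = 1

/-- The Hodge weight of the character `n` (a combination of CM components) after the automorphism `σ`. -/
def hw (n : Matrix (Idx g) (Idx g) ℂ →₀ ℤ) (σ : ℂ ≃ₐ[ℚ] ℂ) : ℤ :=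
  open Classical in n.sum fun p k => if A.Hol (p.map σ) then k else 0

/-- The odd part (up to a factor two) of the Hodge weight. -/
def typ (n : Matrix (Idx g) (Idx g) ℂ →₀ ℤ) (σ : ℂ ≃ₐ[ℚ] ℂ) : ℤ :=
  open Classical in n.sum fun p k => if A.Hol (p.map σ) then k else -k

/-- The character `(n, m)` is trivial on the Mumford-Tate group: all its conjugates have weight zero. -/
def IsHodgeChar (n : Matrix (Idx g) (Idx g) ℂ →₀ ℤ) (m : ℤ) : Prop :=
  (∀ p ∈ n.support, A.IsCM p) ∧ ∀ σ : ℂ ≃ₐ[ℚ] ℂ, A.hw n σ + m = 0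

/-- All Hodge relations between the characters on the CM components hold for `(x, ν)`: `x` acts on the
CM component `p` by the scalar `y p`, and `ν` on the Tate object. -/
def HodgeRels (x : GL (Idx g) ℂ) (ν : ℂˣ) : Prop :=
  ∀ (n : Matrix (Idx g) (Idx g) ℂ →₀ ℤ) (m : ℤ), A.IsHodgeChar n m →
    ∀ y : Matrix (Idx g) (Idx g) ℂ → ℂ, (∀ p ∈ n.support, (x : Matrix (Idx g) (Idx g) ℂ) * p = y p • p) →
      (n.prod fun p k => y p ^ k) * (ν : ℂ) ^ m = 1

/-- The CM fields are abelian over `ℚ`: the automorphisms of `ℂ` act on the CM components through a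
commutative group. -/
def AbCM : Prop :=
  ∀ p, A.IsCM p → ∀ σ τ : ℂ ≃ₐ[ℚ] ℂ, (p.map σ).map τ = (p.map τ).map σ

/-- A Galois stable group `R` of characters which are not all Hodge contains one whose type
function is not zero and takes only the values `0, c, -c`. -/
def Trit : Prop :=
  ∀ R : AddSubgroup (Matrix (Idx g) (Idx g) ℂ →₀ ℤ),
    (∀ n ∈ R, ∀ p ∈ n.support, A.IsCM p) →
    (∀ σ : ℂ ≃ₐ[ℚ] ℂ, ∀ n ∈ R, n.mapDomain (fun p => p.map σ) ∈ R) →
    (∃ n ∈ R, ∃ σ, A.typ n σ ≠ 0) →
    ∃ n ∈ R, ∃ c : ℤ, (∃ σ, A.typ n σ ≠ 0) ∧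
      ∀ σ, A.typ n σ = 0 ∨ A.typ n σ = c ∨ A.typ n σ = -c

/-- The condition on the nonreal components of multiplicity two: a Galois stable group `R` of odd functions
on the components, which do not all vanish on the components of multiplicity two, contains a nonzero multiple of
`δ_p - δ_{p^c}` for a nonreal component `p` of multiplicity two. -/
def UCond : Prop :=
  ∀ R : AddSubgroup (Matrix (Idx g) (Idx g) ℂ → ℤ),
    (∀ n ∈ R, ∀ p, ¬ A.IsComp p → n p = 0) →
    (∀ n ∈ R, ∀ p, n (cc p) = - n p) →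
    (∀ σ : ℂ ≃ₐ[ℚ] ℂ, ∀ n ∈ R, (fun p => n (p.map σ)) ∈ R) →
    (∃ n ∈ R, ∃ p, A.comDim p = 4 ∧ n p ≠ 0) →
    ∃ p, A.IsComp p ∧ A.comDim p = 4 ∧ cc p ≠ p ∧
      ∃ n ∈ R, ∃ c : ℤ, c ≠ 0 ∧ ∀ r, n r = c * (ind r p - ind r (cc p))

/-- The class of abelian varieties of the theorem. -/
structure Rank2CM : Prop where
  /-- the simple modules occur with multiplicity at most two in `H_1(A, ℂ)` -/
  le : ∀ p, A.IsComp p → A.comDim p ≤ 4
  /-- two components of multiplicity two, not both real and not complex conjugate, are separated by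
  the Hodge types of their conjugates -/
  sep : ∀ p q, A.IsComp p → A.IsComp q → A.comDim p = 4 → A.comDim q = 4 → cc p ≠ p →
    q ≠ p → q ≠ cc p → ∃ σ : ℂ ≃ₐ[ℚ] ℂ, ¬ (A.Mixed (p.map σ) ↔ A.Mixed (q.map σ))
  u : A.UCond
  cm : A.AbCM ∨ A.Trit

end AbVar

/-- The de Rham-Betti conjecture for `A`: the de Rham-Betti group is the Mumford-Tate group. -/
def MainStatement4 : Prop :=
  ∀ (g : ℕ) (A : AbVar g), A.Rank2CM → ∀ (x : GL (Idx g) ℂ) (ν : ℂˣ),
    InGdRB A x ν ↔
      (A.Comm x.val ∧ x.valᵀ * A.riem * x.val = ν.val • A.riem ∧ A.HodgeRels x ν)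

end

end Pool.Agent.DRB
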