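import Pool.Agent.DRB.Stmts3

/-!
# De Rham-Betti squad, module LNK: different components of rank two are not isomorphic up to a character
-/

open scoped BigOperators
open Matrix

namespace Pool.Agent.DRB

noncomputable section

namespace LnkX

variable {g : ℕ} {A : AbVar g}

theorem comm_of_gam (h1 : Stmt_Gb1) {q : GL (Idx g) ℂ × ℂˣ} (hq : q ∈ Gam A) : A.Comm q.1.val :=
  fun α hα => (h1 g A q hq).1 α hα

theorem T_smul (d : Dec A) (i j : Fin d.k) (a : ℂ) (P : Matrix (Fin (d.m i)) (Fin (d.m j)) ℂ)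
    (Q : Matrix (Fin (d.n i)) (Fin (d.n j)) ℂ) : d.T i j (a • P) Q = a • d.T i j P Q := by
  refine d.ext_B fun l x b => ?_
  rw [Matrix.smul_mulVec]
  by_cases h : l = j
  · subst h
    rw [d.T_apply, d.T_apply, Finset.smul_sum]
    refine Finset.sum_congr rfl fun a' _ => ?_
    rw [Finset.smul_sum]
    refine Finset.sum_congr rfl fun b' _ => ?_
    rw [smul_smul, Matrix.smul_apply, smul_eq_mul, mul_assoc]
  · rw [d.T_apply_ne _ _ _ h, d.T_apply_ne _ _ _ h, smul_zero]

theorem p_mul_T (d : Dec A) (i j : Fin d.k) (P : Matrix (Fin (d.m i)) (Fin (d.m j)) ℂ)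
    (Q : Matrix (Fin (d.n i)) (Fin (d.n j)) ℂ) : d.p i * d.T i j P Q = d.T i j P Q := by
  refine d.ext_B fun l x b => ?_
  rw [← Matrix.mulVec_mulVec]
  by_cases h : l = j
  · subst h
    rw [d.T_apply, Matrix.mulVec_sum]
    refine Finset.sum_congr rfl fun a' _ => ?_
    rw [Matrix.mulVec_sum]
    refine Finset.sum_congr rfl fun b' _ => ?_
    rw [Matrix.mulVec_smul, d.hp, if_pos rfl]
  · rw [d.T_apply_ne _ _ _ h, Matrix.mulVec_zero]

theorem T_mul_p (d : Dec A) (i j : Fin d.k) (P : Matrix (Fin (d.m i)) (Fin (d.m j)) ℂ)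
    (Q : Matrix (Fin (d.n i)) (Fin (d.n j)) ℂ) : d.T i j P Q * d.p j = d.T i j P Q := by
  refine d.ext_B fun l x b => ?_
  rw [← Matrix.mulVec_mulVec, d.hp]
  by_cases h : l = j
  · rw [if_pos h]
  · rw [if_neg h, Matrix.mulVec_zero, d.T_apply_ne _ _ _ h]

theorem T_ne (d : Dec A) (i j : Fin d.k) {P : Matrix (Fin (d.m i)) (Fin (d.m j)) ℂ} (hP : P ≠ 0)
    {Q : Matrix (Fin (d.n i)) (Fin (d.n j)) ℂ} {b' : Fin (d.n i)} {b : Fin (d.n j)}
    (hQ : Q b' b ≠ 0) : d.T i j P Q ≠ 0 := by
  intro h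
  apply hP
  refine d.T_inj i j hQ ?_
  rw [h]
  have h1 := T_smul d i j 0 P Q
  rw [zero_smul, zero_smul] at h1
  exact h1.symm

theorem cc_cc {ι κ : Type} (x : Matrix ι κ ℂ) : cc (cc x) = x := by
  ext i j
  simp [cc]

end LnkX

open LnkX in
theorem lnk_proof (hSig : Stmt_Sig) (hForm : Stmt_Form) (hFinX : Stmt_FinX) (hIrrX : Stmt_IrrX)
    (h1 : Stmt_Gb1) (h4 : Stmt_Gb4) (hGal : Stmt_Gal3) : Stmt_Lnk := by
  classical
  intro g A hA d i j hi hj hij hcc P hP
  by_contra hcon
  push Not at hcon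
  -- semi-invariance
  have hsemi : ∀ q ∈ Gam A, ∃ a : ℂ, a ≠ 0 ∧ d.X q.1.val i * P * d.X (q.1⁻¹).val j = a • P ∧
      d.X q.1.val i * P = a • (P * d.X q.1.val j) := by
    intro q hq
    obtain ⟨a, ha⟩ := hcon q hq
    have hC := comm_of_gam h1 hq
    have h2 : d.X q.1.val i * P = a • (P * d.X q.1.val j) := by
      have h3 := congrArg (fun Z => Z * d.X q.1.val j) ha
      simp only [Matrix.mul_assoc, (d.X_inv hC j).2, Matrix.mul_one, Matrix.smul_mul] at h3
      exact h3
    refine ⟨a, fun ha0 => hP ?_, ha, h2⟩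
    rw [ha0, zero_smul] at h2
    have h3 := congrArg (fun Z => d.X (q.1⁻¹).val i * Z) h2
    simp only [← Matrix.mul_assoc, (d.X_inv hC i).2, Matrix.one_mul, Matrix.mul_zero] at h3
    exact h3
  by_cases hreal : cc (d.p i) = d.p i ∧ cc (d.p j) = d.p j
  · -- both components are real
    obtain ⟨hri, hrj⟩ := hreal
    have hker : LinearMap.ker P.mulVecLin = ⊥ := by
      rcases hIrrX g A d j (LinearMap.ker P.mulVecLin) (fun q hq v hv => by
        obtain ⟨a, ha0, -, ha⟩ := hsemi q hq
        rw [LinearMap.mem_ker, Matrix.mulVecLin_apply] at hv ⊢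
        have h2 := congrArg (fun Z => Z *ᵥ v) ha
        simp only [← Matrix.mulVec_mulVec, hv, Matrix.mulVec_zero, Matrix.smul_mulVec] at h2
        exact (smul_eq_zero.1 h2.symm).resolve_left ha0) with h2 | h2
      · exact h2
      · exfalso
        apply hP
        have h3 : P.mulVecLin = 0 := LinearMap.ker_eq_top.1 h2
        ext a b
        have h5 := congrFun (LinearMap.congr_fun h3 (Pi.single b 1)) a
        simpa using h5
    obtain ⟨P', hPP', hP'P⟩ : ∃ P' : Matrix (Fin (d.m j)) (Fin (d.m i)) ℂ,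
        P * P' = 1 ∧ P' * P = 1 := by
      have hfr : Module.finrank ℂ (Fin (d.m j) → ℂ) = Module.finrank ℂ (Fin (d.m i) → ℂ) := by
        rw [Module.finrank_fin_fun, Module.finrank_fin_fun, hi, hj]
      let e := LinearEquiv.ofInjectiveOfFinrankEq P.mulVecLin (LinearMap.ker_eq_bot.1 hker) hfr
      refine ⟨LinearMap.toMatrix' e.symm.toLinearMap, ?_, ?_⟩
      · have h2 : (P * LinearMap.toMatrix' e.symm.toLinearMap).toLin' =
            (1 : Matrix (Fin (d.m i)) (Fin (d.m i)) ℂ).toLin' := by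
          rw [Matrix.toLin'_mul, Matrix.toLin'_toMatrix', Matrix.toLin'_one]
          refine LinearMap.ext fun v => ?_
          exact e.apply_symm_apply v
        exact Matrix.toLin'.injective h2
      · have h2 : (LinearMap.toMatrix' e.symm.toLinearMap * P).toLin' =
            (1 : Matrix (Fin (d.m j)) (Fin (d.m j)) ℂ).toLin' := by
          rw [Matrix.toLin'_mul, Matrix.toLin'_toMatrix', Matrix.toLin'_one]
          refine LinearMap.ext fun v => ?_
          exact e.symm_apply_apply v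
        exact Matrix.toLin'.injective h2
    apply hP
    refine (hFinX g A d).1 i j hij P ?_
    refine Set.Finite.subset (Set.toFinite {P, -P}) ?_
    rintro Y ⟨q, hq, rfl⟩
    obtain ⟨a, ha0, ha, ha'⟩ := hsemi q hq
    have hC := comm_of_gam h1 hq
    have hs := (h1 g A q hq).2
    have hdi := (hForm g A d).1 i hi hri q.1.val q.2.val hC hs
    have hdj := (hForm g A d).1 j hj hrj q.1.val q.2.val hC hs
    have hdet : d.X q.1.val i = a • (P * d.X q.1.val j * P') := by
      have h2 := congrArg (fun Z => Z * P') ha'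
      simp only [Matrix.mul_assoc, hPP', Matrix.mul_one, Matrix.smul_mul] at h2
      rw [h2, Matrix.mul_assoc]
    have h2 := congrArg Matrix.det hdet
    rw [Matrix.det_smul, Matrix.det_conj_of_mul_eq_one hPP' hP'P, hdi, hdj, Fintype.card_fin, hi] at h2
    have h3 : a ^ 2 = 1 := by
      have hν : (q.2 : ℂ) ≠ 0 := q.2.ne_zero
      exact mul_right_cancel₀ hν (by rw [one_mul]; exact h2.symm)
    rw [ha]
    have h3' : (a - 1) * (a + 1) = 0 := by linear_combination h3
    rcases mul_eq_zero.1 h3' with h5 | h5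
    · left
      rw [sub_eq_zero.1 h5, one_smul]
    · right
      rw [eq_neg_of_add_eq_zero_left h5, neg_smul, one_smul]
      rfl
  · -- one of them is not real
    have hdimi : A.comDim (d.p i) = 4 := by rw [d.dim, hi]; norm_num
    have hdimj : A.comDim (d.p j) = 4 := by rw [d.dim, hj]; norm_num
    have hpij : d.p j ≠ d.p i := fun h => hij (d.p_injective h).symm
    obtain ⟨σ, hσ⟩ : ∃ σ : ℂ ≃ₐ[ℚ] ℂ, ¬ (A.Mixed ((d.p i).map σ) ↔ A.Mixed ((d.p j).map σ)) := by
      by_cases hri : cc (d.p i) = d.p i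
      · have hrj : cc (d.p j) ≠ d.p j := fun h => hreal ⟨hri, h⟩
        obtain ⟨σ, hσ⟩ := hA.sep (d.p j) (d.p i) (d.isComp j) (d.isComp i) hdimj hdimi hrj hpij.symm
          (fun h => hpij (by
            have h2 := congrArg cc h
            rw [cc_cc, hri] at h2
            exact h2.symm))
        exact ⟨σ, fun h => hσ h.symm⟩
      · exact hA.sep (d.p i) (d.p j) (d.isComp i) (d.isComp j) hdimi hdimj hri hpij hcc
    apply hσ
    set Q : Matrix (Fin (d.n i)) (Fin (d.n j)) ℂ := fun _ _ => 1 with hQ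
    have hT := T_ne d i j hP (Q := Q) (b' := ⟨0, d.npos i⟩) (b := ⟨0, d.npos j⟩) one_ne_zero
    obtain ⟨hci, -, hei⟩ := And.intro ((hGal g A (d.p i) (d.isComp i)).1 σ).1
      (And.intro trivial ((hGal g A (d.p i) (d.isComp i)).1 σ).2)
    obtain ⟨hcj, -, hej⟩ := And.intro ((hGal g A (d.p j) (d.isComp j)).1 σ).1
      (And.intro trivial ((hGal g A (d.p j) (d.isComp j)).1 σ).2)
    have hmul : ∀ x y : Matrix (Idx g) (Idx g) ℂ, (x * y).map σ = x.map σ * y.map σ := by
      intro x y
      exact Matrix.map_mul (f := (σ : ℂ →+* ℂ))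
    refine hSig g A ((d.p i).map σ) ((d.p j).map σ) hci hcj (by rw [hei, hdimi]) (by rw [hej, hdimj])
      ((d.T i j P Q).map σ) ?_ ?_ ?_ ?_
    · intro h
      apply hT
      ext r s
      have h2 := congrFun (congrFun h r) s
      simpa using h2
    · rw [← hmul, p_mul_T]
    · rw [← hmul, T_mul_p]
    · intro γ hγ
      -- the element `σ⁻¹ γ`
      have hinv : ∀ x : Matrix (Idx g) (Idx g) ℂ, (x.map σ.symm).map σ = x := by
        intro x
        ext r s
        simp
      have hmul' : ∀ x y : Matrix (Idx g) (Idx g) ℂ,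
          (x * y).map σ.symm = x.map σ.symm * y.map σ.symm := by
        intro x y
        exact Matrix.map_mul (f := (σ.symm : ℂ →+* ℂ))
      have hone : (1 : Matrix (Idx g) (Idx g) ℂ).map σ.symm = 1 := by
        rw [Matrix.map_one _ (map_zero _) (map_one _)]
      let q : GL (Idx g) ℂ × ℂˣ := (⟨γ.1.val.map σ.symm, (γ.1⁻¹).val.map σ.symm, by
          rw [← hmul', ← Units.val_mul, mul_inv_cancel, Units.val_one, hone], by
          rw [← hmul', ← Units.val_mul, inv_mul_cancel, Units.val_one, hone]⟩,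
        Units.map (σ.symm : ℂ →* ℂ) γ.2)
      have hq : q ∈ Gam A := h4 g A σ.symm γ hγ q rfl rfl
      obtain ⟨a, -, -, ha⟩ := hsemi q hq
      have hC := comm_of_gam h1 hq
      refine ⟨σ a, ?_⟩
      have h2 : q.1.val * d.T i j P Q = a • (d.T i j P Q * q.1.val) := by
        rw [d.mul_T hC, ha, T_smul, ← d.T_mul hC]
      have h3 := congrArg (fun Z : Matrix (Idx g) (Idx g) ℂ => Z.map σ) h2
      rw [hmul] at h3
      have h5 : q.1.val.map σ = γ.1.val := hinv _
      have h6 : (a • (d.T i j P Q * q.1.val)).map σ =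
          σ a • ((d.T i j P Q).map σ * q.1.val.map σ) := by
        rw [← hmul]
        ext r s
        rw [Matrix.map_apply, Matrix.smul_apply, Matrix.smul_apply, Matrix.map_apply, smul_eq_mul,
          smul_eq_mul, map_mul]
      rw [h6, h5] at h3
      exact h3

end

end Pool.Agent.DRB
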