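import Pool.Agent.DRB.Stmts

open scoped BigOperators

namespace Pool.Agent.DRB

theorem numf_proof : Stmt_Numf := by
  intro d N P x hP hx
  classical
  let S : Set ℂ := (⋃ l : Fin d, ⋃ k : Fin N, ((P l k).coeffs : Set ℂ)) ∪ Set.range x
  have hfin : S.Finite := by
    refine Set.Finite.union ?_ (Set.finite_range x)
    exact Set.finite_iUnion fun l => Set.finite_iUnion fun k => Finset.finite_toSet _
  have hSfin : Finite S := hfin.to_subtype
  have hint : ∀ y ∈ S, IsIntegral ℚ y := by
    intro y hy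
    rcases hy with hy | ⟨k, rfl⟩
    · simp only [Set.mem_iUnion] at hy
      obtain ⟨l, k, hy⟩ := hy
      obtain ⟨n, _, rfl⟩ := MvPolynomial.mem_coeffs_iff.mp hy
      exact (hP l k n).isIntegral
    · exact (hx k).isIntegral
  let L : IntermediateField ℚ ℂ := IntermediateField.adjoin ℚ S
  have hfd : FiniteDimensional ℚ L := IntermediateField.finiteDimensional_adjoin hint
  have hnf : NumberField L := ⟨⟩
  have hmem : ∀ y ∈ S, y ∈ L := fun y hy => IntermediateField.subset_adjoin ℚ S hy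
  have hP' : ∀ l k, ∃ Q : MvPolynomial (Fin N) L,
      MvPolynomial.map (algebraMap L ℂ) Q = P l k := by
    intro l k
    have h1 : P l k ∈ Set.range (MvPolynomial.map (σ := Fin N) (algebraMap L ℂ)) := by
      rw [MvPolynomial.mem_range_map_iff_coeffs_subset]
      intro y hy
      have h2 : y ∈ L := hmem y (Or.inl (Set.mem_iUnion.mpr ⟨l, Set.mem_iUnion.mpr ⟨k, hy⟩⟩))
      exact ⟨⟨y, h2⟩, rfl⟩
    exact h1
  choose Q hQ using hP'
  exact ⟨L, inferInstance, hnf, algebraMap L ℂ, Q,
    fun k => ⟨x k, hmem _ (Or.inr ⟨k, rfl⟩)⟩, fun l k => (hQ l k).symm, fun k => rfl⟩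

end Pool.Agent.DRB
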