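import Pool.Agent.DRB.Stmts
import Pool.Agent.FDR.SL.DORDB
import Pool.Agent.FDR.SL.DPERM

/-! Module ORD. -/

set_option autoImplicit false

open scoped BigOperators Topology
open Matrix Asymptotics Filter

namespace Pool.Agent.DRB

namespace OrdX

theorem count_cl {d : ℕ} (κ : Fin d → ℕ) (i : Fin d) : (cl κ).count i = κ i := by
  unfold cl
  rw [List.count_flatMap, ← Fin.sum_univ_def, Finset.sum_eq_single i]
  · simp
  · intro j _ hj
    simp [List.count_replicate, hj]
  · intro h
    exact absurd (Finset.mem_univ i) h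

theorem length_cl {d : ℕ} (κ : Fin d → ℕ) : (cl κ).length = ∑ j, κ j := by
  unfold cl
  rw [List.length_flatMap, ← Fin.sum_univ_def]
  simp

theorem perm_cl {d : ℕ} (l : List (Fin d)) : l.Perm (cl fun j => l.count j) := by
  rw [List.perm_iff_count]
  intro i
  rw [count_cl]

theorem pdl_eq_dir {d : ℕ} (l : List (Fin d)) (F : (Fin d → ℂ) → ℂ) :
    pdl l F = FDR.dir (l.map fun j => (Pi.single j 1 : Fin d → ℂ)) F := by
  induction l with
  | nil => rfl
  | cons i l ih =>
    funext z
    show pd i (pdl l F) z = _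
    rw [ih]
    rfl

theorem indep (d : ℕ) : LinearIndependent ℂ fun j : Fin d => (Pi.single j 1 : Fin d → ℂ) := by
  have h := (Pi.basisFun ℂ (Fin d)).linearIndependent
  have h2 : (fun j : Fin d => (Pi.single j 1 : Fin d → ℂ)) = ⇑(Pi.basisFun ℂ (Fin d)) := by
    funext j
    rw [Pi.basisFun_apply]
  rw [h2]
  exact h

theorem dir_zero_of {d : ℕ} {F : (Fin d → ℂ) → ℂ} (hF : AnalyticAt ℂ F 0) (l : List (Fin d))
    (h : pdl (cl fun j => l.count j) F 0 = 0) :
    FDR.dir (l.map fun j => (Pi.single j 1 : Fin d → ℂ)) F 0 = 0 := by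
  rw [FDR.SL.DPERM.thm_DPERM _ F 0 hF _ _ ((perm_cl l).map _), ← pdl_eq_dir]
  exact h

end OrdX

open OrdX in
theorem ord_proof : Stmt_Ord := by
  intro d F T hF
  constructor
  · intro h
    have h1 := FDR.SL.DORDA.thm_DORDA d _ (indep d) F 0 hF T fun l hl => dir_zero_of hF l (h _ ?_)
    · simpa using h1
    · rw [← length_cl, ← (perm_cl l).length_eq]
      exact hl
  · intro h
    have h1 := FDR.SL.DORDB.thm_DORDB d _ (indep d) F 0 hF fun l => dir_zero_of hF l (h _)
    exact h1

end Pool.Agent.DRB
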