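import Pool.Agent.DRB.Stmts
import Pool.Agent.DRB.Osgood

/-!
# SCHW: Schwarz's lemma in several variables for zeros at the integral points
-/

set_option autoImplicit false

open scoped BigOperators Topology
open Metric Filter Asymptotics

namespace Pool.Agent.DRB

namespace SchwX

noncomputable section

/-! ## Division in one variable -/

/-- the order of vanishing from the asymptotic bound -/
theorem le_order {g : ℂ → ℂ} {m : ℂ} {k : ℕ} (hg : AnalyticAt ℂ g m)
    (h : g =O[𝓝[≠] m] (fun t => ‖t - m‖ ^ k)) :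
    (k : ℕ∞) ≤ analyticOrderAt g m := by
  by_cases htop : analyticOrderAt g m = ⊤
  · rw [htop]
    exact le_top
  obtain ⟨φ, hφ, hφ0, hgφ⟩ := (hg.analyticOrderAt_ne_top).mp htop
  set n := analyticOrderNatAt g m with hn
  have hn' : analyticOrderAt g m = (n : ℕ∞) := by
    rw [hn, Nat.cast_analyticOrderNatAt htop]
  rw [hn', Nat.cast_le]
  by_contra hlt
  push Not at hlt
  apply hφ0
  obtain ⟨C, hC⟩ := h.bound
  have h3 : ∀ᶠ t in 𝓝[≠] m, ‖φ t‖ ≤ C * ‖t - m‖ ^ (k - n) := by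
    filter_upwards [hC, hgφ.filter_mono nhdsWithin_le_nhds,
      self_mem_nhdsWithin] with t ht1 ht2 ht3
    have ht0 : 0 < ‖t - m‖ := norm_pos_iff.mpr (sub_ne_zero.mpr ht3)
    rw [ht2, norm_smul, norm_pow, norm_pow, norm_norm] at ht1
    have h4 : ‖t - m‖ ^ k = ‖t - m‖ ^ n * ‖t - m‖ ^ (k - n) := by
      rw [← pow_add]
      congr 1
      omega
    rw [h4] at ht1
    have h5 : ‖t - m‖ ^ n * ‖φ t‖ ≤ ‖t - m‖ ^ n * (C * ‖t - m‖ ^ (k - n)) := by
      calc _ ≤ _ := ht1
        _ = _ := by ring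
    exact le_of_mul_le_mul_left h5 (pow_pos ht0 n)
  have h6 : Tendsto (fun t : ℂ => ‖φ t‖) (𝓝[≠] m) (𝓝 ‖φ m‖) :=
    hφ.continuousAt.norm.tendsto.mono_left nhdsWithin_le_nhds
  have h9 : Tendsto (fun t : ℂ => C * ‖t - m‖ ^ (k - n)) (𝓝[≠] m) (𝓝 0) := by
    have h10 : Continuous (fun t : ℂ => C * ‖t - m‖ ^ (k - n)) := by fun_prop
    have h11 := h10.tendsto m
    have h12 : C * ‖m - m‖ ^ (k - n) = 0 := by
      rw [sub_self, norm_zero, zero_pow (by omega), mul_zero]
    rw [h12] at h11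
    exact h11.mono_left nhdsWithin_le_nhds
  have h13 := le_of_tendsto_of_tendsto h6 h9 h3
  exact norm_le_zero_iff.mp h13

/-- dividing by `(t - m) ^ k` -/
theorem div_pow {g : ℂ → ℂ} {R : ℝ} (hg : AnalyticOnNhd ℂ g (ball 0 R)) {m : ℂ}
    (hm : m ∈ ball (0 : ℂ) R) {k : ℕ} (h : (k : ℕ∞) ≤ analyticOrderAt g m) :
    ∃ h : ℂ → ℂ, AnalyticOnNhd ℂ h (ball 0 R) ∧ ∀ t ∈ ball (0 : ℂ) R, g t = (t - m) ^ k * h t := by
  classical
  obtain ⟨φ, hφ, hgφ⟩ := (natCast_le_analyticOrderAt (hg m hm)).mp h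
  simp only [smul_eq_mul] at hgφ
  refine ⟨Function.update (fun t => g t / (t - m) ^ k) m (φ m), ?_, ?_⟩
  · intro t ht
    by_cases htm : t = m
    · rw [htm]
      apply hφ.congr
      filter_upwards [hgφ] with z hz
      by_cases hzm : z = m
      · rw [hzm, Function.update_self]
      · rw [Function.update_of_ne hzm, hz, mul_div_cancel_left₀]
        exact pow_ne_zero _ (sub_ne_zero.mpr hzm)
    · have h1 : AnalyticAt ℂ (fun t => g t / (t - m) ^ k) t := by
        apply (hg t ht).div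
        · fun_prop
        · exact pow_ne_zero _ (sub_ne_zero.mpr htm)
      apply h1.congr
      filter_upwards [isOpen_ne.mem_nhds htm] with z hz
      rw [Function.update_of_ne hz]
  · intro t _
    by_cases htm : t = m
    · subst htm
      rw [Function.update_self, hgφ.self_of_nhds]
    · rw [Function.update_of_ne htm, mul_div_cancel₀]
      exact pow_ne_zero _ (sub_ne_zero.mpr htm)

theorem div_prod {R : ℝ} {k : ℕ} (F : Finset ℂ) : ∀ {g : ℂ → ℂ},
    AnalyticOnNhd ℂ g (ball 0 R) → (∀ m ∈ F, m ∈ ball (0 : ℂ) R) →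
    (∀ m ∈ F, (k : ℕ∞) ≤ analyticOrderAt g m) →
    ∃ h : ℂ → ℂ, AnalyticOnNhd ℂ h (ball 0 R) ∧
      ∀ t ∈ ball (0 : ℂ) R, g t = (∏ m ∈ F, (t - m) ^ k) * h t := by
  classical
  induction F using Finset.induction_on with
  | empty =>
    intro g hg _ _
    exact ⟨g, hg, fun t _ => by simp⟩
  | insert a F ha ih =>
    intro g hg hF hord
    obtain ⟨g1, hg1, hgg1⟩ := div_pow hg (hF a (Finset.mem_insert_self a F))
      (hord a (Finset.mem_insert_self a F))
    have h1 : ∀ m ∈ F, (k : ℕ∞) ≤ analyticOrderAt g1 m := by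
      intro m hm
      have hmR := hF m (Finset.mem_insert_of_mem hm)
      have h2 := hord m (Finset.mem_insert_of_mem hm)
      have h3 : g =ᶠ[𝓝 m] ((fun t => (t - a) ^ k) * g1) := by
        filter_upwards [isOpen_ball.mem_nhds hmR] with t ht
        exact hgg1 t ht
      have h4 : AnalyticAt ℂ (fun t : ℂ => (t - a) ^ k) m := by fun_prop
      have h5 : analyticOrderAt (fun t : ℂ => (t - a) ^ k) m = 0 := by
        rw [h4.analyticOrderAt_eq_zero]
        apply pow_ne_zero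
        rw [sub_ne_zero]
        rintro rfl
        exact ha hm
      rw [analyticOrderAt_congr h3, analyticOrderAt_mul h4 (hg1 m hmR), h5, zero_add] at h2
      exact h2
    obtain ⟨h, hh, hgh⟩ := ih hg1 (fun m hm => hF m (Finset.mem_insert_of_mem hm)) h1
    refine ⟨h, hh, ?_⟩
    intro t ht
    rw [hgg1 t ht, hgh t ht, Finset.prod_insert ha, mul_assoc]

/-! ## The polynomial `Q` -/

/-- `Q(z) = ∏_{|m| ≤ S} (z - m) ^ T` -/
def QQ (T S : ℕ) (z : ℂ) : ℂ := ∏ m ∈ Finset.Icc (-(S : ℤ)) S, (z - (m : ℂ)) ^ T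

theorem norm_int_le {S : ℕ} {m : ℤ} (hm : m ∈ Finset.Icc (-(S : ℤ)) S) : ‖(m : ℂ)‖ ≤ S := by
  rw [Finset.mem_Icc] at hm
  rw [Complex.norm_intCast]
  have := abs_le.mpr hm
  exact_mod_cast this

theorem factor_le {S : ℕ} (hS : 1 ≤ S) {m : ℤ} (hm : m ∈ Finset.Icc (-(S : ℤ)) S) {w z : ℂ}
    (hw : ‖w‖ ≤ 1) (hz : ‖z‖ = 5 * S) : ‖w - m‖ ≤ 1 / 2 * ‖z - m‖ := by
  have h1 := norm_int_le hm
  have h2 := norm_sub_le w (m : ℂ)
  have h3 := norm_sub_norm_le z (m : ℂ)
  have h4 : (1 : ℝ) ≤ S := by exact_mod_cast hS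
  rw [hz] at h3
  linarith

theorem QQ_ne {T S : ℕ} (hS : 1 ≤ S) {z : ℂ} (hz : ‖z‖ = 5 * S) : QQ T S z ≠ 0 := by
  rw [QQ, Finset.prod_ne_zero_iff]
  intro m hm
  apply pow_ne_zero
  rw [sub_ne_zero]
  rintro rfl
  have h1 := norm_int_le hm
  have h4 : (1 : ℝ) ≤ S := by exact_mod_cast hS
  linarith

theorem QQ_le {T S : ℕ} (hS : 1 ≤ S) {w z : ℂ} (hw : ‖w‖ ≤ 1) (hz : ‖z‖ = 5 * S) :
    ‖QQ T S w‖ ≤ (1 / 2) ^ ((2 * S + 1) * T) * ‖QQ T S z‖ := by
  have hcard : (Finset.Icc (-(S : ℤ)) S).card = 2 * S + 1 := by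
    rw [Int.card_Icc]
    omega
  have h1 : ((1 / 2 : ℝ)) ^ ((2 * S + 1) * T) =
      ∏ _m ∈ Finset.Icc (-(S : ℤ)) S, ((1 / 2 : ℝ)) ^ T := by
    rw [Finset.prod_const, hcard, ← pow_mul, mul_comm]
  rw [QQ, QQ, norm_prod, norm_prod, h1, ← Finset.prod_mul_distrib]
  apply Finset.prod_le_prod
  · intro m _
    exact norm_nonneg _
  · intro m hm
    rw [norm_pow, norm_pow, ← mul_pow]
    exact pow_le_pow_left₀ (norm_nonneg _) (factor_le hS hm hw hz) T

theorem continuous_QQ (T S : ℕ) : Continuous (QQ T S) := by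
  unfold QQ
  fun_prop

/-! ## The interpolation functional -/

/-- The kernel. -/
def ker (T S : ℕ) (w z : ℂ) : ℂ := QQ T S w * (QQ T S z * (z - w))⁻¹

theorem norm_ker_le {T S : ℕ} (hS : 1 ≤ S) {w z : ℂ} (hw : ‖w‖ ≤ 1) (hz : ‖z‖ = 5 * S) :
    ‖ker T S w z‖ ≤ (1 / 2) ^ ((2 * S + 1) * T) / (4 * S) := by
  have h4 : (1 : ℝ) ≤ S := by exact_mod_cast hS
  have h1 : 0 < ‖QQ T S z‖ := norm_pos_iff.mpr (QQ_ne hS hz)
  have h2 : 4 * (S : ℝ) ≤ ‖z - w‖ := by
    have := norm_sub_norm_le z w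
    linarith
  have h3 : 0 < ‖z - w‖ := by linarith
  rw [ker, norm_mul, norm_inv, norm_mul, ← div_eq_mul_inv, div_le_div_iff₀ (by positivity)
    (by positivity)]
  calc ‖QQ T S w‖ * (4 * S) ≤ ((1 / 2) ^ ((2 * S + 1) * T) * ‖QQ T S z‖) * ‖z - w‖ :=
        mul_le_mul (QQ_le hS hw hz) h2 (by positivity) (by positivity)
    _ = _ := by ring

theorem continuousOn_ker {T S : ℕ} (hS : 1 ≤ S) {w : ℂ} (hw : ‖w‖ ≤ 1) :
    ContinuousOn (ker T S w) (sphere 0 (5 * S)) := by
  unfold ker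
  apply ContinuousOn.mul continuousOn_const
  apply ContinuousOn.inv₀
  · apply ContinuousOn.mul (continuous_QQ T S).continuousOn
    fun_prop
  · intro z hz
    rw [mem_sphere_zero_iff_norm] at hz
    apply mul_ne_zero (QQ_ne hS hz)
    rw [sub_ne_zero]
    rintro rfl
    have h4 : (1 : ℝ) ≤ S := by exact_mod_cast hS
    linarith

/-- The integral. -/
def JJ (T S : ℕ) (w : ℂ) (f : ℂ → ℂ) : ℂ :=
  (2 * Real.pi * Complex.I : ℂ)⁻¹ * ∮ z in C((0 : ℂ), 5 * S), ker T S w z * f z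

theorem norm_JJ_le {T S : ℕ} (hS : 1 ≤ S) {w : ℂ} (hw : ‖w‖ ≤ 1) {f : ℂ → ℂ} {B : ℝ}
    (hB : ∀ z, ‖z‖ = 5 * S → ‖f z‖ ≤ B) :
    ‖JJ T S w f‖ ≤ 5 / 4 * (1 / 2) ^ ((2 * S + 1) * T) * B := by
  have h4 : (1 : ℝ) ≤ S := by exact_mod_cast hS
  have hB0 : 0 ≤ B := (norm_nonneg _).trans (hB ((5 * S : ℕ) : ℂ) (by
    rw [Complex.norm_natCast]
    push_cast
    rfl))
  have h1 := circleIntegral.norm_two_pi_i_inv_smul_integral_le_of_norm_le_const (c := (0 : ℂ))
    (R := 5 * S) (C := (1 / 2) ^ ((2 * S + 1) * T) / (4 * S) * B)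
    (f := fun z => ker T S w z * f z) (by positivity) (by
      intro z hz
      rw [mem_sphere_zero_iff_norm] at hz
      rw [norm_mul]
      exact mul_le_mul (norm_ker_le hS hw hz) (hB z hz) (norm_nonneg _) (by positivity))
  rw [smul_eq_mul] at h1
  refine h1.trans (le_of_eq ?_)
  field_simp

theorem JJ_eq {T S : ℕ} (hS : 1 ≤ S) {w : ℂ} (hw : ‖w‖ ≤ 1) {f : ℂ → ℂ}
    (hf : Differentiable ℂ f)
    (hz : ∀ m ∈ Finset.Icc (-(S : ℤ)) S, (T : ℕ∞) ≤ analyticOrderAt f (m : ℂ)) :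
    JJ T S w f = f w := by
  classical
  have h4 : (1 : ℝ) ≤ S := by exact_mod_cast hS
  obtain ⟨h, hh, hfh⟩ : ∃ h : ℂ → ℂ, AnalyticOnNhd ℂ h (ball 0 (5 * S + 1)) ∧
      ∀ t ∈ ball (0 : ℂ) (5 * S + 1 : ℝ), f t = QQ T S t * h t := by
    have h1 := div_prod (k := T) (R := 5 * S + 1)
      ((Finset.Icc (-(S : ℤ)) S).image (fun m : ℤ => (m : ℂ)))
      (g := f) (fun z _ => hf.analyticAt z) (by
      intro m hm
      obtain ⟨m', hm', rfl⟩ := Finset.mem_image.mp hm
      rw [mem_ball_zero_iff]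
      have := norm_int_le hm'
      linarith) (by
      intro m hm
      obtain ⟨m', hm', rfl⟩ := Finset.mem_image.mp hm
      exact hz m' hm')
    obtain ⟨h, hh, hgh⟩ := h1
    refine ⟨h, hh, ?_⟩
    intro t ht
    rw [hgh t ht, QQ, Finset.prod_image (fun a _ b _ hab => Int.cast_injective hab)]
  have h1 : (∮ z in C((0 : ℂ), 5 * S), ker T S w z * f z) =
      QQ T S w * ∮ z in C((0 : ℂ), 5 * S), (z - w)⁻¹ * h z := by
    rw [← circleIntegral.integral_const_mul]
    apply circleIntegral.integral_congr (by positivity)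
    intro z hz
    simp only
    rw [mem_sphere_zero_iff_norm] at hz
    rw [hfh z (by rw [mem_ball_zero_iff, hz]; linarith), ker, mul_inv]
    have := QQ_ne (T := T) hS hz
    field_simp
  have h2 : (∮ z in C((0 : ℂ), 5 * S), (z - w)⁻¹ • h z) = (2 * Real.pi * Complex.I : ℂ) • h w := by
    apply DifferentiableOn.circleIntegral_sub_inv_smul
    · apply hh.differentiableOn.mono
      intro z hz
      rw [mem_closedBall, dist_zero_right] at hz
      rw [mem_ball_zero_iff]
      linarith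
    · rw [mem_ball_zero_iff]
      linarith
  simp only [smul_eq_mul] at h2
  rw [JJ, h1, h2, hfh w (by rw [mem_ball_zero_iff]; linarith)]
  have h3 : (2 * Real.pi * Complex.I : ℂ) ≠ 0 := by
    simp [Real.pi_ne_zero]
  field_simp

/-- entire functions -/
def Ent : Submodule ℂ (ℂ → ℂ) where
  carrier := {f | Differentiable ℂ f}
  add_mem' := fun hf hg => Differentiable.add hf hg
  zero_mem' := differentiable_const (0 : ℂ)
  smul_mem' := fun c _ hf => Differentiable.const_smul hf c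

/-- derivatives as functionals -/
def DD (k : ℕ) (m : ℂ) : Ent →ₗ[ℂ] ℂ where
  toFun f := iteratedDeriv k (f : ℂ → ℂ) m
  map_add' := by
    intro f g
    have hf : Differentiable ℂ (f : ℂ → ℂ) := f.2
    have hg : Differentiable ℂ (g : ℂ → ℂ) := g.2
    rw [Submodule.coe_add]
    exact iteratedDeriv_add hf.contDiff.contDiffAt hg.contDiff.contDiffAt
  map_smul' := by
    intro c f
    rw [Submodule.coe_smul, RingHom.id_apply]
    exact iteratedDeriv_const_smul_field c _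

/-- interpolation as a functional -/
def LL {T S : ℕ} (hS : 1 ≤ S) {w : ℂ} (hw : ‖w‖ ≤ 1) : Ent →ₗ[ℂ] ℂ where
  toFun f := (f : ℂ → ℂ) w - JJ T S w (f : ℂ → ℂ)
  map_add' := by
    intro f g
    have hf : Differentiable ℂ (f : ℂ → ℂ) := f.2
    have hg : Differentiable ℂ (g : ℂ → ℂ) := g.2
    have h1 : (∮ z in C((0 : ℂ), 5 * S), ker T S w z * (((f + g : Ent) : ℂ → ℂ) z)) =
        (∮ z in C((0 : ℂ), 5 * S), ker T S w z * (f : ℂ → ℂ) z) +
        ∮ z in C((0 : ℂ), 5 * S), ker T S w z * (g : ℂ → ℂ) z := by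
      rw [← circleIntegral.integral_add]
      · apply circleIntegral.integral_congr (by positivity)
        intro z _
        simp only [Submodule.coe_add, Pi.add_apply, mul_add]
      · apply ContinuousOn.circleIntegrable (by positivity)
        exact (continuousOn_ker hS hw).mul hf.continuous.continuousOn
      · apply ContinuousOn.circleIntegrable (by positivity)
        exact (continuousOn_ker hS hw).mul hg.continuous.continuousOn
    simp only [JJ]
    rw [h1]
    simp only [Submodule.coe_add, Pi.add_apply]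
    ring
  map_smul' := by
    intro c f
    have h1 : (∮ z in C((0 : ℂ), 5 * S), ker T S w z * (((c • f : Ent) : ℂ → ℂ) z)) =
        c * ∮ z in C((0 : ℂ), 5 * S), ker T S w z * (f : ℂ → ℂ) z := by
      rw [← circleIntegral.integral_const_mul]
      apply circleIntegral.integral_congr (by positivity)
      intro z _
      simp only [Submodule.coe_smul, Pi.smul_apply, smul_eq_mul]
      ring
    simp only [JJ]
    rw [h1]
    simp only [Submodule.coe_smul, Pi.smul_apply, smul_eq_mul, RingHom.id_apply]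
    ring

/-- The Hermite interpolation formula. -/
theorem hermite {T S : ℕ} (hS : 1 ≤ S) {w : ℂ} (hw : ‖w‖ ≤ 1) :
    ∃ c : (Finset.Icc (-(S : ℤ)) S) × Fin T → ℂ, ∀ f : ℂ → ℂ, Differentiable ℂ f →
      f w - JJ T S w f = ∑ i, c i * iteratedDeriv (i.2 : ℕ) f ((i.1 : ℤ) : ℂ) := by
  classical
  have h1 : LL (T := T) hS hw ∈ Submodule.span ℂ (Set.range
      (fun i : (Finset.Icc (-(S : ℤ)) S) × Fin T => DD (i.2 : ℕ) ((i.1 : ℤ) : ℂ))) := by
    apply mem_span_of_iInf_ker_le_ker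
    intro f hf
    rw [Submodule.mem_iInf] at hf
    have hfd : Differentiable ℂ (f : ℂ → ℂ) := f.2
    rw [LinearMap.mem_ker]
    change (f : ℂ → ℂ) w - JJ T S w (f : ℂ → ℂ) = 0
    rw [JJ_eq hS hw hfd, sub_self]
    intro m hm
    rw [natCast_le_analyticOrderAt_iff_iteratedDeriv_eq_zero (hfd.analyticAt _)]
    intro k hk
    have := hf (⟨m, hm⟩, ⟨k, hk⟩)
    rw [LinearMap.mem_ker] at this
    exact this
  rw [Submodule.mem_span_range_iff_exists_fun] at h1
  obtain ⟨c, hc⟩ := h1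
  refine ⟨c, ?_⟩
  intro f hf
  have h2 := congrArg (fun L : Ent →ₗ[ℂ] ℂ => L ⟨f, hf⟩) hc
  simp only [LinearMap.sum_apply, LinearMap.smul_apply, smul_eq_mul] at h2
  exact h2.symm

/-! ## Several variables -/

/-- `F` on `ℂ × ℂ^d` -/
def cons {d : ℕ} (t : ℂ) (z : Fin d → ℂ) : Fin (d + 1) → ℂ := Fin.cons t z

theorem continuous_cons {d : ℕ} : Continuous (fun p : (Fin d → ℂ) × ℂ => cons p.2 p.1) := by
  apply continuous_pi
  intro i
  refine Fin.cases ?_ (fun i => ?_) i
  · simpa [cons] using continuous_snd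
  · simp only [cons, Fin.cons_succ]
    fun_prop

theorem differentiable_cons_left {d : ℕ} (z : Fin d → ℂ) :
    Differentiable ℂ (fun t : ℂ => cons t z) := by
  rw [differentiable_pi]
  intro i
  refine Fin.cases ?_ (fun i => ?_) i
  · simpa [cons] using differentiable_id
  · simp only [cons, Fin.cons_succ]
    fun_prop

theorem differentiable_cons_right {d : ℕ} (t : ℂ) :
    Differentiable ℂ (fun z : Fin d → ℂ => cons t z) := by
  rw [differentiable_pi]
  intro i
  refine Fin.cases ?_ (fun i => ?_) i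
  · simp only [cons, Fin.cons_zero]
    fun_prop
  · simp only [cons, Fin.cons_succ]
    fun_prop

theorem norm_cons_sub_le {d : ℕ} (t s : ℂ) (z y : Fin d → ℂ) {ρ : ℝ} (hρ : 0 ≤ ρ)
    (h1 : ‖t - s‖ ≤ ρ) (h2 : ‖z - y‖ ≤ ρ) : ‖cons t z - cons s y‖ ≤ ρ := by
  rw [pi_norm_le_iff_of_nonneg hρ]
  intro i
  refine Fin.cases ?_ (fun i => ?_) i
  · simpa [cons] using h1
  · simp only [cons, Pi.sub_apply, Fin.cons_succ]
    exact (norm_le_pi_norm (z - y) i).trans h2

/-- derivatives in the first variable lower the order -/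
theorem order_deriv {d : ℕ} {F : (Fin (d + 1) → ℂ) → ℂ} (hF : Differentiable ℂ F) {T k : ℕ}
    (hk : k < T) {m : ℂ} {y : Fin d → ℂ}
    (h : F =O[𝓝 (cons m y)] (fun z => ‖z - cons m y‖ ^ ((d + 1) * T))) :
    (fun z => iteratedDeriv k (fun t => F (cons t z)) m) =O[𝓝[≠] y]
      (fun z => ‖z - y‖ ^ (d * T)) := by
  obtain ⟨C, hC⟩ := h.bound
  obtain ⟨δ, hδ, hCδ⟩ := Metric.eventually_nhds_iff.mp hC
  rw [isBigO_iff]
  refine ⟨k.factorial * |C|, ?_⟩
  have h1 : ∀ᶠ z in 𝓝[≠] y, dist z y < min δ 1 :=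
    (Metric.eventually_nhds_iff.mpr ⟨min δ 1, lt_min hδ one_pos, fun z hz => hz⟩).filter_mono
      nhdsWithin_le_nhds
  filter_upwards [h1, self_mem_nhdsWithin] with z hz hzy
  set ρ := ‖z - y‖ with hρ
  have hρ0 : 0 < ρ := norm_pos_iff.mpr (sub_ne_zero.mpr hzy)
  rw [dist_eq_norm, ← hρ, lt_min_iff] at hz
  have hd : Differentiable ℂ (fun t => F (cons t z)) := hF.comp (differentiable_cons_left z)
  have h2 := Complex.norm_iteratedDeriv_le_of_forall_mem_sphere_norm_le (c := m) (R := ρ)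
    (C := |C| * ρ ^ ((d + 1) * T)) (f := fun t => F (cons t z)) k hρ0 hd.diffContOnCl (by
    intro t ht
    rw [mem_sphere, dist_eq_norm] at ht
    have h3 : ‖cons t z - cons m y‖ ≤ ρ := norm_cons_sub_le t m z y hρ0.le ht.le le_rfl
    have h4 := hCδ (y := cons t z) (by
      rw [dist_eq_norm]
      exact lt_of_le_of_lt h3 hz.1)
    refine h4.trans ?_
    rw [norm_pow, norm_norm]
    calc C * ‖cons t z - cons m y‖ ^ ((d + 1) * T)
        ≤ |C| * ‖cons t z - cons m y‖ ^ ((d + 1) * T) :=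
          mul_le_mul_of_nonneg_right (le_abs_self C) (by positivity)
      _ ≤ |C| * ρ ^ ((d + 1) * T) := by
          apply mul_le_mul_of_nonneg_left _ (abs_nonneg C)
          exact pow_le_pow_left₀ (norm_nonneg _) h3 _)
  refine h2.trans ?_
  rw [norm_pow, norm_norm, div_le_iff₀ (pow_pos hρ0 k)]
  have h5 : ρ ^ ((d + 1) * T) = ρ ^ (d * T) * ρ ^ k * ρ ^ (T - k) := by
    rw [← pow_add, ← pow_add]
    congr 1
    have : (d + 1) * T = d * T + T := by ring
    omega
  have h6 : ρ ^ (T - k) ≤ 1 := pow_le_one₀ hρ0.le hz.2.le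
  rw [h5]
  calc (k.factorial : ℝ) * (|C| * (ρ ^ (d * T) * ρ ^ k * ρ ^ (T - k)))
      = (k.factorial * |C| * ρ ^ (d * T) * ρ ^ k) * ρ ^ (T - k) := by ring
    _ ≤ (k.factorial * |C| * ρ ^ (d * T) * ρ ^ k) * 1 := by
        apply mul_le_mul_of_nonneg_left h6
        positivity
    _ = _ := by ring

/-- extending an estimate to the point itself -/
theorem isBigO_punctured {d : ℕ} (hd : 1 ≤ d) {G : (Fin d → ℂ) → ℂ} (hG : Continuous G)
    {y : Fin d → ℂ} {n : ℕ} (h : G =O[𝓝[≠] y] (fun z => ‖z - y‖ ^ n)) :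
    G =O[𝓝 y] (fun z => ‖z - y‖ ^ n) := by
  obtain ⟨C, hC⟩ := h.bound
  have : Nonempty (Fin d) := ⟨⟨0, hd⟩⟩
  have hne : (𝓝[≠] y).NeBot := Module.punctured_nhds_neBot ℂ (Fin d → ℂ) y
  have h1 : ‖G y‖ ≤ C * ‖‖y - y‖ ^ n‖ := by
    apply le_of_tendsto_of_tendsto (b := 𝓝[≠] y) (f := fun z => ‖G z‖)
      (g := fun z => C * ‖‖z - y‖ ^ n‖)
    · exact hG.norm.continuousAt.tendsto.mono_left nhdsWithin_le_nhds
    · have : Continuous (fun z : Fin d → ℂ => C * ‖‖z - y‖ ^ n‖) := by fun_prop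
      exact this.continuousAt.tendsto.mono_left nhdsWithin_le_nhds
    · exact hC
  rw [isBigO_iff]
  refine ⟨C, ?_⟩
  rw [eventually_nhdsWithin_iff] at hC
  filter_upwards [hC] with z hz
  by_cases hzy : z = y
  · rw [hzy]
    exact h1
  · exact hz hzy

/-- The interpolated function. -/
def GG {d : ℕ} (T S : ℕ) (w : ℂ) (F : (Fin (d + 1) → ℂ) → ℂ) (z : Fin d → ℂ) : ℂ :=
  F (cons w z) - JJ T S w (fun t => F (cons t z))

theorem differentiable_GG {d T S : ℕ} (hS : 1 ≤ S) {w : ℂ} (hw : ‖w‖ ≤ 1)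
    {F : (Fin (d + 1) → ℂ) → ℂ} (hF : Differentiable ℂ F) : Differentiable ℂ (GG T S w F) := by
  unfold GG JJ
  apply Differentiable.sub
  · exact hF.comp (differentiable_cons_right w)
  · apply Differentiable.const_mul
    apply Osgood.differentiable_circleIntegral (H := fun z t => F (cons t z))
    · exact hF.continuous.comp continuous_cons
    · intro t
      exact hF.comp (differentiable_cons_right t)
    · positivity
    · exact continuousOn_ker hS hw

theorem order_GG {d T S : ℕ} (hS : 1 ≤ S) {w : ℂ} (hw : ‖w‖ ≤ 1)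
    {F : (Fin (d + 1) → ℂ) → ℂ} (hF : Differentiable ℂ F) {y : Fin d → ℂ}
    (h : ∀ m ∈ Finset.Icc (-(S : ℤ)) S,
      F =O[𝓝 (cons (m : ℂ) y)] (fun z => ‖z - cons (m : ℂ) y‖ ^ ((d + 1) * T))) :
    GG T S w F =O[𝓝[≠] y] (fun z => ‖z - y‖ ^ (d * T)) := by
  classical
  obtain ⟨c, hc⟩ := hermite (T := T) hS hw
  have h1 : GG T S w F = fun z => ∑ i : (Finset.Icc (-(S : ℤ)) S) × Fin T,
      c i * iteratedDeriv (i.2 : ℕ) (fun t => F (cons t z)) ((i.1 : ℤ) : ℂ) := by
    funext z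
    exact hc _ (hF.comp (differentiable_cons_left z))
  rw [h1]
  apply IsBigO.fun_sum
  intro i _
  exact (order_deriv hF i.2.2 (h _ i.1.2)).const_mul_left (c i)

theorem cons_int {d : ℕ} (m : ℤ) (m' : Fin d → ℤ) :
    (fun j => ((Fin.cons m m' : Fin (d + 1) → ℤ) j : ℂ)) = cons (m : ℂ) (fun j => (m' j : ℂ)) := by
  funext j
  refine Fin.cases ?_ (fun i => ?_) j
  · simp [cons]
  · simp [cons]

theorem main (d : ℕ) : ∀ (F : (Fin (d + 1) → ℂ) → ℂ), Differentiable ℂ F →
    ∀ (T S : ℕ) (B : ℝ), 1 ≤ S →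
    (∀ m : Fin (d + 1) → ℤ, (∀ j, |m j| ≤ (S : ℤ)) →
      F =O[𝓝 (fun j => (m j : ℂ))] (fun z => ‖z - fun j => (m j : ℂ)‖ ^ ((d + 1) * T))) →
    (∀ z, (∀ j, ‖z j‖ ≤ 5 * S) → ‖F z‖ ≤ B) →
    ∀ z, (∀ j, ‖z j‖ ≤ 1) → ‖F z‖ ≤ 4 ^ (d + 1) * (1 / 2) ^ ((2 * S + 1) * T) * B := by
  induction d with
  | zero =>
    intro F hF T S B hS hord hB z hz
    have hS' : (1 : ℝ) ≤ S := by exact_mod_cast hS
    set z' : Fin 0 → ℂ := Fin.elim0
    have hz1 : z = cons (z 0) z' := by
      funext j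
      rw [Fin.eq_zero j]
      simp [cons]
    have hf : Differentiable ℂ (fun t => F (cons t z')) := hF.comp (differentiable_cons_left z')
    have h1 : JJ T S (z 0) (fun t => F (cons t z')) = F (cons (z 0) z') := by
      apply JJ_eq hS (hz 0) hf
      intro m hm
      apply le_order (hf.analyticAt _)
      have h2 := hord (Fin.cons m (fun j => j.elim0)) (by
        intro j
        rw [Fin.eq_zero j, Fin.cons_zero]
        rw [Finset.mem_Icc] at hm
        exact abs_le.mpr hm)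
      rw [cons_int] at h2
      have h3 : (fun j : Fin 0 => (((fun j => j.elim0 : Fin 0 → ℤ) j : ℤ) : ℂ)) = z' :=
        funext fun j => j.elim0
      rw [h3] at h2
      have h4 : Tendsto (fun t : ℂ => cons t z') (𝓝[≠] (m : ℂ)) (𝓝 (cons (m : ℂ) z')) :=
        (differentiable_cons_left z').continuous.continuousAt.tendsto.mono_left nhdsWithin_le_nhds
      have h5 := h2.comp_tendsto h4
      refine h5.trans ?_
      rw [isBigO_iff]
      refine ⟨1, Eventually.of_forall fun t => ?_⟩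
      simp only [Function.comp_apply, norm_pow, norm_norm, one_mul, zero_add]
      apply pow_le_pow_left₀ (norm_nonneg _)
      apply norm_cons_sub_le _ _ _ _ (norm_nonneg _) le_rfl
      rw [sub_self, norm_zero]
      exact norm_nonneg _
    have h2 := norm_JJ_le (T := T) hS (hz 0) (f := fun t => F (cons t z')) (B := B) (by
      intro t ht
      apply hB
      intro j
      rw [Fin.eq_zero j]
      simp only [cons, Fin.cons_zero]
      exact ht.le)
    have hB0 : 0 ≤ B := (norm_nonneg _).trans (hB z fun j => (hz j).trans (by linarith))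
    rw [h1, ← hz1] at h2
    refine h2.trans ?_
    rw [mul_assoc, mul_assoc]
    apply mul_le_mul_of_nonneg_right _ (by positivity)
    norm_num
  | succ d ih =>
    intro F hF T S B hS hord hB z hz
    have hS' : (1 : ℝ) ≤ S := by exact_mod_cast hS
    set w := z 0 with hw
    set z' : Fin (d + 1) → ℂ := Fin.tail z with hz'
    have hz1 : z = cons w z' := by
      rw [cons, hw, hz', Fin.cons_self_tail]
    have hB0 : 0 ≤ B := (norm_nonneg _).trans (hB z fun j => (hz j).trans (by linarith))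
    have hε : (1 / 2 : ℝ) ^ ((2 * S + 1) * T) ≤ 1 := pow_le_one₀ (by norm_num) (by norm_num)
    have hε0 : (0 : ℝ) < (1 / 2 : ℝ) ^ ((2 * S + 1) * T) := by positivity
    set ε : ℝ := (1 / 2 : ℝ) ^ ((2 * S + 1) * T) with hεdef
    have hJ : ∀ y : Fin (d + 1) → ℂ, (∀ j, ‖y j‖ ≤ 5 * S) →
        ‖JJ T S w (fun t => F (cons t y))‖ ≤ 5 / 4 * ε * B := by
      intro y hy
      apply norm_JJ_le hS (hz 0)
      intro t ht
      apply hB
      intro j
      refine Fin.cases ?_ (fun i => ?_) j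
      · simp only [cons, Fin.cons_zero]
        exact ht.le
      · simp only [cons, Fin.cons_succ]
        exact hy i
    have hGd := differentiable_GG (T := T) hS (hz 0) hF
    have hGord : ∀ m : Fin (d + 1) → ℤ, (∀ j, |m j| ≤ (S : ℤ)) →
        GG T S w F =O[𝓝 (fun j => (m j : ℂ))]
          (fun z => ‖z - fun j => (m j : ℂ)‖ ^ ((d + 1) * T)) := by
      intro m hm
      apply isBigO_punctured (by omega) hGd.continuous
      apply order_GG hS (hz 0) hF
      intro m₀ hm₀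
      have h2 := hord (Fin.cons m₀ m) (by
        intro j
        refine Fin.cases ?_ (fun i => ?_) j
        · rw [Fin.cons_zero]
          rw [Finset.mem_Icc] at hm₀
          exact abs_le.mpr hm₀
        · rw [Fin.cons_succ]
          exact hm i)
      rw [cons_int] at h2
      exact h2
    have hGB : ∀ y, (∀ j, ‖y j‖ ≤ 5 * S) → ‖GG T S w F y‖ ≤ 9 / 4 * B := by
      intro y hy
      have h1 : ‖F (cons w y)‖ ≤ B := by
        apply hB
        intro j
        refine Fin.cases ?_ (fun i => ?_) j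
        · simp only [cons, Fin.cons_zero]
          have := hz 0
          linarith
        · simp only [cons, Fin.cons_succ]
          exact hy i
      have h2 := hJ y hy
      have h3 : 5 / 4 * ε * B ≤ 5 / 4 * B := by
        have : ε * B ≤ 1 * B := mul_le_mul_of_nonneg_right hε hB0
        linarith
      calc ‖GG T S w F y‖ ≤ ‖F (cons w y)‖ + ‖JJ T S w (fun t => F (cons t y))‖ :=
            norm_sub_le _ _
        _ ≤ 9 / 4 * B := by linarith
    have hz'1 : ∀ j, ‖z' j‖ ≤ 1 := fun j => hz j.succ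
    have h1 := ih (GG T S w F) hGd T S (9 / 4 * B) hS hGord hGB z' hz'1
    have h2 := hJ z' (fun j => (hz'1 j).trans (by linarith))
    have h3 : F z = GG T S w F z' + JJ T S w (fun t => F (cons t z')) := by
      rw [GG, ← hz1]
      ring
    rw [h3]
    refine (norm_add_le _ _).trans ?_
    rw [← hεdef] at h1
    have h4 : (1 : ℝ) ≤ 4 ^ (d + 1) := one_le_pow₀ (by norm_num)
    have h5 : 0 ≤ ε * B := by positivity
    calc _ ≤ 4 ^ (d + 1) * ε * (9 / 4 * B) + 5 / 4 * ε * B := add_le_add h1 h2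
      _ = (9 / 4 * 4 ^ (d + 1) + 5 / 4) * (ε * B) := by ring
      _ ≤ (4 ^ (d + 1 + 1)) * (ε * B) := by
          apply mul_le_mul_of_nonneg_right _ h5
          rw [pow_succ (4 : ℝ) (d + 1)]
          linarith
      _ = _ := by ring

end

end SchwX

theorem schw_proof : Stmt_Schw := by
  intro d F hd hF T S B hS hord hB z hz
  obtain ⟨d, rfl⟩ : ∃ d', d = d' + 1 := ⟨d - 1, by omega⟩
  exact SchwX.main d F hF T S B hS hord hB z hz

end Pool.Agent.DRB
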