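import Pool.Agent.DRB.Stmts
import Pool.Agent.DRB.Osgood

/-!
# Schneider-Lang theorem for periodic systems in several variables: final choice of parameters
-/

open scoped BigOperators Topology
open Filter

namespace Pool.Agent.DRB

noncomputable section

namespace TdX

/-! ### Real estimates -/

theorem exists_D (d T0 : ℕ) (hT0 : 2 ≤ T0) : ∃ D : ℕ, 1 ≤ D ∧ D ≤ T0 ∧
    2 * T0 ^ d ≤ D ^ (d + 1) ∧ D ^ (d + 1) ≤ 2 ^ (d + 2) * T0 ^ d := by
  have hex : ∃ D : ℕ, 2 * T0 ^ d ≤ D ^ (d + 1) := by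
    refine ⟨T0, ?_⟩
    rw [pow_succ, mul_comm]
    exact Nat.mul_le_mul_left _ hT0
  have hpos : 1 ≤ T0 ^ d := Nat.one_le_pow _ _ (by omega)
  classical
  have h1 := Nat.find_spec hex
  have hmin := fun m (hm : m < Nat.find hex) => Nat.find_min hex hm
  have hle : Nat.find hex ≤ T0 := by
    refine Nat.find_min' hex ?_
    rw [pow_succ, mul_comm]
    exact Nat.mul_le_mul_left _ hT0
  generalize Nat.find hex = D at h1 hmin hle
  have hD2 : 2 ≤ D := by
    by_contra hcon
    have hD1 : D ≤ 1 := by omega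
    have := (Nat.pow_le_pow_left hD1 (d + 1))
    rw [one_pow] at this
    omega
  refine ⟨D, by omega, hle, h1, ?_⟩
  have h2 := hmin (D - 1) (by omega)
  have h3 : D ^ (d + 1) ≤ (2 * (D - 1)) ^ (d + 1) := Nat.pow_le_pow_left (by omega) _
  rw [mul_pow] at h3
  have h4 : 2 ^ (d + 1) * (D - 1) ^ (d + 1) ≤ 2 ^ (d + 1) * (2 * T0 ^ d) :=
    Nat.mul_le_mul_left _ (by omega)
  calc D ^ (d + 1) ≤ 2 ^ (d + 1) * (2 * T0 ^ d) := h3.trans h4
    _ = 2 ^ (d + 2) * T0 ^ d := by ring

theorem final_est (d : ℕ) (c A : ℝ) (hc : 0 < c) (m : ℕ) : ∃ T1 : ℕ, ∀ T D : ℕ,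
    T1 ≤ T → 1 ≤ D → D ^ (d + 1) ≤ 2 ^ (d + 2) * T ^ d →
      A * (T : ℝ) ^ m < Real.exp (c * T / D) := by
  set k := (d + 1) * (m + 1) with hk
  set δ : ℝ := c ^ (d + 1) / 2 ^ (d + 2) with hδ
  have hδ0 : 0 < δ := by positivity
  set e : ℝ := δ ^ (m + 1) / (Nat.factorial k : ℝ) with he
  have he0 : 0 < e := by positivity
  obtain ⟨T1, hT1⟩ := exists_nat_gt (A / e)
  refine ⟨max T1 1, fun T D hT hD hDT => ?_⟩
  have hT1' : (T1 : ℝ) ≤ T := by exact_mod_cast (le_max_left _ _).trans hT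
  have hTpos : 1 ≤ T := (le_max_right _ _).trans hT
  have hT0 : (0 : ℝ) < T := by exact_mod_cast hTpos
  have hD0 : (0 : ℝ) < D := by exact_mod_cast hD
  have h1 : A < e * T := by
    have : A / e < T := hT1.trans_le hT1'
    rw [div_lt_iff₀ he0] at this
    linarith
  have h2 : δ * T ≤ (c * T / D) ^ (d + 1) := by
    have h3 : ((D : ℝ)) ^ (d + 1) ≤ 2 ^ (d + 2) * (T : ℝ) ^ d := by exact_mod_cast hDT
    rw [div_pow, le_div_iff₀ (by positivity), mul_pow, hδ]
    calc c ^ (d + 1) / 2 ^ (d + 2) * T * (D : ℝ) ^ (d + 1)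
        ≤ c ^ (d + 1) / 2 ^ (d + 2) * T * (2 ^ (d + 2) * (T : ℝ) ^ d) :=
          mul_le_mul_of_nonneg_left h3 (by positivity)
      _ = c ^ (d + 1) * T ^ (d + 1) := by
          field_simp
          ring
  have h4 : (δ * T) ^ (m + 1) ≤ (c * T / D) ^ k := by
    rw [hk, pow_mul]
    exact pow_le_pow_left₀ (by positivity) h2 _
  have h5 : e * T ^ (m + 1) ≤ Real.exp (c * T / D) := by
    refine le_trans ?_ (Real.pow_div_factorial_le_exp (x := c * T / D) (by positivity) k)
    rw [he, div_mul_eq_mul_div, ← mul_pow]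
    exact div_le_div_of_nonneg_right h4 (by positivity)
  refine lt_of_lt_of_le ?_ h5
  calc A * (T : ℝ) ^ m < (e * T) * (T : ℝ) ^ m := mul_lt_mul_of_pos_right h1 (by positivity)
    _ = e * T ^ (m + 1) := by ring

/-! ### Algebra -/

open MvPolynomial

/-- Iterated derivations. -/
abbrev itd {R : Type} [CommRing R] {d N : ℕ} (P : Fin d → Fin N → MvPolynomial (Fin N) R)
    (ls : List (Fin d)) (Q : MvPolynomial (Fin N) R) : MvPolynomial (Fin N) R :=
  ls.foldr (fun l Q => mkDerivation R (P l) Q) Q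

section alg

variable {R : Type} [CommRing R] {d N : ℕ} (P : Fin d → Fin N → MvPolynomial (Fin N) R)

theorem itd_zero (ls : List (Fin d)) : itd P ls 0 = 0 := by
  induction ls with
  | nil => rfl
  | cons l ls ih =>
    change mkDerivation R (P l) (itd P ls 0) = 0
    rw [ih, map_zero]

theorem itd_add (ls : List (Fin d)) (Q Q' : MvPolynomial (Fin N) R) :
    itd P ls (Q + Q') = itd P ls Q + itd P ls Q' := by
  induction ls with
  | nil => rfl
  | cons l ls ih =>
    change mkDerivation R (P l) (itd P ls (Q + Q')) =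
      mkDerivation R (P l) (itd P ls Q) + mkDerivation R (P l) (itd P ls Q')
    rw [ih, map_add]

theorem itd_smul (ls : List (Fin d)) (c : R) (Q : MvPolynomial (Fin N) R) :
    itd P ls (c • Q) = c • itd P ls Q := by
  induction ls with
  | nil => rfl
  | cons l ls ih =>
    change mkDerivation R (P l) (itd P ls (c • Q)) = c • mkDerivation R (P l) (itd P ls Q)
    rw [ih, Derivation.map_smul]

theorem itd_sum {ι : Type} (s : Finset ι) (ls : List (Fin d)) (c : ι → R)
    (Q : ι → MvPolynomial (Fin N) R) :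
    itd P ls (∑ i ∈ s, c i • Q i) = ∑ i ∈ s, c i • itd P ls (Q i) := by
  classical
  induction s using Finset.induction_on with
  | empty => simp only [Finset.sum_empty]; exact itd_zero P ls
  | insert a s ha ih =>
    rw [Finset.sum_insert ha, Finset.sum_insert ha, itd_add, ih, itd_smul]

theorem map_mkDer {S : Type} [CommRing S] (φ : R →+* S) (p : Fin N → MvPolynomial (Fin N) R)
    (Q : MvPolynomial (Fin N) R) :
    map φ (mkDerivation R p Q) = mkDerivation S (fun k => map φ (p k)) (map φ Q) := by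
  induction Q using MvPolynomial.induction_on with
  | C a => simp
  | add Q Q' h h' => rw [map_add, map_add, map_add, map_add, h, h']
  | mul_X Q i h =>
    rw [Derivation.leibniz, map_add, map_mul, Derivation.leibniz, smul_eq_mul, smul_eq_mul,
      smul_eq_mul, smul_eq_mul, map_mul, map_mul, h, mkDerivation_X, map_X, mkDerivation_X]

theorem map_itd {S : Type} [CommRing S] (φ : R →+* S) (ls : List (Fin d))
    (Q : MvPolynomial (Fin N) R) :
    map φ (itd P ls Q) = itd (fun l k => map φ (P l k)) ls (map φ Q) := by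
  induction ls with
  | nil => rfl
  | cons l ls ih =>
    change map φ (mkDerivation R (P l) (itd P ls Q)) =
      mkDerivation S (fun k => map φ (P l k)) (itd (fun l k => map φ (P l k)) ls (map φ Q))
    rw [map_mkDer, ih]

end alg

theorem eval_map' {L : Type} [Field L] (φ : L →+* ℂ) {N : ℕ} (x : Fin N → L)
    (Q : MvPolynomial (Fin N) L) :
    eval (fun k => φ (x k)) (map φ Q) = φ (eval x Q) := by
  induction Q using MvPolynomial.induction_on with
  | C a => simp
  | add Q Q' h h' => rw [map_add, map_add, map_add, map_add, h, h']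
  | mul_X Q i h => rw [map_mul, map_mul, map_mul, map_mul, h, map_X, eval_X, eval_X]

/-- The exponent of the monomial `∏ X (s j) ^ e j`. -/
def expo {d N D : ℕ} (s : Fin (d + 1) → Fin N) (e : Fin (d + 1) → Fin D) : Fin N →₀ ℕ :=
  ∑ j, Finsupp.single (s j) (e j : ℕ)

theorem prod_eq_monomial {L : Type} [Field L] {d N D : ℕ} (s : Fin (d + 1) → Fin N)
    (e : Fin (d + 1) → Fin D) :
    (∏ j, X (s j) ^ (e j : ℕ) : MvPolynomial (Fin N) L) = monomial (expo s e) 1 := by
  unfold expo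
  rw [monomial_sum_one]
  exact Finset.prod_congr rfl fun j _ => X_pow_eq_monomial

theorem expo_degree {d N D : ℕ} (s : Fin (d + 1) → Fin N) (e : Fin (d + 1) → Fin D) :
    (expo s e).degree ≤ (d + 1) * D := by
  unfold expo
  rw [map_sum]
  simp only [Finsupp.degree_single]
  calc ∑ j, (e j : ℕ) ≤ ∑ _j : Fin (d + 1), D := Finset.sum_le_sum fun j _ => (e j).2.le
    _ = (d + 1) * D := by simp

/-- The arithmetic side. -/
def xi {L : Type} [Field L] [NumberField L] {d N D : ℕ}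
    (P : Fin d → Fin N → MvPolynomial (Fin N) L) (x : Fin N → L) (s : Fin (d + 1) → Fin N)
    (p : (Fin (d + 1) → Fin D) → NumberField.RingOfIntegers L) (ls : List (Fin d)) : L :=
  ∑ e, (p e : L) * eval x (itd P ls (∏ j, X (s j) ^ (e j : ℕ)))

/-- The analytic side. -/
def GG {d N D : ℕ} (S : SLData d N) (s : Fin (d + 1) → Fin N) (p : (Fin (d + 1) → Fin D) → ℂ)
    (w : Fin d → ℂ) : ℂ :=
  ∑ e, p e * ∏ j, (S.a (s j) w / S.b w) ^ (e j : ℕ)

theorem pdl_GG (hLink : Stmt_Link) {d N D : ℕ} (S : SLData d N) {L : Type} [Field L]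
    [NumberField L] (φ : L →+* ℂ) (P : Fin d → Fin N → MvPolynomial (Fin N) L) (x : Fin N → L)
    (hP : ∀ l k z, S.b z ≠ 0 → pd l (fun w => S.a k w / S.b w) z =
      eval (fun i => S.a i z / S.b z) (map φ (P l k)))
    (hx : ∀ k, S.a k 0 / S.b 0 = φ (x k)) (s : Fin (d + 1) → Fin N)
    (p : (Fin (d + 1) → Fin D) → NumberField.RingOfIntegers L) (ls : List (Fin d)) :
    pdl ls (GG S s fun e => φ (p e)) 0 = φ (xi P x s p ls) := by
  have h1 := hLink d N S (fun l k => map φ (P l k)) hP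
    (map φ (∑ e, (p e : L) • ∏ j, X (s j) ^ (e j : ℕ))) ls 0 S.b_zero
  have h2 : (fun w => eval (fun i => S.a i w / S.b w)
      (map φ (∑ e, (p e : L) • ∏ j, X (s j) ^ (e j : ℕ) : MvPolynomial (Fin N) L))) =
      GG S s fun e => φ (p e) := by
    funext w
    unfold GG
    rw [map_sum, map_sum]
    refine Finset.sum_congr rfl fun e _ => ?_
    rw [smul_eq_C_mul, map_mul, map_mul, map_C, eval_C, map_prod, map_prod]
    congr 1
    refine Finset.prod_congr rfl fun j _ => ?_
    rw [map_pow, map_X, map_pow, eval_X]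
  rw [h2] at h1
  rw [h1]
  change eval _ (itd (fun l k => map φ (P l k)) ls _) = _
  rw [← map_itd]
  have h3 : (fun i => S.a i 0 / S.b 0) = fun i => φ (x i) := funext hx
  rw [h3, eval_map', itd_sum, map_sum]
  unfold xi
  congr 1
  refine Finset.sum_congr rfl fun e _ => ?_
  rw [smul_eq_C_mul, map_mul, eval_C]

/-! ### The auxiliary function does not vanish identically -/

theorem GG_analyticAt {d N D : ℕ} (S : SLData d N) (s : Fin (d + 1) → Fin N)
    (p : (Fin (d + 1) → Fin D) → ℂ) {z : Fin d → ℂ} (hz : S.b z ≠ 0) :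
    AnalyticAt ℂ (GG S s p) z := by
  unfold GG
  refine Finset.analyticAt_fun_sum _ fun e _ => ?_
  refine analyticAt_const.mul ?_
  refine Finset.analyticAt_fun_prod _ fun j _ => ?_
  exact ((differentiable_analyticAt (S.a_entire _) z).div
    (differentiable_analyticAt S.b_entire z) hz).pow _

/-- `b ^ M G` is entire. -/
def HH {d N D : ℕ} (S : SLData d N) (s : Fin (d + 1) → Fin N) (p : (Fin (d + 1) → Fin D) → ℂ)
    (w : Fin d → ℂ) : ℂ :=
  ∑ e, p e * ∏ j, (S.a (s j) w ^ (e j : ℕ) * S.b w ^ (D - (e j : ℕ)))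

theorem HH_eq {d N D : ℕ} (S : SLData d N) (s : Fin (d + 1) → Fin N)
    (p : (Fin (d + 1) → Fin D) → ℂ) {w : Fin d → ℂ} (hw : S.b w ≠ 0) :
    HH S s p w = S.b w ^ ((d + 1) * D) * GG S s p w := by
  unfold HH GG
  rw [Finset.mul_sum]
  refine Finset.sum_congr rfl fun e _ => ?_
  rw [mul_left_comm]
  congr 1
  have h1 : S.b w ^ ((d + 1) * D) = ∏ _j : Fin (d + 1), S.b w ^ D := by
    rw [Finset.prod_const, Finset.card_univ, Fintype.card_fin, ← pow_mul, mul_comm]
  rw [h1, ← Finset.prod_mul_distrib]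
  refine Finset.prod_congr rfl fun j _ => ?_
  have h2 : S.b w ^ D = S.b w ^ (D - (e j : ℕ)) * S.b w ^ (e j : ℕ) := by
    rw [← pow_add]
    congr 1
    have := (e j).2
    omega
  rw [h2, div_pow]
  field_simp

theorem HH_entire {d N D : ℕ} (S : SLData d N) (s : Fin (d + 1) → Fin N)
    (p : (Fin (d + 1) → Fin D) → ℂ) : AnalyticOnNhd ℂ (HH S s p) Set.univ := by
  intro z _
  unfold HH
  refine Finset.analyticAt_fun_sum _ fun e _ => ?_
  refine analyticAt_const.mul ?_
  refine Finset.analyticAt_fun_prod _ fun j _ => ?_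
  exact ((differentiable_analyticAt (S.a_entire _) z).pow _).mul
    ((differentiable_analyticAt S.b_entire z).pow _)

theorem exists_pdl_ne (hOrd : Stmt_Ord) {d N D : ℕ} (S : SLData d N) (s : Fin (d + 1) → Fin N)
    (hno : ∀ R : MvPolynomial (Fin (d + 1)) ℂ, R ≠ 0 →
      ∃ z, S.b z ≠ 0 ∧ eval (fun j => S.a (s j) z / S.b z) R ≠ 0)
    (p : (Fin (d + 1) → Fin D) → ℂ) (hp : p ≠ 0) :
    ∃ κ : Fin d → ℕ, pdl (cl κ) (GG S s p) 0 ≠ 0 := by
  by_contra hcon
  push Not at hcon
  have h1 := (hOrd d (GG S s p) 0 (GG_analyticAt S s p S.b_zero)).2 hcon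
  have hb : ∀ᶠ w in 𝓝 (0 : Fin d → ℂ), S.b w ≠ 0 :=
    S.b_entire.continuous.continuousAt.eventually_ne S.b_zero
  have h2 : HH S s p =ᶠ[𝓝 0] 0 := by
    filter_upwards [h1, hb] with w hw hbw
    rw [HH_eq S s p hbw, hw]
    simp
  have h3 : HH S s p = 0 := by
    have h4 := (HH_entire S s p).eqOn_of_preconnected_of_eventuallyEq
      (g := 0) (fun z _ => analyticAt_const) isPreconnected_univ (Set.mem_univ 0) h2
    funext w
    exact h4 (Set.mem_univ w)
  -- the relation
  let ex : (Fin (d + 1) → Fin D) → (Fin (d + 1) →₀ ℕ) := fun e =>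
    Finsupp.equivFunOnFinite.symm fun j => (e j : ℕ)
  have hex : Function.Injective ex := by
    intro e e' h
    funext j
    have := congrArg (fun f : Fin (d + 1) →₀ ℕ => f j) h
    exact Fin.ext this
  let R : MvPolynomial (Fin (d + 1)) ℂ := ∑ e, monomial (ex e) (p e)
  have hR : R ≠ 0 := by
    intro h
    apply hp
    funext e
    have h5 := congrArg (coeff (ex e)) h
    change coeff (ex e) (∑ e', monomial (ex e') (p e')) = _ at h5
    rw [coeff_sum, Finset.sum_eq_single e, coeff_monomial, if_pos rfl, coeff_zero] at h5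
    · exact h5
    · intro e' _ he'
      rw [coeff_monomial, if_neg]
      intro h6
      exact he' (hex h6)
    · intro h6
      exact absurd (Finset.mem_univ e) h6
  obtain ⟨z, hz, hne⟩ := hno R hR
  apply hne
  have h6 : eval (fun j => S.a (s j) z / S.b z) R = GG S s p z := by
    change eval _ (∑ e, monomial (ex e) (p e)) = _
    rw [map_sum]
    unfold GG
    refine Finset.sum_congr rfl fun e _ => ?_
    rw [eval_monomial, Finsupp.prod_fintype]
    · rfl
    · intro i
      exact pow_zero _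
  rw [h6]
  have h7 := HH_eq S s p hz
  rw [h3] at h7
  have h8 : S.b z ^ ((d + 1) * D) ≠ 0 := pow_ne_zero _ hz
  rcases mul_eq_zero.1 h7.symm with h | h
  · exact absurd h h8
  · exact h

/-! ### Size of the numbers -/

theorem xi_size {L : Type} [Field L] [NumberField L] {d N D : ℕ}
    (P : Fin d → Fin N → MvPolynomial (Fin N) L) (x : Fin N → L) (s : Fin (d + 1) → Fin N)
    {q : ℕ} {C : ℝ} (hC : 1 ≤ C)
    (hder : ∀ (e : Fin N →₀ ℕ) (ls : List (Fin d)),
      IsIntegral ℤ ((q : L) ^ (e.degree + ls.length) * eval x (itd P ls (monomial e 1))) ∧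
      NumberField.house (eval x (itd P ls (monomial e 1))) ≤
        C ^ (e.degree + ls.length) * ((e.degree + ls.length : ℕ) : ℝ) ^ ls.length)
    (p : (Fin (d + 1) → Fin D) → NumberField.RingOfIntegers L) {B : ℝ}
    (hp : ∀ e, NumberField.house (p e : L) ≤ B) (ls : List (Fin d)) :
    IsIntegral ℤ (((q ^ ((d + 1) * D + ls.length) : ℕ) : L) * xi P x s p ls) ∧
    NumberField.house (xi P x s p ls) ≤ (D : ℝ) ^ (d + 1) * (B * (C ^ ((d + 1) * D + ls.length) *
      (((d + 1) * D + ls.length : ℕ) : ℝ) ^ ls.length)) := by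
  unfold xi
  constructor
  · rw [Finset.mul_sum]
    refine IsIntegral.sum _ fun e _ => ?_
    rw [prod_eq_monomial]
    have h1 := (hder (expo s e) ls).1
    have h2 : (((q ^ ((d + 1) * D + ls.length) : ℕ) : L) *
        ((p e : L) * eval x (itd P ls (monomial (expo s e) 1)))) =
        (p e : L) * ((q : L) ^ ((d + 1) * D - (expo s e).degree) *
          ((q : L) ^ ((expo s e).degree + ls.length) *
            eval x (itd P ls (monomial (expo s e) 1)))) := by
      rw [← mul_assoc ((q : L) ^ _) ((q : L) ^ _), ← pow_add]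
      have h3 : (d + 1) * D - (expo s e).degree + ((expo s e).degree + ls.length) =
          (d + 1) * D + ls.length := by
        have := expo_degree s e
        omega
      rw [h3]
      push_cast
      ring
    rw [h2]
    refine (NumberField.RingOfIntegers.isIntegral_coe (p e)).mul (IsIntegral.mul ?_ h1)
    have h4 : IsIntegral ℤ (q : L) := by
      have := isIntegral_algebraMap (R := ℤ) (A := L) (x := (q : ℤ))
      simpa using this
    exact h4.pow _
  · refine (NumberField.house_sum_le_sum_house _ _).trans ?_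
    have hle : ∀ e, NumberField.house ((p e : L) * eval x (itd P ls (∏ j, X (s j) ^ (e j : ℕ)))) ≤
        B * (C ^ ((d + 1) * D + ls.length) *
          (((d + 1) * D + ls.length : ℕ) : ℝ) ^ ls.length) := by
      intro e
      have hB0 : 0 ≤ B := (NumberField.house_nonneg _).trans (hp e)
      rw [prod_eq_monomial]
      refine (NumberField.house_mul_le _ _).trans ?_
      refine mul_le_mul (hp e) (((hder (expo s e) ls).2).trans ?_) (NumberField.house_nonneg _) hB0
      have h5 := expo_degree s e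
      refine mul_le_mul ?_ ?_ (by positivity) (by positivity)
      · exact pow_le_pow_right₀ hC (by omega)
      · refine pow_le_pow_left₀ (by positivity) ?_ _
        exact_mod_cast (by omega : (expo s e).degree + ls.length ≤ (d + 1) * D + ls.length)
    refine (Finset.sum_le_sum fun e _ => hle e).trans ?_
    rw [Finset.sum_const, Finset.card_univ, Fintype.card_fun, Fintype.card_fin, Fintype.card_fin,
      nsmul_eq_mul]
    push_cast
    exact le_rfl

theorem length_cl {d : ℕ} (κ : Fin d → ℕ) : (cl κ).length = ∑ j, κ j := by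
  unfold cl
  rw [List.length_flatMap, Fin.sum_univ_def]
  congr 1
  refine List.map_congr_left fun j _ => ?_
  exact List.length_replicate

/-- The final contradiction. -/
theorem contra {d h m T T0 D q : ℕ} {c C C1 C2 A B H1 y : ℝ} (hC : 1 ≤ C)
    (hC1 : 1 ≤ C1) (hC2 : 1 ≤ C2) (hq : 1 ≤ q) (hT : 1 ≤ T) (hD1 : 1 ≤ D) (hDT0 : D ≤ T0)
    (hT0 : T0 ≤ T)
    (hB : B = q ^ (d + 2) * C1 ^ 2 * 2 * C2 ^ (d + 2) * (d + 2))
    (hA : A = 2 * C1 ^ 2 * C * B ^ h) (hm : m = 2 + (d + 3) * h)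
    (hH1 : H1 = C1 ^ (D + T0) * ((D + T0 : ℕ) : ℝ) ^ T0)
    (hy : y ≤ H1 * C ^ T * (T : ℝ) ^ T * Real.exp (-(c * (T : ℝ) ^ 2 / D)))
    (hlow : 1 ≤ y * (((q ^ ((d + 1) * D + T) : ℕ) : ℝ) * ((D : ℝ) ^ (d + 1) *
      (H1 * (C2 ^ ((d + 1) * D + T) * (((d + 1) * D + T : ℕ) : ℝ) ^ T)))) ^ h)
    (hfin : A * (T : ℝ) ^ m < Real.exp (c * T / D)) : False := by
  have hT' : (1 : ℝ) ≤ T := by exact_mod_cast hT
  have hD0 : (0 : ℝ) < D := by exact_mod_cast hD1
  have hq' : (1 : ℝ) ≤ q := by exact_mod_cast hq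
  have hH1le : H1 ≤ (C1 ^ 2 * (2 * T)) ^ T := by
    rw [hH1, mul_pow]
    refine mul_le_mul ?_ ?_ (by positivity) (by positivity)
    · rw [← pow_mul]
      exact pow_le_pow_right₀ hC1 (by omega)
    · calc ((D + T0 : ℕ) : ℝ) ^ T0 ≤ (2 * T : ℝ) ^ T0 := by
            refine pow_le_pow_left₀ (by positivity) ?_ _
            exact_mod_cast (by omega : D + T0 ≤ 2 * T)
        _ ≤ (2 * T : ℝ) ^ T := pow_le_pow_right₀ (by linarith) hT0
  have hH10 : 0 ≤ H1 := by rw [hH1]; positivity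
  have hMT : (d + 1) * D + T ≤ (d + 2) * T := by
    have : (d + 1) * D ≤ (d + 1) * T := Nat.mul_le_mul_left _ (hDT0.trans hT0)
    calc (d + 1) * D + T ≤ (d + 1) * T + T := by omega
      _ = (d + 2) * T := by ring
  have hn : ((q ^ ((d + 1) * D + T) : ℕ) : ℝ) ≤ ((q : ℝ) ^ (d + 2)) ^ T := by
    push_cast
    rw [← pow_mul]
    exact pow_le_pow_right₀ hq' hMT
  have hDd : (D : ℝ) ^ (d + 1) ≤ ((T : ℝ) ^ (d + 1)) ^ T := by
    calc (D : ℝ) ^ (d + 1) ≤ (T : ℝ) ^ (d + 1) := by
          refine pow_le_pow_left₀ (by positivity) ?_ _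
          exact_mod_cast hDT0.trans hT0
      _ ≤ ((T : ℝ) ^ (d + 1)) ^ T := le_self_pow₀ (one_le_pow₀ hT') (by omega)
  have hC2le : C2 ^ ((d + 1) * D + T) ≤ (C2 ^ (d + 2)) ^ T := by
    rw [← pow_mul]
    exact pow_le_pow_right₀ hC2 hMT
  have hMTle : (((d + 1) * D + T : ℕ) : ℝ) ^ T ≤ ((d + 2) * T : ℝ) ^ T := by
    refine pow_le_pow_left₀ (by positivity) ?_ _
    exact_mod_cast hMT
  have hBig : ((q ^ ((d + 1) * D + T) : ℕ) : ℝ) * ((D : ℝ) ^ (d + 1) *
      (H1 * (C2 ^ ((d + 1) * D + T) * (((d + 1) * D + T : ℕ) : ℝ) ^ T))) ≤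
      (B * (T : ℝ) ^ (d + 3)) ^ T := by
    have h1 : (B * (T : ℝ) ^ (d + 3)) ^ T = ((q : ℝ) ^ (d + 2)) ^ T * (((T : ℝ) ^ (d + 1)) ^ T *
        ((C1 ^ 2 * (2 * T)) ^ T * ((C2 ^ (d + 2)) ^ T * ((d + 2) * T : ℝ) ^ T))) := by
      rw [← mul_pow, ← mul_pow, ← mul_pow, ← mul_pow, hB]
      congr 1
      ring
    rw [h1]
    refine mul_le_mul hn ?_ (by positivity) (by positivity)
    refine mul_le_mul hDd ?_ (by positivity) (by positivity)
    refine mul_le_mul hH1le ?_ (by positivity) (by positivity)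
    exact mul_le_mul hC2le hMTle (by positivity) (by positivity)
  have hB0 : 0 ≤ B := by rw [hB]; positivity
  have hA0 : 0 ≤ A := by rw [hA]; positivity
  have h2 : (1 : ℝ) ≤ (A * (T : ℝ) ^ m * Real.exp (-(c * T / D))) ^ T := by
    refine hlow.trans ?_
    have h3 : (A * (T : ℝ) ^ m * Real.exp (-(c * T / D))) ^ T =
        ((C1 ^ 2 * (2 * T)) ^ T * C ^ T * (T : ℝ) ^ T * Real.exp (-(c * (T : ℝ) ^ 2 / D))) *
          ((B * (T : ℝ) ^ (d + 3)) ^ T) ^ h := by
      have h4 : Real.exp (-(c * (T : ℝ) ^ 2 / D)) = Real.exp (-(c * T / D)) ^ T := by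
        rw [← Real.exp_nat_mul]
        congr 1
        ring
      rw [h4, ← pow_mul, mul_comm T h, pow_mul, ← mul_pow, ← mul_pow, ← mul_pow, ← mul_pow]
      congr 1
      rw [hA, hm, mul_pow B, ← pow_mul, pow_add]
      ring
    rw [h3]
    refine mul_le_mul (hy.trans ?_) (pow_le_pow_left₀ (by positivity) hBig _) (by positivity)
      (by positivity)
    gcongr
  have h5 : A * (T : ℝ) ^ m * Real.exp (-(c * T / D)) < 1 := by
    rw [Real.exp_neg]
    rw [← div_eq_mul_inv, div_lt_one (Real.exp_pos _)]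
    exact hfin
  have h6 : (A * (T : ℝ) ^ m * Real.exp (-(c * T / D))) ^ T < 1 :=
    pow_lt_one₀ (by positivity) h5 (by omega)
  linarith

end TdX

open TdX MvPolynomial in
theorem td_proof (hUp : Stmt_Up) (hDer : Stmt_Der) (hLink : Stmt_Link) (hAux : Stmt_Aux)
    (hLow : Stmt_Low) (hNumf : Stmt_Numf) (hOrd : Stmt_Ord) : Stmt_Td := by
  intro d N S s hd
  by_contra hcon
  have hno : ∀ R : MvPolynomial (Fin (d + 1)) ℂ, R ≠ 0 →
      ∃ z, S.b z ≠ 0 ∧ eval (fun j => S.a (s j) z / S.b z) R ≠ 0 := by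
    intro R hR
    by_contra h
    apply hcon
    refine ⟨R, hR, fun z hz => ?_⟩
    by_contra h'
    exact h ⟨z, hz, h'⟩
  choose P hPalg hP using S.der
  obtain ⟨L, _, _, φ, P', x', hP', hx'⟩ := hNumf d N P (fun k => S.a k 0 / S.b 0) hPalg S.alg0
  obtain ⟨c, C, hc, hC, hup⟩ := hUp d N S s hd
  obtain ⟨q, C2, hq, hC2, hder⟩ := hDer L d N P' x'
  obtain ⟨C1, hC1, haux⟩ := hAux L d N P' x' s
  obtain ⟨T1, hT1⟩ := final_est d c
    (2 * C1 ^ 2 * C * (q ^ (d + 2) * C1 ^ 2 * 2 * C2 ^ (d + 2) * (d + 2)) ^ Module.finrank ℚ L) hc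
    (2 + (d + 3) * Module.finrank ℚ L)
  obtain ⟨T0, hT0⟩ : ∃ T0, T0 = max T1 2 := ⟨_, rfl⟩
  obtain ⟨D, hD1, hDT0, hD2, hD3⟩ := exists_D d T0 (by omega)
  obtain ⟨p, hp0, hpv, hph⟩ := haux D T0 hD1 (by omega) hD2
  have hlink : ∀ ls, pdl ls (GG S s fun e => φ (p e)) 0 = φ (xi P' x' s p ls) := fun ls =>
    pdl_GG hLink S φ P' x' (fun l k z hz => by rw [hP l k z hz, hP' l k]) hx' s p ls
  have hpC : (fun e => φ (p e : L)) ≠ 0 := by
    intro h
    apply hp0
    funext e
    have h1 := congrFun h e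
    have h2 : (p e : L) = 0 := (map_eq_zero_iff φ φ.injective).1 h1
    exact NumberField.RingOfIntegers.ext (by simpa using h2)
  have hex : ∃ T : ℕ, ∃ κ : Fin d → ℕ, ∑ j, κ j = T ∧
      pdl (cl κ) (GG S s fun e => φ (p e)) 0 ≠ 0 := by
    obtain ⟨κ, hκ⟩ := exists_pdl_ne hOrd S s hno (fun e => φ (p e : L)) hpC
    exact ⟨_, κ, rfl, hκ⟩
  classical
  have hspec := Nat.find_spec hex
  have hmin := fun m (hm : m < Nat.find hex) => Nat.find_min hex hm
  generalize Nat.find hex = T at hspec hmin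
  obtain ⟨κ, hκT, hκ⟩ := hspec
  have hTT0 : T0 ≤ T := by
    by_contra hlt
    apply hκ
    rw [hlink]
    have h1 : xi P' x' s p (cl κ) = 0 := hpv κ (by omega)
    rw [h1, map_zero]
  have hvan : ∀ κ : Fin d → ℕ, ∑ j, κ j < T →
      pdl (cl κ) (GG S s fun e => φ (p e)) 0 = 0 := by
    intro κ' hκ'
    by_contra hne
    exact hmin _ hκ' ⟨κ', rfl, hne⟩
  have hlen : (cl κ).length = T := by rw [length_cl, hκT]
  have hpn : ∀ e, ‖φ (p e : L)‖ ≤ C1 ^ (D + T0) * ((D + T0 : ℕ) : ℝ) ^ T0 := fun e =>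
    (NumberField.norm_embedding_le_house _ _).trans (hph e)
  have hy := hup D T (fun e => φ (p e : L)) _ hD1 (hDT0.trans hTT0) hpn hvan κ hκT
  have hsize := xi_size P' x' s hC2 hder p hph (cl κ)
  rw [hlen] at hsize
  have hxi : xi P' x' s p (cl κ) ≠ 0 := by
    intro h
    apply hκ
    rw [hlink, h, map_zero]
  have hDr : (1 : ℝ) ≤ D := by exact_mod_cast hD1
  have hlow := hLow L φ (xi P' x' s p (cl κ)) (q ^ ((d + 1) * D + T)) _ hxi
    (Nat.one_le_pow _ _ hq) (by
      refine one_le_mul_of_one_le_of_one_le (one_le_pow₀ hDr) ?_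
      refine one_le_mul_of_one_le_of_one_le ?_ ?_
      · refine one_le_mul_of_one_le_of_one_le (one_le_pow₀ hC1) (one_le_pow₀ ?_)
        exact_mod_cast (by omega : 1 ≤ D + T0)
      · refine one_le_mul_of_one_le_of_one_le (one_le_pow₀ hC2) (one_le_pow₀ ?_)
        exact_mod_cast (by omega : 1 ≤ (d + 1) * D + T)) hsize.1 hsize.2
  rw [← hlink] at hlow
  refine contra (c := c) hC hC1 hC2 hq (by omega) hD1 hDT0 hTT0 rfl rfl rfl rfl
    hy hlow (hT1 T D (by omega) hD1 (hD3.trans ?_))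
  exact Nat.mul_le_mul_left _ (Nat.pow_le_pow_left hTT0 _)

end

end Pool.Agent.DRB
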